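import Mathlib
import Pool.Agent.Lib.SCV.Hartogs

/-!
# MP_ae5b4e_an, project NB tools: meromorphic functions of two variables

`MerAt f p`: near `p` the function `f` is a quotient of analytic functions, off the zeros of the
denominator.  `EqM f g p`: `f` and `g` agree near `p` off the zeros of an analytic function.
-/

noncomputable section

namespace Pool.Agent.MP_ae5b4e_an_NBT

open Complex Set Filter Topology Metric

/-- `B` is analytic near `p` and not locally zero -/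
structure Den (B : ℂ × ℂ → ℂ) (p : ℂ × ℂ) : Prop where
  an : AnalyticAt ℂ B p
  ne : ¬ ∀ᶠ q in 𝓝 p, B q = 0

/-- two functions agree near `p` off the zeros of an analytic function -/
def EqM (f g : ℂ × ℂ → ℂ) (p : ℂ × ℂ) : Prop :=
  ∃ B : ℂ × ℂ → ℂ, Den B p ∧ ∀ᶠ q in 𝓝 p, B q ≠ 0 → f q = g q

/-- `f` is meromorphic near `p` -/
def MerAt (f : ℂ × ℂ → ℂ) (p : ℂ × ℂ) : Prop :=
  ∃ A B : ℂ × ℂ → ℂ, AnalyticAt ℂ A p ∧ Den B p ∧ ∀ᶠ q in 𝓝 p, B q ≠ 0 → f q = A q / B q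

/-- `f` is meromorphic on `U` -/
def Mer (f : ℂ × ℂ → ℂ) (U : Set (ℂ × ℂ)) : Prop := ∀ p ∈ U, MerAt f p

/-! ### Denominators -/

/-- an analytic function near `p` which vanishes near a point of a small ball vanishes near `p` -/
lemma exists_ball {B : ℂ × ℂ → ℂ} {p : ℂ × ℂ} (h : AnalyticAt ℂ B p) :
    ∃ r > 0, AnalyticOnNhd ℂ B (ball p r) ∧
      ∀ q ∈ ball p r, (∀ᶠ x in 𝓝 q, B x = 0) → ∀ x ∈ ball p r, B x = 0 := by
  obtain ⟨r, hr, h1⟩ := Metric.eventually_nhds_iff_ball.1 h.eventually_analyticAt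
  refine ⟨r, hr, h1, fun q hq h2 => ?_⟩
  have h3 := AnalyticOnNhd.eqOn_zero_of_preconnected_of_eventuallyEq_zero (f := B)
    (U := ball p r) h1 (convex_ball p r).isPreconnected hq h2
  exact h3

lemma Den.eventually {B : ℂ × ℂ → ℂ} {p : ℂ × ℂ} (h : Den B p) : ∀ᶠ q in 𝓝 p, Den B q := by
  obtain ⟨r, hr, h1, h2⟩ := exists_ball h.an
  filter_upwards [ball_mem_nhds p hr] with q hq
  refine ⟨h1 q hq, fun h3 => h.ne ?_⟩
  filter_upwards [ball_mem_nhds p hr] with x hx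
  exact h2 q hq h3 x hx

lemma Den.freq {B : ℂ × ℂ → ℂ} {p : ℂ × ℂ} (h : Den B p) : ∃ᶠ q in 𝓝 p, B q ≠ 0 := by
  intro h1
  exact h.ne (h1.mono fun q hq => not_not.1 hq)

/-- the non-zeros of a denominator are dense -/
lemma Den.exists_mem {B : ℂ × ℂ → ℂ} {p : ℂ × ℂ} (h : Den B p) {V : Set (ℂ × ℂ)}
    (hV : IsOpen V) (hp : p ∈ closure V) {W : Set (ℂ × ℂ)} (hW : W ∈ 𝓝 p) :
    ∃ q ∈ V ∩ W, B q ≠ 0 := by
  have h1 : ∀ᶠ q in 𝓝 p, Den B q ∧ q ∈ interior W :=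
    h.eventually.and (interior_mem_nhds.2 hW)
  have h2 : ∃ᶠ q in 𝓝 p, q ∈ V := mem_closure_iff_frequently.1 hp
  obtain ⟨q, hq1, hq2, hq3⟩ := (h2.and_eventually h1).exists
  have h3 : V ∩ interior W ∈ 𝓝 q := (hV.inter isOpen_interior).mem_nhds ⟨hq1, hq3⟩
  obtain ⟨x, hx1, hx2⟩ := (hq2.freq.and_eventually h3).exists
  exact ⟨x, ⟨hx2.1, interior_subset hx2.2⟩, hx1⟩

lemma Den.mul {B C : ℂ × ℂ → ℂ} {p : ℂ × ℂ} (hB : Den B p) (hC : Den C p) :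
    Den (fun q => B q * C q) p := by
  refine ⟨hB.an.mul hC.an, fun h => hC.ne ?_⟩
  obtain ⟨r, hr, h1, h2⟩ := exists_ball hC.an
  obtain ⟨s, hs, h3⟩ := Metric.eventually_nhds_iff_ball.1 (h.and hB.eventually)
  set t := min r s with ht
  have ht0 : 0 < t := lt_min hr hs
  obtain ⟨q, hq1, hq2⟩ := (hB.freq.and_eventually (ball_mem_nhds p ht0)).exists
  have hqs : q ∈ ball p s := ball_subset_ball (min_le_right _ _) hq2
  have hqr : q ∈ ball p r := ball_subset_ball (min_le_left _ _) hq2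
  have h4 : ∀ᶠ x in 𝓝 q, C x = 0 := by
    have h5 : ∀ᶠ x in 𝓝 q, B x ≠ 0 := (h3 q hqs).2.an.continuousAt.eventually_ne hq1
    filter_upwards [h5, isOpen_ball.mem_nhds hqs] with x hx1 hx2
    exact (mul_eq_zero.1 (h3 x hx2).1).resolve_left hx1
  filter_upwards [ball_mem_nhds p hr] with x hx
  exact h2 q hqr h4 x hx

lemma den_one (p : ℂ × ℂ) : Den (fun _ => (1 : ℂ)) p :=
  ⟨analyticAt_const, fun h => one_ne_zero h.self_of_nhds⟩

lemma den_of_ne {B : ℂ × ℂ → ℂ} {p : ℂ × ℂ} (h : AnalyticAt ℂ B p) (h0 : B p ≠ 0) : Den B p :=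
  ⟨h, fun h1 => h0 h1.self_of_nhds⟩

/-! ### Equality of meromorphic functions -/

lemma EqM.of_eventuallyEq {f g : ℂ × ℂ → ℂ} {p : ℂ × ℂ} (h : f =ᶠ[𝓝 p] g) : EqM f g p :=
  ⟨_, den_one p, h.mono fun _ hq _ => hq⟩

lemma EqM.refl (f : ℂ × ℂ → ℂ) (p : ℂ × ℂ) : EqM f f p := EqM.of_eventuallyEq (by rfl)

lemma EqM.symm {f g : ℂ × ℂ → ℂ} {p : ℂ × ℂ} (h : EqM f g p) : EqM g f p := by
  obtain ⟨B, hB, h⟩ := h
  exact ⟨B, hB, h.mono fun q hq h0 => (hq h0).symm⟩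

lemma EqM.trans {f g k : ℂ × ℂ → ℂ} {p : ℂ × ℂ} (h1 : EqM f g p) (h2 : EqM g k p) :
    EqM f k p := by
  obtain ⟨B, hB, h1⟩ := h1
  obtain ⟨C, hC, h2⟩ := h2
  refine ⟨_, hB.mul hC, ?_⟩
  filter_upwards [h1, h2] with q hq1 hq2 h0
  exact (hq1 (left_ne_zero_of_mul h0)).trans (hq2 (right_ne_zero_of_mul h0))

lemma EqM.eventually {f g : ℂ × ℂ → ℂ} {p : ℂ × ℂ} (h : EqM f g p) :
    ∀ᶠ q in 𝓝 p, EqM f g q := by
  obtain ⟨B, hB, h⟩ := h
  filter_upwards [hB.eventually, h.eventually_nhds] with q hq1 hq2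
  exact ⟨B, hq1, hq2⟩

lemma EqM.map₂ (φ : ℂ → ℂ → ℂ) {f f' g g' : ℂ × ℂ → ℂ} {p : ℂ × ℂ} (h1 : EqM f f' p)
    (h2 : EqM g g' p) : EqM (fun q => φ (f q) (g q)) (fun q => φ (f' q) (g' q)) p := by
  obtain ⟨B, hB, h1⟩ := h1
  obtain ⟨C, hC, h2⟩ := h2
  refine ⟨_, hB.mul hC, ?_⟩
  filter_upwards [h1, h2] with q hq1 hq2 h0
  rw [hq1 (left_ne_zero_of_mul h0), hq2 (right_ne_zero_of_mul h0)]

lemma EqM.map (φ : ℂ → ℂ) {f f' : ℂ × ℂ → ℂ} {p : ℂ × ℂ} (h1 : EqM f f' p) :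
    EqM (fun q => φ (f q)) (fun q => φ (f' q)) p :=
  EqM.map₂ (fun x _ => φ x) h1 (EqM.refl f p)

/-- analytic functions which agree off the zeros of a denominator agree -/
lemma EqM.eventuallyEq {f g : ℂ × ℂ → ℂ} {p : ℂ × ℂ} (hf : AnalyticAt ℂ f p)
    (hg : AnalyticAt ℂ g p) (h : EqM f g p) : f =ᶠ[𝓝 p] g := by
  obtain ⟨B, hB, h⟩ := h
  by_contra h1
  have h2 : Den (fun q => f q - g q) p :=
    ⟨hf.sub hg, fun h3 => h1 (h3.mono fun q hq => sub_eq_zero.1 hq)⟩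
  apply (h2.mul hB).ne
  filter_upwards [h] with q hq
  by_cases h0 : B q = 0
  · rw [h0, mul_zero]
  · rw [hq h0, sub_self, zero_mul]

/-! ### Meromorphic functions -/

lemma merAt_of_analyticAt {f : ℂ × ℂ → ℂ} {p : ℂ × ℂ} (h : AnalyticAt ℂ f p) : MerAt f p :=
  ⟨f, _, h, den_one p, Eventually.of_forall fun q _ => by simp⟩

lemma MerAt.congr {f g : ℂ × ℂ → ℂ} {p : ℂ × ℂ} (h : MerAt f p) (h1 : EqM f g p) :
    MerAt g p := by
  obtain ⟨A, B, hA, hB, h⟩ := h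
  obtain ⟨C, hC, h1⟩ := h1
  refine ⟨fun q => A q * C q, _, hA.mul hC.an, hB.mul hC, ?_⟩
  filter_upwards [h, h1] with q hq1 hq2 h0
  have hB0 := left_ne_zero_of_mul h0
  have hC0 := right_ne_zero_of_mul h0
  rw [← hq2 hC0, hq1 hB0]
  field_simp

lemma MerAt.eventually {f : ℂ × ℂ → ℂ} {p : ℂ × ℂ} (h : MerAt f p) : ∀ᶠ q in 𝓝 p, MerAt f q := by
  obtain ⟨A, B, hA, hB, h⟩ := h
  filter_upwards [hA.eventually_analyticAt, hB.eventually, h.eventually_nhds] with q h1 h2 h3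
  exact ⟨A, B, h1, h2, h3⟩

lemma MerAt.add {f g : ℂ × ℂ → ℂ} {p : ℂ × ℂ} (hf : MerAt f p) (hg : MerAt g p) :
    MerAt (fun q => f q + g q) p := by
  obtain ⟨A, B, hA, hB, h⟩ := hf
  obtain ⟨C, D, hC, hD, h'⟩ := hg
  refine ⟨fun q => A q * D q + C q * B q, _, (hA.mul hD.an).add (hC.mul hB.an), hB.mul hD, ?_⟩
  filter_upwards [h, h'] with q h1 h2 h0
  have hB0 := left_ne_zero_of_mul h0
  have hD0 := right_ne_zero_of_mul h0
  rw [h1 hB0, h2 hD0]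
  field_simp

lemma MerAt.mul {f g : ℂ × ℂ → ℂ} {p : ℂ × ℂ} (hf : MerAt f p) (hg : MerAt g p) :
    MerAt (fun q => f q * g q) p := by
  obtain ⟨A, B, hA, hB, h⟩ := hf
  obtain ⟨C, D, hC, hD, h'⟩ := hg
  refine ⟨fun q => A q * C q, _, hA.mul hC, hB.mul hD, ?_⟩
  filter_upwards [h, h'] with q h1 h2 h0
  have hB0 := left_ne_zero_of_mul h0
  have hD0 := right_ne_zero_of_mul h0
  rw [h1 hB0, h2 hD0]
  field_simp

lemma MerAt.neg {f : ℂ × ℂ → ℂ} {p : ℂ × ℂ} (hf : MerAt f p) : MerAt (fun q => -f q) p := by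
  obtain ⟨A, B, hA, hB, h⟩ := hf
  refine ⟨fun q => -A q, B, hA.neg, hB, ?_⟩
  filter_upwards [h] with q h1 h0
  rw [h1 h0, neg_div]

lemma MerAt.sub {f g : ℂ × ℂ → ℂ} {p : ℂ × ℂ} (hf : MerAt f p) (hg : MerAt g p) :
    MerAt (fun q => f q - g q) p := by
  have h := hf.add hg.neg
  simpa [sub_eq_add_neg] using h

lemma MerAt.inv {f : ℂ × ℂ → ℂ} {p : ℂ × ℂ} (hf : MerAt f p) : MerAt (fun q => (f q)⁻¹) p := by
  obtain ⟨A, B, hA, hB, h⟩ := hf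
  by_cases h0 : ∀ᶠ q in 𝓝 p, A q = 0
  · refine ⟨fun _ => 0, B, analyticAt_const, hB, ?_⟩
    filter_upwards [h, h0] with q h1 h2 h3
    rw [h1 h3, h2]
    simp
  · refine ⟨fun q => B q * B q, fun q => A q * B q, hB.an.mul hB.an, Den.mul ⟨hA, h0⟩ hB, ?_⟩
    filter_upwards [h] with q h1 h2
    have hA0 := left_ne_zero_of_mul h2
    have hB0 := right_ne_zero_of_mul h2
    rw [h1 hB0]
    field_simp

lemma MerAt.div {f g : ℂ × ℂ → ℂ} {p : ℂ × ℂ} (hf : MerAt f p) (hg : MerAt g p) :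
    MerAt (fun q => f q / g q) p := by
  have h := hf.mul hg.inv
  simpa [div_eq_mul_inv] using h

/-- a meromorphic function which is not zero is different from zero off a denominator -/
lemma MerAt.eqM_or {f g : ℂ × ℂ → ℂ} {p : ℂ × ℂ} (hf : MerAt f p) (hg : MerAt g p) :
    EqM f g p ∨ ∃ B, Den B p ∧ ∀ᶠ q in 𝓝 p, B q ≠ 0 → f q ≠ g q := by
  obtain ⟨A, B, hA, hB, h⟩ := hf.sub hg
  by_cases h0 : ∀ᶠ q in 𝓝 p, A q = 0
  · left
    refine ⟨B, hB, ?_⟩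
    filter_upwards [h, h0] with q h1 h2 h3
    have h4 := h1 h3
    rw [h2, zero_div] at h4
    exact sub_eq_zero.1 h4
  · right
    refine ⟨_, Den.mul ⟨hA, h0⟩ hB, ?_⟩
    filter_upwards [h] with q h1 h2 h3
    have hA0 := left_ne_zero_of_mul h2
    have hB0 := right_ne_zero_of_mul h2
    have h4 := h1 hB0
    rw [h3, sub_self] at h4
    exact (div_ne_zero hA0 hB0) h4.symm

/-- the identity theorem -/
theorem Mer.eqM {f g : ℂ × ℂ → ℂ} {U : Set (ℂ × ℂ)} (hU : IsPreconnected U) (hf : Mer f U)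
    (hg : Mer g U) {p : ℂ × ℂ} (hp : p ∈ U) (h : EqM f g p) : ∀ q ∈ U, EqM f g q := by
  have hcl : closure {q | EqM f g q} ∩ U ⊆ {q | EqM f g q} := by
    rintro q ⟨hq1, hq2⟩
    rcases (hf q hq2).eqM_or (hg q hq2) with h1 | ⟨B, hB, h1⟩
    · exact h1
    · exfalso
      obtain ⟨x, hx, hx2, hx3⟩ :=
        ((mem_closure_iff_frequently.1 hq1).and_eventually
          (hB.eventually.and h1.eventually_nhds)).exists
      obtain ⟨C, hC, hx1⟩ := hx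
      obtain ⟨y, hy1, hy2, hy3⟩ := ((hC.mul hx2).freq.and_eventually (hx1.and hx3)).exists
      exact hy3 (right_ne_zero_of_mul hy1) (hy2 (left_ne_zero_of_mul hy1))
  have hop : IsOpen {q | EqM f g q} := by
    rw [isOpen_iff_mem_nhds]
    intro q hq
    exact EqM.eventually hq
  exact fun q hq => hU.subset_of_closure_inter_subset hop ⟨p, hp, h⟩ hcl hq

/-- the identity theorem, with equality near one point of the closure of an open set -/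
theorem Mer.eqM_of_open {f g : ℂ × ℂ → ℂ} {U V : Set (ℂ × ℂ)} (hU : IsPreconnected U)
    (hf : Mer f U) (hg : Mer g U) (hVU : V ⊆ U) (hV : V.Nonempty) (h : ∀ q ∈ V, EqM f g q) :
    ∀ q ∈ U, EqM f g q := by
  obtain ⟨p, hp⟩ := hV
  exact Mer.eqM hU hf hg (hVU hp) (h p hp)

lemma Mer.mono {f : ℂ × ℂ → ℂ} {U V : Set (ℂ × ℂ)} (h : Mer f U) (hVU : V ⊆ U) : Mer f V :=
  fun p hp => h p (hVU hp)

lemma Mer.of_analytic {f : ℂ × ℂ → ℂ} {U : Set (ℂ × ℂ)} (h : AnalyticOnNhd ℂ f U) : Mer f U :=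
  fun p hp => merAt_of_analyticAt (h p hp)

/-! ### Composition with a homeomorphism -/

lemma Den.comp {B : ℂ × ℂ → ℂ} (e : (ℂ × ℂ) ≃ₜ (ℂ × ℂ)) {p : ℂ × ℂ} (he : AnalyticAt ℂ e p)
    (h : Den B (e p)) : Den (fun q => B (e q)) p := by
  refine ⟨AnalyticAt.fun_comp h.an he, fun h1 => h.ne ?_⟩
  have h2 : Tendsto e.symm (𝓝 (e p)) (𝓝 p) := by
    have := e.symm.continuous.tendsto (e p)
    rwa [e.symm_apply_apply] at this
  filter_upwards [h2.eventually h1] with q hq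
  simpa using hq

lemma MerAt.comp {f : ℂ × ℂ → ℂ} (e : (ℂ × ℂ) ≃ₜ (ℂ × ℂ)) {p : ℂ × ℂ} (he : AnalyticAt ℂ e p)
    (h : MerAt f (e p)) : MerAt (fun q => f (e q)) p := by
  obtain ⟨A, B, hA, hB, h⟩ := h
  exact ⟨fun q => A (e q), _, AnalyticAt.fun_comp hA he, hB.comp e he,
    he.continuousAt.eventually h⟩

lemma EqM.comp {f g : ℂ × ℂ → ℂ} (e : (ℂ × ℂ) ≃ₜ (ℂ × ℂ)) {p : ℂ × ℂ} (he : AnalyticAt ℂ e p)
    (h : EqM f g (e p)) : EqM (fun q => f (e q)) (fun q => g (e q)) p := by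
  obtain ⟨B, hB, h⟩ := h
  exact ⟨_, hB.comp e he, he.continuousAt.eventually h⟩

/-- `(t, ρ) ↦ (t + h ρ, ρ)` -/
def shear (h : ℂ → ℂ) (hc : Continuous h) : (ℂ × ℂ) ≃ₜ (ℂ × ℂ) where
  toFun p := (p.1 + h p.2, p.2)
  invFun p := (p.1 - h p.2, p.2)
  left_inv p := by simp
  right_inv p := by simp
  continuous_toFun := by fun_prop
  continuous_invFun := by fun_prop

@[simp] lemma shear_apply (h : ℂ → ℂ) (hc : Continuous h) (p : ℂ × ℂ) :
    shear h hc p = (p.1 + h p.2, p.2) := rfl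

lemma analyticAt_shear {h : ℂ → ℂ} (hh : Differentiable ℂ h) (p : ℂ × ℂ) :
    AnalyticAt ℂ (shear h hh.continuous) p := by
  change AnalyticAt ℂ (fun p : ℂ × ℂ => (p.1 + h p.2, p.2)) p
  refine AnalyticAt.prod (analyticAt_fst.add ?_) analyticAt_snd
  exact AnalyticAt.fun_comp (g := h) (f := fun p : ℂ × ℂ => p.2) (hh.analyticAt _) analyticAt_snd

/-- the shift `(t, ρ) ↦ (t + k ρ, ρ)` -/
lemma MerAt.shift {f : ℂ × ℂ → ℂ} {h : ℂ → ℂ} (hh : Differentiable ℂ h) {p : ℂ × ℂ}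
    (hf : MerAt f (p.1 + h p.2, p.2)) : MerAt (fun q => f (q.1 + h q.2, q.2)) p :=
  MerAt.comp (shear h hh.continuous) (analyticAt_shear hh p) hf

lemma EqM.shift {f g : ℂ × ℂ → ℂ} {h : ℂ → ℂ} (hh : Differentiable ℂ h) {p : ℂ × ℂ}
    (hf : EqM f g (p.1 + h p.2, p.2)) :
    EqM (fun q => f (q.1 + h q.2, q.2)) (fun q => g (q.1 + h q.2, q.2)) p :=
  EqM.comp (shear h hh.continuous) (analyticAt_shear hh p) hf

/-! ### Gluing -/

open Classical in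
/-- the value at `q` of the analytic germ which agrees with `f` near `q` (`0` if there is none) -/
def nfM (f : ℂ × ℂ → ℂ) (q : ℂ × ℂ) : ℂ :=
  if h : ∃ C : ℂ × ℂ → ℂ, AnalyticAt ℂ C q ∧ EqM f C q then h.choose q else 0

lemma nfM_eq {f C : ℂ × ℂ → ℂ} {q : ℂ × ℂ} (hC : AnalyticAt ℂ C q) (h : EqM f C q) :
    nfM f q = C q := by
  have h1 : ∃ C : ℂ × ℂ → ℂ, AnalyticAt ℂ C q ∧ EqM f C q := ⟨C, hC, h⟩
  unfold nfM
  rw [dif_pos h1]
  exact ((h1.choose_spec.2.symm.trans h).eventuallyEq h1.choose_spec.1 hC).self_of_nhds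

/-- gluing: meromorphic germs which agree give a meromorphic function -/
theorem exists_glue {ι : Type*} (N : ι → Set (ℂ × ℂ)) (hN : ∀ i, IsOpen (N i))
    (G : ι → ℂ × ℂ → ℂ) (hG : ∀ i, Mer (G i) (N i))
    (h : ∀ i j, ∀ q ∈ N i ∩ N j, EqM (G i) (G j) q) :
    ∃ F : ℂ × ℂ → ℂ, Mer F (⋃ i, N i) ∧ ∀ i, ∀ q ∈ N i, EqM F (G i) q := by
  classical
  let F : ℂ × ℂ → ℂ := fun q => if hq : ∃ i, q ∈ N i then nfM (G hq.choose) q else 0
  have key : ∀ i, ∀ q ∈ N i, EqM F (G i) q := by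
    intro i q hq
    obtain ⟨A, B, hA, hB, h1⟩ := hG i q hq
    refine ⟨B, hB, ?_⟩
    filter_upwards [(hN i).mem_nhds hq, h1.eventually_nhds, hA.eventually_analyticAt,
      hB.an.eventually_analyticAt] with x hx h2 h3 h4 hx0
    have hx' : ∃ j, x ∈ N j := ⟨i, hx⟩
    have h5 : AnalyticAt ℂ (fun y => A y / B y) x := h3.div h4 hx0
    have h6 : EqM (G i) (fun y => A y / B y) x := ⟨B, den_of_ne h4 hx0, h2⟩
    have h7 : EqM (G hx'.choose) (fun y => A y / B y) x :=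
      (h _ _ x ⟨hx'.choose_spec, hx⟩).trans h6
    change (if hq : ∃ i, x ∈ N i then nfM (G hq.choose) x else 0) = G i x
    rw [dif_pos hx', nfM_eq h5 h7]
    exact (h2.self_of_nhds hx0).symm
  refine ⟨F, fun q hq => ?_, key⟩
  obtain ⟨i, hi⟩ := mem_iUnion.1 hq
  exact (hG i q hi).congr (key i q hi).symm

end Pool.Agent.MP_ae5b4e_an_NBT
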