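import Mathlib
import Pool.Agent.Lib.MP_ae5b4e_an_NBT.Mer

/-!
# MP_ae5b4e_an, project NB tools: heights and superharmonic functions, definitions
-/

noncomputable section

namespace Pool.Agent.MP_ae5b4e_an_NBT

open Complex Set Filter Topology Metric

/-- the horizontal strip -/
def St (a b : ℝ) : Set ℂ := {t | a < t.im ∧ t.im < b}

/-- the annulus `a < |w - c| < b` -/
def Ann (c : ℂ) (a b : ℝ) : Set ℂ := {w | a < dist w c ∧ dist w c < b}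

/-- `g` is meromorphic on `S × ball c r` and agrees with `f` near the sphere -/
structure Fig (f : ℂ × ℂ → ℂ) (U : Set (ℂ × ℂ)) (g : ℂ × ℂ → ℂ) (S : Set ℂ) (c : ℂ) (r : ℝ) :
    Prop where
  mer : Mer g (S ×ˢ ball c r)
  near : ∀ s ∈ S, ∃ ε > 0, ∀ᶠ s' in 𝓝 s, ∀ w ∈ ball c r, r - ε < dist w c →
    (s', w) ∈ U ∧ EqM g f (s', w)

/-- the moments of `F(s, ·)` on the circle of radius `r` -/
def mom (F : ℂ × ℂ → ℂ) (c : ℂ) (r : ℝ) (n : ℕ) (s : ℂ) : ℂ :=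
  (2 * Real.pi * I : ℂ)⁻¹ • ∮ w in C(c, r), F (s, w) * (w - c) ^ n

/-- `f`, given on `St (-a) a × ball 0 R`, continues meromorphically to `Im t < y` for the
parameters near `ρ` -/
def ExtM (f : ℂ × ℂ → ℂ) (a R y : ℝ) (ρ : ℂ) : Prop :=
  ∃ δ > 0, ball ρ δ ⊆ ball 0 R ∧ ∃ G : ℂ × ℂ → ℂ, Mer G (St (-a) y ×ˢ ball ρ δ) ∧
    ∀ p ∈ St (-a) (min a y) ×ˢ ball ρ δ, EqM G f p

/-- the height of `f` at `ρ`, cut off at `Y` -/
def hgt (f : ℂ × ℂ → ℂ) (a R Y : ℝ) (ρ : ℂ) : ℝ := sSup {y | y ≤ Y ∧ ExtM f a R y ρ}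

/-- superharmonic functions -/
structure SupH (h : ℂ → ℝ) (W : Set ℂ) : Prop where
  lsc : ∀ z ∈ W, LowerSemicontinuousAt h z
  mean : ∀ (c : ℂ) (s : ℝ), 0 < s → closedBall c s ⊆ W → ∀ φ : ℂ → ℝ, Continuous φ →
    (∀ z ∈ sphere c s, φ z ≤ h z) → Real.circleAverage φ c s ≤ h c

/-- the function `K = 1 / (F⁺ - F) + 1 / (F⁻ - F)` -/
def KF (F : ℂ × ℂ → ℂ) (p : ℂ × ℂ) : ℂ :=
  (F (p.1 + p.2, p.2) - F p)⁻¹ + (F (p.1 - p.2, p.2) - F p)⁻¹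

lemma isOpen_St (a b : ℝ) : IsOpen (St a b) :=
  (isOpen_lt continuous_const continuous_im).inter (isOpen_lt continuous_im continuous_const)

lemma convex_St (a b : ℝ) : Convex ℝ (St a b) := by
  have h : St a b = im ⁻¹' Ioo a b := by
    ext z
    simp [St]
  rw [h]
  exact (convex_Ioo a b).is_linear_preimage (f := im) ⟨fun _ _ => rfl, by simp⟩

lemma mem_St {a b : ℝ} {t : ℂ} : t ∈ St a b ↔ a < t.im ∧ t.im < b := Iff.rfl

end Pool.Agent.MP_ae5b4e_an_NBT
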