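import Mathlib
import Pool.Agent.Lib.MP_ae5b4e_an_NBT.Defs

/-!
# MP_ae5b4e_an, project NB tools: moments, and the extension when they vanish
-/

noncomputable section

namespace Pool.Agent.MP_ae5b4e_an_NBT

open Complex Set Filter Topology Metric

variable {F : ℂ × ℂ → ℂ} {s₀ c : ℂ} {δ r1 η : ℝ}

private lemma mom_isOpen_Ann (c : ℂ) (a b : ℝ) : IsOpen (Ann c a b) := by
  unfold Ann
  exact (isOpen_lt continuous_const (continuous_id.dist continuous_const)).inter
    (isOpen_lt (continuous_id.dist continuous_const) continuous_const)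

/-- the function of the second variable is differentiable on the annulus -/
private lemma mom_diff_snd {a b : ℝ} (hF : AnalyticOnNhd ℂ F (ball s₀ δ ×ˢ Ann c a b)) {s : ℂ}
    (hs : s ∈ ball s₀ δ) : DifferentiableOn ℂ (fun z => F (s, z)) (Ann c a b) := by
  intro z hz
  have h1 : DifferentiableAt ℂ F (s, z) := (hF (s, z) ⟨hs, hz⟩).differentiableAt
  exact (DifferentiableAt.comp z (g := F) (f := fun z : ℂ => (s, z)) h1
    (by fun_prop)).differentiableWithinAt

/-- the function of the first variable is differentiable -/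
private lemma mom_diff_fst {a b : ℝ} (hF : AnalyticOnNhd ℂ F (ball s₀ δ ×ˢ Ann c a b)) {z : ℂ}
    (hz : z ∈ Ann c a b) : DifferentiableOn ℂ (fun s => F (s, z)) (ball s₀ δ) := by
  intro s hs
  have h1 : DifferentiableAt ℂ F (s, z) := (hF (s, z) ⟨hs, hz⟩).differentiableAt
  exact (DifferentiableAt.comp s (g := F) (f := fun s : ℂ => (s, z)) h1
    (by fun_prop)).differentiableWithinAt

private lemma mom_sphere_sub {a b r : ℝ} (h1 : a < r) (h2 : r < b) : sphere c r ⊆ Ann c a b := by
  intro z hz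
  rw [mem_sphere] at hz
  exact ⟨by rw [hz]; exact h1, by rw [hz]; exact h2⟩

/-- circle integrals of a function which is differentiable on the annulus -/
private lemma mom_annulus {a b r r' : ℝ} (ha : 0 < a) (h1 : a < r) (h2 : r < b) (h3 : a < r')
    (h4 : r' < b) {f : ℂ → ℂ} (hf : DifferentiableOn ℂ f (Ann c a b)) :
    (∮ z in C(c, r), f z) = ∮ z in C(c, r'), f z := by
  wlog hle : r ≤ r' generalizing r r'
  · exact (this h3 h4 h1 h2 (le_of_not_ge hle)).symm
  refine (circleIntegral_eq_of_differentiable_on_annulus_off_countable (ha.trans h1) hle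
    countable_empty ?_ ?_).symm
  · refine (hf.mono ?_).continuousOn
    rintro z ⟨hz1, hz2⟩
    rw [mem_closedBall] at hz1
    rw [mem_ball, not_lt] at hz2
    exact ⟨by linarith, by linarith⟩
  · rintro z ⟨⟨hz1, hz2⟩, -⟩
    rw [mem_ball] at hz1
    rw [mem_closedBall, not_le] at hz2
    exact hf.differentiableAt ((mom_isOpen_Ann c a b).mem_nhds ⟨by linarith, by linarith⟩)

/-- the moments are analytic functions of the parameter -/
theorem mom_an (hη : 0 < η) (hr : η < r1)
    (hF : AnalyticOnNhd ℂ F (ball s₀ δ ×ˢ Ann c (r1 - η) (r1 + η))) (n : ℕ) :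
    AnalyticOnNhd ℂ (mom F c r1 n) (ball s₀ δ) := by
  have hr1 : 0 < r1 := hη.trans hr
  have hsub : sphere c r1 ⊆ Ann c (r1 - η) (r1 + η) := mom_sphere_sub (by linarith) (by linarith)
  have hA := Pool.Agent.SCV.analyticOnNhd_cauchy c r1 hr1.le (ball s₀ δ) isOpen_ball
    (fun p : ℂ × ℂ => F p * (p.2 - c) ^ (n + 1))
    (by
      refine ContinuousOn.mul ?_ (by fun_prop)
      exact hF.continuousOn.mono (prod_mono_right hsub))
    (by
      intro ζ hζ
      exact (mom_diff_fst hF (hsub hζ)).mul_const ((ζ - c) ^ (n + 1)))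
  have hc : ∀ s ∈ ball s₀ δ, AnalyticAt ℂ (fun s : ℂ => (2 * Real.pi * I : ℂ)⁻¹ •
      ∮ ζ in C(c, r1), (ζ - c)⁻¹ • (F (s, ζ) * (ζ - c) ^ (n + 1))) s := by
    intro s hs
    have h1 := hA (s, c) ⟨hs, mem_ball_self hr1⟩
    have h2 : AnalyticAt ℂ (fun s : ℂ => (s, c)) s := analyticAt_id.prod analyticAt_const
    exact AnalyticAt.fun_comp (f := fun s : ℂ => (s, c)) h1 h2
  intro s hs
  refine (hc s hs).congr (Eventually.of_forall fun s' => ?_)
  unfold mom
  simp only
  congr 1
  apply circleIntegral.integral_congr hr1.le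
  intro z hz
  rw [mem_sphere] at hz
  have hne : z - c ≠ 0 := by
    intro h0
    rw [sub_eq_zero.mp h0, dist_self] at hz
    linarith
  simp only [smul_eq_mul]
  rw [pow_succ]
  field_simp

/-- the moments do not depend on the radius -/
theorem mom_radius (hη : 0 < η) (hr : η < r1)
    (hF : AnalyticOnNhd ℂ F (ball s₀ δ ×ˢ Ann c (r1 - η) (r1 + η))) {r2 : ℝ}
    (h1 : r1 - η < r2) (h2 : r2 < r1 + η) (n : ℕ) {s : ℂ} (hs : s ∈ ball s₀ δ) :
    mom F c r2 n s = mom F c r1 n s := by
  unfold mom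
  congr 1
  refine mom_annulus (a := r1 - η) (b := r1 + η) (by linarith) h1 h2 (by linarith) (by linarith) ?_
  exact (mom_diff_snd hF hs).mul (by fun_prop)

/-- the Cauchy integral over the circle of radius `r` -/
private def momG (F : ℂ × ℂ → ℂ) (c : ℂ) (r : ℝ) (p : ℂ × ℂ) : ℂ :=
  (2 * Real.pi * I : ℂ)⁻¹ • ∮ ζ in C(c, r), (ζ - p.2)⁻¹ • F (p.1, ζ)

private lemma momG_an {a b r : ℝ} (ha : 0 < a) (h1 : a < r) (h2 : r < b)
    (hF : AnalyticOnNhd ℂ F (ball s₀ δ ×ˢ Ann c a b)) :
    AnalyticOnNhd ℂ (momG F c r) (ball s₀ δ ×ˢ ball c r) := by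
  have hsub : sphere c r ⊆ Ann c a b := mom_sphere_sub h1 h2
  exact Pool.Agent.SCV.analyticOnNhd_cauchy c r (ha.trans h1).le (ball s₀ δ) isOpen_ball F
    (hF.continuousOn.mono (prod_mono_right hsub))
    (fun ζ hζ => mom_diff_fst hF (hsub hζ))

private lemma momG_radius {a b r r' : ℝ} (ha : 0 < a) (h1 : a < r) (h2 : r < b) (h3 : a < r')
    (h4 : r' < b) (hF : AnalyticOnNhd ℂ F (ball s₀ δ ×ˢ Ann c a b)) {p : ℂ × ℂ}
    (hp : p.1 ∈ ball s₀ δ) (h5 : dist p.2 c < r) (h6 : dist p.2 c < r') :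
    momG F c r p = momG F c r' p := by
  unfold momG
  congr 1
  set a' : ℝ := max a ((dist p.2 c + min r r') / 2) with ha'
  have hm : dist p.2 c < min r r' := lt_min h5 h6
  have hm1 : min r r' ≤ r := min_le_left _ _
  have hm2 : min r r' ≤ r' := min_le_right _ _
  have h7 : a' < r := max_lt h1 (by linarith)
  have h8 : a' < r' := max_lt h3 (by linarith)
  have h9 : dist p.2 c < a' := lt_of_lt_of_le (by linarith) (le_max_right _ _)
  refine mom_annulus (a := a') (b := b) (ha.trans_le (le_max_left _ _)) h7 h2 h8 h4 ?_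
  have hsub : Ann c a' b ⊆ Ann c a b := fun z hz => ⟨(le_max_left _ _).trans_lt hz.1, hz.2⟩
  refine DifferentiableOn.fun_smul (f := fun z : ℂ => F (p.1, z)) ?_
    ((mom_diff_snd hF hp).mono hsub)
  refine DifferentiableOn.inv (by fun_prop) ?_
  intro z hz h0
  have h10 : z = p.2 := sub_eq_zero.mp h0
  have h11 := hz.1
  rw [h10] at h11
  linarith

/-- the Cauchy integral over the inner circle, in the outer region, vanishes when the moments
vanish -/
private lemma mom_inner {a b r : ℝ} (ha : 0 < a) (h1 : a < r) (h2 : r < b) {f : ℂ → ℂ}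
    (hf : ContinuousOn f (Ann c a b)) {w : ℂ} (hw : r < dist w c)
    (h0 : ∀ n : ℕ, (∮ z in C(c, r), f z * (z - c) ^ n) = 0) :
    (∮ z in C(c, r), (z - w)⁻¹ • f z) = 0 := by
  have hr : 0 < r := ha.trans h1
  have hsub : sphere c r ⊆ Ann c a b := mom_sphere_sub h1 h2
  have hfs : ContinuousOn f (sphere c r) := hf.mono hsub
  set u : ℂ := w - c with hu
  have hun : ‖u‖ = dist w c := by rw [hu, dist_eq_norm]
  have hu0 : u ≠ 0 := by
    intro h
    rw [h, norm_zero] at hun
    linarith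
  have hne : ∀ z ∈ sphere c r, z - w ≠ 0 := by
    intro z hz h
    rw [mem_sphere, sub_eq_zero.mp h] at hz
    linarith
  have hinv : ContinuousOn (fun z : ℂ => (z - w)⁻¹) (sphere c r) :=
    ContinuousOn.inv₀ (by fun_prop) hne
  have hci : ∀ n : ℕ, CircleIntegrable
      (fun z : ℂ => ((z - c) / u) ^ n * ((z - w)⁻¹ * f z)) c r := by
    intro n
    refine ContinuousOn.circleIntegrable hr.le ?_
    exact ContinuousOn.mul (by fun_prop) (hinv.mul hfs)
  have hrec : ∀ n : ℕ, (∮ z in C(c, r), (z - w)⁻¹ • f z) =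
      ∮ z in C(c, r), ((z - c) / u) ^ n * ((z - w)⁻¹ * f z) := by
    intro n
    induction n with
    | zero =>
      simp only [pow_zero, one_mul, smul_eq_mul]
    | succ n ih =>
      rw [ih]
      have h3 : (∮ z in C(c, r), ((z - c) / u) ^ n * ((z - w)⁻¹ * f z)) -
          (∮ z in C(c, r), ((z - c) / u) ^ (n + 1) * ((z - w)⁻¹ * f z)) = 0 := by
        rw [← circleIntegral.integral_sub (hci n) (hci (n + 1))]
        have h4 : (∮ z in C(c, r), (((z - c) / u) ^ n * ((z - w)⁻¹ * f z) -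
            ((z - c) / u) ^ (n + 1) * ((z - w)⁻¹ * f z))) =
            ∮ z in C(c, r), (-(u ^ (n + 1))⁻¹) * (f z * (z - c) ^ n) := by
          apply circleIntegral.integral_congr hr.le
          intro z hz
          have h5 := hne z hz
          have h6 : z - w = (z - c) - u := by rw [hu]; ring
          simp only
          rw [h6] at h5 ⊢
          rw [div_pow, div_pow]
          field_simp
          ring
        rw [h4, circleIntegral.integral_const_mul, h0 n, mul_zero]
      exact sub_eq_zero.mp h3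
  obtain ⟨M, hM⟩ := (isCompact_sphere c r).exists_bound_of_continuousOn (hinv.mul hfs)
  set q : ℝ := r / dist w c with hq
  have hdw : 0 < dist w c := hr.trans hw
  have hq0 : 0 ≤ q := by positivity
  have hq1 : q < 1 := (div_lt_one hdw).mpr hw
  have hbd : ∀ n : ℕ, ‖∮ z in C(c, r), (z - w)⁻¹ • f z‖ ≤ 2 * Real.pi * r * (q ^ n * M) := by
    intro n
    rw [hrec n]
    apply circleIntegral.norm_integral_le_of_norm_le_const hr.le
    intro z hz
    have h3 : ‖(z - c) / u‖ = q := by
      rw [mem_sphere, dist_eq_norm] at hz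
      rw [norm_div, hz, hun]
    rw [norm_mul, norm_pow, h3]
    exact mul_le_mul_of_nonneg_left (hM z hz) (pow_nonneg hq0 n)
  have hlim : Tendsto (fun n : ℕ => 2 * Real.pi * r * (q ^ n * M)) atTop (𝓝 0) := by
    have h3 := (tendsto_pow_atTop_nhds_zero_of_lt_one hq0 hq1).mul_const M
    have h4 := h3.const_mul (2 * Real.pi * r)
    simpa using h4
  have h5 : ‖∮ z in C(c, r), (z - w)⁻¹ • f z‖ ≤ 0 := ge_of_tendsto' hlim hbd
  exact norm_le_zero_iff.mp h5

/-- Cauchy's formula on the annulus, when the moments vanish -/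
private lemma momG_eq {a b r : ℝ} (ha : 0 < a) (h2 : r < b)
    (hF : AnalyticOnNhd ℂ F (ball s₀ δ ×ˢ Ann c a b)) {p : ℂ × ℂ}
    (hp : p.1 ∈ ball s₀ δ) (h3 : a < dist p.2 c) (h4 : dist p.2 c < r)
    (h0 : ∀ n : ℕ, ∀ r' : ℝ, a < r' → r' < b → (∮ z in C(c, r'), F (p.1, z) * (z - c) ^ n) = 0) :
    momG F c r p = F p := by
  obtain ⟨s, w⟩ := p
  simp only at hp h3 h4 h0
  have h1 : a < r := h3.trans h4
  have hr : 0 < r := ha.trans h1
  set f : ℂ → ℂ := fun z => F (s, z) with hf
  have hfd : DifferentiableOn ℂ f (Ann c a b) := mom_diff_snd hF hp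
  obtain ⟨r3, h5, h6⟩ := exists_between h3
  have hr3 : 0 < r3 := ha.trans h5
  have h7 : r3 < b := by linarith
  have hwA : w ∈ Ann c a b := ⟨h3, by linarith⟩
  have hds : DifferentiableOn ℂ (dslope f w) (Ann c a b) :=
    (differentiableOn_dslope ((mom_isOpen_Ann c a b).mem_nhds hwA)).mpr hfd
  have h8 := mom_annulus (c := c) ha h1 h2 h5 h7 hds
  have hsubr : sphere c r ⊆ Ann c a b := mom_sphere_sub h1 h2
  have hsubr3 : sphere c r3 ⊆ Ann c a b := mom_sphere_sub h5 h7
  have hner : ∀ z ∈ sphere c r, z - w ≠ 0 := by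
    intro z hz h
    rw [mem_sphere, sub_eq_zero.mp h] at hz
    linarith
  have hner3 : ∀ z ∈ sphere c r3, z - w ≠ 0 := by
    intro z hz h
    rw [mem_sphere, sub_eq_zero.mp h] at hz
    linarith
  have key : ∀ ρ : ℝ, 0 < ρ → sphere c ρ ⊆ Ann c a b → (∀ z ∈ sphere c ρ, z - w ≠ 0) →
      (∮ z in C(c, ρ), dslope f w z) =
        (∮ z in C(c, ρ), (z - w)⁻¹ • f z) - (∮ z in C(c, ρ), (z - w)⁻¹) * f w := by
    intro ρ hρ hsub hne
    have hi : ContinuousOn (fun z : ℂ => (z - w)⁻¹) (sphere c ρ) :=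
      ContinuousOn.inv₀ (by fun_prop) hne
    have hc1 : CircleIntegrable (fun z : ℂ => (z - w)⁻¹ • f z) c ρ :=
      (hi.smul (hfd.continuousOn.mono hsub)).circleIntegrable hρ.le
    have hc2 : CircleIntegrable (fun z : ℂ => (z - w)⁻¹ * f w) c ρ :=
      (hi.mul continuousOn_const).circleIntegrable hρ.le
    have h9 : (∮ z in C(c, ρ), (z - w)⁻¹) * f w = ∮ z in C(c, ρ), (z - w)⁻¹ * f w := by
      have h10 := circleIntegral.integral_smul_const (fun z : ℂ => (z - w)⁻¹) (f w) c ρ
      simp only [smul_eq_mul] at h10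
      exact h10.symm
    rw [h9, ← circleIntegral.integral_sub hc1 hc2]
    apply circleIntegral.integral_congr hρ.le
    intro z hz
    have hzw : z ≠ w := fun h => hne z hz (sub_eq_zero.mpr h)
    simp only
    rw [dslope_of_ne f hzw, slope_def_module, smul_sub, smul_eq_mul, smul_eq_mul]
  rw [key r hr hsubr hner, key r3 hr3 hsubr3 hner3] at h8
  have h9 : (∮ z in C(c, r), (z - w)⁻¹) = 2 * Real.pi * I :=
    circleIntegral.integral_sub_inv_of_mem_ball h4
  have h10 : (∮ z in C(c, r3), (z - w)⁻¹) = 0 := by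
    apply circleIntegral_eq_zero_of_differentiable_on_off_countable hr3.le countable_empty
    · refine ContinuousOn.inv₀ (by fun_prop) ?_
      intro z hz h
      rw [mem_closedBall, sub_eq_zero.mp h] at hz
      linarith
    · rintro z ⟨hz, -⟩
      refine DifferentiableAt.inv (by fun_prop) ?_
      intro h
      rw [mem_ball, sub_eq_zero.mp h] at hz
      linarith
  have h11 : (∮ z in C(c, r3), (z - w)⁻¹ • f z) = 0 :=
    mom_inner ha h5 h7 hfd.continuousOn h6 (fun n => h0 n r3 h5 h7)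
  rw [h9, h10, h11, zero_mul, sub_zero, sub_eq_zero] at h8
  have h12 : momG F c r (s, w) = (2 * Real.pi * I : ℂ)⁻¹ • ∮ z in C(c, r), (z - w)⁻¹ • f z := rfl
  rw [h12, h8, smul_eq_mul, ← mul_assoc, inv_mul_cancel₀ two_pi_I_ne_zero, one_mul]

/-- a function on a product of a disc and an annulus all of whose moments vanish extends to the
disc -/
theorem exists_of_mom (hη : 0 < η) (hr : η < r1)
    (hF : AnalyticOnNhd ℂ F (ball s₀ δ ×ˢ Ann c (r1 - η) (r1 + η)))
    (h0 : ∀ n, ∀ s ∈ ball s₀ δ, mom F c r1 n s = 0) :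
    ∃ G : ℂ × ℂ → ℂ, AnalyticOnNhd ℂ G (ball s₀ δ ×ˢ ball c (r1 + η)) ∧
      ∀ p ∈ ball s₀ δ ×ˢ Ann c (r1 - η) (r1 + η), G p = F p := by
  have ha : 0 < r1 - η := by linarith
  set rad : ℂ → ℝ := fun w => (max (dist w c) r1 + r1 + η) / 2 with hrad
  have hr1 : ∀ w, r1 - η < rad w := by
    intro w
    have := le_max_right (dist w c) r1
    simp only [hrad]
    linarith
  have hr2 : ∀ w, dist w c < r1 + η → rad w < r1 + η := by
    intro w hw
    have : max (dist w c) r1 < r1 + η := max_lt hw (by linarith)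
    simp only [hrad]
    linarith
  have hr3 : ∀ w, dist w c < r1 + η → dist w c < rad w := by
    intro w hw
    have := le_max_left (dist w c) r1
    simp only [hrad]
    linarith
  refine ⟨fun p => momG F c (rad p.2) p, ?_, ?_⟩
  · rintro ⟨s, w⟩ ⟨hs, hw⟩
    simp only at hs hw
    rw [mem_ball] at hw
    have h1 := momG_an ha (hr1 w) (hr2 w hw) hF (s, w) ⟨hs, hr3 w hw⟩
    refine h1.congr ?_
    have hop : IsOpen (ball s₀ δ ×ˢ ball c (rad w)) := isOpen_ball.prod isOpen_ball
    filter_upwards [hop.mem_nhds (show (s, w) ∈ ball s₀ δ ×ˢ ball c (rad w) from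
      ⟨hs, hr3 w hw⟩)] with q hq
    have h2 : dist q.2 c < rad w := hq.2
    have h3 : dist q.2 c < r1 + η := h2.trans (hr2 w hw)
    exact momG_radius ha (hr1 w) (hr2 w hw) (hr1 q.2) (hr2 q.2 h3) hF hq.1 h2 (hr3 q.2 h3)
  · rintro ⟨s, w⟩ ⟨hs, hw⟩
    simp only at hs hw
    refine momG_eq ha (hr2 w hw.2) hF hs hw.1 (hr3 w hw.2) ?_
    intro n r' h1 h2
    have h3 := (mom_radius hη hr hF h1 h2 n hs).trans (h0 n s hs)
    unfold mom at h3
    exact (smul_eq_zero.mp h3).resolve_left (inv_ne_zero two_pi_I_ne_zero)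

end Pool.Agent.MP_ae5b4e_an_NBT
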