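import Mathlib
import Pool.Agent.Lib.MP_ae5b4e_an_NBT.Defs
import Pool.Agent.Lib.MP_ae5b4e_an_LAT.NDPropag

/-!
# MP_ae5b4e_an, project NB tools: vertical components of the polar set; circles without poles
-/

noncomputable section

namespace Pool.Agent.MP_ae5b4e_an_NBT

open Complex Set Filter Topology Metric

private theorem div_step {C : ℂ × ℂ → ℂ} {s₀ w₀ : ℂ} (hC : AnalyticAt ℂ C (s₀, w₀))
    (h : ∀ᶠ w in 𝓝 w₀, C (s₀, w) = 0) :
    ∃ C' : ℂ × ℂ → ℂ, AnalyticAt ℂ C' (s₀, w₀) ∧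
      ∀ᶠ q in 𝓝 (s₀, w₀), C q = (q.1 - s₀) * C' q := by
  have e1 : AnalyticAt ℂ (fun p : ℂ × ℂ => (s₀ + p.2, p.1)) ((w₀, 0) : ℂ × ℂ) :=
    (analyticAt_const.add analyticAt_snd).prod analyticAt_fst
  have hS : AnalyticAt ℂ (fun p : ℂ × ℂ => C (s₀ + p.2, p.1)) (w₀, 0) := by
    refine AnalyticAt.fun_comp (g := C) (f := fun p : ℂ × ℂ => (s₀ + p.2, p.1)) ?_ e1
    simpa using hC
  obtain ⟨G, hG, hGS, -⟩ := Pool.Agent.MP_ae5b4e_an_ND.exists_div_y hS (by simpa using h)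
  have e2 : AnalyticAt ℂ (fun q : ℂ × ℂ => (q.2, q.1 - s₀)) ((s₀, w₀) : ℂ × ℂ) :=
    analyticAt_snd.prod (analyticAt_fst.sub analyticAt_const)
  refine ⟨fun q => G (q.2, q.1 - s₀), ?_, ?_⟩
  · refine AnalyticAt.fun_comp (g := G) (f := fun q : ℂ × ℂ => (q.2, q.1 - s₀)) ?_ e2
    simpa using hG
  · have ht : Tendsto (fun q : ℂ × ℂ => (q.2, q.1 - s₀)) (𝓝 (s₀, w₀)) (𝓝 (w₀, 0)) := by
      have : Continuous (fun q : ℂ × ℂ => (q.2, q.1 - s₀)) := by fun_prop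
      exact this.tendsto' _ _ (by simp)
    filter_upwards [ht.eventually hGS] with q hq
    simpa using hq

private theorem div_bound {B : ℂ × ℂ → ℂ} {s₀ w₀ : ℂ} (h : Den B (s₀, w₀)) :
    ∃ m : ℕ, ∀ (n : ℕ) (C : ℂ × ℂ → ℂ), AnalyticAt ℂ C (s₀, w₀) →
      (∀ᶠ q in 𝓝 (s₀, w₀), B q = (q.1 - s₀) ^ n * C q) → n ≤ m := by
  obtain ⟨r, hr, h1, -⟩ := exists_ball h.an
  obtain ⟨q₁, hq1, hq2⟩ := (h.freq.and_eventually (ball_mem_nhds (s₀, w₀) hr)).exists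
  obtain ⟨p, hp⟩ : ∃ p : ℂ × ℂ, p = (s₀, w₀) := ⟨_, rfl⟩
  rw [← hp] at h1 hq2
  obtain ⟨L, hL⟩ : ∃ L : ℂ → ℂ × ℂ, L = fun z => p + z • (q₁ - p) := ⟨_, rfl⟩
  have hLan : ∀ z, AnalyticAt ℂ L z := by
    intro z
    rw [hL]
    exact analyticAt_const.add (analyticAt_id.smul analyticAt_const)
  have hLc : Continuous L := by
    rw [hL]; fun_prop
  have hL0 : L 0 = p := by rw [hL]; simp
  have hL1 : L 1 = q₁ := by rw [hL]; simp
  have hφ : AnalyticOnNhd ℂ (fun z => B (L z)) (L ⁻¹' ball p r) := fun z hz =>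
    AnalyticAt.fun_comp (g := B) (f := L) (h1 _ hz) (hLan z)
  have hconv : Convex ℝ (L ⁻¹' ball p r) := by
    intro x hx y hy a b ha hb hab
    have e : L (a • x + b • y) = a • L x + b • L y := by
      rw [hL]
      simp only [smul_add, add_smul, smul_assoc]
      have e2 : p = a • p + b • p := by rw [← add_smul, hab, one_smul]
      nth_rewrite 1 [e2]
      abel
    show L (a • x + b • y) ∈ ball p r
    rw [e]
    exact (convex_ball p r) hx hy ha hb hab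
  have h0mem : (0 : ℂ) ∈ L ⁻¹' ball p r := by
    show L 0 ∈ ball p r
    rw [hL0]; exact mem_ball_self hr
  have h1mem : (1 : ℂ) ∈ L ⁻¹' ball p r := by
    show L 1 ∈ ball p r
    rw [hL1]; exact hq2
  have hφ0 : AnalyticAt ℂ (fun z => B (L z)) 0 := hφ 0 h0mem
  have hne : analyticOrderAt (fun z => B (L z)) 0 ≠ ⊤ := by
    intro htop
    rw [analyticOrderAt_eq_top] at htop
    have h3 := AnalyticOnNhd.eqOn_zero_of_preconnected_of_eventuallyEq_zero hφ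
      hconv.isPreconnected h0mem htop
    have h4 := h3 h1mem
    simp only [Pi.zero_apply] at h4
    rw [hL1] at h4
    exact hq1 h4
  obtain ⟨m, hm⟩ := ENat.ne_top_iff_exists.1 hne
  refine ⟨m, fun n C hC hn => ?_⟩
  have h5 : (n : ℕ∞) ≤ analyticOrderAt (fun z => B (L z)) 0 := by
    rw [natCast_le_analyticOrderAt hφ0]
    refine ⟨fun z => (q₁ - p).1 ^ n * C (L z), ?_, ?_⟩
    · refine analyticAt_const.mul (AnalyticAt.fun_comp (g := C) (f := L) ?_ (hLan 0))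
      rw [hL0, hp]; exact hC
    · rw [← hp] at hn
      have ht : Tendsto L (𝓝 0) (𝓝 p) := by
        rw [← hL0]; exact hLc.tendsto 0
      filter_upwards [ht.eventually hn] with z hz
      rw [hz, smul_eq_mul, ← mul_assoc, ← mul_pow]
      congr 2
      rw [hL, hp]
      simp
  rw [← hm] at h5
  exact_mod_cast h5

/-- an analytic function which is not locally zero is a power of `s - s₀` times a function which is
not locally zero on the line `s = s₀` -/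
theorem den_factor {B : ℂ × ℂ → ℂ} {s₀ w₀ : ℂ} (h : Den B (s₀, w₀)) :
    ∃ (k : ℕ) (B' : ℂ × ℂ → ℂ), AnalyticAt ℂ B' (s₀, w₀) ∧
      (¬ ∀ᶠ w in 𝓝 w₀, B' (s₀, w) = 0) ∧
      ∀ᶠ q in 𝓝 (s₀, w₀), B q = (q.1 - s₀) ^ k * B' q := by
  by_contra hcon
  obtain ⟨m, hm⟩ := div_bound h
  have key : ∀ n : ℕ, ∃ C : ℂ × ℂ → ℂ, AnalyticAt ℂ C (s₀, w₀) ∧
      ∀ᶠ q in 𝓝 (s₀, w₀), B q = (q.1 - s₀) ^ n * C q := by
    intro n
    induction n with
    | zero => exact ⟨B, h.an, Eventually.of_forall fun q => by rw [pow_zero, one_mul]⟩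
    | succ n ih =>
      obtain ⟨C, hC, hCe⟩ := ih
      by_cases h0 : ∀ᶠ w in 𝓝 w₀, C (s₀, w) = 0
      · obtain ⟨C', hC', hCe'⟩ := div_step hC h0
        refine ⟨C', hC', ?_⟩
        filter_upwards [hCe, hCe'] with q h1 h2
        rw [h1, h2, pow_succ]
        ring
      · exact absurd ⟨n, C, hC, h0, hCe⟩ hcon
  obtain ⟨C, hC, hCe⟩ := key (m + 1)
  have := hm (m + 1) C hC hCe
  omega

private theorem raise_pow {f : ℂ × ℂ → ℂ} {s₀ s w : ℂ} {k l : ℕ} (hkl : k ≤ l)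
    (h : ∃ A B : ℂ × ℂ → ℂ,
      AnalyticAt ℂ A (s, w) ∧ AnalyticAt ℂ B (s, w) ∧ (¬ ∀ᶠ w' in 𝓝 w, B (s, w') = 0) ∧
      ∀ᶠ q in 𝓝 (s, w), q.1 ≠ s₀ → B q ≠ 0 → (q.1 - s₀) ^ k * f q = A q / B q) :
    ∃ A B : ℂ × ℂ → ℂ,
      AnalyticAt ℂ A (s, w) ∧ AnalyticAt ℂ B (s, w) ∧ (¬ ∀ᶠ w' in 𝓝 w, B (s, w') = 0) ∧
      ∀ᶠ q in 𝓝 (s, w), q.1 ≠ s₀ → B q ≠ 0 → (q.1 - s₀) ^ l * f q = A q / B q := by
  obtain ⟨A, B, hA, hB, h0, h1⟩ := h
  refine ⟨fun q => (q.1 - s₀) ^ (l - k) * A q, B, ?_, hB, h0, ?_⟩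
  · exact ((analyticAt_fst.sub analyticAt_const).pow _).mul hA
  · filter_upwards [h1] with q h2 h3 h4
    rw [mul_div_assoc, ← h2 h3 h4, ← mul_assoc, ← pow_add]
    congr 2
    omega

/-- near a compact piece of a line, a meromorphic function is a power of `s - s₀` times a quotient
whose denominator is not locally zero on any line `s = const` -/
theorem mer_vert {U : Set (ℂ × ℂ)} (hU : IsOpen U) {f : ℂ × ℂ → ℂ} (hf : Mer f U) {s₀ : ℂ}
    {C : Set ℂ} (hC : IsCompact C) (hs : ∀ w ∈ C, (s₀, w) ∈ U) :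
    ∃ (k : ℕ) (δ : ℝ), 0 < δ ∧ ∀ s ∈ ball s₀ δ, ∀ w ∈ C, ∃ A B : ℂ × ℂ → ℂ,
      AnalyticAt ℂ A (s, w) ∧ AnalyticAt ℂ B (s, w) ∧ (¬ ∀ᶠ w' in 𝓝 w, B (s, w') = 0) ∧
      ∀ᶠ q in 𝓝 (s, w), q.1 ≠ s₀ → B q ≠ 0 → (q.1 - s₀) ^ k * f q = A q / B q := by
  refine hC.induction_on (p := fun S : Set ℂ => ∃ (k : ℕ) (δ : ℝ), 0 < δ ∧
      ∀ s ∈ ball s₀ δ, ∀ w ∈ S, ∃ A B : ℂ × ℂ → ℂ,
      AnalyticAt ℂ A (s, w) ∧ AnalyticAt ℂ B (s, w) ∧ (¬ ∀ᶠ w' in 𝓝 w, B (s, w') = 0) ∧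
      ∀ᶠ q in 𝓝 (s, w), q.1 ≠ s₀ → B q ≠ 0 → (q.1 - s₀) ^ k * f q = A q / B q) ?_ ?_ ?_ ?_
  · exact ⟨0, 1, one_pos, fun s _ w hw => absurd hw (notMem_empty w)⟩
  · rintro S T hST ⟨k, δ, hδ, h⟩
    exact ⟨k, δ, hδ, fun s hs w hw => h s hs w (hST hw)⟩
  · rintro S T ⟨k, δ, hδ, h⟩ ⟨k', δ', hδ', h'⟩
    refine ⟨max k k', min δ δ', lt_min hδ hδ', fun s hs w hw => ?_⟩
    rcases hw with hw | hw
    · exact raise_pow (le_max_left k k') (h s (ball_subset_ball (min_le_left _ _) hs) w hw)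
    · exact raise_pow (le_max_right k k') (h' s (ball_subset_ball (min_le_right _ _) hs) w hw)
  · intro w hw
    obtain ⟨A, B, hA, hB, hfe⟩ := hf _ (hs w hw)
    obtain ⟨k, B', hB', hB0, hBe⟩ := den_factor hB
    obtain ⟨r, hr, hball⟩ := Metric.eventually_nhds_iff_ball.1
      ((hA.eventually_analyticAt.and hB'.eventually_analyticAt).and (hfe.and hBe))
    -- a point of the line where the denominator does not vanish
    have hfreq : ∃ᶠ w' in 𝓝 w, B' (s₀, w') ≠ 0 := by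
      intro h1
      exact hB0 (h1.mono fun q hq => not_not.1 hq)
    obtain ⟨w₁, hw1, hw2⟩ := (hfreq.and_eventually (ball_mem_nhds w hr)).exists
    have hmem : ∀ s ∈ ball s₀ r, ∀ x ∈ ball w r, (s, x) ∈ ball ((s₀, w) : ℂ × ℂ) r := by
      intro s hs x hx
      rw [mem_ball, Prod.dist_eq, max_lt_iff]
      exact ⟨hs, hx⟩
    have hcont : ContinuousAt (fun s : ℂ => B' (s, w₁)) s₀ := by
      have h4 : ContinuousAt B' (s₀, w₁) :=
        (hball _ (hmem s₀ (mem_ball_self hr) w₁ hw2)).1.2.continuousAt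
      exact ContinuousAt.comp (f := fun s : ℂ => (s, w₁)) (x := s₀) h4 (by fun_prop)
    obtain ⟨δ, hδ, hδb⟩ := Metric.eventually_nhds_iff_ball.1 (hcont.eventually_ne hw1)
    refine ⟨ball w r ∩ C, ?_, k, min δ r, lt_min hδ hr, fun s hs' x hx => ?_⟩
    · exact inter_mem (nhdsWithin_le_nhds (ball_mem_nhds w hr)) self_mem_nhdsWithin
    · have hsr : s ∈ ball s₀ r := ball_subset_ball (min_le_right _ _) hs'
      have hsδ : s ∈ ball s₀ δ := ball_subset_ball (min_le_left _ _) hs'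
      have hb := hball _ (hmem s hsr x hx.1)
      refine ⟨A, B', hb.1.1, hb.1.2, fun hz => ?_, ?_⟩
      · have han : AnalyticOnNhd ℂ (fun y : ℂ => B' (s, y)) (ball w r) := fun y hy =>
          AnalyticAt.fun_comp (g := B') (f := fun y : ℂ => (s, y)) (hball _ (hmem s hsr y hy)).1.2
            (analyticAt_const.prod analyticAt_id)
        have h5 := AnalyticOnNhd.eqOn_zero_of_preconnected_of_eventuallyEq_zero han
          (convex_ball w r).isPreconnected hx.1 hz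
        exact hδb s hsδ (h5 hw2)
      · filter_upwards [isOpen_ball.mem_nhds (hmem s hsr x hx.1)] with q hq hq1 hq2
        have hb' := (hball q hq).2
        have hsub : (q.1 - s₀) ^ k ≠ 0 := pow_ne_zero _ (sub_ne_zero.2 hq1)
        have hBq : B q ≠ 0 := by
          rw [hb'.2]
          exact mul_ne_zero hsub hq2
        rw [hb'.1 hBq, hb'.2]
        field_simp

end Pool.Agent.MP_ae5b4e_an_NBT
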