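import Mathlib
import Pool.Agent.Lib.MP_ae5b4e_an_NBT.Vert
import Pool.Agent.Lib.MP_ae5b4e_an_NBT.Mom

/-!
# MP_ae5b4e_an, project NB tools: bounded number of poles (Baire)
-/

noncomputable section

namespace Pool.Agent.MP_ae5b4e_an_NBT

open Complex Set Filter Topology Metric

/-- a function which is meromorphic near a compact set becomes analytic after multiplication by a
polynomial -/
private lemma exists_poly_mul {K : Set ℂ} (hK : IsCompact K) {u : ℂ → ℂ}
    (hu : ∀ w ∈ K, MeromorphicAt u w) :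
    ∃ Q : Polynomial ℂ, Q ≠ 0 ∧ ∀ w ∈ K, AnalyticAt ℂ (fun z => Q.eval z * u z) w := by
  refine hK.induction_on (p := fun S => ∃ Q : Polynomial ℂ, Q ≠ 0 ∧
    ∀ w ∈ S, AnalyticAt ℂ (fun z => Q.eval z * u z) w) ?_ ?_ ?_ ?_
  · exact ⟨1, one_ne_zero, fun w hw => absurd hw (notMem_empty w)⟩
  · rintro S T hST ⟨Q, hQ, h⟩
    exact ⟨Q, hQ, fun w hw => h w (hST hw)⟩
  · rintro S T ⟨Q, hQ, h⟩ ⟨Q', hQ', h'⟩
    refine ⟨Q * Q', mul_ne_zero hQ hQ', fun w hw => ?_⟩
    have hp : ∀ P : Polynomial ℂ, AnalyticAt ℂ (fun z => P.eval z) w := fun P =>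
      P.differentiable.analyticAt w
    rcases hw with hw | hw
    · have h1 := (hp Q').mul (h w hw)
      refine h1.congr (Eventually.of_forall fun z => ?_)
      simp only [Pi.mul_apply, Polynomial.eval_mul]
      ring
    · have h1 := (hp Q).mul (h' w hw)
      refine h1.congr (Eventually.of_forall fun z => ?_)
      simp only [Pi.mul_apply, Polynomial.eval_mul]
      ring
  · intro w hw
    obtain ⟨n, hn⟩ := hu w hw
    refine ⟨{z | AnalyticAt ℂ (fun z => (z - w) ^ n • u z) z},
      mem_nhdsWithin_of_mem_nhds hn.eventually_analyticAt,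
      (Polynomial.X - Polynomial.C w) ^ n, pow_ne_zero n (Polynomial.X_sub_C_ne_zero w),
      fun z hz => ?_⟩
    refine AnalyticAt.congr (f := fun z => (z - w) ^ n • u z) hz
      (Eventually.of_forall fun z => ?_)
    simp

/-- a function of one variable which is meromorphic on a closed disc and analytic on the circle: its
moments satisfy a recurrence -/
private lemma exists_rec_one {u φ : ℂ → ℂ} {c : ℂ} {r1 : ℝ} (hr : 0 < r1)
    (hu : ∀ w ∈ closedBall c r1, MeromorphicAt u w)
    (hφ : ∀ w ∈ sphere c r1, ContinuousAt φ w)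
    (huφ : ∀ w ∈ sphere c r1, u w = φ w) :
    ∃ (N : ℕ) (q : Fin (N + 1) → ℂ), q ≠ 0 ∧
      ∀ n : ℕ, ∑ j, q j * (∮ w in C(c, r1), φ w * (w - c) ^ (n + (j : ℕ))) = 0 := by
  obtain ⟨Q, hQ, h1⟩ := exists_poly_mul (isCompact_closedBall c r1) hu
  set P := Polynomial.taylor c Q with hP
  have hP0 : P ≠ 0 := by
    intro h
    exact hQ (Polynomial.taylor_injective c (by rw [← hP, h, map_zero]))
  have hPQ : ∀ z, Q.eval z = ∑ j ∈ Finset.range (P.natDegree + 1), P.coeff j * (z - c) ^ j := by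
    intro z
    rw [← Polynomial.taylor_eval_sub c Q z, ← hP, Polynomial.eval_eq_sum_range]
  refine ⟨P.natDegree, fun j => P.coeff j, ?_, fun n => ?_⟩
  · intro h
    have h2 := congrFun h ⟨P.natDegree, Nat.lt_succ_self _⟩
    simp only [Pi.zero_apply] at h2
    exact hP0 (Polynomial.leadingCoeff_eq_zero.1 h2)
  · have h2 : ∮ w in C(c, r1), (Q.eval w * u w) * (w - c) ^ n = 0 := by
      refine Complex.circleIntegral_eq_zero_of_differentiable_on_off_countable hr.le
        countable_empty (fun w hw => ?_) (fun w hw => ?_)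
      · exact (((h1 w hw).mul ((analyticAt_id.sub analyticAt_const).pow n)).continuousAt).continuousWithinAt
      · exact ((h1 w (ball_subset_closedBall hw.1)).mul
          ((analyticAt_id.sub analyticAt_const).pow n)).differentiableAt
    have h3 : ∮ w in C(c, r1), (Q.eval w * u w) * (w - c) ^ n =
        ∮ w in C(c, r1), ∑ j ∈ Finset.range (P.natDegree + 1),
          P.coeff j * (φ w * (w - c) ^ (n + j)) := by
      refine circleIntegral.integral_congr hr.le fun w hw => ?_
      rw [huφ w hw, hPQ w, Finset.sum_mul, Finset.sum_mul]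
      refine Finset.sum_congr rfl fun j _ => ?_
      ring
    have h4 : ∀ j, CircleIntegrable (fun w => P.coeff j * (φ w * (w - c) ^ (n + j))) c r1 := by
      intro j
      refine ContinuousOn.circleIntegrable hr.le fun w hw => ?_
      refine ContinuousAt.continuousWithinAt ?_
      exact continuousAt_const.mul ((hφ w hw).mul
        ((continuousAt_id.sub continuousAt_const).pow (n + j)))
    rw [h3] at h2
    rw [circleIntegral.integral_fun_sum] at h2
    · rw [Finset.sum_range] at h2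
      rw [← h2]
      refine Finset.sum_congr rfl fun j _ => ?_
      rw [circleIntegral.integral_const_mul]
    · intro j _
      exact h4 j

/-- If `g` is meromorphic on `V × ball` and equal to the analytic function `F` on the product of
`V` and an annulus, then for the parameters of an open set the moments of `F` satisfy a recurrence
of a fixed length. -/
theorem exists_rec {F g : ℂ × ℂ → ℂ} {V : Set ℂ} (hV : IsOpen V) (hne : V.Nonempty) {c : ℂ}
    {r1 η : ℝ} (hη : 0 < η) (hr : η < r1) (hg : Mer g (V ×ˢ ball c (r1 + η)))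
    (hF : AnalyticOnNhd ℂ F (V ×ˢ Ann c (r1 - η) (r1 + η)))
    (hFg : ∀ p ∈ V ×ˢ Ann c (r1 - η) (r1 + η), EqM F g p) :
    ∃ (N : ℕ) (W : Set ℂ), IsOpen W ∧ W.Nonempty ∧ W ⊆ V ∧ ∀ s ∈ W, ∃ q : Fin (N + 1) → ℂ,
      q ≠ 0 ∧ ∀ n, ∑ j, q j * mom F c r1 (n + j) s = 0 := by
  classical
  have hr1 : 0 < r1 := hη.trans hr
  obtain ⟨s2, hs2⟩ := hne
  obtain ⟨d0, hd0, hd0V⟩ := Metric.isOpen_iff.1 hV s2 hs2
  have hU : IsOpen (V ×ˢ ball c (r1 + η)) := hV.prod isOpen_ball
  obtain ⟨k, δ', hδ', hk⟩ := mer_vert hU hg (s₀ := s2) (isCompact_closedBall c r1)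
    (fun w hw => ⟨hs2, mem_ball.2 (lt_of_le_of_lt (mem_closedBall.1 hw) (by linarith))⟩)
  set δ := min δ' d0 with hδdef
  have hδ : 0 < δ := lt_min hδ' hd0
  have hδV : ball s2 δ ⊆ V := (ball_subset_ball (min_le_right _ _)).trans hd0V
  have hδδ : ball s2 δ ⊆ ball s2 δ' := ball_subset_ball (min_le_left _ _)
  -- the recurrence for one parameter
  have key : ∀ s ∈ ball s2 δ, s ≠ s2 → ∃ (N : ℕ) (q : Fin (N + 1) → ℂ), q ≠ 0 ∧
      ∀ n : ℕ, ∑ j, q j * mom F c r1 (n + (j : ℕ)) s = 0 := by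
    intro s hs hss
    set gk : ℂ × ℂ → ℂ := fun q => (q.1 - s2) ^ k * g q with hgk
    have hsV : s ∈ V := hδV hs
    -- near the circle
    have hF1 : ∀ w ∈ sphere c r1, AnalyticAt ℂ F (s, w) := by
      intro w hw
      have hw' : dist w c = r1 := hw
      exact hF (s, w) ⟨hsV, by constructor <;> rw [hw'] <;> linarith⟩
    have hu1 : ∀ w ∈ closedBall c r1, MeromorphicAt (fun w => nfM gk (s, w)) w := by
      -- meromorphic on the closed disc
      intro w hw
      obtain ⟨A, B, hA, hB, hB0, h1⟩ := hk s (hδδ hs) w hw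
      have h2 : ∀ᶠ q in 𝓝 (s, w), q.1 ≠ s2 := by
        have h3 : Tendsto (fun q : ℂ × ℂ => q.1) (𝓝 (s, w)) (𝓝 s) := continuousAt_fst
        exact h3.eventually (isOpen_ne.mem_nhds hss)
      have h3 : ∀ᶠ q in 𝓝 (s, w), B q ≠ 0 → gk q = A q / B q := by
        filter_upwards [h1, h2] with q hq1 hq2 hq3
        exact hq1 hq2 hq3
      have h4 : ∀ᶠ q in 𝓝 (s, w), B q ≠ 0 → nfM gk q = A q / B q := by
        filter_upwards [h3.eventually_nhds, hA.eventually_analyticAt,
          hB.eventually_analyticAt] with q hq1 hq2 hq3 hq0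
        have h5 : AnalyticAt ℂ (fun y => A y / B y) q := hq2.div hq3 hq0
        exact nfM_eq h5 ⟨B, den_of_ne hq3 hq0, hq1⟩
      have h5 : AnalyticAt ℂ (fun w' : ℂ => ((s, w') : ℂ × ℂ)) w :=
        analyticAt_const.prod analyticAt_id
      have hAs : AnalyticAt ℂ (fun w' => A (s, w')) w :=
        AnalyticAt.fun_comp (g := A) (f := fun w' : ℂ => ((s, w') : ℂ × ℂ)) hA h5
      have hBs : AnalyticAt ℂ (fun w' => B (s, w')) w :=
        AnalyticAt.fun_comp (g := B) (f := fun w' : ℂ => ((s, w') : ℂ × ℂ)) hB h5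
      have h6 : ∀ᶠ w' in 𝓝[≠] w, B (s, w') ≠ 0 :=
        hBs.eventually_eq_zero_or_eventually_ne_zero.resolve_left hB0
      have h7 : ∀ᶠ w' in 𝓝 w, B (s, w') ≠ 0 → nfM gk (s, w') = A (s, w') / B (s, w') :=
        h5.continuousAt.eventually h4
      refine (hAs.meromorphicAt.div hBs.meromorphicAt).congr ?_
      filter_upwards [h6, h7.filter_mono nhdsWithin_le_nhds] with w' hw1 hw2
      exact (hw2 hw1).symm
    have hφ1 : ∀ w ∈ sphere c r1, ContinuousAt (fun w => (s - s2) ^ k * F (s, w)) w := by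
      intro w hw
      have h5 : ContinuousAt (fun w' : ℂ => ((s, w') : ℂ × ℂ)) w :=
        continuousAt_const.prodMk continuousAt_id
      exact continuousAt_const.mul
        (ContinuousAt.comp (g := F) (f := fun w' : ℂ => ((s, w') : ℂ × ℂ))
          (hF1 w hw).continuousAt h5)
    have huφ1 : ∀ w ∈ sphere c r1, nfM gk (s, w) = (s - s2) ^ k * F (s, w) := by
      intro w hw
      have hw' : dist w c = r1 := hw
      have h1 : EqM F g (s, w) :=
        hFg (s, w) ⟨hsV, by constructor <;> rw [hw'] <;> linarith⟩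
      have h2 : EqM gk (fun q => (q.1 - s2) ^ k * F q) (s, w) :=
        EqM.map₂ (fun x y => x * y) (EqM.refl (fun q : ℂ × ℂ => (q.1 - s2) ^ k) (s, w)) h1.symm
      have h3 : AnalyticAt ℂ (fun q : ℂ × ℂ => (q.1 - s2) ^ k * F q) (s, w) :=
        ((analyticAt_fst.sub analyticAt_const).pow k).mul (hF1 w hw)
      exact nfM_eq h3 h2
    obtain ⟨N, q, hq, h⟩ := exists_rec_one (u := fun w => nfM gk (s, w))
      (φ := fun w => (s - s2) ^ k * F (s, w)) (c := c) (r1 := r1) hr1 hu1 hφ1 huφ1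
    · refine ⟨N, q, hq, fun n => ?_⟩
      have h1 := h n
      have h2 : (s - s2) ^ k ≠ 0 := pow_ne_zero k (sub_ne_zero.2 hss)
      have h3 : ∀ j : Fin (N + 1),
          (∮ w in C(c, r1), (s - s2) ^ k * F (s, w) * (w - c) ^ (n + (j : ℕ))) =
          (s - s2) ^ k * (2 * Real.pi * I) * mom F c r1 (n + (j : ℕ)) s := by
        intro j
        have h4 : (∮ w in C(c, r1), (s - s2) ^ k * F (s, w) * (w - c) ^ (n + (j : ℕ))) =
            ∮ w in C(c, r1), (s - s2) ^ k * (F (s, w) * (w - c) ^ (n + (j : ℕ))) := by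
          congr 1
          funext w
          ring
        rw [h4, circleIntegral.integral_const_mul]
        unfold mom
        rw [smul_eq_mul]
        have h5 : (2 * Real.pi * I : ℂ) ≠ 0 := Complex.two_pi_I_ne_zero
        field_simp
      simp only [h3] at h1
      have h4 : ∑ j, q j * ((s - s2) ^ k * (2 * Real.pi * I) * mom F c r1 (n + (j : ℕ)) s) =
          ((s - s2) ^ k * (2 * Real.pi * I)) * ∑ j, q j * mom F c r1 (n + (j : ℕ)) s := by
        rw [Finset.mul_sum]
        refine Finset.sum_congr rfl fun j _ => ?_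
        ring
      rw [h4] at h1
      exact (mul_eq_zero.1 h1).resolve_left (mul_ne_zero h2 Complex.two_pi_I_ne_zero)
  -- the moments are continuous
  have hmom : ∀ n, ContinuousOn (mom F c r1 n) V := by
    intro n s hs
    obtain ⟨ε, hε, hεV⟩ := Metric.isOpen_iff.1 hV s hs
    have h1 := mom_an (F := F) (s₀ := s) (δ := ε) hη hr
      (hF.mono (prod_mono hεV (Subset.refl _))) n
    exact (h1 s (mem_ball_self hε)).continuousAt.continuousWithinAt
  -- Baire
  set V' : Set ℂ := ball s2 δ \ {s2} with hV'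
  have hV'o : IsOpen V' := isOpen_ball.sdiff isClosed_singleton
  have hV'V : V' ⊆ V := sdiff_subset.trans hδV
  have hV'ne : V'.Nonempty := by
    refine ⟨s2 + ((δ / 2 : ℝ) : ℂ), ?_, ?_⟩
    · rw [mem_ball, dist_eq_norm, add_sub_cancel_left, Complex.norm_real, Real.norm_eq_abs,
        abs_of_pos (half_pos hδ)]
      exact half_lt_self hδ
    · intro h
      have h1 : ((δ / 2 : ℝ) : ℂ) = 0 := by
        simpa using h
      rw [Complex.ofReal_eq_zero] at h1
      linarith
  have : LocallyCompactSpace V' := hV'o.locallyCompactSpace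
  have : Nonempty V' := hV'ne.to_subtype
  let E : ℕ → Set V' := fun N => {s | ∃ q : Fin (N + 1) → ℂ,
      q ≠ 0 ∧ ∀ n : ℕ, ∑ j, q j * mom F c r1 (n + (j : ℕ)) s = 0}
  have hE : ∀ N, IsClosed (E N) := by
    intro N
    let Z : Set (V' × sphere (0 : Fin (N + 1) → ℂ) 1) :=
      ⋂ n : ℕ, {p | ∑ j, (p.2 : Fin (N + 1) → ℂ) j * mom F c r1 (n + (j : ℕ)) (p.1 : ℂ) = 0}
    have hZ : IsClosed Z := by
      refine isClosed_iInter fun n => isClosed_eq ?_ continuous_const
      refine continuous_finsetSum _ fun j _ => ?_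
      have h1 : Continuous fun s : V' => mom F c r1 (n + (j : ℕ)) (s : ℂ) :=
        ((hmom (n + (j : ℕ))).mono hV'V).domRestrict
      have h2 : Continuous fun p : V' × sphere (0 : Fin (N + 1) → ℂ) 1 =>
          (p.2 : Fin (N + 1) → ℂ) j :=
        (continuous_apply j).comp (continuous_subtype_val.comp continuous_snd)
      exact h2.mul (h1.comp continuous_fst)
    have hEZ : E N = Prod.fst '' Z := by
      ext s
      constructor
      · rintro ⟨q, hq, h⟩
        have hq0 : ‖q‖ ≠ 0 := norm_ne_zero_iff.2 hq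
        refine ⟨(s, ⟨(((‖q‖⁻¹ : ℝ) : ℂ)) • q, ?_⟩), ?_, rfl⟩
        · rw [mem_sphere_zero_iff_norm, norm_smul, Complex.norm_real, norm_inv, norm_norm,
            inv_mul_cancel₀ hq0]
        · refine mem_iInter.2 fun n => ?_
          change ∑ j, ((((‖q‖⁻¹ : ℝ) : ℂ)) • q) j * mom F c r1 (n + (j : ℕ)) (s : ℂ) = 0
          have h1 : ∑ j, ((((‖q‖⁻¹ : ℝ) : ℂ)) • q) j * mom F c r1 (n + (j : ℕ)) (s : ℂ) =
              ((‖q‖⁻¹ : ℝ) : ℂ) * ∑ j, q j * mom F c r1 (n + (j : ℕ)) (s : ℂ) := by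
            rw [Finset.mul_sum]
            refine Finset.sum_congr rfl fun j _ => ?_
            rw [Pi.smul_apply, smul_eq_mul]
            ring
          rw [h1, h n, mul_zero]
      · rintro ⟨⟨s', q⟩, hp, rfl⟩
        refine ⟨q, ?_, fun n => mem_iInter.1 hp n⟩
        intro h
        have h1 : ‖(q : Fin (N + 1) → ℂ)‖ = 1 := mem_sphere_zero_iff_norm.1 q.2
        rw [h, norm_zero] at h1
        exact zero_ne_one h1
    rw [hEZ]
    exact isClosedMap_fst_of_compactSpace _ hZ
  have hEU : ⋃ N, E N = univ := by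
    refine eq_univ_of_forall fun s => ?_
    obtain ⟨N, q, hq, h⟩ := key s s.2.1 s.2.2
    exact mem_iUnion.2 ⟨N, q, hq, h⟩
  obtain ⟨N, hN⟩ := nonempty_interior_of_iUnion_of_closed hE hEU
  refine ⟨N, Subtype.val '' interior (E N), hV'o.isOpenMap_subtype_val _ isOpen_interior,
    hN.image _, ?_, ?_⟩
  · rintro _ ⟨s, -, rfl⟩
    exact hV'V s.2
  · rintro _ ⟨s, hs, rfl⟩
    have h1 : s ∈ E N := interior_subset hs
    exact h1

end Pool.Agent.MP_ae5b4e_an_NBT
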