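import Mathlib

/-!
# MP_ae5b4e_an, project NB tools: analytic solutions of a recurrence
-/

noncomputable section

namespace Pool.Agent.MP_ae5b4e_an_NBT

open Complex Set Filter Topology Metric

/-- an analytic function which is not identically zero on `D` is not identically zero on any open
subset -/
private lemma elim_ne {D W : Set ℂ} (hDc : IsPreconnected D) {f : ℂ → ℂ}
    (hf : AnalyticOnNhd ℂ f D) (h : ∃ s ∈ D, f s ≠ 0) (hW : IsOpen W) (hne : W.Nonempty)
    (hWD : W ⊆ D) : ∃ s ∈ W, f s ≠ 0 := by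
  by_contra hcon
  push Not at hcon
  obtain ⟨s, hs, h0⟩ := h
  obtain ⟨w, hw⟩ := hne
  have h1 : f =ᶠ[𝓝 w] 0 := by
    filter_upwards [hW.mem_nhds hw] with x hx
    exact hcon x hx
  exact h0 (hf.eqOn_zero_of_preconnected_of_eventuallyEq_zero hDc (hWD hw) h1 hs)

private lemma elim_isOpen {D : Set ℂ} (hD : IsOpen D) {f : ℂ → ℂ}
    (hf : AnalyticOnNhd ℂ f D) : IsOpen {s ∈ D | f s ≠ 0} :=
  hf.continuousOn.isOpen_inter_preimage hD isOpen_compl_singleton

private lemma elim_aux {D : Set ℂ} (hD : IsOpen D) (hDc : IsPreconnected D) :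
    ∀ (K : ℕ) (a : ℕ → Fin K → ℂ → ℂ) (W : Set ℂ), (∀ n j, AnalyticOnNhd ℂ (a n j) D) →
      IsOpen W → W.Nonempty → W ⊆ D →
      (∀ s ∈ W, ∃ q : Fin K → ℂ, q ≠ 0 ∧ ∀ n, ∑ j, q j * a n j s = 0) →
      ∃ q : Fin K → ℂ → ℂ, (∀ j, AnalyticOnNhd ℂ (q j) D) ∧
        (∃ j, ∃ s ∈ D, q j s ≠ 0) ∧ ∀ s ∈ D, ∀ n, ∑ j, q j s * a n j s = 0 := by
  intro K
  induction K with
  | zero =>
    intro a W ha hW hne hWD h
    obtain ⟨s, hs⟩ := hne
    obtain ⟨q, hq, -⟩ := h s hs
    exact absurd (Subsingleton.elim q 0) hq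
  | succ K ih =>
    intro a W ha hW hne hWD h
    by_cases h0 : ∀ n, ∀ s ∈ D, a n 0 s = 0
    · refine ⟨fun j _ => if j = 0 then 1 else 0, fun j => analyticOnNhd_const, ⟨0, ?_⟩, ?_⟩
      · obtain ⟨s, hs⟩ := hne
        exact ⟨s, hWD hs, by simp⟩
      · intro s hs n
        simp [h0 n s hs]
    · push Not at h0
      obtain ⟨n0, hn0⟩ := h0
      -- the smaller open set
      set W' : Set ℂ := W ∩ {s ∈ D | a n0 0 s ≠ 0} with hW'
      have hW'o : IsOpen W' := hW.inter (elim_isOpen hD (ha n0 0))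
      have hW'ne : W'.Nonempty := by
        obtain ⟨s, hs, hs0⟩ := elim_ne hDc (ha n0 0) hn0 hW hne hWD
        exact ⟨s, hs, hWD hs, hs0⟩
      obtain ⟨q', hq'a, hq'0, hq'⟩ := ih
        (fun n j s => a n0 0 s * a n j.succ s - a n 0 s * a n0 j.succ s) W'
        (fun n j => ((ha n0 0).mul (ha n j.succ)).sub ((ha n 0).mul (ha n0 j.succ)))
        hW'o hW'ne (fun s hs => hWD hs.1) (by
          rintro s ⟨hs, hsD, hs0⟩
          obtain ⟨q, hq, hq2⟩ := h s hs
          refine ⟨fun j => q j.succ, ?_, ?_⟩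
          · intro hq3
            apply hq
            have h3 : ∀ j : Fin K, q j.succ = 0 := fun j => congrFun hq3 j
            have h4 := hq2 n0
            rw [Fin.sum_univ_succ] at h4
            simp only [h3, zero_mul, Finset.sum_const_zero, add_zero] at h4
            have h5 : q 0 = 0 := (mul_eq_zero.1 h4).resolve_right hs0
            funext j
            refine Fin.cases h5 (fun i => ?_) j
            exact h3 i
          · intro n
            have h4 := hq2 n
            have h5 := hq2 n0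
            rw [Fin.sum_univ_succ] at h4 h5
            have h6 : ∑ j : Fin K, q j.succ * (a n0 0 s * a n j.succ s - a n 0 s * a n0 j.succ s)
                = a n0 0 s * ∑ j : Fin K, q j.succ * a n j.succ s
                  - a n 0 s * ∑ j : Fin K, q j.succ * a n0 j.succ s := by
              rw [Finset.mul_sum, Finset.mul_sum, ← Finset.sum_sub_distrib]
              refine Finset.sum_congr rfl fun j _ => ?_
              ring
            rw [h6]
            linear_combination a n0 0 s * h4 - a n 0 s * h5)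
      refine ⟨Fin.cons (fun s => -∑ j : Fin K, q' j s * a n0 j.succ s)
        (fun j s => a n0 0 s * q' j s), ?_, ?_, ?_⟩
      · intro j
        refine Fin.cases ?_ (fun i => ?_) j
        · simp only [Fin.cons_zero]
          refine AnalyticOnNhd.neg ?_
          exact Finset.analyticOnNhd_fun_sum _ (fun i _ => (hq'a i).mul (ha n0 i.succ))
        · simp only [Fin.cons_succ]
          exact (ha n0 0).mul (hq'a i)
      · obtain ⟨j, hj⟩ := hq'0
        obtain ⟨s, ⟨hsD, hs⟩, hs2⟩ := elim_ne hDc (ha n0 0) hn0 (elim_isOpen hD (hq'a j))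
          (by obtain ⟨s, hs, h1⟩ := hj; exact ⟨s, hs, h1⟩) (fun s hs => hs.1)
        refine ⟨j.succ, s, hsD, ?_⟩
        simp only [Fin.cons_succ]
        exact mul_ne_zero hs2 hs
      · intro s hs n
        rw [Fin.sum_univ_succ]
        simp only [Fin.cons_zero, Fin.cons_succ]
        have h4 := hq' s hs n
        rw [← h4, neg_mul, Finset.sum_mul, ← Finset.sum_neg_distrib, ← Finset.sum_add_distrib]
        refine Finset.sum_congr rfl fun j _ => ?_
        ring

/-- If, for the parameters of an open set, the sequence `c n s` satisfies a recurrence of length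
`N`, then it satisfies a recurrence with analytic coefficients for all parameters. -/
theorem exists_analytic_rec {c : ℕ → ℂ → ℂ} {D W : Set ℂ} (hD : IsOpen D)
    (hDc : IsPreconnected D) (hc : ∀ n, AnalyticOnNhd ℂ (c n) D) {N : ℕ} (hW : IsOpen W)
    (hne : W.Nonempty) (hWD : W ⊆ D)
    (h : ∀ s ∈ W, ∃ q : Fin (N + 1) → ℂ, q ≠ 0 ∧ ∀ n, ∑ j, q j * c (n + j) s = 0) :
    ∃ q : Fin (N + 1) → ℂ → ℂ, (∀ j, AnalyticOnNhd ℂ (q j) D) ∧
      (∃ j, ∃ s ∈ D, q j s ≠ 0) ∧ ∀ s ∈ D, ∀ n, ∑ j, q j s * c (n + j) s = 0 :=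
  elim_aux hD hDc (N + 1) (fun n j => c (n + j)) W (fun _ _ => hc _) hW hne hWD h

end Pool.Agent.MP_ae5b4e_an_NBT
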