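import Mathlib
import Pool.Agent.Lib.MP_ae5b4e_an_NBT.Vert

/-!
# MP_ae5b4e_an, project NB tools: circles without poles
-/

noncomputable section

namespace Pool.Agent.MP_ae5b4e_an_NBT

open Complex Set Filter Topology Metric

/-- an open set containing a circle contains an annulus around it -/
private lemma ann_near {V : Set ℂ} (hV : IsOpen V) {c : ℂ} {r : ℝ} (hr : 0 < r)
    (h : sphere c r ⊆ V) : ∃ e > 0, e < r ∧ ∀ w, |dist w c - r| < e → w ∈ V := by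
  obtain ⟨δ, hδ, h1⟩ := (isCompact_sphere c r).exists_thickening_subset_open hV h
  refine ⟨min δ (r / 2), by positivity, (min_le_right _ _).trans_lt (by linarith), ?_⟩
  intro w hw
  apply h1
  rw [mem_thickening_iff]
  have hw1 : |dist w c - r| < δ := hw.trans_le (min_le_left _ _)
  have hw2 : |dist w c - r| < r / 2 := hw.trans_le (min_le_right _ _)
  have hd : 0 < dist w c := by
    have := (abs_lt.1 hw2).1
    linarith
  have hd' : ((dist w c : ℝ) : ℂ) ≠ 0 := by exact_mod_cast hd.ne'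
  refine ⟨c + ((r / dist w c : ℝ) : ℂ) * (w - c), ?_, ?_⟩
  · rw [mem_sphere, dist_eq_norm, add_sub_cancel_left, norm_mul, norm_real, Real.norm_eq_abs,
      ← dist_eq_norm w c, abs_of_pos (by positivity), div_mul_cancel₀ _ hd.ne']
  · have h2 : w - (c + ((r / dist w c : ℝ) : ℂ) * (w - c)) =
        ((dist w c - r : ℝ) : ℂ) * ((w - c) / (dist w c : ℝ)) := by
      push_cast
      field_simp
      ring
    rw [dist_eq_norm, h2, norm_mul, norm_div, norm_real, norm_real, Real.norm_eq_abs,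
      Real.norm_eq_abs, ← dist_eq_norm w c, abs_of_pos hd, div_self hd.ne', mul_one]
    exact hw1

/-- an open set containing a vertical circle contains a tube around it -/
private lemma tube {N : Set (ℂ × ℂ)} (hN : IsOpen N) {s₀ c : ℂ} {r : ℝ} (hr : 0 < r)
    (h : ∀ w ∈ sphere c r, (s₀, w) ∈ N) :
    ∃ δ > 0, ∃ e > 0, e < r ∧ ∀ s ∈ ball s₀ δ, ∀ w, |dist w c - r| < e → (s, w) ∈ N := by
  obtain ⟨u, v, hu, hv, hsu, htv, huv⟩ := generalized_tube_lemma (isCompact_singleton (x := s₀))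
    (isCompact_sphere c r) hN (by
      rintro ⟨a, b⟩ ⟨ha, hb⟩
      rw [mem_singleton_iff] at ha
      change a = s₀ at ha
      rw [ha]
      exact h b hb)
  obtain ⟨δ, hδ, h1⟩ := Metric.isOpen_iff.1 hu s₀ (hsu rfl)
  obtain ⟨e, he, her, h2⟩ := ann_near hv hr htv
  exact ⟨δ, hδ, e, he, her, fun s hs w hw => huv ⟨h1 hs, h2 w hw⟩⟩

private lemma den_fst_sub (s₀ : ℂ) (p : ℂ × ℂ) : Den (fun q : ℂ × ℂ => q.1 - s₀) p := by
  refine ⟨analyticAt_fst.sub analyticAt_const, fun h => ?_⟩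
  have h1 : Tendsto (fun t : ℂ => (t, p.2)) (𝓝 p.1) (𝓝 p) := by
    have h2 : Continuous (fun t : ℂ => (t, p.2)) := by fun_prop
    exact h2.tendsto p.1
  have h3 : ∀ᶠ t in 𝓝 p.1, t - s₀ = 0 := h1.eventually h
  have h4 : ∀ᶠ t in 𝓝[≠] p.1, t = p.1 := by
    have h5 : p.1 - s₀ = 0 := h3.self_of_nhds
    filter_upwards [nhdsWithin_le_nhds h3] with t ht
    rw [sub_eq_zero] at ht h5
    rw [ht, h5]
  have h6 : ∀ᶠ t in 𝓝[≠] p.1, t ≠ p.1 := eventually_mem_nhdsWithin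
  obtain ⟨t, ht1, ht2⟩ := (h4.and h6).exists
  exact ht2 ht1

/-- circles without poles -/
theorem exists_polefree {U : Set (ℂ × ℂ)} (hU : IsOpen U) {f : ℂ × ℂ → ℂ} (hf : Mer f U)
    {s₀ c : ℂ} {r ε : ℝ} (hr : 0 < r) (hε : 0 < ε) (hs : ∀ w ∈ sphere c r, (s₀, w) ∈ U) :
    ∃ (k : ℕ) (r1 δ η : ℝ) (F1 : ℂ × ℂ → ℂ), 0 < δ ∧ 0 < η ∧ η < r1 ∧ r - ε < r1 - η ∧
      r1 + η < r ∧ AnalyticOnNhd ℂ F1 (ball s₀ δ ×ˢ Ann c (r1 - η) (r1 + η)) ∧
      (∀ s ∈ ball s₀ δ, ∀ w, r1 - η < dist w c → dist w c ≤ r → (s, w) ∈ U) ∧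
      ∀ p ∈ ball s₀ δ ×ˢ Ann c (r1 - η) (r1 + η), EqM F1 (fun q => (q.1 - s₀) ^ k * f q) p := by
  obtain ⟨d1, hd1, e, he, her, hdU⟩ := tube hU hr hs
  obtain ⟨e1, he1, he1e, he1ε⟩ : ∃ e1 : ℝ, 0 < e1 ∧ e1 < e ∧ e1 < ε :=
    ⟨min e ε / 2, by positivity, by
      have := min_le_left e ε
      linarith, by
      have := min_le_right e ε
      linarith⟩
  have hCU : ∀ s ∈ ball s₀ d1, ∀ w, r - e1 ≤ dist w c → dist w c ≤ r → (s, w) ∈ U := by
    intro s hs1 w hw1 hw2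
    refine hdU s hs1 w ?_
    rw [abs_lt]
    constructor <;> linarith
  -- the compact annulus
  set C : Set ℂ := {w | r - e1 ≤ dist w c ∧ dist w c ≤ r} with hCdef
  have hC : IsCompact C := by
    refine (isCompact_closedBall c r).of_isClosed_subset ?_ fun w hw => hw.2
    exact (isClosed_le continuous_const (continuous_id.dist continuous_const)).inter
      (isClosed_le (continuous_id.dist continuous_const) continuous_const)
  obtain ⟨k, d2, hd2, hAB⟩ := mer_vert hU hf hC fun w hw =>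
    hCU s₀ (mem_ball_self hd1) w hw.1 hw.2
  set fk : ℂ × ℂ → ℂ := fun q => (q.1 - s₀) ^ k * f q with hfk
  -- good points
  have hgood : ∀ w₀ ∈ C, ∀ᶠ w in 𝓝[≠] w₀,
      ∃ G : ℂ × ℂ → ℂ, AnalyticAt ℂ G (s₀, w) ∧ EqM fk G (s₀, w) := by
    intro w₀ hw₀
    obtain ⟨A, B, hA, hB, hB0, h1⟩ := hAB s₀ (mem_ball_self hd2) w₀ hw₀
    have hi : AnalyticAt ℂ (fun w : ℂ => (s₀, w)) w₀ := analyticAt_const.prod analyticAt_id
    have ht : Tendsto (fun w : ℂ => (s₀, w)) (𝓝 w₀) (𝓝 (s₀, w₀)) := hi.continuousAt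
    have hBa : AnalyticAt ℂ (fun w : ℂ => B (s₀, w)) w₀ :=
      AnalyticAt.fun_comp (g := B) (f := fun w : ℂ => (s₀, w)) hB hi
    have hBne : ∀ᶠ w in 𝓝[≠] w₀, B (s₀, w) ≠ 0 := by
      rcases hBa.eventually_eq_zero_or_eventually_ne_zero with h2 | h2
      · exact absurd h2 hB0
      · exact h2
    filter_upwards [hBne, nhdsWithin_le_nhds (ht.eventually hA.eventually_analyticAt),
      nhdsWithin_le_nhds (ht.eventually hB.eventually_analyticAt),
      nhdsWithin_le_nhds (ht.eventually h1.eventually_nhds)] with w h2 h3 h4 h5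
    refine ⟨fun q => A q / B q, h3.div h4 h2, _, (den_fst_sub s₀ _).mul (den_of_ne h4 h2), ?_⟩
    filter_upwards [h5] with q hq h0
    exact hq (sub_ne_zero.1 (left_ne_zero_of_mul h0)) (right_ne_zero_of_mul h0)
  -- finitely many bad points
  have hfin : ∃ T : Finset ℂ, ∀ w ∈ C, w ∉ T →
      ∃ G : ℂ × ℂ → ℂ, AnalyticAt ℂ G (s₀, w) ∧ EqM fk G (s₀, w) := by
    have h1 : ∀ w₀ ∈ C, {w | w ≠ w₀ →
        ∃ G : ℂ × ℂ → ℂ, AnalyticAt ℂ G (s₀, w) ∧ EqM fk G (s₀, w)} ∈ 𝓝 w₀ :=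
      fun w₀ hw₀ => eventually_nhdsWithin_iff.1 (hgood w₀ hw₀)
    obtain ⟨T, hT⟩ := hC.elim_nhds_subcover' (fun w₀ _ => {w | w ≠ w₀ →
        ∃ G : ℂ × ℂ → ℂ, AnalyticAt ℂ G (s₀, w) ∧ EqM fk G (s₀, w)}) h1
    classical
    refine ⟨T.image Subtype.val, fun w hw hwT => ?_⟩
    obtain ⟨x, hx, hwx⟩ := mem_iUnion₂.1 (hT hw)
    exact hwx fun h => hwT (Finset.mem_image.2 ⟨x, hx, h.symm⟩)
  obtain ⟨T, hT⟩ := hfin
  obtain ⟨r1, ⟨hr1a, hr1b⟩, hr1T⟩ : ∃ r1 ∈ Ioo (r - e1) r, r1 ∉ T.image (fun w => dist w c) :=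
    (Ioo_infinite (by linarith)).exists_notMem_finset _
  have hr1 : 0 < r1 := by linarith
  set F1 : ℂ × ℂ → ℂ := nfM fk with hF1
  have hnear : ∀ w ∈ sphere c r1, ∀ᶠ q in 𝓝 (s₀, w), AnalyticAt ℂ F1 q ∧ EqM F1 fk q := by
    intro w hw
    rw [mem_sphere] at hw
    obtain ⟨G, hG1, hG2⟩ := hT w ⟨by rw [hw]; exact hr1a.le, by rw [hw]; exact hr1b.le⟩
      fun h => hr1T (Finset.mem_image.2 ⟨w, h, hw⟩)
    have h1 : ∀ᶠ q in 𝓝 (s₀, w), F1 q = G q := by
      filter_upwards [hG1.eventually_analyticAt, hG2.eventually] with q h2 h3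
      exact nfM_eq h2 h3
    filter_upwards [h1.eventually_nhds, hG1.eventually_analyticAt, hG2.eventually] with q h2 h3 h4
    have h5 : F1 =ᶠ[𝓝 q] G := h2
    exact ⟨h3.congr h5.symm, (EqM.of_eventuallyEq h5).trans h4.symm⟩
  obtain ⟨d3, hd3, e3, he3, -, h3⟩ := tube (N := {q : ℂ × ℂ | ∀ᶠ x in 𝓝 q,
    AnalyticAt ℂ F1 x ∧ EqM F1 fk x}) isOpen_setOfPred_eventually_nhds hr1 hnear
  obtain ⟨η, hη, hη1, hη2, hη3, hη4⟩ : ∃ η : ℝ, 0 < η ∧ η < r1 ∧ η < r1 - (r - e1) ∧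
      η < r - r1 ∧ η ≤ e3 := by
    have h1 : 0 < r1 - (r - e1) := by linarith
    have h2 : 0 < r - r1 := by linarith
    refine ⟨min (min r1 (r1 - (r - e1))) (min (r - r1) e3) / 2, by positivity, ?_, ?_, ?_, ?_⟩
    · have h4 := min_le_left (min r1 (r1 - (r - e1))) (min (r - r1) e3)
      have h5 := min_le_left r1 (r1 - (r - e1))
      linarith
    · have h4 := min_le_left (min r1 (r1 - (r - e1))) (min (r - r1) e3)
      have h5 := min_le_right r1 (r1 - (r - e1))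
      linarith
    · have h4 := min_le_right (min r1 (r1 - (r - e1))) (min (r - r1) e3)
      have h5 := min_le_left (r - r1) e3
      linarith
    · have h4 := min_le_right (min r1 (r1 - (r - e1))) (min (r - r1) e3)
      have h5 := min_le_right (r - r1) e3
      linarith
  have hP : ∀ p ∈ ball s₀ (min d1 d3) ×ˢ Ann c (r1 - η) (r1 + η),
      AnalyticAt ℂ F1 p ∧ EqM F1 fk p := by
    rintro ⟨s, w⟩ ⟨hs1, hw1, hw2⟩
    have h4 : ∀ᶠ x in 𝓝 (s, w), AnalyticAt ℂ F1 x ∧ EqM F1 fk x :=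
      h3 s (ball_subset_ball (min_le_right _ _) hs1) w (by
      rw [abs_lt]
      constructor
      · have : r1 - η < dist w c := hw1
        linarith
      · have : dist w c < r1 + η := hw2
        linarith)
    exact h4.self_of_nhds
  refine ⟨k, r1, min d1 d3, η, F1, by positivity, hη, hη1, by linarith, by linarith,
    fun p hp => (hP p hp).1, ?_, fun p hp => (hP p hp).2⟩
  intro s hs1 w hw1 hw2
  exact hCU s (ball_subset_ball (min_le_left _ _) hs1) w (by linarith) hw2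

end Pool.Agent.MP_ae5b4e_an_NBT
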