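import Mathlib
import Pool.Agent.Lib.MP_ae5b4e_an_NBT.Pole
import Pool.Agent.Lib.MP_ae5b4e_an_NBT.Bair
import Pool.Agent.Lib.MP_ae5b4e_an_NBT.Elim

/-!
# MP_ae5b4e_an, project NB tools: the theorem of Levi, local step
-/

noncomputable section

namespace Pool.Agent.MP_ae5b4e_an_NBT

open Complex Set Filter Topology Metric

/-- a point near the circle -/
private lemma lev_point (c : ℂ) {r ε : ℝ} (hr : 0 < r) (hε : 0 < ε) :
    ∃ w ∈ ball c r, r - ε < dist w c := by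
  set e : ℝ := min ε r with he
  have he0 : 0 < e := lt_min hε hr
  have h1 : e ≤ ε := min_le_left _ _
  have h2 : e ≤ r := min_le_right _ _
  have h3 : dist (c + ((r - e / 2 : ℝ) : ℂ)) c = r - e / 2 := by
    rw [dist_eq_norm, add_sub_cancel_left, Complex.norm_real, Real.norm_eq_abs, abs_of_pos]
    linarith
  refine ⟨c + ((r - e / 2 : ℝ) : ℂ), ?_, ?_⟩
  · rw [mem_ball, h3]; linarith
  · rw [h3]; linarith

/-- uniqueness of the extension -/
theorem Fig.unique {f g g' : ℂ × ℂ → ℂ} {U : Set (ℂ × ℂ)} {S S' : Set ℂ} {c : ℂ} {r : ℝ}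
    (hr : 0 < r) (h : Fig f U g S c r) (h' : Fig f U g' S' c r) :
    ∀ p ∈ (S ∩ S') ×ˢ ball c r, EqM g g' p := by
  rintro ⟨s, w⟩ ⟨⟨hs, hs'⟩, hw⟩
  obtain ⟨ε, hε, h1⟩ := h.near s hs
  obtain ⟨ε', hε', h1'⟩ := h'.near s hs'
  obtain ⟨w', hw', hw2⟩ := lev_point c hr (lt_min hε hε')
  have h2 := (h1.self_of_nhds w' hw'
    (lt_of_le_of_lt (by linarith [min_le_left ε ε']) hw2)).2
  have h2' := (h1'.self_of_nhds w' hw'
    (lt_of_le_of_lt (by linarith [min_le_right ε ε']) hw2)).2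
  have h3 : IsPreconnected (({s} : Set ℂ) ×ˢ ball c r) :=
    isPreconnected_singleton.prod (convex_ball c r).isPreconnected
  refine Mer.eqM h3 (h.mer.mono ?_) (h'.mer.mono ?_) (p := (s, w')) ⟨rfl, hw'⟩
    (h2.trans h2'.symm) (s, w) ⟨rfl, hw⟩
  · exact prod_mono (singleton_subset_iff.2 hs) subset_rfl
  · exact prod_mono (singleton_subset_iff.2 hs') subset_rfl

private lemma isOpen_Ann' (c : ℂ) (a b : ℝ) : IsOpen (Ann c a b) :=
  (isOpen_lt continuous_const (continuous_id.dist continuous_const)).inter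
    (isOpen_lt (continuous_id.dist continuous_const) continuous_const)

private lemma isPreconnected_Ann' (c : ℂ) {a b : ℝ} (ha : 0 ≤ a) : IsPreconnected (Ann c a b) := by
  have h1 : Ann c a b = (fun p : ℝ × ℝ => c + (p.1 : ℂ) * exp ((p.2 : ℂ) * I)) ''
      (Ioo a b ×ˢ univ) := by
    ext w
    constructor
    · rintro ⟨h1, h2⟩
      refine ⟨(dist w c, arg (w - c)), ⟨⟨h1, h2⟩, mem_univ _⟩, ?_⟩
      change c + ((dist w c : ℝ) : ℂ) * exp (arg (w - c) * I) = w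
      rw [dist_eq_norm, norm_mul_exp_arg_mul_I]
      ring
    · rintro ⟨⟨x, θ⟩, ⟨hx, -⟩, rfl⟩
      have h2 : dist (c + (x : ℂ) * exp ((θ : ℂ) * I)) c = x := by
        rw [dist_eq_norm, add_sub_cancel_left, norm_mul, norm_exp_ofReal_mul_I, mul_one,
          Complex.norm_real, Real.norm_eq_abs, abs_of_nonneg (ha.trans hx.1.le)]
      exact ⟨by change a < dist (c + (x : ℂ) * exp ((θ : ℂ) * I)) c; rw [h2]; exact hx.1,
        by change dist (c + (x : ℂ) * exp ((θ : ℂ) * I)) c < b; rw [h2]; exact hx.2⟩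
  rw [h1]
  refine (isPreconnected_Ioo.prod isPreconnected_univ).image _ ?_
  fun_prop

/-- the polynomial in `w` with the coefficients `q j s` -/
private def levQ {N : ℕ} (q : Fin (N + 1) → ℂ → ℂ) (c : ℂ) (p : ℂ × ℂ) : ℂ :=
  ∑ j, q j p.1 * (p.2 - c) ^ (j : ℕ)

private lemma levQ_an {N : ℕ} {q : Fin (N + 1) → ℂ → ℂ} {D : Set ℂ}
    (hq : ∀ j, AnalyticOnNhd ℂ (q j) D) (c : ℂ) {p : ℂ × ℂ} (hp : p.1 ∈ D) :
    AnalyticAt ℂ (levQ q c) p := by
  unfold levQ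
  refine Finset.analyticAt_fun_sum _ fun j _ => ?_
  refine AnalyticAt.mul ?_ ((analyticAt_snd.sub analyticAt_const).pow _)
  exact AnalyticAt.fun_comp (g := q j) (f := fun p : ℂ × ℂ => p.1) (hq j _ hp) analyticAt_fst

/-- a polynomial which vanishes near a point has zero coefficients -/
private lemma lev_poly {N : ℕ} {a : Fin (N + 1) → ℂ} {c w₁ : ℂ}
    (h : ∀ᶠ w in 𝓝 w₁, ∑ j, a j * (w - c) ^ (j : ℕ) = 0) : ∀ j, a j = 0 := by
  classical
  set P : Polynomial ℂ := ∑ j : Fin (N + 1), Polynomial.C (a j) * Polynomial.X ^ (j : ℕ) with hP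
  have hev : ∀ x : ℂ, P.eval x = ∑ j, a j * x ^ (j : ℕ) := by
    intro x
    rw [hP, Polynomial.eval_finsetSum]
    simp
  have h1 : {x : ℂ | P.IsRoot x}.Infinite := by
    have h2 : {w : ℂ | ∑ j, a j * (w - c) ^ (j : ℕ) = 0}.Infinite := infinite_of_mem_nhds w₁ h
    have h3 := h2.image (f := fun w => w - c) (fun x _ y _ hxy => by simpa using hxy)
    refine h3.mono ?_
    rintro _ ⟨w, hw, rfl⟩
    change P.eval (w - c) = 0
    rw [hev]
    exact hw
  have h2 : P = 0 := Polynomial.eq_zero_of_infinite_isRoot P h1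
  intro j
  have h3 : P.coeff (j : ℕ) = a j := by
    rw [hP, Polynomial.finsetSum_coeff]
    simp only [Polynomial.coeff_C_mul, Polynomial.coeff_X_pow]
    rw [Finset.sum_eq_single j]
    · simp
    · intro i _ hij
      rw [if_neg (fun h4 => hij (Fin.ext h4.symm)), mul_zero]
    · simp
  rw [← h3, h2, Polynomial.coeff_zero]

private lemma levQ_den {N : ℕ} {q : Fin (N + 1) → ℂ → ℂ} {D : Set ℂ} (hDc : IsPreconnected D)
    (hq : ∀ j, AnalyticOnNhd ℂ (q j) D) (hne : ∃ j, ∃ s ∈ D, q j s ≠ 0) (c : ℂ) {p : ℂ × ℂ}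
    (hp : p.1 ∈ D) : Den (levQ q c) p := by
  refine ⟨levQ_an hq c hp, fun h => ?_⟩
  obtain ⟨j, s, hs, h0⟩ := hne
  apply h0
  obtain ⟨s₁, w₁⟩ := p
  have h1 : ∀ᶠ s in 𝓝 s₁, ∀ᶠ w in 𝓝 w₁, levQ q c (s, w) = 0 := by
    rw [nhds_prod_eq] at h
    exact h.curry
  have h2 : q j =ᶠ[𝓝 s₁] 0 := by
    filter_upwards [h1] with x hx
    exact lev_poly (a := fun j => q j x) hx j
  exact (hq j).eqOn_zero_of_preconnected_of_eventuallyEq_zero hDc hp h2 hs

private lemma den_fst (s₀ : ℂ) (k : ℕ) (p : ℂ × ℂ) : Den (fun q : ℂ × ℂ => (q.1 - s₀) ^ k) p := by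
  have h1 : Den (fun q : ℂ × ℂ => q.1 - s₀) p := by
    refine ⟨analyticAt_fst.sub analyticAt_const, fun h => ?_⟩
    obtain ⟨s₁, w₁⟩ := p
    have h1 : ∀ᶠ s in 𝓝 s₁, ∀ᶠ w in 𝓝 w₁, s - s₀ = 0 := by
      rw [nhds_prod_eq] at h
      exact h.curry
    have h2 : ∀ᶠ s in 𝓝 s₁, s = s₀ := by
      filter_upwards [h1] with x hx
      exact sub_eq_zero.1 hx.self_of_nhds
    have h3 := infinite_of_mem_nhds s₁ h2
    exact h3 ((finite_singleton s₀).subset fun x hx => hx)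
  induction k with
  | zero => simpa using den_one p
  | succ k ih =>
    have h2 := ih.mul h1
    simpa only [← pow_succ] using h2

/-- the moments of the product with a polynomial -/
private lemma mom_levQ {N : ℕ} {q : Fin (N + 1) → ℂ → ℂ} {F : ℂ × ℂ → ℂ} {c s : ℂ} {r1 : ℝ}
    (hr : 0 ≤ r1) (hF : ContinuousOn (fun w => F (s, w)) (sphere c r1)) (n : ℕ) :
    mom (fun p => levQ q c p * F p) c r1 n s = ∑ j, q j s * mom F c r1 (n + j) s := by
  unfold mom levQ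
  have h1 : ∀ w, (∑ j, q j s * (w - c) ^ (j : ℕ)) * F (s, w) * (w - c) ^ n =
      ∑ j, q j s * (F (s, w) * (w - c) ^ (n + (j : ℕ))) := by
    intro w
    rw [Finset.sum_mul, Finset.sum_mul]
    refine Finset.sum_congr rfl fun j _ => ?_
    rw [pow_add]
    ring
  simp only [h1]
  rw [circleIntegral.integral_fun_sum]
  · rw [Finset.smul_sum]
    refine Finset.sum_congr rfl fun j _ => ?_
    rw [circleIntegral.integral_const_mul, smul_eq_mul, smul_eq_mul]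
    ring
  · intro j _
    apply ContinuousOn.circleIntegrable hr
    refine continuousOn_const.mul (hF.mul ?_)
    fun_prop

/-- the local step -/
theorem levi_local {f g : ℂ × ℂ → ℂ} {U : Set (ℂ × ℂ)} (hU : IsOpen U) (hf : Mer f U) {s₀ c : ℂ}
    {r : ℝ} (hr : 0 < r) (hs : ∀ w ∈ sphere c r, (s₀, w) ∈ U) {V : Set ℂ} (hV : IsOpen V)
    (hsV : s₀ ∈ closure V) (hg : Fig f U g V c r) :
    ∃ δ > 0, ∃ g' : ℂ × ℂ → ℂ, Fig f U g' (ball s₀ δ) c r := by
  obtain ⟨k, r1, δ, η, F1, hδ, hη, hηr, -, hr1, hF1, hUs, hE⟩ :=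
    exists_polefree hU hf hr hr hs
  have hr10 : 0 < r1 := hη.trans hηr
  set D : Set ℂ := ball s₀ δ with hD
  have hDo : IsOpen D := isOpen_ball
  have hDc : IsPreconnected D := (convex_ball s₀ δ).isPreconnected
  -- Step 1
  have hUs' : ∀ s ∈ D, ∀ w ∈ Ann c (r1 - η) r, (s, w) ∈ U :=
    fun s hs w hw => hUs s hs w hw.1 (le_of_lt hw.2)
  have step1 : ∀ s ∈ V ∩ D, ∀ w ∈ Ann c (r1 - η) r, EqM g f (s, w) := by
    rintro s ⟨hsV, hsD⟩ w hw
    obtain ⟨ε, hε, h1⟩ := hg.near s hsV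
    obtain ⟨w', hw', hw2⟩ := lev_point c hr (lt_min hε (show 0 < r - (r1 - η) by linarith))
    have h2 := (h1.self_of_nhds w' hw'
      (lt_of_le_of_lt (by linarith [min_le_left ε (r - (r1 - η))]) hw2)).2
    have hw'A : w' ∈ Ann c (r1 - η) r :=
      ⟨lt_of_le_of_lt (by linarith [min_le_right ε (r - (r1 - η))]) hw2, hw'⟩
    have h3 : IsPreconnected (({s} : Set ℂ) ×ˢ Ann c (r1 - η) r) :=
      isPreconnected_singleton.prod (isPreconnected_Ann' c (by linarith))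
    refine Mer.eqM h3 (hg.mer.mono ?_) (hf.mono ?_) (p := (s, w')) ⟨rfl, hw'A⟩ h2 (s, w) ⟨rfl, hw⟩
    · exact prod_mono (singleton_subset_iff.2 hsV) (fun x hx => hx.2)
    · rintro ⟨x, y⟩ ⟨hx, hy⟩
      obtain rfl : x = s := hx
      exact hUs' x hsD y hy
  -- Step 2
  set V1 : Set ℂ := V ∩ D with hV1
  have hV1o : IsOpen V1 := hV.inter hDo
  have hV1ne : V1.Nonempty := by
    obtain ⟨x, hx1, hx2⟩ := mem_closure_iff.1 hsV D hDo (mem_ball_self hδ)
    exact ⟨x, hx2, hx1⟩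
  have hAs : Ann c (r1 - η) (r1 + η) ⊆ Ann c (r1 - η) r :=
    fun x hx => ⟨hx.1, lt_trans hx.2 hr1⟩
  have hg1 : Mer (fun q => (q.1 - s₀) ^ k * g q) (V1 ×ˢ ball c (r1 + η)) := by
    intro p hp
    refine MerAt.mul (merAt_of_analyticAt (den_fst s₀ k p).an) (hg.mer p ?_)
    exact ⟨hp.1.1, ball_subset_ball hr1.le hp.2⟩
  have hFg : ∀ p ∈ V1 ×ˢ Ann c (r1 - η) (r1 + η),
      EqM F1 (fun q => (q.1 - s₀) ^ k * g q) p := by
    intro p hp
    have h1 := hE p ⟨hp.1.2, hp.2⟩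
    have h2 := step1 p.1 hp.1 p.2 (hAs hp.2)
    exact h1.trans (EqM.map₂ (fun x y => x * y) (EqM.refl (fun q : ℂ × ℂ => (q.1 - s₀) ^ k) p)
      h2.symm)
  obtain ⟨N, W, hWo, hWne, hWV, hrec⟩ := exists_rec hV1o hV1ne hη hηr hg1
    (hF1.mono (prod_mono inter_subset_right subset_rfl)) hFg
  -- Step 3
  obtain ⟨q, hqa, hqne, hq0⟩ := exists_analytic_rec (c := mom F1 c r1) hDo hDc
    (fun n => mom_an hη hηr hF1 n) hWo hWne (fun x hx => (hWV hx).2) hrec
  -- Step 4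
  have hF2 : AnalyticOnNhd ℂ (fun p => levQ q c p * F1 p)
      (D ×ˢ Ann c (r1 - η) (r1 + η)) := fun p hp => (levQ_an hqa c hp.1).mul (hF1 p hp)
  have hm0 : ∀ n, ∀ s ∈ D, mom (fun p => levQ q c p * F1 p) c r1 n s = 0 := by
    intro n s hs
    rw [mom_levQ hr10.le ?_ n]
    · exact hq0 s hs n
    · intro w hw
      have h1 : w ∈ Ann c (r1 - η) (r1 + η) := by
        rw [mem_sphere] at hw
        exact ⟨by rw [hw]; linarith, by rw [hw]; linarith⟩
      have h2 : ContinuousAt F1 (s, w) := (hF1 (s, w) ⟨hs, h1⟩).continuousAt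
      have h3 : ContinuousAt (fun w => F1 (s, w)) w :=
        ContinuousAt.comp (f := fun w : ℂ => (s, w)) (g := F1) h2 (by fun_prop)
      exact h3.continuousWithinAt
  obtain ⟨G, hGa, hG⟩ := exists_of_mom hη hηr hF2 hm0
  -- Step 5
  have hQd : ∀ p : ℂ × ℂ, p.1 ∈ D → Den (levQ q c) p := fun p hp => levQ_den hDc hqa hqne c hp
  have hPd : ∀ p : ℂ × ℂ, p.1 ∈ D → Den (fun x => levQ q c x * (x.1 - s₀) ^ k) p :=
    fun p hp => (hQd p hp).mul (den_fst s₀ k p)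
  have hg2 : Mer (fun x => G x / (levQ q c x * (x.1 - s₀) ^ k)) (D ×ˢ ball c (r1 + η)) := by
    intro p hp
    exact ⟨G, _, hGa p hp, hPd p hp.1, Eventually.of_forall fun x _ => rfl⟩
  have hAo : IsOpen (D ×ˢ Ann c (r1 - η) (r1 + η)) := hDo.prod (isOpen_Ann' _ _ _)
  have hEg2 : ∀ p ∈ D ×ˢ Ann c (r1 - η) (r1 + η),
      EqM (fun x => G x / (levQ q c x * (x.1 - s₀) ^ k)) f p := by
    intro p hp
    obtain ⟨B, hB, h1⟩ := hE p hp
    refine ⟨_, (hPd p hp.1).mul hB, ?_⟩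
    filter_upwards [h1, hAo.mem_nhds hp] with x hx hx2 hx0
    have h2 : levQ q c x * (x.1 - s₀) ^ k ≠ 0 := left_ne_zero_of_mul hx0
    have h3 := hx (right_ne_zero_of_mul hx0)
    rw [hG x hx2, h3, div_eq_iff h2]
    ring
  -- Step 6
  obtain ⟨g', hg', hg'2⟩ := exists_glue (ι := Bool)
    (fun b => bif b then D ×ˢ ball c (r1 + η) else D ×ˢ Ann c (r1 - η) r)
    (by
      rintro (_ | _)
      · exact hDo.prod (isOpen_Ann' _ _ _)
      · exact hDo.prod isOpen_ball)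
    (fun b => bif b then (fun x => G x / (levQ q c x * (x.1 - s₀) ^ k)) else f)
    (by
      rintro (_ | _)
      · exact hf.mono fun p hp => hUs' p.1 hp.1 p.2 hp.2
      · exact hg2)
    (by
      rintro (_ | _) (_ | _) p ⟨hp1, hp2⟩
      · exact EqM.refl _ _
      · exact (hEg2 p ⟨hp1.1, hp1.2.1, hp2.2⟩).symm
      · exact hEg2 p ⟨hp1.1, hp2.2.1, hp1.2⟩
      · exact EqM.refl _ _)
  refine ⟨δ, hδ, g', ?_, ?_⟩
  · intro p hp
    apply hg' p
    rw [mem_iUnion]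
    by_cases h1 : p.2 ∈ ball c (r1 + η)
    · exact ⟨true, hp.1, h1⟩
    · refine ⟨false, hp.1, ?_, hp.2⟩
      rw [mem_ball, not_lt] at h1
      linarith
  · intro s hs
    refine ⟨r - (r1 - η), by linarith, ?_⟩
    filter_upwards [hDo.mem_nhds hs] with s' hs' w hw hw2
    have h1 : w ∈ Ann c (r1 - η) r := ⟨by linarith, hw⟩
    exact ⟨hUs' s' hs' w h1, hg'2 false (s', w) ⟨hs', h1⟩⟩

end Pool.Agent.MP_ae5b4e_an_NBT
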