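import Mathlib
import Pool.Agent.Lib.MP_ae5b4e_an_NBT.LevA

/-!
# MP_ae5b4e_an, project NB tools: the theorem of Levi
-/

noncomputable section

namespace Pool.Agent.MP_ae5b4e_an_NBT

open Complex Set Filter Topology Metric

private lemma fig_mono {f g : ℂ × ℂ → ℂ} {U : Set (ℂ × ℂ)} {S S' : Set ℂ} {c : ℂ} {r : ℝ}
    (h : Fig f U g S c r) (hS : S' ⊆ S) : Fig f U g S' c r :=
  ⟨h.mer.mono (prod_mono_left hS), fun s hs => h.near s (hS hs)⟩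

private lemma tube {U : Set (ℂ × ℂ)} (hU : IsOpen U) {s₀ c : ℂ} {r : ℝ}
    (h : ∀ w ∈ closedBall c r, (s₀, w) ∈ U) :
    ∃ δ > 0, ∀ s ∈ ball s₀ δ, ∀ w ∈ closedBall c r, (s, w) ∈ U := by
  have h1 : ({s₀} : Set ℂ) ×ˢ closedBall c r ⊆ U := by
    rintro ⟨s, w⟩ ⟨hs, hw⟩
    have hs' : s = s₀ := hs
    rw [hs']
    exact h w hw
  obtain ⟨u, v, hu, _, hsu, htv, huv⟩ :=
    generalized_tube_lemma isCompact_singleton (isCompact_closedBall c r) hU h1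
  obtain ⟨δ, hδ, hb⟩ := Metric.isOpen_iff.1 hu s₀ (hsu rfl)
  exact ⟨δ, hδ, fun s hs w hw => huv ⟨hb hs, htv hw⟩⟩

/-- **Levi's theorem** on Hartogs figures, for meromorphic functions -/
theorem levi_figure (U : Set (ℂ × ℂ)) (hU : IsOpen U) (f : ℂ × ℂ → ℂ) (hf : Mer f U) (S : Set ℂ)
    (hS : IsOpen S) (hSc : IsPreconnected S) (c : ℂ) (r : ℝ) (hr : 0 < r)
    (hSU : S ×ˢ sphere c r ⊆ U) (s₀ : ℂ) (hs₀ : s₀ ∈ S)
    (hs₀U : ∀ w ∈ closedBall c r, (s₀, w) ∈ U) :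
    ∃ g : ℂ × ℂ → ℂ, Fig f U g S c r ∧
      ∀ᶠ s in 𝓝 s₀, ∀ w ∈ ball c r, (s, w) ∈ U ∧ EqM g f (s, w) := by
  let P : ℂ × ℝ × (ℂ × ℂ → ℂ) → Prop := fun x =>
    0 < x.2.1 ∧ ball x.1 x.2.1 ⊆ S ∧ Fig f U x.2.2 (ball x.1 x.2.1) c r
  let D : {x // P x} → Set ℂ := fun i => ball i.1.1 i.1.2.1
  let N : {x // P x} → Set (ℂ × ℂ) := fun i => D i ×ˢ ball c r
  let G : {x // P x} → ℂ × ℂ → ℂ := fun i => i.1.2.2
  have hfig : ∀ i : {x // P x}, Fig f U (G i) (D i) c r := fun i => i.2.2.2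
  obtain ⟨F, hF1, hF2⟩ := exists_glue N (fun i => isOpen_ball.prod isOpen_ball) G
    (fun i => (hfig i).mer) (fun i j q hq =>
      Fig.unique hr (hfig i) (hfig j) q ⟨⟨hq.1.1, hq.2.1⟩, hq.1.2⟩)
  set Good : Set ℂ := ⋃ i, D i with hGood
  have hGo : IsOpen Good := isOpen_iUnion fun i => isOpen_ball
  have hFig : Fig f U F Good c r := by
    refine ⟨fun p hp => hF1 p ?_, fun s hs => ?_⟩
    · obtain ⟨i, hi⟩ := mem_iUnion.1 hp.1
      exact mem_iUnion.2 ⟨i, hi, hp.2⟩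
    · obtain ⟨i, hi⟩ := mem_iUnion.1 hs
      obtain ⟨ε, hε, h1⟩ := (hfig i).near s hi
      refine ⟨ε, hε, ?_⟩
      filter_upwards [h1, isOpen_ball.mem_nhds hi] with s' h2 h3 w hw hwr
      exact ⟨(h2 w hw hwr).1, (hF2 i (s', w) ⟨h3, hw⟩).trans (h2 w hw hwr).2⟩
  -- the starting point
  obtain ⟨d0, hd0, hd0U⟩ := tube hU hs₀U
  obtain ⟨d1, hd1, hd1S⟩ := Metric.isOpen_iff.1 hS s₀ hs₀
  have hf0 : Fig f U f (ball s₀ (min d0 d1)) c r := by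
    refine ⟨fun p hp => hf p ?_, fun s hs => ⟨1, one_pos, ?_⟩⟩
    · exact hd0U p.1 (ball_subset_ball (min_le_left _ _) hp.1) p.2 (ball_subset_closedBall hp.2)
    · filter_upwards [isOpen_ball.mem_nhds hs] with s' hs' w hw _
      exact ⟨hd0U s' (ball_subset_ball (min_le_left _ _) hs') w (ball_subset_closedBall hw),
        EqM.refl _ _⟩
  let i0 : {x // P x} := ⟨(s₀, min d0 d1, f), lt_min hd0 hd1,
    (ball_subset_ball (min_le_right _ _)).trans hd1S, hf0⟩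
  have hGs : s₀ ∈ Good := mem_iUnion.2 ⟨i0, mem_ball_self (lt_min hd0 hd1)⟩
  -- relatively closed
  have hcl : closure Good ∩ S ⊆ Good := by
    rintro s₁ ⟨h1, h2⟩
    obtain ⟨δ, hδ, g', hg'⟩ := levi_local hU hf hr (fun w hw => hSU ⟨h2, hw⟩) hGo h1 hFig
    obtain ⟨d2, hd2, hd2S⟩ := Metric.isOpen_iff.1 hS s₁ h2
    let i1 : {x // P x} := ⟨(s₁, min δ d2, g'), lt_min hδ hd2,
      (ball_subset_ball (min_le_right _ _)).trans hd2S,
      fig_mono hg' (ball_subset_ball (min_le_left _ _))⟩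
    exact mem_iUnion.2 ⟨i1, mem_ball_self (lt_min hδ hd2)⟩
  have hSG : S ⊆ Good := hSc.subset_of_closure_inter_subset hGo ⟨s₀, hs₀, hGs⟩ hcl
  refine ⟨F, fig_mono hFig hSG, ?_⟩
  filter_upwards [ball_mem_nhds s₀ (lt_min hd0 hd1)] with s hs w hw
  exact ⟨hd0U s (ball_subset_ball (min_le_left _ _) hs) w (ball_subset_closedBall hw),
    hF2 i0 (s, w) ⟨hs, hw⟩⟩

/-- **Continuity principle** for meromorphic functions, along the discs `w ↦ (s + h w, w)`. -/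
theorem levi_family (U : Set (ℂ × ℂ)) (hU : IsOpen U) (f : ℂ × ℂ → ℂ) (hf : Mer f U) (h : ℂ → ℂ)
    (hh : Differentiable ℂ h) (S : Set ℂ) (hS : IsOpen S) (hSc : IsPreconnected S) (c : ℂ) (r : ℝ)
    (hr : 0 < r) (hSU : ∀ s ∈ S, ∀ w ∈ sphere c r, (s + h w, w) ∈ U) (s₀ : ℂ) (hs₀ : s₀ ∈ S)
    (hs₀U : ∀ w ∈ closedBall c r, (s₀ + h w, w) ∈ U) :
    ∃ g : ℂ × ℂ → ℂ, Mer g {p | p.1 - h p.2 ∈ S ∧ p.2 ∈ ball c r} ∧
      (∀ᶠ s in 𝓝 s₀, ∀ w ∈ ball c r, (s + h w, w) ∈ U ∧ EqM g f (s + h w, w)) ∧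
      ∀ s ∈ S, ∃ ε > 0, ∀ᶠ s' in 𝓝 s, ∀ w ∈ ball c r, r - ε < dist w c →
        (s' + h w, w) ∈ U ∧ EqM g f (s' + h w, w) := by
  obtain ⟨g, hg1, hg2⟩ := levi_figure {q | (q.1 + h q.2, q.2) ∈ U}
    (hU.preimage (shear h hh.continuous).continuous) (fun q => f (q.1 + h q.2, q.2))
    (fun p hp => MerAt.shift hh (hf _ hp)) S hS hSc c r hr (fun p hp => hSU p.1 hp.1 p.2 hp.2)
    s₀ hs₀ hs₀U
  have key : ∀ s w : ℂ, EqM g (fun q => f (q.1 + h q.2, q.2)) (s, w) →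
      EqM (fun p => g (p.1 + -h p.2, p.2)) f (s + h w, w) := by
    intro s w h1
    have h2 : EqM g (fun q => f (q.1 + h q.2, q.2))
        ((s + h w, w).1 + (fun z => -h z) (s + h w, w).2, (s + h w, w).2) := by
      have h3 : (((s + h w, w) : ℂ × ℂ).1 + (fun z => -h z) ((s + h w, w) : ℂ × ℂ).2,
          ((s + h w, w) : ℂ × ℂ).2) = (s, w) := by
        show (s + h w + -h w, w) = (s, w)
        rw [add_neg_cancel_right]
      rw [h3]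
      exact h1
    have h4 := EqM.shift (h := fun z => -h z) hh.neg h2
    have h5 : (fun q : ℂ × ℂ => (fun q : ℂ × ℂ => f (q.1 + h q.2, q.2))
        (q.1 + (fun z => -h z) q.2, q.2)) = f := by
      funext q
      show f (q.1 + -h q.2 + h q.2, q.2) = f q
      rw [neg_add_cancel_right]
    rw [h5] at h4
    exact h4
  refine ⟨fun p => g (p.1 + -h p.2, p.2), fun p hp => ?_, ?_, fun s hs => ?_⟩
  · refine MerAt.shift (h := fun z => -h z) hh.neg (hg1.mer _ ⟨?_, hp.2⟩)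
    show p.1 + -h p.2 ∈ S
    rw [← sub_eq_add_neg]
    exact hp.1
  · filter_upwards [hg2] with s h1 w hw
    exact ⟨(h1 w hw).1, key s w (h1 w hw).2⟩
  · obtain ⟨ε, hε, h1⟩ := hg1.near s hs
    refine ⟨ε, hε, ?_⟩
    filter_upwards [h1] with s' h2 w hw hwr
    exact ⟨(h2 w hw hwr).1, key s' w (h2 w hw hwr).2⟩

end Pool.Agent.MP_ae5b4e_an_NBT
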