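import Mathlib
import Pool.Agent.Lib.MP_ae5b4e_an_NBT.Defs
import Pool.Agent.Lib.MP_ae5b4e_an_LL.Bridge

/-!
# MP_ae5b4e_an, project NB tools: superharmonic functions, the test by polynomials
-/

noncomputable section

namespace Pool.Agent.MP_ae5b4e_an_NBT

open Complex Set Filter Topology Metric InnerProductSpace
open Pool.Agent.Lib.MP_ae5b4e_an_LL

variable {h g : ℂ → ℝ} {W : Set ℂ}

/-- real parts of polynomials are dense in the continuous functions on a circle -/
theorem exists_entire_near {φ : ℂ → ℝ} (hφ : Continuous φ) (c : ℂ) {s : ℝ} (hs : 0 < s) {ε : ℝ}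
    (hε : 0 < ε) : ∃ q : ℂ → ℂ, Differentiable ℂ q ∧ ∀ z ∈ sphere c s, |(q z).re - φ z| < ε := by
  have : Fact (0 < 2 * Real.pi) := ⟨Real.two_pi_pos⟩
  set F : C(AddCircle (2 * Real.pi), ℂ) := ⟨fun θ => (φ (c + s * (AddCircle.toCircle θ : ℂ)) : ℂ),
    by
      have h1 : Continuous fun θ : AddCircle (2 * Real.pi) => (AddCircle.toCircle θ : ℂ) :=
        continuous_induced_dom.comp AddCircle.continuous_toCircle
      exact continuous_ofReal.comp (hφ.comp (continuous_const.add (continuous_const.mul h1)))⟩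
    with hF
  have h1 : F ∈ (Submodule.span ℂ (range <| @fourier (2 * Real.pi))).topologicalClosure := by
    rw [span_fourier_closure_eq_top]; trivial
  have h2 : F ∈ closure ((Submodule.span ℂ (range <| @fourier (2 * Real.pi)) :
      Submodule ℂ C(AddCircle (2 * Real.pi), ℂ)) : Set C(AddCircle (2 * Real.pi), ℂ)) := h1
  rw [Metric.mem_closure_iff] at h2
  obtain ⟨G, hG, hdist⟩ := h2 ε hε
  rw [SetLike.mem_coe, Finsupp.mem_span_range_iff_exists_finsupp] at hG
  obtain ⟨a, ha⟩ := hG
  refine ⟨fun z => ∑ n ∈ a.support, (if 0 ≤ n then a n else (starRingEnd ℂ) (a n)) *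
    ((z - c) / s) ^ n.natAbs, ?_, ?_⟩
  · apply Differentiable.fun_sum
    intro n _
    fun_prop
  · intro z hz
    have hsC : (s : ℂ) ≠ 0 := by exact_mod_cast hs.ne'
    have hw : (z - c) / s ∈ Submonoid.unitSphere ℂ := by
      refine mem_sphere_zero_iff_norm.2 ?_
      rw [norm_div, norm_real, Real.norm_eq_abs, abs_of_pos hs]
      rw [mem_sphere, dist_eq_norm] at hz
      rw [hz, div_self hs.ne']
    set w : Circle := ⟨(z - c) / s, hw⟩ with hwdef
    obtain ⟨θ, hθ⟩ := (AddCircle.homeomorphCircle (T := 2 * Real.pi)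
      Real.two_pi_pos.ne').surjective w
    have hθ' : AddCircle.toCircle θ = w := by
      rw [← hθ, AddCircle.homeomorphCircle_apply]
    have h3 : dist (F θ) (G θ) < ε := lt_of_le_of_lt (ContinuousMap.dist_apply_le_dist θ) hdist
    have h4 : F θ = (φ z : ℂ) := by
      simp only [hF, ContinuousMap.coe_mk, hθ', hwdef]
      congr 2
      field_simp
      ring
    have h5 : (G θ).re = (∑ n ∈ a.support, (if 0 ≤ n then a n else (starRingEnd ℂ) (a n)) *
        ((z - c) / s) ^ n.natAbs).re := by
      rw [← ha, Finsupp.sum, ContinuousMap.coe_sum, Finset.sum_apply, re_sum, re_sum]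
      apply Finset.sum_congr rfl
      intro n _
      rw [ContinuousMap.smul_apply, fourier_apply, AddCircle.toCircle_zsmul, hθ', smul_eq_mul]
      have hwc : (w : ℂ) = (z - c) / s := rfl
      rw [← hwc]
      by_cases hn : 0 ≤ n
      · rw [if_pos hn]
        obtain ⟨m, rfl⟩ := Int.eq_ofNat_of_zero_le hn
        simp
      · rw [if_neg hn]
        push Not at hn
        obtain ⟨m, rfl⟩ := Int.eq_negSucc_of_lt_zero hn
        rw [zpow_negSucc]
        have e1 : ((w ^ (m + 1))⁻¹ : Circle) = ((starRingEnd ℂ) ((w : ℂ) ^ (m + 1)) : ℂ) := by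
          rw [Circle.coe_inv_eq_conj]
          simp
        rw [e1]
        have e2 : (Int.negSucc m).natAbs = m + 1 := rfl
        rw [e2, ← conj_re]
        simp
    rw [← h5]
    rw [h4, dist_eq_norm] at h3
    have h6 : |((φ z : ℂ) - G θ).re| ≤ ‖(φ z : ℂ) - G θ‖ := abs_re_le_norm _
    rw [sub_re, ofReal_re] at h6
    rw [abs_sub_comm]
    exact lt_of_le_of_lt h6 h3

/-- the mean value inequality for the real parts of polynomials implies the general one, for
functions which are bounded below by a positive constant -/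
theorem supH_of_disc (hW : IsOpen W) {a : ℝ} (ha : 0 < a) (hl : ∀ z ∈ W, LowerSemicontinuousAt h z)
    (hb : ∀ z ∈ W, a ≤ h z)
    (hd : ∀ (c : ℂ) (s : ℝ), 0 < s → closedBall c s ⊆ W → ∀ q : ℂ → ℂ, Differentiable ℂ q →
      (∀ z ∈ closedBall c s, -a < (q z).re) → (∀ z ∈ sphere c s, (q z).re < h z) →
      (q c).re ≤ h c) : SupH h W := by
  refine ⟨hl, fun c s hs hcs φ hφ1 hφ2 => ?_⟩
  apply le_of_forall_pos_le_add
  intro ε hε
  set ψ : ℂ → ℝ := fun z => max (φ z) 0 with hψ
  have hψc : Continuous ψ := hφ1.max continuous_const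
  have hψh : ∀ z ∈ sphere c s, ψ z ≤ h z := fun z hz =>
    max_le (hφ2 z hz) (ha.le.trans (hb z (hcs (sphere_subset_closedBall hz))))
  set δ : ℝ := min (ε / 2) (a / 4) with hδ
  have hδ0 : 0 < δ := by positivity
  have hδε : δ ≤ ε / 2 := min_le_left _ _
  have hδa : δ ≤ a / 4 := min_le_right _ _
  obtain ⟨q, hq1, hq2⟩ := exists_entire_near (φ := fun z => ψ z - δ) (hψc.sub continuous_const) c hs
    hδ0
  have hqs : ∀ z ∈ sphere c s, ψ z - 2 * δ < (q z).re ∧ (q z).re < ψ z := fun z hz => by
    have := abs_lt.1 (hq2 z hz)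
    constructor <;> linarith [this.1, this.2]
  have hqh : HarmonicOnNhd (fun z => (q z).re) univ := fun z _ =>
    AnalyticAt.harmonicAt_re (hq1.analyticAt z)
  have hqn : HarmonicOnNhd (fun z => -(q z).re) univ := hqh.neg
  have hlow : ∀ z ∈ closedBall c s, -a < (q z).re := by
    have h1 := ((SubH.of_harmonic isOpen_univ hqn).mono (subset_univ (ball c s))).le_dirichlet
      (c := c) (r := s) (u := fun _ => 2 * δ)
      (fun z _ => ((hqn.continuousOn z (mem_univ z)).mono
        (subset_univ _)).upperSemicontinuousWithinAt) continuousOn_const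
      (fun z _ => by simp) (fun z hz => by
        have h2 := (hqs z hz).1
        have h3 : 0 ≤ ψ z := le_max_right _ _
        linarith)
    intro z hz
    have := h1 z hz
    linarith
  have h1 := hd c s hs hcs q hq1 hlow (fun z hz => ((hqs z hz).2).trans_le (hψh z hz))
  have h2 : Real.circleAverage (fun z => (q z).re) c s = (q c).re := by
    apply InnerProductSpace.HarmonicOnNhd.circleAverage_eq
    exact hqh.mono (subset_univ _)
  have hqc : Continuous fun z => (q z).re := continuous_re.comp hq1.continuous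
  have h3 : Real.circleAverage φ c s ≤ Real.circleAverage (fun z => (q z).re + 2 * δ) c s := by
    apply Real.circleAverage_mono (hφ1.continuousOn.circleIntegrable hs.le)
      ((hqc.add continuous_const).continuousOn.circleIntegrable hs.le)
    intro z hz
    rw [abs_of_pos hs] at hz
    have h4 := (hqs z hz).1
    have h5 : φ z ≤ ψ z := le_max_left _ _
    show φ z ≤ (q z).re + 2 * δ
    linarith
  rw [Real.circleAverage_fun_add (hqc.continuousOn.circleIntegrable hs.le)
    (continuousOn_const.circleIntegrable hs.le), Real.circleAverage_const, h2] at h3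
  linarith

end Pool.Agent.MP_ae5b4e_an_NBT
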