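import Mathlib
import Pool.Agent.Lib.MP_ae5b4e_an_NBT.Defs

/-!
# MP_ae5b4e_an, project NB tools: locally univalent functions, labels (definitions)

Meromorphic functions of one variable are in normal form: they are `0` at their poles.
-/

noncomputable section

namespace Pool.Agent.MP_ae5b4e_an_NBT

open Complex Set Filter Topology Metric

/-- `f` is a locally univalent map to the sphere on `S` -/
def LU (f : ℂ → ℂ) (S : Set ℂ) : Prop :=
  ∀ z ∈ S, (AnalyticAt ℂ f z ∧ deriv f z ≠ 0) ∨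
    (f z = 0 ∧ AnalyticAt ℂ (fun w => (f w)⁻¹) z ∧ deriv (fun w => (f w)⁻¹) z ≠ 0)

/-- the locally univalent map `f` on the strip `|Im z| < h` has no locally univalent extension to
a neighbourhood of a boundary point -/
def NE (f : ℂ → ℂ) (h : ℝ) : Prop :=
  ∀ b : ℂ, |b.im| = h → ∀ δ > 0, ∀ g : ℂ → ℂ, LU g (ball b δ) →
    ¬ ∀ z ∈ ball b δ, |z.im| < h → g z = f z

/-- `L` is a label for `f = f₀ ∘ L` near `t`, with `L'' = N L'` -/
def LabAt (f₀ f N L : ℂ → ℂ) (t : ℂ) : Prop :=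
  ∀ᶠ s in 𝓝[≠] t, f s = f₀ (L s) ∧ deriv (deriv L) s = N s * deriv L s

end Pool.Agent.MP_ae5b4e_an_NBT
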