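import Mathlib
import Pool.Agent.Lib.MP_ae5b4e_an_MERO.Countable
import Pool.Agent.Lib.MP_ae5b4e_an_NBT.LabD

/-!
# MP_ae5b4e_an, project NB: a non-extendable curve has no rotational symmetry
-/

noncomputable section

namespace Pool.Agent.MP_ae5b4e_an_NBT

open Complex Set Filter Topology Metric

private theorem nrot_comp {f : ℂ → ℂ} {a c z : ℂ} (hc : c ≠ 0)
    (hf : AnalyticAt ℂ f (a + c * (z - a)) ∧ deriv f (a + c * (z - a)) ≠ 0) :
    AnalyticAt ℂ (fun w => f (a + c * (w - a))) z ∧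
      deriv (fun w => f (a + c * (w - a))) z ≠ 0 := by
  have hR : AnalyticAt ℂ (fun w : ℂ => a + c * (w - a)) z := by fun_prop
  have hd : HasDerivAt (fun w : ℂ => a + c * (w - a)) c z := by
    have h := (((hasDerivAt_id z).sub_const a).const_mul c).const_add a
    simpa using h
  refine ⟨AnalyticAt.comp (g := f) (f := fun w : ℂ => a + c * (w - a)) hf.1 hR, ?_⟩
  have h1 : HasDerivAt f (deriv f (a + c * (z - a))) (a + c * (z - a)) :=
    hf.1.differentiableAt.hasDerivAt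
  have h2 : HasDerivAt (fun w => f (a + c * (w - a))) (deriv f (a + c * (z - a)) * c) z :=
    HasDerivAt.comp z h1 hd
  rw [h2.deriv]
  exact mul_ne_zero hf.2 hc

private theorem nrot_LU {f : ℂ → ℂ} {a c z : ℂ} (hc : c ≠ 0) (hf : LU f {a + c * (z - a)}) :
    LU (fun w => f (a + c * (w - a))) {z} := by
  intro w hw
  rw [mem_singleton_iff] at hw
  subst hw
  rcases hf _ (mem_singleton _) with h | ⟨h1, h2⟩
  · exact Or.inl (nrot_comp hc h)
  · exact Or.inr ⟨h1, nrot_comp (f := fun w => (f w)⁻¹) hc h2⟩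

private theorem nrot_point {h : ℝ} {t₀ ω : ℂ} (ht₀ : |t₀.im| < h) (h0 : t₀.im ≠ 0)
    (hω : ‖ω‖ = 1) (hω1 : ω ≠ 1) :
    ∃ b : ℂ, |b.im| = h ∧ |(t₀ + ω⁻¹ * (b - t₀)).im| < h := by
  have hω0 : ω ≠ 0 := by
    rintro rfl
    simp at hω
  have hh : 0 < h := lt_of_le_of_lt (abs_nonneg _) ht₀
  by_cases hi : ω.im = 0
  · have hm : ω = -1 := by
      have h1 : ω.re ^ 2 = 1 := by
        have h2 : ‖ω‖ ^ 2 = ω.re * ω.re + ω.im * ω.im := by
          rw [← Complex.normSq_eq_norm_sq, Complex.normSq_apply]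
        rw [hω, hi] at h2
        nlinarith
      have h3 : (ω.re - 1) * (ω.re + 1) = 0 := by linear_combination h1
      rcases mul_eq_zero.1 h3 with h2 | h2
      · exfalso
        exact hω1 (Complex.ext (sub_eq_zero.1 h2) hi)
      · refine Complex.ext ?_ ?_
        · rw [neg_re, one_re]
          linarith
        · rw [neg_im, one_im, neg_zero, hi]
    rw [abs_lt] at ht₀
    rcases lt_or_gt_of_ne h0 with h1 | h1
    · refine ⟨⟨0, -h⟩, ?_, ?_⟩
      · change |-h| = h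
        rw [abs_neg, abs_of_pos hh]
      · rw [hm, abs_lt]
        simp only [add_im, mul_im, sub_im, sub_re]
        norm_num
        constructor <;> linarith
    · refine ⟨⟨0, h⟩, ?_, ?_⟩
      · change |h| = h
        rw [abs_of_pos hh]
      · rw [hm, abs_lt]
        simp only [add_im, mul_im, sub_im, sub_re]
        norm_num
        constructor <;> linarith
  · refine ⟨t₀ + ω * (((h - t₀.im) / ω.im : ℝ) : ℂ), ?_, ?_⟩
    · have h1 : (t₀ + ω * (((h - t₀.im) / ω.im : ℝ) : ℂ)).im = h := by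
        rw [add_im, mul_im, ofReal_re, ofReal_im]
        field_simp
        ring
      rw [h1, abs_of_pos hh]
    · have h1 : t₀ + ω⁻¹ * (t₀ + ω * (((h - t₀.im) / ω.im : ℝ) : ℂ) - t₀) =
          t₀ + (((h - t₀.im) / ω.im : ℝ) : ℂ) := by
        rw [add_sub_cancel_left, inv_mul_cancel_left₀ hω0]
      rw [h1, add_im, ofReal_im, add_zero]
      exact ht₀

/-- a non-extendable curve has no rotational symmetry about a point off the real line -/
theorem no_rot {f : ℂ → ℂ} {h : ℝ} (hf : ∀ t : ℂ, |t.im| < h → MeromorphicAt f t)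
    (hLU : ∀ t : ℂ, |t.im| < h → ∀ᶠ s in 𝓝[≠] t, LU f {s})
    (hval : ∀ t : ℂ, |t.im| < h → ∀ g : ℂ → ℂ, LU g {t} → (∀ᶠ s in 𝓝[≠] t, f s = g s) → f t = g t)
    (hNE : NE f h) {t₀ ω : ℂ} (ht₀ : |t₀.im| < h) (h0 : t₀.im ≠ 0) (hω : ‖ω‖ = 1) (hω1 : ω ≠ 1)
    (hrot : ∀ᶠ s in 𝓝[≠] (0:ℂ), f (t₀ + ω * s) = f (t₀ + s)) : False := by
  have hω0 : ω ≠ 0 := by
    rintro rfl
    simp at hω
  have hωi : ω⁻¹ ≠ 0 := inv_ne_zero hω0
  obtain ⟨b₀, hb₀, hRb₀⟩ := nrot_point ht₀ h0 hω hω1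
  set R : ℂ → ℂ := fun z => t₀ + ω⁻¹ * (z - t₀) with hR
  have hRc : Continuous R := by fun_prop
  have hRa : ∀ z, AnalyticAt ℂ R z := fun z => by fun_prop
  have hconvS : Convex ℝ {z : ℂ | |z.im| < h} := by
    have h1 : {z : ℂ | |z.im| < h} = Complex.imLm ⁻¹' (Ioo (-h) h) := by
      ext z
      change |z.im| < h ↔ z.im ∈ Ioo (-h) h
      rw [mem_Ioo, abs_lt]
    rw [h1]
    exact (convex_Ioo (-h) h).is_linear_preimage Complex.imLm.isLinear
  have hconvS' : Convex ℝ {z : ℂ | |(R z).im| < h} := by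
    intro x hx y hy a b ha hb hab
    have h1 : R (a • x + b • y) = a • R x + b • R y := by
      have hab' : (a : ℂ) + (b : ℂ) = 1 := by
        rw [← ofReal_add, hab, ofReal_one]
      simp only [hR, real_smul]
      linear_combination (-(t₀ - ω⁻¹ * t₀)) * hab'
    change |(R (a • x + b • y)).im| < h
    rw [h1]
    exact hconvS hx hy ha hb hab
  have hoS : IsOpen {z : ℂ | |z.im| < h} :=
    isOpen_lt (by fun_prop) continuous_const
  have hoS' : IsOpen {z : ℂ | |(R z).im| < h} := hoS.preimage hRc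
  have hmf : MeromorphicOn f ({z : ℂ | |z.im| < h} ∩ {z : ℂ | |(R z).im| < h}) :=
    fun z hz => hf z hz.1
  have hmf' : MeromorphicOn (fun z => f (R z))
      ({z : ℂ | |z.im| < h} ∩ {z : ℂ | |(R z).im| < h}) :=
    fun z hz => (hf (R z) hz.2).comp_analyticAt (hRa z)
  have hRt : R t₀ = t₀ := by simp [hR]
  have hnear : ∀ᶠ t in 𝓝[≠] t₀, f t = f (R t) := by
    have htend : Tendsto (fun t => ω⁻¹ * (t - t₀)) (𝓝[≠] t₀) (𝓝[≠] (0:ℂ)) := by
      refine tendsto_nhdsWithin_iff.2 ⟨?_, ?_⟩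
      · have hc : Continuous fun t : ℂ => ω⁻¹ * (t - t₀) := by fun_prop
        have h1 := hc.tendsto t₀
        rw [sub_self, mul_zero] at h1
        exact h1.mono_left nhdsWithin_le_nhds
      · filter_upwards [self_mem_nhdsWithin] with t ht
        exact mul_ne_zero hωi (sub_ne_zero.2 ht)
    filter_upwards [htend.eventually hrot] with t ht
    rw [mul_inv_cancel_left₀ hω0, add_sub_cancel] at ht
    exact ht
  have hag : ∀ z : ℂ, |z.im| < h → |(R z).im| < h → ∀ᶠ s in 𝓝[≠] z, f s = f (R s) := by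
    intro z hz hRz
    exact MP_ae5b4e_an_MERO.mero_ident (hoS.inter hoS') (hconvS.inter hconvS').isPreconnected
      hmf hmf' (t₀ := t₀) ⟨ht₀, by
        change |(R t₀).im| < h
        rw [hRt]
        exact ht₀⟩ hnear.frequently ⟨hz, hRz⟩
  -- the exceptional set
  have hcount : {t : ℂ | |t.im| < h ∧ ¬ LU f {t}}.Countable := by
    refine MP_ae5b4e_an_MERO.CN.countable_of_eventually (D := {z : ℂ | |z.im| < h})
      (fun t ht => ht.1) fun t ht => ?_
    filter_upwards [hLU t ht] with s hs hs'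
    exact hs'.2 hs
  have hinj : Function.Injective fun x : ℝ => R (b₀ + x) := by
    intro x y hxy
    simp only [hR] at hxy
    have h1 := mul_left_cancel₀ hωi (add_left_cancel hxy)
    have h2 : (x : ℂ) = y := by linear_combination h1
    exact ofReal_injective h2
  have hcountR : {x : ℝ | R (b₀ + x) ∈ {t : ℂ | |t.im| < h ∧ ¬ LU f {t}}}.Countable :=
    hcount.preimage hinj
  have hopenR : IsOpen {x : ℝ | |(R (b₀ + x)).im| < h} :=
    hoS'.preimage (show Continuous fun x : ℝ => b₀ + (x : ℂ) by fun_prop)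
  obtain ⟨x, hx1, hx2⟩ := (hcountR.dense_compl ℝ).inter_open_nonempty _ hopenR
    ⟨0, by
      change |(R (b₀ + ((0:ℝ) : ℂ))).im| < h
      rw [ofReal_zero, add_zero]
      exact hRb₀⟩
  have hLUx : LU f {R (b₀ + x)} := by
    by_contra hcon
    exact hx2 ⟨hx1, hcon⟩
  have hbim : |(b₀ + (x : ℂ)).im| = h := by
    rw [add_im, ofReal_im, add_zero]
    exact hb₀
  have hev1 : ∀ᶠ s in 𝓝 (R (b₀ + x)), LU f {s} := by
    have h1 := hLU _ hx1
    rw [eventually_nhdsWithin_iff] at h1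
    filter_upwards [h1] with s hs
    by_cases hsx : s = R (b₀ + x)
    · rw [hsx]
      exact hLUx
    · exact hs hsx
  have hev2 : ∀ᶠ z in 𝓝 (b₀ + (x : ℂ)), LU f {R z} := (hRc.tendsto _).eventually hev1
  have hev3 : ∀ᶠ z in 𝓝 (b₀ + (x : ℂ)), |(R z).im| < h := hoS'.mem_nhds hx1
  obtain ⟨δ, hδ, hball⟩ := Metric.eventually_nhds_iff_ball.1 (hev2.and hev3)
  refine hNE _ hbim δ hδ (fun z => f (R z)) (fun z hz => ?_) fun z hz hzh => ?_
  · exact nrot_LU hωi (hball z hz).1 z (mem_singleton z)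
  · exact (hval z hzh (fun z => f (R z)) (nrot_LU hωi (hball z hz).1)
      (hag z hzh (hball z hz).2)).symm

end Pool.Agent.MP_ae5b4e_an_NBT
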