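import Mathlib
import Pool.Agent.Lib.MP_ae5b4e_an_NBT.Levi

/-!
# MP_ae5b4e_an, project NB tools: the heights
-/

noncomputable section

namespace Pool.Agent.MP_ae5b4e_an_NBT

open Complex Set Filter Topology Metric

variable {f : ℂ × ℂ → ℂ} {a R y Y : ℝ} {ρ : ℂ}

theorem ExtM.mono {y' : ℝ} (h : ExtM f a R y ρ) (hy : y' ≤ y) : ExtM f a R y' ρ := by
  obtain ⟨δ, hδ, hb, G, hG, hE⟩ := h
  refine ⟨δ, hδ, hb, G, hG.mono ?_, fun p hp => hE p ?_⟩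
  · rintro p ⟨h1, h2⟩
    exact ⟨⟨h1.1, h1.2.trans_le hy⟩, h2⟩
  · exact ⟨⟨hp.1.1, hp.1.2.trans_le (min_le_min_left a hy)⟩, hp.2⟩

theorem ExtM.eventually (h : ExtM f a R y ρ) : ∀ᶠ ρ' in 𝓝 ρ, ExtM f a R y ρ' := by
  obtain ⟨δ, hδ, hb, G, hG, hE⟩ := h
  filter_upwards [ball_mem_nhds ρ (half_pos hδ)] with ρ' hρ'
  have h1 : ball ρ' (δ / 2) ⊆ ball ρ δ := by
    apply ball_subset_ball'
    rw [mem_ball] at hρ'
    linarith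
  refine ⟨δ / 2, half_pos hδ, h1.trans hb, G, hG.mono ?_, fun p hp => hE p ?_⟩
  · exact prod_mono_right h1
  · exact ⟨hp.1, h1 hp.2⟩

theorem extM_base (hf : Mer f (St (-a) a ×ˢ ball 0 R)) (hρ : ρ ∈ ball (0:ℂ) R) :
    ExtM f a R a ρ := by
  obtain ⟨δ, hδ, hb⟩ := Metric.isOpen_iff.1 isOpen_ball ρ hρ
  exact ⟨δ, hδ, hb, f, hf.mono (prod_mono_right hb), fun p _ => EqM.refl f p⟩

theorem le_hgt (hf : Mer f (St (-a) a ×ˢ ball 0 R)) (haY : a ≤ Y) (hρ : ρ ∈ ball (0:ℂ) R) :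
    a ≤ hgt f a R Y ρ :=
  le_csSup ⟨Y, fun _ h => h.1⟩ ⟨haY, extM_base hf hρ⟩

theorem hgt_le (hf : Mer f (St (-a) a ×ˢ ball 0 R)) (haY : a ≤ Y) (hρ : ρ ∈ ball (0:ℂ) R) :
    hgt f a R Y ρ ≤ Y :=
  csSup_le ⟨a, haY, extM_base hf hρ⟩ fun _ h => h.1

theorem extM_of_lt (hρ : ρ ∈ ball (0:ℂ) R) (h : y < hgt f a R Y ρ) : ExtM f a R y ρ := by
  have hne : {y | y ≤ Y ∧ ExtM f a R y ρ}.Nonempty := by
    obtain ⟨δ, hδ, hb⟩ := Metric.isOpen_iff.1 isOpen_ball ρ hρ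
    refine ⟨min (-a) Y, min_le_right _ _, δ, hδ, hb, f, ?_, fun p _ => EqM.refl f p⟩
    rintro p ⟨h1, -⟩
    exact absurd (h1.1.trans h1.2) (not_lt.2 (min_le_left _ _))
  obtain ⟨y', h1, h2⟩ := exists_lt_of_lt_csSup hne h
  exact h1.2.mono h2.le

theorem le_hgt_of_extM (h : ExtM f a R y ρ) (hy : y ≤ Y) : y ≤ hgt f a R Y ρ :=
  le_csSup ⟨Y, fun _ h => h.1⟩ ⟨hy, h⟩

theorem hgt_lsc (hf : Mer f (St (-a) a ×ˢ ball 0 R)) (haY : a ≤ Y) (hρ : ρ ∈ ball (0:ℂ) R) :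
    LowerSemicontinuousAt (hgt f a R Y) ρ := by
  intro y hy
  have hne : {y | y ≤ Y ∧ ExtM f a R y ρ}.Nonempty := ⟨a, haY, extM_base hf hρ⟩
  obtain ⟨y', h1, h2⟩ := exists_lt_of_lt_csSup hne hy
  filter_upwards [h1.2.eventually] with ρ' h3
  exact h2.trans_le (le_hgt_of_extM h3 h1.1)

/-- the extension to the maximal domain -/
theorem exists_ext (ha : 0 < a) (hf : Mer f (St (-a) a ×ˢ ball 0 R)) :
    ∃ F : ℂ × ℂ → ℂ, Mer F {p | p.2 ∈ ball (0:ℂ) R ∧ -a < p.1.im ∧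
        ∃ y, p.1.im < y ∧ ExtM f a R y p.2} ∧
      ∀ p ∈ St (-a) a ×ˢ ball 0 R, EqM F f p := by
  obtain ⟨F, hF, hFG⟩ := exists_glue
    (ι := {i : ℂ × ℝ × ℝ × (ℂ × ℂ → ℂ) //
      Mer i.2.2.2 (St (-a) i.2.2.1 ×ˢ ball i.1 i.2.1) ∧
      ∀ p ∈ St (-a) (min a i.2.2.1) ×ˢ ball i.1 i.2.1, EqM i.2.2.2 f p})
    (fun i => St (-a) i.1.2.2.1 ×ˢ ball i.1.1 i.1.2.1)
    (fun i => (isOpen_St _ _).prod isOpen_ball) (fun i => i.1.2.2.2) (fun i => i.2.1) (by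
      rintro i j q ⟨hqi, hqj⟩
      have hc : IsPreconnected ((St (-a) i.1.2.2.1 ×ˢ ball i.1.1 i.1.2.1) ∩
          (St (-a) j.1.2.2.1 ×ˢ ball j.1.1 j.1.2.1)) :=
        (((convex_St _ _).prod (convex_ball _ _)).inter
          ((convex_St _ _).prod (convex_ball _ _))).isPreconnected
      obtain ⟨t, ht1, ht2⟩ := exists_between (show -a < min a (min i.1.2.2.1 j.1.2.2.1) from
        lt_min (by linarith) (lt_min (hqi.1.1.trans hqi.1.2) (hqj.1.1.trans hqj.1.2)))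
      obtain ⟨x, hx⟩ : ∃ x : ℂ, x.im = t := ⟨⟨0, t⟩, rfl⟩
      have hta := ht2.trans_le (min_le_left _ _)
      have hti := ht2.trans_le ((min_le_right _ _).trans (min_le_left _ _))
      have htj := ht2.trans_le ((min_le_right _ _).trans (min_le_right _ _))
      have hxi : (x, q.2) ∈ St (-a) (min a i.1.2.2.1) ×ˢ ball i.1.1 i.1.2.1 :=
        ⟨⟨by rw [hx]; exact ht1, by rw [hx]; exact lt_min hta hti⟩, hqi.2⟩
      have hxj : (x, q.2) ∈ St (-a) (min a j.1.2.2.1) ×ˢ ball j.1.1 j.1.2.1 :=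
        ⟨⟨by rw [hx]; exact ht1, by rw [hx]; exact lt_min hta htj⟩, hqj.2⟩
      exact Mer.eqM hc (i.2.1.mono inter_subset_left) (j.2.1.mono inter_subset_right)
        (p := (x, q.2)) ⟨⟨⟨by rw [hx]; exact ht1, by rw [hx]; exact hti⟩, hqi.2⟩,
          ⟨⟨by rw [hx]; exact ht1, by rw [hx]; exact htj⟩, hqj.2⟩⟩
        ((i.2.2 _ hxi).trans (j.2.2 _ hxj).symm) q ⟨hqi, hqj⟩)
  refine ⟨F, hF.mono ?_, ?_⟩
  · rintro p ⟨-, hp2, y, hy, δ, hδ, -, G, hG, hE⟩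
    exact mem_iUnion.2 ⟨⟨(p.2, δ, y, G), hG, hE⟩, ⟨hp2, hy⟩, mem_ball_self hδ⟩
  · rintro p hp
    obtain ⟨δ, hδ, -, G, hG, hE⟩ := extM_base hf hp.2
    refine (hFG ⟨(p.2, δ, a, G), hG, hE⟩ p ⟨hp.1, mem_ball_self hδ⟩).trans (hE p ⟨?_,
      mem_ball_self hδ⟩)
    rw [min_self]
    exact hp.1

/-- an extension to a domain over an open set of parameters gives `ExtM` -/
theorem extM_of_mer {F : ℂ × ℂ → ℂ} {W : Set ℂ} (hW : IsOpen W) (hWR : W ⊆ ball 0 R)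
    (hF : Mer F (St (-a) y ×ˢ W)) (h : ∀ p ∈ St (-a) (min a y) ×ˢ W, EqM F f p) (hρ : ρ ∈ W) :
    ExtM f a R y ρ := by
  obtain ⟨δ, hδ, hb⟩ := Metric.isOpen_iff.1 hW ρ hρ
  exact ⟨δ, hδ, hb.trans hWR, F, hF.mono (prod_mono_right hb), fun p hp => h p ⟨hp.1, hb hp.2⟩⟩

end Pool.Agent.MP_ae5b4e_an_NBT
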