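import Mathlib
import Pool.Agent.Lib.MP_ae5b4e_an_NBT.Hgt

/-!
# MP_ae5b4e_an, project NB tools: from the height of `F` to the height of `K`
-/

noncomputable section

namespace Pool.Agent.MP_ae5b4e_an_NBT

open Complex Set Filter Topology Metric

variable {F : ℂ × ℂ → ℂ} {a R y : ℝ} {ρ : ℂ}

private lemma merAt_plus {G : ℂ × ℂ → ℂ} {p : ℂ × ℂ} (h : MerAt G (p.1 + p.2, p.2)) :
    MerAt (fun q : ℂ × ℂ => G (q.1 + q.2, q.2)) p :=
  MerAt.shift (h := fun z => z) differentiable_id h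

private lemma merAt_minus {G : ℂ × ℂ → ℂ} {p : ℂ × ℂ} (h : MerAt G (p.1 - p.2, p.2)) :
    MerAt (fun q : ℂ × ℂ => G (q.1 - q.2, q.2)) p := by
  have h1 : MerAt G (p.1 + (fun z : ℂ => -z) p.2, p.2) := by
    rw [sub_eq_add_neg] at h
    exact h
  have h2 := MerAt.shift (h := fun z => -z) differentiable_id.neg h1
  have h3 : (fun q : ℂ × ℂ => G (q.1 + (fun z : ℂ => -z) q.2, q.2)) =
      fun q : ℂ × ℂ => G (q.1 - q.2, q.2) := by
    funext q
    rw [sub_eq_add_neg]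
  rw [h3] at h2
  exact h2

private lemma eqM_plus {G G' : ℂ × ℂ → ℂ} {p : ℂ × ℂ} (h : EqM G G' (p.1 + p.2, p.2)) :
    EqM (fun q : ℂ × ℂ => G (q.1 + q.2, q.2)) (fun q : ℂ × ℂ => G' (q.1 + q.2, q.2)) p :=
  EqM.shift (h := fun z => z) differentiable_id h

private lemma eqM_minus {G G' : ℂ × ℂ → ℂ} {p : ℂ × ℂ} (h : EqM G G' (p.1 - p.2, p.2)) :
    EqM (fun q : ℂ × ℂ => G (q.1 - q.2, q.2)) (fun q : ℂ × ℂ => G' (q.1 - q.2, q.2)) p := by
  have h1 : EqM G G' (p.1 + (fun z : ℂ => -z) p.2, p.2) := by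
    rw [sub_eq_add_neg] at h
    exact h
  have h2 := EqM.shift (h := fun z => -z) differentiable_id.neg h1
  have h3 : ∀ G : ℂ × ℂ → ℂ, (fun q : ℂ × ℂ => G (q.1 + (fun z : ℂ => -z) q.2, q.2)) =
      fun q : ℂ × ℂ => G (q.1 - q.2, q.2) := by
    intro G
    funext q
    rw [sub_eq_add_neg]
  rw [h3 G, h3 G'] at h2
  exact h2

private lemma merAt_KF {G : ℂ × ℂ → ℂ} {p : ℂ × ℂ} (h0 : MerAt G p)
    (h1 : MerAt G (p.1 + p.2, p.2)) (h2 : MerAt G (p.1 - p.2, p.2)) : MerAt (KF G) p :=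
  (((merAt_plus h1).sub h0).inv).add (((merAt_minus h2).sub h0).inv)

private lemma eqM_KF {G G' : ℂ × ℂ → ℂ} {p : ℂ × ℂ} (h0 : EqM G G' p)
    (h1 : EqM G G' (p.1 + p.2, p.2)) (h2 : EqM G G' (p.1 - p.2, p.2)) :
    EqM (KF G) (KF G') p :=
  EqM.map₂ (fun x y => x + y)
    (EqM.map₂ (fun x y => (x - y)⁻¹) (eqM_plus h1) h0)
    (EqM.map₂ (fun x y => (x - y)⁻¹) (eqM_minus h2) h0)

private lemma im_lt {z : ℂ} (hR : R ≤ a / 2) (hz : z ∈ ball (0 : ℂ) R) : |z.im| < a / 2 :=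
  ((abs_im_le_norm z).trans_lt (mem_ball_zero_iff.1 hz)).trans_le hR

theorem mer_KF (hR : R ≤ a / 2) (hF : Mer F (St (-a) a ×ˢ ball 0 R)) :
    Mer (KF F) (St (-(a / 2)) (a / 2) ×ˢ ball 0 R) := by
  rintro ⟨t, z⟩ ⟨⟨ht1, ht2⟩, hz⟩
  have hz' := abs_lt.1 (im_lt hR hz)
  have ht1' : -(a / 2) < t.im := ht1
  have ht2' : t.im < a / 2 := ht2
  refine merAt_KF (hF _ ⟨⟨?_, ?_⟩, hz⟩) (hF _ ⟨⟨?_, ?_⟩, hz⟩) (hF _ ⟨⟨?_, ?_⟩, hz⟩)
  · show -a < t.im
    linarith
  · show t.im < a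
    linarith
  · show -a < (t + z).im
    rw [add_im]
    linarith
  · show (t + z).im < a
    rw [add_im]
    linarith
  · show -a < (t - z).im
    rw [sub_im]
    linarith
  · show (t - z).im < a
    rw [sub_im]
    linarith

/-- from `F` to `K` -/
theorem extM_KF (ha : 0 < a) (hR : R ≤ a / 2) (hF : Mer F (St (-a) a ×ˢ ball 0 R))
    (h : ExtM F a R y ρ) {y' : ℝ} (hy : y' < y - |ρ.im|) : ExtM (KF F) (a / 2) R y' ρ := by
  obtain ⟨δ, hδ, hδR, G, hG1, hG2⟩ := h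
  have hcont : ∀ᶠ z in 𝓝 ρ, y' < y - |z.im| := by
    have h1 : Continuous fun z : ℂ => y - |z.im| := by fun_prop
    exact h1.continuousAt.eventually (lt_mem_nhds hy)
  obtain ⟨d, hd, hd1⟩ := Metric.eventually_nhds_iff_ball.1 hcont
  refine ⟨min δ d, lt_min hδ hd, (ball_subset_ball (min_le_left _ _)).trans hδR, KF G, ?_, ?_⟩
  · rintro ⟨t, z⟩ ⟨⟨ht1, ht2⟩, hz⟩
    have hz1 : z ∈ ball ρ δ := ball_subset_ball (min_le_left _ _) hz
    have hz2 := hd1 z (ball_subset_ball (min_le_right _ _) hz)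
    have hz3 := im_lt hR (hδR hz1)
    have hz4 := abs_lt.1 hz3
    have hz5 := neg_abs_le z.im
    have hz6 := le_abs_self z.im
    have hz7 := abs_nonneg z.im
    have ht1' : -(a / 2) < t.im := ht1
    have ht2' : t.im < y' := ht2
    refine merAt_KF (hG1 _ ⟨⟨?_, ?_⟩, hz1⟩) (hG1 _ ⟨⟨?_, ?_⟩, hz1⟩) (hG1 _ ⟨⟨?_, ?_⟩, hz1⟩)
    · show -a < t.im
      linarith
    · show t.im < y
      linarith
    · show -a < (t + z).im
      rw [add_im]
      linarith
    · show (t + z).im < y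
      rw [add_im]
      linarith
    · show -a < (t - z).im
      rw [sub_im]
      linarith
    · show (t - z).im < y
      rw [sub_im]
      linarith
  · rintro ⟨t, z⟩ ⟨⟨ht1, ht2⟩, hz⟩
    have hz1 : z ∈ ball ρ δ := ball_subset_ball (min_le_left _ _) hz
    have hz2 := hd1 z (ball_subset_ball (min_le_right _ _) hz)
    have hz3 := im_lt hR (hδR hz1)
    have hz4 := abs_lt.1 hz3
    have hz5 := neg_abs_le z.im
    have hz6 := le_abs_self z.im
    have hz7 := abs_nonneg z.im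
    have ht1' : -(a / 2) < t.im := ht1
    have ht2' : t.im < a / 2 := lt_of_lt_of_le ht2 (min_le_left _ _)
    have ht3' : t.im < y' := lt_of_lt_of_le ht2 (min_le_right _ _)
    refine eqM_KF (hG2 _ ⟨⟨?_, lt_min ?_ ?_⟩, hz1⟩) (hG2 _ ⟨⟨?_, lt_min ?_ ?_⟩, hz1⟩)
      (hG2 _ ⟨⟨?_, lt_min ?_ ?_⟩, hz1⟩)
    · show -a < t.im
      linarith
    · show t.im < a
      linarith
    · show t.im < y
      linarith
    · show -a < (t + z).im
      rw [add_im]
      linarith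
    · show (t + z).im < a
      rw [add_im]
      linarith
    · show (t + z).im < y
      rw [add_im]
      linarith
    · show -a < (t - z).im
      rw [sub_im]
      linarith
    · show (t - z).im < a
      rw [sub_im]
      linarith
    · show (t - z).im < y
      rw [sub_im]
      linarith

end Pool.Agent.MP_ae5b4e_an_NBT
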