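import Mathlib
import Pool.Agent.Lib.MP_ae5b4e_an_NBT.Hgt

/-!
# MP_ae5b4e_an, project NB tools: the height over discs, one step
-/

noncomputable section

namespace Pool.Agent.MP_ae5b4e_an_NBT

open Complex Set Filter Topology Metric

variable {f : ℂ × ℂ → ℂ} {a R Y : ℝ}

/-- the domain of the extension -/
private def Dm (f : ℂ × ℂ → ℂ) (a R : ℝ) : Set (ℂ × ℂ) :=
  {p | p.2 ∈ ball (0:ℂ) R ∧ -a < p.1.im ∧ ∃ y, p.1.im < y ∧ ExtM f a R y p.2}

private lemma isOpen_Dm : IsOpen (Dm f a R) := by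
  rw [isOpen_iff_mem_nhds]
  rintro p ⟨h1, h2, y, h3, h4⟩
  have e1 : ∀ᶠ q : ℂ × ℂ in 𝓝 p, q.2 ∈ ball (0:ℂ) R :=
    continuous_snd.continuousAt.eventually (isOpen_ball.mem_nhds h1)
  have c1 : Continuous fun q : ℂ × ℂ => q.1.im := continuous_im.comp continuous_fst
  have e2 : ∀ᶠ q : ℂ × ℂ in 𝓝 p, -a < q.1.im :=
    continuous_const.continuousAt.eventually_lt c1.continuousAt h2
  have e3 : ∀ᶠ q : ℂ × ℂ in 𝓝 p, q.1.im < y :=
    c1.continuousAt.eventually_lt continuous_const.continuousAt h3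
  have e4 : ∀ᶠ q : ℂ × ℂ in 𝓝 p, ExtM f a R y q.2 :=
    continuous_snd.continuousAt.eventually h4.eventually
  filter_upwards [e1, e2, e3, e4] with q a1 a2 a3 a4
  exact ⟨a1, a2, y, a3, a4⟩

/-- the rectangles -/
private def Sx (x ε : ℝ) : Set ℂ := re ⁻¹' Ioo (x - 1) (x + 1) ∩ St 0 ε

private lemma convex_Sx (x ε : ℝ) : Convex ℝ (Sx x ε) :=
  ((convex_Ioo (x - 1) (x + 1)).is_linear_preimage (f := re) ⟨fun _ _ => rfl, by simp⟩).inter
    (convex_St 0 ε)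

private lemma isOpen_Sx (x ε : ℝ) : IsOpen (Sx x ε) :=
  (isOpen_Ioo.preimage continuous_re).inter (isOpen_St 0 ε)

private lemma mem_Sx {x ε : ℝ} {σ : ℂ} :
    σ ∈ Sx x ε ↔ (x - 1 < σ.re ∧ σ.re < x + 1) ∧ 0 < σ.im ∧ σ.im < ε := Iff.rfl

/-- the identity theorem on sheared products -/
private lemma shear_eqM {g g' : ℂ × ℂ → ℂ} {h : ℂ → ℂ} (hh : Differentiable ℂ h) {S : Set ℂ}
    (hS : Convex ℝ S) {c : ℂ} {s : ℝ}
    (hg : ∀ p : ℂ × ℂ, p.1 - h p.2 ∈ S → p.2 ∈ ball c s → MerAt g p)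
    (hg' : ∀ p : ℂ × ℂ, p.1 - h p.2 ∈ S → p.2 ∈ ball c s → MerAt g' p) {p₀ : ℂ × ℂ}
    (hp₀ : p₀.1 - h p₀.2 ∈ S) (hp₀' : p₀.2 ∈ ball c s) (h0 : EqM g g' p₀) (p : ℂ × ℂ)
    (hp : p.1 - h p.2 ∈ S) (hp' : p.2 ∈ ball c s) : EqM g g' p := by
  have e1 : ∀ q : ℂ × ℂ, q.1 + h q.2 - h q.2 = q.1 := fun q => add_sub_cancel_right _ _
  have m1 : Mer (fun q : ℂ × ℂ => g (q.1 + h q.2, q.2)) (S ×ˢ ball c s) := by
    intro q hq
    refine MerAt.shift hh (hg (q.1 + h q.2, q.2) ?_ hq.2)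
    show q.1 + h q.2 - h q.2 ∈ S
    rw [e1]
    exact hq.1
  have m2 : Mer (fun q : ℂ × ℂ => g' (q.1 + h q.2, q.2)) (S ×ˢ ball c s) := by
    intro q hq
    refine MerAt.shift hh (hg' (q.1 + h q.2, q.2) ?_ hq.2)
    show q.1 + h q.2 - h q.2 ∈ S
    rw [e1]
    exact hq.1
  have e2 : ∀ q : ℂ × ℂ, ((q.1 - h q.2, q.2).1 + h (q.1 - h q.2, q.2).2, (q.1 - h q.2, q.2).2)
      = q := by
    intro q
    show (q.1 - h q.2 + h q.2, q.2) = q
    rw [sub_add_cancel]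
  have m3 : EqM (fun q : ℂ × ℂ => g (q.1 + h q.2, q.2)) (fun q : ℂ × ℂ => g' (q.1 + h q.2, q.2))
      (p₀.1 - h p₀.2, p₀.2) := by
    refine EqM.shift hh ?_
    rw [e2]
    exact h0
  have m4 := Mer.eqM ((hS.prod (convex_ball c s)).isPreconnected) m1 m2
    (p := (p₀.1 - h p₀.2, p₀.2)) ⟨hp₀, hp₀'⟩ m3 (p.1 - h p.2, p.2) ⟨hp, hp'⟩
  have m5 : EqM (fun q : ℂ × ℂ => g (q.1 + h q.2, q.2)) (fun q : ℂ × ℂ => g' (q.1 + h q.2, q.2))
      (p.1 + (fun z => -h z) p.2, p.2) := by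
    have : p.1 + (fun z => -h z) p.2 = p.1 - h p.2 := by
      show p.1 + -h p.2 = _
      rw [sub_eq_add_neg]
    rw [this]
    exact m4
  have m6 := EqM.shift (h := fun z => -h z) hh.neg m5
  have e3 : ∀ k : ℂ × ℂ → ℂ, (fun q : ℂ × ℂ => (fun q : ℂ × ℂ => k (q.1 + h q.2, q.2))
      (q.1 + (fun z => -h z) q.2, q.2)) = k := by
    intro k
    funext q
    show k (q.1 + -h q.2 + h q.2, q.2) = k q
    rw [neg_add_cancel_right]
  rw [e3, e3] at m6
  exact m6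

/-- one piece of the extension -/
private lemma piece {F : ℂ × ℂ → ℂ} (hF : Mer F (Dm f a R)) {c : ℂ} {s ε : ℝ}
    (hs : 0 < s) (hε : 0 < ε) (hcs : closedBall c s ⊆ ball 0 R) {q : ℂ → ℂ}
    (hq : Differentiable ℂ q) (h1 : ∀ ρ ∈ closedBall c s, -a < (q ρ).re)
    (h2 : ∀ ρ ∈ sphere c s, ExtM f a R ((q ρ).re + ε) ρ)
    (h3 : ∀ ρ ∈ closedBall c s, ExtM f a R ((q ρ).re + ε / 4) ρ) (x : ℝ) :
    ∃ g : ℂ × ℂ → ℂ, (∀ p : ℂ × ℂ, p.1 - I * q p.2 ∈ Sx x ε → p.2 ∈ ball c s → MerAt g p) ∧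
      ∀ p : ℂ × ℂ, p.1 - I * q p.2 ∈ Sx x (ε / 4) → p.2 ∈ ball c s → EqM g F p := by
  have hh : Differentiable ℂ fun ρ => I * q ρ := hq.const_mul I
  have him : ∀ σ ρ : ℂ, (σ + I * q ρ).im = σ.im + (q ρ).re := by
    intro σ ρ
    simp
  set s₀ : ℂ := (x : ℂ) + ((ε / 8 : ℝ) : ℂ) * I with hs₀
  have hs₀re : s₀.re = x := by simp [hs₀]
  have hs₀im : s₀.im = ε / 8 := by simp [hs₀]
  have hs₀m : s₀ ∈ Sx x (ε / 4) := by
    rw [mem_Sx, hs₀re, hs₀im]
    exact ⟨⟨by linarith, by linarith⟩, by linarith, by linarith⟩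
  have hsub : Sx x (ε / 4) ⊆ Sx x ε := by
    intro σ hσ
    rw [mem_Sx] at hσ ⊢
    exact ⟨hσ.1, hσ.2.1, by linarith [hσ.2.2]⟩
  obtain ⟨g, hg1, hg2, -⟩ := levi_family (Dm f a R) isOpen_Dm F hF (fun ρ => I * q ρ) hh
    (Sx x ε) (isOpen_Sx x ε) (convex_Sx x ε).isPreconnected c s hs (by
      intro σ hσ w hw
      rw [mem_Sx] at hσ
      have hw' := sphere_subset_closedBall hw
      refine ⟨hcs hw', ?_, (q w).re + ε, ?_, h2 w hw⟩
      · show -a < (σ + I * q w).im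
        rw [him]
        linarith [h1 w hw', hσ.2.1]
      · show (σ + I * q w).im < _
        rw [him]
        linarith [hσ.2.2]) s₀ (hsub hs₀m) (by
      intro w hw
      refine ⟨hcs hw, ?_, (q w).re + ε / 4, ?_, h3 w hw⟩
      · show -a < (s₀ + I * q w).im
        rw [him, hs₀im]
        linarith [h1 w hw]
      · show (s₀ + I * q w).im < _
        rw [him, hs₀im]
        linarith)
  refine ⟨g, fun p hp hp' => hg1 p ⟨hp, hp'⟩, ?_⟩
  have hc : c ∈ ball c s := mem_ball_self hs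
  have h5 := (hg2.self_of_nhds c hc).2
  refine shear_eqM (g := g) (g' := F) (h := fun ρ => I * q ρ) hh (convex_Sx x (ε / 4))
    (fun p hp hp' => hg1 p ⟨hsub hp, hp'⟩) ?_ (p₀ := (s₀ + I * q c, c)) ?_ hc h5
  · intro p hp hp'
    have hp2 := ball_subset_closedBall hp'
    have hp3 : p.1 = (p.1 - I * q p.2) + I * q p.2 := by ring
    have hp4 : p.1.im = (p.1 - I * q p.2).im + (q p.2).re := by
      conv_lhs => rw [hp3]
      exact him _ _
    have hp' := mem_Sx.1 hp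
    refine hF p ⟨hcs hp2, ?_, (q p.2).re + ε / 4, ?_, h3 p.2 hp2⟩
    · rw [hp4]
      linarith [h1 p.2 hp2, hp'.2.1]
    · rw [hp4]
      linarith [hp'.2.2]
  · show s₀ + I * q c - I * q c ∈ _
    rw [add_sub_cancel_right]
    exact hs₀m

/-- one step: from the height `Re q + ε / 4` over the disc to the height `Re q + ε` -/
theorem disc_step (ha : 0 < a) (hf : Mer f (St (-a) a ×ˢ ball 0 R)) {c : ℂ} {s ε : ℝ}
    (hs : 0 < s) (hε : 0 < ε) (hcs : closedBall c s ⊆ ball 0 R) {q : ℂ → ℂ}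
    (hq : Differentiable ℂ q) (h1 : ∀ ρ ∈ closedBall c s, -a < (q ρ).re)
    (h2 : ∀ ρ ∈ sphere c s, ExtM f a R ((q ρ).re + ε) ρ)
    (h3 : ∀ ρ ∈ closedBall c s, ExtM f a R ((q ρ).re + ε / 4) ρ) :
    ∀ ρ ∈ closedBall c s, ExtM f a R ((q ρ).re + ε / 2) ρ := by
  have hh : Differentiable ℂ fun ρ => I * q ρ := hq.const_mul I
  obtain ⟨F, hF, hFf⟩ := exists_ext ha hf
  have hF : Mer F (Dm f a R) := hF
  choose g hg1 hg2 using fun x : ℝ => piece hF hs hε hcs hq h1 h2 h3 x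
  have him : ∀ p : ℂ × ℂ, p.1.im = (p.1 - I * q p.2).im + (q p.2).re := by
    intro p
    simp
  have hqc : Continuous q := hq.continuous
  -- the pieces
  let N : Option ℝ → Set (ℂ × ℂ) := fun i =>
    match i with
    | none => {p | p.2 ∈ ball c s ∧ -a < p.1.im ∧ p.1.im < (q p.2).re + ε / 4}
    | some x => {p | p.1 - I * q p.2 ∈ Sx x ε ∧ p.2 ∈ ball c s}
  let G : Option ℝ → ℂ × ℂ → ℂ := fun i =>
    match i with
    | none => F
    | some x => g x
  have c1 : Continuous fun p : ℂ × ℂ => p.1.im := continuous_im.comp continuous_fst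
  have c2 : Continuous fun p : ℂ × ℂ => (q p.2).re :=
    continuous_re.comp (hqc.comp continuous_snd)
  have c3 : Continuous fun p : ℂ × ℂ => p.1 - I * q p.2 :=
    continuous_fst.sub (continuous_const.mul (hqc.comp continuous_snd))
  have hN : ∀ i, IsOpen (N i) := by
    intro i
    match i with
    | none =>
      exact (isOpen_ball.preimage continuous_snd).inter
        ((isOpen_lt continuous_const c1).inter (isOpen_lt c1 (c2.add continuous_const)))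
    | some x => exact ((isOpen_Sx x ε).preimage c3).inter (isOpen_ball.preimage continuous_snd)
  have hN0 : N none ⊆ Dm f a R := by
    rintro p ⟨hp1, hp2, hp3⟩
    have hp4 := ball_subset_closedBall hp1
    exact ⟨hcs hp4, hp2, _, hp3, h3 p.2 hp4⟩
  have hG : ∀ i, Mer (G i) (N i) := by
    intro i
    match i with
    | none => exact hF.mono hN0
    | some x => exact fun p hp => hg1 x p hp.1 hp.2
  have key0 : ∀ x : ℝ, ∀ p ∈ N (some x) ∩ N none, EqM (g x) F p := by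
    rintro x p ⟨⟨hp1, hp2⟩, hp3, hp4, hp5⟩
    refine hg2 x p ?_ hp2
    rw [mem_Sx] at hp1 ⊢
    refine ⟨hp1.1, hp1.2.1, ?_⟩
    have := him p
    linarith
  have key1 : ∀ x x' : ℝ, ∀ p ∈ N (some x) ∩ N (some x'), EqM (g x) (g x') p := by
    rintro x x' p ⟨⟨hp1, hp2⟩, hp3, -⟩
    set σ : ℂ := p.1 - I * q p.2 with hσ
    have hσ1 := mem_Sx.1 hp1
    have hσ3 := mem_Sx.1 hp3
    set τ : ℂ := (σ.re : ℂ) + ((min σ.im (ε / 8) : ℝ) : ℂ) * I with hτ
    have hτre : τ.re = σ.re := by simp [hτ]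
    have hτim : τ.im = min σ.im (ε / 8) := by simp [hτ]
    have t1 : 0 < min σ.im (ε / 8) := lt_min hσ1.2.1 (by linarith)
    have t2 : min σ.im (ε / 8) ≤ ε / 8 := min_le_right _ _
    have hτ4 : τ ∈ Sx x (ε / 4) := by
      rw [mem_Sx, hτre, hτim]
      exact ⟨hσ1.1, t1, by linarith⟩
    have hτ4' : τ ∈ Sx x' (ε / 4) := by
      rw [mem_Sx, hτre, hτim]
      exact ⟨hσ3.1, t1, by linarith⟩
    have hτ5 : τ ∈ Sx x ε := by
      rw [mem_Sx, hτre, hτim]
      exact ⟨hσ1.1, t1, by linarith⟩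
    have hτ5' : τ ∈ Sx x' ε := by
      rw [mem_Sx, hτre, hτim]
      exact ⟨hσ3.1, t1, by linarith⟩
    have hτ6 : τ + I * q p.2 - I * q p.2 = τ := add_sub_cancel_right _ _
    refine shear_eqM (h := fun ρ => I * q ρ) hh ((convex_Sx x ε).inter (convex_Sx x' ε))
      (fun r hr hr' => hg1 x r hr.1 hr') (fun r hr hr' => hg1 x' r hr.2 hr')
      (p₀ := (τ + I * q p.2, p.2)) ?_ hp2 ?_ p ⟨hp1, hp3⟩ hp2
    · show τ + I * q p.2 - I * q p.2 ∈ _
      rw [hτ6]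
      exact ⟨hτ5, hτ5'⟩
    · refine (hg2 x (τ + I * q p.2, p.2) ?_ hp2).trans
        (hg2 x' (τ + I * q p.2, p.2) ?_ hp2).symm
      · show τ + I * q p.2 - I * q p.2 ∈ _
        rw [hτ6]
        exact hτ4
      · show τ + I * q p.2 - I * q p.2 ∈ _
        rw [hτ6]
        exact hτ4'
  have hov : ∀ i j, ∀ p ∈ N i ∩ N j, EqM (G i) (G j) p := by
    intro i j p hp
    match i, j with
    | none, none => exact EqM.refl _ _
    | none, some x => exact (key0 x p ⟨hp.2, hp.1⟩).symm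
    | some x, none => exact key0 x p hp
    | some x, some x' => exact key1 x x' p hp
  obtain ⟨E, hE1, hE2⟩ := exists_glue N hN G hG hov
  have hcov : ∀ p : ℂ × ℂ, p.2 ∈ ball c s → -a < p.1.im → p.1.im < (q p.2).re + ε →
      MerAt E p := by
    intro p hp1 hp2 hp3
    refine hE1 p (mem_iUnion.2 ?_)
    by_cases h4 : p.1.im < (q p.2).re + ε / 4
    · exact ⟨none, hp1, hp2, h4⟩
    · refine ⟨some (p.1 - I * q p.2).re, ?_, hp1⟩
      rw [mem_Sx]
      have := him p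
      exact ⟨⟨by linarith, by linarith⟩, by linarith, by linarith⟩
  intro ρ hρ
  rcases lt_or_eq_of_le (mem_closedBall.1 hρ) with hlt | heq
  · have hρb : ρ ∈ ball c s := hlt
    set y : ℝ := (q ρ).re + ε / 2 with hy
    have cq : Continuous fun z => (q z).re := continuous_re.comp hqc
    obtain ⟨δ, hδ, hW⟩ := Metric.isOpen_iff.1
      (isOpen_ball.inter (isOpen_lt (continuous_const (y := y)) (cq.add (continuous_const (y := ε)))))
      ρ ⟨hρb, show y < (q ρ).re + ε by linarith⟩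
    have hWR : ball ρ δ ⊆ ball 0 R := fun z hz => hcs (ball_subset_closedBall (hW hz).1)
    have hEy : Mer E (St (-a) y ×ˢ ball ρ δ) := by
      rintro p ⟨hp1, hp2⟩
      have h4 : y < (q p.2).re + ε := (hW hp2).2
      exact hcov p (hW hp2).1 hp1.1 (hp1.2.trans h4)
    refine extM_of_mer isOpen_ball hWR hEy ?_ (mem_ball_self hδ)
    have hqa := h1 ρ hρ
    obtain ⟨t, ht1, ht2⟩ := exists_between (show -a < min (min a y) ((q ρ).re + ε / 4) by
      refine lt_min (lt_min (by linarith) ?_) (by linarith)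
      rw [hy]
      linarith)
    have ht3 : t < min a y := ht2.trans_le (min_le_left _ _)
    have ht4 : t < (q ρ).re + ε / 4 := ht2.trans_le (min_le_right _ _)
    have ht5 : t < a := ht3.trans_le (min_le_left _ _)
    have hti : ((t : ℂ) * I).im = t := by simp
    have hconv : IsPreconnected (St (-a) (min a y) ×ˢ ball ρ δ) :=
      ((convex_St _ _).prod (convex_ball ρ δ)).isPreconnected
    have hsub1 : St (-a) (min a y) ×ˢ ball ρ δ ⊆ St (-a) y ×ˢ ball ρ δ := by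
      rintro p ⟨hp1, hp2⟩
      exact ⟨⟨hp1.1, hp1.2.trans_le (min_le_right _ _)⟩, hp2⟩
    have hsub2 : St (-a) (min a y) ×ˢ ball ρ δ ⊆ St (-a) a ×ˢ ball 0 R := by
      rintro p ⟨hp1, hp2⟩
      exact ⟨⟨hp1.1, hp1.2.trans_le (min_le_left _ _)⟩, hWR hp2⟩
    refine Mer.eqM hconv (hEy.mono hsub1) (hf.mono hsub2) (p := ((t : ℂ) * I, ρ)) ?_ ?_
    · refine ⟨?_, mem_ball_self hδ⟩
      show -a < ((t : ℂ) * I).im ∧ ((t : ℂ) * I).im < min a y
      rw [hti]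
      exact ⟨ht1, ht3⟩
    · have hn : ((t : ℂ) * I, ρ) ∈ N none := by
        refine ⟨hρb, ?_, ?_⟩
        · show -a < ((t : ℂ) * I).im
          rw [hti]
          exact ht1
        · show ((t : ℂ) * I).im < (q ρ).re + ε / 4
          rw [hti]
          exact ht4
      have hb : ((t : ℂ) * I, ρ) ∈ St (-a) a ×ˢ ball (0:ℂ) R := by
        refine ⟨?_, hcs hρ⟩
        show -a < ((t : ℂ) * I).im ∧ ((t : ℂ) * I).im < a
        rw [hti]
        exact ⟨ht1, ht5⟩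
      exact (hE2 none _ hn).trans (hFf _ hb)
  · exact (h2 ρ heq).mono (by linarith)

end Pool.Agent.MP_ae5b4e_an_NBT
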