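import Mathlib
import Pool.Agent.Lib.MP_ae5b4e_an_NBT.DisA
import Pool.Agent.Lib.MP_ae5b4e_an_NBT.SupA

/-!
# MP_ae5b4e_an, project NB tools: the height over discs (Kontinuitaetssatz)
-/

noncomputable section

namespace Pool.Agent.MP_ae5b4e_an_NBT

open Complex Set Filter Topology Metric

variable {f : ℂ × ℂ → ℂ} {a R Y : ℝ}

private lemma disc_aux1 {c : ℂ} {s : ℝ} {q : ℂ → ℂ} (hq : Differentiable ℂ q)
    (h2 : ∀ ρ ∈ sphere c s, ∃ y, (q ρ).re < y ∧ ExtM f a R y ρ) :
    ∃ e > 0, ∀ ρ ∈ sphere c s, ExtM f a R ((q ρ).re + e) ρ := by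
  refine (isCompact_sphere c s).induction_on
    (p := fun S => ∃ e > 0, ∀ ρ ∈ S, ExtM f a R ((q ρ).re + e) ρ) ⟨1, one_pos, by simp⟩ ?_ ?_ ?_
  · rintro S T hST ⟨e, he, h⟩
    exact ⟨e, he, fun ρ hρ => h ρ (hST hρ)⟩
  · rintro S T ⟨e, he, h⟩ ⟨e', he', h'⟩
    refine ⟨min e e', lt_min he he', ?_⟩
    rintro ρ (hρ | hρ)
    · exact (h ρ hρ).mono (by linarith [min_le_left e e'])
    · exact (h' ρ hρ).mono (by linarith [min_le_right e e'])
  · intro ρ hρ
    obtain ⟨y, hy, hE⟩ := h2 ρ hρ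
    have hc : Continuous fun z => (q z).re := continuous_re.comp hq.continuous
    have h3 : ∀ᶠ z in 𝓝 ρ, (q z).re < (y + (q ρ).re) / 2 :=
      hc.continuousAt.eventually (gt_mem_nhds (by linarith))
    have h4 : ∀ᶠ z in 𝓝 ρ, ExtM f a R ((q z).re + (y - (q ρ).re) / 2) z := by
      filter_upwards [h3, hE.eventually] with z h5 h6
      exact h6.mono (by linarith)
    exact ⟨_, mem_nhdsWithin_of_mem_nhds h4, (y - (q ρ).re) / 2, by linarith, fun z hz => hz⟩

/-- the disc theorem for the height -/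
theorem disc_ext (ha : 0 < a) (hf : Mer f (St (-a) a ×ˢ ball 0 R)) {c : ℂ} {s : ℝ}
    (hs : 0 < s) (hcs : closedBall c s ⊆ ball 0 R) {q : ℂ → ℂ} (hq : Differentiable ℂ q)
    (h1 : ∀ ρ ∈ closedBall c s, -a < (q ρ).re)
    (h2 : ∀ ρ ∈ sphere c s, ∃ y, (q ρ).re < y ∧ ExtM f a R y ρ) :
    ∀ ρ ∈ closedBall c s, ∃ y, (q ρ).re < y ∧ ExtM f a R y ρ := by
  obtain ⟨e0, he0, hE0⟩ := disc_aux1 hq h2
  obtain ⟨M0, hM0⟩ := (isCompact_closedBall c s).exists_bound_of_continuousOn
    (f := q) hq.continuous.continuousOn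
  set M : ℝ := max M0 1 with hM
  have hMpos : 0 < M := lt_of_lt_of_le one_pos (le_max_right _ _)
  have hqM : ∀ ρ ∈ closedBall c s, |(q ρ).re| ≤ M := fun ρ hρ =>
    (abs_re_le_norm _).trans ((hM0 ρ hρ).trans (le_max_left _ _))
  set ε : ℝ := min a e0 with hε
  have hεpos : 0 < ε := lt_min ha he0
  have hεa : ε ≤ a := min_le_left _ _
  have hεe : ε ≤ e0 := min_le_right _ _
  -- the real part of a multiple
  have hre : ∀ (l : ℝ) (ρ : ℂ), ((fun z => (l : ℂ) * q z) ρ).re = l * (q ρ).re := by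
    intro l ρ
    simp
  -- on the sphere
  have hA : ∀ l : ℝ, 0 ≤ l → l ≤ 1 → ∀ ρ ∈ sphere c s,
      ExtM f a R (l * (q ρ).re + ε) ρ := by
    intro l hl0 hl1 ρ hρ
    rcases le_or_gt 0 (q ρ).re with h | h
    · exact (hE0 ρ hρ).mono (by nlinarith)
    · exact (extM_base hf (hcs (sphere_subset_closedBall hρ))).mono (by nlinarith)
  have hB : ∀ l : ℝ, 0 ≤ l → l ≤ 1 → ∀ ρ ∈ closedBall c s, -a < l * (q ρ).re := by
    intro l hl0 hl1 ρ hρ
    have h3 := h1 ρ hρ
    rcases le_or_gt 0 (q ρ).re with h | h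
    · nlinarith [mul_nonneg hl0 h]
    · nlinarith
  obtain ⟨N, hN⟩ := exists_nat_gt (4 * M / ε)
  have hN0 : (0:ℝ) < N := lt_of_le_of_lt (by positivity) hN
  have hstep : 1 / (N:ℝ) * M ≤ ε / 4 := by
    have h3 : 4 * M < N * ε := by
      rw [div_lt_iff₀ hεpos] at hN
      exact hN
    rw [div_mul_eq_mul_div, one_mul, div_le_iff₀ hN0]
    nlinarith
  have hP : ∀ n : ℕ, n ≤ N → ∀ ρ ∈ closedBall c s,
      ExtM f a R ((n / N : ℝ) * (q ρ).re + ε / 2) ρ := by
    intro n
    induction n with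
    | zero =>
      intro _ ρ hρ
      refine (extM_base hf (hcs hρ)).mono ?_
      simp only [Nat.cast_zero, zero_div, zero_mul, zero_add]
      linarith
    | succ n ih =>
      intro hn ρ hρ
      have ih' := ih (by omega)
      have hl0 : (0:ℝ) ≤ ((n + 1 : ℕ) / N : ℝ) := by positivity
      have hl1 : ((n + 1 : ℕ) / N : ℝ) ≤ 1 := by
        rw [div_le_one hN0]
        exact_mod_cast hn
      have hdiff : ((n + 1 : ℕ) / N : ℝ) = (n / N : ℝ) + 1 / N := by
        push_cast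
        ring
      have h5 := disc_step ha hf hs hεpos hcs
        (q := fun z => ((((n + 1 : ℕ) / N : ℝ)) : ℂ) * q z)
        ((differentiable_const _).mul hq)
        (fun z hz => by rw [hre]; exact hB _ hl0 hl1 z hz)
        (fun z hz => by rw [hre]; exact hA _ hl0 hl1 z hz)
        (fun z hz => by
          rw [hre]
          refine (ih' z hz).mono ?_
          have h6 := hqM z hz
          have h7 : (1 / (N:ℝ)) * (q z).re ≤ ε / 4 := by
            refine le_trans (mul_le_mul_of_nonneg_left (le_of_abs_le h6) (by positivity)) hstep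
          rw [hdiff]
          linarith) ρ hρ
      rw [hre] at h5
      exact h5
  intro ρ hρ
  have h3 := hP N le_rfl ρ hρ
  rw [div_self hN0.ne', one_mul] at h3
  exact ⟨_, by linarith, h3⟩

/-- the height is superharmonic -/
theorem supH_hgt (ha : 0 < a) (hf : Mer f (St (-a) a ×ˢ ball 0 R)) (haY : a ≤ Y) :
    SupH (hgt f a R Y) (ball 0 R) := by
  refine supH_of_disc isOpen_ball ha (fun z hz => hgt_lsc hf haY hz)
    (fun z hz => le_hgt hf haY hz) ?_
  intro c s hs hcs q hq h1 h2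
  obtain ⟨y, hy, hE⟩ := disc_ext ha hf hs hcs hq h1 (fun ρ hρ => by
    obtain ⟨m, hm1, hm2⟩ := exists_between (h2 ρ hρ)
    exact ⟨m, hm1, extM_of_lt (hcs (sphere_subset_closedBall hρ)) hm2⟩) c
      (mem_closedBall_self hs.le)
  have hY : (q c).re ≤ Y := by
    have hd : DiffContOnCl ℂ (fun z => Complex.exp (q z)) (ball c s) :=
      (hq.cexp).diffContOnCl
    have h3 := Complex.norm_le_of_forall_mem_frontier_norm_le isBounded_ball hd
      (C := Real.exp Y) (fun z hz => by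
        rw [Complex.norm_exp]
        have hz' : z ∈ sphere c s := by rwa [frontier_ball c hs.ne'] at hz
        exact Real.exp_le_exp.2 ((h2 z hz').le.trans
          (hgt_le hf haY (hcs (sphere_subset_closedBall hz'))))) (z := c)
      (subset_closure (mem_ball_self hs))
    rw [Complex.norm_exp] at h3
    exact Real.exp_le_exp.1 h3
  exact (le_min hy.le hY).trans
    (le_hgt_of_extM (hE.mono (min_le_left y Y)) (min_le_right y Y))

end Pool.Agent.MP_ae5b4e_an_NBT
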