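import Mathlib
import Pool.Agent.Lib.MP_ae5b4e_an_NBT.CliA
import Pool.Agent.Lib.MP_ae5b4e_an_NBT.Disc

/-!
# MP_ae5b4e_an, project NB tools: from the height of `K` to the height of `F`
-/

noncomputable section

namespace Pool.Agent.MP_ae5b4e_an_NBT

open Complex Set Filter Topology Metric

variable {F : ℂ × ℂ → ℂ} {a R y : ℝ} {ρ : ℂ}

private lemma clb_mer {f : ℂ × ℂ → ℂ} (k : ℂ) {p : ℂ × ℂ} (h : MerAt f (p.1 + k * p.2, p.2)) :
    MerAt (fun q : ℂ × ℂ => f (q.1 + k * q.2, q.2)) p :=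
  MerAt.shift (h := fun z => k * z) (differentiable_id.const_mul k) h

private lemma clb_eqM {f g : ℂ × ℂ → ℂ} (k : ℂ) {p : ℂ × ℂ}
    (h : EqM f g (p.1 + k * p.2, p.2)) :
    EqM (fun q : ℂ × ℂ => f (q.1 + k * q.2, q.2)) (fun q : ℂ × ℂ => g (q.1 + k * q.2, q.2)) p :=
  EqM.shift (h := fun z => k * z) (differentiable_id.const_mul k) h

private lemma clb_im (hR : R ≤ a / 4) {z : ℂ} (hz : z ∈ ball (0 : ℂ) R) : |z.im| < a / 4 :=
  ((abs_im_le_norm z).trans_lt (mem_ball_zero_iff.1 hz)).trans_le hR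

/-- the formula of the step, `σ = 1` or `σ = -1` -/
private def clbG (σ : ℝ) (G K : ℂ × ℂ → ℂ) (q : ℂ × ℂ) : ℂ :=
  G (q.1 + (-(σ : ℂ)) * q.2, q.2) +
    (K (q.1 + (-(σ : ℂ)) * q.2, q.2) -
      (G (q.1 + (-(2 * σ : ℂ)) * q.2, q.2) - G (q.1 + (-(σ : ℂ)) * q.2, q.2))⁻¹)⁻¹

private lemma clbG_self {σ : ℝ} (hσ : σ = 1 ∨ σ = -1) (F : ℂ × ℂ → ℂ) :
    clbG σ F (KF F) = F := by
  funext q
  obtain ⟨t, z⟩ := q
  unfold clbG KF
  rcases hσ with rfl | rfl
  · have e1 : t + -((1 : ℝ) : ℂ) * z + z = t := by push_cast; ring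
    have e2 : t + -((1 : ℝ) : ℂ) * z - z = t + -(2 * ((1 : ℝ) : ℂ)) * z := by push_cast; ring
    simp only [e1, e2]
    rw [add_sub_cancel_right, inv_inv]
    ring
  · have e1 : t + -((-1 : ℝ) : ℂ) * z - z = t := by push_cast; ring
    have e2 : t + -((-1 : ℝ) : ℂ) * z + z = t + -(2 * ((-1 : ℝ) : ℂ)) * z := by push_cast; ring
    simp only [e1, e2]
    rw [add_sub_cancel_left, inv_inv]
    ring

private lemma clbG_mer {σ : ℝ} {G K : ℂ × ℂ → ℂ} {p : ℂ × ℂ}
    (h1 : MerAt G (p.1 + (-(σ : ℂ)) * p.2, p.2)) (h2 : MerAt K (p.1 + (-(σ : ℂ)) * p.2, p.2))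
    (h3 : MerAt G (p.1 + (-(2 * σ : ℂ)) * p.2, p.2)) : MerAt (clbG σ G K) p :=
  (clb_mer _ h1).add (((clb_mer _ h2).sub (((clb_mer _ h3).sub (clb_mer _ h1)).inv)).inv)

private lemma clbG_eqM {σ : ℝ} {G K G' K' : ℂ × ℂ → ℂ} {p : ℂ × ℂ}
    (h1 : EqM G G' (p.1 + (-(σ : ℂ)) * p.2, p.2)) (h2 : EqM K K' (p.1 + (-(σ : ℂ)) * p.2, p.2))
    (h3 : EqM G G' (p.1 + (-(2 * σ : ℂ)) * p.2, p.2)) : EqM (clbG σ G K) (clbG σ G' K') p :=
  EqM.map₂ (fun x y => x + y) (clb_eqM _ h1)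
    (EqM.map₂ (fun x y => (x - y)⁻¹) (clb_eqM _ h2)
      (EqM.map₂ (fun x y => (x - y)⁻¹) (clb_eqM _ h3) (clb_eqM _ h1)))

private lemma clb_im1 (σ : ℝ) (t z : ℂ) : (t + (-(σ : ℂ)) * z).im = t.im - σ * z.im := by
  simp
  ring

private lemma clb_im2 (σ : ℝ) (t z : ℂ) : (t + (-(2 * σ : ℂ)) * z).im = t.im - 2 * (σ * z.im) := by
  simp
  ring

/-- the step -/
private lemma clb_step (ha : 0 < a) (hR : R ≤ a / 4) (hF : Mer F (St (-a) a ×ˢ ball 0 R))
    {σ : ℝ} (hσ : σ = 1 ∨ σ = -1) (hρ : 0 < σ * ρ.im) (h : ExtM (KF F) (a / 2) R y ρ)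
    (hy : 0 < y) {y0 : ℝ} (hy0 : a ≤ y0) (h0 : ExtM F a R y0 ρ) {y1 : ℝ}
    (hy1 : y1 < min y0 y + σ * ρ.im) : ExtM F a R y1 ρ := by
  obtain ⟨δ, hδ, hδR, K, hK1, hK2⟩ := h
  obtain ⟨δ', hδ', hδR', G, hG1, hG2⟩ := h0
  have hcont : ∀ᶠ z in 𝓝 ρ, y1 < min y0 y + σ * z.im ∧ 0 < σ * z.im := by
    have h1 : Continuous fun z : ℂ => min y0 y + σ * z.im := by fun_prop
    have h2 : Continuous fun z : ℂ => σ * z.im := by fun_prop
    exact (h1.continuousAt.eventually (lt_mem_nhds hy1)).and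
      (h2.continuousAt.eventually (lt_mem_nhds hρ))
  obtain ⟨d, hd, hd1⟩ := Metric.eventually_nhds_iff_ball.1 hcont
  obtain ⟨r, hr⟩ : ∃ r, r = min (min δ δ') d := ⟨_, rfl⟩
  have hr0 : 0 < r := by rw [hr]; exact lt_min (lt_min hδ hδ') hd
  have hrδ : ball ρ r ⊆ ball ρ δ := ball_subset_ball (by
    rw [hr]; exact (min_le_left _ _).trans (min_le_left _ _))
  have hrδ' : ball ρ r ⊆ ball ρ δ' := ball_subset_ball (by
    rw [hr]; exact (min_le_left _ _).trans (min_le_right _ _))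
  have hrd : ball ρ r ⊆ ball ρ d := ball_subset_ball (by rw [hr]; exact min_le_right _ _)
  have habs : ∀ z ∈ ball ρ r, 0 < σ * z.im ∧ σ * z.im < a / 4 := by
    intro z hz
    refine ⟨(hd1 z (hrd hz)).2, ?_⟩
    have h1 := clb_im hR (hδR (hrδ hz))
    have h2 : |σ * z.im| = |z.im| := by
      rcases hσ with rfl | rfl
      · simp
      · simp
    rw [← h2] at h1
    exact (le_abs_self _).trans_lt h1
  have hmina : min a y0 = a := min_eq_left hy0
  rw [hmina] at hG2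
  -- the two domains
  obtain ⟨N0, hN0⟩ : ∃ N0 : Set (ℂ × ℂ), N0 = St (-a) y0 ×ˢ ball ρ r := ⟨_, rfl⟩
  obtain ⟨N1, hN1⟩ : ∃ N1 : Set (ℂ × ℂ), N1 = {p | p.2 ∈ ball ρ r ∧
    p.1 + (-(σ : ℂ)) * p.2 ∈ St (-(a / 2)) (min y0 y)} := ⟨_, rfl⟩
  have hN1mem : ∀ p, p ∈ N1 ↔ p.2 ∈ ball ρ r ∧ -(a / 2) < p.1.im - σ * p.2.im ∧
      p.1.im - σ * p.2.im < min y0 y := by
    intro p
    rw [hN1]
    simp only [mem_setOf_eq, mem_St, clb_im1]
  have hN0mem : ∀ p, p ∈ N0 ↔ (-a < p.1.im ∧ p.1.im < y0) ∧ p.2 ∈ ball ρ r := by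
    intro p
    rw [hN0]
    rfl
  have hO0 : IsOpen N0 := by
    rw [hN0]
    exact (isOpen_St _ _).prod isOpen_ball
  have hO1 : IsOpen N1 := by
    rw [hN1]
    have c1 : Continuous fun p : ℂ × ℂ => p.1 + (-(σ : ℂ)) * p.2 := by fun_prop
    exact (isOpen_ball.preimage continuous_snd).inter ((isOpen_St _ _).preimage c1)
  have hC0 : Convex ℝ N0 := by
    rw [hN0]
    exact (convex_St _ _).prod (convex_ball _ _)
  have hC1 : Convex ℝ N1 := by
    have e : N1 = (fun p : ℂ × ℂ => p.2) ⁻¹' ball ρ r ∩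
        (fun p : ℂ × ℂ => p.1 + (-(σ : ℂ)) * p.2) ⁻¹' St (-(a / 2)) (min y0 y) := by
      rw [hN1]
      rfl
    rw [e]
    refine Convex.inter ?_ ?_
    · exact (convex_ball _ _).is_linear_preimage (f := fun p : ℂ × ℂ => p.2)
        ⟨fun _ _ => rfl, fun _ _ => rfl⟩
    · refine (convex_St _ _).is_linear_preimage (f := fun p : ℂ × ℂ => p.1 + (-(σ : ℂ)) * p.2)
        ⟨fun u v => ?_, fun c u => ?_⟩
      · simp only [Prod.fst_add, Prod.snd_add]
        ring
      · simp only [Prod.smul_fst, Prod.smul_snd, Complex.real_smul]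
        ring
  have hM0 : Mer G N0 := by
    rw [hN0]
    exact hG1.mono (prod_mono_right hrδ')
  have hM1 : Mer (clbG σ G K) N1 := by
    intro p hp
    obtain ⟨hp2, hp3, hp4⟩ := (hN1mem p).1 hp
    obtain ⟨hz1, hz2⟩ := habs _ hp2
    have hp5 := lt_of_lt_of_le hp4 (min_le_left _ _)
    have hp6 := lt_of_lt_of_le hp4 (min_le_right _ _)
    refine clbG_mer (hG1 _ ⟨?_, hrδ' hp2⟩) (hK1 _ ⟨?_, hrδ hp2⟩) (hG1 _ ⟨?_, hrδ' hp2⟩)
    · rw [mem_St]
      simp only [clb_im1]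
      exact ⟨by linarith, hp5⟩
    · rw [mem_St]
      simp only [clb_im1]
      exact ⟨hp3, hp6⟩
    · rw [mem_St]
      simp only [clb_im2]
      exact ⟨by linarith, by linarith⟩
  -- the base point
  have hρr : ρ ∈ ball ρ r := mem_ball_self hr0
  obtain ⟨hρ1, hρ2⟩ := habs ρ hρr
  obtain ⟨p0, hp0⟩ : ∃ p0 : ℂ × ℂ, p0 = ((⟨0, σ * ρ.im - a / 4⟩ : ℂ), ρ) := ⟨_, rfl⟩
  have e0 : p0.1.im = σ * ρ.im - a / 4 := by rw [hp0]
  have e1 : p0.2 = ρ := by rw [hp0]
  have hp00 : p0 ∈ N0 := by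
    rw [hN0mem, e0, e1]
    exact ⟨⟨by linarith, by linarith⟩, hρr⟩
  have hp01 : p0 ∈ N1 := by
    rw [hN1mem, e0, e1]
    refine ⟨hρr, by linarith, lt_min (by linarith) (by linarith)⟩
  have hq0 : EqM G F p0 := by
    refine hG2 p0 ⟨?_, ?_⟩
    · rw [mem_St, e0]
      exact ⟨by linarith, by linarith⟩
    · rw [e1]
      exact hrδ' hρr
  have hq1 : EqM (clbG σ G K) F p0 := by
    have h1 : EqM (clbG σ G K) (clbG σ F (KF F)) p0 := by
      refine clbG_eqM (hG2 _ ⟨?_, ?_⟩) (hK2 _ ⟨?_, ?_⟩) (hG2 _ ⟨?_, ?_⟩)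
      · rw [mem_St]
        simp only [clb_im1, e0, e1]
        exact ⟨by linarith, by linarith⟩
      · simp only [e1]
        exact hrδ' hρr
      · rw [mem_St]
        simp only [clb_im1, e0, e1]
        exact ⟨by linarith, lt_min (by linarith) (by linarith)⟩
      · simp only [e1]
        exact hrδ hρr
      · rw [mem_St]
        simp only [clb_im2, e0, e1]
        exact ⟨by linarith, by linarith⟩
      · simp only [e1]
        exact hrδ' hρr
    rw [clbG_self hσ] at h1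
    exact h1
  have hov : ∀ q ∈ N0 ∩ N1, EqM G (clbG σ G K) q :=
    Mer.eqM (hC0.inter hC1).isPreconnected (hM0.mono inter_subset_left)
      (hM1.mono inter_subset_right) ⟨hp00, hp01⟩ (hq0.trans hq1.symm)
  -- gluing
  obtain ⟨H, hH1, hH2⟩ := exists_glue (fun i : Bool => cond i N0 N1)
    (by
      intro i
      cases i
      · exact hO1
      · exact hO0)
    (fun i : Bool => cond i G (clbG σ G K))
    (by
      intro i
      cases i
      · exact hM1
      · exact hM0)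
    (by
      intro i j q hq
      cases i
      · cases j
        · exact EqM.refl _ _
        · exact (hov q ⟨hq.2, hq.1⟩).symm
      · cases j
        · exact hov q hq
        · exact EqM.refl _ _)
  have hH3 : ∀ q ∈ N0, EqM H G q := fun q hq => hH2 true q hq
  refine extM_of_mer (F := H) (W := ball ρ r) isOpen_ball (hrδ.trans hδR) (hH1.mono ?_) ?_ hρr
  · rintro p ⟨⟨hp1, hp2⟩, hp3⟩
    rw [mem_iUnion]
    obtain ⟨hz1, hz2⟩ := habs _ hp3
    by_cases hc : p.1.im < y0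
    · exact ⟨true, (hN0mem p).2 ⟨⟨hp1, hc⟩, hp3⟩⟩
    · refine ⟨false, (hN1mem p).2 ⟨hp3, ?_, ?_⟩⟩
      · have := not_lt.1 hc
        linarith
      · have := (hd1 _ (hrd hp3)).1
        linarith
  · rintro p ⟨⟨hp1, hp2⟩, hp3⟩
    have hp4 := lt_of_lt_of_le hp2 (min_le_left _ _)
    exact (hH3 p ((hN0mem p).2 ⟨⟨hp1, hp4.trans_le hy0⟩, hp3⟩)).trans
      (hG2 p ⟨⟨hp1, hp4⟩, hrδ' hp3⟩)

private lemma clb_main (ha : 0 < a) (hR : R ≤ a / 4) (hF : Mer F (St (-a) a ×ˢ ball 0 R))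
    {σ : ℝ} (hσ : σ = 1 ∨ σ = -1) (hρ : 0 < σ * ρ.im) (h : ExtM (KF F) (a / 2) R y ρ)
    {y' : ℝ} (hy : y' < y + σ * ρ.im) : ExtM F a R y' ρ := by
  have hρR : ρ ∈ ball (0 : ℂ) R := by
    obtain ⟨δ, hδ, hδR, -⟩ := h
    exact hδR (mem_ball_self hδ)
  have hb := extM_base hF hρR
  by_cases hya : y' ≤ a
  · exact hb.mono hya
  have hya' := not_le.1 hya
  have h1 : σ * ρ.im < a / 4 := by
    have h1 := clb_im hR hρR
    have h2 : |σ * ρ.im| = |ρ.im| := by
      rcases hσ with rfl | rfl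
      · simp
      · simp
    rw [← h2] at h1
    exact (le_abs_self _).trans_lt h1
  have hy0 : 0 < y := by linarith
  obtain ⟨c, hc⟩ : ∃ c, c = σ * ρ.im := ⟨_, rfl⟩
  have key : ∀ n : ℕ, ExtM F a R (min (a + n * (c / 2)) y') ρ := by
    intro n
    induction n with
    | zero =>
      refine hb.mono ?_
      simp
    | succ n ih =>
      have hn : (0 : ℝ) ≤ n * (c / 2) := by
        have : (0 : ℝ) ≤ n := Nat.cast_nonneg n
        have hc0 : 0 ≤ c / 2 := by rw [hc]; linarith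
        exact mul_nonneg this hc0
      refine clb_step ha hR hF hσ hρ h hy0 (le_min (by linarith) hya'.le) ih ?_
      rw [← hc]
      have hc0 : 0 < c := by rw [hc]; exact hρ
      have h3 : min (a + ((n + 1 : ℕ) : ℝ) * (c / 2)) y' - c / 2 ≤ min (a + n * (c / 2)) y' := by
        refine le_min ?_ ?_
        · have := min_le_left (a + ((n + 1 : ℕ) : ℝ) * (c / 2)) y'
          push_cast at this ⊢
          linarith
        · have := min_le_right (a + ((n + 1 : ℕ) : ℝ) * (c / 2)) y'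
          linarith
      rcases le_total (min (a + n * (c / 2)) y') y with h4 | h4
      · rw [min_eq_left h4]
        linarith
      · rw [min_eq_right h4]
        have := min_le_right (a + ((n + 1 : ℕ) : ℝ) * (c / 2)) y'
        linarith
  obtain ⟨n, hn⟩ := exists_nat_gt ((y' - a) / (c / 2))
  have hc0 : 0 < c / 2 := by rw [hc]; linarith
  rw [div_lt_iff₀ hc0] at hn
  have h5 := key n
  rwa [min_eq_right (by linarith)] at h5

/-- from `K` to `F`, for parameters which are not real -/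
theorem extM_of_KF (ha : 0 < a) (hR : R ≤ a / 4) (hF : Mer F (St (-a) a ×ˢ ball 0 R))
    (hρ : ρ.im ≠ 0) (h : ExtM (KF F) (a / 2) R y ρ) {y' : ℝ} (hy : y' < y + |ρ.im|) :
    ExtM F a R y' ρ := by
  rcases lt_or_gt_of_ne hρ with h1 | h1
  · refine clb_main ha hR hF (σ := -1) (Or.inr rfl) (by linarith) h ?_
    rw [abs_of_neg h1] at hy
    linarith
  · refine clb_main ha hR hF (σ := 1) (Or.inl rfl) (by linarith) h ?_
    rw [abs_of_pos h1] at hy
    linarith

/-- from `K` to `F`, for real parameters -/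
theorem extM_of_KF_real (ha : 0 < a) (hR : R ≤ a / 4) (hF : Mer F (St (-a) a ×ˢ ball 0 R))
    (hρ : ρ.im = 0) (h : ExtM (KF F) (a / 2) R y ρ) {y' : ℝ} (hy : y' < y) :
    ExtM F a R y' ρ := by
  have hρR : ρ ∈ ball (0 : ℂ) R := by
    obtain ⟨δ, hδ, hδR, -⟩ := h
    exact hδR (mem_ball_self hδ)
  by_cases hya : y ≤ a
  · exact (extM_base hF hρR).mono (hy.le.trans hya)
  have hya' := not_le.1 hya
  obtain ⟨r, hr, hr1⟩ := Metric.eventually_nhds_iff_ball.1 (h.eventually.and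
    (isOpen_ball.mem_nhds hρR))
  have hH := supH_hgt ha hF hya'.le
  obtain ⟨s, hs⟩ : ∃ s, s = r / 2 := ⟨_, rfl⟩
  have hs0 : 0 < s := by rw [hs]; exact half_pos hr
  have hsr : closedBall ρ s ⊆ ball ρ r := closedBall_subset_ball (by rw [hs]; linarith)
  have hle : ∀ e : ℝ, 0 < e → Real.circleAverage
      (fun z : ℂ => min y (a + (y - a) * |z.im| / e)) ρ s ≤ hgt F a R y ρ := by
    intro e he
    refine hH.mean ρ s hs0 (fun z hz => (hr1 z (hsr hz)).2) _ (by fun_prop) ?_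
    intro z hz
    obtain ⟨hz1, hz2⟩ := hr1 z (hsr (sphere_subset_closedBall hz))
    by_cases hzi : z.im = 0
    · rw [hzi]
      simp only [abs_zero, mul_zero, zero_div, add_zero]
      rw [min_eq_right hya'.le]
      exact le_hgt hF hya'.le hz2
    · refine (min_le_left _ _).trans (le_hgt_of_extM ?_ le_rfl)
      exact extM_of_KF ha hR hF hzi hz1 (by linarith [abs_pos.2 hzi])
  -- the averages tend to `y`
  have hlim : Tendsto (fun n : ℕ => Real.circleAverage
      (fun z : ℂ => min y (a + (y - a) * |z.im| / (1 / ((n : ℝ) + 1)))) ρ s) atTop (𝓝 y) := by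
    have e1 : ∀ n : ℕ, Real.circleAverage
        (fun z : ℂ => min y (a + (y - a) * |z.im| / (1 / ((n : ℝ) + 1)))) ρ s =
        (2 * Real.pi)⁻¹ * ∫ θ in (0 : ℝ)..2 * Real.pi,
          min y (a + (y - a) * |s * Real.sin θ| * ((n : ℝ) + 1)) := by
      intro n
      rw [Real.circleAverage_def, smul_eq_mul]
      congr 1
      refine intervalIntegral.integral_congr fun θ _ => ?_
      have e2 : (circleMap ρ s θ).im = s * Real.sin θ := by
        rw [circleMap, add_im, hρ, zero_add, Complex.exp_mul_I]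
        simp [← Complex.ofReal_cos, ← Complex.ofReal_sin]
      simp only [e2]
      rw [div_div_eq_mul_div, div_one]
    have e3 : y = (2 * Real.pi)⁻¹ * ∫ θ in (0 : ℝ)..2 * Real.pi, y := by
      rw [intervalIntegral.integral_const, smul_eq_mul, sub_zero]
      have : (2 * Real.pi) ≠ 0 := by positivity
      field_simp
    simp only [e1]
    conv_rhs => rw [e3]
    refine Tendsto.const_mul _ ?_
    refine intervalIntegral.tendsto_integral_filter_of_dominated_convergence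
      (fun _ => |y| + |a|) ?_ ?_ ?_ ?_
    · refine Eventually.of_forall fun n => ?_
      refine Continuous.aestronglyMeasurable ?_
      fun_prop
    · refine Eventually.of_forall fun n => Eventually.of_forall fun θ _ => ?_
      have hx : 0 ≤ (y - a) * |s * Real.sin θ| * ((n : ℝ) + 1) := by
        have : 0 ≤ y - a := by linarith
        positivity
      rw [Real.norm_eq_abs, abs_le]
      have hya0 := neg_abs_le a
      have hyy := le_abs_self y
      have hyy' := neg_abs_le y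
      have ha' := abs_nonneg a
      have hy'' := abs_nonneg y
      constructor
      · refine le_min (by linarith) (by linarith)
      · exact (min_le_left _ _).trans (by linarith)
    · exact intervalIntegrable_const
    · have hcount : ({θ : ℝ | Real.sin θ = 0}).Countable := by
        have : {θ : ℝ | Real.sin θ = 0} ⊆ range fun n : ℤ => (n : ℝ) * Real.pi := by
          intro θ hθ
          obtain ⟨n, hn⟩ := Real.sin_eq_zero_iff.1 hθ
          exact ⟨n, hn⟩
        exact (countable_range _).mono this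
      have hae : ∀ᵐ θ : ℝ, θ ∉ {θ : ℝ | Real.sin θ = 0} :=
        MeasureTheory.measure_eq_zero_iff_ae_notMem.1 (hcount.measure_zero _)
      filter_upwards [hae] with θ hθ _
      have hθ' : Real.sin θ ≠ 0 := hθ
      have hpos : 0 < (y - a) * |s * Real.sin θ| := by
        refine mul_pos (by linarith) (abs_pos.2 (mul_ne_zero hs0.ne' hθ'))
      refine tendsto_const_nhds.congr' ?_
      obtain ⟨N, hN⟩ := exists_nat_gt ((y - a) / ((y - a) * |s * Real.sin θ|))
      filter_upwards [eventually_ge_atTop N] with n hn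
      rw [min_eq_left]
      rw [div_lt_iff₀ hpos] at hN
      have h6 : (N : ℝ) ≤ n := by exact_mod_cast hn
      nlinarith
  obtain ⟨n, hn⟩ := (hlim.eventually (lt_mem_nhds hy)).exists
  have h7 := hle (1 / ((n : ℝ) + 1)) (by positivity)
  exact extM_of_lt hρR (hn.trans_le h7)

end Pool.Agent.MP_ae5b4e_an_NBT
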