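import Mathlib
import Pool.Agent.Lib.MP_ae5b4e_an_NBT.Vert

/-!
# MP_ae5b4e_an, project NB tools: slices `ρ = const` of meromorphic functions of `(t, ρ)`
-/

noncomputable section

namespace Pool.Agent.MP_ae5b4e_an_NBT

open Complex Set Filter Topology Metric

/-- near `p` the function `f` is a quotient whose denominator does not vanish identically on the
line `ρ = p.2` -/
def SlAt (f : ℂ × ℂ → ℂ) (p : ℂ × ℂ) : Prop :=
  ∃ A B : ℂ × ℂ → ℂ, AnalyticAt ℂ A p ∧ AnalyticAt ℂ B p ∧ (¬ ∀ᶠ t in 𝓝 p.1, B (t, p.2) = 0) ∧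
    EqM f (fun q => A q / B q) p

/-- the slice `ρ = const` (`0` where `f` has no analytic germ) -/
def sl (f : ℂ × ℂ → ℂ) (ρ t : ℂ) : ℂ := nfM f (t, ρ)

/-- the partial derivative in `t` -/
def dtM (f : ℂ × ℂ → ℂ) (q : ℂ × ℂ) : ℂ := deriv (fun s => nfM f (s, q.2)) q.1

variable {f g : ℂ × ℂ → ℂ} {p : ℂ × ℂ} {t ρ : ℂ}

/-! ### Auxiliary lemmas -/

private lemma tendsto_line (t ρ : ℂ) : Tendsto (fun s : ℂ => (s, ρ)) (𝓝 t) (𝓝 (t, ρ)) := by
  have : Continuous (fun s : ℂ => (s, ρ)) := by fun_prop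
  exact this.tendsto t

private lemma an_line {B : ℂ × ℂ → ℂ} {t ρ : ℂ} (hB : AnalyticAt ℂ B (t, ρ)) :
    AnalyticAt ℂ (fun s : ℂ => B (s, ρ)) t :=
  AnalyticAt.fun_comp (g := B) (f := fun s : ℂ => (s, ρ)) hB (analyticAt_id.prod analyticAt_const)

private lemma den_of_line {B : ℂ × ℂ → ℂ} {t ρ : ℂ} (hB : AnalyticAt ℂ B (t, ρ))
    (h0 : ¬ ∀ᶠ s in 𝓝 t, B (s, ρ) = 0) : Den B (t, ρ) :=
  ⟨hB, fun h => h0 ((tendsto_line t ρ).eventually h)⟩

private lemma line_ne {B : ℂ × ℂ → ℂ} {t ρ : ℂ} (hB : AnalyticAt ℂ B (t, ρ))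
    (h0 : ¬ ∀ᶠ s in 𝓝 t, B (s, ρ) = 0) : ∀ᶠ s in 𝓝[≠] t, B (s, ρ) ≠ 0 :=
  (an_line hB).eventually_eq_zero_or_eventually_ne_zero.resolve_left h0

private lemma not_line_of_punct {B : ℂ × ℂ → ℂ} {t ρ : ℂ}
    (h0 : ∀ᶠ s in 𝓝[≠] t, B (s, ρ) ≠ 0) : ¬ ∀ᶠ s in 𝓝 t, B (s, ρ) = 0 := by
  intro h
  obtain ⟨s, hs1, hs2⟩ := (h0.and (h.filter_mono nhdsWithin_le_nhds)).exists
  exact hs1 hs2

private lemma line_mul {B C : ℂ × ℂ → ℂ} {t ρ : ℂ} (hB : AnalyticAt ℂ B (t, ρ))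
    (hC : AnalyticAt ℂ C (t, ρ)) (h0 : ¬ ∀ᶠ s in 𝓝 t, B (s, ρ) = 0)
    (h1 : ¬ ∀ᶠ s in 𝓝 t, C (s, ρ) = 0) : ¬ ∀ᶠ s in 𝓝 t, B (s, ρ) * C (s, ρ) = 0 := by
  have h2 : ∀ᶠ s in 𝓝[≠] t, (fun q => B q * C q) (s, ρ) ≠ 0 := by
    filter_upwards [line_ne hB h0, line_ne hC h1] with s hs1 hs2
    exact mul_ne_zero hs1 hs2
  exact not_line_of_punct (B := fun q => B q * C q) h2

private lemma nfM_congr {q : ℂ × ℂ} (h : EqM f g q) : nfM f q = nfM g q := by
  by_cases h1 : ∃ C : ℂ × ℂ → ℂ, AnalyticAt ℂ C q ∧ EqM g C q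
  · obtain ⟨C, hC, hgC⟩ := h1
    rw [nfM_eq hC hgC, nfM_eq hC (h.trans hgC)]
  · have h2 : ¬ ∃ C : ℂ × ℂ → ℂ, AnalyticAt ℂ C q ∧ EqM f C q := by
      rintro ⟨C, hC, hfC⟩
      exact h1 ⟨C, hC, h.symm.trans hfC⟩
    unfold nfM
    rw [dif_neg h1, dif_neg h2]

/-- near `q` the normal form is the analytic germ -/
private lemma nfM_eventuallyEq {C : ℂ × ℂ → ℂ} {q : ℂ × ℂ} (hC : AnalyticAt ℂ C q)
    (h : EqM f C q) : ∀ᶠ x in 𝓝 q, nfM f x = C x := by
  filter_upwards [hC.eventually_analyticAt, h.eventually] with x h1 h2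
  exact nfM_eq h1 h2

/-- the quotient as a germ at the points where the denominator does not vanish -/
private lemma germ_div {A B : ℂ × ℂ → ℂ} {q : ℂ × ℂ} (hA : AnalyticAt ℂ A q)
    (hB : AnalyticAt ℂ B q) (hfe : EqM f (fun q => A q / B q) q) :
    ∀ᶠ x in 𝓝 q, B x ≠ 0 → AnalyticAt ℂ (fun y => A y / B y) x ∧
      EqM f (fun y => A y / B y) x := by
  filter_upwards [hA.eventually_analyticAt, hB.eventually_analyticAt, hfe.eventually]
    with x h1 h2 h3 h4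
  exact ⟨h1.div h2 h4, h3⟩

private lemma sl_eq_div {A B : ℂ × ℂ → ℂ} (hA : AnalyticAt ℂ A (t, ρ))
    (hB : AnalyticAt ℂ B (t, ρ)) (h0 : ¬ ∀ᶠ s in 𝓝 t, B (s, ρ) = 0)
    (hfe : EqM f (fun q => A q / B q) (t, ρ)) :
    ∀ᶠ s in 𝓝[≠] t, B (s, ρ) ≠ 0 ∧ sl f ρ s = A (s, ρ) / B (s, ρ) := by
  filter_upwards [line_ne hB h0,
    ((tendsto_line t ρ).eventually (germ_div hA hB hfe)).filter_mono nhdsWithin_le_nhds]
    with s h1 h2
  refine ⟨h1, ?_⟩
  exact nfM_eq (h2 h1).1 (h2 h1).2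

/-- `den_factor` with the coordinates exchanged -/
private lemma den_factor_swap {B : ℂ × ℂ → ℂ} {t₀ ρ : ℂ} (h : Den B (t₀, ρ)) :
    ∃ (k : ℕ) (B' : ℂ × ℂ → ℂ), AnalyticAt ℂ B' (t₀, ρ) ∧
      (¬ ∀ᶠ t in 𝓝 t₀, B' (t, ρ) = 0) ∧
      ∀ᶠ q in 𝓝 (t₀, ρ), B q = (q.2 - ρ) ^ k * B' q := by
  have hsw : ∀ q : ℂ × ℂ, AnalyticAt ℂ (Homeomorph.prodComm ℂ ℂ) q := by
    intro q
    change AnalyticAt ℂ (fun p : ℂ × ℂ => (p.2, p.1)) q
    exact analyticAt_snd.prod analyticAt_fst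
  have h1 : Den (fun q => B ((Homeomorph.prodComm ℂ ℂ) q)) (ρ, t₀) :=
    Den.comp (Homeomorph.prodComm ℂ ℂ) (hsw _) h
  obtain ⟨k, B', hB', hB0, hBe⟩ := den_factor h1
  refine ⟨k, fun q => B' (q.2, q.1), ?_, hB0, ?_⟩
  · exact AnalyticAt.fun_comp (g := B') (f := fun q : ℂ × ℂ => (q.2, q.1)) hB'
      (analyticAt_snd.prod analyticAt_fst)
  · have ht : Tendsto (fun q : ℂ × ℂ => (q.2, q.1)) (𝓝 (t₀, ρ)) (𝓝 (ρ, t₀)) := by
      have : Continuous (fun q : ℂ × ℂ => (q.2, q.1)) := by fun_prop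
      exact this.tendsto _
    filter_upwards [ht.eventually hBe] with q hq
    exact hq

/-! ### Slices -/

theorem SlAt.merAt (h : SlAt f p) : MerAt f p := by
  obtain ⟨A, B, hA, hB, h0, hfe⟩ := h
  have hD : Den B p := den_of_line (t := p.1) (ρ := p.2) hB h0
  have h1 : MerAt (fun q => A q / B q) p := ⟨A, B, hA, hD, Eventually.of_forall fun _ _ => rfl⟩
  exact h1.congr hfe.symm

theorem SlAt.congr (h : SlAt f p) (hfg : EqM f g p) : SlAt g p := by
  obtain ⟨A, B, hA, hB, h0, hfe⟩ := h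
  exact ⟨A, B, hA, hB, h0, hfg.symm.trans hfe⟩

theorem slAt_of_analyticAt (h : AnalyticAt ℂ f p) : SlAt f p := by
  refine ⟨f, fun _ => 1, h, analyticAt_const, fun h1 => one_ne_zero h1.self_of_nhds, ?_⟩
  apply EqM.of_eventuallyEq
  exact Eventually.of_forall fun q => (div_one (f q)).symm

private lemma isOpen_slAt (f : ℂ × ℂ → ℂ) (ρ : ℂ) : IsOpen {t : ℂ | SlAt f (t, ρ)} := by
  rw [isOpen_iff_mem_nhds]
  rintro t ⟨A, B, hA, hB, h0, hfe⟩
  have h1 : ∀ᶠ s in 𝓝 t, ¬ ∀ᶠ x in 𝓝 s, B (x, ρ) = 0 := by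
    have h2 := line_ne hB h0
    rw [eventually_nhdsWithin_iff] at h2
    filter_upwards [h2.eventually_nhds] with s hs h3
    have h4 : ∀ᶠ x in 𝓝[≠] s, x ≠ t := by
      by_cases hst : s = t
      · subst hst
        exact self_mem_nhdsWithin
      · exact (eventually_ne_nhds hst).filter_mono nhdsWithin_le_nhds
    obtain ⟨x, hx1, hx2, hx3⟩ := (h4.and ((hs.and h3).filter_mono nhdsWithin_le_nhds)).exists
    exact hx2 hx1 hx3
  filter_upwards [h1, (tendsto_line t ρ).eventually hA.eventually_analyticAt,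
    (tendsto_line t ρ).eventually hB.eventually_analyticAt,
    (tendsto_line t ρ).eventually hfe.eventually] with s h2 h3 h4 h5
  exact ⟨A, B, h3, h4, h2, h5⟩

/-- having a slice propagates along the line -/
theorem slAt_of_mer {V : Set ℂ} (hVc : IsPreconnected V) (hf : ∀ t ∈ V, MerAt f (t, ρ))
    {t₁ : ℂ} (ht₁ : t₁ ∈ V) (h1 : SlAt f (t₁, ρ)) : ∀ t ∈ V, SlAt f (t, ρ) := by
  have hcl : closure {t : ℂ | SlAt f (t, ρ)} ∩ V ⊆ {t : ℂ | SlAt f (t, ρ)} := by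
    rintro t₀ ⟨hcl, htV⟩
    show SlAt f (t₀, ρ)
    obtain ⟨A, B, hA, hB, hfe⟩ := hf t₀ htV
    by_cases hA0 : ∀ᶠ q in 𝓝 (t₀, ρ), A q = 0
    · have h2 : SlAt (fun _ => (0 : ℂ)) (t₀, ρ) := slAt_of_analyticAt analyticAt_const
      refine h2.congr (EqM.symm ⟨B, hB, ?_⟩)
      filter_upwards [hfe, hA0] with q h3 h4 h5
      rw [h3 h5, h4, zero_div]
    · obtain ⟨j, A', hA', hA'0, hAe⟩ := den_factor_swap (B := A) ⟨hA, hA0⟩
      obtain ⟨k, B', hB', hB'0, hBe⟩ := den_factor_swap hB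
      have hEq : EqM f (fun q => A q / B q) (t₀, ρ) := ⟨B, hB, hfe⟩
      by_cases hjk : k ≤ j
      · refine ⟨fun q => (q.2 - ρ) ^ (j - k) * A' q, B', ?_, hB', hB'0, hEq.trans ⟨B, hB, ?_⟩⟩
        · exact ((analyticAt_snd.sub analyticAt_const).pow _).mul hA'
        · filter_upwards [hAe, hBe] with q h3 h4 h5
          have h6 : (q.2 - ρ) ^ k ≠ 0 := by
            intro h7
            exact h5 (by rw [h4, h7, zero_mul])
          have h7 : B' q ≠ 0 := by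
            intro h8
            exact h5 (by rw [h4, h8, mul_zero])
          show A q / B q = (q.2 - ρ) ^ (j - k) * A' q / B' q
          rw [h3, h4]
          have h8 : (q.2 - ρ) ^ j = (q.2 - ρ) ^ k * (q.2 - ρ) ^ (j - k) := by
            rw [← pow_add]
            congr 1
            omega
          rw [h8]
          field_simp
      · exfalso
        push Not at hjk
        -- a nearby point with a slice
        have hev : ∀ᶠ s in 𝓝 t₀, (AnalyticAt ℂ A' (s, ρ) ∧ AnalyticAt ℂ B' (s, ρ)) ∧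
            (∀ᶠ q in 𝓝 (s, ρ), A q = (q.2 - ρ) ^ j * A' q) ∧
            (∀ᶠ q in 𝓝 (s, ρ), B q = (q.2 - ρ) ^ k * B' q) ∧
            Den B (s, ρ) ∧ EqM f (fun q => A q / B q) (s, ρ) := by
          filter_upwards [(tendsto_line t₀ ρ).eventually hA'.eventually_analyticAt,
            (tendsto_line t₀ ρ).eventually hB'.eventually_analyticAt,
            (tendsto_line t₀ ρ).eventually hAe.eventually_nhds,
            (tendsto_line t₀ ρ).eventually hBe.eventually_nhds,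
            (tendsto_line t₀ ρ).eventually hB.eventually,
            (tendsto_line t₀ ρ).eventually hEq.eventually] with s h1 h2 h3 h4 h5 h6
          exact ⟨⟨h1, h2⟩, h3, h4, h5, h6⟩
        have hA'ne := line_ne hA' hA'0
        rw [eventually_nhdsWithin_iff] at hA'ne
        have hev2 : ∀ᶠ s in 𝓝 t₀, ∀ᶠ x in 𝓝 s, x ∈ ({t₀}ᶜ : Set ℂ) → A' (x, ρ) ≠ 0 :=
          hA'ne.eventually_nhds
        obtain ⟨s, hs, hs1, hs2⟩ :=
          ((mem_closure_iff_frequently.1 hcl).and_eventually (hev.and hev2)).exists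
        obtain ⟨A₁, B₁, hA₁, hB₁, hB₁0, hfe₁⟩ := hs
        obtain ⟨⟨hA's, hB's⟩, hAs, hBs, hBd, hEs⟩ := hs1
        -- the identity of analytic functions
        have hE1 : EqM (fun q => A q / B q) (fun q => A₁ q / B₁ q) (s, ρ) := hEs.symm.trans hfe₁
        obtain ⟨D, hD, hDe⟩ := hE1
        have hB₁d : Den B₁ (s, ρ) := den_of_line hB₁ hB₁0
        have hE2 : EqM (fun q => A' q * B₁ q) (fun q => A₁ q * ((q.2 - ρ) ^ (k - j) * B' q))
            (s, ρ) := by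
          refine ⟨_, (hD.mul hBd).mul hB₁d, ?_⟩
          filter_upwards [hDe, hAs, hBs] with q h3 h4 h5 h6
          have hD0 : D q ≠ 0 := left_ne_zero_of_mul (left_ne_zero_of_mul h6)
          have hBq : B q ≠ 0 := right_ne_zero_of_mul (left_ne_zero_of_mul h6)
          have hB1q : B₁ q ≠ 0 := right_ne_zero_of_mul h6
          have h7 := h3 hD0
          have h8 : A q * B₁ q = A₁ q * B q := by
            field_simp at h7
            linear_combination h7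
          have h9 : (q.2 - ρ) ^ k ≠ 0 := by
            intro h10
            exact hBq (by rw [h5, h10, zero_mul])
          have h10 : (q.2 - ρ) ^ k = (q.2 - ρ) ^ j * (q.2 - ρ) ^ (k - j) := by
            rw [← pow_add]
            congr 1
            omega
          have h11 : (q.2 - ρ) ^ j ≠ 0 := by
            intro h12
            exact h9 (by rw [h10, h12, zero_mul])
          rw [h4, h5, h10] at h8
          apply mul_left_cancel₀ h11
          linear_combination h8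
        have hE3 := hE2.eventuallyEq (hA's.mul hB₁)
          (hA₁.mul (((analyticAt_snd.sub analyticAt_const).pow _).mul hB's))
        have hE4 : ∀ᶠ x in 𝓝 s, A' (x, ρ) * B₁ (x, ρ) = 0 := by
          filter_upwards [(tendsto_line s ρ).eventually hE3] with x hx
          have hx' : A' (x, ρ) * B₁ (x, ρ) = A₁ (x, ρ) * ((ρ - ρ) ^ (k - j) * B' (x, ρ)) := hx
          rw [hx', sub_self, zero_pow (by omega), zero_mul, mul_zero]
        have hB1ne := line_ne hB₁ hB₁0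
        have h4 : ∀ᶠ x in 𝓝[≠] s, x ≠ t₀ := by
          by_cases hst : s = t₀
          · subst hst
            exact self_mem_nhdsWithin
          · exact (eventually_ne_nhds hst).filter_mono nhdsWithin_le_nhds
        obtain ⟨x, hx1, hx2, hx3, hx4⟩ := (hB1ne.and (h4.and
          ((hs2.and hE4).filter_mono nhdsWithin_le_nhds))).exists
        exact mul_ne_zero (hx3 hx2) hx1 hx4
  exact fun t ht => hVc.subset_of_closure_inter_subset (isOpen_slAt f ρ) ⟨t₁, ht₁, h1⟩ hcl ht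

/-- off a discrete set the function has an analytic germ at the points of the line -/
theorem SlAt.germ (h : SlAt f (t, ρ)) :
    ∀ᶠ s in 𝓝[≠] t, ∃ C : ℂ × ℂ → ℂ, AnalyticAt ℂ C (s, ρ) ∧ EqM f C (s, ρ) := by
  obtain ⟨A, B, hA, hB, h0, hfe⟩ := h
  filter_upwards [line_ne hB h0,
    ((tendsto_line t ρ).eventually (germ_div hA hB hfe)).filter_mono nhdsWithin_le_nhds]
    with s h1 h2
  exact ⟨_, (h2 h1).1, (h2 h1).2⟩

private lemma sl_eventuallyEq {C : ℂ × ℂ → ℂ} {s : ℂ} (hC : AnalyticAt ℂ C (s, ρ))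
    (h : EqM f C (s, ρ)) : sl f ρ =ᶠ[𝓝 s] fun x => C (x, ρ) := by
  filter_upwards [(tendsto_line s ρ).eventually (nfM_eventuallyEq hC h)] with x hx
  exact hx

theorem SlAt.analyticAt_sl (h : SlAt f (t, ρ)) : ∀ᶠ s in 𝓝[≠] t, AnalyticAt ℂ (sl f ρ) s := by
  filter_upwards [h.germ] with s hs
  obtain ⟨C, hC, hfC⟩ := hs
  exact (an_line hC).congr (sl_eventuallyEq hC hfC).symm

/-- the slice is meromorphic -/
theorem SlAt.meromorphicAt (h : SlAt f (t, ρ)) : MeromorphicAt (sl f ρ) t := by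
  obtain ⟨A, B, hA, hB, h0, hfe⟩ := h
  have h1 : MeromorphicAt (fun s => A (s, ρ) / B (s, ρ)) t :=
    (an_line hA).meromorphicAt.div (an_line hB).meromorphicAt
  refine h1.congr ?_
  filter_upwards [sl_eq_div hA hB h0 hfe] with s hs
  exact hs.2.symm

/-- the slice at a point where the function is analytic -/
theorem sl_of_analyticAt (h : AnalyticAt ℂ f (t, ρ)) : sl f ρ t = f (t, ρ) :=
  nfM_eq h (EqM.refl f _)

/-- slices of functions which are equal -/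
theorem sl_congr (h : EqM f g (t, ρ)) : ∀ᶠ s in 𝓝 t, sl f ρ s = sl g ρ s := by
  filter_upwards [(tendsto_line t ρ).eventually h.eventually] with s hs
  exact nfM_congr hs

theorem SlAt.add (hf : SlAt f (t, ρ)) (hg : SlAt g (t, ρ)) :
    SlAt (fun q => f q + g q) (t, ρ) ∧
      ∀ᶠ s in 𝓝[≠] t, sl (fun q => f q + g q) ρ s = sl f ρ s + sl g ρ s := by
  constructor
  · obtain ⟨A, B, hA, hB, h0, hfe⟩ := hf
    obtain ⟨C, D, hC, hD, h1, hge⟩ := hg
    have hBd : Den B (t, ρ) := den_of_line hB h0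
    have hDd : Den D (t, ρ) := den_of_line hD h1
    refine ⟨fun q => A q * D q + C q * B q, fun q => B q * D q, (hA.mul hD).add (hC.mul hB),
      hB.mul hD, line_mul hB hD h0 h1, ?_⟩
    refine (EqM.map₂ (fun x y => x + y) hfe hge).trans ⟨_, hBd.mul hDd, ?_⟩
    refine Eventually.of_forall fun q hq => ?_
    have hB0 := left_ne_zero_of_mul hq
    have hD0 := right_ne_zero_of_mul hq
    show A q / B q + C q / D q = (A q * D q + C q * B q) / (B q * D q)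
    field_simp
  · filter_upwards [hf.germ, hg.germ] with s h1 h2
    obtain ⟨C, hC, hfC⟩ := h1
    obtain ⟨D, hD, hgD⟩ := h2
    have h3 : sl f ρ s = C (s, ρ) := nfM_eq hC hfC
    have h4 : sl g ρ s = D (s, ρ) := nfM_eq hD hgD
    rw [h3, h4]
    exact nfM_eq (hC.add hD) (EqM.map₂ (fun x y => x + y) hfC hgD)

theorem SlAt.mul (hf : SlAt f (t, ρ)) (hg : SlAt g (t, ρ)) :
    SlAt (fun q => f q * g q) (t, ρ) ∧
      ∀ᶠ s in 𝓝[≠] t, sl (fun q => f q * g q) ρ s = sl f ρ s * sl g ρ s := by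
  constructor
  · obtain ⟨A, B, hA, hB, h0, hfe⟩ := hf
    obtain ⟨C, D, hC, hD, h1, hge⟩ := hg
    refine ⟨fun q => A q * C q, fun q => B q * D q, hA.mul hC,
      hB.mul hD, line_mul hB hD h0 h1, ?_⟩
    refine (EqM.map₂ (fun x y => x * y) hfe hge).trans (EqM.of_eventuallyEq ?_)
    refine Eventually.of_forall fun q => ?_
    show A q / B q * (C q / D q) = (A q * C q) / (B q * D q)
    exact div_mul_div_comm _ _ _ _
  · filter_upwards [hf.germ, hg.germ] with s h1 h2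
    obtain ⟨C, hC, hfC⟩ := h1
    obtain ⟨D, hD, hgD⟩ := h2
    have h3 : sl f ρ s = C (s, ρ) := nfM_eq hC hfC
    have h4 : sl g ρ s = D (s, ρ) := nfM_eq hD hgD
    rw [h3, h4]
    exact nfM_eq (hC.mul hD) (EqM.map₂ (fun x y => x * y) hfC hgD)

theorem SlAt.inv (hf : SlAt f (t, ρ)) (h0 : ¬ ∀ᶠ s in 𝓝[≠] t, sl f ρ s = 0) :
    SlAt (fun q => (f q)⁻¹) (t, ρ) ∧
      ∀ᶠ s in 𝓝[≠] t, sl (fun q => (f q)⁻¹) ρ s = (sl f ρ s)⁻¹ := by
  obtain ⟨A, B, hA, hB, hB0, hfe⟩ := hf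
  have hA0 : ¬ ∀ᶠ s in 𝓝 t, A (s, ρ) = 0 := by
    intro h1
    apply h0
    filter_upwards [sl_eq_div hA hB hB0 hfe, h1.filter_mono nhdsWithin_le_nhds] with s h2 h3
    rw [h2.2, h3, zero_div]
  have hinv : EqM (fun q => (f q)⁻¹) (fun q => B q / A q) (t, ρ) := by
    refine (EqM.map (fun x => x⁻¹) hfe).trans (EqM.of_eventuallyEq ?_)
    exact Eventually.of_forall fun q => inv_div _ _
  refine ⟨⟨B, A, hB, hA, hA0, hinv⟩, ?_⟩
  filter_upwards [sl_eq_div hA hB hB0 hfe, sl_eq_div hB hA hA0 hinv] with s h1 h2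
  rw [h1.2, h2.2, inv_div]

/-! ### The derivative in `t` -/

private lemma deriv_line {C : ℂ × ℂ → ℂ} {q : ℂ × ℂ} (hC : AnalyticAt ℂ C q) :
    deriv (fun s => C (s, q.2)) q.1 = fderiv ℂ C q (1, 0) := by
  have h1 : HasFDerivAt C (fderiv ℂ C q) q := hC.differentiableAt.hasFDerivAt
  have h2 : HasDerivAt (fun s : ℂ => (s, q.2)) ((1 : ℂ), (0 : ℂ)) q.1 :=
    (hasDerivAt_id q.1).prodMk (hasDerivAt_const q.1 q.2)
  have h3 : HasDerivAt (fun s : ℂ => C (s, q.2)) (fderiv ℂ C q (1, 0)) q.1 :=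
    HasFDerivAt.comp_hasDerivAt q.1 (f := fun s : ℂ => (s, q.2)) (l := C) h1 h2
  exact h3.deriv

private lemma dtM_eq {C : ℂ × ℂ → ℂ} {q : ℂ × ℂ} (hC : AnalyticAt ℂ C q) (h : EqM f C q) :
    MP_ae5b4e_an_NBT.dtM f q = fderiv ℂ C q (1, 0) := by
  have h1 : (fun s => nfM f (s, q.2)) =ᶠ[𝓝 q.1] fun s => C (s, q.2) :=
    (tendsto_line q.1 q.2).eventually (nfM_eventuallyEq (q := (q.1, q.2)) hC h)
  show deriv (fun s => nfM f (s, q.2)) q.1 = _
  rw [h1.deriv_eq, deriv_line hC]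

private lemma an_dt {C : ℂ × ℂ → ℂ} {q : ℂ × ℂ} (hC : AnalyticAt ℂ C q) :
    AnalyticAt ℂ (fun x => fderiv ℂ C x (1, 0)) q :=
  ((ContinuousLinearMap.apply ℂ ℂ ((1 : ℂ), (0 : ℂ))).analyticAt (fderiv ℂ C q)).comp hC.fderiv

private lemma fderiv_quot {A B : ℂ × ℂ → ℂ} {q : ℂ × ℂ} (hA : AnalyticAt ℂ A q)
    (hB : AnalyticAt ℂ B q) (h0 : B q ≠ 0) :
    fderiv ℂ (fun y => A y / B y) q (1, 0) =
      (fderiv ℂ A q (1, 0) * B q - A q * fderiv ℂ B q (1, 0)) / (B q * B q) := by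
  have hq : AnalyticAt ℂ (fun y => A y / B y) q := hA.div hB h0
  rw [← deriv_line hq, ← deriv_line hA, ← deriv_line hB]
  have h1 : DifferentiableAt ℂ (fun s => A (s, q.2)) q.1 :=
    (an_line (t := q.1) (ρ := q.2) hA).differentiableAt
  have h2 : DifferentiableAt ℂ (fun s => B (s, q.2)) q.1 :=
    (an_line (t := q.1) (ρ := q.2) hB).differentiableAt
  have h3 := (h1.hasDerivAt.div h2.hasDerivAt h0).deriv
  have h4 : deriv (fun s => A (s, q.2) / B (s, q.2)) q.1 =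
      (deriv (fun s => A (s, q.2)) q.1 * B (q.1, q.2) -
        A (q.1, q.2) * deriv (fun s => B (s, q.2)) q.1) / B (q.1, q.2) ^ 2 := h3
  rw [h4, pow_two]

/-- the formula for the derivative, off the zeros of the denominator -/
private lemma eqM_dtM {A B : ℂ × ℂ → ℂ} (hA : AnalyticAt ℂ A p) (hB : Den B p)
    (hfe : EqM f (fun q => A q / B q) p) :
    EqM (MP_ae5b4e_an_NBT.dtM f)
      (fun q => (fderiv ℂ A q (1, 0) * B q - A q * fderiv ℂ B q (1, 0)) / (B q * B q)) p := by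
  refine ⟨B, hB, ?_⟩
  filter_upwards [germ_div hA hB.an hfe, hA.eventually_analyticAt, hB.an.eventually_analyticAt]
    with q h1 h2 h3 h4
  rw [dtM_eq (h1 h4).1 (h1 h4).2, fderiv_quot h2 h3 h4]

/-- the `t`-derivative of a meromorphic function -/
theorem MerAt.dtM (hf : MerAt f p) : MerAt (dtM f) p := by
  obtain ⟨A, B, hA, hB, h⟩ := hf
  have h1 := eqM_dtM (f := f) hA hB ⟨B, hB, h⟩
  refine MerAt.congr (f := fun q => (fderiv ℂ A q (1, 0) * B q - A q * fderiv ℂ B q (1, 0)) /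
    (B q * B q)) ?_ h1.symm
  exact ⟨_, _, ((an_dt hA).mul hB.an).sub (hA.mul (an_dt hB.an)), hB.mul hB,
    Eventually.of_forall fun _ _ => rfl⟩

theorem EqM.dtM (hf : MerAt f p) (h : EqM f g p) :
    EqM (MP_ae5b4e_an_NBT.dtM f) (MP_ae5b4e_an_NBT.dtM g) p := by
  apply EqM.of_eventuallyEq
  filter_upwards [h.eventually.eventually_nhds] with q hq
  have h1 : (fun s => nfM f (s, q.2)) =ᶠ[𝓝 q.1] fun s => nfM g (s, q.2) := by
    filter_upwards [(tendsto_line q.1 q.2).eventually hq] with s hs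
    exact nfM_congr hs
  exact h1.deriv_eq

theorem SlAt.dtM (hf : SlAt f (t, ρ)) :
    SlAt (MP_ae5b4e_an_NBT.dtM f) (t, ρ) ∧ ∀ᶠ s in 𝓝[≠] t, sl (MP_ae5b4e_an_NBT.dtM f) ρ s = deriv (sl f ρ) s := by
  constructor
  · obtain ⟨A, B, hA, hB, h0, hfe⟩ := hf
    exact ⟨_, _, ((an_dt hA).mul hB).sub (hA.mul (an_dt hB)), hB.mul hB,
      line_mul hB hB h0 h0, eqM_dtM hA (den_of_line hB h0) hfe⟩
  · filter_upwards [hf.germ] with s hs
    obtain ⟨C, hC, hfC⟩ := hs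
    have h1 : EqM (MP_ae5b4e_an_NBT.dtM f) (fun x => fderiv ℂ C x (1, 0)) (s, ρ) := by
      apply EqM.of_eventuallyEq
      filter_upwards [hC.eventually_analyticAt, hfC.eventually] with x h2 h3
      exact dtM_eq h2 h3
    have h2 : sl (MP_ae5b4e_an_NBT.dtM f) ρ s = fderiv ℂ C (s, ρ) (1, 0) := nfM_eq (an_dt hC) h1
    rw [h2, (sl_eventuallyEq hC hfC).deriv_eq]
    exact (deriv_line (q := (s, ρ)) hC).symm

end Pool.Agent.MP_ae5b4e_an_NBT
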