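import Mathlib
import Pool.Agent.Lib.MP_ae5b4e_an_MERO.Defs
import Pool.Agent.Lib.MP_ae5b4e_an_NBT.Slice
import Pool.Agent.Lib.MP_ae5b4e_an_NBT.LabD

/-!
# MP_ae5b4e_an, project NB: the conic datum, two-sided domains (definitions)

The coordinate of the conic is `x = exp (i θ)`, the real points are the points of the unit circle.
-/

noncomputable section

namespace Pool.Agent.MP_ae5b4e_an_NBT

open Complex Set Filter Topology Metric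
open Pool.Agent.MP_ae5b4e_an_MERO (Dat)
open scoped ComplexConjugate

/-- The family of polygons of a conic with an analytic field of involutions: even in `ρ`,
symmetric with respect to the unit circle, immersed. -/
structure Con (k : ℂ → ℂ) (F : ℂ × ℂ → ℂ) (c : ℝ) : Prop extends Dat k F c where
  even : ∀ p ∈ St (-c) c ×ˢ ball (0:ℂ) c, F (p.1, -p.2) = F p
  refl : ∀ p ∈ St (-c) c ×ˢ ball (0:ℂ) c, F (conj p.1, conj p.2) * conj (F p) = 1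
  dt : ∀ p ∈ St (-c) c ×ˢ ball (0:ℂ) c, deriv (fun s => F (s, p.2)) p.1 ≠ 0

/-- the domain to which `f` extends, above and (by reflection) below; `|ρ| < R` -/
def Dom (f : ℂ × ℂ → ℂ) (a R₁ R : ℝ) : Set (ℂ × ℂ) :=
  {p | p.2 ∈ ball (0:ℂ) R ∧ (∃ y, p.1.im < y ∧ ExtM f a R₁ y p.2) ∧
    ∃ y, -p.1.im < y ∧ ExtM f a R₁ y (conj p.2)}

/-- the domain of `F` -/
def DF (F : ℂ × ℂ → ℂ) (c R : ℝ) : Set (ℂ × ℂ) := Dom F c (c / 4) R

/-- the domain of `K` -/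
def DK (F : ℂ × ℂ → ℂ) (c R : ℝ) : Set (ℂ × ℂ) := Dom (KF F) (c / 2) (c / 4) R

/-- `f` extends to a meromorphic function near `(b, 0)`; `h` is the height of the strip -/
def RegAt (f : ℂ × ℂ → ℂ) (h : ℝ) (b : ℂ) : Prop :=
  ∃ δ > 0, ∃ g : ℂ × ℂ → ℂ, Mer g (ball b δ ×ˢ ball 0 δ) ∧
    ∃ t₁ ∈ ball b δ, |t₁.im| < h ∧ EqM g f (t₁, 0)

/-- the meromorphic function `f` is a holomorphic map to the sphere near `p` -/
def PReg (f : ℂ × ℂ → ℂ) (p : ℂ × ℂ) : Prop :=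
  ∃ C : ℂ × ℂ → ℂ, AnalyticAt ℂ C p ∧ (EqM f C p ∨ EqM (fun q => (f q)⁻¹) C p)

/-- the functional equation near `(t, 0)`, in a chart -/
def FamAt (f : ℂ × ℂ → ℂ) (t : ℂ) : Prop :=
  ∃ (C : ℂ × ℂ → ℂ) (k : ℂ → ℂ), AnalyticAt ℂ C (t, 0) ∧ deriv (fun s => C (s, 0)) t ≠ 0 ∧
    AnalyticAt ℂ k (C (t, 0)) ∧ (∀ᶠ p in 𝓝 ((t, 0) : ℂ × ℂ), p.2 ≠ 0 →
      (C (p.1 + p.2, p.2) - C p)⁻¹ + (C (p.1 - p.2, p.2) - C p)⁻¹ = k (C p)) ∧
    (EqM f C (t, 0) ∨ EqM (fun q => (f q)⁻¹) C (t, 0))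

/-- The conic datum with the extension `G` of `F` to the maximal domain; `G` is meromorphic for
`ρ = 0` on the strip of height `h`. -/
structure ConE (k : ℂ → ℂ) (F : ℂ × ℂ → ℂ) (c h : ℝ) (G : ℂ × ℂ → ℂ) : Prop extends
    Con k F c where
  hc : c < h
  ext : ∀ y < h, ExtM F c (c / 4) y 0
  merG : Mer G (DF F c (c / 4))
  eqG : ∀ p ∈ St (-c) c ×ˢ ball (0:ℂ) (c / 4), EqM G F p
  perG : ∀ p ∈ DF F c (c / 4), EqM (fun q => G (q.1 + 1, q.2)) G p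
  evenG : ∀ p ∈ DF F c (c / 4), EqM (fun q => G (q.1, -q.2)) G p
  reflG : ∀ p ∈ DF F c (c / 4), EqM (fun q => (conj (G (conj q.1, conj q.2)))⁻¹) G p

/-- natural boundary at the height `h` -/
structure NBd (k : ℂ → ℂ) (F : ℂ × ℂ → ℂ) (c h : ℝ) (G : ℂ × ℂ → ℂ) : Prop extends
    ConE k F c h G where
  nb : ∀ b : ℂ, |b.im| = h → ¬ RegAt G h b

/-- the function `F_t K + F_tt / F_t` -/
def NN (G : ℂ × ℂ → ℂ) (q : ℂ × ℂ) : ℂ := dtM G q * KF G q + dtM (dtM G) q / dtM G q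

end Pool.Agent.MP_ae5b4e_an_NBT
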