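import Mathlib
import Pool.Agent.Lib.MP_ae5b4e_an_NBT.Climb
import Pool.Agent.Lib.MP_ae5b4e_an_NBT.ConD

/-!
# MP_ae5b4e_an, project NB: two-sided maximal domains, the extensions of `F`, `K` and `N`
-/

noncomputable section

namespace Pool.Agent.MP_ae5b4e_an_NBT

open Complex Set Filter Topology Metric
open scoped ComplexConjugate

theorem isOpen_Dom (f : ℂ × ℂ → ℂ) (a R₁ R : ℝ) : IsOpen (Dom f a R₁ R) := by
  rw [isOpen_iff_mem_nhds]
  rintro p ⟨h1, ⟨y, hy1, hy2⟩, y', hy3, hy4⟩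
  have e1 : ∀ᶠ q : ℂ × ℂ in 𝓝 p, q.2 ∈ ball (0:ℂ) R :=
    continuous_snd.continuousAt.eventually (isOpen_ball.mem_nhds h1)
  have e2 : ∀ᶠ q : ℂ × ℂ in 𝓝 p, q.1.im < y := by
    have hc : Continuous fun q : ℂ × ℂ => q.1.im := by fun_prop
    exact hc.continuousAt.eventually (gt_mem_nhds hy1)
  have e3 : ∀ᶠ q : ℂ × ℂ in 𝓝 p, ExtM f a R₁ y q.2 :=
    continuous_snd.continuousAt.eventually hy2.eventually
  have e4 : ∀ᶠ q : ℂ × ℂ in 𝓝 p, -q.1.im < y' := by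
    have hc : Continuous fun q : ℂ × ℂ => -q.1.im := by fun_prop
    exact hc.continuousAt.eventually (gt_mem_nhds hy3)
  have e5 : ∀ᶠ q : ℂ × ℂ in 𝓝 p, ExtM f a R₁ y' (conj q.2) := by
    have hc : Continuous fun q : ℂ × ℂ => conj q.2 := continuous_conj.comp continuous_snd
    exact hc.continuousAt.eventually hy4.eventually
  filter_upwards [e1, e2, e3, e4, e5] with q q1 q2 q3 q4 q5
  exact ⟨q1, ⟨y, q2, q3⟩, y', q4, q5⟩

private lemma dome_conj_ball {R : ℝ} {ρ : ℂ} (h : ρ ∈ ball (0:ℂ) R) : conj ρ ∈ ball (0:ℂ) R := by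
  rw [mem_ball_zero_iff] at h ⊢
  rwa [RCLike.norm_conj]

private lemma dome_base {f : ℂ × ℂ → ℂ} {a R₁ R : ℝ} (hR : R ≤ R₁)
    (hf : Mer f (St (-a) a ×ˢ ball 0 R₁)) {ρ : ℂ} (hρ : ρ ∈ ball (0:ℂ) R) {t : ℂ}
    (ht : |t.im| < a) : (t, ρ) ∈ Dom f a R₁ R := by
  have h := abs_lt.1 ht
  refine ⟨hρ, ⟨a, h.2, extM_base hf (ball_subset_ball hR hρ)⟩, a, ?_,
    extM_base hf (ball_subset_ball hR (dome_conj_ball hρ))⟩
  show -t.im < a
  linarith [h.1]

/-- the points of a slice form a horizontal strip which contains the base strip -/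
theorem slice_Dom {f : ℂ × ℂ → ℂ} {a R₁ R : ℝ} (ha : 0 < a) (hR : R ≤ R₁)
    (hf : Mer f (St (-a) a ×ˢ ball 0 R₁)) {ρ : ℂ} (hρ : ρ ∈ ball (0:ℂ) R) :
    Convex ℝ {t | (t, ρ) ∈ Dom f a R₁ R} ∧ IsOpen {t | (t, ρ) ∈ Dom f a R₁ R} ∧
      (∀ t, |t.im| < a → (t, ρ) ∈ Dom f a R₁ R) ∧
      ∀ t s : ℂ, t.im = s.im → (t, ρ) ∈ Dom f a R₁ R → (s, ρ) ∈ Dom f a R₁ R := by
  refine ⟨?_, ?_, fun t ht => dome_base hR hf hρ ht, ?_⟩
  · rintro t ⟨h1, ⟨y, hy1, hy2⟩, y', hy3, hy4⟩ s ⟨_, ⟨z, hz1, hz2⟩, z', hz3, hz4⟩ u v hu hv huv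
    have him : (u • t + v • s).im = u * t.im + v * s.im := by
      simp
    have hy1' : t.im < y := hy1
    have hz1' : s.im < z := hz1
    have hy3' : -t.im < y' := hy3
    have hz3' : -s.im < z' := hz3
    have hlt : ∀ {b c d : ℝ}, b < d → c < d → u * b + v * c < d := by
      intro b c d hb hc
      have h3 : u * (d - b) + v * (d - c) > 0 := by
        rcases hu.eq_or_lt with h0 | h0
        · have : v = 1 := by linarith
          rw [← h0, this]
          linarith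
        · have h4 : 0 < u * (d - b) := mul_pos h0 (by linarith)
          have h5 : 0 ≤ v * (d - c) := mul_nonneg hv (by linarith)
          linarith
      have h6 : u * d + v * d = d := by rw [← add_mul, huv, one_mul]
      have h7 : u * b + v * c = (u * d + v * d) - (u * (d - b) + v * (d - c)) := by ring
      rw [h7, h6]
      linarith
    refine ⟨h1, ?_, ?_⟩
    · rcases le_total y z with h | h
      · refine ⟨z, ?_, hz2⟩
        show (u • t + v • s).im < z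
        rw [him]
        exact hlt (by linarith) hz1'
      · refine ⟨y, ?_, hy2⟩
        show (u • t + v • s).im < y
        rw [him]
        exact hlt hy1' (by linarith)
    · rcases le_total y' z' with h | h
      · refine ⟨z', ?_, hz4⟩
        show -(u • t + v • s).im < z'
        rw [him]
        have := hlt (b := -t.im) (c := -s.im) (d := z') (by linarith) hz3'
        linarith
      · refine ⟨y', ?_, hy4⟩
        show -(u • t + v • s).im < y'
        rw [him]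
        have := hlt (b := -t.im) (c := -s.im) (d := y') hy3' (by linarith)
        linarith
  · have hc : Continuous fun t : ℂ => (t, ρ) := by fun_prop
    exact (isOpen_Dom f a R₁ R).preimage hc
  · rintro t s hts ⟨h1, ⟨y, hy1, hy2⟩, y', hy3, hy4⟩
    refine ⟨h1, ⟨y, ?_, hy2⟩, y', ?_, hy4⟩
    · show s.im < y
      rw [← hts]
      exact hy1
    · show -s.im < y'
      rw [← hts]
      exact hy3

theorem isPreconnected_Dom {f : ℂ × ℂ → ℂ} {a R₁ R : ℝ} (ha : 0 < a) (hR : R ≤ R₁)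
    (hf : Mer f (St (-a) a ×ˢ ball 0 R₁)) : IsPreconnected (Dom f a R₁ R) := by
  rcases le_or_gt R 0 with hR0 | hR0
  · have h0 : Dom f a R₁ R = ∅ := by
      rw [eq_empty_iff_forall_notMem]
      rintro p ⟨h1, -⟩
      rw [mem_ball_zero_iff] at h1
      exact absurd (norm_nonneg p.2) (not_le.2 (h1.trans_le hR0))
    rw [h0]
    exact isPreconnected_empty
  have hB : IsPreconnected (St (-a) a ×ˢ ball (0:ℂ) R) :=
    ((convex_St _ _).prod (convex_ball _ _)).isPreconnected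
  have hBs : St (-a) a ×ˢ ball (0:ℂ) R ⊆ Dom f a R₁ R := by
    rintro p ⟨h1, h2⟩
    exact dome_base hR hf h2 (abs_lt.2 ⟨h1.1, h1.2⟩)
  refine isPreconnected_of_forall ((0:ℂ), (0:ℂ)) ?_
  rintro ⟨t, ρ⟩ hp
  have hρ : ρ ∈ ball (0:ℂ) R := hp.1
  obtain ⟨h1, -, h3, -⟩ := slice_Dom ha hR hf hρ
  have hS : IsPreconnected ((fun s : ℂ => (s, ρ)) '' {t | (t, ρ) ∈ Dom f a R₁ R}) :=
    h1.isPreconnected.image _ (by fun_prop)
  have h0m : ((0:ℂ), ρ) ∈ St (-a) a ×ˢ ball (0:ℂ) R :=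
    ⟨⟨by show -a < (0:ℂ).im; simp [ha], by show (0:ℂ).im < a; simp [ha]⟩, hρ⟩
  refine ⟨(fun s : ℂ => (s, ρ)) '' {t | (t, ρ) ∈ Dom f a R₁ R} ∪ St (-a) a ×ˢ ball (0:ℂ) R,
    ?_, ?_, ?_, ?_⟩
  · apply union_subset _ hBs
    rintro _ ⟨s, hs, rfl⟩
    exact hs
  · right
    exact ⟨⟨by show -a < (0:ℂ).im; simp [ha], by show (0:ℂ).im < a; simp [ha]⟩,
      mem_ball_self hR0⟩
  · left
    exact ⟨t, hp, rfl⟩
  · exact hS.union ((0:ℂ), ρ) ⟨0, hBs h0m, rfl⟩ h0m hB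

private lemma dome_cc : Continuous fun q : ℂ × ℂ => ((conj q.1, conj q.2) : ℂ × ℂ) :=
  (continuous_conj.comp continuous_fst).prodMk (continuous_conj.comp continuous_snd)

private lemma dome_cc_tendsto (p : ℂ × ℂ) :
    Tendsto (fun q : ℂ × ℂ => ((conj q.1, conj q.2) : ℂ × ℂ)) (𝓝 p) (𝓝 (conj p.1, conj p.2)) :=
  dome_cc.tendsto p

private lemma dome_analytic {A : ℂ × ℂ → ℂ} {p : ℂ × ℂ}
    (h : AnalyticAt ℂ A (conj p.1, conj p.2)) :
    AnalyticAt ℂ (fun q : ℂ × ℂ => conj (A (conj q.1, conj q.2))) p := by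
  obtain ⟨V, hV, hVo, hpV⟩ := _root_.eventually_nhds_iff.1 h.eventually_analyticAt
  have hU : IsOpen ((fun q : ℂ × ℂ => ((conj q.1, conj q.2) : ℂ × ℂ)) ⁻¹' V) :=
    hVo.preimage dome_cc
  refine Pool.Agent.SCV.osgood _ hU _ ?_ ?_ ?_ p hpV
  · intro q hq
    have h1 : ContinuousAt A (conj q.1, conj q.2) := (hV _ hq).continuousAt
    have h2 : ContinuousAt (fun q : ℂ × ℂ => A (conj q.1, conj q.2)) q :=
      ContinuousAt.comp (f := fun q : ℂ × ℂ => ((conj q.1, conj q.2) : ℂ × ℂ)) h1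
        dome_cc.continuousAt
    exact (continuous_conj.continuousAt.comp h2).continuousWithinAt
  · intro q hq
    have h1 : DifferentiableAt ℂ A (conj q.1, conj q.2) := (hV _ hq).differentiableAt
    have h2 : DifferentiableAt ℂ (fun x : ℂ => A (x, conj q.2)) (conj q.1) :=
      DifferentiableAt.comp (f := fun x : ℂ => (x, conj q.2)) (conj q.1) h1 (by fun_prop)
    have h3 := h2.conj_conj
    rw [conj_conj] at h3
    exact h3
  · intro q hq
    have h1 : DifferentiableAt ℂ A (conj q.1, conj q.2) := (hV _ hq).differentiableAt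
    have h2 : DifferentiableAt ℂ (fun x : ℂ => A (conj q.1, x)) (conj q.2) :=
      DifferentiableAt.comp (f := fun x : ℂ => (conj q.1, x)) (conj q.2) h1 (by fun_prop)
    have h3 := h2.conj_conj
    rw [conj_conj] at h3
    exact h3

private lemma dome_den {B : ℂ × ℂ → ℂ} {p : ℂ × ℂ} (h : Den B (conj p.1, conj p.2)) :
    Den (fun q : ℂ × ℂ => conj (B (conj q.1, conj q.2))) p := by
  refine ⟨dome_analytic h.an, fun h1 => h.ne ?_⟩
  have h2 : Tendsto (fun q : ℂ × ℂ => ((conj q.1, conj q.2) : ℂ × ℂ)) (𝓝 (conj p.1, conj p.2))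
      (𝓝 p) := by
    have := dome_cc_tendsto (conj p.1, conj p.2)
    simpa only [conj_conj] using this
  filter_upwards [h2.eventually h1] with q hq
  simpa using hq

theorem MerAt.conj' {f : ℂ × ℂ → ℂ} {p : ℂ × ℂ} (h : MerAt f (conj p.1, conj p.2)) :
    MerAt (fun q => conj (f (conj q.1, conj q.2))) p := by
  obtain ⟨A, B, hA, hB, h⟩ := h
  refine ⟨fun q => conj (A (conj q.1, conj q.2)), _, dome_analytic hA, dome_den hB, ?_⟩
  filter_upwards [(dome_cc_tendsto p).eventually h] with q hq h0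
  have h1 : B (conj q.1, conj q.2) ≠ 0 := by
    intro h2
    apply h0
    rw [h2, map_zero]
  rw [hq h1, map_div₀]

theorem EqM.conj' {f g : ℂ × ℂ → ℂ} {p : ℂ × ℂ} (h : EqM f g (conj p.1, conj p.2)) :
    EqM (fun q => conj (f (conj q.1, conj q.2))) (fun q => conj (g (conj q.1, conj q.2))) p := by
  obtain ⟨B, hB, h⟩ := h
  refine ⟨_, dome_den hB, ?_⟩
  filter_upwards [(dome_cc_tendsto p).eventually h] with q hq h0
  have h1 : B (conj q.1, conj q.2) ≠ 0 := by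
    intro h2
    apply h0
    rw [h2, map_zero]
  rw [hq h1]

/-- `(t, ρ) ↦ (t, -ρ)` -/
private def dome_neg : (ℂ × ℂ) ≃ₜ (ℂ × ℂ) where
  toFun p := (p.1, -p.2)
  invFun p := (p.1, -p.2)
  left_inv p := by simp
  right_inv p := by simp
  continuous_toFun := by fun_prop
  continuous_invFun := by fun_prop

private lemma dome_neg_an (p : ℂ × ℂ) : AnalyticAt ℂ dome_neg p := by
  change AnalyticAt ℂ (fun p : ℂ × ℂ => (p.1, -p.2)) p
  exact AnalyticAt.prod analyticAt_fst analyticAt_snd.neg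

private lemma dome_mer_neg {f : ℂ × ℂ → ℂ} {p : ℂ × ℂ} (h : MerAt f (p.1, -p.2)) :
    MerAt (fun q : ℂ × ℂ => f (q.1, -q.2)) p :=
  MerAt.comp dome_neg (dome_neg_an p) h

private lemma dome_eq_neg {f g : ℂ × ℂ → ℂ} {p : ℂ × ℂ} (h : EqM f g (p.1, -p.2)) :
    EqM (fun q : ℂ × ℂ => f (q.1, -q.2)) (fun q : ℂ × ℂ => g (q.1, -q.2)) p :=
  EqM.comp dome_neg (dome_neg_an p) h

private lemma dome_ball_neg {ρ z : ℂ} {δ : ℝ} (h : z ∈ ball (-ρ) δ) : -z ∈ ball ρ δ := by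
  rw [mem_ball, dist_eq_norm] at h ⊢
  rwa [show -z - ρ = -(z - -ρ) by ring, norm_neg]

private lemma dome_ext_neg {f : ℂ × ℂ → ℂ} {a R y : ℝ} {ρ : ℂ}
    (he : ∀ p ∈ St (-a) a ×ˢ ball (0:ℂ) R, f (p.1, -p.2) = f p) (h : ExtM f a R y ρ) :
    ExtM f a R y (-ρ) := by
  obtain ⟨δ, hδ, hb, G, hG, hE⟩ := h
  have hb' : ball (-ρ) δ ⊆ ball 0 R := by
    intro z hz
    have h1 := hb (dome_ball_neg hz)
    rw [mem_ball_zero_iff] at h1 ⊢
    rwa [norm_neg] at h1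
  refine ⟨δ, hδ, hb', fun q => G (q.1, -q.2), ?_, ?_⟩
  · rintro p ⟨h1, h2⟩
    exact dome_mer_neg (hG _ ⟨h1, dome_ball_neg h2⟩)
  · rintro p ⟨h1, h2⟩
    refine (dome_eq_neg (hE (p.1, -p.2) ⟨h1, dome_ball_neg h2⟩)).trans (EqM.of_eventuallyEq ?_)
    have hop : IsOpen (St (-a) a ×ˢ ball (0:ℂ) R) := (isOpen_St _ _).prod isOpen_ball
    have hm : p ∈ St (-a) a ×ˢ ball (0:ℂ) R := ⟨⟨h1.1, h1.2.trans_le (min_le_left _ _)⟩, hb' h2⟩
    filter_upwards [hop.mem_nhds hm] with q hq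
    exact he q hq

private lemma dome_mer {k : ℂ → ℂ} {F : ℂ × ℂ → ℂ} {c : ℝ} (hC : Con k F c) :
    Mer F (St (-c) c ×ˢ ball 0 (c / 4)) := by
  apply Mer.of_analytic
  intro p hp
  refine hC.an p ⟨hp.1, ball_subset_ball ?_ hp.2⟩
  linarith [hC.pos]

private lemma dome_big {c : ℝ} (hc : 0 < c) {p : ℂ × ℂ} (hp : p ∈ St (-c) c ×ˢ ball (0:ℂ) (c / 4)) :
    p ∈ St (-c) c ×ˢ ball (0:ℂ) c :=
  ⟨hp.1, ball_subset_ball (by linarith) hp.2⟩

private lemma dome_openB (c : ℝ) : IsOpen (St (-c) c ×ˢ ball (0:ℂ) (c / 4)) :=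
  (isOpen_St _ _).prod isOpen_ball

private lemma dome_im0 {c : ℝ} (hc : 0 < c) (x : ℂ) (hx : x.im = 0) :
    ((x, (0:ℂ)) : ℂ × ℂ) ∈ St (-c) c ×ˢ ball (0:ℂ) (c / 4) := by
  refine ⟨⟨?_, ?_⟩, mem_ball_self (by linarith)⟩
  · show -c < x.im
    rw [hx]; linarith
  · show x.im < c
    rw [hx]; exact hc

/-- the functions in the reflection formula on the base -/
private lemma dome_reflF {k : ℂ → ℂ} {F : ℂ × ℂ → ℂ} {c : ℝ} (hC : Con k F c) {q : ℂ × ℂ}
    (hq : q ∈ St (-c) c ×ˢ ball (0:ℂ) c) : (conj (F (conj q.1, conj q.2)))⁻¹ = F q := by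
  have hm : ((conj q.1, conj q.2) : ℂ × ℂ) ∈ St (-c) c ×ˢ ball (0:ℂ) c := by
    refine ⟨⟨?_, ?_⟩, dome_conj_ball hq.2⟩
    · show -c < (conj q.1).im
      rw [conj_im]
      have := hq.1.2
      linarith
    · show (conj q.1).im < c
      rw [conj_im]
      have := hq.1.1
      linarith
  have h := hC.refl _ hm
  rw [conj_conj, conj_conj] at h
  exact inv_eq_of_mul_eq_one_left h

theorem exists_conE {k : ℂ → ℂ} {F : ℂ × ℂ → ℂ} {c h : ℝ} (hC : Con k F c) (hc : c < h)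
    (hext : ∀ y < h, ExtM F c (c / 4) y 0) : ∃ G : ℂ × ℂ → ℂ, ConE k F c h G := by
  have hc0 := hC.pos
  have hF := dome_mer hC
  obtain ⟨F1, hF1, hF1e⟩ := exists_ext hc0 hF
  -- the two domains
  obtain ⟨U1, hU1⟩ : ∃ U : Set (ℂ × ℂ), U = {p | p.2 ∈ ball (0:ℂ) (c / 4) ∧ -c < p.1.im ∧
        ∃ y, p.1.im < y ∧ ExtM F c (c / 4) y p.2} := ⟨_, rfl⟩
  rw [← hU1] at hF1
  have hoU1 : IsOpen U1 := by
    rw [isOpen_iff_mem_nhds]
    intro p hp
    rw [hU1] at hp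
    obtain ⟨h1, h2, y, hy1, hy2⟩ := hp
    have e1 : ∀ᶠ q : ℂ × ℂ in 𝓝 p, q.2 ∈ ball (0:ℂ) (c / 4) :=
      continuous_snd.continuousAt.eventually (isOpen_ball.mem_nhds h1)
    have hci : Continuous fun q : ℂ × ℂ => q.1.im := by fun_prop
    have e2 : ∀ᶠ q : ℂ × ℂ in 𝓝 p, q.1.im < y := hci.continuousAt.eventually (gt_mem_nhds hy1)
    have e4 : ∀ᶠ q : ℂ × ℂ in 𝓝 p, -c < q.1.im := hci.continuousAt.eventually (lt_mem_nhds h2)
    have e3 : ∀ᶠ q : ℂ × ℂ in 𝓝 p, ExtM F c (c / 4) y q.2 :=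
      continuous_snd.continuousAt.eventually hy2.eventually
    filter_upwards [e1, e2, e3, e4] with q q1 q2 q3 q4
    rw [hU1]
    exact ⟨q1, q4, y, q2, q3⟩
  obtain ⟨U2, hU2⟩ : ∃ U : Set (ℂ × ℂ),
      U = (fun q : ℂ × ℂ => ((conj q.1, conj q.2) : ℂ × ℂ)) ⁻¹' U1 := ⟨_, rfl⟩
  have hoU2 : IsOpen U2 := by
    rw [hU2]
    exact hoU1.preimage dome_cc
  obtain ⟨F2, hF2⟩ : ∃ F2 : ℂ × ℂ → ℂ,
      F2 = fun q => (conj (F1 (conj q.1, conj q.2)))⁻¹ := ⟨_, rfl⟩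
  have hMF2 : Mer F2 U2 := by
    intro p hp
    rw [hU2] at hp
    rw [hF2]
    exact (MerAt.conj' (hF1 _ hp)).inv
  -- on the base both functions agree with F
  have hE2 : ∀ p ∈ St (-c) c ×ˢ ball (0:ℂ) (c / 4), EqM F2 F p := by
    intro p hp
    have hm : ((conj p.1, conj p.2) : ℂ × ℂ) ∈ St (-c) c ×ˢ ball (0:ℂ) (c / 4) := by
      refine ⟨⟨?_, ?_⟩, dome_conj_ball hp.2⟩
      · show -c < (conj p.1).im
        rw [conj_im]
        have := hp.1.2
        linarith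
      · show (conj p.1).im < c
        rw [conj_im]
        have := hp.1.1
        linarith
    have h1 := (EqM.conj' (p := p) (hF1e _ hm)).map (fun z => z⁻¹)
    rw [hF2]
    refine h1.trans (EqM.of_eventuallyEq ?_)
    filter_upwards [(dome_openB c).mem_nhds hp] with q hq
    exact dome_reflF hC (dome_big hc0 hq)
  have hov : ∀ q ∈ U1 ∩ U2, q ∈ St (-c) c ×ˢ ball (0:ℂ) (c / 4) := by
    rintro q ⟨h1, h2⟩
    rw [hU1] at h1
    rw [hU2] at h2
    have h3 : ((conj q.1, conj q.2) : ℂ × ℂ) ∈ U1 := h2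
    rw [hU1] at h3
    have h4 : -c < (conj q.1).im := h3.2.1
    rw [conj_im] at h4
    refine ⟨⟨h1.2.1, ?_⟩, h1.1⟩
    show q.1.im < c
    linarith
  obtain ⟨G, hG, hGe⟩ := exists_glue (fun b : Bool => if b then U1 else U2)
    (by
      intro b
      cases b
      · simpa using hoU2
      · simpa using hoU1)
    (fun b : Bool => if b then F1 else F2)
    (by
      intro b
      cases b
      · simpa using hMF2
      · simpa using hF1)
    (by
      intro i j q hq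
      cases i <;> cases j
      · exact EqM.refl _ _
      · simp only [Bool.false_eq_true, if_false, if_true] at hq ⊢
        have hb := hov q ⟨hq.2, hq.1⟩
        exact (hE2 q hb).trans (hF1e q hb).symm
      · simp only [Bool.false_eq_true, if_false, if_true] at hq ⊢
        have hb := hov q hq
        exact (hF1e q hb).trans (hE2 q hb).symm
      · exact EqM.refl _ _)
  have hG1 : ∀ q ∈ U1, EqM G F1 q := by
    intro q hq
    have := hGe true q (by simpa using hq)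
    simpa using this
  have hDF : DF F c (c / 4) ⊆ ⋃ b : Bool, (if b then U1 else U2) := by
    rintro p ⟨h1, ⟨y, hy1, hy2⟩, y', hy3, hy4⟩
    rcases lt_or_ge (-c) p.1.im with h2 | h2
    · refine mem_iUnion.2 ⟨true, ?_⟩
      rw [if_pos rfl, hU1]
      exact ⟨h1, h2, y, hy1, hy2⟩
    · refine mem_iUnion.2 ⟨false, ?_⟩
      rw [if_neg (by simp), hU2]
      show ((conj p.1, conj p.2) : ℂ × ℂ) ∈ U1
      rw [hU1]
      refine ⟨dome_conj_ball h1, ?_, y', ?_, hy4⟩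
      · show -c < (conj p.1).im
        rw [conj_im]
        linarith
      · show (conj p.1).im < y'
        rw [conj_im]
        exact hy3
  have hMG : Mer G (DF F c (c / 4)) := hG.mono hDF
  have hbU : ∀ p ∈ St (-c) c ×ˢ ball (0:ℂ) (c / 4), p ∈ U1 := by
    intro p hp
    rw [hU1]
    exact ⟨hp.2, hp.1.1, c, hp.1.2, extM_base hF hp.2⟩
  have heq : ∀ p ∈ St (-c) c ×ˢ ball (0:ℂ) (c / 4), EqM G F p := fun p hp =>
    (hG1 p (hbU p hp)).trans (hF1e p hp)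
  have hpre : IsPreconnected (DF F c (c / 4)) := isPreconnected_Dom hc0 le_rfl hF
  have h00 := dome_im0 hc0 0 (by simp)
  have hsub : St (-c) c ×ˢ ball (0:ℂ) (c / 4) ⊆ DF F c (c / 4) := by
    rintro p ⟨h1, h2⟩
    exact dome_base le_rfl hF h2 (abs_lt.2 ⟨h1.1, h1.2⟩)
  refine ⟨G, ⟨hC, hc, hext, hMG, heq, ?_, ?_, ?_⟩⟩
  · refine Mer.eqM hpre ?_ hMG (hsub h00) ?_
    · intro p hp
      have h1 : ((p.1 + 1, p.2) : ℂ × ℂ) ∈ DF F c (c / 4) :=
        (slice_Dom hc0 le_rfl hF hp.1).2.2.2 p.1 (p.1 + 1) (by simp) hp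
      exact MerAt.shift (h := fun _ => (1:ℂ)) (by fun_prop) (hMG _ h1)
    · have h1 : ((((0:ℂ), (0:ℂ)) : ℂ × ℂ).1 + (fun _ : ℂ => (1:ℂ)) (((0:ℂ), (0:ℂ)) : ℂ × ℂ).2,
          (((0:ℂ), (0:ℂ)) : ℂ × ℂ).2) ∈ St (-c) c ×ˢ ball (0:ℂ) (c / 4) :=
        dome_im0 hc0 _ (by simp)
      have h2 := EqM.shift (h := fun _ => (1:ℂ)) (by fun_prop) (heq _ h1)
      refine (h2.trans (EqM.of_eventuallyEq ?_)).trans (heq _ h00).symm
      filter_upwards [(dome_openB c).mem_nhds h00] with q hq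
      exact hC.per q (dome_big hc0 hq)
  · have hev : ∀ p ∈ St (-c) c ×ˢ ball (0:ℂ) (c / 4), F (p.1, -p.2) = F p := fun p hp =>
      hC.even p (dome_big hc0 hp)
    refine Mer.eqM hpre ?_ hMG (hsub h00) ?_
    · rintro p ⟨h1, ⟨y, hy1, hy2⟩, y', hy3, hy4⟩
      apply dome_mer_neg
      apply hMG
      refine ⟨?_, ⟨y, hy1, dome_ext_neg hev hy2⟩, y', hy3, ?_⟩
      · show -p.2 ∈ ball (0:ℂ) (c / 4)
        rw [mem_ball_zero_iff] at h1 ⊢
        rwa [norm_neg]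
      · show ExtM F c (c / 4) y' (conj (-p.2))
        rw [map_neg]
        exact dome_ext_neg hev hy4
    · have h1 : (((((0:ℂ), (0:ℂ)) : ℂ × ℂ).1, -(((0:ℂ), (0:ℂ)) : ℂ × ℂ).2) : ℂ × ℂ) ∈
          St (-c) c ×ˢ ball (0:ℂ) (c / 4) := by
        simpa using h00
      refine ((dome_eq_neg (heq _ h1)).trans (EqM.of_eventuallyEq ?_)).trans (heq _ h00).symm
      filter_upwards [(dome_openB c).mem_nhds h00] with q hq
      exact hev q hq
  · refine Mer.eqM hpre ?_ hMG (hsub h00) ?_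
    · rintro p ⟨h1, ⟨y, hy1, hy2⟩, y', hy3, hy4⟩
      refine (MerAt.conj' (hMG _ ?_)).inv
      refine ⟨dome_conj_ball h1, ⟨y', ?_, hy4⟩, y, ?_, ?_⟩
      · show (conj p.1).im < y'
        rw [conj_im]
        exact hy3
      · show -(conj p.1).im < y
        rw [conj_im, neg_neg]
        exact hy1
      · show ExtM F c (c / 4) y (conj (conj p.2))
        rw [conj_conj]
        exact hy2
    · have h1 : ((conj (((0:ℂ), (0:ℂ)) : ℂ × ℂ).1, conj (((0:ℂ), (0:ℂ)) : ℂ × ℂ).2) : ℂ × ℂ) ∈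
          St (-c) c ×ˢ ball (0:ℂ) (c / 4) := by
        simpa using h00
      have h2 := (EqM.conj' (p := ((0:ℂ), (0:ℂ))) (heq _ h1)).map (fun z => z⁻¹)
      refine (h2.trans (EqM.of_eventuallyEq ?_)).trans (heq _ h00).symm
      filter_upwards [(dome_openB c).mem_nhds h00] with q hq
      exact dome_reflF hC (dome_big hc0 hq)

variable {k : ℂ → ℂ} {F G : ℂ × ℂ → ℂ} {c h : ℝ}

private lemma dome_ext_KF (hC : Con k F c) {ρ : ℂ} {y y' : ℝ}
    (h : ExtM (KF F) (c / 2) (c / 4) y ρ) (hy : y' < y + |ρ.im|) : ExtM F c (c / 4) y' ρ := by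
  by_cases h0 : ρ.im = 0
  · rw [h0, abs_zero, add_zero] at hy
    exact extM_of_KF_real hC.pos le_rfl (dome_mer hC) h0 h hy
  · exact extM_of_KF hC.pos le_rfl (dome_mer hC) h0 h hy

private lemma dome_DK_aux (hC : Con k F c) {p : ℂ × ℂ} (hp : p ∈ DK F c (c / 4)) {t : ℂ}
    (ht : |t.im| ≤ |p.2.im|) : (p.1 + t, p.2) ∈ DF F c (c / 4) := by
  obtain ⟨h1, ⟨y, hy1, hy2⟩, y', hy3, hy4⟩ := hp
  have ht1 := le_abs_self t.im
  have ht2 := neg_abs_le t.im
  obtain ⟨z, hz1, hz2⟩ := exists_between (show p.1.im + |p.2.im| < y + |p.2.im| by linarith)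
  obtain ⟨w, hw1, hw2⟩ := exists_between (show -p.1.im + |p.2.im| < y' + |p.2.im| by linarith)
  refine ⟨h1, ⟨z, ?_, dome_ext_KF hC hy2 hz2⟩, w, ?_, dome_ext_KF hC hy4 ?_⟩
  · show (p.1 + t).im < z
    rw [add_im]
    linarith
  · show -(p.1 + t).im < w
    rw [add_im]
    linarith
  · rw [conj_im, abs_neg]
    exact hw2

theorem DK_shift (hC : Con k F c) {p : ℂ × ℂ} (hp : p ∈ DK F c (c / 4)) :
    p ∈ DF F c (c / 4) ∧ (p.1 + p.2, p.2) ∈ DF F c (c / 4) ∧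
      (p.1 - p.2, p.2) ∈ DF F c (c / 4) := by
  refine ⟨?_, dome_DK_aux hC hp le_rfl, ?_⟩
  · have := dome_DK_aux hC hp (t := 0) (by simp)
    simpa using this
  · have := dome_DK_aux hC hp (t := -p.2) (by simp)
    simpa [sub_eq_add_neg] using this

theorem mem_DK_zero (hE : ConE k F c h G) {t : ℂ} (ht : |t.im| < h) :
    (t, 0) ∈ DK F c (c / 4) := by
  have hc0 := hE.pos
  have hC : Con k F c := hE.toCon
  obtain ⟨y, hy1, hy2⟩ := exists_between ht
  obtain ⟨z, hz1, hz2⟩ := exists_between hy1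
  have h1 : ExtM (KF F) (c / 2) (c / 4) z 0 :=
    extM_KF hc0 (by linarith) (dome_mer hC) (hE.ext y hy2) (by simpa using hz2)
  have h2 := abs_lt.1 hz1
  refine ⟨mem_ball_self (by linarith), ⟨z, h2.2, h1⟩, z, ?_, ?_⟩
  · show -t.im < z
    linarith [h2.1]
  · show ExtM (KF F) (c / 2) (c / 4) z (conj (0:ℂ))
    rw [map_zero]
    exact h1

theorem mer_KG (hE : ConE k F c h G) : Mer (KF G) (DK F c (c / 4)) := by
  intro p hp
  obtain ⟨h0, h1, h2⟩ := DK_shift hE.toCon hp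
  have g0 := hE.merG _ h0
  have g1 : MerAt (fun q : ℂ × ℂ => G (q.1 + q.2, q.2)) p :=
    MerAt.shift (h := fun z => z) differentiable_id (hE.merG _ h1)
  have g2 : MerAt (fun q : ℂ × ℂ => G (q.1 - q.2, q.2)) p := by
    have h3 : MerAt G (p.1 + (fun z : ℂ => -z) p.2, p.2) := by
      have := hE.merG _ h2
      rw [sub_eq_add_neg] at this
      exact this
    have h4 := MerAt.shift (h := fun z => -z) differentiable_id.neg h3
    have h5 : (fun q : ℂ × ℂ => G (q.1 + (fun z : ℂ => -z) q.2, q.2)) =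
        fun q : ℂ × ℂ => G (q.1 - q.2, q.2) := by
      funext q
      rw [sub_eq_add_neg]
    rw [h5] at h4
    exact h4
  exact ((g1.sub g0).inv).add ((g2.sub g0).inv)

end Pool.Agent.MP_ae5b4e_an_NBT
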