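import Mathlib
import Pool.Agent.Lib.MP_ae5b4e_an_NBT.DomE
import Pool.Agent.Lib.MP_ae5b4e_an_MERO.ExtBasic

/-!
# MP_ae5b4e_an, project NB: the slices of `F`, `K` and `N`
-/

noncomputable section

namespace Pool.Agent.MP_ae5b4e_an_NBT

open Complex Set Filter Topology Metric
open scoped ComplexConjugate

variable {k : ℂ → ℂ} {F G : ℂ × ℂ → ℂ} {c h : ℝ}

/-- a meromorphic function with vanishing derivative is constant -/
private theorem domS_const {g : ℂ → ℂ} {t : ℂ} (hg : MeromorphicAt g t)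
    (h : ∀ᶠ s in 𝓝[≠] t, deriv g s = 0) : ∃ x, ∀ᶠ s in 𝓝[≠] t, g s = x := by
  have h1 : meromorphicOrderAt (deriv g) t = ⊤ := meromorphicOrderAt_eq_top_iff.2 h
  by_cases h2 : meromorphicOrderAt g t = ⊤
  · exact ⟨0, meromorphicOrderAt_eq_top_iff.1 h2⟩
  obtain ⟨n, hn⟩ := WithTop.ne_top_iff_exists.1 h2
  by_cases h3 : n = 0
  · subst h3
    obtain ⟨φ, hφ, hφ0, h4⟩ := (meromorphicOrderAt_eq_int_iff hg).1 hn.symm
    have h5 : g =ᶠ[𝓝[≠] t] φ := by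
      filter_upwards [h4] with s hs
      rw [hs, zpow_zero, one_smul]
    have h6 : deriv g =ᶠ[𝓝[≠] t] deriv φ := h5.nhdsNE_deriv
    have h7 : ∀ᶠ s in 𝓝[≠] t, deriv φ s = 0 := by
      filter_upwards [h6, h] with s h8 h9
      rw [← h8, h9]
    have h8 : ∀ᶠ s in 𝓝 t, deriv φ s = 0 :=
      hφ.deriv.frequently_zero_iff_eventually_zero.1 h7.frequently
    obtain ⟨r, hr, h9⟩ := Metric.eventually_nhds_iff_ball.1 (h8.and hφ.eventually_analyticAt)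
    refine ⟨φ t, ?_⟩
    filter_upwards [h5, nhdsWithin_le_nhds (ball_mem_nhds t hr)] with s h10 h11
    rw [h10]
    exact isOpen_ball.is_const_of_deriv_eq_zero (convex_ball t r).isPreconnected
      (fun z hz => (h9 z hz).2.differentiableAt.differentiableWithinAt)
      (fun z hz => (h9 z hz).1) h11 (mem_ball_self hr)
  · exfalso
    have h4 := meromorphicOrderAt_deriv_eq_sub_one (𝕜 := ℂ) (n := n) (Int.cast_ne_zero.2 h3)
      hn.symm
    rw [h1] at h4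
    exact WithTop.top_ne_coe h4

/-- the identity theorem -/
private theorem domS_id {g : ℂ → ℂ} {V : Set ℂ} (hV : IsPreconnected V)
    (hg : MeromorphicOn g V) {t₀ t : ℂ} (h0 : t₀ ∈ V) (ht : t ∈ V)
    (h : ∀ᶠ s in 𝓝[≠] t₀, g s = 0) : ∀ᶠ s in 𝓝[≠] t, g s = 0 := by
  rw [← meromorphicOrderAt_eq_top_iff] at h ⊢
  by_contra hc
  exact hg.meromorphicOrderAt_ne_top_of_isPreconnected hV ht h0 hc h

private theorem domS_merF (hE : ConE k F c h G) : Mer F (St (-c) c ×ˢ ball 0 (c / 4)) := by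
  intro p hp
  have hc := hE.pos
  exact merAt_of_analyticAt (hE.an p ⟨hp.1, ball_subset_ball (by linarith) hp.2⟩)

private theorem domS_slice (hE : ConE k F c h G) {ρ : ℂ} (hρ : ρ ∈ ball (0:ℂ) (c / 4)) :
    Convex ℝ {t | (t, ρ) ∈ DF F c (c / 4)} ∧ IsOpen {t | (t, ρ) ∈ DF F c (c / 4)} ∧
      (∀ t, |t.im| < c → (t, ρ) ∈ DF F c (c / 4)) := by
  obtain ⟨h1, h2, h3, -⟩ := slice_Dom hE.pos le_rfl (domS_merF hE) hρ
  exact ⟨h1, h2, h3⟩

/-- the function `K` near the base strip -/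
private theorem domS_K (hE : ConE k F c h G) {p : ℂ × ℂ}
    (hp : p ∈ St (-(c / 2)) (c / 2) ×ˢ ball (0:ℂ) (c / 4)) :
    AnalyticAt ℂ (fun q => k (F q)) p ∧ EqM (KF F) (fun q => k (F q)) p := by
  have hc := hE.pos
  obtain ⟨⟨hp1, hp2⟩, hp3⟩ := hp
  have hpc : p ∈ St (-c) c ×ˢ ball (0:ℂ) c :=
    ⟨⟨by linarith, by linarith⟩, ball_subset_ball (by linarith) hp3⟩
  refine ⟨AnalyticAt.fun_comp (hE.reg p hpc) (hE.an p hpc), ?_⟩
  have h1 : Den (fun q : ℂ × ℂ => q.2) p := by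
    refine ⟨analyticAt_snd, fun h2 => ?_⟩
    have h3 : Tendsto (fun x : ℂ => (p.1, p.2 + x)) (𝓝 0) (𝓝 p) := by
      have : Continuous (fun x : ℂ => (p.1, p.2 + x)) := by fun_prop
      simpa using this.tendsto 0
    have h4 := h3.eventually h2
    have h5 : ∀ᶠ x : ℂ in 𝓝[≠] 0, p.2 + x = 0 := nhdsWithin_le_nhds h4
    obtain ⟨x, hx, hx0⟩ := (h5.and self_mem_nhdsWithin).exists
    have h6 := h4.self_of_nhds
    simp only [add_zero] at h6
    rw [h6, zero_add] at hx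
    exact hx0 hx
  refine ⟨_, h1, ?_⟩
  have hopen : IsOpen (St (-(c / 2)) (c / 2) ×ˢ ball (0:ℂ) (c / 4)) :=
    (isOpen_St _ _).prod isOpen_ball
  filter_upwards [hopen.mem_nhds ⟨⟨hp1, hp2⟩, hp3⟩] with q hq hq0
  obtain ⟨⟨hq1, hq2⟩, hq3⟩ := hq
  have hq4 : ‖q.2‖ < c / 4 := by simpa using hq3
  have hq5 : |q.2.im| < c / 4 := lt_of_le_of_lt (abs_im_le_norm _) hq4
  obtain ⟨hq6, hq7⟩ := abs_lt.1 hq5
  have hqc : q ∈ St (-c) c ×ˢ ball (0:ℂ) c :=
    ⟨⟨by linarith, by linarith⟩, ball_subset_ball (by linarith) hq3⟩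
  exact hE.fe q hqc hq0 ⟨by rw [add_im]; linarith, by rw [add_im]; linarith⟩
    ⟨by rw [sub_im]; linarith, by rw [sub_im]; linarith⟩

private theorem domS_KG (hE : ConE k F c h G) {p : ℂ × ℂ}
    (hp : p ∈ St (-(c / 2)) (c / 2) ×ˢ ball (0:ℂ) (c / 4)) :
    EqM (KF G) (fun q => k (F q)) p := by
  have hc := hE.pos
  refine EqM.trans ?_ (domS_K hE hp).2
  obtain ⟨⟨hp1, hp2⟩, hp3⟩ := hp
  have hq4 : ‖p.2‖ < c / 4 := by simpa using hp3
  have hq5 : |p.2.im| < c / 4 := lt_of_le_of_lt (abs_im_le_norm _) hq4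
  obtain ⟨hq6, hq7⟩ := abs_lt.1 hq5
  have h0 : EqM G F p := hE.eqG p ⟨⟨by linarith, by linarith⟩, hp3⟩
  have h1 : EqM (fun q : ℂ × ℂ => G (q.1 + q.2, q.2)) (fun q => F (q.1 + q.2, q.2)) p :=
    EqM.shift (h := fun x => x) differentiable_id
      (hE.eqG _ ⟨⟨by rw [add_im]; linarith, by rw [add_im]; linarith⟩, hp3⟩)
  have h2 : EqM (fun q : ℂ × ℂ => G (q.1 - q.2, q.2)) (fun q => F (q.1 - q.2, q.2)) p := by
    have h3 := EqM.shift (f := G) (g := F) (h := fun x => -x) (p := p) differentiable_id.neg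
      (hE.eqG _ ⟨⟨by rw [add_im, neg_im]; linarith, by rw [add_im, neg_im]; linarith⟩, hp3⟩)
    simpa only [sub_eq_add_neg] using h3
  exact EqM.map₂ (fun x y => x + y) (EqM.map₂ (fun x y => (x - y)⁻¹) h1 h0)
    (EqM.map₂ (fun x y => (x - y)⁻¹) h2 h0)

theorem mer_NN (hE : ConE k F c h G) : Mer (NN G) (DK F c (c / 4)) := by
  intro p hp
  have h1 : MerAt G p := hE.merG p (DK_shift hE.toCon hp).1
  have h2 := MerAt.dtM h1
  have h3 := MerAt.dtM h2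
  exact (h2.mul (mer_KG hE p hp)).add (h3.div h2)

theorem slAt_G (hE : ConE k F c h G) {p : ℂ × ℂ} (hp : p ∈ DF F c (c / 4)) : SlAt G p := by
  have hc := hE.pos
  have hρ : p.2 ∈ ball (0:ℂ) (c / 4) := hp.1
  obtain ⟨h1, h2, h3⟩ := domS_slice hE hρ
  have h4 : SlAt G (0, p.2) := by
    have h5 : ((0:ℂ), p.2) ∈ St (-c) c ×ˢ ball (0:ℂ) (c / 4) := by
      refine ⟨⟨?_, ?_⟩, hρ⟩
      · simpa using hc
      · simpa using hc
    refine (slAt_of_analyticAt (hE.an (0, p.2) ⟨h5.1, ball_subset_ball (by linarith) hρ⟩)).congr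
      (hE.eqG _ h5).symm
  exact slAt_of_mer (V := {t | (t, p.2) ∈ DF F c (c / 4)}) h1.isPreconnected
    (fun t ht => hE.merG _ ht) (h3 0 (by simpa using hc)) h4 p.1 hp

theorem slAt_K (hE : ConE k F c h G) {p : ℂ × ℂ} (hp : p ∈ DK F c (c / 4)) :
    SlAt (KF G) p := by
  have hc := hE.pos
  have hρ : p.2 ∈ ball (0:ℂ) (c / 4) := hp.1
  have hm : Mer (KF F) (St (-(c / 2)) (c / 2) ×ˢ ball 0 (c / 4)) := by
    intro q hq
    obtain ⟨h1, h2⟩ := domS_K hE hq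
    exact (merAt_of_analyticAt h1).congr h2.symm
  obtain ⟨h1, -, h3, -⟩ := slice_Dom (half_pos hc) le_rfl hm hρ
  have h5 : ((0:ℂ), p.2) ∈ St (-(c / 2)) (c / 2) ×ˢ ball (0:ℂ) (c / 4) := by
    refine ⟨⟨?_, ?_⟩, hρ⟩
    · simpa using hc
    · simpa using hc
  have h4 : SlAt (KF G) (0, p.2) :=
    (slAt_of_analyticAt (domS_K hE h5).1).congr (domS_KG hE h5).symm
  exact slAt_of_mer (V := {t | (t, p.2) ∈ DK F c (c / 4)}) h1.isPreconnected
    (fun t ht => mer_KG hE _ ht) (h3 0 (by simpa using hc)) h4 p.1 hp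

/-- the slices of `F` are not constant near any point -/
private theorem domS_not_const (hE : ConE k F c h G) {p : ℂ × ℂ} (hp : p ∈ DF F c (c / 4))
    (x : ℂ) : ¬ ∀ᶠ s in 𝓝[≠] p.1, sl G p.2 s = x := by
  intro hx
  have hc := hE.pos
  have hρ : p.2 ∈ ball (0:ℂ) (c / 4) := hp.1
  obtain ⟨h1, h2, h3⟩ := domS_slice hE hρ
  have h00 : (0:ℂ) ∈ {t | (t, p.2) ∈ DF F c (c / 4)} := h3 0 (by simpa using hc)
  have hm : MeromorphicOn (fun s => sl G p.2 s - x) {t | (t, p.2) ∈ DF F c (c / 4)} := by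
    intro t ht
    exact (slAt_G hE ht).meromorphicAt.sub (MeromorphicAt.const x t)
  have h4 := domS_id h1.isPreconnected hm (t₀ := p.1) (t := 0) hp h00
    (hx.mono fun s hs => by rw [hs, sub_self])
  have h5 : ∀ᶠ s in 𝓝 (0:ℂ), sl G p.2 s = F (s, p.2) := by
    filter_upwards [(isOpen_St (-c) c).mem_nhds
      (show (0:ℂ) ∈ St (-c) c from ⟨by simpa using hc, by simpa using hc⟩)] with s hs
    exact nfM_eq (hE.an (s, p.2) ⟨hs, ball_subset_ball (by linarith) hρ⟩)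
      (hE.eqG (s, p.2) ⟨hs, hρ⟩)
  have hpc : ((0:ℂ), p.2) ∈ St (-c) c ×ˢ ball (0:ℂ) c :=
    ⟨⟨by simpa using hc, by simpa using hc⟩, ball_subset_ball (by linarith) hρ⟩
  have han : AnalyticAt ℂ (fun s => F (s, p.2)) 0 :=
    AnalyticAt.fun_comp (hE.an _ hpc) (analyticAt_id.prod analyticAt_const)
  have h6 : ∀ᶠ s in 𝓝[≠] (0:ℂ), F (s, p.2) = x := by
    filter_upwards [h4, nhdsWithin_le_nhds h5] with s h7 h8
    rw [← h8]
    exact sub_eq_zero.1 h7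
  have h7 : ∀ᶠ s in 𝓝 (0:ℂ), F (s, p.2) = x :=
    (han.frequently_eq_iff_eventually_eq analyticAt_const).1 h6.frequently
  have h8 : deriv (fun s => F (s, p.2)) 0 = 0 := by
    have h9 : (fun s => F (s, p.2)) =ᶠ[𝓝 0] fun _ => x := h7
    rw [h9.deriv_eq, deriv_const]
  exact hE.dt _ hpc h8

private theorem domS_deriv (hE : ConE k F c h G) {p : ℂ × ℂ} (hp : p ∈ DF F c (c / 4)) :
    ¬ ∀ᶠ s in 𝓝[≠] p.1, sl (dtM G) p.2 s = 0 := by
  intro h1
  have h2 := slAt_G hE hp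
  have h3 := (SlAt.dtM (t := p.1) (ρ := p.2) h2).2
  obtain ⟨x, hx⟩ := domS_const (SlAt.meromorphicAt (t := p.1) (ρ := p.2) h2) (by
    filter_upwards [h1, h3] with s h4 h5
    rw [← h5, h4])
  exact domS_not_const hE hp x hx

private theorem domS_N (hE : ConE k F c h G) {p : ℂ × ℂ} (hp : p ∈ DK F c (c / 4)) :
    SlAt (NN G) p ∧ ∀ᶠ s in 𝓝[≠] p.1, sl (NN G) p.2 s =
      deriv (sl G p.2) s * sl (KF G) p.2 s +
        deriv (deriv (sl G p.2)) s / deriv (sl G p.2) s := by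
  have hD := (DK_shift hE.toCon hp).1
  have h1 : SlAt G (p.1, p.2) := slAt_G hE hD
  have hK : SlAt (KF G) (p.1, p.2) := slAt_K hE hp
  obtain ⟨h2, h2'⟩ := SlAt.dtM h1
  obtain ⟨h3, h3'⟩ := SlAt.dtM h2
  obtain ⟨h4, h4'⟩ := h2.mul hK
  obtain ⟨h5, h5'⟩ := h2.inv (domS_deriv hE hD)
  obtain ⟨h6, h6'⟩ := h3.mul h5
  obtain ⟨h7, h7'⟩ := h4.add h6
  have h8 : NN G = fun q => (dtM G q * KF G q) + dtM (dtM G) q * (dtM G q)⁻¹ := by
    funext q
    unfold NN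
    rw [div_eq_mul_inv]
  rw [h8]
  refine ⟨h7, ?_⟩
  have h9 : ∀ᶠ s in 𝓝[≠] p.1, deriv (sl (dtM G) p.2) s = deriv (deriv (sl G p.2)) s := by
    have h10 : sl (dtM G) p.2 =ᶠ[𝓝[≠] p.1] deriv (sl G p.2) := h2'
    exact h10.nhdsNE_deriv
  filter_upwards [h7', h6', h5', h4', h3', h2', h9] with s e7 e6 e5 e4 e3 e2 e9
  rw [e7, e6, e5, e4, e3, e9, e2, div_eq_mul_inv]

theorem slAt_N (hE : ConE k F c h G) {p : ℂ × ℂ} (hp : p ∈ DK F c (c / 4)) : SlAt (NN G) p :=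
  (domS_N hE hp).1

/-- the slice of `N` -/
theorem sl_N (hE : ConE k F c h G) {p : ℂ × ℂ} (hp : p ∈ DK F c (c / 4)) :
    ∀ᶠ s in 𝓝[≠] p.1, sl (NN G) p.2 s =
      deriv (sl G p.2) s * sl (KF G) p.2 s + deriv (deriv (sl G p.2)) s / deriv (sl G p.2) s :=
  (domS_N hE hp).2

/-- the slices of `F` are not constant near any point -/
theorem sl_G_not_const (hE : ConE k F c h G) {p : ℂ × ℂ} (hp : p ∈ DF F c (c / 4)) (x : ℂ) :
    ¬ ∀ᶠ s in 𝓝[≠] p.1, sl G p.2 s = x := domS_not_const hE hp x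

/-- for `ρ = 0` the function `K` is `- F'' / F' ^ 2` and `N` vanishes -/
theorem sl_K_zero (hE : ConE k F c h G) {t : ℂ} (ht : |t.im| < h) :
    ∀ᶠ s in 𝓝[≠] t, sl (KF G) 0 s = -deriv (deriv (sl G 0)) s / deriv (sl G 0) s ^ 2 := by
  have hc := hE.pos
  have hh : 0 < h := hc.trans hE.hc
  have hV : IsPreconnected {t : ℂ | |t.im| < h} := by
    have h1 : {t : ℂ | |t.im| < h} = St (-h) h := by
      ext z
      simp [St, abs_lt]
    rw [h1]
    exact (convex_St (-h) h).isPreconnected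
  have hm : MeromorphicOn (fun s => sl (KF G) 0 s -
      (-deriv (deriv (sl G 0)) s / deriv (sl G 0) s ^ 2)) {t : ℂ | |t.im| < h} := by
    intro s hs
    have h1 := mem_DK_zero hE hs
    have h2 : MeromorphicAt (sl G 0) s :=
      SlAt.meromorphicAt (t := s) (ρ := 0) (slAt_G hE (DK_shift hE.toCon h1).1)
    have h3 : MeromorphicAt (sl (KF G) 0) s :=
      SlAt.meromorphicAt (t := s) (ρ := 0) (slAt_K hE h1)
    exact h3.sub (h2.deriv.deriv.neg.div (h2.deriv.pow 2))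
  have h0 : ∀ᶠ s in 𝓝[≠] (0:ℂ), sl (KF G) 0 s -
      (-deriv (deriv (sl G 0)) s / deriv (sl G 0) s ^ 2) = 0 := by
    have hS : St (-(c / 2)) (c / 2) ∈ 𝓝 (0:ℂ) :=
      (isOpen_St _ _).mem_nhds ⟨by simpa using hc, by simpa using hc⟩
    have hb4 : (0:ℂ) ∈ ball (0:ℂ) (c / 4) := mem_ball_self (by positivity)
    have hb : (0:ℂ) ∈ ball (0:ℂ) c := mem_ball_self hc
    have h5 : sl G 0 =ᶠ[𝓝 (0:ℂ)] fun s => F (s, 0) := by
      filter_upwards [hS] with s hs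
      have hs' : s ∈ St (-c) c := ⟨by linarith [hs.1], by linarith [hs.2]⟩
      exact nfM_eq (hE.an (s, 0) ⟨hs', hb⟩) (hE.eqG (s, 0) ⟨hs', hb4⟩)
    refine nhdsWithin_le_nhds ?_
    filter_upwards [hS, h5.deriv, h5.deriv.deriv] with s hs h6 h7
    have hs' : s ∈ Pool.Agent.MP_ae5b4e_an_MERO.St (-c) c :=
      ⟨by linarith [hs.1], by linarith [hs.2]⟩
    have h8 : sl (KF G) 0 s = k (F (s, 0)) :=
      nfM_eq (domS_K hE (p := (s, 0)) ⟨hs, hb4⟩).1 (domS_KG hE (p := (s, 0)) ⟨hs, hb4⟩)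
    rw [h8, h6, h7, (hE.toDat.ode hs').2, sub_self]
  have h1 := domS_id hV hm (t₀ := 0) (t := t) (by simpa using hh) ht h0
  filter_upwards [h1] with s hs
  exact sub_eq_zero.1 hs

end Pool.Agent.MP_ae5b4e_an_NBT
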