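import Mathlib
import Pool.Agent.Lib.MP_ae5b4e_an_LAT.NDPropag
import Pool.Agent.Lib.MP_ae5b4e_an_MERO.GoodOfFamily
import Pool.Agent.Lib.MP_ae5b4e_an_MERO.FamilyOfGood
import Pool.Agent.Lib.MP_ae5b4e_an_MERO.Chart
import Pool.Agent.Lib.MP_ae5b4e_an_NBT.ConD

/-!
# MP_ae5b4e_an, project NB: continuation of the family along the line `ρ = 0`, local step
-/

noncomputable section

namespace Pool.Agent.MP_ae5b4e_an_NBT

open Complex Set Filter Topology Metric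

theorem LU.eventually {f : ℂ → ℂ} {z : ℂ} (h : LU f {z}) : ∀ᶠ w in 𝓝 z, LU f {w} := by
  rcases h z (mem_singleton z) with ⟨h1, h2⟩ | ⟨h0, h1, h2⟩
  · filter_upwards [h1.eventually_analyticAt, h1.deriv.continuousAt.eventually_ne h2] with w hw1 hw2
    rintro x rfl
    exact Or.inl ⟨hw1, hw2⟩
  · have hne : ∀ᶠ w in 𝓝[≠] z, (f w)⁻¹ ≠ 0 := by
      have h3 := h1.differentiableAt.hasDerivAt.eventually_ne (c := (f z)⁻¹) h2
      filter_upwards [h3] with w hw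
      rwa [h0, inv_zero] at hw
    have hne' : ∀ᶠ w in 𝓝 z, w ≠ z → (f w)⁻¹ ≠ 0 := eventually_nhdsWithin_iff.1 hne
    filter_upwards [h1.eventually_analyticAt, h1.deriv.continuousAt.eventually_ne h2,
      hne'] with w hw1 hw2 hw3
    rintro x rfl
    rcases eq_or_ne x z with rfl | hxz
    · exact Or.inr ⟨h0, h1, h2⟩
    · left
      have h4 := hw3 hxz
      have h5 : f = fun y => ((f y)⁻¹)⁻¹ := by
        funext y
        rw [inv_inv]
      refine ⟨?_, ?_⟩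
      · rw [h5]
        exact hw1.inv h4
      · have h6 : HasDerivAt (fun y => ((f y)⁻¹)⁻¹)
            (-(deriv (fun y => (f y)⁻¹) x) / ((f x)⁻¹) ^ 2) x :=
          hw1.differentiableAt.hasDerivAt.fun_inv h4
        rw [← h5] at h6
        rw [h6.deriv]
        exact div_ne_zero (neg_ne_zero.2 hw2) (pow_ne_zero 2 h4)

theorem FamAt.inv {f : ℂ × ℂ → ℂ} {t : ℂ} (h : FamAt f t) : FamAt (fun q => (f q)⁻¹) t := by
  obtain ⟨C, k, h1, h2, h3, h4, h5⟩ := h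
  refine ⟨C, k, h1, h2, h3, h4, ?_⟩
  rcases h5 with h5 | h5
  · right
    simpa using h5
  · left
    exact h5

theorem FamAt.congr {f g : ℂ × ℂ → ℂ} {t : ℂ} (h : FamAt f t) (hfg : EqM f g (t, 0)) :
    FamAt g t := by
  obtain ⟨C, k, h1, h2, h3, h4, h5⟩ := h
  refine ⟨C, k, h1, h2, h3, h4, ?_⟩
  rcases h5 with h5 | h5
  · exact Or.inl (hfg.symm.trans h5)
  · exact Or.inr ((hfg.symm.map fun x => x⁻¹).trans h5)

private lemma tends0 (t : ℂ) : Tendsto (fun s : ℂ => ((s, 0) : ℂ × ℂ)) (𝓝 t) (𝓝 (t, 0)) :=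
  (Continuous.prodMk continuous_id continuous_const).tendsto' _ _ rfl

private lemma an_slice {C : ℂ × ℂ → ℂ} {t : ℂ} (h : AnalyticAt ℂ C (t, 0)) :
    AnalyticAt ℂ (fun s => C (s, 0)) t :=
  AnalyticAt.fun_comp (g := C) (f := fun s : ℂ => ((s, 0) : ℂ × ℂ)) h
    (analyticAt_id.prod analyticAt_const)

theorem FamAt.eventually {f : ℂ × ℂ → ℂ} {t : ℂ} (h : FamAt f t) : ∀ᶠ s in 𝓝 t, FamAt f s := by
  obtain ⟨C, k, h1, h2, h3, h4, h5⟩ := h
  have e1 := (tends0 t).eventually h1.eventually_analyticAt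
  have e2 := (an_slice h1).deriv.continuousAt.eventually_ne h2
  have e3 : ∀ᶠ s in 𝓝 t, AnalyticAt ℂ k (C (s, 0)) :=
    (an_slice h1).continuousAt.eventually h3.eventually_analyticAt
  have e4 := (tends0 t).eventually h4.eventually_nhds
  have e5 : ∀ᶠ s in 𝓝 t, EqM f C (s, 0) ∨ EqM (fun q => (f q)⁻¹) C (s, 0) := by
    rcases h5 with h5 | h5
    · exact ((tends0 t).eventually h5.eventually).mono fun s hs => Or.inl hs
    · exact ((tends0 t).eventually h5.eventually).mono fun s hs => Or.inr hs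
  filter_upwards [e1, e2, e3, e4, e5] with s s1 s2 s3 s4 s5
  exact ⟨C, k, s1, s2, s3, s4, s5⟩

/-- slice in the finite chart -/
private lemma slA {f C : ℂ × ℂ → ℂ} {t : ℂ} (hC : AnalyticAt ℂ C (t, 0))
    (h : EqM f C (t, 0)) : ∀ᶠ s in 𝓝 t, sl f 0 s = C (s, 0) := by
  filter_upwards [(tends0 t).eventually hC.eventually_analyticAt,
    (tends0 t).eventually h.eventually] with s h1 h2
  exact nfM_eq h1 h2

/-- slice in the chart at infinity -/
private lemma slB {f C : ℂ × ℂ → ℂ} {t : ℂ} (hC : AnalyticAt ℂ C (t, 0))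
    (hd : deriv (fun s => C (s, 0)) t ≠ 0)
    (h : EqM (fun q => (f q)⁻¹) C (t, 0)) : ∀ᶠ s in 𝓝 t, sl f 0 s = (C (s, 0))⁻¹ := by
  filter_upwards [(tends0 t).eventually hC.eventually_analyticAt,
    (tends0 t).eventually h.eventually,
    (an_slice hC).deriv.continuousAt.eventually_ne hd] with s h1 h2 h3
  by_cases h0 : C (s, 0) = 0
  · -- no analytic germ
    rw [h0, inv_zero]
    have hno : ¬ ∃ D : ℂ × ℂ → ℂ, AnalyticAt ℂ D (s, 0) ∧ EqM f D (s, 0) := by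
      rintro ⟨D, hD, hfD⟩
      have hden : Den C (s, 0) := by
        refine ⟨h1, fun hz => h3 ?_⟩
        have hz' : (fun x => C (x, 0)) =ᶠ[𝓝 s] fun _ => 0 := (tends0 s).eventually hz
        rw [hz'.deriv_eq]
        simp
      have hprod : EqM (fun q => D q * C q) (fun _ => 1) (s, 0) := by
        obtain ⟨B1, hB1, e1⟩ := hfD
        obtain ⟨B2, hB2, e2⟩ := h2
        refine ⟨_, (hB1.mul hB2).mul hden, ?_⟩
        filter_upwards [e1, e2] with q q1 q2 q0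
        have c1 := left_ne_zero_of_mul (left_ne_zero_of_mul q0)
        have c2 := right_ne_zero_of_mul (left_ne_zero_of_mul q0)
        have c3 := right_ne_zero_of_mul q0
        have d1 := q1 c1
        have d2 : (f q)⁻¹ = C q := q2 c2
        have d3 : f q ≠ 0 := by
          intro hf
          rw [hf, inv_zero] at d2
          exact c3 d2.symm
        rw [← d1, ← d2]
        exact mul_inv_cancel₀ d3
      have hev := (EqM.eventuallyEq (hD.mul h1) analyticAt_const hprod).self_of_nhds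
      have hev' : D (s, 0) * C (s, 0) = 1 := hev
      rw [h0, mul_zero] at hev'
      exact zero_ne_one hev'
    unfold sl nfM
    rw [dif_neg hno]
  · have h4 : EqM f (fun q => (C q)⁻¹) (s, 0) := by
      have h5 := h2.map fun x => x⁻¹
      simpa using h5
    exact nfM_eq (h1.inv h0) h4

/-- the limit curve is locally univalent -/
theorem FamAt.lu {f : ℂ × ℂ → ℂ} {t : ℂ} (h : FamAt f t) : LU (sl f 0) {t} := by
  obtain ⟨C, k, h1, h2, h3, h4, h5⟩ := h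
  rintro x rfl
  rcases h5 with h5 | h5
  · left
    have e : (fun s => C (s, 0)) =ᶠ[𝓝 x] sl f 0 := (slA h1 h5).mono fun s hs => hs.symm
    refine ⟨(an_slice h1).congr e, ?_⟩
    rw [← e.deriv_eq]
    exact h2
  · have e : (fun s => (C (s, 0))⁻¹) =ᶠ[𝓝 x] sl f 0 := (slB h1 h2 h5).mono fun s hs => hs.symm
    by_cases h0 : C (x, 0) = 0
    · right
      have e2 : (fun s => C (s, 0)) =ᶠ[𝓝 x] fun w => (sl f 0 w)⁻¹ := by
        filter_upwards [e] with s hs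
        rw [← hs, inv_inv]
      refine ⟨?_, (an_slice h1).congr e2, ?_⟩
      · have e0 : (C (x, 0))⁻¹ = sl f 0 x := e.self_of_nhds
        rw [← e0, h0, inv_zero]
      · rw [← e2.deriv_eq]
        exact h2
    · left
      refine ⟨((an_slice h1).inv h0).congr e, ?_⟩
      rw [← e.deriv_eq]
      have h6 : HasDerivAt (fun s => (C (s, 0))⁻¹)
          (-(deriv (fun s => C (s, 0)) x) / (C (x, 0)) ^ 2) x :=
        (an_slice h1).differentiableAt.hasDerivAt.fun_inv h0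
      rw [h6.deriv]
      exact div_ne_zero (neg_ne_zero.2 h2) (pow_ne_zero 2 h0)

private lemma sl_inv {f : ℂ × ℂ → ℂ} {t : ℂ} (h : FamAt f t) :
    ∀ᶠ s in 𝓝 t, sl (fun q => (f q)⁻¹) 0 s = (sl f 0 s)⁻¹ := by
  obtain ⟨C, k, h1, h2, h3, h4, h5⟩ := h
  rcases h5 with h5 | h5
  · have h6 : EqM (fun q => ((f q)⁻¹)⁻¹) C (t, 0) := by simpa using h5
    filter_upwards [slA h1 h5, slB h1 h2 h6] with s s1 s2
    rw [s1, s2]
  · filter_upwards [slB h1 h2 h5, slA h1 h5] with s s1 s2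
    rw [s1, s2, inv_inv]

/-! ### separation -/

private lemma sep {C : ℂ × ℂ → ℂ} {t : ℂ} (hC : AnalyticAt ℂ C (t, 0))
    (hd : deriv (fun s => C (s, 0)) t ≠ 0) :
    ∀ᶠ p in 𝓝 ((t, 0) : ℂ × ℂ), p.2 ≠ 0 → C (p.1 + p.2, p.2) - C p ≠ 0 := by
  have h1 : HasStrictFDerivAt C (fderiv ℂ C (t, 0)) (t, 0) := hC.hasStrictFDerivAt
  have hA : fderiv ℂ C (t, 0) (1, 0) ≠ 0 := by
    rw [← (MP_ae5b4e_an_MERO.GoodOfFamily.hasStrictDerivAt_fst hC).hasDerivAt.deriv]; exact hd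
  set A := fderiv ℂ C (t, 0) with hAdef
  have h3 := h1.isLittleO.def (c := ‖A (1, 0)‖ / 2) (by positivity)
  have h4 : Tendsto (fun p : ℂ × ℂ => (((p.1 + p.2, p.2) : ℂ × ℂ), p)) (𝓝 (t, 0))
      (𝓝 (((t, 0) : ℂ × ℂ), ((t, 0) : ℂ × ℂ))) := by
    have : Continuous (fun p : ℂ × ℂ => (((p.1 + p.2, p.2) : ℂ × ℂ), p)) := by fun_prop
    exact this.tendsto' _ _ (by simp)
  filter_upwards [h4.eventually h3] with p hp h0 hz
  have e : ((p.1 + p.2, p.2) : ℂ × ℂ) - p = (p.2, 0) := by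
    ext <;> simp
  rw [e, hz, zero_sub, norm_neg] at hp
  have e2 : A (p.2, 0) = p.2 * A (1, 0) := by
    have : ((p.2, 0) : ℂ × ℂ) = p.2 • ((1, 0) : ℂ × ℂ) := by simp
    rw [this, map_smul, smul_eq_mul]
  have e3 : ‖((p.2, 0) : ℂ × ℂ)‖ = ‖p.2‖ := by
    simp [Prod.norm_def]
  rw [e2, e3, norm_mul] at hp
  have hp0 : 0 < ‖p.2‖ := norm_pos_iff.2 h0
  have hA0 : 0 < ‖A (1, 0)‖ := norm_pos_iff.2 hA
  nlinarith [mul_pos hp0 hA0]

private lemma sep' {C : ℂ × ℂ → ℂ} {t : ℂ} (hC : AnalyticAt ℂ C (t, 0))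
    (hd : deriv (fun s => C (s, 0)) t ≠ 0) :
    ∀ᶠ p in 𝓝 ((t, 0) : ℂ × ℂ), p.2 ≠ 0 → C (p.1 - p.2, p.2) - C p ≠ 0 := by
  have h4 : Tendsto (fun p : ℂ × ℂ => ((p.1 - p.2, p.2) : ℂ × ℂ)) (𝓝 (t, 0))
      (𝓝 ((t, 0) : ℂ × ℂ)) := by
    have : Continuous (fun p : ℂ × ℂ => ((p.1 - p.2, p.2) : ℂ × ℂ)) := by fun_prop
    exact this.tendsto' _ _ (by simp)
  filter_upwards [h4.eventually (sep hC hd)] with p hp h0
  have h1 := hp h0
  simp only [sub_add_cancel] at h1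
  intro h2
  apply h1
  have h3 : C p - C (p.1 - p.2, p.2) = 0 := by
    rw [← neg_sub, h2, neg_zero]
  exact h3

/-! ### the equation of the limit curve -/

private lemma line_deriv {F : ℂ × ℂ → ℂ} {x v : ℂ × ℂ} (hF : AnalyticAt ℂ F x) :
    ∀ᶠ ρ in 𝓝 (0:ℂ), HasDerivAt (fun ρ : ℂ => F (x + ρ • v)) (fderiv ℂ F (x + ρ • v) v) ρ := by
  have hc : Tendsto (fun ρ : ℂ => x + ρ • v) (𝓝 0) (𝓝 x) := by
    have : Continuous fun ρ : ℂ => x + ρ • v := by fun_prop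
    simpa using this.tendsto 0
  filter_upwards [hc.eventually hF.eventually_analyticAt] with ρ hρ
  have h1 : HasDerivAt (fun ρ : ℂ => x + ρ • v) v ρ := by
    simpa using ((hasDerivAt_id ρ).smul_const v).const_add x
  exact hρ.differentiableAt.hasFDerivAt.comp_hasDerivAt ρ h1

private lemma line_deriv2 {F : ℂ × ℂ → ℂ} {x v : ℂ × ℂ} (hF : AnalyticAt ℂ F x) :
    HasDerivAt (fun ρ : ℂ => fderiv ℂ F (x + ρ • v) v) (fderiv ℂ (fderiv ℂ F) x v v) 0 := by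
  have h1 : HasDerivAt (fun ρ : ℂ => x + ρ • v) v 0 := by
    simpa using ((hasDerivAt_id (0:ℂ)).smul_const v).const_add x
  have h2 : HasFDerivAt (fderiv ℂ F) (fderiv ℂ (fderiv ℂ F) x) (x + (0:ℂ) • v) := by
    simpa using hF.fderiv.differentiableAt.hasFDerivAt
  have h3 : HasDerivAt (fun ρ : ℂ => fderiv ℂ F (x + ρ • v)) (fderiv ℂ (fderiv ℂ F) x v) 0 :=
    h2.comp_hasDerivAt (0:ℂ) h1
  simpa using h3.clm_apply (hasDerivAt_const (0:ℂ) v)

private lemma line_analytic {F : ℂ × ℂ → ℂ} {x v : ℂ × ℂ} (hF : AnalyticAt ℂ F x) :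
    AnalyticAt ℂ (fun ρ : ℂ => F (x + ρ • v)) 0 := by
  have h1 : AnalyticAt ℂ (fun ρ : ℂ => x + ρ • v) 0 :=
    analyticAt_const.add (analyticAt_id.smul analyticAt_const)
  exact AnalyticAt.fun_comp (by simpa using hF) h1

/-- second order Taylor formula -/
private lemma tend2 {Φ : ℂ → ℂ} (h : AnalyticAt ℂ Φ 0) (h0 : Φ 0 = 0) (h1 : deriv Φ 0 = 0) :
    Tendsto (fun ρ => Φ ρ / ρ ^ 2) (𝓝[≠] 0) (𝓝 (deriv (deriv Φ) 0 / 2)) := by
  have hO := (h.hasFPowerSeriesAt).isBigO_sub_partialSum_pow 3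
  have hs : ∀ ρ : ℂ, (FormalMultilinearSeries.ofScalars ℂ
      (fun n => iteratedDeriv n Φ 0 / n.factorial)).partialSum 3 ρ =
      ρ ^ 2 * (deriv (deriv Φ) 0 / 2) := by
    intro ρ
    simp [FormalMultilinearSeries.partialSum, Finset.sum_range_succ,
      FormalMultilinearSeries.ofScalars, h0, h1, iteratedDeriv_succ, iteratedDeriv_zero]
    ring
  simp only [hs, zero_add] at hO
  have h2 : Tendsto (fun ρ : ℂ => Φ ρ / ρ ^ 2 - deriv (deriv Φ) 0 / 2) (𝓝[≠] 0) (𝓝 0) := by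
    have h3 : (fun ρ : ℂ => Φ ρ / ρ ^ 2 - deriv (deriv Φ) 0 / 2) =O[𝓝[≠] 0] fun ρ => ρ := by
      obtain ⟨c, hc⟩ := hO.bound
      refine Asymptotics.IsBigO.of_bound c ?_
      filter_upwards [hc.filter_mono nhdsWithin_le_nhds, self_mem_nhdsWithin] with ρ hρ hρ0
      have hρ0' : ρ ≠ 0 := hρ0
      have e : Φ ρ / ρ ^ 2 - deriv (deriv Φ) 0 / 2 =
          (Φ ρ - ρ ^ 2 * (deriv (deriv Φ) 0 / 2)) / ρ ^ 2 := by field_simp
      rw [e, norm_div, norm_pow, div_le_iff₀ (by positivity)]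
      calc _ ≤ c * ‖‖ρ‖ ^ 3‖ := hρ
        _ = c * ‖ρ‖ * ‖ρ‖ ^ 2 := by
          rw [norm_pow, norm_norm]
          ring
    exact h3.trans_tendsto (tendsto_id.mono_left nhdsWithin_le_nhds)
  simpa using h2.add_const (deriv (deriv Φ) 0 / 2)

private lemma ode {k : ℂ → ℂ} {F : ℂ × ℂ → ℂ} {t : ℂ} (hF : AnalyticAt ℂ F (t, 0))
    (hd : deriv (fun s => F (s, 0)) t ≠ 0) (hk : ContinuousAt k (F (t, 0)))
    (hfe : ∀ᶠ p in 𝓝 ((t, 0) : ℂ × ℂ), p.2 ≠ 0 →
      (F (p.1 + p.2, p.2) - F p)⁻¹ + (F (p.1 - p.2, p.2) - F p)⁻¹ = k (F p)) :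
    deriv (deriv (fun s => F (s, 0))) t =
      -(k (F (t, 0))) * (deriv (fun s => F (s, 0)) t) ^ 2 := by
  set f : ℂ → ℂ := fun s => F (s, 0) with hfdef
  set x : ℂ × ℂ := (t, 0) with hx
  set φ : ℂ × ℂ → ℂ → ℂ := fun v ρ => F (x + ρ • v) with hφ
  have hφan : ∀ v, AnalyticAt ℂ (φ v) 0 := fun v => line_analytic hF
  have hφ1 : ∀ v, deriv (φ v) =ᶠ[𝓝 0] fun ρ => fderiv ℂ F (x + ρ • v) v := fun v => by
    filter_upwards [line_deriv (v := v) hF] with ρ hρ using hρ.deriv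
  have hφ0 : ∀ v, φ v 0 = F x := fun v => by simp [hφ]
  have hφ1' : ∀ v, deriv (φ v) 0 = fderiv ℂ F x v := fun v => by
    rw [(hφ1 v).self_of_nhds]
    simp
  have hφ2 : ∀ v, deriv (deriv (φ v)) 0 = fderiv ℂ (fderiv ℂ F) x v v := fun v => by
    rw [(hφ1 v).deriv_eq]
    exact (line_deriv2 hF).deriv
  have hφd : ∀ v, DifferentiableAt ℂ (φ v) 0 := fun v => (hφan v).differentiableAt
  have hfφ : ∀ s, f (t + s) = φ (1, 0) s := fun s => by simp [hφ, hfdef, hx]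
  have hf1 : deriv f t = fderiv ℂ F x (1, 0) := by
    rw [← hφ1' (1, 0)]
    have : φ (1, 0) = fun s => f (t + s) := by
      funext s
      exact (hfφ s).symm
    rw [this, deriv_comp_const_add, add_zero]
  have hf2 : deriv (deriv f) t = fderiv ℂ (fderiv ℂ F) x (1, 0) (1, 0) := by
    rw [← hφ2 (1, 0)]
    have : φ (1, 0) = fun s => f (t + s) := by
      funext s
      exact (hfφ s).symm
    have h2 : deriv (φ (1, 0)) = fun s => deriv f (t + s) := by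
      funext s
      rw [this, deriv_comp_const_add]
    rw [h2, deriv_comp_const_add, add_zero]
  set Φ : ℂ → ℂ := fun ρ => φ (1, 1) ρ + φ (-1, 1) ρ - 2 * φ (0, 1) ρ with hΦ
  have hΦan : AnalyticAt ℂ Φ 0 :=
    ((hφan _).add (hφan _)).sub (analyticAt_const.mul (hφan _))
  have hev : deriv Φ =ᶠ[𝓝 0] fun ρ =>
      deriv (φ (1, 1)) ρ + deriv (φ (-1, 1)) ρ - 2 * deriv (φ (0, 1)) ρ := by
    filter_upwards [(hφan (1, 1)).eventually_analyticAt, (hφan (-1, 1)).eventually_analyticAt,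
      (hφan (0, 1)).eventually_analyticAt] with ρ h1 h2 h3
    exact (((h1.differentiableAt.hasDerivAt.add h2.differentiableAt.hasDerivAt)).sub
      (h3.differentiableAt.hasDerivAt.const_mul 2)).deriv
  have eab : ((1:ℂ), (1:ℂ)) = (1, 0) + (0, 1) := by simp
  have eab' : ((-1:ℂ), (1:ℂ)) = -(1, 0) + (0, 1) := by simp
  have hΦ0 : Φ 0 = 0 := by
    simp only [hΦ, hφ0]
    ring
  have hΦ1 : deriv Φ 0 = 0 := by
    rw [hev.self_of_nhds]
    simp only [hφ1', eab, eab', map_add, map_neg]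
    ring
  have hΦ2 : deriv (deriv Φ) 0 = 2 * deriv (deriv f) t := by
    rw [hev.deriv_eq]
    have h1 : HasDerivAt (fun ρ => deriv (φ (1, 1)) ρ + deriv (φ (-1, 1)) ρ -
        2 * deriv (φ (0, 1)) ρ) (deriv (deriv (φ (1, 1))) 0 + deriv (deriv (φ (-1, 1))) 0 -
        2 * deriv (deriv (φ (0, 1))) 0) 0 :=
      (((hφan _).deriv.differentiableAt.hasDerivAt).add
        ((hφan _).deriv.differentiableAt.hasDerivAt)).sub
        ((hφan _).deriv.differentiableAt.hasDerivAt.const_mul 2)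
    rw [h1.deriv, hf2]
    simp only [hφ2, eab, eab', map_add, map_neg, _root_.add_apply,
      _root_.neg_apply]
    ring
  have hlim1 := tend2 hΦan hΦ0 hΦ1
  rw [hΦ2] at hlim1
  -- first differences
  have hP : Tendsto (fun ρ : ℂ => ρ⁻¹ * (φ (1, 1) ρ - φ (0, 1) ρ)) (𝓝[≠] 0)
      (𝓝 (deriv f t)) := by
    have h1 : HasDerivAt (fun ρ => φ (1, 1) ρ - φ (0, 1) ρ)
        (deriv (φ (1, 1)) 0 - deriv (φ (0, 1)) 0) 0 :=
      (hφd _).hasDerivAt.sub (hφd _).hasDerivAt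
    rw [hasDerivAt_iff_tendsto_slope_zero] at h1
    have e : deriv (φ (1, 1)) 0 - deriv (φ (0, 1)) 0 = deriv f t := by
      rw [hφ1', hφ1', hf1, eab, map_add]
      ring
    rw [e] at h1
    simpa [hφ0] using h1
  have hM : Tendsto (fun ρ : ℂ => ρ⁻¹ * (φ (-1, 1) ρ - φ (0, 1) ρ)) (𝓝[≠] 0)
      (𝓝 (-deriv f t)) := by
    have h1 : HasDerivAt (fun ρ => φ (-1, 1) ρ - φ (0, 1) ρ)
        (deriv (φ (-1, 1)) 0 - deriv (φ (0, 1)) 0) 0 :=
      (hφd _).hasDerivAt.sub (hφd _).hasDerivAt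
    rw [hasDerivAt_iff_tendsto_slope_zero] at h1
    have e : deriv (φ (-1, 1)) 0 - deriv (φ (0, 1)) 0 = -deriv f t := by
      rw [hφ1', hφ1', hf1, eab', map_add, map_neg]
      ring
    rw [e] at h1
    simpa [hφ0] using h1
  have hK : Tendsto (fun ρ : ℂ => k (φ (0, 1) ρ)) (𝓝[≠] 0) (𝓝 (k (f t))) := by
    have h1 : ContinuousAt (fun ρ : ℂ => k (φ (0, 1) ρ)) 0 := by
      refine ContinuousAt.comp (g := k) (f := φ (0, 1)) ?_ (hφan _).continuousAt
      rw [hφ0]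
      exact hk
    have h2 := h1.tendsto
    rw [hφ0] at h2
    exact h2.mono_left nhdsWithin_le_nhds
  -- the functional equation
  have hρ0 : Tendsto (fun ρ : ℂ => ((t, ρ) : ℂ × ℂ)) (𝓝 0) (𝓝 (t, 0)) :=
    (Continuous.prodMk continuous_const continuous_id).tendsto' _ _ rfl
  have heq : (fun ρ => Φ ρ / ρ ^ 2) =ᶠ[𝓝[≠] 0] fun ρ => k (φ (0, 1) ρ) *
      (ρ⁻¹ * (φ (1, 1) ρ - φ (0, 1) ρ)) * (ρ⁻¹ * (φ (-1, 1) ρ - φ (0, 1) ρ)) := by
    filter_upwards [self_mem_nhdsWithin, (hρ0.eventually hfe).filter_mono nhdsWithin_le_nhds,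
      (hρ0.eventually (sep hF hd)).filter_mono nhdsWithin_le_nhds,
      (hρ0.eventually (sep' hF hd)).filter_mono nhdsWithin_le_nhds] with ρ h1 h2 h3 h4
    have hρ : ρ ≠ 0 := h1
    have e1 : φ (1, 1) ρ = F (t + ρ, ρ) := by simp [hφ, hx]
    have e2 : φ (-1, 1) ρ = F (t - ρ, ρ) := by simp [hφ, hx, sub_eq_add_neg]
    have e3 : φ (0, 1) ρ = F (t, ρ) := by simp [hφ, hx]
    have hfe := h2 hρ
    have hp : F (t + ρ, ρ) - F (t, ρ) ≠ 0 := h3 hρ
    have hm : F (t - ρ, ρ) - F (t, ρ) ≠ 0 := h4 hρ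
    simp only [hΦ]
    rw [e1, e2, e3, ← hfe]
    field_simp
    ring
  have hlim2 : Tendsto (fun ρ => Φ ρ / ρ ^ 2) (𝓝[≠] 0)
      (𝓝 (k (f t) * deriv f t * (-deriv f t))) :=
    ((hK.mul hP).mul hM).congr' heq.symm
  have := tendsto_nhds_unique hlim1 hlim2
  have h2 : deriv (deriv f) t = k (f t) * deriv f t * (-deriv f t) := by
    rw [← this]
    ring
  rw [h2]
  ring

/-! ### normal form of the germ -/

private lemma norm_form {G : ℂ × ℂ → ℂ} {g : ℂ → ℂ} {t₁ : ℂ} (h : FamAt G t₁)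
    (hg : AnalyticAt ℂ g t₁)
    (hs : ∀ᶠ s in 𝓝[≠] t₁, sl G 0 s = g s) :
    ∃ (C : ℂ × ℂ → ℂ) (k : ℂ → ℂ), AnalyticAt ℂ C (t₁, 0) ∧
      (∀ᶠ s in 𝓝 t₁, C (s, 0) = g s) ∧ AnalyticAt ℂ k (g t₁) ∧
      (∀ᶠ p in 𝓝 ((t₁, 0) : ℂ × ℂ), p.2 ≠ 0 →
        (C (p.1 + p.2, p.2) - C p)⁻¹ + (C (p.1 - p.2, p.2) - C p)⁻¹ = k (C p)) ∧
      EqM G C (t₁, 0) := by
  obtain ⟨C, k, h1, h2, h3, h4, h5⟩ := h
  rcases h5 with h5 | h5
  · have e : ∀ᶠ s in 𝓝[≠] t₁, C (s, 0) = g s := by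
      filter_upwards [hs, (slA h1 h5).filter_mono nhdsWithin_le_nhds] with s s1 s2
      rw [← s2, s1]
    have e' : ∀ᶠ s in 𝓝 t₁, C (s, 0) = g s :=
      ((an_slice h1).frequently_eq_iff_eventually_eq hg).1 e.frequently
    refine ⟨C, k, h1, e', ?_, h4, h5⟩
    rw [← e'.self_of_nhds]
    exact h3
  · have hne : ∀ᶠ s in 𝓝[≠] t₁, C (s, 0) ≠ 0 :=
      (an_slice h1).differentiableAt.hasDerivAt.eventually_ne h2
    have e : ∀ᶠ s in 𝓝[≠] t₁, C (s, 0) * g s = 1 := by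
      filter_upwards [hs, (slB h1 h2 h5).filter_mono nhdsWithin_le_nhds, hne] with s s1 s2 s3
      rw [← s1, s2, mul_inv_cancel₀ s3]
    have e' : ∀ᶠ s in 𝓝 t₁, C (s, 0) * g s = 1 :=
      (((an_slice h1).mul hg).frequently_eq_iff_eventually_eq analyticAt_const).1 e.frequently
    have e0 := e'.self_of_nhds
    have hC0 : C (t₁, 0) ≠ 0 := left_ne_zero_of_mul_eq_one e0
    have hg0 : g t₁ ≠ 0 := right_ne_zero_of_mul_eq_one e0
    have hCne : ∀ᶠ p in 𝓝 ((t₁, 0) : ℂ × ℂ), C p ≠ 0 := h1.continuousAt.eventually_ne hC0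
    have hplt : Tendsto (fun p : ℂ × ℂ => ((p.1 + p.2, p.2) : ℂ × ℂ)) (𝓝 (t₁, 0))
        (𝓝 ((t₁, 0) : ℂ × ℂ)) := by
      have : Continuous (fun p : ℂ × ℂ => ((p.1 + p.2, p.2) : ℂ × ℂ)) := by fun_prop
      exact this.tendsto' _ _ (by simp)
    have hmit : Tendsto (fun p : ℂ × ℂ => ((p.1 - p.2, p.2) : ℂ × ℂ)) (𝓝 (t₁, 0))
        (𝓝 ((t₁, 0) : ℂ × ℂ)) := by
      have : Continuous (fun p : ℂ × ℂ => ((p.1 - p.2, p.2) : ℂ × ℂ)) := by fun_prop
      exact this.tendsto' _ _ (by simp)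
    refine ⟨fun q => (C q)⁻¹, MP_ae5b4e_an_MERO.Chart.k0 k 0, h1.inv hC0, ?_, ?_, ?_, ?_⟩
    · filter_upwards [e'] with s s1
      exact inv_eq_of_mul_eq_one_right s1
    · apply MP_ae5b4e_an_MERO.Chart.analyticAt_k0 hg0
      have : (0:ℂ) + (g t₁)⁻¹ = C (t₁, 0) := by
        rw [zero_add]
        exact (eq_inv_of_mul_eq_one_left e0).symm
      rw [this]
      exact h3
    · filter_upwards [h4, hCne, hplt.eventually hCne, hmit.eventually hCne, sep h1 h2,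
        sep' h1 h2] with p p1 p2 p3 p4 p5 p6 p0
      have key : ∀ a b : ℂ, a ≠ 0 → b ≠ 0 → b - a ≠ 0 →
          (b⁻¹ - a⁻¹)⁻¹ = -a - a ^ 2 * (b - a)⁻¹ := by
        intro a b ha hb hba
        have e1 : b⁻¹ - a⁻¹ = -(b - a) / (a * b) := by
          field_simp
          ring
        rw [e1, inv_div]
        field_simp
        ring
      have q1 := p1 p0
      rw [key _ _ p2 p3 (p5 p0), key _ _ p2 p4 (p6 p0)]
      unfold MP_ae5b4e_an_MERO.Chart.k0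
      rw [zero_add, inv_inv, ← q1]
      field_simp
      ring
    · have h6 := h5.map fun x => x⁻¹
      simpa using h6

private lemma deriv_near {C : ℂ × ℂ → ℂ} {g : ℂ → ℂ} {t : ℂ}
    (h : ∀ᶠ s in 𝓝 t, C (s, 0) = g s) : deriv (fun s => C (s, 0)) t = deriv g t := by
  have h' : (fun s => C (s, 0)) =ᶠ[𝓝 t] g := h
  exact h'.deriv_eq

/-- the function `k` of the germ is determined by the limit curve -/
private lemma k_det {C : ℂ × ℂ → ℂ} {g k k' : ℂ → ℂ} {t₁ : ℂ} (hC : AnalyticAt ℂ C (t₁, 0))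
    (hCg : ∀ᶠ s in 𝓝 t₁, C (s, 0) = g s) (hg : AnalyticAt ℂ g t₁) (hgd : deriv g t₁ ≠ 0)
    (hk : AnalyticAt ℂ k (g t₁))
    (hfe : ∀ᶠ p in 𝓝 ((t₁, 0) : ℂ × ℂ), p.2 ≠ 0 →
        (C (p.1 + p.2, p.2) - C p)⁻¹ + (C (p.1 - p.2, p.2) - C p)⁻¹ = k (C p))
    (hk' : ∀ᶠ s in 𝓝 t₁, k' (g s) = -(deriv (deriv g) s) / (deriv g s) ^ 2) :
    k =ᶠ[𝓝 (g t₁)] k' := by
  have hmap : Filter.map g (𝓝 t₁) = 𝓝 (g t₁) :=
    hg.hasStrictDerivAt.map_nhds_eq hgd
  rw [← hmap, EventuallyEq, eventually_map]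
  filter_upwards [(tends0 t₁).eventually hC.eventually_analyticAt, hCg.eventually_nhds,
    hg.deriv.continuousAt.eventually_ne hgd, hg.continuousAt.eventually hk.eventually_analyticAt,
    (tends0 t₁).eventually hfe.eventually_nhds, hk'] with s s1 s2 s3 s4 s5 s6
  have s7 : C (s, 0) = g s := s2.self_of_nhds
  have s8 : deriv (fun x => C (x, 0)) s = deriv g s := deriv_near s2
  have s9 : deriv (deriv fun x => C (x, 0)) s = deriv (deriv g) s := by
    have h' : (fun s => C (s, 0)) =ᶠ[𝓝 s] g := s2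
    exact h'.deriv.deriv_eq
  have h1 := ode s1 (by rw [s8]; exact s3) (by rw [s7]; exact s4.continuousAt) s5
  rw [s7, s8, s9] at h1
  rw [s6, h1]
  field_simp

open MP_ae5b4e_an_ND in
/-- **local step**, for an analytic limit curve -/
private lemma reg_step_an {g : ℂ → ℂ} {b : ℂ} (hg : AnalyticAt ℂ g b) (hgd : deriv g b ≠ 0) :
    ∃ δ > 0, ∀ (G : ℂ × ℂ → ℂ) (t₁ : ℂ), t₁ ∈ ball b δ → FamAt G t₁ →
      (∀ᶠ s in 𝓝[≠] t₁, sl G 0 s = g s) →
      ∃ δ' > 0, ∃ H : ℂ × ℂ → ℂ, Mer H (ball b δ ×ˢ ball 0 δ') ∧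
        (∀ t ∈ ball b δ, FamAt H t) ∧ EqM H G (t₁, 0) := by
  -- local inverse
  obtain ⟨n, hn1, hn2⟩ : ∃ n : ℂ → ℂ, AnalyticAt ℂ n (g b) ∧ ∀ᶠ s in 𝓝 b, n (g s) = s :=
    ⟨_, hg.analyticAt_localInverse hgd, HasStrictDerivAt.eventually_left_inverse ..⟩
  set k : ℂ → ℂ := fun x => -(deriv (deriv g) (n x)) / (deriv g (n x)) ^ 2 with hkdef
  have hnb : n (g b) = b := hn2.self_of_nhds
  have hkan : AnalyticAt ℂ k (g b) := by
    have h1 : AnalyticAt ℂ (fun x => deriv g (n x)) (g b) :=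
      AnalyticAt.fun_comp (g := deriv g) (f := n) (by rw [hnb]; exact hg.deriv) hn1
    have h2 : AnalyticAt ℂ (fun x => deriv (deriv g) (n x)) (g b) :=
      AnalyticAt.fun_comp (g := deriv (deriv g)) (f := n) (by rw [hnb]; exact hg.deriv.deriv) hn1
    exact h2.neg.div (h1.pow 2) (pow_ne_zero 2 (by rw [hnb]; exact hgd))
  obtain ⟨r, hr, hkr⟩ := Metric.eventually_nhds_iff_ball.1 hkan.eventually_analyticAt
  have hgr : ∀ᶠ s in 𝓝 b, g s ∈ ball (g b) r := hg.continuousAt.eventually (ball_mem_nhds _ hr)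
  have hkg : ∀ᶠ s in 𝓝 b, k (g s) = -(deriv (deriv g) s) / (deriv g s) ^ 2 := by
    filter_upwards [hn2] with s hs
    simp only [hkdef]
    rw [hs]
  obtain ⟨d1, hd1, hb1⟩ := Metric.eventually_nhds_iff_ball.1
    (((hg.eventually_analyticAt.and (hg.deriv.continuousAt.eventually_ne hgd)).and hgr).and
      hkg.eventually_nhds)
  by_cases hGood : Good k (g b)
  · obtain ⟨d2, hd2, hfam⟩ := MP_ae5b4e_an_MERO.family_of_good hGood hg hgd
    set δ := min d1 d2 / 2 with hδ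
    have hδ0 : 0 < δ := by positivity
    have hδ1 : δ < d1 := by
      have := min_le_left d1 d2
      rw [hδ]; linarith
    have hδ2 : δ < d2 := by
      have := min_le_right d1 d2
      rw [hδ]; linarith
    refine ⟨δ, hδ0, fun G t₁ ht₁ hF hs => ?_⟩
    obtain ⟨⟨⟨g1, g2⟩, g3⟩, g4⟩ := hb1 t₁ (ball_subset_ball hδ1.le ht₁)
    obtain ⟨C, k1, c1, c2, c3, c4, c5⟩ := norm_form hF g1 hs
    have hkk : k1 =ᶠ[𝓝 (g t₁)] k := k_det c1 c2 g1 g2 c3 c4 g4
    have c20 : C (t₁, 0) = g t₁ := c2.self_of_nhds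
    have c4' : ∀ᶠ p in 𝓝 ((t₁, 0) : ℂ × ℂ), p.2 ≠ 0 →
        (C (p.1 + p.2, p.2) - C p)⁻¹ + (C (p.1 - p.2, p.2) - C p)⁻¹ = k (C p) := by
      have h1 : ∀ᶠ p in 𝓝 ((t₁, 0) : ℂ × ℂ), k1 (C p) = k (C p) := by
        have h2 := c1.continuousAt
        rw [ContinuousAt, c20] at h2
        exact h2.eventually hkk
      filter_upwards [c4, h1] with p p1 p2 p0
      rw [p1 p0, p2]
    obtain ⟨G', a1, a2, a3⟩ := hfam C t₁ (ball_subset_ball hδ2.le ht₁) c1 c2 c4'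
    -- a product neighbourhood
    obtain ⟨u, v, hu, hv, hbu, h0v, huv⟩ := generalized_tube_lemma (s := closedBall b δ)
      (isCompact_closedBall b δ) (t := {(0:ℂ)}) isCompact_singleton
      (n := {p | AnalyticAt ℂ G' p}) (isOpen_analyticAt ℂ G') (by
        rintro ⟨t, z⟩ ⟨ht, hz⟩
        rw [mem_singleton_iff] at hz
        simp only at hz ht
        subst hz
        exact a1 t (closedBall_subset_ball hδ2 ht))
    obtain ⟨δ', hδ', hb'⟩ := Metric.isOpen_iff.1 hv 0 (h0v (mem_singleton 0))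
    have han : AnalyticOnNhd ℂ G' (ball b δ ×ˢ ball 0 δ') := fun p hp =>
      huv ⟨hbu (ball_subset_closedBall hp.1), hb' hp.2⟩
    -- the limit curve on the ball
    have hlim : ∀ t ∈ ball b δ, G' (t, 0) = g t := by
      have h1 : AnalyticOnNhd ℂ (fun t => G' (t, 0)) (ball b δ) := fun t ht =>
        an_slice (a1 t (ball_subset_ball hδ2.le ht))
      have h2 : AnalyticOnNhd ℂ g (ball b δ) := fun t ht =>
        (hb1 t (ball_subset_ball hδ1.le ht)).1.1.1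
      exact h1.eqOn_of_preconnected_of_eventuallyEq h2 (convex_ball b δ).isPreconnected ht₁ a2
    have hlim' : ∀ t ∈ ball b δ, ∀ᶠ s in 𝓝 t, G' (s, 0) = g s := fun t ht => by
      filter_upwards [isOpen_ball.mem_nhds ht] with s hs using hlim s hs
    -- the functional equation
    set E : ℂ × ℂ → ℂ := fun p => (G' (p.1 + p.2, p.2) - G' p) + (G' (p.1 - p.2, p.2) - G' p) -
      k (G' p) * ((G' (p.1 + p.2, p.2) - G' p) * (G' (p.1 - p.2, p.2) - G' p)) with hE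
    have hEan : ∀ t ∈ ball b δ, AnalyticAt ℂ E (t, 0) := by
      intro t ht
      have h0 := a1 t (ball_subset_ball hδ2.le ht)
      have hp : AnalyticAt ℂ (fun p : ℂ × ℂ => G' (p.1 + p.2, p.2)) (t, 0) :=
        AnalyticAt.fun_comp (g := G') (f := fun p : ℂ × ℂ => ((p.1 + p.2, p.2) : ℂ × ℂ))
          (by simpa using h0) ((analyticAt_fst.add analyticAt_snd).prod analyticAt_snd)
      have hm : AnalyticAt ℂ (fun p : ℂ × ℂ => G' (p.1 - p.2, p.2)) (t, 0) :=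
        AnalyticAt.fun_comp (g := G') (f := fun p : ℂ × ℂ => ((p.1 - p.2, p.2) : ℂ × ℂ))
          (by simpa using h0) ((analyticAt_fst.sub analyticAt_snd).prod analyticAt_snd)
      have hk0 : AnalyticAt ℂ (fun p : ℂ × ℂ => k (G' p)) (t, 0) := by
        refine AnalyticAt.fun_comp (g := k) (f := G') ?_ h0
        rw [hlim t ht]
        exact hkr _ (hb1 t (ball_subset_ball hδ1.le ht)).1.2
      exact ((hp.sub h0).add (hm.sub h0)).sub (hk0.mul ((hp.sub h0).mul (hm.sub h0)))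
    have hE1 : ∀ᶠ p in 𝓝 ((t₁, 0) : ℂ × ℂ), E p = 0 := by
      have hplt : Tendsto (fun p : ℂ × ℂ => ((p.1 + p.2, p.2) : ℂ × ℂ)) (𝓝 (t₁, 0))
          (𝓝 ((t₁, 0) : ℂ × ℂ)) := by
        have : Continuous (fun p : ℂ × ℂ => ((p.1 + p.2, p.2) : ℂ × ℂ)) := by fun_prop
        exact this.tendsto' _ _ (by simp)
      have hmit : Tendsto (fun p : ℂ × ℂ => ((p.1 - p.2, p.2) : ℂ × ℂ)) (𝓝 (t₁, 0))
          (𝓝 ((t₁, 0) : ℂ × ℂ)) := by
        have : Continuous (fun p : ℂ × ℂ => ((p.1 - p.2, p.2) : ℂ × ℂ)) := by fun_prop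
        exact this.tendsto' _ _ (by simp)
      have hCd : deriv (fun s => C (s, 0)) t₁ ≠ 0 := by
        rw [deriv_near c2]
        exact g2
      filter_upwards [c4', a3, hplt.eventually a3, hmit.eventually a3, sep c1 hCd,
        sep' c1 hCd] with p p1 p2 p3 p4 p5 p6
      simp only [hE]
      rw [p2, p3, p4]
      by_cases hp0 : p.2 = 0
      · have e1 : ((p.1 + p.2, p.2) : ℂ × ℂ) = p := by
          ext <;> simp [hp0]
        have e2 : ((p.1 - p.2, p.2) : ℂ × ℂ) = p := by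
          ext <;> simp [hp0]
        rw [e1, e2]
        ring
      · have q1 := p1 hp0
        have q2 := p5 hp0
        have q3 := p6 hp0
        rw [← q1]
        field_simp
        ring
    have hE2 : ∀ t ∈ ball b δ, ∀ᶠ p in 𝓝 ((t, 0) : ℂ × ℂ), E p = 0 := by
      intro t ht
      have hpre : IsPreconnected (ball b δ ×ˢ {(0:ℂ)}) :=
        (convex_ball b δ).isPreconnected.prod isPreconnected_singleton
      have hM : Mer E (ball b δ ×ˢ {(0:ℂ)}) := by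
        rintro ⟨s, z⟩ ⟨hs, hz⟩
        rw [mem_singleton_iff] at hz
        simp only at hz hs
        subst hz
        exact merAt_of_analyticAt (hEan s hs)
      have hM0 : Mer (fun _ => (0:ℂ)) (ball b δ ×ˢ {(0:ℂ)}) := fun p _ =>
        merAt_of_analyticAt analyticAt_const
      have h1 := Mer.eqM hpre hM hM0 (p := (t₁, 0)) ⟨ht₁, rfl⟩
        (EqM.of_eventuallyEq hE1) (t, 0) ⟨ht, rfl⟩
      exact EqM.eventuallyEq (hEan t ht) analyticAt_const h1
    refine ⟨δ', hδ', G', Mer.of_analytic han, fun t ht => ?_,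
      (EqM.of_eventuallyEq a3).trans c5.symm⟩
    have h0 := a1 t (ball_subset_ball hδ2.le ht)
    obtain ⟨⟨⟨b1, b2⟩, b3⟩, b4⟩ := hb1 t (ball_subset_ball hδ1.le ht)
    have hd' : deriv (fun s => G' (s, 0)) t ≠ 0 := by
      rw [deriv_near (hlim' t ht)]
      exact b2
    refine ⟨G', k, h0, hd', ?_, ?_, Or.inl (EqM.refl _ _)⟩
    · rw [hlim t ht]
      exact hkr _ b3
    · filter_upwards [hE2 t ht, sep h0 hd', sep' h0 hd'] with p p1 p2 p3 p0
      have q2 := p2 p0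
      have q3 := p3 p0
      simp only [hE] at p1
      field_simp
      linear_combination p1
  · refine ⟨d1, hd1, fun G t₁ ht₁ hF hs => ?_⟩
    exfalso
    obtain ⟨⟨⟨g1, g2⟩, g3⟩, g4⟩ := hb1 t₁ ht₁
    obtain ⟨C, k1, c1, c2, c3, c4, c5⟩ := norm_form hF g1 hs
    have hkk : k1 =ᶠ[𝓝 (g t₁)] k := k_det c1 c2 g1 g2 c3 c4 g4
    have c20 : C (t₁, 0) = g t₁ := c2.self_of_nhds
    have h1 : Good k1 (C (t₁, 0)) := MP_ae5b4e_an_MERO.good_of_family c1
      (by rw [deriv_near c2]; exact g2) (by rw [c20]; exact c3) c4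
    rw [c20] at h1
    exact hGood (propag k (g b) r (fun x hx => hkr x hx) (g t₁) g3 (h1.congr hkk) (g b)
      (mem_ball_self hr))

/-- **local step**: if the limit curve continues as a locally univalent curve then the family
continues -/
theorem reg_step {g : ℂ → ℂ} {b : ℂ} (hg : LU g {b}) :
    ∃ δ > 0, ∀ (G : ℂ × ℂ → ℂ) (t₁ : ℂ), t₁ ∈ ball b δ → FamAt G t₁ →
      (∀ᶠ s in 𝓝[≠] t₁, sl G 0 s = g s) →
      ∃ δ' > 0, ∃ H : ℂ × ℂ → ℂ, Mer H (ball b δ ×ˢ ball 0 δ') ∧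
        (∀ t ∈ ball b δ, FamAt H t) ∧ EqM H G (t₁, 0) := by
  rcases hg b (mem_singleton b) with ⟨h1, h2⟩ | ⟨h0, h1, h2⟩
  · exact reg_step_an h1 h2
  · obtain ⟨δ, hδ, hstep⟩ := reg_step_an h1 h2
    refine ⟨δ, hδ, fun G t₁ ht₁ hF hs => ?_⟩
    obtain ⟨δ', hδ', H, hH1, hH2, hH3⟩ := hstep (fun q => (G q)⁻¹) t₁ ht₁ hF.inv (by
      filter_upwards [hs, (sl_inv hF).filter_mono nhdsWithin_le_nhds] with s s1 s2
      rw [s2, s1])
    refine ⟨δ', hδ', fun q => (H q)⁻¹, fun p hp => (hH1 p hp).inv, fun t ht => (hH2 t ht).inv, ?_⟩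
    have h3 := hH3.map fun x => x⁻¹
    simpa using h3

end Pool.Agent.MP_ae5b4e_an_NBT
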