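import Mathlib
import Pool.Agent.Lib.MP_ae5b4e_an_MERO.Countable
import Pool.Agent.Lib.MP_ae5b4e_an_NBT.Reg0
import Pool.Agent.Lib.MP_ae5b4e_an_NBT.DomS

/-!
# MP_ae5b4e_an, project NB: regularity on the line `ρ = 0`, non-extendability of the limit curve
-/

noncomputable section

namespace Pool.Agent.MP_ae5b4e_an_NBT

open Complex Set Filter Topology Metric

variable {k : ℂ → ℂ} {F G : ℂ × ℂ → ℂ} {c h : ℝ}

theorem fam_real (hE : ConE k F c h G) {t : ℂ} (ht : |t.im| < c) : FamAt G t := by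
  have hc : 0 < c := hE.pos
  have ht' : t ∈ St (-c) c := ⟨(abs_lt.1 ht).1, (abs_lt.1 ht).2⟩
  have hmem : ((t, 0) : ℂ × ℂ) ∈ St (-c) c ×ˢ ball (0:ℂ) c := ⟨ht', mem_ball_self hc⟩
  have hmem4 : ((t, 0) : ℂ × ℂ) ∈ St (-c) c ×ˢ ball (0:ℂ) (c / 4) :=
    ⟨ht', mem_ball_self (by linarith)⟩
  refine ⟨F, k, hE.an _ hmem, hE.dt _ hmem, hE.reg _ hmem, ?_, Or.inl (hE.eqG _ hmem4)⟩
  have h1 : ∀ᶠ p in 𝓝 ((t, 0) : ℂ × ℂ), p ∈ St (-c) c ×ˢ ball (0:ℂ) c :=
    ((isOpen_St _ _).prod isOpen_ball).mem_nhds hmem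
  have c2 : ContinuousAt (fun p : ℂ × ℂ => p.1 + p.2) ((t, 0) : ℂ × ℂ) :=
    (continuous_fst.add continuous_snd).continuousAt
  have c3 : ContinuousAt (fun p : ℂ × ℂ => p.1 - p.2) ((t, 0) : ℂ × ℂ) :=
    (continuous_fst.sub continuous_snd).continuousAt
  have h2 : ∀ᶠ p in 𝓝 ((t, 0) : ℂ × ℂ), p.1 + p.2 ∈ St (-c) c :=
    c2 ((isOpen_St _ _).mem_nhds (by simpa using ht'))
  have h3 : ∀ᶠ p in 𝓝 ((t, 0) : ℂ × ℂ), p.1 - p.2 ∈ St (-c) c :=
    c3 ((isOpen_St _ _).mem_nhds (by simpa using ht'))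
  filter_upwards [h1, h2, h3] with p hp1 hp2 hp3 hp0
  exact hE.fe p hp1 hp0 hp2 hp3

private theorem mem_DF_zero (hE : ConE k F c h G) {t : ℂ} (ht : |t.im| < h) :
    ((t, 0) : ℂ × ℂ) ∈ DF F c (c / 4) :=
  (DK_shift hE.toCon (mem_DK_zero hE ht)).1

private theorem isOpen_abs_im (h : ℝ) : IsOpen {t : ℂ | |t.im| < h} :=
  isOpen_lt (continuous_abs.comp continuous_im) continuous_const

private theorem convex_abs_im (h : ℝ) : Convex ℝ {t : ℂ | |t.im| < h} := by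
  have : {t : ℂ | |t.im| < h} = St (-h) h := by
    ext t
    simp only [mem_ofPred_eq, mem_St, abs_lt]
  rw [this]
  exact convex_St _ _

/-- a meromorphic function which is not locally constant is locally univalent near the point -/
private theorem lu_near {f : ℂ → ℂ} {t : ℂ} (hf : MeromorphicAt f t)
    (hnc : ∀ x, ¬ ∀ᶠ s in 𝓝[≠] t, f s = x) : ∀ᶠ s in 𝓝[≠] t, AnalyticAt ℂ f s ∧ deriv f s ≠ 0 := by
  have h1 : ∀ᶠ s in 𝓝[≠] t, AnalyticAt ℂ f s := hf.eventually_analyticAt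
  rcases hf.deriv.eventually_eq_zero_or_eventually_ne_zero with h2 | h2
  · exfalso
    have h3 : ∀ᶠ s in 𝓝[≠] t, AnalyticAt ℂ f s ∧ deriv f s = 0 := h1.and h2
    rw [eventually_nhdsWithin_iff] at h3
    obtain ⟨r, hr, h4⟩ := Metric.eventually_nhds_iff_ball.1 h3
    have hpre : IsPreconnected (ball t r \ {t}) :=
      Pool.Agent.MP_ae5b4e_an_MERO.isPreconnected_diff isOpen_ball (convex_ball t r)
        (countable_singleton t)
    have hop : IsOpen (ball t r \ {t}) := isOpen_ball.sdiff isClosed_singleton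
    have hmem : ∀ᶠ s in 𝓝[≠] t, s ∈ ball t r \ {t} := by
      filter_upwards [self_mem_nhdsWithin, nhdsWithin_le_nhds (ball_mem_nhds t hr)] with s hs1 hs2
      exact ⟨hs2, hs1⟩
    obtain ⟨s₀, hs₀⟩ := hmem.exists
    apply hnc (f s₀)
    filter_upwards [hmem] with s hs
    refine hop.is_const_of_deriv_eq_zero hpre ?_ ?_ hs hs₀
    · intro x hx
      exact (h4 x hx.1 hx.2).1.differentiableAt.differentiableWithinAt
    · intro x hx
      exact (h4 x hx.1 hx.2).2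
  · exact h1.and h2

/-- the family is regular where the limit curve is locally univalent -/
theorem fam_of_lu (hE : ConE k F c h G) {t : ℂ} (ht : |t.im| < h) {f : ℂ → ℂ} (hf : LU f {t})
    (hfG : ∀ᶠ s in 𝓝[≠] t, sl G 0 s = f s) : FamAt G t := by
  have hc : 0 < c := hE.pos
  set S : Set ℂ := {t : ℂ | |t.im| < h} with hS
  have hSo : IsOpen S := isOpen_abs_im h
  have hSc : Convex ℝ S := convex_abs_im h
  set B : Set ℂ := {t | t ∈ S ∧ ∃ f : ℂ → ℂ, LU f {t} ∧ ∀ᶠ s in 𝓝[≠] t, sl G 0 s = f s} with hB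
  set A : Set ℂ := {t | t ∈ S ∧ FamAt G t} with hA
  have hmerG : ∀ s ∈ S, MerAt G (s, 0) := fun s hs => hE.merG _ (mem_DF_zero hE hs)
  have hcount : (S \ B).Countable := by
    refine Pool.Agent.MP_ae5b4e_an_MERO.CN.countable_of_eventually (D := S) diff_subset ?_
    intro s hs
    have h1 := (slAt_G hE (mem_DF_zero hE hs)).meromorphicAt
    have h2 := lu_near h1 (fun x => sl_G_not_const hE (mem_DF_zero hE hs) x)
    filter_upwards [h2, nhdsWithin_le_nhds (hSo.mem_nhds hs)] with x hx hxS hxB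
    apply hxB.2
    refine ⟨hxS, sl G 0, ?_, Eventually.of_forall fun _ => rfl⟩
    intro z hz
    rw [mem_singleton_iff] at hz
    rw [hz]
    exact Or.inl hx
  have hBeq : S \ (S \ B) = B := by
    rw [diff_diff_cancel_left]
    intro x hx
    exact hx.1
  have hBpre : IsPreconnected B := by
    rw [← hBeq]
    exact Pool.Agent.MP_ae5b4e_an_MERO.isPreconnected_diff hSo hSc hcount
  have hAo : IsOpen A := by
    rw [isOpen_iff_mem_nhds]
    rintro s ⟨hs1, hs2⟩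
    filter_upwards [hSo.mem_nhds hs1, hs2.eventually] with x hx1 hx2
    exact ⟨hx1, hx2⟩
  have hAB : ∀ s ∈ A, s ∈ B := by
    rintro s ⟨hs1, hs2⟩
    exact ⟨hs1, sl G 0, hs2.lu, Eventually.of_forall fun _ => rfl⟩
  have h0A : (0 : ℂ) ∈ A := by
    refine ⟨?_, fam_real hE (by simpa using hc)⟩
    simp only [hS, mem_ofPred_eq, zero_im, abs_zero]
    exact hc.trans hE.hc
  have hcl : closure A ∩ B ⊆ A := by
    rintro b ⟨hb1, hb2, g, hg, hgG⟩
    obtain ⟨δ, hδ, hstep⟩ := reg_step hg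
    rw [eventually_nhdsWithin_iff] at hgG
    obtain ⟨ε, hε, hgG⟩ := Metric.eventually_nhds_iff_ball.1 hgG
    obtain ⟨r, hr, hrS⟩ := Metric.isOpen_iff.1 hSo b hb2
    set m := min δ (min ε r) with hm
    have hm0 : 0 < m := lt_min hδ (lt_min hε hr)
    obtain ⟨t₁, ht₁A, ht₁m⟩ := Metric.mem_closure_iff.1 hb1 m hm0
    by_cases hbt : t₁ = b
    · rw [← hbt]; exact ht₁A
    have ht₁m' : t₁ ∈ ball b m := by rw [mem_ball, dist_comm]; exact ht₁m
    have hmδ : m ≤ δ := min_le_left _ _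
    have hmε : m ≤ ε := (min_le_right _ _).trans (min_le_left _ _)
    have hmr : m ≤ r := (min_le_right _ _).trans (min_le_right _ _)
    have hev : ∀ᶠ s in 𝓝[≠] t₁, sl G 0 s = g s := by
      have : ball b ε \ {b} ∈ 𝓝 t₁ :=
        (isOpen_ball.sdiff isClosed_singleton).mem_nhds ⟨ball_subset_ball hmε ht₁m', hbt⟩
      filter_upwards [nhdsWithin_le_nhds this] with s hs
      exact hgG s hs.1 hs.2
    obtain ⟨δ', hδ', H, hH, hHf, hHG⟩ := hstep G t₁ (ball_subset_ball hmδ ht₁m') ht₁A.2 hev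
    have hpre : IsPreconnected ((ball b m) ×ˢ ({0} : Set ℂ)) :=
      (convex_ball b m).isPreconnected.prod isPreconnected_singleton
    have hmH : Mer H ((ball b m) ×ˢ ({0} : Set ℂ)) := by
      rintro ⟨x, y⟩ ⟨hx, hy⟩
      simp only [mem_singleton_iff] at hy
      subst hy
      exact hH _ ⟨ball_subset_ball hmδ hx, mem_ball_self hδ'⟩
    have hmG : Mer G ((ball b m) ×ˢ ({0} : Set ℂ)) := by
      rintro ⟨x, y⟩ ⟨hx, hy⟩
      simp only [mem_singleton_iff] at hy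
      subst hy
      exact hmerG x (hrS (ball_subset_ball hmr hx))
    have hid := Mer.eqM hpre hmH hmG (p := (t₁, 0)) ⟨ht₁m', rfl⟩ hHG (b, 0)
      ⟨mem_ball_self hm0, rfl⟩
    exact ⟨hb2, (hHf b (mem_ball_self hδ)).congr hid⟩
  have hfin := hBpre.subset_of_closure_inter_subset hAo ⟨0, hAB 0 h0A, h0A⟩ hcl
  exact (hfin ⟨ht, f, hf, hfG⟩).2

/-- points of the open strip close to a boundary point -/
private theorem exists_strip {b : ℂ} {h ε : ℝ} (hh : 0 < h) (hb : |b.im| = h) (hε : 0 < ε) :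
    ∃ t ∈ ball b ε, |t.im| < h := by
  set η : ℝ := min (1 / 2) (ε / (2 * h)) with hη
  have hη0 : 0 < η := lt_min (by norm_num) (by positivity)
  have hη1 : η ≤ 1 / 2 := min_le_left _ _
  have hη2 : η ≤ ε / (2 * h) := min_le_right _ _
  refine ⟨b - (η * b.im : ℝ) * I, ?_, ?_⟩
  · rw [mem_ball, dist_eq_norm]
    have : b - (η * b.im : ℝ) * I - b = -((η * b.im : ℝ) * I) := by ring
    rw [this, norm_neg, norm_mul, Complex.norm_I, mul_one, Complex.norm_real, Real.norm_eq_abs,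
      abs_mul, hb, abs_of_pos hη0]
    calc η * h ≤ ε / (2 * h) * h := mul_le_mul_of_nonneg_right hη2 hh.le
      _ = ε / 2 := by field_simp
      _ < ε := by linarith
  · have : (b - (η * b.im : ℝ) * I).im = (1 - η) * b.im := by
      simp
      ring
    rw [this, abs_mul, hb, abs_of_pos (by linarith)]
    nlinarith

/-- under the natural boundary hypothesis the limit curve does not extend as a locally univalent
curve -/
theorem ne_of_nb (hN : NBd k F c h G) : NE (sl G 0) h := by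
  have hE := hN.toConE
  have hc : 0 < c := hE.pos
  have hh : 0 < h := hc.trans hE.hc
  intro b hb δ hδ g hg heq
  have hSo : IsOpen {t : ℂ | |t.im| < h} := isOpen_abs_im h
  have hfam : ∀ z ∈ ball b δ, |z.im| < h → FamAt G z ∧ ∀ᶠ s in 𝓝[≠] z, sl G 0 s = g s := by
    intro z hz hzh
    have hev : ∀ᶠ s in 𝓝[≠] z, sl G 0 s = g s := by
      filter_upwards [nhdsWithin_le_nhds (isOpen_ball.mem_nhds hz),
        nhdsWithin_le_nhds (hSo.mem_nhds hzh)] with s hs1 hs2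
      exact (heq s hs1 hs2).symm
    refine ⟨fam_of_lu hE hzh (f := g) ?_ hev, hev⟩
    intro w hw
    rw [mem_singleton_iff] at hw
    rw [hw]
    exact hg z hz
  have hgb : LU g {b} := by
    intro w hw
    rw [mem_singleton_iff] at hw
    rw [hw]
    exact hg b (mem_ball_self hδ)
  obtain ⟨δ1, hδ1, hstep⟩ := reg_step hgb
  obtain ⟨t₁, ht₁, ht₁h⟩ := exists_strip hh hb (lt_min hδ hδ1)
  have ht₁δ : t₁ ∈ ball b δ := ball_subset_ball (min_le_left _ _) ht₁
  have ht₁δ1 : t₁ ∈ ball b δ1 := ball_subset_ball (min_le_right _ _) ht₁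
  obtain ⟨δ', hδ', H, hH, -, hHG⟩ := hstep G t₁ ht₁δ1 (hfam t₁ ht₁δ ht₁h).1
    (hfam t₁ ht₁δ ht₁h).2
  obtain ⟨t₂, ht₂, ht₂h⟩ := exists_strip hh hb (lt_min hδ1 hδ')
  have ht₂δ1 : t₂ ∈ ball b δ1 := ball_subset_ball (min_le_left _ _) ht₂
  have hpre : IsPreconnected ((ball b δ1 ∩ {t : ℂ | |t.im| < h}) ×ˢ ({0} : Set ℂ)) :=
    ((convex_ball b δ1).inter (convex_abs_im h)).isPreconnected.prod isPreconnected_singleton
  have hmH : Mer H ((ball b δ1 ∩ {t : ℂ | |t.im| < h}) ×ˢ ({0} : Set ℂ)) := by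
    rintro ⟨x, y⟩ ⟨hx, hy⟩
    simp only [mem_singleton_iff] at hy
    subst hy
    exact hH _ ⟨hx.1, mem_ball_self hδ'⟩
  have hmG : Mer G ((ball b δ1 ∩ {t : ℂ | |t.im| < h}) ×ˢ ({0} : Set ℂ)) := by
    rintro ⟨x, y⟩ ⟨hx, hy⟩
    simp only [mem_singleton_iff] at hy
    subst hy
    exact hE.merG _ (mem_DF_zero hE hx.2)
  have hid := Mer.eqM hpre hmH hmG (p := (t₁, 0)) ⟨⟨ht₁δ1, ht₁h⟩, rfl⟩ hHG (t₂, 0)
    ⟨⟨ht₂δ1, ht₂h⟩, rfl⟩
  refine hN.nb b hb ⟨min δ1 δ', lt_min hδ1 hδ', H, ?_, t₂, ht₂, ht₂h, hid⟩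
  exact hH.mono (prod_mono (ball_subset_ball (min_le_left _ _))
    (ball_subset_ball (min_le_right _ _)))

end Pool.Agent.MP_ae5b4e_an_NBT
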