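import Mathlib
import Pool.Agent.Lib.MP_ae5b4e_an_LAT.NDPlaceThm
import Pool.Agent.Lib.MP_ae5b4e_an_LAT.NDMobG
import Pool.Agent.Lib.MP_ae5b4e_an_NBT.Reg1

/-!
# MP_ae5b4e_an, project NB: the rotation at a critical point of the limit curve
-/

noncomputable section

namespace Pool.Agent.MP_ae5b4e_an_NBT

open Complex Set Filter Topology Metric
open Pool.Agent.MP_ae5b4e_an_ND (Good PlaceOK nd_place good_mob mobk)
open Pool.Agent.MP_ae5b4e_an_MERO (good_of_family)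

/-! ### The limit of the functional equation -/

/-- the restriction of `F` to a line -/
private lemma rot_line_deriv {F : ℂ × ℂ → ℂ} {x v : ℂ × ℂ} (hF : AnalyticAt ℂ F x) :
    ∀ᶠ ρ in 𝓝 (0:ℂ), HasDerivAt (fun ρ : ℂ => F (x + ρ • v)) (fderiv ℂ F (x + ρ • v) v) ρ := by
  have hc : Tendsto (fun ρ : ℂ => x + ρ • v) (𝓝 0) (𝓝 x) := by
    have : Continuous fun ρ : ℂ => x + ρ • v := by fun_prop
    simpa using this.tendsto 0
  filter_upwards [hc.eventually hF.eventually_analyticAt] with ρ hρ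
  have h1 : HasDerivAt (fun ρ : ℂ => x + ρ • v) v ρ := by
    simpa using ((hasDerivAt_id ρ).smul_const v).const_add x
  exact hρ.differentiableAt.hasFDerivAt.comp_hasDerivAt ρ h1

private lemma rot_line_deriv2 {F : ℂ × ℂ → ℂ} {x v : ℂ × ℂ} (hF : AnalyticAt ℂ F x) :
    HasDerivAt (fun ρ : ℂ => fderiv ℂ F (x + ρ • v) v) (fderiv ℂ (fderiv ℂ F) x v v) 0 := by
  have h1 : HasDerivAt (fun ρ : ℂ => x + ρ • v) v 0 := by
    simpa using ((hasDerivAt_id (0:ℂ)).smul_const v).const_add x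
  have h2 : HasFDerivAt (fderiv ℂ F) (fderiv ℂ (fderiv ℂ F) x) (x + (0:ℂ) • v) := by
    simpa using hF.fderiv.differentiableAt.hasFDerivAt
  have h3 : HasDerivAt (fun ρ : ℂ => fderiv ℂ F (x + ρ • v)) (fderiv ℂ (fderiv ℂ F) x v) 0 :=
    h2.comp_hasDerivAt (0:ℂ) h1
  simpa using h3.clm_apply (hasDerivAt_const (0:ℂ) v)

private lemma rot_line_analytic {F : ℂ × ℂ → ℂ} {x v : ℂ × ℂ} (hF : AnalyticAt ℂ F x) :
    AnalyticAt ℂ (fun ρ : ℂ => F (x + ρ • v)) 0 := by
  have h1 : AnalyticAt ℂ (fun ρ : ℂ => x + ρ • v) 0 :=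
    analyticAt_const.add (analyticAt_id.smul analyticAt_const)
  exact AnalyticAt.fun_comp (by simpa using hF) h1

/-- second order Taylor formula -/
private lemma rot_tend2 {Φ : ℂ → ℂ} (h : AnalyticAt ℂ Φ 0) (h0 : Φ 0 = 0) (h1 : deriv Φ 0 = 0) :
    Tendsto (fun ρ => Φ ρ / ρ ^ 2) (𝓝[≠] 0) (𝓝 (deriv (deriv Φ) 0 / 2)) := by
  have hO := (h.hasFPowerSeriesAt).isBigO_sub_partialSum_pow 3
  have hs : ∀ ρ : ℂ, (FormalMultilinearSeries.ofScalars ℂ
      (fun n => iteratedDeriv n Φ 0 / n.factorial)).partialSum 3 ρ =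
        ρ ^ 2 * (deriv (deriv Φ) 0 / 2) := by
    intro ρ
    simp [FormalMultilinearSeries.partialSum, Finset.sum_range_succ,
      FormalMultilinearSeries.ofScalars, h0, h1, iteratedDeriv_succ, iteratedDeriv_zero]
    ring
  simp only [hs, zero_add] at hO
  have h2 : Tendsto (fun ρ : ℂ => Φ ρ / ρ ^ 2 - deriv (deriv Φ) 0 / 2) (𝓝[≠] 0) (𝓝 0) := by
    have h3 : (fun ρ : ℂ => Φ ρ / ρ ^ 2 - deriv (deriv Φ) 0 / 2) =O[𝓝[≠] 0] fun ρ => ρ := by
      obtain ⟨c, hc⟩ := hO.bound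
      refine Asymptotics.IsBigO.of_bound c ?_
      filter_upwards [hc.filter_mono nhdsWithin_le_nhds, self_mem_nhdsWithin] with ρ hρ hρ0
      have hρ0' : ρ ≠ 0 := hρ0
      have e : Φ ρ / ρ ^ 2 - deriv (deriv Φ) 0 / 2 =
          (Φ ρ - ρ ^ 2 * (deriv (deriv Φ) 0 / 2)) / ρ ^ 2 := by field_simp
      rw [e, norm_div, norm_pow, div_le_iff₀ (by positivity)]
      calc _ ≤ c * ‖‖ρ‖ ^ 3‖ := hρ
        _ = c * ‖ρ‖ * ‖ρ‖ ^ 2 := by
          rw [norm_pow, norm_norm]
          ring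
    exact h3.trans_tendsto (tendsto_id.mono_left nhdsWithin_le_nhds)
  simpa using h2.add_const (deriv (deriv Φ) 0 / 2)

/-- the functional equation implies the differential equation of the limit curve -/
private lemma rot_ode {k : ℂ → ℂ} {F : ℂ × ℂ → ℂ} {t : ℂ} (hF : AnalyticAt ℂ F (t, 0))
    (hd : deriv (fun s => F (s, 0)) t ≠ 0) (hk : AnalyticAt ℂ k (F (t, 0)))
    (hfe : ∀ᶠ p in 𝓝 ((t, 0) : ℂ × ℂ), p.2 ≠ 0 →
      (F (p.1 + p.2, p.2) - F p)⁻¹ + (F (p.1 - p.2, p.2) - F p)⁻¹ = k (F p)) :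
    k (F (t, 0)) = -deriv (deriv fun s => F (s, 0)) t / deriv (fun s => F (s, 0)) t ^ 2 := by
  set f : ℂ → ℂ := fun s => F (s, 0) with hfdef
  set x : ℂ × ℂ := (t, 0) with hx
  set φ : ℂ × ℂ → ℂ → ℂ := fun v ρ => F (x + ρ • v) with hφ
  have hφan : ∀ v, AnalyticAt ℂ (φ v) 0 := fun v => rot_line_analytic hF
  have hφ1 : ∀ v, deriv (φ v) =ᶠ[𝓝 0] fun ρ => fderiv ℂ F (x + ρ • v) v := fun v => by
    filter_upwards [rot_line_deriv (v := v) hF] with ρ hρ using hρ.deriv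
  have hφ0 : ∀ v, φ v 0 = F x := fun v => by simp [hφ]
  have hφ1' : ∀ v, deriv (φ v) 0 = fderiv ℂ F x v := fun v => by
    rw [(hφ1 v).self_of_nhds]
    simp
  have hφ2 : ∀ v, deriv (deriv (φ v)) 0 = fderiv ℂ (fderiv ℂ F) x v v := fun v => by
    rw [(hφ1 v).deriv_eq]
    exact (rot_line_deriv2 hF).deriv
  have hφd : ∀ v, DifferentiableAt ℂ (φ v) 0 := fun v => (hφan v).differentiableAt
  -- `f` is `φ (1, 0)`, translated
  have hfφ : ∀ s, f (t + s) = φ (1, 0) s := fun s => by simp [hφ, hfdef, hx]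
  have hf1 : deriv f t = fderiv ℂ F x (1, 0) := by
    rw [← hφ1' (1, 0)]
    have : φ (1, 0) = fun s => f (t + s) := by
      funext s
      exact (hfφ s).symm
    rw [this, deriv_comp_const_add, add_zero]
  have hf2 : deriv (deriv f) t = fderiv ℂ (fderiv ℂ F) x (1, 0) (1, 0) := by
    rw [← hφ2 (1, 0)]
    have : φ (1, 0) = fun s => f (t + s) := by
      funext s
      exact (hfφ s).symm
    have h2 : deriv (φ (1, 0)) = fun s => deriv f (t + s) := by
      funext s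
      rw [this, deriv_comp_const_add]
    rw [h2, deriv_comp_const_add, add_zero]
  -- the second difference
  set Φ : ℂ → ℂ := fun ρ => φ (1, 1) ρ + φ (-1, 1) ρ - 2 * φ (0, 1) ρ with hΦ
  have hΦan : AnalyticAt ℂ Φ 0 :=
    ((hφan _).add (hφan _)).sub (analyticAt_const.mul (hφan _))
  have hev : deriv Φ =ᶠ[𝓝 0] fun ρ =>
      deriv (φ (1, 1)) ρ + deriv (φ (-1, 1)) ρ - 2 * deriv (φ (0, 1)) ρ := by
    filter_upwards [(hφan (1, 1)).eventually_analyticAt, (hφan (-1, 1)).eventually_analyticAt,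
      (hφan (0, 1)).eventually_analyticAt] with ρ h1 h2 h3
    exact (((h1.differentiableAt.hasDerivAt.add h2.differentiableAt.hasDerivAt)).sub
      (h3.differentiableAt.hasDerivAt.const_mul 2)).deriv
  have eab : ((1:ℂ), (1:ℂ)) = (1, 0) + (0, 1) := by simp
  have eab' : ((-1:ℂ), (1:ℂ)) = -(1, 0) + (0, 1) := by simp
  have hΦ0 : Φ 0 = 0 := by
    simp only [hΦ, hφ0]
    ring
  have hΦ1 : deriv Φ 0 = 0 := by
    rw [hev.self_of_nhds]
    simp only [hφ1', eab, eab', map_add, map_neg]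
    ring
  have hΦ2 : deriv (deriv Φ) 0 = 2 * deriv (deriv f) t := by
    rw [hev.deriv_eq]
    have h1 : HasDerivAt (fun ρ => deriv (φ (1, 1)) ρ + deriv (φ (-1, 1)) ρ -
        2 * deriv (φ (0, 1)) ρ) (deriv (deriv (φ (1, 1))) 0 + deriv (deriv (φ (-1, 1))) 0 -
        2 * deriv (deriv (φ (0, 1))) 0) 0 :=
      (((hφan _).deriv.differentiableAt.hasDerivAt).add
        ((hφan _).deriv.differentiableAt.hasDerivAt)).sub
        ((hφan _).deriv.differentiableAt.hasDerivAt.const_mul 2)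
    rw [h1.deriv, hf2]
    simp only [hφ2, eab, eab', map_add, map_neg, _root_.add_apply,
      _root_.neg_apply]
    ring
  have hlim1 := rot_tend2 hΦan hΦ0 hΦ1
  rw [hΦ2] at hlim1
  -- first differences
  have hP : Tendsto (fun ρ : ℂ => ρ⁻¹ * (φ (1, 1) ρ - φ (0, 1) ρ)) (𝓝[≠] 0)
      (𝓝 (deriv f t)) := by
    have h1 : HasDerivAt (fun ρ => φ (1, 1) ρ - φ (0, 1) ρ)
        (deriv (φ (1, 1)) 0 - deriv (φ (0, 1)) 0) 0 :=
      (hφd _).hasDerivAt.sub (hφd _).hasDerivAt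
    rw [hasDerivAt_iff_tendsto_slope_zero] at h1
    have e : deriv (φ (1, 1)) 0 - deriv (φ (0, 1)) 0 = deriv f t := by
      rw [hφ1', hφ1', hf1, eab, map_add]
      ring
    rw [e] at h1
    simpa [hφ0] using h1
  have hM : Tendsto (fun ρ : ℂ => ρ⁻¹ * (φ (-1, 1) ρ - φ (0, 1) ρ)) (𝓝[≠] 0)
      (𝓝 (-deriv f t)) := by
    have h1 : HasDerivAt (fun ρ => φ (-1, 1) ρ - φ (0, 1) ρ)
        (deriv (φ (-1, 1)) 0 - deriv (φ (0, 1)) 0) 0 :=
      (hφd _).hasDerivAt.sub (hφd _).hasDerivAt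
    rw [hasDerivAt_iff_tendsto_slope_zero] at h1
    have e : deriv (φ (-1, 1)) 0 - deriv (φ (0, 1)) 0 = -deriv f t := by
      rw [hφ1', hφ1', hf1, eab', map_add, map_neg]
      ring
    rw [e] at h1
    simpa [hφ0] using h1
  have hK : Tendsto (fun ρ : ℂ => k (φ (0, 1) ρ)) (𝓝[≠] 0) (𝓝 (k (F x))) := by
    have h1 : ContinuousAt (fun ρ : ℂ => k (φ (0, 1) ρ)) 0 := by
      refine ContinuousAt.comp (g := k) (f := φ (0, 1)) ?_ (hφan _).continuousAt
      rw [hφ0]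
      exact hk.continuousAt
    have h2 := h1.tendsto
    rw [hφ0] at h2
    exact h2.mono_left nhdsWithin_le_nhds
  -- the functional equation
  have hcp : Tendsto (fun ρ : ℂ => ((t, ρ) : ℂ × ℂ)) (𝓝 0) (𝓝 (t, 0)) := by
    have : Continuous fun ρ : ℂ => ((t, ρ) : ℂ × ℂ) := by fun_prop
    exact this.tendsto 0
  have heq : (fun ρ => Φ ρ / ρ ^ 2) =ᶠ[𝓝[≠] 0] fun ρ => k (φ (0, 1) ρ) *
      (ρ⁻¹ * (φ (1, 1) ρ - φ (0, 1) ρ)) * (ρ⁻¹ * (φ (-1, 1) ρ - φ (0, 1) ρ)) := by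
    filter_upwards [self_mem_nhdsWithin, mem_nhdsWithin_of_mem_nhds (hcp.eventually hfe),
      hP.eventually_ne hd, hM.eventually_ne (neg_ne_zero.2 hd)]
      with ρ h1 h2 h3 h4
    have hρ : ρ ≠ 0 := h1
    have e1 : φ (1, 1) ρ = F (t + ρ, ρ) := by simp [hφ, hx]
    have e2 : φ (-1, 1) ρ = F (t - ρ, ρ) := by simp [hφ, hx, sub_eq_add_neg]
    have e3 : φ (0, 1) ρ = F (t, ρ) := by simp [hφ, hx]
    have hfe : (F (t + ρ, ρ) - F (t, ρ))⁻¹ + (F (t - ρ, ρ) - F (t, ρ))⁻¹ = k (F (t, ρ)) := h2 hρ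
    rw [e1, e3] at h3
    rw [e2, e3] at h4
    have hp : F (t + ρ, ρ) - F (t, ρ) ≠ 0 := right_ne_zero_of_mul h3
    have hm : F (t - ρ, ρ) - F (t, ρ) ≠ 0 := right_ne_zero_of_mul h4
    simp only [hΦ]
    rw [e1, e2, e3, ← hfe]
    field_simp
    ring
  have hlim2 : Tendsto (fun ρ => Φ ρ / ρ ^ 2) (𝓝[≠] 0)
      (𝓝 (k (F x) * deriv f t * (-deriv f t))) :=
    ((hK.mul hP).mul hM).congr' heq.symm
  have h1 := tendsto_nhds_unique hlim1 hlim2
  have h2 : deriv (deriv f) t = k (F x) * deriv f t * (-deriv f t) := by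
    rw [← h1]
    ring
  rw [h2]
  field_simp

/-! ### The coordinate `w` with `f = x₀ + w ^ M` -/

private lemma rot_root {k : ℕ} (hk : 0 < k) {f : ℂ → ℂ} (hf : AnalyticAt ℂ f 0)
    (hf0 : f 0 ≠ 0) :
    ∃ ψ : ℂ → ℂ, AnalyticAt ℂ ψ 0 ∧ ψ 0 = 0 ∧ deriv ψ 0 ≠ 0 ∧
      ∀ᶠ z in 𝓝 (0:ℂ), ψ z ^ k * f (ψ z) = z ^ k := by
  obtain ⟨r0, hr0⟩ := IsAlgClosed.exists_pow_nat_eq (f 0) hk
  have hr : r0 ≠ 0 := by
    rintro rfl
    rw [zero_pow hk.ne'] at hr0
    exact hf0 hr0.symm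
  have hkc : (k : ℂ) ≠ 0 := by exact_mod_cast hk.ne'
  let g : ℂ → ℂ := fun w => r0 * Complex.exp (Complex.log (f w / f 0) / k)
  have hq : AnalyticAt ℂ (fun w => f w / f 0) 0 := hf.div analyticAt_const hf0
  have hg : AnalyticAt ℂ g 0 := by
    refine analyticAt_const.mul ((((hq.clog ?_)).div analyticAt_const hkc).cexp)
    rw [div_self hf0]
    exact one_mem_slitPlane
  have hg0 : g 0 = r0 := by
    simp only [g]
    rw [div_self hf0, Complex.log_one, zero_div, Complex.exp_zero, mul_one]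
  have hgk : ∀ᶠ w in 𝓝 (0:ℂ), g w ^ k = f w := by
    filter_upwards [hf.continuousAt.eventually_ne hf0] with w hw
    simp only [g]
    rw [mul_pow, hr0, ← Complex.exp_nat_mul, mul_div_cancel₀ _ hkc,
      Complex.exp_log (div_ne_zero hw hf0), mul_div_cancel₀ _ hf0]
  let u : ℂ → ℂ := fun w => w * g w
  have hu : AnalyticAt ℂ u 0 := analyticAt_id.mul hg
  have hu0 : u 0 = 0 := zero_mul _
  have hud : deriv u 0 = r0 := by
    have h1 : HasDerivAt u (1 * g 0 + 0 * deriv g 0) 0 :=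
      (hasDerivAt_id (0:ℂ)).mul hg.differentiableAt.hasDerivAt
    rw [h1.deriv, hg0]
    ring
  have hud0 : deriv u 0 ≠ 0 := by rw [hud]; exact hr
  let ψ : ℂ → ℂ := hu.hasStrictDerivAt.localInverse _ _ _ hud0
  have hψa : AnalyticAt ℂ ψ 0 := by
    have := hu.analyticAt_localInverse hud0
    rwa [hu0] at this
  have hψ0 : ψ 0 = 0 := by
    have : ψ (u 0) = 0 := HasStrictFDerivAt.localInverse_apply_image ..
    rwa [hu0] at this
  have hψu : ∀ᶠ z in 𝓝 (0:ℂ), u (ψ z) = z := by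
    have := hu.hasStrictDerivAt.eventually_right_inverse hud0
    rwa [hu0] at this
  have hψd : deriv ψ 0 ≠ 0 := by
    have h1 : HasStrictDerivAt ψ (deriv u 0)⁻¹ (u 0) := hu.hasStrictDerivAt.to_localInverse hud0
    rw [hu0] at h1
    rw [h1.hasDerivAt.deriv]
    exact inv_ne_zero hud0
  have hψt : Tendsto ψ (𝓝 0) (𝓝 0) := by
    have := hψa.continuousAt.tendsto
    rwa [hψ0] at this
  refine ⟨ψ, hψa, hψ0, hψd, ?_⟩
  filter_upwards [hψu, hψt.eventually hgk] with z h1 h2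
  rw [← h2, ← mul_pow]
  exact congrArg (· ^ k) h1

/-- the coordinate `u` with `f = x₀ + u ^ M`, and its inverse `τ` -/
private lemma rot_tau {f : ℂ → ℂ} {t₀ : ℂ} (hf : AnalyticAt ℂ f t₀)
    (hnc : ¬ ∀ᶠ s in 𝓝 t₀, f s = f t₀) :
    ∃ (M : ℕ) (τ : ℂ → ℂ), 0 < M ∧ AnalyticAt ℂ τ 0 ∧ τ 0 = t₀ ∧ deriv τ 0 ≠ 0 ∧
      ∀ᶠ u in 𝓝 (0:ℂ), f (τ u) = f t₀ + u ^ M := by
  have h1 : AnalyticAt ℂ (fun z => f z - f t₀) t₀ := hf.sub analyticAt_const
  have h2 : ¬ ∀ᶠ z in 𝓝 t₀, f z - f t₀ = 0 := by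
    intro h
    apply hnc
    filter_upwards [h] with z hz
    exact sub_eq_zero.1 hz
  obtain ⟨M, g, hg, hg0, hfe⟩ := (h1.exists_eventuallyEq_pow_smul_nonzero_iff).2 h2
  have hM : 0 < M := by
    rcases Nat.eq_zero_or_pos M with h | h
    · exfalso
      have h3 := hfe.self_of_nhds
      rw [h] at h3
      simp only [sub_self, pow_zero, one_smul] at h3
      exact hg0 h3.symm
    · exact h
  have hsh : Tendsto (fun s : ℂ => t₀ + s) (𝓝 0) (𝓝 t₀) := by
    have : Continuous (fun s : ℂ => t₀ + s) := by fun_prop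
    simpa using this.tendsto 0
  have hga : AnalyticAt ℂ (fun s : ℂ => g (t₀ + s)) 0 := by
    refine AnalyticAt.fun_comp (g := g) (f := fun s : ℂ => t₀ + s) ?_
      (analyticAt_const.add analyticAt_id)
    simpa using hg
  obtain ⟨ψ, hψ, hψ0, hψd, hψe⟩ := rot_root hM hga (by simpa using hg0)
  have hψt : Tendsto ψ (𝓝 0) (𝓝 0) := by
    have := hψ.continuousAt.tendsto
    rwa [hψ0] at this
  refine ⟨M, fun u => t₀ + ψ u, hM, analyticAt_const.add hψ, by simp [hψ0], ?_, ?_⟩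
  · have h3 : HasDerivAt (fun u => t₀ + ψ u) (deriv ψ 0) 0 :=
      hψ.differentiableAt.hasDerivAt.const_add t₀
    rw [h3.deriv]
    exact hψd
  · filter_upwards [hψe, (hsh.comp hψt).eventually hfe] with u h3 h4
    have h5 : f (t₀ + ψ u) - f t₀ = (t₀ + ψ u - t₀) ^ M • g (t₀ + ψ u) := h4
    rw [add_sub_cancel_left, smul_eq_mul, h3] at h5
    linear_combination h5

private lemma rot_const {g : ℂ → ℂ} {z : ℂ} (hg : AnalyticAt ℂ g z)
    (h : ∀ᶠ u in 𝓝[≠] z, deriv g u = 0) : ∀ᶠ u in 𝓝 z, g u = g z := by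
  have h1 : ∀ᶠ u in 𝓝 z, deriv g u = 0 :=
    hg.deriv.frequently_zero_iff_eventually_zero.1 h.frequently
  obtain ⟨ε, hε, hb⟩ := Metric.eventually_nhds_iff_ball.mp (h1.and hg.eventually_analyticAt)
  filter_upwards [ball_mem_nhds z hε] with s hs
  exact isOpen_ball.is_const_of_deriv_eq_zero (convex_ball z ε).isPreconnected
    (fun x hx => (hb x hx).2.differentiableAt.differentiableWithinAt)
    (fun x hx => (hb x hx).1) hs (mem_ball_self hε)

/-- the local computation: the rotation of the parameter -/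
private lemma rot_core {f : ℂ → ℂ} {t₀ : ℂ} (hf : AnalyticAt ℂ f t₀)
    (hnc : ¬ ∀ᶠ s in 𝓝 t₀, f s = f t₀) (hd0 : deriv f t₀ = 0)
    (hgood : ∀ᶠ t in 𝓝[≠] t₀, deriv f t ≠ 0 → ∃ k₁ : ℂ → ℂ, Good k₁ (f t) ∧
      ∀ᶠ s in 𝓝 t, k₁ (f s) = -deriv (deriv f) s / deriv f s ^ 2) :
    ∃ ω : ℂ, ‖ω‖ = 1 ∧ ω ≠ 1 ∧ ∀ᶠ s in 𝓝 (0:ℂ), f (t₀ + ω * s) = f (t₀ + s) := by
  obtain ⟨M, τ, hM, hτ, hτ0, hτd, hτe⟩ := rot_tau hf hnc
  have hτt : Tendsto τ (𝓝 0) (𝓝 t₀) := by
    have := hτ.continuousAt.tendsto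
    rwa [hτ0] at this
  -- the first derivative
  have hD1 : ∀ᶠ u in 𝓝 (0:ℂ), deriv f (τ u) * deriv τ u = M * u ^ (M - 1) := by
    filter_upwards [hτe.eventually_nhds, hτt.eventually hf.eventually_analyticAt,
      hτ.eventually_analyticAt] with u h1 h2 h3
    have h4 : HasDerivAt (fun v => f (τ v)) (deriv f (τ u) * deriv τ u) u :=
      h2.differentiableAt.hasDerivAt.comp u h3.differentiableAt.hasDerivAt
    have h5 : HasDerivAt (fun v : ℂ => f t₀ + v ^ M) (M * u ^ (M - 1)) u :=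
      (hasDerivAt_pow M u).const_add (f t₀)
    exact h4.unique (h5.congr_of_eventuallyEq h1)
  have hM2 : 2 ≤ M := by
    by_contra hlt
    have hM1 : M = 1 := by omega
    have h1 := hD1.self_of_nhds
    rw [hτ0, hd0, hM1] at h1
    simp at h1
  -- the second derivative
  have hD2 : ∀ᶠ u in 𝓝 (0:ℂ), deriv (deriv f) (τ u) * deriv τ u ^ 2 +
      deriv f (τ u) * deriv (deriv τ) u = M * ((M - 1) * u ^ (M - 2)) := by
    filter_upwards [hD1.eventually_nhds, hτt.eventually hf.eventually_analyticAt,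
      hτ.eventually_analyticAt] with u h1 h2 h3
    have h4 : HasDerivAt (fun v => deriv f (τ v)) (deriv (deriv f) (τ u) * deriv τ u) u :=
      h2.deriv.differentiableAt.hasDerivAt.comp u h3.differentiableAt.hasDerivAt
    have h5 : HasDerivAt (fun v => deriv f (τ v) * deriv τ v)
        (deriv (deriv f) (τ u) * deriv τ u * deriv τ u + deriv f (τ u) * deriv (deriv τ) u) u :=
      h4.mul h3.deriv.differentiableAt.hasDerivAt
    have h6 : HasDerivAt (fun v : ℂ => (M : ℂ) * v ^ (M - 1))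
        (M * (((M - 1 : ℕ) : ℂ) * u ^ (M - 1 - 1))) u :=
      (hasDerivAt_pow (M - 1) u).const_mul (M : ℂ)
    have h7 := h5.unique (h6.congr_of_eventuallyEq h1)
    have h8 : ((M - 1 : ℕ) : ℂ) = (M : ℂ) - 1 := by
      rw [Nat.cast_sub (by omega), Nat.cast_one]
    have h9 : M - 1 - 1 = M - 2 := by omega
    rw [h8, h9] at h7
    rw [← h7]
    ring
  have hτn : ∀ᶠ u in 𝓝 (0:ℂ), deriv τ u ≠ 0 := hτ.deriv.continuousAt.eventually_ne hτd
  have hMc : (M : ℂ) ≠ 0 := by exact_mod_cast hM.ne'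
  -- the function `h`
  set h : ℂ → ℂ := fun u => (-((M : ℂ) - 1) + u * deriv (deriv τ) u / deriv τ u) / M with hh
  have hha : AnalyticAt ℂ h 0 := by
    refine AnalyticAt.div (analyticAt_const.add ?_) analyticAt_const hMc
    exact (analyticAt_id.mul hτ.deriv.deriv).div hτ.deriv hτd
  have hκ : ∀ᶠ u in 𝓝 (0:ℂ), u ≠ 0 →
      deriv f (τ u) ≠ 0 ∧ -deriv (deriv f) (τ u) / deriv f (τ u) ^ 2 = h u / u ^ M := by
    filter_upwards [hD1, hD2, hτn] with u h1 h2 h3 h4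
    have h5 : deriv f (τ u) ≠ 0 := by
      intro h6
      rw [h6, zero_mul] at h1
      exact mul_ne_zero hMc (pow_ne_zero _ h4) h1.symm
    refine ⟨h5, ?_⟩
    have e1 : deriv f (τ u) = M * u ^ (M - 1) / deriv τ u := by
      rw [eq_div_iff h3]
      exact h1
    have e2 : deriv (deriv f) (τ u) = (M * ((M - 1) * u ^ (M - 2)) -
        deriv f (τ u) * deriv (deriv τ) u) / deriv τ u ^ 2 := by
      rw [eq_div_iff (pow_ne_zero 2 h3)]
      linear_combination h2
    obtain ⟨N, rfl⟩ : ∃ N, M = N + 2 := ⟨M - 2, by omega⟩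
    have e3 : N + 2 - 1 = N + 1 := by omega
    have e4 : N + 2 - 2 = N := by omega
    rw [e2, e1, e3, e4]
    simp only [hh]
    field_simp
    ring
  -- the place
  obtain ⟨δ, hδ, hδb⟩ : ∃ δ > 0, ∀ u ∈ ball (0:ℂ) δ, (AnalyticAt ℂ h u ∧ AnalyticAt ℂ τ u) ∧
      (u ≠ 0 → deriv f (τ u) ≠ 0 ∧ -deriv (deriv f) (τ u) / deriv f (τ u) ^ 2 = h u / u ^ M) ∧
      f (τ u) = f t₀ + u ^ M ∧ (τ u ∈ ({t₀}ᶜ : Set ℂ) → deriv f (τ u) ≠ 0 →
        ∃ k₁ : ℂ → ℂ, Good k₁ (f (τ u)) ∧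
          ∀ᶠ s in 𝓝 (τ u), k₁ (f s) = -deriv (deriv f) s / deriv f s ^ 2) := by
    rw [eventually_nhdsWithin_iff] at hgood
    exact Metric.eventually_nhds_iff_ball.mp
      ((hha.eventually_analyticAt.and hτ.eventually_analyticAt).and
        (hκ.and (hτe.and (hτt.eventually hgood))))
  set κ : ℂ → ℂ := fun u => h u / u ^ M with hκd
  have hp : PlaceOK (f t₀) M κ δ := by
    refine ⟨hM, hδ, fun w₁ hw hwδ => ?_⟩
    have hwb : w₁ ∈ ball (0:ℂ) δ := by simpa using hwδ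
    obtain ⟨⟨a1, a2⟩, a3, a4, a5⟩ := hδb w₁ hwb
    have hne : τ w₁ ≠ t₀ := by
      intro h1
      rw [h1] at a4
      have h2 : w₁ ^ M = 0 := by linear_combination -a4
      exact pow_ne_zero M hw h2
    obtain ⟨k₁, hk1, hk2⟩ := a5 hne (a3 hw).1
    refine ⟨k₁, ?_, ?_⟩
    · rw [← a4]
      exact hk1
    · filter_upwards [a2.continuousAt.tendsto.eventually hk2, isOpen_ball.mem_nhds hwb,
        isOpen_ne.mem_nhds hw] with w b1 b2 b3
      obtain ⟨-, c3, c4, -⟩ := hδb w b2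
      show h w / w ^ M = k₁ (f t₀ + w ^ M)
      rw [← c4, b1, (c3 b3).2]
  obtain ⟨c, hc, hc2⟩ := nd_place hp (K := M) (h := h)
    (fun u hu => (hδb u hu).1.1.differentiableAt.differentiableWithinAt)
    (fun w _ _ => rfl)
  have hc0 : c = h 0 := by
    have h1 : Tendsto h (𝓝[≠] (0:ℂ)) (𝓝 (h 0)) :=
      hha.continuousAt.tendsto.mono_left nhdsWithin_le_nhds
    refine tendsto_nhds_unique hc (h1.congr' ?_)
    filter_upwards [self_mem_nhdsWithin] with w hw
    have hw' : w ^ M ≠ 0 := pow_ne_zero _ hw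
    show h w = w ^ M * (h w / w ^ M)
    field_simp
  have hc1 : c ≠ -1 := by
    rw [hc0]
    simp only [hh]
    intro h1
    rw [zero_mul, zero_div, add_zero, div_eq_iff hMc] at h1
    have h2 : (1:ℂ) = 0 := by linear_combination h1
    exact one_ne_zero h2
  have hrot := (hc2.resolve_left hc1).2
  -- the root of unity
  have hprim := Complex.isPrimitiveRoot_exp M hM.ne'
  set ω : ℂ := Complex.exp (2 * Real.pi * I / M) with hω
  have hωM : ω ^ M = 1 := hprim.pow_eq_one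
  have hω1 : ω ≠ 1 := hprim.ne_one (by omega)
  have hωn : ‖ω‖ = 1 := hprim.norm'_eq_one hM.ne'
  have hωt : Tendsto (fun u : ℂ => ω * u) (𝓝 0) (𝓝 0) := by
    have : Continuous (fun u : ℂ => ω * u) := by fun_prop
    simpa using this.tendsto 0
  have hκω := hrot ω hωM
  -- the differential equation
  have hτω : AnalyticAt ℂ (fun u => deriv τ (ω * u)) 0 := by
    refine AnalyticAt.fun_comp (g := deriv τ) (f := fun u => ω * u) ?_
      (analyticAt_const.mul analyticAt_id)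
    rw [mul_zero]
    exact hτ.deriv
  have hg : AnalyticAt ℂ (fun u => deriv τ (ω * u) / deriv τ u) 0 := hτω.div hτ.deriv hτd
  have hg0 : ∀ᶠ u in 𝓝[≠] (0:ℂ), deriv (fun u => deriv τ (ω * u) / deriv τ u) u = 0 := by
    filter_upwards [hκω, self_mem_nhdsWithin, hτn.filter_mono nhdsWithin_le_nhds,
      (hωt.eventually hτn).filter_mono nhdsWithin_le_nhds,
      hτ.eventually_analyticAt.filter_mono nhdsWithin_le_nhds,
      (hωt.eventually hτ.eventually_analyticAt).filter_mono nhdsWithin_le_nhds]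
      with u h1 h2 h3 h4 h5 h6
    have hu : u ≠ 0 := h2
    have e1 : h (ω * u) = h u := by
      have h7 : h (ω * u) / (ω * u) ^ M = h u / u ^ M := h1
      rw [mul_pow, hωM, one_mul] at h7
      exact (div_left_inj' (pow_ne_zero M hu)).1 h7
    have e2 : ω * deriv (deriv τ) (ω * u) * deriv τ u =
        deriv τ (ω * u) * deriv (deriv τ) u := by
      simp only [hh] at e1
      have e3 := (div_left_inj' hMc).1 e1
      have e4 : ω * u * deriv (deriv τ) (ω * u) / deriv τ (ω * u) =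
          u * deriv (deriv τ) u / deriv τ u := add_left_cancel e3
      rw [div_eq_div_iff h4 h3] at e4
      apply mul_left_cancel₀ hu
      linear_combination e4
    have e5 : HasDerivAt (fun v : ℂ => ω * v) ω u := by
      simpa using (hasDerivAt_id u).const_mul ω
    have e6 : HasDerivAt (fun v => deriv τ (ω * v)) (deriv (deriv τ) (ω * u) * ω) u :=
      h6.deriv.differentiableAt.hasDerivAt.comp u e5
    have e7 := e6.div h5.deriv.differentiableAt.hasDerivAt h3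
    have e8 : HasDerivAt (fun v => deriv τ (ω * v) / deriv τ v)
      ((deriv (deriv τ) (ω * u) * ω * deriv τ u - deriv τ (ω * u) * deriv (deriv τ) u) /
        deriv τ u ^ 2) u := e7
    rw [e8.deriv]
    have e9 : deriv (deriv τ) (ω * u) * ω * deriv τ u - deriv τ (ω * u) * deriv (deriv τ) u = 0 := by
      linear_combination e2
    rw [e9, zero_div]
  have hg1 := rot_const hg hg0
  have hτ1 : ∀ᶠ u in 𝓝 (0:ℂ), deriv τ (ω * u) = deriv τ u := by
    filter_upwards [hg1, hτn] with u h1 h2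
    rw [mul_zero, div_self hτd, div_eq_one_iff_eq h2] at h1
    exact h1
  have hτωa : AnalyticAt ℂ (fun u => τ (ω * u)) 0 := by
    refine AnalyticAt.fun_comp (g := τ) (f := fun u => ω * u) ?_
      (analyticAt_const.mul analyticAt_id)
    rw [mul_zero]
    exact hτ
  have hs : AnalyticAt ℂ (fun u => τ (ω * u) - ω * τ u) 0 :=
    hτωa.sub (analyticAt_const.mul hτ)
  have hs0 : ∀ᶠ u in 𝓝[≠] (0:ℂ), deriv (fun u => τ (ω * u) - ω * τ u) u = 0 := by
    refine Eventually.filter_mono nhdsWithin_le_nhds ?_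
    filter_upwards [hτ1, hτ.eventually_analyticAt, hωt.eventually hτ.eventually_analyticAt]
      with u h1 h5 h6
    have e5 : HasDerivAt (fun v : ℂ => ω * v) ω u := by
      simpa using (hasDerivAt_id u).const_mul ω
    have e6 : HasDerivAt (fun v => τ (ω * v)) (deriv τ (ω * u) * ω) u :=
      h6.differentiableAt.hasDerivAt.comp u e5
    have e7 : HasDerivAt (fun v => τ (ω * v) - ω * τ v)
        (deriv τ (ω * u) * ω - ω * deriv τ u) u :=
      e6.sub (h5.differentiableAt.hasDerivAt.const_mul ω)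
    rw [e7.deriv, h1]
    ring
  have hs1 : ∀ᶠ u in 𝓝 (0:ℂ), τ (ω * u) = t₀ + ω * (τ u - t₀) := by
    filter_upwards [rot_const hs hs0] with u h1
    rw [mul_zero, hτ0] at h1
    linear_combination h1
  -- the inverse of `τ`
  have hst : HasStrictDerivAt τ (deriv τ 0) 0 := hτ.hasStrictDerivAt
  set W : ℂ → ℂ := hst.localInverse _ _ _ hτd with hW
  have hW1 : ∀ᶠ z in 𝓝 t₀, τ (W z) = z := by
    have := hst.eventually_right_inverse hτd
    rwa [hτ0] at this
  have hW0 : W t₀ = 0 := by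
    have : W (τ 0) = 0 := HasStrictFDerivAt.localInverse_apply_image ..
    rwa [hτ0] at this
  have hWc : Tendsto W (𝓝 t₀) (𝓝 0) := by
    have h1 : HasStrictDerivAt W (deriv τ 0)⁻¹ (τ 0) := hst.to_localInverse hτd
    rw [hτ0] at h1
    have := h1.hasDerivAt.continuousAt.tendsto
    rwa [hW0] at this
  have hsh : Tendsto (fun s : ℂ => t₀ + s) (𝓝 0) (𝓝 t₀) := by
    have : Continuous (fun s : ℂ => t₀ + s) := by fun_prop
    simpa using this.tendsto 0
  refine ⟨ω, hωn, hω1, ?_⟩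
  filter_upwards [hsh.eventually hW1, (hWc.comp hsh).eventually hs1,
    (hWc.comp hsh).eventually hτe, (hωt.comp (hWc.comp hsh)).eventually hτe] with s h1 h2 h3 h4
  have e1 : τ (W (t₀ + s)) = t₀ + s := h1
  have e2 : τ (ω * W (t₀ + s)) = t₀ + ω * (τ (W (t₀ + s)) - t₀) := h2
  have e3 : f (τ (W (t₀ + s))) = f t₀ + W (t₀ + s) ^ M := h3
  have e4 : f (τ (ω * W (t₀ + s))) = f t₀ + (ω * W (t₀ + s)) ^ M := h4
  rw [e1, add_sub_cancel_left] at e2
  rw [e2, mul_pow, hωM, one_mul] at e4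
  rw [e1] at e3
  rw [e4, e3]

/-! ### The family near a point of the slice -/

private lemma rot_line (t : ℂ) : Tendsto (fun s : ℂ => ((s, 0) : ℂ × ℂ)) (𝓝 t) (𝓝 (t, 0)) := by
  have : Continuous (fun s : ℂ => ((s, 0) : ℂ × ℂ)) := by fun_prop
  exact this.tendsto t

private lemma rot_sl_eq {H C : ℂ × ℂ → ℂ} {t : ℂ} (hC : AnalyticAt ℂ C (t, 0))
    (h : EqM H C (t, 0)) : ∀ᶠ s in 𝓝 t, sl H 0 s = C (s, 0) := by
  filter_upwards [(rot_line t).eventually hC.eventually_analyticAt,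
    (rot_line t).eventually h.eventually] with x h1 h2
  exact nfM_eq h1 h2

private lemma rot_good {H : ℂ × ℂ → ℂ} {f : ℂ → ℂ} {t : ℂ} (hf : AnalyticAt ℂ f t)
    (hfH : ∀ᶠ s in 𝓝 t, sl H 0 s = f s) (hfam : FamAt H t) :
    ∃ k₁ : ℂ → ℂ, Good k₁ (f t) ∧
      ∀ᶠ s in 𝓝 t, k₁ (f s) = -deriv (deriv f) s / deriv f s ^ 2 := by
  obtain ⟨C, k, hC, hd, hk, hfe, hor⟩ := hfam
  have hgood : Good k (C (t, 0)) := good_of_family hC hd hk hfe
  set g : ℂ → ℂ := fun s => C (s, 0) with hg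
  have hga : AnalyticAt ℂ g t :=
    AnalyticAt.fun_comp (g := C) (f := fun s : ℂ => (s, (0:ℂ))) hC
      (analyticAt_id.prod analyticAt_const)
  have hgd : ∀ᶠ s in 𝓝 t, deriv g s ≠ 0 := hga.deriv.continuousAt.eventually_ne hd
  have hode : ∀ᶠ s in 𝓝 t, k (g s) = -deriv (deriv g) s / deriv g s ^ 2 := by
    filter_upwards [(rot_line t).eventually hC.eventually_analyticAt, hgd,
      hga.continuousAt.tendsto.eventually hk.eventually_analyticAt,
      (rot_line t).eventually hfe.eventually_nhds] with s h1 h2 h3 h4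
    exact rot_ode h1 h2 h3 h4
  rcases hor with hor | hor
  · have hfg : f =ᶠ[𝓝 t] g := by
      filter_upwards [hfH, rot_sl_eq hC hor] with s h1 h2
      rw [← h1, h2]
    have hfg1 : deriv f =ᶠ[𝓝 t] deriv g := hfg.deriv
    have hfg2 : deriv (deriv f) =ᶠ[𝓝 t] deriv (deriv g) := hfg1.deriv
    refine ⟨k, ?_, ?_⟩
    · rw [hfg.eq_of_nhds]
      exact hgood
    · filter_upwards [hfg, hfg1, hfg2, hode] with s h1 h2 h3 h4
      rw [h1, h2, h3, h4]
  · have hHC : EqM H (fun q => (C q)⁻¹) (t, 0) := by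
      have h1 := EqM.map (fun x => x⁻¹) hor
      simpa using h1
    -- the value `g t` is not zero
    have hev : ∀ᶠ s in 𝓝 t, g s ≠ 0 → sl H 0 s = (g s)⁻¹ := by
      filter_upwards [(rot_line t).eventually hC.eventually_analyticAt,
        (rot_line t).eventually hHC.eventually] with s h1 h2 h3
      exact nfM_eq (h1.inv h3) h2
    have hg0 : g t ≠ 0 := by
      intro h0
      have hne : ∀ᶠ s in 𝓝[≠] t, g s ≠ 0 := by
        refine hga.eventually_eq_zero_or_eventually_ne_zero.resolve_left ?_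
        intro h1
        apply hd
        have h2 : g =ᶠ[𝓝 t] fun _ => (0:ℂ) := h1
        rw [h2.deriv_eq]
        exact deriv_const t 0
      have h1 : Tendsto (fun s => f s * g s) (𝓝[≠] t) (𝓝 (f t * g t)) :=
        (hf.continuousAt.mul hga.continuousAt).tendsto.mono_left nhdsWithin_le_nhds
      have h2 : Tendsto (fun s => f s * g s) (𝓝[≠] t) (𝓝 1) := by
        refine tendsto_const_nhds.congr' ?_
        filter_upwards [hne, hev.filter_mono nhdsWithin_le_nhds,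
          hfH.filter_mono nhdsWithin_le_nhds] with s h3 h4 h5
        rw [← h5, h4 h3, inv_mul_cancel₀ h3]
      have h3 := tendsto_nhds_unique h1 h2
      rw [h0, mul_zero] at h3
      exact zero_ne_one h3
    have hgn : ∀ᶠ s in 𝓝 t, g s ≠ 0 := hga.continuousAt.eventually_ne hg0
    have hfg : f =ᶠ[𝓝 t] fun s => (g s)⁻¹ := by
      filter_upwards [hfH, hev, hgn] with s h1 h2 h3
      rw [← h1, h2 h3]
    have hfg1 : deriv f =ᶠ[𝓝 t] fun s => -deriv g s / g s ^ 2 := by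
      filter_upwards [hfg.eventuallyEq_nhds, hgn, hga.eventually_analyticAt] with s h1 h2 h3
      rw [h1.deriv_eq]
      exact (h3.differentiableAt.hasDerivAt.inv h2).deriv
    have hfg2 : deriv (deriv f) =ᶠ[𝓝 t] fun s =>
        (-deriv (deriv g) s * g s ^ 2 - -deriv g s * (2 * g s * deriv g s)) / (g s ^ 2) ^ 2 := by
      filter_upwards [hfg1.eventuallyEq_nhds, hgn, hga.eventually_analyticAt] with s h1 h2 h3
      rw [h1.deriv_eq]
      have h4 : HasDerivAt (fun s => g s ^ 2) (2 * g s * deriv g s) s := by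
        have := h3.differentiableAt.hasDerivAt.fun_pow 2
        simpa using this
      exact (h3.deriv.differentiableAt.hasDerivAt.fun_neg.fun_div h4 (pow_ne_zero 2 h2)).deriv
    refine ⟨mobk 0 k, ?_, ?_⟩
    · have h1 := good_mob (a := 0) hgood hg0
      rw [hfg.eq_of_nhds]
      have h2 : (1:ℂ) / (C (t, 0) - 0) = (g t)⁻¹ := by rw [sub_zero, one_div]
      rw [h2] at h1
      exact h1
    · filter_upwards [hfg, hfg1, hfg2, hode, hgn, hgd] with s h1 h2 h3 h4 h5 h6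
      rw [h1, h2, h3]
      show -(k (0 + 1 / (g s)⁻¹)) / ((g s)⁻¹) ^ 2 - 2 / (g s)⁻¹ = _
      rw [zero_add, one_div, inv_inv, h4]
      field_simp
      ring

private lemma rot_lu_inv {f : ℂ → ℂ} {t : ℂ} (hf : AnalyticAt ℂ f t) (hd : deriv f t ≠ 0) :
    LU (fun s => (f s)⁻¹) {t} := by
  intro z hz
  rw [mem_singleton_iff] at hz
  subst hz
  by_cases h0 : f z = 0
  · right
    refine ⟨by simp [h0], ?_, ?_⟩
    · simpa using hf
    · simpa using hd
  · left
    refine ⟨hf.inv h0, ?_⟩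
    have h1 : HasDerivAt (fun s => (f s)⁻¹) (-deriv f z / f z ^ 2) z :=
      hf.differentiableAt.hasDerivAt.fun_inv h0
    rw [h1.deriv]
    exact div_ne_zero (neg_ne_zero.2 hd) (pow_ne_zero 2 h0)

private lemma rot_punct {p : ℂ → Prop} {t₀ : ℂ} (h : ∀ᶠ s in 𝓝[≠] t₀, p s) :
    ∀ᶠ t in 𝓝[≠] t₀, ∀ᶠ s in 𝓝 t, p s := by
  filter_upwards [eventually_eventually_nhdsWithin.2 h, self_mem_nhdsWithin] with t h1 h2
  rwa [isOpen_compl_singleton.nhdsWithin_eq h2] at h1

private lemma rot_of_slice {H : ℂ × ℂ → ℂ} {t₀ : ℂ} {f : ℂ → ℂ} (hf : AnalyticAt ℂ f t₀)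
    (hfH : ∀ᶠ s in 𝓝[≠] t₀, sl H 0 s = f s) (hnc : ¬ ∀ᶠ s in 𝓝 t₀, f s = f t₀)
    (hd0 : deriv f t₀ = 0) (hfam : ∀ᶠ t in 𝓝[≠] t₀, deriv f t ≠ 0 → FamAt H t) :
    ∃ ω : ℂ, ‖ω‖ = 1 ∧ ω ≠ 1 ∧ ∀ᶠ s in 𝓝[≠] (0:ℂ), sl H 0 (t₀ + ω * s) = sl H 0 (t₀ + s) := by
  obtain ⟨ω, h1, h2, h3⟩ := rot_core hf hnc hd0 (by
    filter_upwards [rot_punct hfH, hfam,
      hf.eventually_analyticAt.filter_mono nhdsWithin_le_nhds] with t a1 a2 a3 a4
    exact rot_good a3 a1 (a2 a4))
  refine ⟨ω, h1, h2, ?_⟩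
  have hω0 : ω ≠ 0 := by
    rintro rfl
    rw [norm_zero] at h1
    exact zero_ne_one h1
  have hsh : Tendsto (fun s : ℂ => t₀ + s) (𝓝[≠] 0) (𝓝[≠] t₀) := by
    refine tendsto_nhdsWithin_iff.2 ⟨?_, ?_⟩
    · have : Continuous (fun s : ℂ => t₀ + s) := by fun_prop
      have h4 := this.tendsto 0
      rw [add_zero] at h4
      exact h4.mono_left nhdsWithin_le_nhds
    · filter_upwards [self_mem_nhdsWithin] with s hs hs'
      exact hs (by simpa using hs')
  have hsω : Tendsto (fun s : ℂ => t₀ + ω * s) (𝓝[≠] 0) (𝓝[≠] t₀) := by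
    refine tendsto_nhdsWithin_iff.2 ⟨?_, ?_⟩
    · have : Continuous (fun s : ℂ => t₀ + ω * s) := by fun_prop
      have h4 := this.tendsto 0
      rw [mul_zero, add_zero] at h4
      exact h4.mono_left nhdsWithin_le_nhds
    · filter_upwards [self_mem_nhdsWithin] with s hs hs'
      exact hs (by simpa [hω0] using hs')
  filter_upwards [hsh.eventually hfH, hsω.eventually hfH,
    h3.filter_mono nhdsWithin_le_nhds] with s a1 a2 a3
  rw [a1, a2, a3]

/-- the rotation at a critical point -/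
theorem rot_of_crit {k : ℂ → ℂ} {F G : ℂ × ℂ → ℂ} {c h : ℝ} (hE : ConE k F c h G) {t₀ : ℂ}
    (ht₀ : |t₀.im| < h) (hcrit : ¬ FamAt G t₀) :
    ∃ ω : ℂ, ‖ω‖ = 1 ∧ ω ≠ 1 ∧
      ∀ᶠ s in 𝓝[≠] (0:ℂ), sl G 0 (t₀ + ω * s) = sl G 0 (t₀ + s) := by
  have hDF : (t₀, (0:ℂ)) ∈ DF F c (c / 4) := (DK_shift hE.toCon (mem_DK_zero hE ht₀)).1
  have hsl : SlAt G (t₀, 0) := slAt_G hE hDF
  have hmer : MeromorphicAt (sl G 0) t₀ := hsl.meromorphicAt
  have hnc : ∀ x : ℂ, ¬ ∀ᶠ s in 𝓝[≠] t₀, sl G 0 s = x := fun x => sl_G_not_const hE hDF x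
  have him : ∀ᶠ t in 𝓝[≠] t₀, |t.im| < h := by
    refine Eventually.filter_mono nhdsWithin_le_nhds ?_
    have h1 : ContinuousAt (fun t : ℂ => |t.im|) t₀ := by fun_prop
    exact h1.eventually_lt continuousAt_const ht₀
  rcases le_or_gt 0 (meromorphicOrderAt (sl G 0) t₀) with hord | hord
  · -- the limit curve is finite at `t₀`
    set f : ℂ → ℂ := toMeromorphicNFAt (sl G 0) t₀ with hfd
    have hfe : EqOn (sl G 0) f {t₀}ᶜ := hmer.eqOn_compl_singleton_toMeromorphicNFAt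
    have hfe' : ∀ᶠ s in 𝓝[≠] t₀, sl G 0 s = f s := by
      filter_upwards [self_mem_nhdsWithin] with s hs using hfe hs
    have hf : AnalyticAt ℂ f t₀ := by
      have h1 : MeromorphicNFAt f t₀ := meromorphicNFAt_toMeromorphicNFAt
      rw [← h1.meromorphicOrderAt_nonneg_iff_analyticAt]
      rw [meromorphicOrderAt_congr (f₂ := sl G 0)]
      · exact hord
      · filter_upwards [hfe'] with s hs using hs.symm
    refine rot_of_slice hf hfe' ?_ ?_ ?_
    · intro h1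
      refine hnc (f t₀) ?_
      filter_upwards [hfe', h1.filter_mono nhdsWithin_le_nhds] with s h2 h3
      rw [h2, h3]
    · by_contra hd
      refine hcrit (fam_of_lu hE ht₀ (f := f) ?_ hfe')
      intro z hz
      rw [mem_singleton_iff] at hz
      subst hz
      exact Or.inl ⟨hf, hd⟩
    · filter_upwards [rot_punct hfe', him,
        hf.eventually_analyticAt.filter_mono nhdsWithin_le_nhds] with t h1 h2 h3 h4
      refine fam_of_lu hE h2 (f := f) ?_ (h1.filter_mono nhdsWithin_le_nhds)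
      intro z hz
      rw [mem_singleton_iff] at hz
      subst hz
      exact Or.inl ⟨h3, h4⟩
  · -- the limit curve has a pole at `t₀`
    have hinv := hsl.inv (hnc 0)
    set H : ℂ × ℂ → ℂ := fun q => (G q)⁻¹ with hH
    set f : ℂ → ℂ := toMeromorphicNFAt (sl G 0)⁻¹ t₀ with hfd
    have hfe : EqOn (sl G 0)⁻¹ f {t₀}ᶜ := hmer.inv.eqOn_compl_singleton_toMeromorphicNFAt
    have hfe' : ∀ᶠ s in 𝓝[≠] t₀, (sl G 0)⁻¹ s = f s := by
      filter_upwards [self_mem_nhdsWithin] with s hs using hfe hs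
    have hf : AnalyticAt ℂ f t₀ := by
      have h1 : MeromorphicNFAt f t₀ := meromorphicNFAt_toMeromorphicNFAt
      rw [← h1.meromorphicOrderAt_nonneg_iff_analyticAt]
      rw [meromorphicOrderAt_congr (f₂ := (sl G 0)⁻¹)]
      · rw [meromorphicOrderAt_inv]
        cases hq : meromorphicOrderAt (sl G 0) t₀ with
        | top => rw [hq] at hord; simp at hord
        | coe n =>
          rw [hq] at hord
          have hn : n < 0 := by exact_mod_cast hord
          have : (0 : WithTop ℤ) ≤ ((-n : ℤ) : WithTop ℤ) := by exact_mod_cast (by omega)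
          exact this
      · filter_upwards [hfe'] with s hs using hs.symm
    have hHf : ∀ᶠ s in 𝓝[≠] t₀, sl H 0 s = f s := by
      filter_upwards [hinv.2, hfe'] with s h1 h2
      rw [h1, ← h2]
      rfl
    have hGf : ∀ᶠ s in 𝓝[≠] t₀, sl G 0 s = (f s)⁻¹ := by
      filter_upwards [hfe'] with s h2
      rw [← h2]
      exact (inv_inv _).symm
    have hd0 : deriv f t₀ = 0 := by
      by_contra hd
      exact hcrit (fam_of_lu hE ht₀ (rot_lu_inv hf hd) hGf)
    obtain ⟨ω, h1, h2, h3⟩ := rot_of_slice (H := H) hf hHf (by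
      intro h1
      refine hnc (f t₀)⁻¹ ?_
      filter_upwards [hGf, h1.filter_mono nhdsWithin_le_nhds] with s h2 h3
      rw [h2, h3]) hd0 (by
      filter_upwards [rot_punct hGf, him,
        hf.eventually_analyticAt.filter_mono nhdsWithin_le_nhds] with t h1 h2 h3 h4
      exact (fam_of_lu hE h2 (rot_lu_inv h3 h4) (h1.filter_mono nhdsWithin_le_nhds)).inv)
    refine ⟨ω, h1, h2, ?_⟩
    have hω0 : ω ≠ 0 := by
      rintro rfl
      rw [norm_zero] at h1
      exact zero_ne_one h1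
    have hGH : ∀ᶠ s in 𝓝[≠] t₀, sl G 0 s = (sl H 0 s)⁻¹ := by
      filter_upwards [hinv.2] with s h1
      rw [h1, inv_inv]
    have hsh : Tendsto (fun s : ℂ => t₀ + s) (𝓝[≠] 0) (𝓝[≠] t₀) := by
      refine tendsto_nhdsWithin_iff.2 ⟨?_, ?_⟩
      · have : Continuous (fun s : ℂ => t₀ + s) := by fun_prop
        have h4 := this.tendsto 0
        rw [add_zero] at h4
        exact h4.mono_left nhdsWithin_le_nhds
      · filter_upwards [self_mem_nhdsWithin] with s hs hs'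
        exact hs (by simpa using hs')
    have hsω : Tendsto (fun s : ℂ => t₀ + ω * s) (𝓝[≠] 0) (𝓝[≠] t₀) := by
      refine tendsto_nhdsWithin_iff.2 ⟨?_, ?_⟩
      · have : Continuous (fun s : ℂ => t₀ + ω * s) := by fun_prop
        have h4 := this.tendsto 0
        rw [mul_zero, add_zero] at h4
        exact h4.mono_left nhdsWithin_le_nhds
      · filter_upwards [self_mem_nhdsWithin] with s hs hs'
        exact hs (by simpa [hω0] using hs')
    filter_upwards [hsh.eventually hGH, hsω.eventually hGH, h3] with s a1 a2 a3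
    rw [a1, a2, a3]

end Pool.Agent.MP_ae5b4e_an_NBT
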