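import Mathlib
import Pool.Agent.Lib.MP_ae5b4e_an_NBT.NoRot
import Pool.Agent.Lib.MP_ae5b4e_an_NBT.Rot

/-!
# MP_ae5b4e_an, project NB: the limit curve has no critical points
-/

noncomputable section

namespace Pool.Agent.MP_ae5b4e_an_NBT

open Complex Set Filter Topology Metric

private lemma crit_const {f : ℂ → ℂ} {t x : ℂ}
    (hd : ∀ᶠ s in 𝓝[≠] t, deriv f s = 0)
    (hx : meromorphicOrderAt (fun s => f s - x) t ≠ 0) : ∀ᶠ s in 𝓝[≠] t, f s = x := by
  by_contra hc
  have hne : meromorphicOrderAt (fun s => f s - x) t ≠ ⊤ := by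
    intro h
    refine hc ?_
    filter_upwards [meromorphicOrderAt_eq_top_iff.1 h] with s hs
    exact sub_eq_zero.1 hs
  obtain ⟨n, hn⟩ := WithTop.ne_top_iff_exists.1 hne
  have hn0 : (n : ℂ) ≠ 0 := by
    intro h
    refine hx ?_
    rw [← hn, Int.cast_eq_zero.1 h]
    rfl
  have h1 := meromorphicOrderAt_deriv_eq_sub_one hn0 hn.symm
  have h2 : meromorphicOrderAt (deriv (fun s => f s - x)) t = ⊤ := by
    rw [meromorphicOrderAt_eq_top_iff]
    filter_upwards [hd] with s hs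
    rw [deriv_sub_const]
    exact hs
  rw [h2] at h1
  exact WithTop.top_ne_coe h1

/-- a function which is meromorphic at `t` and not constant on any punctured neighbourhood is
analytic with nonzero derivative on a punctured neighbourhood -/
private lemma crit_lu {f : ℂ → ℂ} {t : ℂ} (hf : MeromorphicAt f t)
    (hc : ∀ x : ℂ, ¬ ∀ᶠ s in 𝓝[≠] t, f s = x) : ∀ᶠ s in 𝓝[≠] t, LU f {s} := by
  have hd : MeromorphicAt (deriv f) t := hf.deriv
  have han : ∀ᶠ s in 𝓝[≠] t, AnalyticAt ℂ f s := hf.eventually_analyticAt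
  rcases hd.eventually_eq_zero_or_eventually_ne_zero with h0 | h0
  · exfalso
    by_cases ho : meromorphicOrderAt f t = 0
    · obtain ⟨c, -, hcl⟩ := tendsto_ne_zero_of_meromorphicOrderAt_eq_zero hf ho
      refine hc c (crit_const h0 ?_)
      have h1 : Tendsto (fun s => f s - c) (𝓝[≠] t) (𝓝 0) := by
        simpa using hcl.sub_const c
      exact ((tendsto_zero_iff_meromorphicOrderAt_pos
        (hf.sub (MeromorphicAt.const c t))).1 h1).ne'
    · refine hc 0 (crit_const h0 ?_)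
      simpa using ho
  · filter_upwards [han, h0] with s h1 h2
    intro z hz
    rw [mem_singleton_iff.1 hz]
    exact Or.inl ⟨h1, h2⟩

private lemma crit_mix {f g : ℂ → ℂ} {t : ℂ} (hf : AnalyticAt ℂ f t) (hg0 : g t = 0)
    (hg : AnalyticAt ℂ (fun w => (g w)⁻¹) t) (hg1 : deriv (fun w => (g w)⁻¹) t ≠ 0)
    (h : ∀ᶠ s in 𝓝[≠] t, f s = g s) : False := by
  have h1 : ∀ᶠ s in 𝓝[≠] t, (g s)⁻¹ ≠ 0 := by
    have := hg.differentiableAt.hasDerivAt.eventually_ne (c := 0) hg1
    exact this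
  have h2 : Tendsto f (𝓝[≠] t) (𝓝 (f t)) := hf.continuousAt.tendsto.mono_left nhdsWithin_le_nhds
  have h3 : Tendsto (fun w => (g w)⁻¹) (𝓝[≠] t) (𝓝 0) := by
    have := hg.continuousAt.tendsto.mono_left (nhdsWithin_le_nhds (s := {t}ᶜ))
    rwa [hg0, inv_zero] at this
  have h4 : Tendsto (fun w => f w * (g w)⁻¹) (𝓝[≠] t) (𝓝 0) := by
    simpa using h2.mul h3
  have h5 : Tendsto (fun w => f w * (g w)⁻¹) (𝓝[≠] t) (𝓝 1) := by
    refine tendsto_const_nhds.congr' ?_
    filter_upwards [h1, h] with s hs1 hs2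
    rw [hs2, mul_inv_cancel₀ (fun h6 => hs1 (by rw [h6, inv_zero]))]
  exact one_ne_zero (tendsto_nhds_unique h5 h4)

/-- two locally univalent germs which agree on a punctured neighbourhood agree -/
private lemma crit_val {f g : ℂ → ℂ} {t : ℂ} (hf : LU f {t}) (hg : LU g {t})
    (h : ∀ᶠ s in 𝓝[≠] t, f s = g s) : f t = g t := by
  have h' : ∀ᶠ s in 𝓝[≠] t, g s = f s := h.mono fun s hs => hs.symm
  rcases hf t rfl with ⟨h1, -⟩ | ⟨h1, h2, h3⟩ <;> rcases hg t rfl with ⟨k1, -⟩ | ⟨k1, k2, k3⟩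
  · have a1 : Tendsto f (𝓝[≠] t) (𝓝 (f t)) :=
      h1.continuousAt.tendsto.mono_left nhdsWithin_le_nhds
    have a2 : Tendsto g (𝓝[≠] t) (𝓝 (g t)) :=
      k1.continuousAt.tendsto.mono_left nhdsWithin_le_nhds
    exact tendsto_nhds_unique a1 (a2.congr' h')
  · exact (crit_mix h1 k1 k2 k3 h).elim
  · exact (crit_mix k1 h1 h2 h3 h').elim
  · rw [h1, k1]

/-- under the natural boundary hypothesis the family is regular at all points `(t, 0)` and the
limit curve is locally univalent on the strip -/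
theorem fam_of_nb {k : ℂ → ℂ} {F G : ℂ × ℂ → ℂ} {c h : ℝ} (hN : NBd k F c h G) :
    (∀ t : ℂ, |t.im| < h → FamAt G t) ∧ LU (sl G 0) (St (-h) h) := by
  have hE : ConE k F c h G := hN.toConE
  have hp : ∀ t : ℂ, |t.im| < h → ((t, (0:ℂ)) : ℂ × ℂ) ∈ DF F c (c / 4) := fun t ht =>
    (DK_shift hE.toCon (mem_DK_zero hE ht)).1
  have hfam : ∀ t : ℂ, |t.im| < h → FamAt G t := by
    intro t₀ ht₀
    by_contra hcrit
    have h0 : t₀.im ≠ 0 := by
      intro h0
      refine hcrit (fam_real hE ?_)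
      rw [h0, abs_zero]
      exact hE.pos
    obtain ⟨ω, hω, hω1, hrot⟩ := rot_of_crit hE ht₀ hcrit
    refine no_rot (f := sl G 0) (h := h) (fun t ht => (slAt_G hE (hp t ht)).meromorphicAt)
      (fun t ht => crit_lu (slAt_G hE (hp t ht)).meromorphicAt
        (fun x => sl_G_not_const hE (hp t ht) x)) ?_ (ne_of_nb hN) ht₀ h0 hω hω1 hrot
    intro t ht g hg hgf
    exact crit_val (fam_of_lu hE ht hg hgf).lu hg hgf
  refine ⟨hfam, fun z hz => ?_⟩
  exact (hfam z (abs_lt.2 hz)).lu z rfl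

end Pool.Agent.MP_ae5b4e_an_NBT
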