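import Mathlib
import Pool.Agent.Lib.MP_ae5b4e_an_NBT.LabD

/-!
# MP_ae5b4e_an, project NB tools: an asymptotic value of a locally univalent map is a value
-/

noncomputable section

namespace Pool.Agent.MP_ae5b4e_an_NBT

open Complex Set Filter Topology Metric

private lemma strip_deriv_aux {M : ℂ → ℂ} {w : ℂ} {r r' h : ℝ} (hr' : 0 < r') (hrr : r' < r)
    (hM : DifferentiableOn ℂ M (ball w r)) (hh : ∀ z ∈ ball w r, |(M z).im| < h) :
    ‖deriv M w‖ * r' ≤ 2 * h := by
  have hsub : closedBall w r' ⊆ ball w r := closedBall_subset_ball hrr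
  have hmem : ∀ θ : ℝ, circleMap w r' θ ∈ ball w r := fun θ =>
    hsub (circleMap_mem_closedBall w hr'.le θ)
  have hc : Continuous fun θ : ℝ => M (circleMap w r' θ) :=
    hM.continuousOn.comp_continuous (continuous_circleMap w r') hmem
  have hI1 := two_pi_I_inv_smul_circleIntegral_sub_sq_inv_smul_of_differentiable
    isOpen_ball hsub hM (mem_ball_self hr')
  have hI2 : (∮ z in C(w, r'), M z) = 0 :=
    circleIntegral_eq_zero_of_differentiable_on_off_countable hr'.le countable_empty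
      (hM.continuousOn.mono hsub) fun z hz =>
        hM.differentiableAt (isOpen_ball.mem_nhds (hsub (ball_subset_closedBall hz.1)))
  simp only [circleIntegral, deriv_circleMap, smul_eq_mul] at hI1 hI2
  have hr0 : (r' : ℂ) ≠ 0 := by exact_mod_cast hr'.ne'
  -- the second integral
  have hJ' : ∫ θ in (0:ℝ)..2 * Real.pi, (exp (θ * I))⁻¹ *
      (starRingEnd ℂ) (M (circleMap w r' θ)) = 0 := by
    have h1 : ∫ θ in (0:ℝ)..2 * Real.pi, exp (θ * I) * M (circleMap w r' θ) = 0 := by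
      have h2 : (r' * I : ℂ) * ∫ θ in (0:ℝ)..2 * Real.pi,
          exp (θ * I) * M (circleMap w r' θ) = 0 := by
        rw [← intervalIntegral.integral_const_mul, ← hI2]
        refine intervalIntegral.integral_congr fun θ _ => ?_
        simp only [circleMap_zero]
        ring
      exact (mul_eq_zero.1 h2).resolve_left (mul_ne_zero hr0 I_ne_zero)
    have h3 := congrArg (starRingEnd ℂ) h1
    rw [map_zero, intervalIntegral.integral_of_le (by positivity), ← integral_conj,
      ← intervalIntegral.integral_of_le (by positivity)] at h3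
    rw [← h3]
    refine intervalIntegral.integral_congr fun θ _ => ?_
    simp only [map_mul, ← exp_conj, conj_ofReal, conj_I, mul_neg, exp_neg]
  have hJ : deriv M w * (2 * Real.pi * r') = ∫ θ in (0:ℝ)..2 * Real.pi, (exp (θ * I))⁻¹ *
      (M (circleMap w r' θ) - (starRingEnd ℂ) (M (circleMap w r' θ))) := by
    have hc1 : Continuous fun θ : ℝ => (exp (θ * I))⁻¹ * M (circleMap w r' θ) :=
      (Continuous.inv₀ (by fun_prop) fun θ => exp_ne_zero _).mul hc
    have hc2 : Continuous fun θ : ℝ => (exp (θ * I))⁻¹ *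
        (starRingEnd ℂ) (M (circleMap w r' θ)) :=
      (Continuous.inv₀ (by fun_prop) fun θ => exp_ne_zero _).mul
        (continuous_conj.comp hc)
    simp only [mul_sub]
    rw [intervalIntegral.integral_sub (hc1.intervalIntegrable _ _) (hc2.intervalIntegrable _ _),
      hJ', sub_zero, ← hI1]
    have h4 : (∫ θ in (0:ℝ)..2 * Real.pi, circleMap 0 r' θ * I *
        (((circleMap w r' θ - w) ^ 2)⁻¹ * M (circleMap w r' θ))) =
        (I / r') * ∫ θ in (0:ℝ)..2 * Real.pi, (exp (θ * I))⁻¹ * M (circleMap w r' θ) := by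
      rw [← intervalIntegral.integral_const_mul]
      refine intervalIntegral.integral_congr fun θ _ => ?_
      simp only [circleMap_sub_center, circleMap_zero]
      have := exp_ne_zero (θ * I)
      field_simp
    rw [h4]
    have hpi : (Real.pi : ℂ) ≠ 0 := by exact_mod_cast Real.pi_ne_zero
    field_simp
  have hn : ‖deriv M w * (2 * Real.pi * r')‖ ≤ 2 * h * |2 * Real.pi - 0| := by
    rw [hJ]
    refine intervalIntegral.norm_integral_le_of_norm_le_const fun θ _ => ?_
    rw [norm_mul, norm_inv, norm_exp_ofReal_mul_I, inv_one, one_mul, sub_conj, norm_mul,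
      norm_I, mul_one, norm_real, Real.norm_eq_abs, abs_mul, abs_two]
    have := hh _ (hmem θ)
    linarith
  rw [norm_mul, norm_mul, norm_mul, sub_zero, abs_of_pos (by positivity)] at hn
  simp only [norm_real, Real.norm_eq_abs, norm_ofNat, abs_of_pos Real.pi_pos,
    abs_of_pos hr'] at hn
  have hpi := Real.pi_pos
  have h5 : (‖deriv M w‖ * r') * (2 * Real.pi) ≤ (2 * h) * (2 * Real.pi) := by
    linarith
  exact le_of_mul_le_mul_right h5 (by positivity)

/-- Derivatives of maps to a strip. -/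
theorem strip_deriv {M : ℂ → ℂ} {w : ℂ} {r h : ℝ} (hr : 0 < r)
    (hM : DifferentiableOn ℂ M (ball w r)) (hh : ∀ z ∈ ball w r, |(M z).im| < h) :
    ‖deriv M w‖ ≤ 2 * h / r := by
  rw [le_div_iff₀ hr]
  have h1 : Tendsto (fun r' : ℝ => ‖deriv M w‖ * r') (𝓝[<] r) (𝓝 (‖deriv M w‖ * r)) :=
    ((continuous_const.mul continuous_id).tendsto r).mono_left nhdsWithin_le_nhds
  refine le_of_tendsto h1 ?_
  filter_upwards [Ioo_mem_nhdsLT hr] with r' hr'
  exact strip_deriv_aux hr'.1 hr'.2 hM hh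

/-! ### The equation `α U + v U' = u` -/

private lemma ef_bdd {u : ℂ → ℂ} {ρ r : ℝ} (hr : r < ρ) (hu : DifferentiableOn ℂ u (ball 0 ρ)) :
    ∃ B, ∀ v ∈ closedBall (0:ℂ) r, ‖u v‖ ≤ B ∧ ‖deriv u v‖ ≤ B := by
  have h1 : ContinuousOn u (closedBall 0 r) := hu.continuousOn.mono (closedBall_subset_ball hr)
  have h2 : ContinuousOn (deriv u) (closedBall 0 r) :=
    (hu.deriv isOpen_ball).continuousOn.mono (closedBall_subset_ball hr)
  obtain ⟨B1, hB1⟩ := (isCompact_closedBall (0:ℂ) r).exists_bound_of_continuousOn h1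
  obtain ⟨B2, hB2⟩ := (isCompact_closedBall (0:ℂ) r).exists_bound_of_continuousOn h2
  exact ⟨max B1 B2, fun v hv => ⟨(hB1 v hv).trans (le_max_left _ _),
    (hB2 v hv).trans (le_max_right _ _)⟩⟩

private lemma ef_mem {v : ℂ} {r s : ℝ} (hv : ‖v‖ < r) (hs : s ∈ Icc (0:ℝ) 1) :
    ‖(s : ℂ) * v‖ < r := by
  rw [norm_mul, norm_real, Real.norm_of_nonneg hs.1]
  exact (mul_le_of_le_one_left (norm_nonneg v) hs.2).trans_lt hv

private lemma ef_U {u : ℂ → ℂ} {ρ α : ℝ} (hα : 0 < α) (hu : DifferentiableOn ℂ u (ball 0 ρ)) :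
    ∃ U U' : ℂ → ℂ, ∀ v ∈ ball (0:ℂ) ρ, HasDerivAt U (U' v) v ∧ α * U v + v * U' v = u v := by
  have hu' : DifferentiableOn ℂ (deriv u) (ball 0 ρ) := hu.deriv isOpen_ball
  refine ⟨fun v => ∫ s in Ioc (0:ℝ) 1, ((s ^ (α - 1) : ℝ) : ℂ) * u (s * v),
    fun v => ∫ s in Ioc (0:ℝ) 1, ((s ^ (α - 1) : ℝ) : ℂ) * (deriv u (s * v) * s),
    fun v₀ hv₀ => ?_⟩
  rw [mem_ball_zero_iff] at hv₀
  obtain ⟨r, hr1, hr2⟩ := exists_between hv₀
  obtain ⟨B, hB⟩ := ef_bdd hr2 hu
  have hrp : ContinuousOn (fun s : ℝ => ((s ^ (α - 1) : ℝ) : ℂ)) (Ioc 0 1) :=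
    continuous_ofReal.comp_continuousOn
      (continuousOn_id.rpow_const fun s hs => Or.inl hs.1.ne')
  have hmaps : ∀ v : ℂ, ‖v‖ < ρ → MapsTo (fun s : ℝ => (s : ℂ) * v) (Icc 0 1) (ball 0 ρ) :=
    fun v hv s hs => by
      rw [mem_ball_zero_iff]
      exact ef_mem hv hs
  have hcu : ∀ v : ℂ, ‖v‖ < ρ → ContinuousOn (fun s : ℝ => u (s * v)) (Icc 0 1) := fun v hv =>
    hu.continuousOn.comp (by fun_prop) (hmaps v hv)
  have hcu' : ∀ v : ℂ, ‖v‖ < ρ → ContinuousOn (fun s : ℝ => deriv u (s * v)) (Icc 0 1) :=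
    fun v hv => hu'.continuousOn.comp (by fun_prop) (hmaps v hv)
  have hint : MeasureTheory.IntegrableOn (fun s : ℝ => B * s ^ (α - 1)) (Ioc 0 1) := by
    have := (intervalIntegral.intervalIntegrable_rpow' (a := 0) (b := 1)
      (show -1 < α - 1 by linarith)).const_mul B
    rwa [intervalIntegrable_iff_integrableOn_Ioc_of_le zero_le_one] at this
  have hmem : ∀ v : ℂ, ‖v‖ < r → ∀ s ∈ Ioc (0:ℝ) 1, (s : ℂ) * v ∈ closedBall (0:ℂ) r :=
    fun v hv s hs => by
      rw [mem_closedBall_zero_iff]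
      exact (ef_mem hv ⟨hs.1.le, hs.2⟩).le
  have hbd : ∀ v : ℂ, ‖v‖ < r → ∀ s ∈ Ioc (0:ℝ) 1,
      ‖((s ^ (α - 1) : ℝ) : ℂ) * u (s * v)‖ ≤ B * s ^ (α - 1) := by
    intro v hv s hs
    rw [norm_mul, norm_real, Real.norm_of_nonneg (Real.rpow_nonneg hs.1.le _), mul_comm]
    exact mul_le_mul_of_nonneg_right (hB _ (hmem v hv s hs)).1 (Real.rpow_nonneg hs.1.le _)
  have hbd' : ∀ v : ℂ, ‖v‖ < r → ∀ s ∈ Ioc (0:ℝ) 1,
      ‖((s ^ (α - 1) : ℝ) : ℂ) * (deriv u (s * v) * s)‖ ≤ B * s ^ (α - 1) := by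
    intro v hv s hs
    rw [norm_mul, norm_mul, norm_real, norm_real,
      Real.norm_of_nonneg (Real.rpow_nonneg hs.1.le _), Real.norm_of_nonneg hs.1.le, mul_comm]
    refine mul_le_mul_of_nonneg_right ?_ (Real.rpow_nonneg hs.1.le _)
    refine (mul_le_of_le_one_right (norm_nonneg _) hs.2).trans (hB _ (hmem v hv s hs)).2
  have hρ : ∀ v : ℂ, ‖v‖ < r → ‖v‖ < ρ := fun v hv => hv.trans hr2
  have hmeas : ∀ v : ℂ, ‖v‖ < r → MeasureTheory.AEStronglyMeasurable
      (fun s : ℝ => ((s ^ (α - 1) : ℝ) : ℂ) * u (s * v))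
      (MeasureTheory.volume.restrict (Ioc 0 1)) := fun v hv =>
    (hrp.mul ((hcu v (hρ v hv)).mono Ioc_subset_Icc_self)).aestronglyMeasurable measurableSet_Ioc
  have hmeas' : ∀ v : ℂ, ‖v‖ < r → MeasureTheory.AEStronglyMeasurable
      (fun s : ℝ => ((s ^ (α - 1) : ℝ) : ℂ) * (deriv u (s * v) * s))
      (MeasureTheory.volume.restrict (Ioc 0 1)) := fun v hv =>
    (hrp.mul (((hcu' v (hρ v hv)).mono Ioc_subset_Icc_self).mul
      (by fun_prop))).aestronglyMeasurable measurableSet_Ioc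
  have hI : ∀ v : ℂ, ‖v‖ < r → MeasureTheory.IntegrableOn
      (fun s : ℝ => ((s ^ (α - 1) : ℝ) : ℂ) * u (s * v)) (Ioc 0 1) := fun v hv =>
    hint.mono' (hmeas v hv) ((MeasureTheory.ae_restrict_iff' measurableSet_Ioc).2
      (Eventually.of_forall fun s hs => hbd v hv s hs))
  have hnb : {v : ℂ | ‖v‖ < r} ∈ 𝓝 v₀ := (isOpen_lt continuous_norm continuous_const).mem_nhds hr1
  have key := hasDerivAt_integral_of_dominated_loc_of_deriv_le
    (μ := MeasureTheory.volume.restrict (Ioc (0:ℝ) 1))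
    (F := fun (v : ℂ) (s : ℝ) => ((s ^ (α - 1) : ℝ) : ℂ) * u (s * v))
    (F' := fun (v : ℂ) (s : ℝ) => ((s ^ (α - 1) : ℝ) : ℂ) * (deriv u (s * v) * s))
    (x₀ := v₀) (s := {v : ℂ | ‖v‖ < r}) (bound := fun s : ℝ => B * s ^ (α - 1)) hnb
    (by filter_upwards [hnb] with v hv; exact hmeas v hv)
    (hI v₀ hr1) (hmeas' v₀ hr1)
    ((MeasureTheory.ae_restrict_iff' measurableSet_Ioc).2
      (Eventually.of_forall fun s hs v hv => hbd' v hv s hs)) hint
    ((MeasureTheory.ae_restrict_iff' measurableSet_Ioc).2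
      (Eventually.of_forall fun s hs v hv => by
        have h1 : HasDerivAt u (deriv u (s * v)) (s * v) :=
          (hu.differentiableAt (isOpen_ball.mem_nhds
            (closedBall_subset_ball hr2 (hmem v hv s hs)))).hasDerivAt
        have h2 : HasDerivAt (fun v : ℂ => (s : ℂ) * v) (s : ℂ) v := by
          simpa using (hasDerivAt_id v).const_mul (s : ℂ)
        exact (h1.comp v h2).const_mul _))
  refine ⟨key.2, ?_⟩
  -- the differential equation
  have hf : ∀ s ∈ Ioo (0:ℝ) 1, HasDerivAt (fun s : ℝ => ((s ^ α : ℝ) : ℂ) * u (s * v₀))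
      (α * (((s ^ (α - 1) : ℝ) : ℂ) * u (s * v₀)) +
        v₀ * (((s ^ (α - 1) : ℝ) : ℂ) * (deriv u (s * v₀) * s))) s := by
    intro s hs
    have h1 : HasDerivAt (fun s : ℝ => ((s ^ α : ℝ) : ℂ)) ((α * s ^ (α - 1) : ℝ) : ℂ) s :=
      (Real.hasDerivAt_rpow_const (Or.inl hs.1.ne')).ofReal_comp
    have h2 : HasDerivAt u (deriv u (s * v₀)) (s * v₀) :=
      (hu.differentiableAt (isOpen_ball.mem_nhds
        (closedBall_subset_ball hr2 (hmem v₀ hr1 s ⟨hs.1, hs.2.le⟩)))).hasDerivAt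
    have h3 : HasDerivAt (fun s : ℝ => (s : ℂ) * v₀) v₀ s := by
      simpa using (hasDerivAt_id s).ofReal_comp.mul_const v₀
    have h4 : HasDerivAt (fun s : ℝ => u (s * v₀)) (deriv u (s * v₀) * v₀) s :=
      h2.comp s h3
    have h5 := h1.mul h4
    refine h5.congr_deriv ?_
    have h6 : ((s ^ α : ℝ) : ℂ) = ((s ^ (α - 1) : ℝ) : ℂ) * s := by
      rw [← ofReal_mul, Real.rpow_sub_one hs.1.ne', div_mul_cancel₀ _ hs.1.ne']
    rw [h6]
    push_cast
    ring
  have hcont : ContinuousOn (fun s : ℝ => ((s ^ α : ℝ) : ℂ) * u (s * v₀)) (Icc 0 1) := by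
    refine (continuous_ofReal.comp_continuousOn
      (continuousOn_id.rpow_const fun s _ => Or.inr hα.le)).mul (hcu v₀ hv₀)
  have hi1 : IntervalIntegrable (fun s : ℝ => ((s ^ (α - 1) : ℝ) : ℂ) * u (s * v₀))
      MeasureTheory.volume 0 1 := by
    rw [intervalIntegrable_iff_integrableOn_Ioc_of_le zero_le_one]
    exact hI v₀ hr1
  have hi2 : IntervalIntegrable (fun s : ℝ => ((s ^ (α - 1) : ℝ) : ℂ) * (deriv u (s * v₀) * s))
      MeasureTheory.volume 0 1 := by
    rw [intervalIntegrable_iff_integrableOn_Ioc_of_le zero_le_one]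
    exact key.1
  have hftc := intervalIntegral.integral_eq_sub_of_hasDerivAt_of_le zero_le_one hcont hf
    ((hi1.const_mul _).add (hi2.const_mul _))
  rw [intervalIntegral.integral_add (hi1.const_mul _) (hi2.const_mul _),
    intervalIntegral.integral_const_mul, intervalIntegral.integral_const_mul,
    intervalIntegral.integral_of_le zero_le_one, intervalIntegral.integral_of_le zero_le_one]
    at hftc
  rw [hftc]
  simp [Real.zero_rpow hα.ne']

/-! ### The exponent is not singular -/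

private lemma ef_exp_mem {ε : ℝ} (hε : 0 < ε) {w : ℂ} (hw : w.re < Real.log ε) :
    exp w ∈ ball (0:ℂ) ε := by
  rw [mem_ball_zero_iff, norm_exp]
  exact (Real.lt_log_iff_exp_lt hε).1 hw

private lemma ef_decay {M : ℂ → ℂ} {a C : ℝ}
    (hC : ∀ w, w.re < a → ‖deriv M w‖ * (a - w.re) ≤ C) {δ : ℝ} (hδ : 0 < δ) :
    ∃ R, R ≤ a ∧ ∀ w : ℂ, w.re < R → ‖deriv M w‖ < δ := by
  refine ⟨min a (a - C / δ), min_le_left _ _, fun w hw => ?_⟩
  have h1 : w.re < a := hw.trans_le (min_le_left _ _)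
  have h2 : w.re < a - C / δ := hw.trans_le (min_le_right _ _)
  by_contra hcon
  push Not at hcon
  have h3 : δ * (a - w.re) ≤ C := (mul_le_mul_of_nonneg_right hcon (by linarith)).trans (hC w h1)
  have h4 : C / δ < a - w.re := by linarith
  rw [div_lt_iff₀ hδ] at h4
  linarith

private lemma ef_tendsto_exp (θ : ℝ) :
    Tendsto (fun x : ℝ => exp (x + θ * I)) atBot (𝓝[≠] 0) := by
  refine tendsto_nhdsWithin_iff.2 ⟨?_, Eventually.of_forall fun x => exp_ne_zero _⟩
  rw [tendsto_zero_iff_norm_tendsto_zero]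
  refine Real.tendsto_exp_atBot.congr fun x => ?_
  rw [norm_exp]
  simp

/-- no pole -/
private lemma ef_nopole {M : ℂ → ℂ} {p g : ℂ → ℂ} {a C : ℝ} {n : ℤ} (hn : n < 0)
    (hM : DifferentiableOn ℂ M {w | w.re < a})
    (hM0 : ∀ w : ℂ, w.re < a → deriv M w ≠ 0)
    (hode : ∀ w : ℂ, w.re < a → deriv (deriv M) w = p (exp w) * deriv M w)
    (hC : ∀ w : ℂ, w.re < a → ‖deriv M w‖ * (a - w.re) ≤ C)
    (hg : ContinuousAt g 0) (hg0 : g 0 ≠ 0)
    (hp : ∀ᶠ v in 𝓝[≠] (0:ℂ), p v = v ^ n * g v) : False := by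
  have hopen : IsOpen {w : ℂ | w.re < a} := isOpen_lt continuous_re continuous_const
  set θ : ℝ := (Real.pi - arg (g 0)) / n with hθ
  have hn0 : (n : ℝ) ≠ 0 := by exact_mod_cast hn.ne
  have hphase : exp (n * (θ * I)) * g 0 = -(‖g 0‖ : ℂ) := by
    have h1 : (n : ℂ) * (θ * I) = Real.pi * I - arg (g 0) * I := by
      have h2 : (n : ℂ) * (θ : ℂ) = Real.pi - arg (g 0) := by
        rw [hθ]
        push_cast
        have : (n : ℂ) ≠ 0 := by exact_mod_cast hn.ne
        field_simp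
      rw [← mul_assoc, h2, sub_mul]
    rw [h1, exp_sub, exp_pi_mul_I]
    have h3 := norm_mul_exp_arg_mul_I (g 0)
    have h4 := exp_ne_zero (arg (g 0) * I)
    nth_rewrite 2 [← h3]
    field_simp
  -- the real part of `p` is negative on the ray
  have hneg : ∀ᶠ x : ℝ in atBot, (p (exp (x + θ * I))).re < 0 := by
    have h1 : Tendsto (fun x : ℝ => (exp (n * (θ * I)) * g (exp (x + θ * I))).re) atBot
        (𝓝 (-‖g 0‖)) := by
      have h2 : Tendsto (fun x : ℝ => exp (n * (θ * I)) * g (exp (x + θ * I))) atBot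
          (𝓝 (exp (n * (θ * I)) * g 0)) :=
        (hg.tendsto.comp ((ef_tendsto_exp θ).mono_right nhdsWithin_le_nhds)).const_mul _
      rw [hphase] at h2
      have h3 := (continuous_re.tendsto _).comp h2
      simpa only [Function.comp_def, neg_re, ofReal_re] using h3
    have h4 := h1.eventually_lt_const (show -‖g 0‖ < 0 by
      have := norm_pos_iff.2 hg0
      linarith)
    filter_upwards [h4, (ef_tendsto_exp θ).eventually hp] with x h5 h6
    rw [h6, ← exp_int_mul, mul_add, exp_add, mul_assoc]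
    have h7 : exp (n * (x : ℂ)) = ((Real.exp (n * x) : ℝ) : ℂ) := by
      push_cast
      rfl
    rw [h7, re_ofReal_mul]
    exact mul_neg_of_pos_of_neg (Real.exp_pos _) h5
  obtain ⟨x₁, hx₁⟩ := eventually_atBot.1 (hneg.and (eventually_lt_atBot a))
  -- the norm of the derivative is antitone
  have hd : ∀ x : ℝ, x ≤ x₁ → HasDerivAt (fun x : ℝ => normSq (deriv M (x + θ * I)))
      (2 * (normSq (deriv M (x + θ * I)) * (p (exp (x + θ * I))).re)) x := by
    intro x hx
    have hxa : ((x : ℂ) + θ * I).re < a := by simpa using (hx₁ x hx).2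
    have h1 : HasDerivAt (deriv M) (deriv (deriv M) (x + θ * I)) (x + θ * I) :=
      ((hM.deriv hopen).differentiableAt (hopen.mem_nhds hxa)).hasDerivAt
    rw [hode _ hxa] at h1
    have h2 : HasDerivAt (fun x : ℝ => (x : ℂ) + θ * I) 1 x := by
      simpa using (hasDerivAt_id x).ofReal_comp.add_const (θ * I : ℂ)
    have h3 : HasDerivAt (fun x : ℝ => deriv M (x + θ * I))
        (p (exp (x + θ * I)) * deriv M (x + θ * I)) x := by
      have h := h1.comp x h2
      rwa [mul_one] at h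
    have hre : HasDerivAt (fun x : ℝ => (deriv M (x + θ * I)).re)
        (p (exp (x + θ * I)) * deriv M (x + θ * I)).re x := by
      have h := (reCLM.hasFDerivAt (x := deriv M (x + θ * I))).comp_hasDerivAt x h3
      exact h
    have him : HasDerivAt (fun x : ℝ => (deriv M (x + θ * I)).im)
        (p (exp (x + θ * I)) * deriv M (x + θ * I)).im x := by
      have h := (imCLM.hasFDerivAt (x := deriv M (x + θ * I))).comp_hasDerivAt x h3
      exact h
    have h4 := (hre.mul hre).add (him.mul him)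
    have h5 : (fun x : ℝ => normSq (deriv M (x + θ * I))) =
        fun x : ℝ => (deriv M (x + θ * I)).re * (deriv M (x + θ * I)).re +
          (deriv M (x + θ * I)).im * (deriv M (x + θ * I)).im := by
      funext x
      rw [normSq_apply]
    rw [h5]
    refine h4.congr_deriv ?_
    rw [normSq_apply, mul_re, mul_im]
    ring
  have hanti : AntitoneOn (fun x : ℝ => normSq (deriv M (x + θ * I))) (Iic x₁) := by
    refine antitoneOn_of_deriv_nonpos (convex_Iic x₁)
      (fun x hx => (hd x hx).continuousAt.continuousWithinAt)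
      (fun x hx => (hd x (interior_subset (s := Iic x₁) hx)).differentiableAt.differentiableWithinAt)
      fun x hx => ?_
    have hx' : x ≤ x₁ := interior_subset (s := Iic x₁) hx
    rw [(hd x hx').deriv]
    have h1 := (hx₁ x hx').1
    have h2 := normSq_nonneg (deriv M (x + θ * I))
    nlinarith
  have hx1a : ((x₁ : ℂ) + θ * I).re < a := by simpa using (hx₁ x₁ le_rfl).2
  have hpos : 0 < ‖deriv M (x₁ + θ * I)‖ := norm_pos_iff.2 (hM0 _ hx1a)
  obtain ⟨R, hR, hR'⟩ := ef_decay hC hpos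
  have h1 := hR' ((min x₁ (R - 1) : ℝ) + θ * I) (by
    simp only [add_re, ofReal_re, mul_re, I_re, mul_zero, ofReal_im, I_im, mul_one, sub_self,
      add_zero]
    exact (min_le_right _ _).trans_lt (by linarith))
  have h2 := hanti (mem_Iic.2 (min_le_left x₁ (R - 1))) (mem_Iic.2 le_rfl)
    (min_le_left _ _)
  simp only [normSq_eq_norm_sq] at h2
  have h3 := pow_lt_pow_left₀ h1 (norm_nonneg _) (two_ne_zero)
  linarith

/-- A function `M` with `M' = exp (∫ p(e^w) dw)` on a half plane, `p` meromorphic at `0`, whose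
derivative is `O(1 / distance)`, is `c₀ + e^(α w) U(e^w)`, `α > 0`. -/
theorem end_form {M : ℂ → ℂ} {p : ℂ → ℂ} {ε C : ℝ} (hε : 0 < ε)
    (hM : DifferentiableOn ℂ M {w | w.re < Real.log ε})
    (hM0 : ∀ w, w.re < Real.log ε → deriv M w ≠ 0)
    (hp : MeromorphicAt p 0)
    (hode : ∀ w, w.re < Real.log ε → deriv (deriv M) w = p (exp w) * deriv M w)
    (hC : ∀ w, w.re < Real.log ε → ‖deriv M w‖ * (Real.log ε - w.re) ≤ C) :
    ∃ (α : ℝ) (c₀ : ℂ) (U : ℂ → ℂ) (ε' : ℝ), 0 < α ∧ 0 < ε' ∧ ε' ≤ ε ∧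
      AnalyticOnNhd ℂ U (ball 0 ε') ∧ U 0 ≠ 0 ∧
      ∀ w, w.re < Real.log ε' → M w = c₀ + exp (α * w) * U (exp w) := by
  -- `p` is analytic at `0`
  obtain ⟨G, hG, hpG⟩ : ∃ G : ℂ → ℂ, AnalyticAt ℂ G 0 ∧ ∀ᶠ v in 𝓝[≠] (0:ℂ), p v = G v := by
    by_cases htop : meromorphicOrderAt p 0 = ⊤
    · exact ⟨fun _ => 0, analyticAt_const, meromorphicOrderAt_eq_top_iff.1 htop⟩
    · obtain ⟨n, hn⟩ := WithTop.ne_top_iff_exists.1 htop
      obtain ⟨g, hg, hg0, hpg⟩ := (meromorphicOrderAt_eq_int_iff hp).1 hn.symm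
      simp only [sub_zero, smul_eq_mul] at hpg
      rcases lt_or_ge n 0 with hneg | hpos
      · exact (ef_nopole hneg hM hM0 hode hC hg.continuousAt hg0 hpg).elim
      · lift n to ℕ using hpos
        refine ⟨fun v => v ^ n * g v, (analyticAt_id.pow n).mul hg, ?_⟩
        filter_upwards [hpg] with v hv
        rw [hv, zpow_natCast]
  -- a small disc
  obtain ⟨ε₁, hε₁, hε₁'⟩ : ∃ ε₁ > 0, ∀ v ∈ ball (0:ℂ) ε₁, AnalyticAt ℂ G v ∧
      (v ≠ 0 → p v = G v) := by
    have h1 := hG.eventually_analyticAt.and (eventually_nhdsWithin_iff.1 hpG)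
    obtain ⟨ε₁, h2, h3⟩ := Metric.eventually_nhds_iff_ball.1 h1
    exact ⟨ε₁, h2, fun v hv => ⟨(h3 v hv).1, fun hv0 => (h3 v hv).2 hv0⟩⟩
  set ρ := min ε₁ ε with hρ
  have hρ0 : 0 < ρ := lt_min hε₁ hε
  have hρε : ρ ≤ ε := min_le_right _ _
  have hlog : Real.log ρ ≤ Real.log ε := Real.log_le_log hρ0 hρε
  have hball : ball (0:ℂ) ρ ⊆ ball 0 ε₁ := ball_subset_ball (min_le_left _ _)
  have hopen : IsOpen {w : ℂ | w.re < Real.log ε} := isOpen_lt continuous_re continuous_const
  have hopen' : IsOpen {w : ℂ | w.re < Real.log ρ} := isOpen_lt continuous_re continuous_const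
  have hconv : Convex ℝ {w : ℂ | w.re < Real.log ρ} := convex_halfSpace_re_lt _
  have hGd : DifferentiableOn ℂ G (ball 0 ρ) := fun v hv =>
    (hε₁' v (hball hv)).1.differentiableAt.differentiableWithinAt
  have hG1 : DifferentiableOn ℂ (dslope G 0) (ball 0 ρ) :=
    (Complex.differentiableOn_dslope (ball_mem_nhds 0 hρ0)).2 hGd
  obtain ⟨K, hK⟩ := hG1.isExactOn_ball
  -- the formula for the derivative
  obtain ⟨A, hA⟩ : ∃ A, ∀ w : ℂ, w.re < Real.log ρ →
      deriv M w = A * exp (G 0 * w) * exp (K (exp w)) := by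
    have hd : ∀ w : ℂ, w.re < Real.log ρ → HasDerivAt
        (fun w => deriv M w * exp (-(G 0 * w + K (exp w)))) 0 w := by
      intro w hw
      have hw' : w.re < Real.log ε := hw.trans_le hlog
      have h1 : HasDerivAt (deriv M) (deriv (deriv M) w) w :=
        ((hM.deriv hopen).differentiableAt (hopen.mem_nhds hw')).hasDerivAt
      have hv := ef_exp_mem hρ0 hw
      have h2 : HasDerivAt (fun w => K (exp w)) (dslope G 0 (exp w) * exp w) w :=
        (hK _ hv).comp w (hasDerivAt_exp w)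
      have h3 : HasDerivAt (fun w => exp (-(G 0 * w + K (exp w))))
          (exp (-(G 0 * w + K (exp w))) * -(G 0 + dslope G 0 (exp w) * exp w)) w := by
        have h4 : HasDerivAt (fun w : ℂ => G 0 * w) (G 0) w := by
          simpa using (hasDerivAt_id w).const_mul (G 0)
        exact (h4.add h2).neg.cexp
      have h5 := h1.mul h3
      refine h5.congr_deriv ?_
      have h6 : p (exp w) = G (exp w) := (hε₁' _ (hball hv)).2 (exp_ne_zero w)
      have h7 := sub_smul_dslope G 0 (exp w)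
      rw [sub_zero, smul_eq_mul] at h7
      rw [hode w hw', h6]
      linear_combination (-(deriv M w * exp (-(G 0 * w + K (exp w))))) * h7
    obtain ⟨A, hA⟩ := hopen'.exists_is_const_of_deriv_eq_zero hconv.isPreconnected
      (fun w hw => (hd w hw).differentiableAt.differentiableWithinAt)
      (fun w hw => (hd w hw).deriv)
    refine ⟨A, fun w hw => ?_⟩
    rw [← hA w hw, mul_assoc, mul_assoc, ← exp_add, ← exp_add, neg_add_cancel, exp_zero, mul_one]
  have hlt : ∀ {x : ℝ} {w : ℂ}, w.re = x → x < Real.log ρ → w.re < Real.log ρ :=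
    fun h1 h2 => by rwa [h1]
  have hA0 : A ≠ 0 := by
    rintro rfl
    have h1 := hA ((Real.log ρ - 1 : ℝ) : ℂ) (by rw [ofReal_re]; linarith)
    rw [zero_mul, zero_mul] at h1
    exact hM0 _ (by rw [ofReal_re]; linarith) h1
  -- the exponent is real
  have hIm : (G 0).im = 0 := by
    by_contra hne
    set w₀ : ℂ := ((Real.log ρ - 1 : ℝ) : ℂ) with hw₀
    have hw0 : w₀.re < Real.log ρ := by rw [hw₀, ofReal_re]; linarith
    have hpos : 0 < ‖deriv M w₀‖ := norm_pos_iff.2 (hM0 _ (hw0.trans_le hlog))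
    have hb : ∀ N : ℤ, -(2 * Real.pi * (G 0).im) * N ≤
        C / (Real.log ε - w₀.re) / ‖deriv M w₀‖ := by
      intro N
      have hwN : (w₀ + N * (2 * Real.pi * I)).re = w₀.re := by simp
      have h1 := hA (w₀ + N * (2 * Real.pi * I)) (by rw [hwN]; exact hw0)
      have h2 : exp (w₀ + N * (2 * Real.pi * I)) = exp w₀ := by
        rw [exp_add, exp_int_mul_two_pi_mul_I, mul_one]
      rw [h2] at h1
      have h3 := hA w₀ hw0
      have h4 : deriv M (w₀ + N * (2 * Real.pi * I)) =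
          exp (G 0 * (N * (2 * Real.pi * I))) * deriv M w₀ := by
        rw [h1, h3, mul_add, exp_add]
        ring
      have h5 : ‖exp (G 0 * (N * (2 * Real.pi * I)))‖ =
          Real.exp (-(2 * Real.pi * (G 0).im) * N) := by
        rw [norm_exp]
        congr 1
        simp
        ring
      have h6 := hC (w₀ + N * (2 * Real.pi * I)) (by rw [hwN]; exact hw0.trans_le hlog)
      rw [hwN, h4, norm_mul, h5] at h6
      have h7 : 0 < Real.log ε - w₀.re := by linarith [hw0.trans_le hlog]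
      rw [le_div_iff₀ hpos, le_div_iff₀ h7]
      refine le_trans ?_ h6
      have h8 := Real.add_one_le_exp (-(2 * Real.pi * (G 0).im) * N)
      have h9 : -(2 * Real.pi * (G 0).im) * N ≤ Real.exp (-(2 * Real.pi * (G 0).im) * N) := by
        linarith
      gcongr
    set y := -(2 * Real.pi * (G 0).im) with hy
    have hy0 : y ≠ 0 := by
      rw [hy]
      exact neg_ne_zero.2 (mul_ne_zero (by positivity) hne)
    obtain ⟨N, hN⟩ := exists_nat_gt (C / (Real.log ε - w₀.re) / ‖deriv M w₀‖ / |y|)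
    rw [div_lt_iff₀ (abs_pos.2 hy0)] at hN
    have h1 := hb N
    have h2 := hb (-N)
    push_cast at h1 h2
    rcases abs_cases y with ⟨h3, -⟩ | ⟨h3, -⟩ <;> rw [h3] at hN <;> linarith
  set α : ℝ := (G 0).re with hα
  have hG0 : G 0 = (α : ℂ) := by
    apply Complex.ext
    · rw [ofReal_re]
    · rw [ofReal_im, hIm]
  -- the exponent is positive
  have hα0 : 0 < α := by
    by_contra hcon
    push Not at hcon
    have hKc : ContinuousAt K 0 := (hK 0 (mem_ball_self hρ0)).continuousAt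
    have h1 : Tendsto (fun x : ℝ => (K (exp (x + (0:ℝ) * I))).re) atBot (𝓝 (K 0).re) :=
      (continuous_re.tendsto _).comp
        (hKc.tendsto.comp ((ef_tendsto_exp 0).mono_right nhdsWithin_le_nhds))
    have h2 := h1.eventually_const_lt (show (K 0).re - 1 < (K 0).re by linarith)
    have hδ : 0 < ‖A‖ * Real.exp ((K 0).re - 1) :=
      mul_pos (norm_pos_iff.2 hA0) (Real.exp_pos _)
    obtain ⟨R, hR, hR'⟩ := ef_decay hC hδ
    obtain ⟨x, hx1, hx2, hx3, hx4⟩ := (h2.and ((eventually_lt_atBot R).and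
      ((eventually_lt_atBot (Real.log ρ)).and (eventually_lt_atBot 0)))).exists
    have h3 := hR' (x : ℂ) (by rw [ofReal_re]; exact hx2)
    rw [hA x (by rw [ofReal_re]; exact hx3), norm_mul, norm_mul, norm_exp, norm_exp, hG0,
      ← ofReal_mul, ofReal_re] at h3
    simp only [ofReal_zero, zero_mul, add_zero] at hx1
    have h4 : 1 ≤ Real.exp (α * x) := Real.one_le_exp (mul_nonneg_of_nonpos_of_nonpos hcon hx4.le)
    have h5 : Real.exp ((K 0).re - 1) < Real.exp (K (exp x)).re := Real.exp_lt_exp.2 hx1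
    have h6 : 0 < ‖A‖ := norm_pos_iff.2 hA0
    have h7 : ‖A‖ * Real.exp ((K 0).re - 1) < ‖A‖ * Real.exp (α * x) *
        Real.exp (K (exp x)).re := by
      calc ‖A‖ * Real.exp ((K 0).re - 1) < ‖A‖ * Real.exp (K (exp x)).re :=
            mul_lt_mul_of_pos_left h5 h6
        _ ≤ ‖A‖ * Real.exp (α * x) * Real.exp (K (exp x)).re := by
            refine mul_le_mul_of_nonneg_right ?_ (Real.exp_pos _).le
            exact le_mul_of_one_le_right h6.le h4
    linarith
  -- the function `U`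
  have hu : DifferentiableOn ℂ (fun v => A * exp (K v)) (ball 0 ρ) := fun v hv =>
    ((hK v hv).cexp.const_mul A).differentiableAt.differentiableWithinAt
  obtain ⟨U, U', hU⟩ := ef_U hα0 hu
  have hUd : DifferentiableOn ℂ U (ball 0 ρ) := fun v hv =>
    (hU v hv).1.differentiableAt.differentiableWithinAt
  have hfin : ∀ w : ℂ, w.re < Real.log ρ → HasDerivAt
      (fun w => M w - exp (α * w) * U (exp w)) 0 w := by
    intro w hw
    have hv := ef_exp_mem hρ0 hw
    have h1 : HasDerivAt M (deriv M w) w :=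
      (hM.differentiableAt (hopen.mem_nhds (hw.trans_le hlog))).hasDerivAt
    have h2 : HasDerivAt (fun w : ℂ => exp (α * w)) (exp (α * w) * α) w := by
      have h4 : HasDerivAt (fun w : ℂ => (α : ℂ) * w) (α : ℂ) w := by
        simpa using (hasDerivAt_id w).const_mul (α : ℂ)
      exact h4.cexp
    have h3 : HasDerivAt (fun w => U (exp w)) (U' (exp w) * exp w) w :=
      (hU _ hv).1.comp w (hasDerivAt_exp w)
    refine (h1.sub (h2.mul h3)).congr_deriv ?_
    have h5 := (hU _ hv).2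
    rw [hA w hw, hG0]
    linear_combination (-exp (α * w)) * h5
  obtain ⟨c₀, hc₀⟩ := hopen'.exists_is_const_of_deriv_eq_zero hconv.isPreconnected
    (fun w hw => (hfin w hw).differentiableAt.differentiableWithinAt)
    (fun w hw => (hfin w hw).deriv)
  refine ⟨α, c₀, U, ρ, hα0, hρ0, hρε, hUd.analyticOnNhd isOpen_ball, ?_, fun w hw => ?_⟩
  · intro h0
    have h1 := (hU 0 (mem_ball_self hρ0)).2
    rw [h0, mul_zero, zero_mul, add_zero] at h1
    exact mul_ne_zero hA0 (exp_ne_zero _) h1.symm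
  · rw [← hc₀ w hw]
    ring

end Pool.Agent.MP_ae5b4e_an_NBT
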