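import Mathlib
import Pool.Agent.Lib.MP_ae5b4e_an_NBT.LabA

/-!
# MP_ae5b4e_an, project NB tools: continuation of a label, at a point
-/

noncomputable section

namespace Pool.Agent.MP_ae5b4e_an_NBT

open Complex Set Filter Topology Metric

private lemma lb_inv {M : ℂ → ℂ} {w : ℂ} (hM : AnalyticAt ℂ M w) (h : deriv M w ≠ 0) :
    ∃ G : ℂ → ℂ, AnalyticAt ℂ G (M w) ∧ G (M w) = w ∧ deriv G (M w) ≠ 0 ∧
      (∀ᶠ z in 𝓝 (M w), M (G z) = z) ∧ ∀ᶠ z in 𝓝 w, G (M z) = z := by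
  have ha := hM.analyticAt_localInverse h
  have hl : ∀ᶠ z in 𝓝 w, hM.hasStrictDerivAt.localInverse _ _ _ h (M z) = z :=
    hM.hasStrictDerivAt.eventually_left_inverse h
  have hr := hM.hasStrictDerivAt.eventually_right_inverse h
  have hd := (hM.hasStrictDerivAt.to_localInverse h).hasDerivAt
  refine ⟨hM.hasStrictDerivAt.localInverse _ _ _ h, ha, hl.self_of_nhds, ?_, hr, hl⟩
  rw [hd.deriv]
  exact inv_ne_zero h

theorem LU.inv {f : ℂ → ℂ} {S : Set ℂ} (h : LU f S) : LU (fun z => (f z)⁻¹) S := by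
  intro z hz
  have hii : (fun w => ((f w)⁻¹)⁻¹) = f := by
    funext w
    exact inv_inv _
  rcases h z hz with ⟨h1, h2⟩ | ⟨h1, h2, h3⟩
  · by_cases h0 : f z = 0
    · right
      refine ⟨by simp only [h0, inv_zero], ?_, ?_⟩
      · rw [hii]
        exact h1
      · rw [hii]
        exact h2
    · left
      refine ⟨h1.fun_inv h0, ?_⟩
      have h3 := (h1.differentiableAt.hasDerivAt.fun_inv h0).deriv
      rw [h3]
      exact div_ne_zero (neg_ne_zero.2 h2) (pow_ne_zero 2 h0)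
  · left
    exact ⟨h2, h3⟩

theorem NE.inv {f : ℂ → ℂ} {h : ℝ} (hf : NE f h) : NE (fun z => (f z)⁻¹) h := by
  intro b hb δ hδ g hg hall
  refine hf b hb δ hδ (fun z => (g z)⁻¹) hg.inv fun z hz hzh => ?_
  show (g z)⁻¹ = f z
  rw [hall z hz hzh, inv_inv]

/-- at a pole of a locally univalent map: the map is the inverse of a function which vanishes
only at the pole -/
private lemma lb_pole {f : ℂ → ℂ} {z : ℂ}
    (h2 : AnalyticAt ℂ (fun w => (f w)⁻¹) z) (h3 : deriv (fun w => (f w)⁻¹) z ≠ 0) :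
    ∀ᶠ w in 𝓝[≠] z, f w ≠ 0 := by
  have h4 : ∀ᶠ w in 𝓝[≠] z, (fun w => (f w)⁻¹) w ≠ 0 := by
    have h5 := h2.differentiableAt.hasDerivAt.eventually_ne (c := 0) h3
    exact h5
  filter_upwards [h4] with w hw h0
  apply hw
  show (f w)⁻¹ = 0
  rw [h0, inv_zero]

/-- identity theorem for a locally univalent map and an analytic function -/
private lemma lb_id {f g : ℂ → ℂ} {V : Set ℂ} (hV : IsPreconnected V)
    (hf : LU f V) (hg : AnalyticOnNhd ℂ g V) {a : ℂ} (ha : a ∈ V) (hfg : f =ᶠ[𝓝 a] g) :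
    ∀ z ∈ V, f =ᶠ[𝓝 z] g := by
  have hop : IsOpen {z | f =ᶠ[𝓝 z] g} := isOpen_setOfPred_eventually_nhds
  refine hV.subset_of_closure_inter_subset hop ⟨a, ha, hfg⟩ ?_
  rintro z ⟨hz1, hz2⟩
  have hfr : ∃ᶠ w in 𝓝 z, f =ᶠ[𝓝 w] g := mem_closure_iff_frequently.1 hz1
  rcases hf z hz2 with ⟨h1, -⟩ | ⟨h1, h2, h3⟩
  · rcases h1.eventually_eq_or_eventually_ne (hg z hz2) with h4 | h4
    · exact h4
    · exfalso
      obtain ⟨w, hw1, hw2⟩ := (hfr.and_eventually (eventually_nhdsWithin_iff.1 h4).eventually_nhds).exists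
      have h5 : ∀ᶠ x in 𝓝 w, x = z := by
        filter_upwards [hw1, hw2] with x hx1 hx2
        by_contra hx
        exact hx2 hx hx1
      have h6 : (𝓝[≠] w).NeBot := inferInstance
      have h7 : ∀ᶠ x in 𝓝[≠] w, False := by
        have h8 : w = z := h5.self_of_nhds
        filter_upwards [nhdsWithin_le_nhds h5, self_mem_nhdsWithin] with x hx1 hx2
        exact hx2 (hx1.trans h8.symm)
      exact h6.ne (by simpa using h7)
  · exfalso
    have h4 : AnalyticAt ℂ (fun w => (f w)⁻¹ * g w) z := h2.mul (hg z hz2)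
    have h0 := lb_pole h2 h3
    rcases h4.eventually_eq_or_eventually_ne (analyticAt_const (v := (1 : ℂ))) with h5 | h5
    · have h6 := h5.self_of_nhds
      simp only [h1, inv_zero, zero_mul] at h6
      exact zero_ne_one h6
    · obtain ⟨w, hw1, hw2⟩ := (hfr.and_eventually
        (eventually_nhdsWithin_iff.1 (h5.and h0)).eventually_nhds).exists
      have h7 : ∀ᶠ x in 𝓝 w, x = z := by
        filter_upwards [hw1, hw2] with x hx1 hx2
        by_contra hx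
        obtain ⟨hx3, hx4⟩ := hx2 hx
        apply hx3
        show (f x)⁻¹ * g x = 1
        rw [← hx1, inv_mul_cancel₀ hx4]
      have h6 : (𝓝[≠] w).NeBot := inferInstance
      have h8 : ∀ᶠ x in 𝓝[≠] w, False := by
        have h9 : w = z := h7.self_of_nhds
        filter_upwards [nhdsWithin_le_nhds h7, self_mem_nhdsWithin] with x hx1 hx2
        exact hx2 (hx1.trans h9.symm)
      exact h6.ne (by simpa using h8)

private lemma lb_comp {f M : ℂ → ℂ} {S B : Set ℂ} (hf : LU f S) (hM : AnalyticOnNhd ℂ M B)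
    (hM0 : ∀ w ∈ B, deriv M w ≠ 0) (hMS : MapsTo M B S) : LU (fun w => f (M w)) B := by
  intro w hw
  have hMw := (hM w hw).differentiableAt.hasDerivAt
  rcases hf (M w) (hMS hw) with ⟨h1, h2⟩ | ⟨h1, h2, h3⟩
  · left
    refine ⟨AnalyticAt.fun_comp h1 (hM w hw), ?_⟩
    have h4 : HasDerivAt (fun w => f (M w)) (deriv f (M w) * deriv M w) w :=
      h1.differentiableAt.hasDerivAt.comp w hMw
    rw [h4.deriv]
    exact mul_ne_zero h2 (hM0 w hw)
  · right
    refine ⟨h1, AnalyticAt.fun_comp (g := fun z => (f z)⁻¹) (f := M) h2 (hM w hw), ?_⟩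
    have h4 : HasDerivAt (fun w => (f (M w))⁻¹) (deriv (fun z => (f z)⁻¹) (M w) * deriv M w) w :=
      h2.differentiableAt.hasDerivAt.comp w hMw
    rw [h4.deriv]
    exact mul_ne_zero h3 (hM0 w hw)

/-- the continuation of the label along `x₁ + exp (m w)` does not leave the strip -/
theorem stay_in {f₀ : ℂ → ℂ} {h : ℝ} (hLU : LU f₀ (St (-h) h)) (hNE : NE f₀ h) {x₁ : ℂ} {m : ℕ}
    (hm : 0 < m) {H : Set ℂ} (hH : IsOpen H) (hHc : Convex ℝ H) {M : ℂ → ℂ}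
    (hM : AnalyticOnNhd ℂ M H) (hM0 : ∀ w ∈ H, deriv M w ≠ 0) {w₀ : ℂ} (hw₀ : w₀ ∈ H)
    (h0 : ∀ᶠ w in 𝓝 w₀, M w ∈ St (-h) h ∧ f₀ (M w) = x₁ + exp (m * w)) :
    ∀ w ∈ H, M w ∈ St (-h) h ∧ AnalyticAt ℂ f₀ (M w) ∧ f₀ (M w) = x₁ + exp (m * w) := by
  have hm' : (m : ℂ) ≠ 0 := Nat.cast_ne_zero.2 hm.ne'
  have hg : ∀ w, AnalyticAt ℂ (fun w : ℂ => x₁ + exp (m * w)) w := fun w => by fun_prop
  let P : ℂ → Prop := fun w => M w ∈ St (-h) h ∧ f₀ (M w) = x₁ + exp (m * w)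
  have hop : IsOpen {w | ∀ᶠ w' in 𝓝 w, P w'} := isOpen_setOfPred_eventually_nhds
  have hA : H ⊆ {w | ∀ᶠ w' in 𝓝 w, P w'} := by
    refine hHc.isPreconnected.subset_of_closure_inter_subset hop ⟨w₀, hw₀, h0⟩ ?_
    rintro w₂ ⟨hw1, hw2⟩
    have hfr : ∃ᶠ w in 𝓝 w₂, ∀ᶠ w' in 𝓝 w, P w' := mem_closure_iff_frequently.1 hw1
    have hMc : ContinuousAt M w₂ := (hM w₂ hw2).continuousAt
    by_cases hS : M w₂ ∈ St (-h) h
    · have hnb : H ∩ M ⁻¹' St (-h) h ∈ 𝓝 w₂ :=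
        inter_mem (hH.mem_nhds hw2) (hMc.preimage_mem_nhds ((isOpen_St _ _).mem_nhds hS))
      obtain ⟨δ, hδ, hB⟩ := Metric.mem_nhds_iff.1 hnb
      have hLU2 : LU (fun w => f₀ (M w)) (ball w₂ δ) :=
        lb_comp hLU (fun w hw => hM w (hB hw).1) (fun w hw => hM0 w (hB hw).1)
          (fun w hw => (hB hw).2)
      obtain ⟨a, ha1, ha2⟩ := (hfr.and_eventually (ball_mem_nhds w₂ hδ)).exists
      have h3 := lb_id (g := fun w : ℂ => x₁ + exp (m * w)) (convex_ball w₂ δ).isPreconnected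
        hLU2 (fun w _ => hg w) ha2 (ha1.mono fun w hw => hw.2) w₂ (mem_ball_self hδ)
      filter_upwards [h3, ball_mem_nhds w₂ hδ] with w hw1 hw2
      exact ⟨(hB hw2).2, hw1⟩
    · exfalso
      have hfr2 : ∃ᶠ w in 𝓝 w₂, M w ∈ {z : ℂ | -h ≤ z.im ∧ z.im ≤ h} :=
        hfr.mono fun w hw => ⟨hw.self_of_nhds.1.1.le, hw.self_of_nhds.1.2.le⟩
      have hcl : IsClosed {z : ℂ | -h ≤ z.im ∧ z.im ≤ h} :=
        (isClosed_le continuous_const continuous_im).inter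
          (isClosed_le continuous_im continuous_const)
      have hb0 : M w₂ ∈ {z : ℂ | -h ≤ z.im ∧ z.im ≤ h} := hcl.mem_of_frequently_of_tendsto hfr2 hMc
      have hb : |(M w₂).im| = h := by
        obtain ⟨hb1, hb2⟩ := hb0
        by_contra hne
        apply hS
        have h1 : |(M w₂).im| < h := lt_of_le_of_ne (abs_le.2 ⟨hb1, hb2⟩) hne
        exact ⟨(abs_lt.1 h1).1, (abs_lt.1 h1).2⟩
      obtain ⟨G, hG1, hG2, hG3, hG4, hG5⟩ := lb_inv (hM w₂ hw2) (hM0 w₂ hw2)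
      have hG6 : ∀ᶠ z in 𝓝 (M w₂), AnalyticAt ℂ G z ∧ deriv G z ≠ 0 ∧ M (G z) = z := by
        filter_upwards [hG1.eventually_analyticAt, hG1.deriv.continuousAt.eventually_ne hG3, hG4]
          with z h1 h2 h3
        exact ⟨h1, h2, h3⟩
      obtain ⟨δ, hδ, hB⟩ := Metric.eventually_nhds_iff_ball.1 hG6
      have hgd : ∀ z ∈ ball (M w₂) δ, HasDerivAt (fun z => x₁ + exp (m * G z))
          (exp (m * G z) * (m * deriv G z)) z := by
        intro z hz
        have h1 := (hB z hz).1.differentiableAt.hasDerivAt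
        exact ((h1.const_mul (m : ℂ)).cexp).const_add x₁
      have hga : AnalyticOnNhd ℂ (fun z => x₁ + exp (m * G z)) (ball (M w₂) δ) := by
        intro z hz
        have h1 := (hB z hz).1
        fun_prop
      have hgLU : LU (fun z => x₁ + exp (m * G z)) (ball (M w₂) δ) := by
        intro z hz
        left
        refine ⟨hga z hz, ?_⟩
        rw [(hgd z hz).deriv]
        exact mul_ne_zero (exp_ne_zero _) (mul_ne_zero hm' (hB z hz).2.1)
      obtain ⟨a, ha1, ha2, ha3, ha4⟩ := (hfr.and_eventually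
        ((hMc.eventually (ball_mem_nhds (M w₂) hδ)).and
          (hG5.and ((hH.eventually_mem hw2))))).exists
      have hV : Convex ℝ (ball (M w₂) δ ∩ St (-h) h) := (convex_ball _ _).inter (convex_St _ _)
      have hGa : Tendsto G (𝓝 (M a)) (𝓝 a) := by
        have h1 := (hB (M a) ha2).1.continuousAt
        rw [ContinuousAt, ha3] at h1
        exact h1
      have h3 := lb_id (f := f₀) (g := fun z => x₁ + exp (m * G z)) hV.isPreconnected
        (fun z hz => hLU z hz.2) (fun z hz => hga z hz.1) (a := M a)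
        ⟨ha2, ha1.self_of_nhds.1⟩ (by
          filter_upwards [hGa.eventually ha1, isOpen_ball.mem_nhds ha2] with z hz1 hz2
          have h4 := hz1.2
          rw [(hB z hz2).2.2] at h4
          exact h4)
      refine hNE (M w₂) hb δ hδ _ hgLU fun z hz hzh => ?_
      exact (h3 z ⟨hz, (abs_lt.1 hzh).1, (abs_lt.1 hzh).2⟩).self_of_nhds.symm
  intro w hw
  have h1 : ∀ᶠ w' in 𝓝 w, P w' := hA hw
  refine ⟨h1.self_of_nhds.1, ?_, h1.self_of_nhds.2⟩
  obtain ⟨G, hG1, hG2, hG3, hG4, hG5⟩ := lb_inv (hM w hw) (hM0 w hw)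
  have hGa : Tendsto G (𝓝 (M w)) (𝓝 w) := by
    have h2 := hG1.continuousAt
    rw [ContinuousAt, hG2] at h2
    exact h2
  have h3 : AnalyticAt ℂ (fun z => x₁ + exp (m * G z)) (M w) := by fun_prop
  refine h3.congr ?_
  filter_upwards [hGa.eventually h1, hG4] with z hz1 hz2
  have h4 := hz1.2
  rw [hz2] at h4
  exact h4.symm

/-- near a point a function which is not locally constant is a power of a local coordinate -/
private lemma lb_nf {f : ℂ → ℂ} {t₁ : ℂ} (hf : AnalyticAt ℂ f t₁)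
    (hfc : ¬ ∀ᶠ t in 𝓝 t₁, f t = f t₁) : ∃ (m : ℕ) (q : ℂ → ℂ), 0 < m ∧ AnalyticAt ℂ q t₁ ∧
      ∀ᶠ t in 𝓝 t₁, f t = f t₁ + ((t - t₁) * exp (q t)) ^ m := by
  have h1 : AnalyticAt ℂ (fun t => f t - f t₁) t₁ := hf.fun_sub analyticAt_const
  have h2 : ¬ ∀ᶠ t in 𝓝 t₁, f t - f t₁ = 0 := fun h3 =>
    hfc (h3.mono fun t ht => sub_eq_zero.1 ht)
  obtain ⟨n, g, hg1, hg2, hg3⟩ := h1.exists_eventuallyEq_pow_smul_nonzero_iff.2 h2
  have hn : 0 < n := by
    rcases Nat.eq_zero_or_pos n with h0 | h0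
    · exfalso
      have h4 := hg3.self_of_nhds
      rw [h0, sub_self, sub_self, pow_zero, one_smul] at h4
      exact hg2 h4.symm
    · exact h0
  have hn' : (n : ℂ) ≠ 0 := Nat.cast_ne_zero.2 hn.ne'
  refine ⟨n, fun t => (log (g t₁) + log (g t / g t₁)) / n, hn, ?_, ?_⟩
  · have h4 : AnalyticAt ℂ (fun t => g t / g t₁) t₁ := hg1.fun_div analyticAt_const hg2
    have h5 : g t₁ / g t₁ ∈ slitPlane := by
      rw [div_self hg2]
      exact one_mem_slitPlane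
    have h6 : AnalyticAt ℂ (fun t => log (g t / g t₁)) t₁ := h4.clog h5
    exact (analyticAt_const.fun_add h6).fun_div analyticAt_const hn'
  · filter_upwards [hg3, hg1.continuousAt.eventually_ne hg2] with t ht1 ht2
    have h4 : exp ((log (g t₁) + log (g t / g t₁)) / n) ^ n = g t := by
      rw [← exp_nat_mul, mul_div_cancel₀ _ hn', exp_add, exp_log hg2,
        exp_log (div_ne_zero ht2 hg2), mul_div_cancel₀ _ hg2]
    rw [mul_pow, h4, ← smul_eq_mul, ← ht1]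
    ring

/-- the change of the equation `L'' = N L'` under `exp w = v t` -/
private lemma lb_ode {M W v N : ℂ → ℂ} {t q : ℂ} (hM : AnalyticAt ℂ M (W t))
    (hW : AnalyticAt ℂ W t) (hv : AnalyticAt ℂ v t) (hexp : ∀ᶠ s in 𝓝 t, exp (W s) = v s)
    (hv0 : deriv v t ≠ 0)
    (hode : deriv (deriv M) (W t) = q * deriv M (W t))
    (hq : q = v t * N t / deriv v t - v t * deriv (deriv v) t / deriv v t ^ 2 + 1) :
    deriv (fun s => M (W s)) t = deriv M (W t) * deriv W t ∧ v t * deriv W t = deriv v t ∧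
      deriv (deriv (fun s => M (W s))) t = N t * deriv (fun s => M (W s)) t := by
  have h1 : ∀ᶠ s in 𝓝 t, deriv (fun s => M (W s)) s = deriv M (W s) * deriv W s := by
    filter_upwards [hW.eventually_analyticAt, hW.continuousAt.eventually hM.eventually_analyticAt]
      with s hs1 hs2
    exact (hs2.differentiableAt.hasDerivAt.comp s hs1.differentiableAt.hasDerivAt).deriv
  have h2 : ∀ᶠ s in 𝓝 t, v s * deriv W s = deriv v s := by
    filter_upwards [hexp.eventually_nhds, hW.eventually_analyticAt] with s hs1 hs2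
    have h3 : (fun s => exp (W s)) =ᶠ[𝓝 s] v := hs1
    rw [← h3.deriv_eq, (hs2.differentiableAt.hasDerivAt.cexp).deriv, hs1.self_of_nhds]
  have h3 : HasDerivAt (fun s => v s * deriv W s)
      (deriv v t * deriv W t + v t * deriv (deriv W) t) t :=
    hv.differentiableAt.hasDerivAt.mul hW.deriv.differentiableAt.hasDerivAt
  have h4 : deriv v t * deriv W t + v t * deriv (deriv W) t = deriv (deriv v) t := by
    have h5 : (fun s => v s * deriv W s) =ᶠ[𝓝 t] deriv v := h2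
    rw [← h3.deriv, h5.deriv_eq]
  have h5 : HasDerivAt (fun s => deriv M (W s) * deriv W s)
      (deriv (deriv M) (W t) * deriv W t * deriv W t + deriv M (W t) * deriv (deriv W) t) t := by
    have h6 : HasDerivAt (fun s => deriv M (W s)) (deriv (deriv M) (W t) * deriv W t) t :=
      hM.deriv.differentiableAt.hasDerivAt.comp t hW.differentiableAt.hasDerivAt
    exact h6.mul hW.deriv.differentiableAt.hasDerivAt
  have h6 : deriv (deriv (fun s => M (W s))) t =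
      deriv (deriv M) (W t) * deriv W t * deriv W t + deriv M (W t) * deriv (deriv W) t := by
    have h7 : deriv (fun s => M (W s)) =ᶠ[𝓝 t] fun s => deriv M (W s) * deriv W s := h1
    rw [h7.deriv_eq, h5.deriv]
  have hvt : v t ≠ 0 := by
    rw [← hexp.self_of_nhds]
    exact exp_ne_zero _
  have h7 := h2.self_of_nhds
  refine ⟨h1.self_of_nhds, h7, ?_⟩
  have hW1 : deriv W t = deriv v t / v t := by
    rw [eq_div_iff hvt, mul_comm]
    exact h7
  have hW2 : deriv (deriv W) t = (deriv (deriv v) t - deriv v t * (deriv v t / v t)) / v t := by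
    rw [eq_div_iff hvt, ← h4, hW1]
    ring
  rw [h6, h1.self_of_nhds, hode, hq, hW2, hW1]
  field_simp
  ring

private lemma lb_isOpen (b : ℝ) : IsOpen {w : ℂ | w.re < b} :=
  isOpen_lt continuous_re continuous_const

private lemma lb_convex (b : ℝ) : Convex ℝ {w : ℂ | w.re < b} := convex_halfSpace_re_lt b

private lemma lb_exp {ε : ℝ} (hε : 0 < ε) {w : ℂ} (hw : w.re < Real.log ε) :
    exp w ∈ ball (0 : ℂ) ε ∧ exp w ≠ 0 := by
  refine ⟨?_, exp_ne_zero w⟩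
  rw [mem_ball_zero_iff, norm_exp]
  exact (Real.lt_log_iff_exp_lt hε).1 hw

/-- the solution of the linear equation on a half plane -/
private lemma lb_sol {p : ℂ → ℂ} {ε : ℝ} (hε : 0 < ε)
    (hp : ∀ x ∈ ball (0 : ℂ) ε, x ≠ 0 → AnalyticAt ℂ p x) {w₀ A c : ℂ}
    (hw₀ : w₀.re < Real.log ε) (hc : c ≠ 0) :
    ∃ M : ℂ → ℂ, AnalyticOnNhd ℂ M {w | w.re < Real.log ε} ∧ M w₀ = A ∧ deriv M w₀ = c ∧
      (∀ w, w.re < Real.log ε → deriv M w ≠ 0) ∧
      ∀ w, w.re < Real.log ε → deriv (deriv M) w = p (exp w) * deriv M w := by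
  have hH := lb_isOpen (Real.log ε)
  have h1 : ∀ w : ℂ, w.re < Real.log ε → AnalyticAt ℂ (fun w => p (exp w)) w := by
    intro w hw
    obtain ⟨h2, h3⟩ := lb_exp hε hw
    exact AnalyticAt.fun_comp (g := p) (f := exp) (hp _ h2 h3) analyticAt_cexp
  obtain ⟨Q, hQ⟩ := (lb_convex (Real.log ε)).exists_forall_hasDerivWithinAt
    (f := fun w => p (exp w)) (fun w hw => (h1 w hw).differentiableAt.differentiableWithinAt)
  have hQ' : ∀ w : ℂ, w.re < Real.log ε → HasDerivAt Q (p (exp w)) w :=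
    fun w hw => (hQ w hw).hasDerivAt (hH.mem_nhds hw)
  have hM1 : ∀ w : ℂ, w.re < Real.log ε → HasDerivAt (fun w => c * exp (Q w - Q w₀))
      (p (exp w) * (c * exp (Q w - Q w₀))) w := by
    intro w hw
    have h2 := (((hQ' w hw).sub_const (Q w₀)).cexp).const_mul c
    refine h2.congr_deriv ?_
    ring
  obtain ⟨R, hR⟩ := (lb_convex (Real.log ε)).exists_forall_hasDerivWithinAt
    (f := fun w => c * exp (Q w - Q w₀))
    (fun w hw => (hM1 w hw).differentiableAt.differentiableWithinAt)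
  have hR' : ∀ w : ℂ, w.re < Real.log ε →
      HasDerivAt (fun w => R w + (A - R w₀)) (c * exp (Q w - Q w₀)) w :=
    fun w hw => ((hR w hw).hasDerivAt (hH.mem_nhds hw)).add_const _
  have hd : ∀ w : ℂ, w.re < Real.log ε →
      deriv (fun w => R w + (A - R w₀)) w = c * exp (Q w - Q w₀) := fun w hw => (hR' w hw).deriv
  refine ⟨fun w => R w + (A - R w₀), ?_, by ring, ?_, fun w hw => ?_, fun w hw => ?_⟩
  · have h2 : DifferentiableOn ℂ (fun w => R w + (A - R w₀)) {w | w.re < Real.log ε} :=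
      fun w hw => (hR' w hw).differentiableAt.differentiableWithinAt
    exact h2.analyticOnNhd hH
  · rw [hd w₀ hw₀, sub_self, exp_zero, mul_one]
  · rw [hd w hw]
    exact mul_ne_zero hc (exp_ne_zero _)
  · have h2 : deriv (fun w => R w + (A - R w₀)) =ᶠ[𝓝 w] fun w => c * exp (Q w - Q w₀) := by
      filter_upwards [hH.mem_nhds hw] with z hz using hd z hz
    rw [h2.deriv_eq, (hM1 w hw).deriv, hd w hw]

/-- two solutions of `y'' = N y'` with the same initial values agree -/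
private lemma lb_uniq {K L N : ℂ → ℂ} {T : Set ℂ} (hT : IsOpen T) (hTc : IsPreconnected T)
    (hK : AnalyticOnNhd ℂ K T) (hL : AnalyticOnNhd ℂ L T) (hK0 : ∀ t ∈ T, deriv K t ≠ 0)
    (hKN : ∀ t ∈ T, deriv (deriv K) t = N t * deriv K t)
    (hLN : ∀ t ∈ T, deriv (deriv L) t = N t * deriv L t) {t₀ : ℂ} (ht₀ : t₀ ∈ T)
    (h0 : K t₀ = L t₀) (h1 : deriv K t₀ = deriv L t₀) : ∀ t ∈ T, K t = L t := by
  have h2 : ∀ t ∈ T, HasDerivAt (fun s => deriv L s / deriv K s) 0 t := by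
    intro t ht
    have h3 := (hL t ht).deriv.differentiableAt.hasDerivAt.fun_div
      (hK t ht).deriv.differentiableAt.hasDerivAt (hK0 t ht)
    refine h3.congr_deriv ?_
    rw [hKN t ht, hLN t ht]
    ring
  have h3 : ∀ t ∈ T, deriv L t = deriv K t := by
    intro t ht
    have h4 := hT.is_const_of_deriv_eq_zero hTc
      (fun s hs => (h2 s hs).differentiableAt.differentiableWithinAt)
      (fun s hs => (h2 s hs).deriv) ht ht₀
    have h5 : deriv L t / deriv K t = deriv L t₀ / deriv K t₀ := h4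
    rw [← h1, div_self (hK0 t₀ ht₀), div_eq_one_iff_eq (hK0 t ht)] at h5
    exact h5
  have h4 : ∀ t ∈ T, HasDerivAt (fun s => K s - L s) 0 t := by
    intro t ht
    have h5 := (hK t ht).differentiableAt.hasDerivAt.fun_sub (hL t ht).differentiableAt.hasDerivAt
    refine h5.congr_deriv ?_
    rw [h3 t ht, sub_self]
  intro t ht
  have h5 := hT.is_const_of_deriv_eq_zero hTc
    (fun s hs => (h4 s hs).differentiableAt.differentiableWithinAt)
    (fun s hs => (h4 s hs).deriv) ht ht₀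
  have h6 : K t - L t = K t₀ - L t₀ := h5
  rw [h0, sub_self] at h6
  exact sub_eq_zero.1 h6

/-- `M w` is close to `c₀` for `Re w` very negative -/
private lemma lb_near {M U : ℂ → ℂ} {α ε : ℝ} {c₀ : ℂ} (hα : 0 < α) (hε : 0 < ε)
    (hU : ContinuousAt U 0)
    (hMU : ∀ w, w.re < Real.log ε → M w = c₀ + exp (α * w) * U (exp w)) {ρ : ℝ} (hρ : 0 < ρ) :
    ∃ η : ℝ, 0 < η ∧ η ≤ ε ∧ ∀ w : ℂ, w.re < Real.log η → M w ∈ ball c₀ ρ := by
  set B : ℝ := ‖U 0‖ + 1 with hB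
  have hB0 : 0 < B := by positivity
  have h1 : ∀ᶠ x in 𝓝 (0 : ℂ), ‖U x‖ < B := by
    have h2 : ContinuousAt (fun x => ‖U x‖) 0 := hU.norm
    exact h2.eventually (gt_mem_nhds (by linarith : ‖U 0‖ < B))
  obtain ⟨η₁, hη₁, h2⟩ := Metric.eventually_nhds_iff_ball.1 h1
  set η₂ : ℝ := Real.exp (Real.log (ρ / B) / α) with hη₂
  have hη₂0 : 0 < η₂ := Real.exp_pos _
  refine ⟨min ε (min η₁ η₂), lt_min hε (lt_min hη₁ hη₂0), min_le_left _ _, fun w hw => ?_⟩
  have hpos : 0 < min ε (min η₁ η₂) := lt_min hε (lt_min hη₁ hη₂0)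
  have hw1 : w.re < Real.log ε := hw.trans_le (Real.log_le_log hpos (min_le_left _ _))
  have hw2 : w.re < Real.log η₁ := hw.trans_le
    (Real.log_le_log hpos ((min_le_right _ _).trans (min_le_left _ _)))
  have hw3 : w.re < Real.log η₂ := hw.trans_le
    (Real.log_le_log hpos ((min_le_right _ _).trans (min_le_right _ _)))
  have h3 : ‖U (exp w)‖ < B := h2 _ (lb_exp hη₁ hw2).1
  rw [hη₂, Real.log_exp, lt_div_iff₀ hα] at hw3
  have h4 : ‖exp (α * w)‖ < ρ / B := by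
    rw [norm_exp]
    have h5 : (α * w : ℂ).re = w.re * α := by
      rw [re_ofReal_mul]
      ring
    rw [h5]
    exact (Real.lt_log_iff_exp_lt (div_pos hρ hB0)).1 hw3
  rw [mem_ball, dist_eq_norm, hMU w hw1, add_sub_cancel_left, norm_mul]
  calc ‖exp (α * w)‖ * ‖U (exp w)‖ ≤ ‖exp (α * w)‖ * B :=
        mul_le_mul_of_nonneg_left h3.le (norm_nonneg _)
    _ < ρ / B * B := mul_lt_mul_of_pos_right h4 hB0
    _ = ρ := div_mul_cancel₀ _ hB0.ne'

/-- the path `R ↦ - R + i θ` -/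
private def lbw (θ R : ℝ) : ℂ := -(R : ℂ) + θ * I

private lemma lbw_re (θ R : ℝ) : (lbw θ R).re = -R := by
  simp [lbw]

private lemma lbw_ev (θ : ℝ) (b : ℝ) : ∀ᶠ R : ℝ in atTop, (lbw θ R).re < b := by
  filter_upwards [eventually_gt_atTop (-b)] with R hR
  rw [lbw_re]
  linarith

private lemma lbw_exp (θ : ℝ) : Tendsto (fun R => exp (lbw θ R)) atTop (𝓝 0) := by
  rw [tendsto_zero_iff_norm_tendsto_zero]
  have h1 : (fun R => ‖exp (lbw θ R)‖) = fun R => Real.exp (-R) := by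
    funext R
    rw [norm_exp, lbw_re]
  rw [h1]
  exact Real.tendsto_exp_neg_atTop_nhds_zero

/-- the end point of the label -/
private lemma lb_end {f₀ : ℂ → ℂ} {h : ℝ} (hLU : LU f₀ (St (-h) h)) {x₁ : ℂ} {m : ℕ}
    (hm : 0 < m) {M : ℂ → ℂ} {α ε : ℝ} {c₀ : ℂ} {U : ℂ → ℂ} (hα : 0 < α) (hε : 0 < ε)
    (hU : AnalyticOnNhd ℂ U (ball 0 ε)) (hU0 : U 0 ≠ 0)
    (hMU : ∀ w, w.re < Real.log ε → M w = c₀ + exp (α * w) * U (exp w))
    (hMS : ∀ w, w.re < Real.log ε →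
      M w ∈ St (-h) h ∧ AnalyticAt ℂ f₀ (M w) ∧ f₀ (M w) = x₁ + exp (m * w)) :
    ∃ (G : ℂ → ℂ) (η : ℝ), 0 < η ∧ η ≤ ε ∧ G x₁ ∈ St (-h) h ∧
      (∀ x ∈ ball (0 : ℂ) η, AnalyticAt ℂ G (x₁ + x ^ m) ∧ f₀ (G (x₁ + x ^ m)) = x₁ + x ^ m) ∧
      ∀ w, w.re < Real.log η → M w = G (x₁ + exp (m * w)) := by
  have hUc : ContinuousAt U 0 := (hU 0 (mem_ball_self hε)).continuousAt
  have hnear := fun {ρ : ℝ} (hρ : 0 < ρ) => lb_near hα hε hUc hMU hρ
  have hUl : ∀ θ : ℝ, Tendsto (fun R => U (exp (lbw θ R))) atTop (𝓝 (U 0)) :=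
    fun θ => hUc.tendsto.comp (lbw_exp θ)
  have hMl : ∀ θ : ℝ, Tendsto (fun R => M (lbw θ R)) atTop (𝓝 c₀) := by
    intro θ
    rw [Metric.tendsto_nhds]
    intro ρ hρ
    obtain ⟨η, hη, -, h1⟩ := hnear hρ
    filter_upwards [lbw_ev θ (Real.log η)] with R hR using h1 _ hR
  -- the end point is in the closed strip
  have hc1 : c₀ ∈ {z : ℂ | -h ≤ z.im ∧ z.im ≤ h} := by
    have hcl : IsClosed {z : ℂ | -h ≤ z.im ∧ z.im ≤ h} :=
      (isClosed_le continuous_const continuous_im).inter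
        (isClosed_le continuous_im continuous_const)
    refine hcl.mem_of_tendsto (hMl 0) ?_
    filter_upwards [lbw_ev 0 (Real.log ε)] with R hR
    exact ⟨(hMS _ hR).1.1.le, (hMS _ hR).1.2.le⟩
  -- it is not on the boundary
  have hc2 : ∀ s : ℝ, s ^ 2 = 1 → s * c₀.im ≠ h := by
    intro s hs hsc
    have hs0 : s ≠ 0 := by
      rintro rfl
      norm_num at hs
    have hUn : ‖U 0‖ ≠ 0 := norm_ne_zero_iff.2 hU0
    set z : ℂ := s * I * ‖U 0‖ / U 0 with hz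
    have hzn : ‖z‖ = 1 := by
      have hs1 : ‖(s : ℂ)‖ = 1 := by
        rw [norm_real, Real.norm_eq_abs]
        nlinarith [abs_nonneg s, sq_abs s]
      rw [hz, norm_div, norm_mul, norm_mul, hs1, norm_I, norm_real, norm_norm, one_mul, one_mul,
        div_self hUn]
    have hz1 : exp ((arg z : ℝ) * I) = z := by
      have h1 := norm_mul_exp_arg_mul_I z
      rwa [hzn, ofReal_one, one_mul] at h1
    have h1 : Tendsto (fun R => z * U (exp (lbw (arg z / α) R))) atTop (𝓝 (z * U 0)) :=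
      (hUl _).const_mul z
    have h2 : z * U 0 = s * I * ‖U 0‖ := by
      rw [hz, div_mul_cancel₀ _ hU0]
    have h3 : Tendsto (fun R => s * (z * U (exp (lbw (arg z / α) R))).im) atTop
        (𝓝 (s * (z * U 0).im)) := ((continuous_im.tendsto _).comp h1).const_mul s
    have h4 : s * (z * U 0).im = ‖U 0‖ := by
      rw [h2]
      have h5 : (s * I * (‖U 0‖ : ℂ)).im = s * ‖U 0‖ := by
        simp [mul_im]
      rw [h5, ← mul_assoc, ← pow_two, hs, one_mul]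
    rw [h4] at h3
    have h5 : ∀ᶠ R : ℝ in atTop, 0 < s * (z * U (exp (lbw (arg z / α) R))).im :=
      h3.eventually (lt_mem_nhds (norm_pos_iff.2 hU0))
    obtain ⟨R, hR1, hR2⟩ := (h5.and (lbw_ev (arg z / α) (Real.log ε))).exists
    have h6 : exp (α * lbw (arg z / α) R) = Real.exp (-(α * R)) * z := by
      have h7 : (α : ℂ) * lbw (arg z / α) R = ((-(α * R) : ℝ) : ℂ) + (arg z : ℝ) * I := by
        unfold lbw
        have hα' : (α : ℂ) ≠ 0 := ofReal_ne_zero.2 hα.ne'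
        push_cast
        field_simp
      rw [h7, exp_add, hz1, ← ofReal_exp]
    have h8 := (hMS _ hR2).1
    have h9 : (M (lbw (arg z / α) R)).im =
        c₀.im + Real.exp (-(α * R)) * (z * U (exp (lbw (arg z / α) R))).im := by
      rw [hMU _ hR2, h6, add_im, mul_assoc, im_ofReal_mul]
    have h10 : h < s * (M (lbw (arg z / α) R)).im := by
      rw [h9, mul_add, hsc]
      have := mul_pos (Real.exp_pos (-(α * R))) hR1
      nlinarith
    have h11 : |(M (lbw (arg z / α) R)).im| < h := abs_lt.2 ⟨h8.1, h8.2⟩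
    have h12 : s * (M (lbw (arg z / α) R)).im ≤ |(M (lbw (arg z / α) R)).im| := by
      have hs1 : |s| = 1 := by
        nlinarith [abs_nonneg s, sq_abs s]
      calc s * (M (lbw (arg z / α) R)).im ≤ |s * (M (lbw (arg z / α) R)).im| := le_abs_self _
        _ = |(M (lbw (arg z / α) R)).im| := by rw [abs_mul, hs1, one_mul]
    linarith
  have hc3 : c₀ ∈ St (-h) h := by
    have h1 := hc2 1 (by norm_num)
    have h2 := hc2 (-1) (by norm_num)
    rw [one_mul] at h1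
    refine ⟨lt_of_le_of_ne hc1.1 fun h3 => h2 ?_, lt_of_le_of_ne hc1.2 h1⟩
    linarith
  have hfl : Tendsto (fun R => f₀ (M (lbw 0 R))) atTop (𝓝 x₁) := by
    have h1 : Tendsto (fun R => x₁ + exp (lbw 0 R) ^ m) atTop (𝓝 (x₁ + 0 ^ m)) :=
      ((lbw_exp 0).pow m).const_add x₁
    rw [zero_pow hm.ne', add_zero] at h1
    refine h1.congr' ?_
    filter_upwards [lbw_ev 0 (Real.log ε)] with R hR
    rw [(hMS _ hR).2.2, exp_nat_mul]
  have hne : ∀ᶠ R in atTop, M (lbw 0 R) ≠ c₀ := by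
    filter_upwards [(hUl 0).eventually_ne hU0, lbw_ev 0 (Real.log ε)] with R hR1 hR2 hR3
    rw [hMU _ hR2] at hR3
    exact (mul_ne_zero (exp_ne_zero _) hR1) (by linear_combination hR3)
  have han : AnalyticAt ℂ f₀ c₀ ∧ deriv f₀ c₀ ≠ 0 := by
    rcases hLU c₀ hc3 with h1 | ⟨h1, h2, h3⟩
    · exact h1
    · exfalso
      have h4 := lb_pole h2 h3
      have h5 : Tendsto (fun R => M (lbw 0 R)) atTop (𝓝[≠] c₀) :=
        tendsto_nhdsWithin_iff.2 ⟨hMl 0, hne⟩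
      have h6 : Tendsto (fun R => (f₀ (M (lbw 0 R)))⁻¹) atTop (𝓝 ((f₀ c₀)⁻¹)) :=
        h2.continuousAt.tendsto.comp (hMl 0)
      have h7 := h6.mul hfl
      rw [h1, inv_zero, zero_mul] at h7
      have h8 : Tendsto (fun R => (f₀ (M (lbw 0 R)))⁻¹ * f₀ (M (lbw 0 R))) atTop (𝓝 1) := by
        refine tendsto_const_nhds.congr' ?_
        filter_upwards [h5.eventually h4] with R hR
        rw [inv_mul_cancel₀ hR]
      exact zero_ne_one (tendsto_nhds_unique h7 h8)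
  have hval : f₀ c₀ = x₁ :=
    tendsto_nhds_unique (han.1.continuousAt.tendsto.comp (hMl 0)) hfl
  obtain ⟨G, hG1, hG2, hG3, hG4, hG5⟩ := lb_inv han.1 han.2
  rw [hval] at hG1 hG2 hG4
  obtain ⟨ρ, hρ, hG6⟩ := Metric.eventually_nhds_iff_ball.1 hG5
  obtain ⟨η₁, hη₁, hη₁ε, hG7⟩ := hnear hρ
  have hpc : Tendsto (fun x : ℂ => x₁ + x ^ m) (𝓝 0) (𝓝 x₁) := by
    have h1 : Continuous (fun x : ℂ => x₁ + x ^ m) := by fun_prop
    have h2 := h1.tendsto 0
    rwa [zero_pow hm.ne', add_zero] at h2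
  obtain ⟨η₂, hη₂, hG8⟩ := Metric.eventually_nhds_iff_ball.1
    (hpc.eventually (hG1.eventually_analyticAt.and hG4))
  refine ⟨G, min η₁ η₂, lt_min hη₁ hη₂, (min_le_left _ _).trans hη₁ε, ?_, fun x hx => ?_,
    fun w hw => ?_⟩
  · rw [hG2]
    exact hc3
  · exact hG8 x (ball_subset_ball (min_le_right _ _) hx)
  · have hw1 : w.re < Real.log η₁ :=
      hw.trans_le (Real.log_le_log (lt_min hη₁ hη₂) (min_le_left _ _))
    have hw2 : w.re < Real.log ε := hw1.trans_le (Real.log_le_log hη₁ hη₁ε)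
    have h1 := hG6 (M w) (hG7 w hw1)
    rw [(hMS w hw2).2.2] at h1
    exact h1.symm

private lemma lb_der {W v : ℂ → ℂ} {t : ℂ} (hW : AnalyticAt ℂ W t)
    (hexp : ∀ᶠ s in 𝓝 t, exp (W s) = v s) : v t * deriv W t = deriv v t := by
  have h3 : (fun s => exp (W s)) =ᶠ[𝓝 t] v := hexp
  rw [← h3.deriv_eq, (hW.differentiableAt.hasDerivAt.cexp).deriv, hexp.self_of_nhds]

private lemma lb_re {ε : ℝ} (hε : 0 < ε) {w x : ℂ} (h : exp w = x) (hx : x ∈ ball (0 : ℂ) ε) :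
    w.re < Real.log ε := by
  rw [mem_ball_zero_iff, ← h, norm_exp] at hx
  exact (Real.lt_log_iff_exp_lt hε).2 hx

private lemma lb_punct {P : ℂ → Prop} {a : ℂ} (h : ∀ᶠ s in 𝓝[≠] a, P s) :
    ∀ᶠ s in 𝓝[≠] a, ∀ᶠ x in 𝓝 s, P x := by
  have := eventually_eventually_nhdsWithin.2 h
  filter_upwards [this, self_mem_nhdsWithin] with z hz hz0
  rwa [IsOpen.nhdsWithin_eq isOpen_compl_singleton hz0] at hz

private lemma lb_Ld {f₀ f L : ℂ → ℂ} {S : Set ℂ} {t₀ : ℂ} (hLU : LU f₀ S) (hLS : L t₀ ∈ S)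
    (hL : AnalyticAt ℂ L t₀) (hf : AnalyticAt ℂ f t₀) (hfd : deriv f t₀ ≠ 0)
    (heq : f =ᶠ[𝓝 t₀] fun s => f₀ (L s)) : deriv L t₀ ≠ 0 := by
  intro hL0
  rcases hLU (L t₀) hLS with ⟨h1, h2⟩ | ⟨h1, h2, h3⟩
  · have h4 : HasDerivAt (fun s => f₀ (L s)) (deriv f₀ (L t₀) * deriv L t₀) t₀ :=
      h1.differentiableAt.hasDerivAt.comp t₀ hL.differentiableAt.hasDerivAt
    apply hfd
    rw [heq.deriv_eq, h4.deriv, hL0, mul_zero]
  · have h4 : f t₀ = 0 := heq.self_of_nhds.trans h1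
    have h5 : ContinuousAt (fun s => (f₀ (L s))⁻¹) t₀ :=
      ContinuousAt.comp (g := fun w => (f₀ w)⁻¹) (f := L) h2.continuousAt hL.continuousAt
    have h6 : ∀ᶠ s in 𝓝[≠] t₀, f s ≠ 0 :=
      hf.differentiableAt.hasDerivAt.eventually_ne (c := 0) hfd
    have h7 : Tendsto (fun s => f s * (f₀ (L s))⁻¹) (𝓝[≠] t₀) (𝓝 (f t₀ * (f₀ (L t₀))⁻¹)) :=
      (hf.continuousAt.mul h5).tendsto.mono_left nhdsWithin_le_nhds
    rw [h4, zero_mul] at h7
    have h8 : Tendsto (fun s => f s * (f₀ (L s))⁻¹) (𝓝[≠] t₀) (𝓝 1) := by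
      refine tendsto_const_nhds.congr' ?_
      filter_upwards [h6, nhdsWithin_le_nhds heq] with s hs1 hs2
      rw [← hs2, mul_inv_cancel₀ hs1]
    exact zero_ne_one (tendsto_nhds_unique h7 h8)

/-- a branch of the logarithm of the coordinate on a convex set which does not contain `t₁` -/
private lemma lb_log {T : Set ℂ} (hT : IsOpen T) (hTc : Convex ℝ T) {t₁ a : ℂ} (ha : a ∈ T)
    (htT : t₁ ∉ T) : ∃ W : ℂ → ℂ, AnalyticOnNhd ℂ W T ∧ ∀ t ∈ T, exp (W t) = t - t₁ := by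
  obtain ⟨φ, hφ⟩ := geometric_hahn_banach_open_point hTc hT htT
  set e : ℂ := ⟨-φ 1, φ I⟩ with he
  have hφe : ∀ z : ℂ, (e * z).re = - φ z := by
    intro z
    have h1 : φ z = z.re * φ 1 + z.im * φ I := by
      have h2 : z = z.re • (1:ℂ) + z.im • I := by
        apply Complex.ext <;> simp
      conv_lhs => rw [h2]
      rw [map_add, map_smul, map_smul, smul_eq_mul, smul_eq_mul]
    rw [mul_re, h1]
    simp only [he]
    ring
  have hslit : ∀ t ∈ T, e * (t - t₁) ∈ slitPlane := by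
    intro t ht
    rw [mem_slitPlane_iff]
    left
    rw [hφe, map_sub]
    have := hφ t ht
    linarith
  have he0 : e ≠ 0 := by
    intro h0
    have h1 := slitPlane_ne_zero (hslit a ha)
    rw [h0, zero_mul] at h1
    exact h1 rfl
  refine ⟨fun t => log (e * (t - t₁)) - log e, fun t ht => ?_, fun t ht => ?_⟩
  · have h1 : AnalyticAt ℂ (fun t => e * (t - t₁)) t := by fun_prop
    exact (h1.clog (hslit t ht)).fun_sub analyticAt_const
  · have h1 : e * (t - t₁) ≠ 0 := slitPlane_ne_zero (hslit t ht)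
    rw [exp_sub, exp_log h1, exp_log he0, mul_div_cancel_left₀ _ he0]

/-- the local step, at a point where `f` is finite -/
theorem lab_fin {f₀ : ℂ → ℂ} {h : ℝ} (hh : 0 < h) (hLU : LU f₀ (St (-h) h)) (hNE : NE f₀ h)
    {f N L : ℂ → ℂ} {t₁ : ℂ} (hf : AnalyticAt ℂ f t₁) (hN : MeromorphicAt N t₁)
    (hfc : ¬ ∀ᶠ t in 𝓝 t₁, f t = f t₁) {T : Set ℂ} (hT : IsOpen T) (hTc : Convex ℝ T)
    (ht₁ : t₁ ∈ closure T) (hL : AnalyticOnNhd ℂ L T) (hLS : MapsTo L T (St (-h) h))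
    (hlab : ∀ t ∈ T, LabAt f₀ f N L t) :
    ∃ r > 0, ∃ l : ℂ → ℂ, AnalyticOnNhd ℂ l (ball t₁ r) ∧ MapsTo l (ball t₁ r) (St (-h) h) ∧
      (∀ t ∈ T ∩ ball t₁ r, l t = L t) ∧ ∀ t ∈ ball t₁ r, LabAt f₀ f N l t := by
  by_cases htT : t₁ ∈ T
  · obtain ⟨r, hr, hrT⟩ := Metric.isOpen_iff.1 hT t₁ htT
    exact ⟨r, hr, L, fun t ht => hL t (hrT ht), fun t ht => hLS (hrT ht), fun t _ => rfl,
      fun t ht => hlab t (hrT ht)⟩
  obtain ⟨m, q, hm, hq, hfm⟩ := lb_nf hf hfc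
  have hm' : (m : ℂ) ≠ 0 := Nat.cast_ne_zero.2 hm.ne'
  -- the coordinate
  set v : ℂ → ℂ := fun t => (t - t₁) * exp (q t) with hv
  have hva : AnalyticAt ℂ v t₁ := by
    have h1 : AnalyticAt ℂ (fun t => t - t₁) t₁ := by fun_prop
    exact h1.fun_mul hq.cexp
  have hv0 : v t₁ = 0 := by simp [hv]
  have hvd : deriv v t₁ ≠ 0 := by
    have h1 : HasDerivAt v (1 * exp (q t₁) + (t₁ - t₁) * (exp (q t₁) * deriv q t₁)) t₁ :=
      ((hasDerivAt_id t₁).sub_const t₁).mul (hq.differentiableAt.hasDerivAt.cexp)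
    rw [h1.deriv, sub_self, zero_mul, add_zero, one_mul]
    exact exp_ne_zero _
  obtain ⟨τ, hτ1, hτ2, hτ3, hτ4, hτ5⟩ := lb_inv hva hvd
  rw [hv0] at hτ1 hτ2 hτ3 hτ4
  -- a good radius in `t`
  have hNa : ∀ᶠ t in 𝓝 t₁, t ≠ t₁ → AnalyticAt ℂ N t := by
    have h1 := hN.eventually_analyticAt
    rwa [eventually_nhdsWithin_iff] at h1
  have hgood : ∀ᶠ t in 𝓝 t₁, (AnalyticAt ℂ q t ∧ AnalyticAt ℂ v t ∧ deriv v t ≠ 0 ∧
      f t = f t₁ + v t ^ m ∧ AnalyticAt ℂ f t ∧ τ (v t) = t) ∧ (t ≠ t₁ → AnalyticAt ℂ N t) := by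
    filter_upwards [hNa, hq.eventually_analyticAt, hva.eventually_analyticAt,
      hva.deriv.continuousAt.eventually_ne hvd, hfm, hf.eventually_analyticAt, hτ5]
      with t h1 h2 h3 h4 h5 h6 h7
    exact ⟨⟨h2, h3, h4, h5, h6, h7⟩, h1⟩
  obtain ⟨r₁, hr₁, hg₁⟩ := Metric.eventually_nhds_iff_ball.1 hgood
  -- a good radius in the coordinate
  have hgx : ∀ᶠ x in 𝓝 (0 : ℂ), AnalyticAt ℂ τ x ∧ v (τ x) = x ∧ τ x ∈ ball t₁ r₁ := by
    have h1 : ∀ᶠ x in 𝓝 (0 : ℂ), τ x ∈ ball t₁ r₁ := by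
      have h2 := hτ1.continuousAt
      rw [ContinuousAt, hτ2] at h2
      exact h2.eventually (ball_mem_nhds t₁ hr₁)
    filter_upwards [hτ1.eventually_analyticAt, hτ4, h1] with x h1 h2 h3
    exact ⟨h1, h2, h3⟩
  obtain ⟨ε, hε, hgε⟩ := Metric.eventually_nhds_iff_ball.1 hgx
  have hvc : Tendsto v (𝓝 t₁) (𝓝 0) := by
    have h2 := hva.continuousAt
    rwa [ContinuousAt, hv0] at h2
  obtain ⟨r₀, hr₀, hg₀⟩ := Metric.eventually_nhds_iff_ball.1
    ((hvc.eventually (ball_mem_nhds (0 : ℂ) hε)).and (ball_mem_nhds t₁ hr₁))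
  have hvne : ∀ t ∈ ball t₁ r₀, t ≠ t₁ → v t ≠ 0 := by
    intro t ht hne h0
    have h1 := (hg₁ t (hg₀ t ht).2).1.2.2.2.2.2
    rw [h0, hτ2] at h1
    exact hne h1.symm
  have hτne : ∀ x ∈ ball (0 : ℂ) ε, x ≠ 0 → τ x ≠ t₁ := by
    intro x hx hne h0
    have h1 := (hgε x hx).2.1
    rw [h0, hv0] at h1
    exact hne h1.symm
  -- the coefficient of the equation
  set p : ℂ → ℂ := fun x => x * N (τ x) / deriv v (τ x) -
    x * deriv (deriv v) (τ x) / deriv v (τ x) ^ 2 + 1 with hp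
  have hpm : MeromorphicAt p 0 := by
    have h1 : MeromorphicAt (fun x : ℂ => x) 0 := analyticAt_id.meromorphicAt
    have h2 : MeromorphicAt (fun x => N (τ x)) 0 := by
      rw [← hτ2] at hN
      exact hN.comp_analyticAt hτ1
    have h3 : MeromorphicAt (fun x => deriv v (τ x)) 0 := by
      have h4 : AnalyticAt ℂ (deriv v) (τ 0) := by
        rw [hτ2]
        exact hva.deriv
      exact (AnalyticAt.fun_comp (g := deriv v) (f := τ) h4 hτ1).meromorphicAt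
    have h5 : MeromorphicAt (fun x => deriv (deriv v) (τ x)) 0 := by
      have h4 : AnalyticAt ℂ (deriv (deriv v)) (τ 0) := by
        rw [hτ2]
        exact hva.deriv.deriv
      exact (AnalyticAt.fun_comp (g := deriv (deriv v)) (f := τ) h4 hτ1).meromorphicAt
    exact (((h1.fun_mul h2).fun_div h3).fun_sub ((h1.fun_mul h5).fun_div (h3.fun_pow 2))).fun_add
      (MeromorphicAt.const 1 0)
  have hpa : ∀ x ∈ ball (0 : ℂ) ε, x ≠ 0 → AnalyticAt ℂ p x := by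
    intro x hx hne
    obtain ⟨h1, h2, h3⟩ := hgε x hx
    obtain ⟨⟨-, h4, h5, -⟩, h6⟩ := hg₁ _ h3
    have h7 := h6 (hτne x hx hne)
    have h8 : AnalyticAt ℂ (fun x => N (τ x)) x := AnalyticAt.fun_comp (g := N) (f := τ) h7 h1
    have h9 : AnalyticAt ℂ (fun x => deriv v (τ x)) x :=
      AnalyticAt.fun_comp (g := deriv v) (f := τ) h4.deriv h1
    have h10 : AnalyticAt ℂ (fun x => deriv (deriv v) (τ x)) x :=
      AnalyticAt.fun_comp (g := deriv (deriv v)) (f := τ) h4.deriv.deriv h1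
    have hid : AnalyticAt ℂ (fun x : ℂ => x) x := analyticAt_id
    exact (((hid.fun_mul h8).fun_div h9 h5).fun_sub ((hid.fun_mul h10).fun_div (h9.fun_pow 2)
      (pow_ne_zero 2 h5))).fun_add analyticAt_const
  have hpv : ∀ t ∈ ball t₁ r₀, p (v t) =
      v t * N t / deriv v t - v t * deriv (deriv v) t / deriv v t ^ 2 + 1 := by
    intro t ht
    have h1 := (hg₁ t (hg₀ t ht).2).1.2.2.2.2.2
    simp only [hp, h1]
  have hKode : ∀ (M W : ℂ → ℂ) (t : ℂ), AnalyticOnNhd ℂ M {w | w.re < Real.log ε} →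
      (∀ w, w.re < Real.log ε → deriv (deriv M) w = p (exp w) * deriv M w) →
      t ∈ ball t₁ r₀ → AnalyticAt ℂ W t → (∀ᶠ s in 𝓝 t, exp (W s) = v s) →
      deriv (fun s => M (W s)) t = deriv M (W t) * deriv W t ∧
      deriv (deriv (fun s => M (W s))) t = N t * deriv (fun s => M (W s)) t := by
    intro M W t hM hode ht hW hexp
    have h1 : (W t).re < Real.log ε := lb_re hε hexp.self_of_nhds (hg₀ t ht).1
    obtain ⟨⟨-, h4, h5, -⟩, -⟩ := hg₁ t (hg₀ t ht).2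
    obtain ⟨h6, -, h7⟩ := lb_ode (N := N) (q := p (v t)) (hM _ h1) hW h4 hexp h5 (by
      rw [hode _ h1, hexp.self_of_nhds]) (hpv t ht)
    exact ⟨h6, h7⟩
  -- the domain `T₀`
  have hT0o : IsOpen (T ∩ ball t₁ r₀) := hT.inter isOpen_ball
  have hT0c : Convex ℝ (T ∩ ball t₁ r₀) := hTc.inter (convex_ball _ _)
  have hT0n : (T ∩ ball t₁ r₀).Nonempty := by
    have h1 := mem_closure_iff.1 ht₁ (ball t₁ r₀) isOpen_ball (mem_ball_self hr₀)
    rwa [inter_comm] at h1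
  obtain ⟨a, ha⟩ := hT0n
  have hLN : ∀ t ∈ T ∩ ball t₁ r₀, deriv (deriv L) t = N t * deriv L t := by
    rintro t ⟨ht1, ht2⟩
    have hNt : AnalyticAt ℂ N t :=
      (hg₁ t (hg₀ t ht2).2).2 (fun h0 => htT (by rw [← h0]; exact ht1))
    have hLt := hL t ht1
    have h1 : ∀ᶠ s in 𝓝[≠] t, deriv (deriv L) s = N s * deriv L s :=
      (hlab t ht1).mono fun s hs => hs.2
    exact ((hLt.deriv.deriv.frequently_eq_iff_eventually_eq
      (hNt.fun_mul hLt.deriv)).1 h1.frequently).self_of_nhds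
  obtain ⟨t₀, ht₀, ht₀f⟩ : ∃ t₀ ∈ T ∩ ball t₁ r₀, ∀ᶠ s in 𝓝 t₀, f s = f₀ (L s) := by
    have h1 : ∀ᶠ s in 𝓝[≠] a, f s = f₀ (L s) := (hlab a ha.1).mono fun s hs => hs.1
    have h3 : ∀ᶠ s in 𝓝[≠] a, s ∈ T ∩ ball t₁ r₀ := nhdsWithin_le_nhds (hT0o.mem_nhds ha)
    obtain ⟨t₀, h4, h5⟩ := ((lb_punct h1).and h3).exists
    exact ⟨t₀, h5, h4⟩
  have hne0 : ∀ t ∈ T ∩ ball t₁ r₀, t ≠ t₁ := fun t ht h0 => htT (by rw [← h0]; exact ht.1)
  have hfd : deriv f t₀ ≠ 0 := by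
    have hb := (hg₀ t₀ ht₀.2).2
    obtain ⟨⟨-, h4, h5, -⟩, -⟩ := hg₁ t₀ hb
    have h1 : f =ᶠ[𝓝 t₀] fun t => f t₁ + v t ^ m := by
      filter_upwards [isOpen_ball.mem_nhds hb] with t ht using (hg₁ t ht).1.2.2.2.1
    have h2 : HasDerivAt (fun t => f t₁ + v t ^ m) (m * v t₀ ^ (m - 1) * deriv v t₀) t₀ :=
      (h4.differentiableAt.hasDerivAt.fun_pow m).const_add _
    rw [h1.deriv_eq, h2.deriv]
    exact mul_ne_zero (mul_ne_zero hm' (pow_ne_zero _ (hvne t₀ ht₀.2 (hne0 t₀ ht₀)))) h5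
  have hLd : deriv L t₀ ≠ 0 := lb_Ld hLU (hLS ht₀.1) (hL t₀ ht₀.1)
    (hg₁ t₀ (hg₀ t₀ ht₀.2).2).1.2.2.2.2.1 hfd ht₀f
  -- the logarithm of the coordinate
  obtain ⟨W₀, hW₀, hW₀e⟩ := lb_log hT hTc ha.1 htT
  set om : ℂ → ℂ := fun t => W₀ t + q t with hom
  have homa : AnalyticOnNhd ℂ om (T ∩ ball t₁ r₀) := by
    intro t ht
    exact (hW₀ t ht.1).fun_add (hg₁ t (hg₀ t ht.2).2).1.1
  have home : ∀ t ∈ T ∩ ball t₁ r₀, exp (om t) = v t := by
    intro t ht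
    show exp (W₀ t + q t) = (t - t₁) * exp (q t)
    rw [exp_add, hW₀e t ht.1]
  have home' : ∀ t ∈ T ∩ ball t₁ r₀, ∀ᶠ s in 𝓝 t, exp (om s) = v s := fun t ht => by
    filter_upwards [hT0o.mem_nhds ht] with s hs using home s hs
  have homH : ∀ t ∈ T ∩ ball t₁ r₀, (om t).re < Real.log ε := fun t ht =>
    lb_re hε (home t ht) (hg₀ t ht.2).1
  have homd : ∀ t ∈ T ∩ ball t₁ r₀, deriv om t ≠ 0 := by
    intro t ht h0
    have h1 := lb_der (homa t ht) (home' t ht)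
    rw [h0, mul_zero] at h1
    exact (hg₁ t (hg₀ t ht.2).2).1.2.2.1 h1.symm
  obtain ⟨M, hM1, hM2, hM3, hM4, hM5⟩ := lb_sol hε hpa (w₀ := om t₀) (A := L t₀)
    (c := deriv L t₀ / deriv om t₀) (homH t₀ ht₀) (div_ne_zero hLd (homd t₀ ht₀))
  have hKL : ∀ t ∈ T ∩ ball t₁ r₀, M (om t) = L t := by
    refine lb_uniq (K := fun t => M (om t)) (N := N) hT0o hT0c.isPreconnected ?_
      (fun t ht => hL t ht.1) ?_ ?_ hLN ht₀ hM2 ?_
    · intro t ht
      exact AnalyticAt.fun_comp (g := M) (f := om) (hM1 _ (homH t ht)) (homa t ht)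
    · intro t ht
      rw [(hKode M om t hM1 hM5 ht.2 (homa t ht) (home' t ht)).1]
      exact mul_ne_zero (hM4 _ (homH t ht)) (homd t ht)
    · intro t ht
      exact (hKode M om t hM1 hM5 ht.2 (homa t ht) (home' t ht)).2
    · rw [(hKode M om t₀ hM1 hM5 ht₀.2 (homa t₀ ht₀) (home' t₀ ht₀)).1, hM3,
        div_mul_cancel₀ _ (homd t₀ ht₀)]
  -- the label stays in the strip
  have hstay := stay_in hLU hNE hm (lb_isOpen (Real.log ε)) (lb_convex (Real.log ε)) hM1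
    (fun w hw => hM4 w hw) (x₁ := f t₁) (w₀ := om t₀) (homH t₀ ht₀) (by
      obtain ⟨g, hg1, hg2, hg3, hg4, hg5⟩ := lb_inv (homa t₀ ht₀) (homd t₀ ht₀)
      have hgt : Tendsto g (𝓝 (om t₀)) (𝓝 t₀) := by
        have h2 := hg1.continuousAt
        rwa [ContinuousAt, hg2] at h2
      filter_upwards [hg4, hgt.eventually (hT0o.mem_nhds ht₀), hgt.eventually ht₀f]
        with w h1 h2 h3
      have h4 := hKL _ h2
      rw [h1] at h4
      rw [h4]
      refine ⟨hLS h2.1, ?_⟩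
      rw [← h3, (hg₁ _ (hg₀ _ h2.2).2).1.2.2.2.1, ← home _ h2, h1, exp_nat_mul])
  have hC : ∀ w : ℂ, w.re < Real.log ε → ‖deriv M w‖ * (Real.log ε - w.re) ≤ 2 * h := by
    intro w hw
    have hr : 0 < Real.log ε - w.re := sub_pos.2 hw
    have hball : ∀ z ∈ ball w (Real.log ε - w.re), z.re < Real.log ε := by
      intro z hz
      rw [mem_ball, dist_eq_norm] at hz
      have h1 := (abs_re_le_norm (z - w)).trans_lt hz
      rw [sub_re] at h1
      linarith [le_abs_self (z.re - w.re)]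
    have h1 := strip_deriv (h := h) hr
      (fun z hz => (hM1 z (hball z hz)).differentiableAt.differentiableWithinAt)
      (fun z hz => abs_lt.2 ⟨(hstay z (hball z hz)).1.1, (hstay z (hball z hz)).1.2⟩)
    rwa [le_div_iff₀ hr] at h1
  obtain ⟨α, c₀, U, ε', hα, hε', hε'ε, hU, hU0, hMU⟩ := end_form hε
    (fun w hw => (hM1 w hw).differentiableAt.differentiableWithinAt) hM4 hpm hM5 hC
  obtain ⟨G, η, hη, hηε, hG1, hG2, hG3⟩ := lb_end hLU hm hα hε' hU hU0 hMU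
    (fun w hw => hstay w (lt_of_lt_of_le hw (Real.log_le_log hε' hε'ε)))
  obtain ⟨r, hr, hgr⟩ := Metric.eventually_nhds_iff_ball.1
    ((hvc.eventually (ball_mem_nhds (0 : ℂ) hη)).and (ball_mem_nhds t₁ hr₀))
  set l : ℂ → ℂ := fun t => G (f t₁ + v t ^ m) with hl
  have hlM : ∀ t ∈ ball t₁ r, ∀ w, exp w = v t → l t = M w := by
    intro t ht w hw
    rw [hG3 w (lb_re hη hw (hgr t ht).1), exp_nat_mul, hw]
  refine ⟨r, hr, l, fun t ht => ?_, fun t ht => ?_, fun t ht => ?_, fun t ht => ?_⟩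
  · have h1 := (hg₁ t (hg₀ t (hgr t ht).2).2).1.2.1
    exact AnalyticAt.fun_comp (g := G) (f := fun t => f t₁ + v t ^ m)
      (hG2 _ (hgr t ht).1).1 (analyticAt_const.fun_add (h1.fun_pow m))
  · by_cases h0 : t = t₁
    · rw [h0]
      show G (f t₁ + v t₁ ^ m) ∈ _
      rw [hv0, zero_pow hm.ne', add_zero]
      exact hG1
    · have h1 := exp_log (hvne t (hgr t ht).2 h0)
      rw [hlM t ht _ h1]
      exact (hstay _ (lb_re hε h1 (hg₀ t (hgr t ht).2).1)).1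
  · have ht' : t ∈ T ∩ ball t₁ r₀ := ⟨ht.1, (hgr t ht.2).2⟩
    rw [hlM t ht.2 _ (home t ht'), hKL t ht']
  · have h1 : ∀ᶠ s in 𝓝[≠] t, s ∈ ball t₁ r := nhdsWithin_le_nhds (isOpen_ball.mem_nhds ht)
    have h2 : ∀ᶠ s in 𝓝[≠] t, s ≠ t₁ := by
      by_cases h0 : t = t₁
      · rw [h0]
        exact self_mem_nhdsWithin
      · exact nhdsWithin_le_nhds (isOpen_ne.mem_nhds h0)
    filter_upwards [h1, h2] with s hs1 hs2
    refine ⟨?_, ?_⟩
    · rw [(hg₁ s (hg₀ s (hgr s hs1).2).2).1.2.2.2.1]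
      exact (hG2 _ (hgr s hs1).1).2.symm
    · have hs3 := (hgr s hs1).2
      have hvs := hvne s hs3 hs2
      have hvsa : AnalyticAt ℂ v s := (hg₁ s (hg₀ s hs3).2).1.2.1
      have hW1 : AnalyticAt ℂ (fun x => log (v x / v s) + log (v s)) s := by
        have h4 : AnalyticAt ℂ (fun x => v x / v s) s := hvsa.fun_div analyticAt_const hvs
        refine (h4.clog ?_).fun_add analyticAt_const
        rw [div_self hvs]
        exact one_mem_slitPlane
      have hW2 : ∀ᶠ x in 𝓝 s, exp (log (v x / v s) + log (v s)) = v x := by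
        filter_upwards [hvsa.continuousAt.eventually_ne hvs] with x hx
        rw [exp_add, exp_log (div_ne_zero hx hvs), exp_log hvs, div_mul_cancel₀ _ hvs]
      have h5 : l =ᶠ[𝓝 s] fun x => M (log (v x / v s) + log (v s)) := by
        filter_upwards [hW2, isOpen_ball.mem_nhds hs1] with x hx1 hx2
        exact hlM x hx2 _ hx1
      have h6 := (hKode M _ s hM1 hM5 hs3 hW1 hW2).2
      rw [h5.deriv.deriv_eq, h5.deriv_eq]
      exact h6

private lemma lb_mero {f : ℂ → ℂ} {t : ℂ} (hf : MeromorphicAt f t) :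
    (∃ g : ℂ → ℂ, AnalyticAt ℂ g t ∧ ∀ᶠ s in 𝓝[≠] t, f s = g s) ∨
      ∃ g : ℂ → ℂ, AnalyticAt ℂ g t ∧ ∀ᶠ s in 𝓝[≠] t, (f s)⁻¹ = g s := by
  rcases le_total 0 (meromorphicOrderAt f t) with h | h
  · left
    exact ⟨_, hf.meromorphicOrderAt_nonneg_iff_analyticAt_toMeromorphicNFAt.1 h,
      hf.eq_nhdsNE_toMeromorphicNFAt⟩
  · right
    have h1 : 0 ≤ meromorphicOrderAt f⁻¹ t := by
      rw [meromorphicOrderAt_inv]
      have h2 : meromorphicOrderAt f t ≠ ⊤ := by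
        intro h3
        rw [h3] at h
        exact absurd h (by simp)
      lift meromorphicOrderAt f t to ℤ using h2 with n hn
      have h3 : n ≤ 0 := by exact_mod_cast h
      have h4 : (0 : ℤ) ≤ -n := by omega
      exact_mod_cast h4
    exact ⟨_, hf.inv.meromorphicOrderAt_nonneg_iff_analyticAt_toMeromorphicNFAt.1 h1,
      hf.inv.eq_nhdsNE_toMeromorphicNFAt⟩

/-- the local step, at a point where `f` is finite after a change of the value -/
private lemma lb_local {f₀ : ℂ → ℂ} {h : ℝ} (hh : 0 < h) (hLU : LU f₀ (St (-h) h)) (hNE : NE f₀ h)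
    {f g N L : ℂ → ℂ} {t₁ : ℂ} (hg : AnalyticAt ℂ g t₁) (hfg : ∀ᶠ s in 𝓝[≠] t₁, f s = g s)
    (hN : MeromorphicAt N t₁)
    (hfc : ∀ c : ℂ, ¬ ∀ᶠ t in 𝓝[≠] t₁, f t = c) {T : Set ℂ} (hT : IsOpen T) (hTc : Convex ℝ T)
    (ht₁ : t₁ ∈ closure T) (hL : AnalyticOnNhd ℂ L T) (hLS : MapsTo L T (St (-h) h))
    (hlab : ∀ t ∈ T, LabAt f₀ f N L t) :
    ∃ r > 0, ∃ l : ℂ → ℂ, AnalyticOnNhd ℂ l (ball t₁ r) ∧ MapsTo l (ball t₁ r) (St (-h) h) ∧
      (∀ t ∈ T ∩ ball t₁ r, l t = L t) ∧ ∀ t ∈ ball t₁ r, LabAt f₀ f N l t := by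
  obtain ⟨ρ, hρ, hρ1⟩ := Metric.eventually_nhds_iff_ball.1 (eventually_nhdsWithin_iff.1 hfg)
  have hloc : ∀ t ∈ ball t₁ ρ, ∀ᶠ s in 𝓝[≠] t, f s = g s := by
    intro t ht
    have h1 : ∀ᶠ s in 𝓝[≠] t, s ∈ ball t₁ ρ := nhdsWithin_le_nhds (isOpen_ball.mem_nhds ht)
    have h2 : ∀ᶠ s in 𝓝[≠] t, s ≠ t₁ := by
      by_cases h0 : t = t₁
      · rw [h0]
        exact self_mem_nhdsWithin
      · exact nhdsWithin_le_nhds (isOpen_ne.mem_nhds h0)
    filter_upwards [h1, h2] with s hs1 hs2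
    exact hρ1 s hs1 hs2
  have hgc : ¬ ∀ᶠ t in 𝓝 t₁, g t = g t₁ := by
    intro h1
    apply hfc (g t₁)
    filter_upwards [hfg, nhdsWithin_le_nhds h1] with s hs1 hs2
    rw [hs1, hs2]
  have hcl : t₁ ∈ closure (T ∩ ball t₁ ρ) := by
    rw [_root_.mem_closure_iff]
    intro o ho hto
    obtain ⟨x, hx1, hx2⟩ := mem_closure_iff.1 ht₁ (o ∩ ball t₁ ρ) (ho.inter isOpen_ball)
      ⟨hto, mem_ball_self hρ⟩
    exact ⟨x, hx1.1, hx2, hx1.2⟩
  obtain ⟨r, hr, l, hl1, hl2, hl3, hl4⟩ := lab_fin hh hLU hNE hg hN hgc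
    (hT.inter isOpen_ball) (hTc.inter (convex_ball t₁ ρ)) hcl (fun t ht => hL t ht.1)
    (fun t ht => hLS ht.1) (fun t ht => by
      filter_upwards [hlab t ht.1, hloc t ht.2] with s hs1 hs2
      exact ⟨hs2 ▸ hs1.1, hs1.2⟩)
  refine ⟨min r ρ, lt_min hr hρ, l, fun t ht => hl1 t (ball_subset_ball (min_le_left _ _) ht),
    fun t ht => hl2 (ball_subset_ball (min_le_left _ _) ht), fun t ht => ?_, fun t ht => ?_⟩
  · exact hl3 t ⟨⟨ht.1, ball_subset_ball (min_le_right _ _) ht.2⟩,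
      ball_subset_ball (min_le_left _ _) ht.2⟩
  · filter_upwards [hl4 t (ball_subset_ball (min_le_left _ _) ht),
      hloc t (ball_subset_ball (min_le_right _ _) ht)] with s hs1 hs2
    exact ⟨hs2.trans hs1.1, hs1.2⟩

/-- the local step -/
theorem lab_local {f₀ : ℂ → ℂ} {h : ℝ} (hh : 0 < h) (hLU : LU f₀ (St (-h) h)) (hNE : NE f₀ h)
    {f N L : ℂ → ℂ} {t₁ : ℂ} (hf : MeromorphicAt f t₁) (hN : MeromorphicAt N t₁)
    (hfc : ∀ c : ℂ, ¬ ∀ᶠ t in 𝓝[≠] t₁, f t = c) {T : Set ℂ} (hT : IsOpen T) (hTc : Convex ℝ T)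
    (ht₁ : t₁ ∈ closure T) (hL : AnalyticOnNhd ℂ L T) (hLS : MapsTo L T (St (-h) h))
    (hlab : ∀ t ∈ T, LabAt f₀ f N L t) :
    ∃ r > 0, ∃ l : ℂ → ℂ, AnalyticOnNhd ℂ l (ball t₁ r) ∧ MapsTo l (ball t₁ r) (St (-h) h) ∧
      (∀ t ∈ T ∩ ball t₁ r, l t = L t) ∧ ∀ t ∈ ball t₁ r, LabAt f₀ f N l t := by
  rcases lb_mero hf with ⟨g, hg1, hg2⟩ | ⟨g, hg1, hg2⟩
  · exact lb_local hh hLU hNE hg1 hg2 hN hfc hT hTc ht₁ hL hLS hlab
  · obtain ⟨r, hr, l, hl1, hl2, hl3, hl4⟩ := lb_local (f := fun s => (f s)⁻¹) (L := L) hh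
      hLU.inv hNE.inv hg1 hg2 hN (fun c hc => hfc c⁻¹ (hc.mono fun s hs => by
        rw [← hs, inv_inv])) hT hTc ht₁ hL hLS (fun t ht => by
        filter_upwards [hlab t ht] with s hs
        exact ⟨by rw [hs.1], hs.2⟩)
    refine ⟨r, hr, l, hl1, hl2, hl3, fun t ht => ?_⟩
    filter_upwards [hl4 t ht] with s hs
    exact ⟨inv_injective hs.1, hs.2⟩

end Pool.Agent.MP_ae5b4e_an_NBT
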