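import Mathlib
import Pool.Agent.Lib.MP_ae5b4e_an_NBT.LabB
import Pool.Agent.Lib.MP_ae5b4e_an_MERO.Fourier
import Pool.Agent.Lib.MP_ae5b4e_an_MERO.Countable
import Pool.Agent.Lib.SCV.Osgood

/-!
# MP_ae5b4e_an, project NB tools: continuation of a label to a strip
-/

noncomputable section

namespace Pool.Agent.MP_ae5b4e_an_NBT

open Complex Set Filter Topology Metric

/-- an open rectangle -/
private def lcR (x1 x2 b Y : ℝ) : Set ℂ := {t | (x1 < t.re ∧ t.re < x2) ∧ b < t.im ∧ t.im < Y}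

private theorem lcR_open (x1 x2 b Y : ℝ) : IsOpen (lcR x1 x2 b Y) :=
  ((isOpen_lt continuous_const continuous_re).inter
    (isOpen_lt continuous_re continuous_const)).inter
    ((isOpen_lt continuous_const continuous_im).inter (isOpen_lt continuous_im continuous_const))

private theorem lcR_eq (x1 x2 b Y : ℝ) : lcR x1 x2 b Y = Ioo x1 x2 ×ℂ Ioo b Y := by
  ext t
  rw [mem_reProdIm]
  rfl

private theorem lcR_convex (x1 x2 b Y : ℝ) : Convex ℝ (lcR x1 x2 b Y) := by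
  exact ((convex_Ioo x1 x2).linear_preimage reLm).inter ((convex_Ioo b Y).linear_preimage imLm)

/-- a label on a set -/
private def lcL (f₀ f N : ℂ → ℂ) (h : ℝ) (T : Set ℂ) (L : ℂ → ℂ) : Prop :=
  AnalyticOnNhd ℂ L T ∧ MapsTo L T (St (-h) h) ∧ ∀ t ∈ T, LabAt f₀ f N L t

private theorem lc_germ {f₀ f N L L' : ℂ → ℂ} {t : ℂ} (hL : LabAt f₀ f N L t)
    (h : L' =ᶠ[𝓝 t] L) : LabAt f₀ f N L' t := by
  have h1 : ∀ᶠ s in 𝓝[≠] t, L' =ᶠ[𝓝 s] L := h.eventuallyEq_nhds.filter_mono nhdsWithin_le_nhds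
  filter_upwards [hL, h1] with s hs1 hs2
  rw [hs2.deriv.deriv_eq, hs2.deriv_eq, hs2.eq_of_nhds]
  exact hs1

private theorem lcL_of_germ {f₀ f N L : ℂ → ℂ} {h : ℝ} {T : Set ℂ}
    (H : ∀ t ∈ T, ∃ L' T', t ∈ T' ∧ lcL f₀ f N h T' L' ∧ L =ᶠ[𝓝 t] L') : lcL f₀ f N h T L := by
  refine ⟨fun t ht => ?_, fun t ht => ?_, fun t ht => ?_⟩
  · obtain ⟨L', T', h1, h2, h3⟩ := H t ht
    exact (h2.1 t h1).congr h3.symm
  · obtain ⟨L', T', h1, h2, h3⟩ := H t ht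
    rw [h3.eq_of_nhds]
    exact h2.2.1 h1
  · obtain ⟨L', T', h1, h2, h3⟩ := H t ht
    exact lc_germ (h2.2.2 t h1) h3

private theorem lcL_mono {f₀ f N L : ℂ → ℂ} {h : ℝ} {T T' : Set ℂ} (H : lcL f₀ f N h T L)
    (hT : T' ⊆ T) : lcL f₀ f N h T' L :=
  ⟨H.1.mono hT, H.2.1.mono_left hT, fun t ht => H.2.2 t (hT ht)⟩

/-- two labels on rectangles which agree below agree -/
private theorem lc_uniq {L₁ L L' : ℂ → ℂ} {a x1 x2 Y x1' x2' Y' : ℝ} (ha : 0 < a)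
    (hL : AnalyticOnNhd ℂ L (lcR x1 x2 (-a) Y))
    (hlow : ∀ t ∈ lcR x1 x2 (-a) Y, t.im < a → L t = L₁ t)
    (hL' : AnalyticOnNhd ℂ L' (lcR x1' x2' (-a) Y'))
    (hlow' : ∀ t ∈ lcR x1' x2' (-a) Y', t.im < a → L' t = L₁ t) {t : ℂ}
    (ht : t ∈ lcR x1 x2 (-a) Y) (ht' : t ∈ lcR x1' x2' (-a) Y') : L t = L' t := by
  set p : ℂ := t.re + ((-a + min (min Y Y') a) / 2 : ℝ) * I with hp
  have hpre : p.re = t.re := by simp [hp]
  have hpim : p.im = (-a + min (min Y Y') a) / 2 := by simp [hp]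
  have h1 : -a < min (min Y Y') a :=
    lt_min (lt_min (ht.2.1.trans ht.2.2) (ht'.2.1.trans ht'.2.2)) (by linarith)
  have h2 : min (min Y Y') a ≤ Y := (min_le_left _ _).trans (min_le_left _ _)
  have h3 : min (min Y Y') a ≤ Y' := (min_le_left _ _).trans (min_le_right _ _)
  have h4 : min (min Y Y') a ≤ a := min_le_right _ _
  have hpa : p.im < a := by rw [hpim]; linarith
  have hpm : p ∈ lcR x1 x2 (-a) Y :=
    ⟨by rw [hpre]; exact ht.1, by rw [hpim]; linarith, by rw [hpim]; linarith⟩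
  have hpm' : p ∈ lcR x1' x2' (-a) Y' :=
    ⟨by rw [hpre]; exact ht'.1, by rw [hpim]; linarith, by rw [hpim]; linarith⟩
  have hpc : IsPreconnected (lcR x1 x2 (-a) Y ∩ lcR x1' x2' (-a) Y') :=
    ((lcR_convex _ _ _ _).inter (lcR_convex _ _ _ _)).isPreconnected
  refine (hL.mono inter_subset_left).eqOn_of_preconnected_of_eventuallyEq
    (hL'.mono inter_subset_right) hpc ⟨hpm, hpm'⟩ ?_ ⟨ht, ht'⟩
  filter_upwards [(lcR_open _ _ _ _).mem_nhds hpm, (lcR_open _ _ _ _).mem_nhds hpm',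
    (isOpen_lt continuous_im continuous_const).mem_nhds hpa] with s h5 h6 h7
  rw [hlow s h5 h7, hlow' s h6 h7]

private theorem lc_nc {f₀ : ℂ → ℂ} {h : ℝ} (hLU : LU f₀ (St (-h) h))
    {f N L₁ : ℂ → ℂ} {a y : ℝ} (ha : 0 < a) (hay : a ≤ y)
    (hf : ∀ t ∈ St (-a) y, MeromorphicAt f t)
    (hL₁ : AnalyticOnNhd ℂ L₁ (St (-a) a)) (hS : MapsTo L₁ (St (-a) a) (St (-h) h))
    (hper : ∀ t ∈ St (-a) a, L₁ (t + 1) = L₁ t + 1) (hlab : ∀ t ∈ St (-a) a, LabAt f₀ f N L₁ t)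
    {t : ℂ} (ht : t ∈ St (-a) y) (c : ℂ) : ¬ ∀ᶠ s in 𝓝[≠] t, f s = c := by
  intro hc
  have hsub : St (-a) a ⊆ St (-a) y := fun s hs => ⟨hs.1, lt_of_lt_of_le hs.2 hay⟩
  have hpc : IsPreconnected (St (-a) y) := (convex_St _ _).isPreconnected
  have h0 : (0 : ℂ) ∈ St (-a) a := by
    rw [mem_St]
    simp
    exact ha
  have h1 : (0 : ℂ) + 1 ∈ St (-a) a := by
    rw [mem_St]
    simp
    exact ha
  have hall : ∀ s ∈ St (-a) a, ∀ᶠ q in 𝓝[≠] s, f q = c := by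
    intro s hs
    exact MP_ae5b4e_an_MERO.mero_ident (D := St (-a) y) (isOpen_St _ _) hpc (f := f)
      (g := fun _ => c) hf (fun q _ => MeromorphicAt.const c q) ht hc.frequently (hsub hs)
  have hder : ∀ s ∈ St (-a) a, deriv L₁ s = 0 := by
    intro s hs
    have h2 := (hlab s hs).and (hall s hs)
    have hcase : ∀ g : ℂ → ℂ, AnalyticAt ℂ g (L₁ s) → deriv g (L₁ s) ≠ 0 →
        (∃ c', ∀ᶠ q in 𝓝[≠] s, g (L₁ q) = c') → deriv L₁ s = 0 := by
      rintro g hg hg0 ⟨c', hc'⟩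
      have hcomp : AnalyticAt ℂ (fun q => g (L₁ q)) s := hg.comp (hL₁ s hs)
      have h3 : ∀ᶠ q in 𝓝 s, g (L₁ q) = c' :=
        (hcomp.frequently_eq_iff_eventually_eq analyticAt_const).1 hc'.frequently
      have h4 : deriv (fun q => g (L₁ q)) s = 0 := by
        have h5 : (fun q => g (L₁ q)) =ᶠ[𝓝 s] fun _ => c' := h3
        rw [h5.deriv_eq]
        exact deriv_const _ _
      have h5 : deriv (fun q => g (L₁ q)) s = deriv g (L₁ s) * deriv L₁ s :=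
        (hg.differentiableAt.hasDerivAt.comp s (hL₁ s hs).differentiableAt.hasDerivAt).deriv
      rw [h5] at h4
      exact (mul_eq_zero.1 h4).resolve_left hg0
    rcases hLU (L₁ s) (hS hs) with h3 | h3
    · refine hcase f₀ h3.1 h3.2 ⟨c, ?_⟩
      filter_upwards [h2] with q hq
      rw [← hq.1.1]
      exact hq.2
    · refine hcase _ h3.2.1 h3.2.2 ⟨c⁻¹, ?_⟩
      filter_upwards [h2] with q hq
      rw [← hq.1.1, hq.2]
  have h2 := (isOpen_St (-a) a).is_const_of_deriv_eq_zero (convex_St _ _).isPreconnected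
    (fun s hs => (hL₁ s hs).differentiableAt.differentiableWithinAt) hder h0 h1
  rw [hper 0 h0] at h2
  have h3 : (1 : ℂ) = 0 := by linear_combination -h2
  exact one_ne_zero h3

/-- one step up -/
private theorem lc_step {f₀ : ℂ → ℂ} {h : ℝ} (hh : 0 < h) (hLU : LU f₀ (St (-h) h))
    (hNE : NE f₀ h) {f N L : ℂ → ℂ} {a y x1 x2 Y : ℝ} (ha : 0 < a) (hx : x1 < x2)
    (hf : ∀ t ∈ St (-a) y, MeromorphicAt f t) (hN : ∀ t ∈ St (-a) y, MeromorphicAt N t)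
    (hfc : ∀ t ∈ St (-a) y, ∀ c : ℂ, ¬ ∀ᶠ s in 𝓝[≠] t, f s = c) (hY : a ≤ Y) (hYy : Y < y)
    (hL : lcL f₀ f N h (lcR x1 x2 (-a) Y) L) :
    ∃ δ > 0, ∃ L' : ℂ → ℂ, lcL f₀ f N h (lcR x1 x2 (-a) (Y + δ)) L' ∧
      ∀ t, t.im < Y → L' t = L t := by
  have hcl : ∀ c : ℂ, x1 ≤ c.re → c.re ≤ x2 → c.im = Y → c ∈ closure (lcR x1 x2 (-a) Y) := by
    intro c h1 h2 h3
    rw [lcR_eq, closure_reProdIm, closure_Ioo hx.ne, closure_Ioo (by linarith : -a ≠ Y),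
      mem_reProdIm, h3]
    exact ⟨⟨h1, h2⟩, by linarith, le_rfl⟩
  set K : Set ℂ := Icc x1 x2 ×ℂ {Y} with hK
  have hKc : IsCompact K := isCompact_Icc.reProdIm isCompact_singleton
  have hloc : ∀ c : K, ∃ r > 0, ∃ l : ℂ → ℂ, lcL f₀ f N h (ball (c : ℂ) r) l ∧
      ∀ t ∈ lcR x1 x2 (-a) Y ∩ ball (c : ℂ) r, l t = L t := by
    rintro ⟨c, hc⟩
    rw [hK, mem_reProdIm] at hc
    have hc2 : c.im = Y := hc.2
    have hcS : c ∈ St (-a) y := by
      rw [mem_St, hc2]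
      constructor <;> linarith
    obtain ⟨r, hr, l, h1, h2, h3, h4⟩ := lab_local hh hLU hNE (hf c hcS) (hN c hcS) (hfc c hcS)
      (lcR_open _ _ _ _) (lcR_convex _ _ _ _) (hcl c hc.1.1 hc.1.2 hc2) hL.1 hL.2.1 hL.2.2
    exact ⟨r, hr, l, ⟨h1, h2, h4⟩, h3⟩
  choose r hr l hl hlL using hloc
  obtain ⟨δ, hδ, hleb⟩ := lebesgue_number_lemma_of_metric hKc (c := fun c : K => ball (c : ℂ) (r c))
    (fun c => isOpen_ball) (fun c hc => mem_iUnion.2 ⟨⟨c, hc⟩, mem_ball_self (hr ⟨c, hc⟩)⟩)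
  have hloc2 : ∀ x : ℝ, x1 < x → x < x2 → ∃ l' : ℂ → ℂ,
      lcL f₀ f N h (ball ((x : ℂ) + Y * I) δ) l' ∧
      ∀ t ∈ lcR x1 x2 (-a) Y ∩ ball ((x : ℂ) + Y * I) δ, l' t = L t := by
    intro x h1 h2
    obtain ⟨c, hc⟩ := hleb ((x : ℂ) + Y * I) (by
      rw [hK, mem_reProdIm]
      simp
      exact ⟨h1.le, h2.le⟩)
    exact ⟨l c, lcL_mono (hl c) hc, fun t ht => hlL c t ⟨ht.1, hc ht.2⟩⟩
  choose! m hm hmL using hloc2
  -- the balls
  have hdist : ∀ t : ℂ, dist t ((t.re : ℂ) + Y * I) = |t.im - Y| := by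
    intro t
    rw [dist_eq_norm]
    have : t - ((t.re : ℂ) + Y * I) = ((t.im - Y : ℝ) : ℂ) * I := by
      apply Complex.ext <;> simp
    rw [this, norm_mul, norm_I, mul_one, norm_real, Real.norm_eq_abs]
  -- agreement of the local continuations
  have hagree : ∀ x : ℝ, x1 < x → x < x2 → ∀ x' : ℝ, x1 < x' → x' < x2 → ∀ s : ℂ,
      s ∈ ball ((x : ℂ) + Y * I) δ → s ∈ ball ((x' : ℂ) + Y * I) δ → s.re = x' →
      m x' s = m x s := by
    intro x h1 h2 x' h3 h4 s h5 h6 h7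
    set O := ball ((x : ℂ) + Y * I) δ ∩ ball ((x' : ℂ) + Y * I) δ with hO
    have hOo : IsOpen O := isOpen_ball.inter isOpen_ball
    have hOc : IsPreconnected O := ((convex_ball _ _).inter (convex_ball _ _)).isPreconnected
    have hc' : ((x' : ℂ) + Y * I) ∈ O := by
      refine ⟨?_, mem_ball_self hδ⟩
      rw [mem_ball] at h5 ⊢
      refine lt_of_le_of_lt ?_ h5
      rw [dist_eq_norm, dist_eq_norm]
      have e1 : ((x' : ℂ) + Y * I) - ((x : ℂ) + Y * I) = ((x' - x : ℝ) : ℂ) := by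
        push_cast; ring
      have e2 : (s - ((x : ℂ) + Y * I)).re = x' - x := by simp [h7]
      rw [e1, norm_real, Real.norm_eq_abs, ← e2]
      exact abs_re_le_norm _
    obtain ⟨p, hpO, hpT⟩ := mem_closure_iff.1 (hcl ((x' : ℂ) + Y * I) (by simp [h3.le])
      (by simp [h4.le]) (by simp)) O hOo hc'
    refine ((hm x' h3 h4).1.mono inter_subset_right).eqOn_of_preconnected_of_eventuallyEq
      ((hm x h1 h2).1.mono inter_subset_left) hOc hpO ?_ ⟨h5, h6⟩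
    filter_upwards [(lcR_open _ _ _ _).mem_nhds hpT, hOo.mem_nhds hpO] with q hq1 hq2
    rw [hmL x' h3 h4 q ⟨hq1, hq2.2⟩, hmL x h1 h2 q ⟨hq1, hq2.1⟩]
  refine ⟨δ, hδ, fun t => if t.im < Y then L t else m t.re t, ?_, fun t ht => if_pos ht⟩
  refine lcL_of_germ fun t ht => ?_
  by_cases htY : t.im < Y
  · refine ⟨L, lcR x1 x2 (-a) Y, ⟨ht.1, ht.2.1, htY⟩, hL, ?_⟩
    filter_upwards [(isOpen_lt continuous_im continuous_const).mem_nhds htY] with s hs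
    exact if_pos hs
  · have htb : t ∈ ball ((t.re : ℂ) + Y * I) δ := by
      rw [mem_ball, hdist, abs_lt]
      have := ht.2.2
      rw [not_lt] at htY
      constructor <;> linarith
    refine ⟨m t.re, ball ((t.re : ℂ) + Y * I) δ, htb, hm t.re ht.1.1 ht.1.2, ?_⟩
    filter_upwards [(lcR_open _ _ _ _).mem_nhds ht, isOpen_ball.mem_nhds htb] with s hs1 hs2
    by_cases hsY : s.im < Y
    · rw [if_pos hsY]
      exact (hmL t.re ht.1.1 ht.1.2 s ⟨⟨hs1.1, hs1.2.1, hsY⟩, hs2⟩).symm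
    · rw [if_neg hsY]
      refine hagree t.re ht.1.1 ht.1.2 s.re hs1.1.1 hs1.1.2 s hs2 ?_ rfl
      rw [mem_ball, hdist, abs_lt]
      have := hs1.2.2
      rw [not_lt] at hsY
      constructor <;> linarith

/-- labels on rectangles of full height -/
private theorem lc_rect {f₀ : ℂ → ℂ} {h : ℝ} (hh : 0 < h) (hLU : LU f₀ (St (-h) h))
    (hNE : NE f₀ h) {f N L₁ : ℂ → ℂ} {a y x1 x2 : ℝ} (ha : 0 < a) (hay : a ≤ y) (hx : x1 < x2)
    (hf : ∀ t ∈ St (-a) y, MeromorphicAt f t) (hN : ∀ t ∈ St (-a) y, MeromorphicAt N t)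
    (hfc : ∀ t ∈ St (-a) y, ∀ c : ℂ, ¬ ∀ᶠ s in 𝓝[≠] t, f s = c)
    (hL₁ : lcL f₀ f N h (St (-a) a) L₁) :
    ∃ L : ℂ → ℂ, lcL f₀ f N h (lcR x1 x2 (-a) y) L ∧
      ∀ t ∈ lcR x1 x2 (-a) y, t.im < a → L t = L₁ t := by
  set S : Set ℝ := {Y | (a ≤ Y ∧ Y ≤ y) ∧ ∃ L : ℂ → ℂ, lcL f₀ f N h (lcR x1 x2 (-a) Y) L ∧
      ∀ t ∈ lcR x1 x2 (-a) Y, t.im < a → L t = L₁ t} with hS
  have haS : a ∈ S := ⟨⟨le_rfl, hay⟩, L₁, lcL_mono hL₁ fun t ht => ht.2, fun _ _ _ => rfl⟩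
  have hbdd : BddAbove S := ⟨y, fun Y hY => hY.1.2⟩
  have has : a ≤ sSup S := le_csSup hbdd haS
  have hsy : sSup S ≤ y := csSup_le ⟨a, haS⟩ fun Y hY => hY.1.2
  have hlt : ∀ Y : ℝ, Y < sSup S → ∃ L : ℂ → ℂ, lcL f₀ f N h (lcR x1 x2 (-a) Y) L ∧
      ∀ t ∈ lcR x1 x2 (-a) Y, t.im < a → L t = L₁ t := by
    intro Y hY
    obtain ⟨Y', ⟨_, L, h1, h2⟩, hYY'⟩ := exists_lt_of_lt_csSup ⟨a, haS⟩ hY
    have hsub : lcR x1 x2 (-a) Y ⊆ lcR x1 x2 (-a) Y' := fun t ht =>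
      ⟨ht.1, ht.2.1, ht.2.2.trans hYY'⟩
    exact ⟨L, lcL_mono h1 hsub, fun t ht => h2 t (hsub ht)⟩
  choose! Lf hLf hLf' using hlt
  have hsS : sSup S ∈ S := by
    refine ⟨⟨has, hsy⟩, fun t => Lf ((t.im + sSup S) / 2) t, ?_, ?_⟩
    · refine lcL_of_germ fun t ht => ?_
      have ht2 := ht.2.2
      have h1 : (t.im + sSup S) / 2 < sSup S := by linarith
      have h2 : t.im < (t.im + sSup S) / 2 := by linarith
      have hmem : t ∈ lcR x1 x2 (-a) ((t.im + sSup S) / 2) := ⟨ht.1, ht.2.1, h2⟩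
      refine ⟨Lf ((t.im + sSup S) / 2), _, hmem, hLf _ h1, ?_⟩
      filter_upwards [(lcR_open _ _ _ _).mem_nhds hmem] with s hs
      have hs2 := hs.2.2
      have h3 : (s.im + sSup S) / 2 < sSup S := by linarith
      have h4 : s.im < (s.im + sSup S) / 2 := by linarith
      exact lc_uniq ha (hLf _ h3).1 (hLf' _ h3) (hLf _ h1).1 (hLf' _ h1) ⟨hs.1, hs.2.1, h4⟩ hs
    · intro t ht hta
      have ht2 := ht.2.2
      have h1 : (t.im + sSup S) / 2 < sSup S := by linarith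
      have h2 : t.im < (t.im + sSup S) / 2 := by linarith
      exact hLf' _ h1 t ⟨ht.1, ht.2.1, h2⟩ hta
  have hfin : sSup S = y := by
    by_contra hne
    have hlt' : sSup S < y := lt_of_le_of_ne hsy hne
    obtain ⟨_, L, h1, h2⟩ := hsS
    obtain ⟨δ, hδ, L', h3, h4⟩ := lc_step hh hLU hNE ha hx hf hN hfc has hlt' h1
    have h5 : min (sSup S + δ) y ∈ S := by
      refine ⟨⟨le_min (by linarith) hay, min_le_right _ _⟩, L', lcL_mono h3 fun t ht =>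
        ⟨ht.1, ht.2.1, ht.2.2.trans_le (min_le_left _ _)⟩, fun t ht hta => ?_⟩
      have h6 : t.im < sSup S := lt_of_lt_of_le hta has
      rw [h4 t h6]
      exact h2 t ⟨ht.1, ht.2.1, h6⟩ hta
    have h6 := le_csSup hbdd h5
    have h7 : sSup S < min (sSup S + δ) y := lt_min (by linarith) hlt'
    linarith
  rw [hfin] at hsS
  exact hsS.2

/-- the label continues to the whole strip on which `f` and `N` are meromorphic -/
theorem lab_strip {f₀ : ℂ → ℂ} {h : ℝ} (hh : 0 < h) (hLU : LU f₀ (St (-h) h)) (hNE : NE f₀ h)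
    {f N L₁ : ℂ → ℂ} {a y : ℝ} (ha : 0 < a) (hay : a ≤ y)
    (hf : ∀ t ∈ St (-a) y, MeromorphicAt f t) (hN : ∀ t ∈ St (-a) y, MeromorphicAt N t)
    (hL₁ : AnalyticOnNhd ℂ L₁ (St (-a) a)) (hS : MapsTo L₁ (St (-a) a) (St (-h) h))
    (hper : ∀ t ∈ St (-a) a, L₁ (t + 1) = L₁ t + 1) (hlab : ∀ t ∈ St (-a) a, LabAt f₀ f N L₁ t)
    (hf₀ : ∀ z ∈ St (-h) h, f₀ (z + 1) = f₀ z) :
    ∃ L : ℂ → ℂ, AnalyticOnNhd ℂ L (St (-a) y) ∧ MapsTo L (St (-a) y) (St (-h) h) ∧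
      (∀ t ∈ St (-a) a, L t = L₁ t) ∧ (∀ t ∈ St (-a) y, L (t + 1) = L t + 1) ∧
      ∀ t ∈ St (-a) y, LabAt f₀ f N L t := by
  have hfc := fun t (ht : t ∈ St (-a) y) (c : ℂ) =>
    lc_nc hLU ha hay hf hL₁ hS hper hlab ht c
  have hex : ∀ x : ℝ, ∃ L : ℂ → ℂ, lcL f₀ f N h (lcR (x - 1) (x + 1) (-a) y) L ∧
      ∀ t ∈ lcR (x - 1) (x + 1) (-a) y, t.im < a → L t = L₁ t := fun x =>
    lc_rect hh hLU hNE ha hay (by linarith) hf hN hfc ⟨hL₁, hS, hlab⟩
  choose Lx hLx hLx' using hex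
  have hself : ∀ t ∈ St (-a) y, t ∈ lcR (t.re - 1) (t.re + 1) (-a) y := fun t ht =>
    ⟨⟨by linarith, by linarith⟩, ht⟩
  have hlow : ∀ t ∈ St (-a) a, Lx t.re t = L₁ t := by
    intro t ht
    have ht' : t ∈ St (-a) y := ⟨ht.1, lt_of_lt_of_le ht.2 hay⟩
    exact hLx' t.re t (hself t ht') ht.2
  have hL : lcL f₀ f N h (St (-a) y) (fun t => Lx t.re t) := by
    refine lcL_of_germ fun t ht => ?_
    refine ⟨Lx t.re, _, hself t ht, hLx t.re, ?_⟩
    filter_upwards [(lcR_open _ _ _ _).mem_nhds (hself t ht)] with s hs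
    exact lc_uniq ha (hLx s.re).1 (hLx' s.re) (hLx t.re).1 (hLx' t.re) (hself s hs.2) hs
  refine ⟨fun t => Lx t.re t, hL.1, hL.2.1, hlow, ?_, hL.2.2⟩
  have h0 : (0 : ℂ) ∈ St (-a) a := by
    rw [mem_St]
    simp
    exact ha
  have h0' : (0 : ℂ) ∈ St (-a) y := ⟨h0.1, lt_of_lt_of_le h0.2 hay⟩
  have hadd : ∀ (b : ℝ) (t : ℂ), t ∈ St (-a) b → t + 1 ∈ St (-a) b := by
    intro b t ht
    rw [mem_St] at ht ⊢
    simpa using ht
  have hsh : AnalyticOnNhd ℂ (fun t => (fun t => Lx t.re t) (t + 1)) (St (-a) y) := by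
    intro t ht
    exact AnalyticAt.comp (g := fun t => Lx t.re t) (f := fun t : ℂ => t + 1)
      (hL.1 (t + 1) (hadd y t ht)) (by fun_prop)
  have hsh' : AnalyticOnNhd ℂ (fun t => (fun t => Lx t.re t) t + 1) (St (-a) y) := fun t ht =>
    (hL.1 t ht).add analyticAt_const
  intro t ht
  refine hsh.eqOn_of_preconnected_of_eventuallyEq hsh' (convex_St _ _).isPreconnected h0' ?_ ht
  filter_upwards [(isOpen_St (-a) a).mem_nhds h0] with s hs
  have h1 := hlow (s + 1) (hadd a s hs)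
  have h2 := hlow s hs
  rw [h1, h2, hper s hs]

/-- the heights of the strip of `t` and of the strip of labels -/
theorem lab_height {L : ℂ → ℂ} {h a y : ℝ} (ha : 0 < a) (hay : a ≤ y)
    (hL : AnalyticOnNhd ℂ L (St (-a) y)) (hS : MapsTo L (St (-a) y) (St (-h) h))
    (hper : ∀ t ∈ St (-a) y, L (t + 1) = L t + 1) :
    y + (∫ s in (0:ℝ)..1, (L s - s)).im ≤ h := by
  have hy0 : 0 < y := lt_of_lt_of_le ha hay
  have hd : DifferentiableOn ℂ (fun t => L t - t) (MP_ae5b4e_an_MERO.St (-a) y) := by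
    intro t ht
    exact ((hL t ht).differentiableAt.sub differentiableAt_id).differentiableWithinAt
  have hp : ∀ t ∈ MP_ae5b4e_an_MERO.St (-a) y,
      (fun t => L t - t) (t + 1) = (fun t => L t - t) t := by
    intro t ht
    simp only
    rw [hper t ht]
    ring
  have hline : ∀ y' ∈ Ioo (-a) y, Continuous fun s : ℝ => L (s + y' * I) - (s + y' * I) := by
    intro y' hy'
    rw [← continuousOn_univ]
    refine (hd.continuousOn).comp (f := fun s : ℝ => ((s : ℂ) + y' * I)) (by fun_prop)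
      fun s _ => ?_
    rw [MP_ae5b4e_an_MERO.mem_St]
    simpa using hy'
  have key : ∀ y' ∈ Ioo (0 : ℝ) y, y' + (∫ s in (0:ℝ)..1, (L s - s)).im ≤ h := by
    intro y' hy'
    have hy'' : y' ∈ Ioo (-a) y := ⟨by linarith [hy'.1], hy'.2⟩
    have h0 : (0 : ℝ) ∈ Ioo (-a) y := ⟨by linarith, hy0⟩
    have h1 := MP_ae5b4e_an_MERO.Fourier.rect (G := fun t => L t - t) hd hp h0 hy''
    simp only [ofReal_zero, zero_mul, add_zero] at h1
    rw [h1]
    have h2 : (∫ s in (0:ℝ)..1, (L (s + y' * I) - (s + y' * I))).im =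
        ∫ s in (0:ℝ)..1, (L (s + y' * I) - (s + y' * I)).im :=
      (imCLM.intervalIntegral_comp_comm ((hline y' hy'').intervalIntegrable _ _)).symm
    rw [h2]
    have h3 : ∫ s in (0:ℝ)..1, (L (s + y' * I) - (s + y' * I)).im ≤
        ∫ s in (0:ℝ)..1, (h - y') := by
      refine intervalIntegral.integral_mono_on zero_le_one
        ((continuous_im.comp (hline y' hy'')).intervalIntegrable _ _) (by simp) fun s _ => ?_
      have h4 : ((s : ℂ) + y' * I) ∈ St (-a) y := by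
        rw [mem_St]
        simpa using hy''
      have h5 := (hS h4).2
      simp only [sub_im, add_im, ofReal_im, mul_im, ofReal_re, I_im, mul_one, I_re, mul_zero,
        add_zero, zero_add]
      linarith
    simp only [intervalIntegral.integral_const, sub_zero, one_smul] at h3
    linarith
  by_contra hcon
  rw [not_le] at hcon
  obtain ⟨y', h1, h2⟩ := exists_between
    (max_lt hy0 (show h - (∫ s in (0:ℝ)..1, (L s - s)).im < y by linarith))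
  have h3 := key y' ⟨lt_of_le_of_lt (le_max_left _ _) h1, h2⟩
  have h4 := lt_of_le_of_lt (le_max_right _ _) h1
  linarith

/-- the derivatives in the first variable are jointly analytic -/
private theorem lc_iter {G : ℂ × ℂ → ℂ} {U : Set (ℂ × ℂ)} (hU : IsOpen U)
    (hG : AnalyticOnNhd ℂ G U) (n : ℕ) :
    AnalyticOnNhd ℂ (fun p : ℂ × ℂ => iteratedDeriv n (fun t => G (t, p.2)) p.1) U := by
  induction n with
  | zero =>
    refine hG.congr hU ?_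
    intro p _
    simp only [iteratedDeriv_zero]
  | succ n ih =>
    have h1 : AnalyticOnNhd ℂ (fun p : ℂ × ℂ => fderiv ℂ
        (fun p : ℂ × ℂ => iteratedDeriv n (fun t => G (t, p.2)) p.1) p (1, 0)) U :=
      (ContinuousLinearMap.apply ℂ ℂ ((1, 0) : ℂ × ℂ)).comp_analyticOnNhd ih.fderiv
    refine h1.congr hU ?_
    intro p hp
    simp only
    rw [iteratedDeriv_succ]
    have h2 := ((ih p hp).differentiableAt).hasFDerivAt
    have h3 : HasDerivAt (fun t : ℂ => ((t, p.2) : ℂ × ℂ)) (1, 0) p.1 :=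
      (hasDerivAt_id p.1).prodMk (hasDerivAt_const p.1 p.2)
    exact (h2.comp_hasDerivAt p.1 h3).deriv.symm

private theorem lc_disc {G : ℂ × ℂ → ℂ} {W : Set ℂ} (hW : IsOpen W) {t₀ : ℂ} {r C : ℝ}
    (hr : 0 < r) (hG : ∀ ρ ∈ W, DifferentiableOn ℂ (fun t => G (t, ρ)) (ball t₀ r))
    (hC : ∀ p ∈ ball t₀ r ×ˢ W, ‖G p‖ ≤ C) {U : Set (ℂ × ℂ)} (hU : IsOpen U)
    (hb : AnalyticOnNhd ℂ G U) (h0 : ∀ ρ ∈ W, (t₀, ρ) ∈ U) :
    AnalyticOnNhd ℂ G (ball t₀ r ×ˢ W) := by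
  have hop : IsOpen (ball t₀ r ×ˢ W) := isOpen_ball.prod hW
  have hg : ∀ n, ∀ ρ ∈ W, AnalyticAt ℂ (fun ρ => iteratedDeriv n (fun t => G (t, ρ)) t₀) ρ := by
    intro n ρ hρ
    have h1 := lc_iter hU hb n (t₀, ρ) (h0 ρ hρ)
    have h2 : AnalyticAt ℂ (fun ρ : ℂ => ((t₀, ρ) : ℂ × ℂ)) ρ :=
      analyticAt_const.prod analyticAt_id
    exact AnalyticAt.comp (g := fun p : ℂ × ℂ => iteratedDeriv n (fun t => G (t, p.2)) p.1)
      (f := fun ρ : ℂ => ((t₀, ρ) : ℂ × ℂ)) h1 h2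
  refine SCV.analyticOnNhd_of_tendstoLocallyUniformlyOn (l := atTop) (ball t₀ r ×ˢ W) hop
    (fun (N : ℕ) (p : ℂ × ℂ) => ∑ n ∈ Finset.range N, (n.factorial : ℂ)⁻¹ •
      (p.1 - t₀) ^ n • iteratedDeriv n (fun t => G (t, p.2)) t₀) G ?_ ?_
  · intro N p hp
    refine Finset.analyticAt_fun_sum _ fun n _ => ?_
    simp only [smul_eq_mul]
    refine analyticAt_const.mul (((analyticAt_fst.sub analyticAt_const).pow n).mul ?_)
    exact AnalyticAt.comp (g := fun ρ => iteratedDeriv n (fun t => G (t, ρ)) t₀)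
      (f := fun p : ℂ × ℂ => p.2) (hg n p.2 hp.2) analyticAt_snd
  · rw [Metric.tendstoLocallyUniformlyOn_iff]
    rintro ε hε ⟨t₁, ρ₁⟩ ⟨ht₁, hρ₁⟩
    simp only [mem_ball] at ht₁
    obtain ⟨R', hR1, hR2⟩ := exists_between ht₁
    obtain ⟨R, hR3, hR4⟩ := exists_between hR2
    have hR'0 : 0 < R' := lt_of_le_of_lt dist_nonneg hR1
    have hR0 : 0 < R := hR'0.trans hR3
    have hC0 : 0 ≤ C := (norm_nonneg _).trans (hC (t₀, ρ₁) ⟨mem_ball_self hr, hρ₁⟩)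
    refine ⟨ball t₀ R' ×ˢ W, mem_nhdsWithin_of_mem_nhds
      ((isOpen_ball.prod hW).mem_nhds ⟨hR1, hρ₁⟩), ?_⟩
    have hθ : R' / R < 1 := (div_lt_one hR0).2 hR3
    have hlim : Tendsto (fun N : ℕ => C * (R' / R) ^ N / (1 - R' / R)) atTop (𝓝 0) := by
      have h1 := tendsto_pow_atTop_nhds_zero_of_lt_one (div_nonneg hR'0.le hR0.le) hθ
      have h2 := (h1.const_mul C).div_const (1 - R' / R)
      rwa [mul_zero, zero_div] at h2
    filter_upwards [hlim.eventually (gt_mem_nhds hε)] with N hN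
    rintro ⟨t, ρ⟩ ⟨ht, hρ⟩
    refine lt_of_le_of_lt ?_ hN
    have hd := hG ρ hρ
    have htr : t ∈ ball t₀ r := ball_subset_ball (hR3.trans hR4).le ht
    have hs := hasSum_taylorSeries_on_ball hd htr
    have hbd : ∀ n, ‖(n.factorial : ℂ)⁻¹ • (t - t₀) ^ n •
        iteratedDeriv n (fun t => G (t, ρ)) t₀‖ ≤ C * (R' / R) ^ n := by
      intro n
      have h1 := norm_iteratedDeriv_le_of_forall_mem_sphere_norm_le (C := C) n hR0
        (f := fun t => G (t, ρ)) (c := t₀)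
        ((hd.mono (closedBall_subset_ball hR4)).mono closure_ball_subset_closedBall).diffContOnCl
        (fun z hz => hC (z, ρ) ⟨(closedBall_subset_ball hR4) (sphere_subset_closedBall hz), hρ⟩)
      have h2 : ‖t - t₀‖ ≤ R' := by
        rw [← dist_eq_norm]
        exact (mem_ball.1 ht).le
      rw [norm_smul, norm_smul, norm_inv, norm_pow, Complex.norm_natCast]
      have h3 : (0 : ℝ) < n.factorial := by exact_mod_cast n.factorial_pos
      calc (n.factorial : ℝ)⁻¹ * (‖t - t₀‖ ^ n * ‖iteratedDeriv n (fun t => G (t, ρ)) t₀‖)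
          ≤ (n.factorial : ℝ)⁻¹ * (R' ^ n * (n.factorial * C / R ^ n)) := by gcongr
        _ = C * (R' / R) ^ n := by
            rw [div_pow]
            field_simp
    have h4 := norm_sub_le_of_geometric_bound_of_hasSum hθ hbd hs N
    rw [dist_comm, dist_eq_norm]
    exact h4

/-- a bounded function which is analytic in `t` for every `ρ` and jointly analytic near the base is
jointly analytic -/
theorem joint_of_bdd {G : ℂ × ℂ → ℂ} {W : Set ℂ} (hW : IsOpen W) {a y C : ℝ} (ha : 0 < a)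
    (hay : a ≤ y) (hG : ∀ ρ ∈ W, AnalyticOnNhd ℂ (fun t => G (t, ρ)) (St (-a) y))
    (hC : ∀ p ∈ St (-a) y ×ˢ W, ‖G p‖ ≤ C) (hb : AnalyticOnNhd ℂ G (St (-a) a ×ˢ W)) :
    AnalyticOnNhd ℂ G (St (-a) y ×ˢ W) := by
  rintro ⟨t₂, ρ₁⟩ ⟨ht₂, hρ₁⟩
  have hE : IsOpen {t : ℂ | AnalyticAt ℂ G (t, ρ₁)} :=
    (isOpen_analyticAt ℂ G).preimage (f := fun t : ℂ => ((t, ρ₁) : ℂ × ℂ)) (by fun_prop)
  have hpre : IsPreconnected (St (-a) y) := (convex_St _ _).isPreconnected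
  have h0 : (0 : ℂ) ∈ St (-a) y := by
    rw [mem_St]
    simp
    constructor <;> linarith
  have h0' : (0 : ℂ) ∈ St (-a) a := by
    rw [mem_St]
    simp
    exact ha
  refine hpre.subset_of_closure_inter_subset hE ⟨0, h0, hb (0, ρ₁) ⟨h0', hρ₁⟩⟩ ?_ ht₂
  rintro t₁ ⟨ht₁c, ht₁⟩
  obtain ⟨r, hr, hrS⟩ := Metric.isOpen_iff.1 (isOpen_St (-a) y) t₁ ht₁
  obtain ⟨t', ht', ht'd⟩ := Metric.mem_closure_iff.1 ht₁c (r / 2) (by positivity)
  have ht'A : AnalyticAt ℂ G (t', ρ₁) := ht'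
  have hbs : ball t' (r / 2) ⊆ St (-a) y := by
    intro z hz
    refine hrS ?_
    rw [mem_ball] at hz ⊢
    have := dist_triangle z t' t₁
    rw [dist_comm t' t₁] at this
    linarith
  -- a neighbourhood on which `G` is analytic
  obtain ⟨δ, hδ, hδU⟩ := Metric.isOpen_iff.1 (isOpen_analyticAt ℂ G) (t', ρ₁) ht'A
  obtain ⟨δ', hδ', hδW⟩ := Metric.isOpen_iff.1 hW ρ₁ hρ₁
  have hm : 0 < min δ δ' := lt_min hδ hδ'
  have h2 := lc_disc (G := G) (W := ball ρ₁ (min δ δ')) isOpen_ball (t₀ := t') (r := r / 2) (C := C)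
    (by positivity)
    (fun ρ hρ => ((hG ρ (hδW (ball_subset_ball (min_le_right _ _) hρ))).mono
      hbs).differentiableOn)
    (fun p hp => hC p ⟨hbs hp.1, hδW (ball_subset_ball (min_le_right _ _) hp.2)⟩)
    (isOpen_analyticAt ℂ G) (fun p hp => hp)
    (fun ρ hρ => hδU (by
      rw [mem_ball, Prod.dist_eq, max_lt_iff]
      exact ⟨by simpa using hδ, lt_of_lt_of_le hρ (min_le_left _ _)⟩))
  refine h2 (t₁, ρ₁) ⟨?_, mem_ball_self hm⟩
  rw [mem_ball]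
  exact ht'd

/-- a branch of the logarithm near a point -/
private theorem lc_log {E : ℂ × ℂ → ℂ} {p : ℂ × ℂ} (hE : AnalyticAt ℂ E p) (h0 : E p ≠ 0) :
    ∃ Λ : ℂ × ℂ → ℂ, AnalyticAt ℂ Λ p ∧ ∀ᶠ q in 𝓝 p, exp (Λ q) = E q := by
  refine ⟨fun q => log (E p) + log (E q / E p), ?_, ?_⟩
  · refine analyticAt_const.add ((hE.div analyticAt_const h0).clog ?_)
    change E p / E p ∈ slitPlane
    rw [div_self h0]
    exact one_mem_slitPlane
  · filter_upwards [hE.continuousAt.eventually_ne h0] with q hq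
    rw [Complex.exp_add, exp_log h0, exp_log (div_ne_zero hq h0), mul_div_cancel₀ _ h0]

/-- the same for maps to a strip -/
theorem joint_of_strip {L : ℂ × ℂ → ℂ} {W : Set ℂ} (hW : IsOpen W) {a y h : ℝ} (ha : 0 < a)
    (hay : a ≤ y) (hG : ∀ ρ ∈ W, AnalyticOnNhd ℂ (fun t => L (t, ρ)) (St (-a) y))
    (hC : ∀ p ∈ St (-a) y ×ˢ W, |(L p).im| ≤ h) (hb : AnalyticOnNhd ℂ L (St (-a) a ×ˢ W)) :
    AnalyticOnNhd ℂ L (St (-a) y ×ˢ W) := by
  have hEj : AnalyticOnNhd ℂ (fun p => exp (I * L p)) (St (-a) y ×ˢ W) := by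
    refine joint_of_bdd (C := Real.exp h) hW ha hay (fun ρ hρ t ht => ?_) (fun p hp => ?_)
      (fun p hp => ?_)
    · exact (analyticAt_const.mul (hG ρ hρ t ht)).cexp
    · rw [norm_exp]
      refine Real.exp_le_exp.2 ?_
      have h1 := (abs_le.1 (hC p hp)).1
      simp only [mul_re, I_re, zero_mul, I_im, one_mul, zero_sub]
      linarith
    · exact (analyticAt_const.mul (hb p hp)).cexp
  rintro ⟨t₂, ρ₁⟩ ⟨ht₂, hρ₁⟩
  have hE : IsOpen {t : ℂ | AnalyticAt ℂ L (t, ρ₁)} :=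
    (isOpen_analyticAt ℂ L).preimage (f := fun t : ℂ => ((t, ρ₁) : ℂ × ℂ)) (by fun_prop)
  have hpre : IsPreconnected (St (-a) y) := (convex_St _ _).isPreconnected
  have h0 : (0 : ℂ) ∈ St (-a) y := by
    rw [mem_St]
    simp
    constructor <;> linarith
  have h0' : (0 : ℂ) ∈ St (-a) a := by
    rw [mem_St]
    simp
    exact ha
  refine hpre.subset_of_closure_inter_subset hE ⟨0, h0, hb (0, ρ₁) ⟨h0', hρ₁⟩⟩ ?_ ht₂
  rintro t₁ ⟨ht₁c, ht₁⟩
  obtain ⟨Λ, hΛ, hΛE⟩ := lc_log (hEj (t₁, ρ₁) ⟨ht₁, hρ₁⟩) (exp_ne_zero _)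
  have hSW : St (-a) y ×ˢ W ∈ 𝓝 (t₁, ρ₁) := ((isOpen_St _ _).prod hW).mem_nhds ⟨ht₁, hρ₁⟩
  obtain ⟨δ, hδ, hδs⟩ := Metric.mem_nhds_iff.1
    (inter_mem hSW (inter_mem hΛ.eventually_analyticAt hΛE))
  have hball : ∀ t ∈ ball t₁ δ, ∀ ρ ∈ ball ρ₁ δ, ((t, ρ) : ℂ × ℂ) ∈ ball (t₁, ρ₁) δ := by
    intro t ht ρ hρ
    rw [mem_ball, Prod.dist_eq, max_lt_iff]
    exact ⟨ht, hρ⟩
  obtain ⟨t', ht', ht'd⟩ := Metric.mem_closure_iff.1 ht₁c δ hδ
  have ht'A : AnalyticAt ℂ L (t', ρ₁) := ht'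
  have ht'b : t' ∈ ball t₁ δ := by rw [mem_ball, dist_comm]; exact ht'd
  -- the difference is a constant multiple of `2 π`
  have hdiff : ∀ t ∈ ball t₁ δ, ∀ ρ ∈ ball ρ₁ δ, ∃ n : ℤ,
      I * L (t, ρ) = Λ (t, ρ) + n * (2 * Real.pi * I) := by
    intro t ht ρ hρ
    have h1 := (hδs (hball t ht ρ hρ)).2.2
    have h2 : exp (Λ (t, ρ)) = exp (I * L (t, ρ)) := h1
    exact exp_eq_exp_iff_exists_int.1 h2.symm
  -- constant in `t`
  have hconst : ∀ ρ ∈ ball ρ₁ δ, ∀ t ∈ ball t₁ δ,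
      I * L (t, ρ) - Λ (t, ρ) = I * L (t', ρ) - Λ (t', ρ) := by
    intro ρ hρ t ht
    have hd : DifferentiableOn ℂ (fun t => I * L (t, ρ) - Λ (t, ρ)) (ball t₁ δ) := by
      intro s hs
      have h1 := hδs (hball s hs ρ hρ)
      have h2 : DifferentiableAt ℂ (fun t => L (t, ρ)) s :=
        (hG ρ h1.1.2 s h1.1.1).differentiableAt
      have h3 : DifferentiableAt ℂ Λ (s, ρ) := (show AnalyticAt ℂ Λ (s, ρ) from
        h1.2.1).differentiableAt
      have h4 : DifferentiableAt ℂ (fun t => Λ (t, ρ)) s :=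
        DifferentiableAt.comp s (g := Λ) (f := fun t : ℂ => ((t, ρ) : ℂ × ℂ)) h3 (by fun_prop)
      exact ((h2.const_mul I).sub h4).differentiableWithinAt
    have hcont : ContinuousOn (fun t => (I * L (t, ρ) - Λ (t, ρ)) / (2 * Real.pi * I))
        (ball t₁ δ) := hd.continuousOn.div_const _
    have hpc : IsPreconnected (ball t₁ δ) := (convex_ball t₁ δ).isPreconnected
    have hval : ∀ s ∈ ball t₁ δ, ∃ n : ℤ,
        (I * L (s, ρ) - Λ (s, ρ)) / (2 * Real.pi * I) = (n : ℂ) := by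
      intro s hs
      obtain ⟨n, hn⟩ := hdiff s hs ρ hρ
      refine ⟨n, ?_⟩
      rw [hn, add_sub_cancel_left, mul_div_cancel_right₀ _ two_pi_I_ne_zero]
    have hre : ∀ s ∈ ball t₁ δ, ∀ s' ∈ ball t₁ δ,
        (I * L (s, ρ) - Λ (s, ρ)) / (2 * Real.pi * I) =
        (I * L (s', ρ) - Λ (s', ρ)) / (2 * Real.pi * I) := by
      intro s hs s' hs'
      have hT : IsDiscrete (Set.range ((↑) : ℤ → ℂ)) := by
        have hemb : IsClosedEmbedding ((↑) : ℤ → ℂ) := by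
          refine isClosedEmbedding_of_pairwise_le_dist one_pos fun m n hmn => ?_
          change (1 : ℝ) ≤ dist (m : ℂ) (n : ℂ)
          rw [dist_eq_norm, ← Int.cast_sub, Complex.norm_intCast]
          exact_mod_cast Int.one_le_abs (sub_ne_zero.2 hmn)
        exact hemb.isInducing.isDiscrete_range
      have hmaps : MapsTo (fun t => (I * L (t, ρ) - Λ (t, ρ)) / (2 * Real.pi * I)) (ball t₁ δ)
          (Set.range ((↑) : ℤ → ℂ)) := by
        intro q hq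
        obtain ⟨n, hn⟩ := hval q hq
        exact ⟨n, hn.symm⟩
      exact hpc.constant_of_mapsTo hT hcont hmaps hs hs'
    have h5 := hre t ht t' ht'b
    have h6 := two_pi_I_ne_zero
    field_simp at h5
    linear_combination h5
  -- constant in `ρ` near `ρ₁`
  have hnear : ∀ᶠ ρ in 𝓝 ρ₁, I * L (t', ρ) - Λ (t', ρ) = I * L (t', ρ₁) - Λ (t', ρ₁) := by
    have h1 := hδs (hball t' ht'b ρ₁ (mem_ball_self hδ))
    have h2 : ContinuousAt (fun ρ => (I * L (t', ρ) - Λ (t', ρ)) / (2 * Real.pi * I)) ρ₁ := by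
      have h3 : ContinuousAt (fun ρ => L (t', ρ)) ρ₁ :=
        ContinuousAt.comp (g := L) (f := fun ρ : ℂ => ((t', ρ) : ℂ × ℂ)) ht'A.continuousAt
          (by fun_prop)
      have h4 : ContinuousAt (fun ρ => Λ (t', ρ)) ρ₁ :=
        ContinuousAt.comp (g := Λ) (f := fun ρ : ℂ => ((t', ρ) : ℂ × ℂ))
          (show AnalyticAt ℂ Λ (t', ρ₁) from h1.2.1).continuousAt (by fun_prop)
      exact ((continuousAt_const.mul h3).sub h4).div_const _
    have h5 : ∀ᶠ ρ in 𝓝 ρ₁, dist ((I * L (t', ρ) - Λ (t', ρ)) / (2 * Real.pi * I))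
        ((I * L (t', ρ₁) - Λ (t', ρ₁)) / (2 * Real.pi * I)) < 1 :=
      h2.eventually (ball_mem_nhds _ one_pos)
    filter_upwards [h5, ball_mem_nhds ρ₁ hδ] with ρ hρ1 hρ2
    obtain ⟨n, hn⟩ := hdiff t' ht'b ρ hρ2
    obtain ⟨n', hn'⟩ := hdiff t' ht'b ρ₁ (mem_ball_self hδ)
    rw [hn, hn', add_sub_cancel_left, add_sub_cancel_left,
      mul_div_cancel_right₀ _ two_pi_I_ne_zero, mul_div_cancel_right₀ _ two_pi_I_ne_zero,
      dist_eq_norm, ← Int.cast_sub, Complex.norm_intCast] at hρ1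
    have h6 : n = n' := by
      have h7 : |n - n'| < 1 := by exact_mod_cast hρ1
      have h8 := Int.abs_lt_one_iff.1 h7
      omega
    rw [hn, hn', h6]
    ring
  -- conclusion
  have hfin : (fun q : ℂ × ℂ => -I * (Λ q + (I * L (t', ρ₁) - Λ (t', ρ₁)))) =ᶠ[𝓝 (t₁, ρ₁)] L := by
    have h1 : ∀ᶠ q in 𝓝 (t₁, ρ₁), q.1 ∈ ball t₁ δ :=
      (continuous_fst.tendsto (t₁, ρ₁)).eventually (ball_mem_nhds t₁ hδ)
    have h2 : ∀ᶠ q in 𝓝 (t₁, ρ₁), q.2 ∈ ball ρ₁ δ :=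
      (continuous_snd.tendsto (t₁, ρ₁)).eventually (ball_mem_nhds ρ₁ hδ)
    have h3 : ∀ᶠ q in 𝓝 (t₁, ρ₁), I * L (t', q.2) - Λ (t', q.2) =
        I * L (t', ρ₁) - Λ (t', ρ₁) := (continuous_snd.tendsto (t₁, ρ₁)).eventually hnear
    filter_upwards [h1, h2, h3] with q hq1 hq2 hq3
    rw [← hq3, ← hconst q.2 hq2 q.1 hq1]
    have : -I * (Λ q + (I * L (q.1, q.2) - Λ (q.1, q.2))) = -(I * I) * L q := by
      simp only [Prod.mk.eta]
      ring
    rw [this, I_mul_I]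
    ring
  exact (analyticAt_const.mul (hΛ.add analyticAt_const)).congr hfin

end Pool.Agent.MP_ae5b4e_an_NBT
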