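import Mathlib
import Pool.Agent.Lib.MP_ae5b4e_an_MERO.ExtBasic
import Pool.Agent.Lib.MP_ae5b4e_an_NBT.Crit

/-!
# MP_ae5b4e_an, project NB: the label near the real axis
-/

noncomputable section

namespace Pool.Agent.MP_ae5b4e_an_NBT

open Complex Set Filter Topology Metric
open scoped ComplexConjugate

variable {k : ℂ → ℂ} {F G : ℂ × ℂ → ℂ} {c h : ℝ}

private lemma le_int {c : ℝ} {Q : ℂ × ℂ → Prop}
    (hper : ∀ p : ℂ × ℂ, |p.1.im| < c → ‖p.2‖ < c → (Q p ↔ Q (p.1 + 1, p.2))) (n : ℤ) :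
    ∀ p : ℂ × ℂ, |p.1.im| < c → ‖p.2‖ < c → (Q p ↔ Q (p.1 + n, p.2)) := by
  induction n using Int.induction_on with
  | zero =>
    intro p _ _
    simp
  | succ n ih =>
    intro p h1 h2
    rw [ih p h1 h2, hper (p.1 + ((n : ℤ) : ℂ), p.2) (by simpa using h1) h2]
    have h3 : p.1 + ((n : ℤ) : ℂ) + 1 = p.1 + ((n + 1 : ℤ) : ℂ) := by
      push_cast
      ring
    show Q (p.1 + ((n : ℤ) : ℂ) + 1, p.2) ↔ _
    rw [h3]
  | pred n ih =>
    intro p h1 h2
    rw [ih p h1 h2, hper (p.1 + ((-n - 1 : ℤ) : ℂ), p.2) (by simpa using h1) h2]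
    have h3 : p.1 + ((-n - 1 : ℤ) : ℂ) + 1 = p.1 + ((-n : ℤ) : ℂ) := by
      push_cast
      ring
    show _ ↔ Q (p.1 + ((-n - 1 : ℤ) : ℂ) + 1, p.2)
    rw [h3]

private lemma le_cpt {c : ℝ} (hc : 0 < c) {Q : ℂ × ℂ → Prop}
    (hQ : ∀ x : ℝ, ∀ᶠ p in 𝓝 ((x : ℂ), (0 : ℂ)), Q p)
    (hper : ∀ p : ℂ × ℂ, |p.1.im| < c → ‖p.2‖ < c → (Q p ↔ Q (p.1 + 1, p.2))) :
    ∃ r, 0 < r ∧ r ≤ c ∧ ∀ p : ℂ × ℂ, |p.1.im| < r → ‖p.2‖ < r → Q p := by
  have hK : IsCompact ((fun x : ℝ => ((x : ℂ), (0 : ℂ))) '' Icc 0 1) :=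
    isCompact_Icc.image (by fun_prop)
  have hU : IsOpen {p : ℂ × ℂ | ∀ᶠ q in 𝓝 p, Q q} := isOpen_setOfPred_eventually_nhds
  have hKU : ((fun x : ℝ => ((x : ℂ), (0 : ℂ))) '' Icc 0 1) ⊆ {p : ℂ × ℂ | ∀ᶠ q in 𝓝 p, Q q} := by
    rintro _ ⟨x, -, rfl⟩
    exact hQ x
  obtain ⟨δ, hδ, hδU⟩ := hK.exists_thickening_subset_open hU hKU
  refine ⟨min δ c, lt_min hδ hc, min_le_right _ _, fun p h1 h2 => ?_⟩
  have h1c := h1.trans_le (min_le_right δ c)
  have h2c := h2.trans_le (min_le_right δ c)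
  have h1d := h1.trans_le (min_le_left δ c)
  have h2d := h2.trans_le (min_le_left δ c)
  rw [le_int hper (-⌊p.1.re⌋) p h1c h2c]
  have h3 : (p.1 + ((-⌊p.1.re⌋ : ℤ) : ℂ), p.2) ∈
      thickening δ ((fun x : ℝ => ((x : ℂ), (0 : ℂ))) '' Icc 0 1) := by
    rw [mem_thickening_iff]
    refine ⟨_, ⟨Int.fract p.1.re, ⟨Int.fract_nonneg _, (Int.fract_lt_one _).le⟩, rfl⟩, ?_⟩
    rw [Prod.dist_eq]
    refine max_lt ?_ ?_
    · show dist (p.1 + ((-⌊p.1.re⌋ : ℤ) : ℂ)) ((Int.fract p.1.re : ℝ) : ℂ) < δ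
      have h4 : p.1 + ((-⌊p.1.re⌋ : ℤ) : ℂ) - ((Int.fract p.1.re : ℝ) : ℂ) = (p.1.im : ℂ) * I := by
        have h5 : ((Int.fract p.1.re : ℝ) : ℂ) = (p.1.re : ℂ) - (⌊p.1.re⌋ : ℂ) := by
          unfold Int.fract
          push_cast
          ring
        rw [h5]
        push_cast
        nth_rewrite 1 [← re_add_im p.1]
        ring
      rw [dist_eq_norm, h4, norm_mul, norm_I, mul_one, norm_real, Real.norm_eq_abs]
      exact h1d
    · show dist p.2 0 < δ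
      rw [dist_zero_right]
      exact h2d
  have h4 : ∀ᶠ q in 𝓝 (p.1 + ((-⌊p.1.re⌋ : ℤ) : ℂ), p.2), Q q := hδU h3
  exact h4.self_of_nhds

private lemma le_loc {f : ℂ → ℂ} {w : ℂ} (hM : AnalyticAt ℂ f w) (h : deriv f w ≠ 0) :
    ∃ g : ℂ → ℂ, AnalyticAt ℂ g (f w) ∧ g (f w) = w ∧
      (∀ᶠ z in 𝓝 (f w), f (g z) = z) ∧ ∀ᶠ z in 𝓝 w, g (f z) = z := by
  have ha := hM.analyticAt_localInverse h
  have hl : ∀ᶠ z in 𝓝 w, hM.hasStrictDerivAt.localInverse _ _ _ h (f z) = z :=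
    hM.hasStrictDerivAt.eventually_left_inverse h
  have hr := hM.hasStrictDerivAt.eventually_right_inverse h
  exact ⟨hM.hasStrictDerivAt.localInverse _ _ _ h, ha, hl.self_of_nhds, hr, hl⟩

private lemma le_slice {F : ℂ × ℂ → ℂ} {t ρ : ℂ} (h : AnalyticAt ℂ F (t, ρ)) :
    AnalyticAt ℂ (fun s => F (s, ρ)) t := by
  have h1 : AnalyticAt ℂ (fun s : ℂ => (s, ρ)) t := analyticAt_id.prod analyticAt_const
  exact AnalyticAt.fun_comp (g := F) (f := fun s : ℂ => (s, ρ)) h h1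

private lemma le_eqM_plus {G G' : ℂ × ℂ → ℂ} {p : ℂ × ℂ} (h : EqM G G' (p.1 + p.2, p.2)) :
    EqM (fun q : ℂ × ℂ => G (q.1 + q.2, q.2)) (fun q : ℂ × ℂ => G' (q.1 + q.2, q.2)) p :=
  EqM.shift (h := fun z => z) differentiable_id h

private lemma le_eqM_minus {G G' : ℂ × ℂ → ℂ} {p : ℂ × ℂ} (h : EqM G G' (p.1 - p.2, p.2)) :
    EqM (fun q : ℂ × ℂ => G (q.1 - q.2, q.2)) (fun q : ℂ × ℂ => G' (q.1 - q.2, q.2)) p := by
  have h1 : EqM G G' (p.1 + (fun z : ℂ => -z) p.2, p.2) := by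
    rw [sub_eq_add_neg] at h
    exact h
  have h2 := EqM.shift (h := fun z => -z) differentiable_id.neg h1
  have h3 : ∀ G : ℂ × ℂ → ℂ, (fun q : ℂ × ℂ => G (q.1 + (fun z : ℂ => -z) q.2, q.2)) =
      fun q : ℂ × ℂ => G (q.1 - q.2, q.2) := by
    intro G
    funext q
    rw [sub_eq_add_neg]
  rw [h3 G, h3 G'] at h2
  exact h2

private lemma le_eqM_KF {G G' : ℂ × ℂ → ℂ} {p : ℂ × ℂ} (h0 : EqM G G' p)
    (h1 : EqM G G' (p.1 + p.2, p.2)) (h2 : EqM G G' (p.1 - p.2, p.2)) :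
    EqM (KF G) (KF G') p :=
  EqM.map₂ (fun x y => x + y)
    (EqM.map₂ (fun x y => (x - y)⁻¹) (le_eqM_plus h1) h0)
    (EqM.map₂ (fun x y => (x - y)⁻¹) (le_eqM_minus h2) h0)

private lemma le_den (p : ℂ × ℂ) : Den (fun q : ℂ × ℂ => q.2) p := by
  refine ⟨analyticAt_snd, fun h1 => ?_⟩
  have h2 : Tendsto (fun z : ℂ => (p.1, z)) (𝓝[≠] p.2) (𝓝 p) := by
    have h3 : Continuous fun z : ℂ => (p.1, z) := by fun_prop
    exact (h3.tendsto p.2).mono_left nhdsWithin_le_nhds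
  have h4 : ∀ᶠ z in 𝓝[≠] p.2, z = 0 := h2.eventually h1
  have h5 : ∀ᶠ z in 𝓝[≠] p.2, z ≠ (0 : ℂ) := by
    by_cases h0 : p.2 = 0
    · rw [h0]
      exact self_mem_nhdsWithin
    · exact nhdsWithin_le_nhds (isOpen_ne.mem_nhds h0)
  obtain ⟨z, hz1, hz2⟩ := (h4.and h5).exists
  exact hz2 hz1

/-- the value of `sl G` in the base strip -/
private lemma le_slG (hE : ConE k F c h G) {s ρ : ℂ} (hs : |s.im| < c) (hρ : ‖ρ‖ < c / 4) :
    sl G ρ s = F (s, ρ) := by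
  have hc := hE.pos
  have h1 : (s, ρ) ∈ St (-c) c ×ˢ ball (0:ℂ) (c / 4) :=
    ⟨abs_lt.1 hs, mem_ball_zero_iff.2 hρ⟩
  have h2 := (sl_congr (hE.eqG _ h1)).self_of_nhds
  rw [h2]
  refine sl_of_analyticAt (hE.an (s, ρ) ⟨abs_lt.1 hs, mem_ball_zero_iff.2 ?_⟩)
  linarith

/-- the value of `sl (KF G)` in the base strip -/
private lemma le_slK (hE : ConE k F c h G) {s ρ : ℂ} (hs : |s.im| < c / 2) (hρ : ‖ρ‖ < c / 4) :
    sl (KF G) ρ s = k (F (s, ρ)) := by
  have hc := hE.pos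
  have hρi := abs_im_le_norm ρ
  have hs' := abs_lt.1 hs
  have hρ' := abs_lt.1 (lt_of_le_of_lt hρi hρ)
  have hρb : ρ ∈ ball (0:ℂ) (c / 4) := mem_ball_zero_iff.2 hρ
  have hmem : (s, ρ) ∈ St (-c) c ×ˢ ball (0:ℂ) c :=
    ⟨⟨by show -c < s.im; linarith, by show s.im < c; linarith⟩, mem_ball_zero_iff.2 (by linarith)⟩
  have h1 : EqM (KF G) (KF F) (s, ρ) := by
    refine le_eqM_KF (hE.eqG _ ⟨⟨?_, ?_⟩, hρb⟩) (hE.eqG _ ⟨⟨?_, ?_⟩, hρb⟩)
      (hE.eqG _ ⟨⟨?_, ?_⟩, hρb⟩)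
    · show -c < s.im
      linarith
    · show s.im < c
      linarith
    · show -c < (s + ρ).im
      rw [add_im]
      linarith
    · show (s + ρ).im < c
      rw [add_im]
      linarith
    · show -c < (s - ρ).im
      rw [sub_im]
      linarith
    · show (s - ρ).im < c
      rw [sub_im]
      linarith
  have h2 : EqM (KF F) (fun q => k (F q)) (s, ρ) := by
    refine ⟨fun q => q.2, le_den _, ?_⟩
    have h3 : ∀ᶠ q : ℂ × ℂ in 𝓝 (s, ρ), |q.1.im| < c / 2 ∧ ‖q.2‖ < c / 4 := by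
      have h4 : ContinuousAt (fun q : ℂ × ℂ => |q.1.im|) (s, ρ) := by fun_prop
      have h5 : ContinuousAt (fun q : ℂ × ℂ => ‖q.2‖) (s, ρ) := by fun_prop
      exact (h4.eventually (gt_mem_nhds hs)).and (h5.eventually (gt_mem_nhds hρ))
    filter_upwards [h3] with q hq hq0
    obtain ⟨hq1, hq2⟩ := hq
    have hq3 := abs_lt.1 hq1
    have hq4 := abs_lt.1 (lt_of_le_of_lt (abs_im_le_norm q.2) hq2)
    refine hE.fe q ⟨⟨?_, ?_⟩, mem_ball_zero_iff.2 ?_⟩ hq0 ⟨?_, ?_⟩ ⟨?_, ?_⟩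
    · show -c < q.1.im
      linarith
    · show q.1.im < c
      linarith
    · linarith
    · show -c < (q.1 + q.2).im
      rw [add_im]
      linarith
    · show (q.1 + q.2).im < c
      rw [add_im]
      linarith
    · show -c < (q.1 - q.2).im
      rw [sub_im]
      linarith
    · show (q.1 - q.2).im < c
      rw [sub_im]
      linarith
  have h3 : AnalyticAt ℂ (fun q => k (F q)) (s, ρ) :=
    AnalyticAt.fun_comp (g := k) (f := F) (hE.reg _ hmem) (hE.an _ hmem)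
  exact nfM_eq (f := KF G) (C := fun q => k (F q)) h3 (h1.trans h2)

private lemma le_DK (hE : ConE k F c h G) {p : ℂ × ℂ} (hs : |p.1.im| < c / 2)
    (hρ : ‖p.2‖ < c / 4) : p ∈ DK F c (c / 4) := by
  have hc := hE.pos
  have h1 : Mer F (St (-c) c ×ˢ ball 0 (c / 4)) := by
    refine Mer.of_analytic fun q hq => hE.an q ⟨hq.1, ?_⟩
    exact ball_subset_ball (by linarith) hq.2
  have h2 := mer_KF (by linarith) h1
  exact (slice_Dom (by linarith) le_rfl h2 (mem_ball_zero_iff.2 hρ)).2.2.1 p.1 hs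

/-- first and second derivative of a composition -/
private lemma le_chain {g l f : ℂ → ℂ} {s : ℂ} (hg : AnalyticAt ℂ g (l s)) (hl : AnalyticAt ℂ l s)
    (hf : ∀ᶠ x in 𝓝 s, f x = g (l x)) :
    deriv f s = deriv g (l s) * deriv l s ∧
      deriv (deriv f) s = deriv (deriv g) (l s) * deriv l s ^ 2 + deriv g (l s) * deriv (deriv l) s := by
  have h1 : ∀ᶠ x in 𝓝 s, deriv f x = deriv g (l x) * deriv l x := by
    filter_upwards [hf.eventually_nhds, hl.eventually_analyticAt,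
      hl.continuousAt.eventually hg.eventually_analyticAt] with x hx1 hx2 hx3
    have h2 : f =ᶠ[𝓝 x] fun x => g (l x) := hx1
    rw [h2.deriv_eq]
    exact (hx3.differentiableAt.hasDerivAt.comp x hx2.differentiableAt.hasDerivAt).deriv
  refine ⟨h1.self_of_nhds, ?_⟩
  have h2 : deriv f =ᶠ[𝓝 s] fun x => deriv g (l x) * deriv l x := h1
  have h3 : HasDerivAt (fun x => deriv g (l x)) (deriv (deriv g) (l s) * deriv l s) s :=
    hg.deriv.differentiableAt.hasDerivAt.comp s hl.differentiableAt.hasDerivAt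
  have h4 : HasDerivAt (fun x => deriv g (l x) * deriv l x)
      (deriv (deriv g) (l s) * deriv l s * deriv l s + deriv g (l s) * deriv (deriv l) s) s :=
    h3.mul hl.deriv.differentiableAt.hasDerivAt
  rw [h2.deriv_eq, h4.deriv]
  ring

/-- the label near the real axis, without the natural boundary -/
theorem label_base_conE (hE : ConE k F c h G) :
    ∃ a R : ℝ, 0 < a ∧ a ≤ c / 2 ∧ 0 < R ∧ R ≤ c / 4 ∧ ∃ L : ℂ × ℂ → ℂ,
      AnalyticOnNhd ℂ L (St (-a) a ×ˢ ball 0 R) ∧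
      (∀ p ∈ St (-a) a ×ˢ ball (0:ℂ) R, |(L p).im| < c ∧ L (p.1 + 1, p.2) = L p + 1 ∧
        L (p.1, -p.2) = L p ∧ L (conj p.1, conj p.2) = conj (L p) ∧ F (L p, 0) = F p ∧
        LabAt (sl G 0) (sl G p.2) (sl (NN G) p.2) (fun t => L (t, p.2)) p.1) ∧
      ∀ t ∈ St (-a) a, L (t, 0) = t := by
  classical
  have hc := hE.pos
  have hmem0 : ∀ t : ℂ, |t.im| < c → (t, (0:ℂ)) ∈ St (-c) c ×ˢ ball (0:ℂ) c := fun t ht =>
    ⟨abs_lt.1 ht, mem_ball_self hc⟩
  have hgan : ∀ t : ℂ, |t.im| < c → AnalyticAt ℂ (fun s => F (s, 0)) t := fun t ht =>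
    le_slice (hE.an (t, 0) (hmem0 t ht))
  have hgd : ∀ t : ℂ, |t.im| < c → deriv (fun s => F (s, 0)) t ≠ 0 := fun t ht =>
    hE.dt (t, 0) (hmem0 t ht)
  have hper0 : ∀ t : ℂ, |t.im| < c → F (t + 1, 0) = F (t, 0) := fun t ht =>
    hE.per (t, 0) (hmem0 t ht)
  -- uniqueness
  obtain ⟨r₁, hr₁, hr₁c, hU⟩ := le_cpt (c := c / 2) (by linarith)
    (Q := fun p => F (p.1 + p.2, 0) = F (p.1, 0) → p.2 = 0) (by
      intro x
      obtain ⟨g, hg1, hg2, hg3, hg4⟩ := le_loc (hgan x (by simpa using hc)) (hgd x (by simpa using hc))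
      have h1 : Tendsto (fun p : ℂ × ℂ => p.1) (𝓝 ((x : ℂ), (0 : ℂ))) (𝓝 (x : ℂ)) :=
        continuous_fst.tendsto _
      have h2 : Tendsto (fun p : ℂ × ℂ => p.1 + p.2) (𝓝 ((x : ℂ), (0 : ℂ))) (𝓝 (x : ℂ)) := by
        have h3 : Continuous fun p : ℂ × ℂ => p.1 + p.2 := by fun_prop
        have h4 := h3.tendsto ((x : ℂ), (0 : ℂ))
        simpa using h4
      filter_upwards [h1.eventually hg4, h2.eventually hg4] with p hp1 hp2 hp3
      rw [hp3, hp1] at hp2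
      exact (left_eq_add.1 hp2)) (by
      intro p h1 h2
      have h3 := abs_lt.1 h1
      have h4 := abs_lt.1 (lt_of_le_of_lt (abs_im_le_norm p.2) h2)
      have h5 : F (p.1 + 1 + p.2, 0) = F (p.1 + p.2, 0) := by
        have h6 := hper0 (p.1 + p.2) (by rw [add_im]; exact abs_lt.2 ⟨by linarith, by linarith⟩)
        rw [← h6]
        congr 2
        ring
      have h6 : F (p.1 + 1, 0) = F (p.1, 0) := hper0 p.1 (by linarith)
      show (F (p.1 + p.2, 0) = F (p.1, 0) → p.2 = 0) ↔ (F (p.1 + 1 + p.2, 0) = F (p.1 + 1, 0) → p.2 = 0)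
      rw [h5, h6])
  obtain ⟨η, hη⟩ : ∃ η, η = r₁ / 4 := ⟨_, rfl⟩
  have hη0 : 0 < η := by linarith
  -- existence
  obtain ⟨r₂, hr₂, hr₂c, hX⟩ := le_cpt (c := c / 4) (by linarith)
    (Q := fun p => ∃ l, dist l p.1 < η ∧ F (l, 0) = F p) (by
      intro x
      obtain ⟨g, hg1, hg2, hg3, hg4⟩ := le_loc (hgan x (by simpa using hc)) (hgd x (by simpa using hc))
      have h1 : ContinuousAt F ((x : ℂ), (0 : ℂ)) :=
        (hE.an _ (hmem0 x (by simpa using hc))).continuousAt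
      have h2 : ContinuousAt (fun p : ℂ × ℂ => g (F p)) ((x : ℂ), (0 : ℂ)) :=
        ContinuousAt.comp (g := g) (f := F) hg1.continuousAt h1
      have h3 : ContinuousAt (fun p : ℂ × ℂ => dist (g (F p)) p.1) ((x : ℂ), (0 : ℂ)) :=
        h2.dist continuousAt_fst
      have h4 : dist (g (F ((x : ℂ), (0 : ℂ)))) ((x : ℂ), (0 : ℂ)).1 < η := by
        show dist (g (F ((x : ℂ), (0 : ℂ)))) (x : ℂ) < η
        rw [hg2, dist_self]
        exact hη0
      filter_upwards [h3.eventually (gt_mem_nhds h4), h1.eventually hg3] with p hp1 hp2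
      exact ⟨g (F p), hp1, hp2⟩) (by
      intro p h1 h2
      have h3 : F (p.1 + 1, p.2) = F p :=
        hE.per p ⟨abs_lt.1 (by linarith), mem_ball_zero_iff.2 (by linarith)⟩
      show (∃ l, dist l p.1 < η ∧ F (l, 0) = F p) ↔
        ∃ l, dist l (p.1 + 1) < η ∧ F (l, 0) = F (p.1 + 1, p.2)
      rw [h3]
      have hdim : ∀ l : ℂ, dist l p.1 < η → |l.im| < c := by
        intro l hl
        have h5 := abs_im_le_norm (l - p.1)
        rw [← dist_eq_norm, sub_im] at h5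
        have h6 := abs_lt.1 (lt_of_le_of_lt h5 hl)
        have h7 := abs_lt.1 h1
        exact abs_lt.2 ⟨by linarith, by linarith⟩
      constructor
      · rintro ⟨l, hl1, hl2⟩
        refine ⟨l + 1, by rw [dist_add_right]; exact hl1, ?_⟩
        rw [hper0 l (hdim l hl1)]
        exact hl2
      · rintro ⟨l, hl1, hl2⟩
        have h8 : dist (l - 1) p.1 < η := by
          rw [dist_eq_norm] at hl1 ⊢
          have h9 : l - 1 - p.1 = l - (p.1 + 1) := by ring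
          rw [h9]
          exact hl1
        refine ⟨l - 1, h8, ?_⟩
        have h9 := hper0 (l - 1) (hdim _ h8)
        rw [sub_add_cancel] at h9
        rw [← h9]
        exact hl2)
  obtain ⟨a, ha⟩ : ∃ a, a = min r₂ (r₁ / 4) := ⟨_, rfl⟩
  have ha0 : 0 < a := by
    rw [ha]
    exact lt_min hr₂ (by linarith)
  have har₂ : a ≤ r₂ := by
    rw [ha]
    exact min_le_left _ _
  have har₁ : a ≤ r₁ / 4 := by
    rw [ha]
    exact min_le_right _ _
  have huniq : ∀ t l l' : ℂ, |t.im| < a → dist l t < η → dist l' t < η → F (l, 0) = F (l', 0) →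
      l = l' := by
    intro t l l' ht hl hl' hll
    have h1 : |l.im| < r₁ := by
      have h5 := abs_im_le_norm (l - t)
      rw [← dist_eq_norm, sub_im] at h5
      have h6 := abs_lt.1 (lt_of_le_of_lt h5 hl)
      have h7 := abs_lt.1 ht
      exact abs_lt.2 ⟨by linarith, by linarith⟩
    have h2 : ‖l' - l‖ < r₁ := by
      rw [← dist_eq_norm]
      have h3 := dist_triangle_right l' l t
      linarith
    have h3 := hU (l, l' - l) h1 h2 (by
      show F (l + (l' - l), 0) = F (l, 0)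
      rw [add_sub_cancel]
      exact hll.symm)
    exact (sub_eq_zero.1 h3).symm
  let L : ℂ × ℂ → ℂ := fun p =>
    if hp : ∃ l, dist l p.1 < η ∧ F (l, 0) = F p then hp.choose else 0
  have hL : ∀ p : ℂ × ℂ, |p.1.im| < a → ‖p.2‖ < r₂ → dist (L p) p.1 < η ∧ F (L p, 0) = F p := by
    intro p h1 h2
    have h3 := hX p (lt_of_lt_of_le h1 har₂) h2
    show dist (if hp : ∃ l, dist l p.1 < η ∧ F (l, 0) = F p then hp.choose else 0) p.1 < η ∧
      F (if hp : ∃ l, dist l p.1 < η ∧ F (l, 0) = F p then hp.choose else 0, 0) = F p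
    rw [dif_pos h3]
    exact h3.choose_spec
  have hLu : ∀ p : ℂ × ℂ, |p.1.im| < a → ‖p.2‖ < r₂ → ∀ l, dist l p.1 < η → F (l, 0) = F p →
      L p = l := by
    intro p h1 h2 l h3 h4
    exact huniq p.1 _ _ h1 (hL p h1 h2).1 h3 ((hL p h1 h2).2.trans h4.symm)
  have hLim : ∀ p : ℂ × ℂ, |p.1.im| < a → ‖p.2‖ < r₂ → |(L p).im| < c := by
    intro p h1 h2
    have h5 := abs_im_le_norm (L p - p.1)
    rw [← dist_eq_norm, sub_im] at h5
    have h6 := abs_lt.1 (lt_of_le_of_lt h5 (hL p h1 h2).1)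
    have h7 := abs_lt.1 h1
    exact abs_lt.2 ⟨by linarith, by linarith⟩
  have hopen : ∀ p : ℂ × ℂ, |p.1.im| < a → ‖p.2‖ < r₂ →
      ∀ᶠ q : ℂ × ℂ in 𝓝 p, |q.1.im| < a ∧ ‖q.2‖ < r₂ := by
    intro p h1 h2
    have h4 : ContinuousAt (fun q : ℂ × ℂ => |q.1.im|) p := by fun_prop
    have h5 : ContinuousAt (fun q : ℂ × ℂ => ‖q.2‖) p := by fun_prop
    exact (h4.eventually (gt_mem_nhds h1)).and (h5.eventually (gt_mem_nhds h2))
  have hFan : ∀ p : ℂ × ℂ, |p.1.im| < a → ‖p.2‖ < r₂ → AnalyticAt ℂ F p := by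
    intro p h1 h2
    exact hE.an p ⟨abs_lt.1 (by linarith), mem_ball_zero_iff.2 (by linarith)⟩
  have hLan : ∀ p : ℂ × ℂ, |p.1.im| < a → ‖p.2‖ < r₂ → AnalyticAt ℂ L p := by
    intro p h1 h2
    obtain ⟨h3, h4⟩ := hL p h1 h2
    have h5 := hLim p h1 h2
    obtain ⟨g, hg1, hg2, hg3, hg4⟩ := le_loc (hgan (L p) h5) (hgd (L p) h5)
    have hg1' : AnalyticAt ℂ g (F p) := by
      rw [← h4]
      exact hg1
    have h6 : AnalyticAt ℂ (fun q => g (F q)) p :=
      AnalyticAt.fun_comp (g := g) (f := F) hg1' (hFan p h1 h2)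
    refine h6.congr ?_
    have h7 : ContinuousAt (fun q : ℂ × ℂ => dist (g (F q)) q.1) p :=
      h6.continuousAt.dist continuousAt_fst
    have h8 : dist (g (F p)) p.1 < η := by
      rw [← h4]
      show dist (g ((fun s => F (s, 0)) (L p))) p.1 < η
      rw [hg2]
      exact h3
    have hg3' : ∀ᶠ z in 𝓝 (F p), F (g z, 0) = z := by
      rw [← h4]
      exact hg3
    filter_upwards [hopen p h1 h2, h7.eventually (gt_mem_nhds h8),
      (hFan p h1 h2).continuousAt.eventually hg3'] with q hq1 hq2 hq3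
    exact (hLu q hq1.1 hq1.2 _ hq2 hq3).symm
  refine ⟨a, r₂, ha0, by linarith, hr₂, hr₂c, L, ?_, ?_, ?_⟩
  · rintro p ⟨hp1, hp2⟩
    exact hLan p (abs_lt.2 hp1) (mem_ball_zero_iff.1 hp2)
  · rintro p ⟨hp1, hp2⟩
    have h1 : |p.1.im| < a := abs_lt.2 hp1
    have h2 : ‖p.2‖ < r₂ := mem_ball_zero_iff.1 hp2
    obtain ⟨h3, h4⟩ := hL p h1 h2
    have h5 := hLim p h1 h2
    have hpD : p ∈ St (-c) c ×ˢ ball (0:ℂ) c :=
      ⟨abs_lt.1 (by linarith), mem_ball_zero_iff.2 (by linarith)⟩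
    refine ⟨h5, ?_, ?_, ?_, h4, ?_⟩
    · refine hLu (p.1 + 1, p.2) (by simpa using h1) h2 _ ?_ ?_
      · show dist (L p + 1) (p.1 + 1) < η
        rw [dist_add_right]
        exact h3
      · rw [hper0 _ h5, h4]
        exact (hE.per p hpD).symm
    · refine hLu (p.1, -p.2) h1 (by simpa using h2) _ h3 ?_
      rw [h4]
      exact (hE.even p hpD).symm
    · refine hLu (conj p.1, conj p.2) (by simpa using h1) (by simpa using h2) _ ?_ ?_
      · show dist (conj (L p)) (conj p.1) < η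
        rw [dist_conj_conj]
        exact h3
      · have h6 := hE.refl p hpD
        have h7 := hE.refl (L p, 0) (hmem0 _ h5)
        have h8 : F (conj (L p), conj (0:ℂ)) * conj (F (L p, 0)) = 1 := h7
        rw [map_zero, h4] at h8
        have h9 : conj (F p) ≠ 0 := right_ne_zero_of_mul_eq_one h6
        exact mul_right_cancel₀ h9 (h8.trans h6.symm)
    · have hNev := sl_N hE (le_DK hE (p := p) (by linarith) (by linarith))
      have hs0 : ∀ᶠ s in 𝓝[≠] p.1, |s.im| < a := by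
        have h6 : ContinuousAt (fun s : ℂ => |s.im|) p.1 := by fun_prop
        exact nhdsWithin_le_nhds (h6.eventually (gt_mem_nhds h1))
      filter_upwards [hNev, hs0] with s hs1 hs2
      have hq1 : |((s, p.2) : ℂ × ℂ).1.im| < a := hs2
      have hq3 := hLim (s, p.2) hs2 h2
      have hq4 := (hL (s, p.2) hs2 h2).2
      have hslG : ∀ x : ℂ, |x.im| < c → sl G p.2 x = F (x, p.2) := fun x hx =>
        le_slG hE hx (by linarith)
      refine ⟨?_, ?_⟩
      · rw [hslG s (by linarith), le_slG hE hq3 (by rw [norm_zero]; linarith)]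
        exact hq4.symm
      · have hsl : sl G p.2 =ᶠ[𝓝 s] fun x => F (x, p.2) := by
          have h6 : ContinuousAt (fun s : ℂ => |s.im|) s := by fun_prop
          filter_upwards [h6.eventually (gt_mem_nhds (show |s.im| < c by linarith))] with x hx
          exact hslG x hx
        have hcomp : ∀ᶠ x in 𝓝 s, F (x, p.2) = (fun t => F (t, 0)) (L (x, p.2)) := by
          have h6 : ContinuousAt (fun s : ℂ => |s.im|) s := by fun_prop
          filter_upwards [h6.eventually (gt_mem_nhds hs2)] with x hx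
          exact (hL (x, p.2) hx h2).2.symm
        have hlan : AnalyticAt ℂ (fun x => L (x, p.2)) s := le_slice (hLan (s, p.2) hs2 h2)
        obtain ⟨hd1, hd2⟩ := le_chain (g := fun t => F (t, 0)) (l := fun x => L (x, p.2))
          (f := fun x => F (x, p.2)) (hgan _ hq3) hlan hcomp
        obtain ⟨ho1, ho2⟩ := MP_ae5b4e_an_MERO.Dat.ode hE.toDat (t := L (s, p.2)) (abs_lt.1 hq3)
        have hdt : deriv (fun x => F (x, p.2)) s ≠ 0 :=
          hE.dt (s, p.2) ⟨abs_lt.1 (show |s.im| < c by linarith), mem_ball_zero_iff.2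
            (show ‖p.2‖ < c by linarith)⟩
        have hl0 : deriv (fun x => L (x, p.2)) s ≠ 0 := by
          intro h0
          rw [hd1, h0, mul_zero] at hdt
          exact hdt rfl
        rw [hs1, hsl.deriv.deriv_eq, hsl.deriv_eq, le_slK hE (by linarith) (by linarith), ← hq4,
          ho2, hd2, hd1]
        have ho1' : deriv (fun t => F (t, 0)) (L (s, p.2)) ≠ 0 := ho1
        field_simp
        ring
  · intro t ht
    have h1 : |t.im| < a := abs_lt.2 ht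
    exact hLu (t, 0) h1 (by simpa using hr₂) t (by simpa using hη0) rfl

/-- the label near the real axis -/
theorem label_base (hN : NBd k F c h G) :
    ∃ a R : ℝ, 0 < a ∧ a ≤ c / 2 ∧ 0 < R ∧ R ≤ c / 4 ∧ ∃ L : ℂ × ℂ → ℂ,
      AnalyticOnNhd ℂ L (St (-a) a ×ˢ ball 0 R) ∧
      (∀ p ∈ St (-a) a ×ˢ ball (0:ℂ) R, |(L p).im| < c ∧ L (p.1 + 1, p.2) = L p + 1 ∧
        L (p.1, -p.2) = L p ∧ L (conj p.1, conj p.2) = conj (L p) ∧ F (L p, 0) = F p ∧
        LabAt (sl G 0) (sl G p.2) (sl (NN G) p.2) (fun t => L (t, p.2)) p.1) ∧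
      ∀ t ∈ St (-a) a, L (t, 0) = t := label_base_conE hN.toConE

end Pool.Agent.MP_ae5b4e_an_NBT
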