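import Mathlib
import Pool.Agent.Lib.MP_ae5b4e_an_NBT.LabC
import Pool.Agent.Lib.MP_ae5b4e_an_NBT.LabE

/-!
# MP_ae5b4e_an, project NB: the label on the domain of `K`, common part
-/

noncomputable section

namespace Pool.Agent.MP_ae5b4e_an_NBT

open Complex Set Filter Topology Metric
open scoped ComplexConjugate

variable {k : ℂ → ℂ} {F G : ℂ × ℂ → ℂ} {c h : ℝ}

/-! ### Slices and the period -/

/-- slices and the translation `t ↦ t + 1` -/
theorem labelC_sl_shift (f : ℂ × ℂ → ℂ) (ρ t : ℂ) :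
    sl (fun q => f (q.1 + 1, q.2)) ρ t = sl f ρ (t + 1) := by
  show nfM (fun q => f (q.1 + 1, q.2)) (t, ρ) = nfM f (t + 1, ρ)
  by_cases h1 : ∃ C : ℂ × ℂ → ℂ, AnalyticAt ℂ C (t + 1, ρ) ∧ EqM f C (t + 1, ρ)
  · obtain ⟨C, hC, hfC⟩ := h1
    rw [nfM_eq hC hfC]
    have h2 : EqM (fun q => f (q.1 + 1, q.2)) (fun q => C (q.1 + 1, q.2)) (t, ρ) :=
      EqM.shift (h := fun _ => 1) (differentiable_const _) hfC
    have h3 : AnalyticAt ℂ (fun q : ℂ × ℂ => C (q.1 + 1, q.2)) (t, ρ) :=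
      AnalyticAt.fun_comp (g := C) (f := fun q : ℂ × ℂ => (q.1 + 1, q.2)) hC
        ((analyticAt_fst.add analyticAt_const).prod analyticAt_snd)
    exact nfM_eq h3 h2
  · have h2 : ¬ ∃ C : ℂ × ℂ → ℂ, AnalyticAt ℂ C (t, ρ) ∧
        EqM (fun q => f (q.1 + 1, q.2)) C (t, ρ) := by
      rintro ⟨C, hC, hfC⟩
      apply h1
      have e1 : ((t + 1 : ℂ) + (fun _ : ℂ => (-1 : ℂ)) ρ, ρ) = ((t, ρ) : ℂ × ℂ) := by
        show ((t + 1 + -1 : ℂ), ρ) = (t, ρ)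
        rw [add_neg_cancel_right]
      have h3 := EqM.shift (h := fun _ => (-1 : ℂ)) (differentiable_const _)
        (p := (t + 1, ρ)) (f := fun q => f (q.1 + 1, q.2)) (g := C) (by
          show EqM _ _ ((t + 1 : ℂ) + (fun _ : ℂ => (-1 : ℂ)) ρ, ρ)
          rw [e1]
          exact hfC)
      refine ⟨fun q => C (q.1 + -1, q.2), ?_, ?_⟩
      · refine AnalyticAt.fun_comp (g := C) (f := fun q : ℂ × ℂ => (q.1 + -1, q.2)) ?_
          ((analyticAt_fst.add analyticAt_const).prod analyticAt_snd)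
        show AnalyticAt ℂ C (t + 1 + -1, ρ)
        rw [add_neg_cancel_right]
        exact hC
      · refine EqM.trans (EqM.of_eventuallyEq (Eventually.of_forall fun q => ?_)) h3
        show f q = f (q.1 + -1 + 1, q.2)
        rw [neg_add_cancel_right]
    unfold nfM
    rw [dif_neg h1, dif_neg h2]

/-- the limit curve has period `1` -/
theorem labelC_per (hE : ConE k F c h G) {t : ℂ} (ht : |t.im| < h) :
    sl G 0 (t + 1) = sl G 0 t := by
  have h1 := hE.perG (t, 0) (DK_shift hE.toCon (mem_DK_zero hE ht)).1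
  rw [← labelC_sl_shift]
  exact (sl_congr h1).self_of_nhds

/-! ### Values near the base -/

private lemma lc_eqM_plus {G G' : ℂ × ℂ → ℂ} {p : ℂ × ℂ} (h : EqM G G' (p.1 + p.2, p.2)) :
    EqM (fun q : ℂ × ℂ => G (q.1 + q.2, q.2)) (fun q : ℂ × ℂ => G' (q.1 + q.2, q.2)) p :=
  EqM.shift (h := fun z => z) differentiable_id h

private lemma lc_eqM_minus {G G' : ℂ × ℂ → ℂ} {p : ℂ × ℂ} (h : EqM G G' (p.1 - p.2, p.2)) :
    EqM (fun q : ℂ × ℂ => G (q.1 - q.2, q.2)) (fun q : ℂ × ℂ => G' (q.1 - q.2, q.2)) p := by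
  have h1 : EqM G G' (p.1 + (fun z : ℂ => -z) p.2, p.2) := by
    rw [sub_eq_add_neg] at h
    exact h
  have h2 := EqM.shift (h := fun z => -z) differentiable_id.neg h1
  have h3 : ∀ G : ℂ × ℂ → ℂ, (fun q : ℂ × ℂ => G (q.1 + (fun z : ℂ => -z) q.2, q.2)) =
      fun q : ℂ × ℂ => G (q.1 - q.2, q.2) := by
    intro G
    funext q
    rw [sub_eq_add_neg]
  rw [h3 G, h3 G'] at h2
  exact h2

private lemma lc_eqM_KF {G G' : ℂ × ℂ → ℂ} {p : ℂ × ℂ} (h0 : EqM G G' p)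
    (h1 : EqM G G' (p.1 + p.2, p.2)) (h2 : EqM G G' (p.1 - p.2, p.2)) :
    EqM (KF G) (KF G') p :=
  EqM.map₂ (fun x y => x + y)
    (EqM.map₂ (fun x y => (x - y)⁻¹) (lc_eqM_plus h1) h0)
    (EqM.map₂ (fun x y => (x - y)⁻¹) (lc_eqM_minus h2) h0)

private lemma lc_den (p : ℂ × ℂ) : Den (fun q : ℂ × ℂ => q.2) p := by
  refine ⟨analyticAt_snd, fun h1 => ?_⟩
  have h2 : Tendsto (fun z : ℂ => (p.1, z)) (𝓝[≠] p.2) (𝓝 p) := by
    have h3 : Continuous fun z : ℂ => (p.1, z) := by fun_prop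
    exact (h3.tendsto p.2).mono_left nhdsWithin_le_nhds
  have h4 : ∀ᶠ z in 𝓝[≠] p.2, z = 0 := h2.eventually h1
  have h5 : ∀ᶠ z in 𝓝[≠] p.2, z ≠ (0 : ℂ) := by
    by_cases h0 : p.2 = 0
    · rw [h0]
      exact self_mem_nhdsWithin
    · exact nhdsWithin_le_nhds (isOpen_ne.mem_nhds h0)
  obtain ⟨z, hz1, hz2⟩ := (h4.and h5).exists
  exact hz2 hz1

private lemma lc_slG (hE : ConE k F c h G) {s ρ : ℂ} (hs : |s.im| < c) (hρ : ‖ρ‖ < c / 4) :
    sl G ρ s = F (s, ρ) := by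
  have hc := hE.pos
  have h1 : (s, ρ) ∈ St (-c) c ×ˢ ball (0:ℂ) (c / 4) :=
    ⟨abs_lt.1 hs, mem_ball_zero_iff.2 hρ⟩
  have h2 := (sl_congr (hE.eqG _ h1)).self_of_nhds
  rw [h2]
  refine sl_of_analyticAt (hE.an (s, ρ) ⟨abs_lt.1 hs, mem_ball_zero_iff.2 ?_⟩)
  linarith

/-- `K = k ∘ F` near the base -/
private lemma lc_K (hE : ConE k F c h G) {s ρ : ℂ} (hs : |s.im| < c / 2) (hρ : ‖ρ‖ < c / 4) :
    EqM (KF G) (fun q => k (F q)) (s, ρ) ∧ AnalyticAt ℂ (fun q => k (F q)) (s, ρ) := by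
  have hc := hE.pos
  have hρi := abs_im_le_norm ρ
  have hs' := abs_lt.1 hs
  have hρ' := abs_lt.1 (lt_of_le_of_lt hρi hρ)
  have hρb : ρ ∈ ball (0:ℂ) (c / 4) := mem_ball_zero_iff.2 hρ
  have hmem : (s, ρ) ∈ St (-c) c ×ˢ ball (0:ℂ) c :=
    ⟨⟨by show -c < s.im; linarith, by show s.im < c; linarith⟩, mem_ball_zero_iff.2 (by linarith)⟩
  have h1 : EqM (KF G) (KF F) (s, ρ) := by
    refine lc_eqM_KF (hE.eqG _ ⟨⟨?_, ?_⟩, hρb⟩) (hE.eqG _ ⟨⟨?_, ?_⟩, hρb⟩)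
      (hE.eqG _ ⟨⟨?_, ?_⟩, hρb⟩)
    · show -c < s.im
      linarith
    · show s.im < c
      linarith
    · show -c < (s + ρ).im
      rw [add_im]
      linarith
    · show (s + ρ).im < c
      rw [add_im]
      linarith
    · show -c < (s - ρ).im
      rw [sub_im]
      linarith
    · show (s - ρ).im < c
      rw [sub_im]
      linarith
  have h2 : EqM (KF F) (fun q => k (F q)) (s, ρ) := by
    refine ⟨fun q => q.2, lc_den _, ?_⟩
    have h3 : ∀ᶠ q : ℂ × ℂ in 𝓝 (s, ρ), |q.1.im| < c / 2 ∧ ‖q.2‖ < c / 4 := by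
      have h4 : ContinuousAt (fun q : ℂ × ℂ => |q.1.im|) (s, ρ) := by fun_prop
      have h5 : ContinuousAt (fun q : ℂ × ℂ => ‖q.2‖) (s, ρ) := by fun_prop
      exact (h4.eventually (gt_mem_nhds hs)).and (h5.eventually (gt_mem_nhds hρ))
    filter_upwards [h3] with q hq hq0
    obtain ⟨hq1, hq2⟩ := hq
    have hq3 := abs_lt.1 hq1
    have hq4 := abs_lt.1 (lt_of_le_of_lt (abs_im_le_norm q.2) hq2)
    refine hE.fe q ⟨⟨?_, ?_⟩, mem_ball_zero_iff.2 ?_⟩ hq0 ⟨?_, ?_⟩ ⟨?_, ?_⟩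
    · show -c < q.1.im
      linarith
    · show q.1.im < c
      linarith
    · linarith
    · show -c < (q.1 + q.2).im
      rw [add_im]
      linarith
    · show (q.1 + q.2).im < c
      rw [add_im]
      linarith
    · show -c < (q.1 - q.2).im
      rw [sub_im]
      linarith
    · show (q.1 - q.2).im < c
      rw [sub_im]
      linarith
  have h3 : AnalyticAt ℂ (fun q => k (F q)) (s, ρ) :=
    AnalyticAt.fun_comp (g := k) (f := F) (hE.reg _ hmem) (hE.an _ hmem)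
  exact ⟨h1.trans h2, h3⟩

/-- `K` is meromorphic near the base -/
private lemma lc_merK (hE : ConE k F c h G) :
    Mer (KF F) (St (-(c / 2)) (c / 2) ×ˢ ball 0 (c / 4)) := by
  have hc := hE.pos
  have h1 : Mer F (St (-c) c ×ˢ ball 0 (c / 4)) := by
    refine Mer.of_analytic fun q hq => hE.an q ⟨hq.1, ?_⟩
    exact ball_subset_ball (by linarith) hq.2
  exact mer_KF (by linarith) h1

/-! ### The symmetries of the domain -/

private lemma lc_conj_ball {z : ℂ} {r : ℝ} (hz : z ∈ ball (0:ℂ) r) : conj z ∈ ball (0:ℂ) r := by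
  rw [mem_ball_zero_iff] at hz ⊢
  rwa [norm_conj]

private lemma lc_DK_conj {R : ℝ} {p : ℂ × ℂ} (hp : p ∈ DK F c R) :
    ((conj p.1, conj p.2) : ℂ × ℂ) ∈ DK F c R := by
  obtain ⟨h1, ⟨y, hy1, hy2⟩, y', hy3, hy4⟩ := hp
  refine ⟨lc_conj_ball h1, ⟨y', ?_, hy4⟩, y, ?_, ?_⟩
  · show (conj p.1).im < y'
    rw [conj_im]
    exact hy3
  · show -(conj p.1).im < y
    rw [conj_im, neg_neg]
    exact hy1
  · show ExtM (KF F) (c / 2) (c / 4) y (conj (conj p.2))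
    rw [conj_conj]
    exact hy2

private def lc_neg : (ℂ × ℂ) ≃ₜ (ℂ × ℂ) where
  toFun p := (p.1, -p.2)
  invFun p := (p.1, -p.2)
  left_inv p := by simp
  right_inv p := by simp
  continuous_toFun := by fun_prop
  continuous_invFun := by fun_prop

private lemma lc_neg_an (p : ℂ × ℂ) : AnalyticAt ℂ lc_neg p := by
  change AnalyticAt ℂ (fun p : ℂ × ℂ => (p.1, -p.2)) p
  exact AnalyticAt.prod analyticAt_fst analyticAt_snd.neg

private lemma lc_ball_neg {ρ z : ℂ} {δ : ℝ} (h : z ∈ ball (-ρ) δ) : -z ∈ ball ρ δ := by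
  rw [mem_ball, dist_eq_norm] at h ⊢
  rwa [show -z - ρ = -(z - -ρ) by ring, norm_neg]

private lemma lc_ext_neg {f : ℂ × ℂ → ℂ} {a R y : ℝ} {ρ : ℂ}
    (he : ∀ p ∈ St (-a) a ×ˢ ball (0:ℂ) R, f (p.1, -p.2) = f p) (h : ExtM f a R y ρ) :
    ExtM f a R y (-ρ) := by
  obtain ⟨δ, hδ, hb, G, hG, hE⟩ := h
  have hb' : ball (-ρ) δ ⊆ ball 0 R := by
    intro z hz
    have h1 := hb (lc_ball_neg hz)
    rw [mem_ball_zero_iff] at h1 ⊢
    rwa [norm_neg] at h1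
  refine ⟨δ, hδ, hb', fun q => G (q.1, -q.2), ?_, ?_⟩
  · rintro p ⟨h1, h2⟩
    exact MerAt.comp lc_neg (lc_neg_an p) (hG (p.1, -p.2) ⟨h1, lc_ball_neg h2⟩)
  · rintro p ⟨h1, h2⟩
    have h3 : EqM (fun q : ℂ × ℂ => G (q.1, -q.2)) (fun q : ℂ × ℂ => f (q.1, -q.2)) p :=
      EqM.comp lc_neg (lc_neg_an p) (hE (p.1, -p.2) ⟨h1, lc_ball_neg h2⟩)
    refine h3.trans (EqM.of_eventuallyEq ?_)
    have hop : IsOpen (St (-a) a ×ˢ ball (0:ℂ) R) := (isOpen_St _ _).prod isOpen_ball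
    have hm : p ∈ St (-a) a ×ˢ ball (0:ℂ) R := ⟨⟨h1.1, h1.2.trans_le (min_le_left _ _)⟩, hb' h2⟩
    filter_upwards [hop.mem_nhds hm] with q hq
    exact he q hq

private lemma lc_KF_even (hE : ConE k F c h G) :
    ∀ p ∈ St (-(c / 2)) (c / 2) ×ˢ ball (0:ℂ) (c / 4), KF F (p.1, -p.2) = KF F p := by
  rintro ⟨t, ρ⟩ ⟨ht, hρ⟩
  have hc := hE.pos
  have ht1 : -(c / 2) < t.im := ht.1
  have ht2 : t.im < c / 2 := ht.2
  have hρ' : ‖ρ‖ < c / 4 := mem_ball_zero_iff.1 hρ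
  have hρi := abs_lt.1 (lt_of_le_of_lt (abs_im_le_norm ρ) hρ')
  have hρb : ρ ∈ ball (0:ℂ) c := mem_ball_zero_iff.2 (by linarith)
  have e0 : F (t, -ρ) = F (t, ρ) :=
    hE.even (t, ρ) ⟨⟨by show -c < t.im; linarith, by show t.im < c; linarith⟩, hρb⟩
  have e1 : F (t + ρ, -ρ) = F (t + ρ, ρ) := by
    refine hE.even (t + ρ, ρ) ⟨⟨?_, ?_⟩, hρb⟩
    · show -c < (t + ρ).im
      rw [add_im]
      linarith
    · show (t + ρ).im < c
      rw [add_im]
      linarith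
  have e2 : F (t - ρ, -ρ) = F (t - ρ, ρ) := by
    refine hE.even (t - ρ, ρ) ⟨⟨?_, ?_⟩, hρb⟩
    · show -c < (t - ρ).im
      rw [sub_im]
      linarith
    · show (t - ρ).im < c
      rw [sub_im]
      linarith
  show (F (t + -ρ, -ρ) - F (t, -ρ))⁻¹ + (F (t - -ρ, -ρ) - F (t, -ρ))⁻¹ =
    (F (t + ρ, ρ) - F (t, ρ))⁻¹ + (F (t - ρ, ρ) - F (t, ρ))⁻¹
  rw [← sub_eq_add_neg, sub_neg_eq_add, e0, e1, e2, add_comm]

private lemma lc_DK_neg (hE : ConE k F c h G) {R : ℝ} {p : ℂ × ℂ} (hp : p ∈ DK F c R) :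
    ((p.1, -p.2) : ℂ × ℂ) ∈ DK F c R := by
  obtain ⟨h1, ⟨y, hy1, hy2⟩, y', hy3, hy4⟩ := hp
  refine ⟨?_, ⟨y, hy1, lc_ext_neg (lc_KF_even hE) hy2⟩, y', hy3, ?_⟩
  · rw [mem_ball_zero_iff] at h1 ⊢
    rwa [norm_neg]
  · show ExtM (KF F) (c / 2) (c / 4) y' (conj (-p.2))
    rw [map_neg]
    exact lc_ext_neg (lc_KF_even hE) hy4

private lemma lc_cc : Continuous fun q : ℂ × ℂ => ((conj q.1, conj q.2) : ℂ × ℂ) :=
  (continuous_conj.comp continuous_fst).prodMk (continuous_conj.comp continuous_snd)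

private lemma lc_analytic {A : ℂ × ℂ → ℂ} {p : ℂ × ℂ}
    (h : AnalyticAt ℂ A (conj p.1, conj p.2)) :
    AnalyticAt ℂ (fun q : ℂ × ℂ => conj (A (conj q.1, conj q.2))) p := by
  obtain ⟨V, hV, hVo, hpV⟩ := _root_.eventually_nhds_iff.1 h.eventually_analyticAt
  have hU : IsOpen ((fun q : ℂ × ℂ => ((conj q.1, conj q.2) : ℂ × ℂ)) ⁻¹' V) :=
    hVo.preimage lc_cc
  refine Pool.Agent.SCV.osgood _ hU _ ?_ ?_ ?_ p hpV
  · intro q hq
    have h1 : ContinuousAt A (conj q.1, conj q.2) := (hV _ hq).continuousAt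
    have h2 : ContinuousAt (fun q : ℂ × ℂ => A (conj q.1, conj q.2)) q :=
      ContinuousAt.comp (f := fun q : ℂ × ℂ => ((conj q.1, conj q.2) : ℂ × ℂ)) h1
        lc_cc.continuousAt
    exact (continuous_conj.continuousAt.comp h2).continuousWithinAt
  · intro q hq
    have h1 : DifferentiableAt ℂ A (conj q.1, conj q.2) := (hV _ hq).differentiableAt
    have h2 : DifferentiableAt ℂ (fun x : ℂ => A (x, conj q.2)) (conj q.1) :=
      DifferentiableAt.comp (f := fun x : ℂ => (x, conj q.2)) (conj q.1) h1 (by fun_prop)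
    have h3 := h2.conj_conj
    rw [conj_conj] at h3
    exact h3
  · intro q hq
    have h1 : DifferentiableAt ℂ A (conj q.1, conj q.2) := (hV _ hq).differentiableAt
    have h2 : DifferentiableAt ℂ (fun x : ℂ => A (conj q.1, x)) (conj q.2) :=
      DifferentiableAt.comp (f := fun x : ℂ => (conj q.1, x)) (conj q.2) h1 (by fun_prop)
    have h3 := h2.conj_conj
    rw [conj_conj] at h3
    exact h3

/-! ### Compositions -/

/-- a meromorphic function of one variable composed with an analytic function -/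
private lemma lc_mer_comp {g : ℂ → ℂ} {L : ℂ × ℂ → ℂ} {p : ℂ × ℂ} (hL : AnalyticAt ℂ L p)
    (hg : MeromorphicAt g (L p)) (hne : ¬ ∀ᶠ q in 𝓝 p, L q - L p = 0) :
    MerAt (fun q => g (L q)) p := by
  obtain ⟨n, hn⟩ := hg
  have hD : Den (fun q => L q - L p) p := ⟨hL.sub analyticAt_const, hne⟩
  have hDn : ∀ m : ℕ, Den (fun q => (L q - L p) ^ m) p := by
    intro m
    induction m with
    | zero =>
      simp only [pow_zero]
      exact den_one p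
    | succ m ih =>
      simp only [pow_succ]
      exact ih.mul hD
  refine ⟨fun q => (L q - L p) ^ n • g (L q), fun q => (L q - L p) ^ n, ?_, hDn n, ?_⟩
  · exact AnalyticAt.fun_comp (g := fun z => (z - L p) ^ n • g z) (f := L) hn hL
  · refine Eventually.of_forall fun q hq => ?_
    show g (L q) = ((L q - L p) ^ n • g (L q)) / (L q - L p) ^ n
    rw [smul_eq_mul, mul_div_cancel_left₀ _ hq]

/-- a locally univalent map composed with an analytic function -/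
private lemma lc_lu_comp {g : ℂ → ℂ} {L : ℂ × ℂ → ℂ} {p : ℂ × ℂ} (hL : AnalyticAt ℂ L p)
    {S : Set ℂ} (hg : LU g S) (hS : L p ∈ S) : MerAt (fun q => g (L q)) p := by
  rcases hg _ hS with ⟨h1, -⟩ | ⟨-, h1, -⟩
  · exact merAt_of_analyticAt (AnalyticAt.fun_comp (g := g) (f := L) h1 hL)
  · have h2 : MerAt (fun q => (g (L q))⁻¹) p :=
      merAt_of_analyticAt (AnalyticAt.fun_comp (g := fun w => (g w)⁻¹) (f := L) h1 hL)
    have h3 := h2.inv
    simpa only [inv_inv] using h3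

/-! ### The label -/

/-- the domain of `K` from the height -/
theorem labelC_mem (hE : ConE k F c h G) {a R y : ℝ} (hac : a ≤ c / 2) (hR : R ≤ c / 4)
    {ρ : ℂ} (hρ : ρ ∈ ball (0:ℂ) R) (hy : ExtM (KF F) (c / 2) (c / 4) y ρ) {t : ℂ}
    (ht : t ∈ St (-a) y) : ((t, ρ) : ℂ × ℂ) ∈ DK F c R := by
  refine ⟨hρ, ⟨y, ht.2, hy⟩, c / 2, ?_, extM_base (lc_merK hE) ?_⟩
  · show -t.im < c / 2
    have := ht.1
    linarith
  · exact lc_conj_ball (ball_subset_ball hR hρ)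

/-- the domain of `K` is the same with smaller balls of parameters -/
theorem labelC_DK_mono {R R' : ℝ} (hR : R ≤ R') {p : ℂ × ℂ} (hp : p ∈ DK F c R) :
    p ∈ DK F c R' := ⟨ball_subset_ball hR hp.1, hp.2⟩

theorem labelC_core (hE : ConE k F c h G) {a R : ℝ} (ha : 0 < a) (hac : a ≤ c / 2) (hR0 : 0 < R)
    (hR : R ≤ c / 4) {L₁ : ℂ × ℂ → ℂ} (hL₁ : AnalyticOnNhd ℂ L₁ (St (-a) a ×ˢ ball 0 R))
    (hb : ∀ p ∈ St (-a) a ×ˢ ball (0:ℂ) R, |(L₁ p).im| < c ∧ L₁ (p.1, -p.2) = L₁ p ∧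
      L₁ (conj p.1, conj p.2) = conj (L₁ p) ∧ F (L₁ p, 0) = F p)
    (hb0 : ∀ t ∈ St (-a) a, L₁ (t, 0) = t) {S : Set ℂ} (hLU : LU (sl G 0) S)
    (hSc : ∀ z ∈ S, conj z ∈ S) (hSK : ∀ z ∈ S, MeromorphicAt (sl (KF G) 0) z)
    (hst : ∀ ρ ∈ ball (0:ℂ) R, ∀ y, a ≤ y → ExtM (KF F) (c / 2) (c / 4) y ρ →
      ∃ L : ℂ → ℂ, AnalyticOnNhd ℂ L (St (-a) y) ∧ MapsTo L (St (-a) y) S ∧
        (∀ t ∈ St (-a) a, L t = L₁ (t, ρ)) ∧ ∀ t ∈ St (-a) y, L (t + 1) = L t + 1)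
    (hjt : ∀ (L : ℂ × ℂ → ℂ) (W : Set ℂ) (y : ℝ), IsOpen W → a ≤ y →
      (∀ ρ ∈ W, AnalyticOnNhd ℂ (fun t => L (t, ρ)) (St (-a) y)) →
      (∀ p ∈ St (-a) y ×ˢ W, L p ∈ S) → AnalyticOnNhd ℂ L (St (-a) a ×ˢ W) →
      AnalyticOnNhd ℂ L (St (-a) y ×ˢ W)) :
    ∃ L : ℂ × ℂ → ℂ, AnalyticOnNhd ℂ L (DK F c R) ∧
      (∀ p ∈ DK F c R, L p ∈ S ∧ L (p.1 + 1, p.2) = L p + 1 ∧ L (p.1, -p.2) = L p ∧
        L (conj p.1, conj p.2) = conj (L p) ∧ EqM G (fun q => sl G 0 (L q)) p ∧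
        EqM (KF G) (fun q => sl (KF G) 0 (L q)) p) ∧
      ∀ t : ℂ, ((t, 0) : ℂ × ℂ) ∈ DK F c R → L (t, 0) = t := by
  classical
  have hc := hE.pos
  have hKm := lc_merK hE
  have h0a : (0:ℂ) ∈ St (-a) a := ⟨by show -a < (0:ℂ).im; simpa using ha, by
    show (0:ℂ).im < a; simpa using ha⟩
  obtain ⟨P, hP⟩ : ∃ P : ℂ → ℝ → Prop, P = fun ρ y =>
    ρ ∈ ball (0:ℂ) R ∧ a ≤ y ∧ ExtM (KF F) (c / 2) (c / 4) y ρ := ⟨_, rfl⟩
  have hex : ∀ ρ y, ∃ L : ℂ → ℂ, P ρ y → (AnalyticOnNhd ℂ L (St (-a) y) ∧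
      MapsTo L (St (-a) y) S ∧ (∀ t ∈ St (-a) a, L t = L₁ (t, ρ)) ∧
      ∀ t ∈ St (-a) y, L (t + 1) = L t + 1) := by
    intro ρ y
    by_cases h1 : P ρ y
    · rw [hP] at h1
      obtain ⟨L, hL⟩ := hst ρ h1.1 y h1.2.1 h1.2.2
      exact ⟨L, fun _ => hL⟩
    · exact ⟨0, fun h2 => absurd h2 h1⟩
  choose Lc hLc using hex
  have hPa : ∀ ρ ∈ ball (0:ℂ) R, P ρ a := by
    intro ρ hρ
    rw [hP]
    exact ⟨hρ, le_rfl, (extM_base hKm (ball_subset_ball hR hρ)).mono hac⟩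
  -- the upper half
  obtain ⟨Lp, hLp⟩ : ∃ Lp : ℂ × ℂ → ℂ, Lp = fun p =>
    if hp : ∃ y, P p.2 y ∧ p.1.im < y then Lc p.2 hp.choose p.1 else 0 := ⟨_, rfl⟩
  have key : ∀ ρ y, P ρ y → ∀ t ∈ St (-a) y, Lp (t, ρ) = Lc ρ y t := by
    intro ρ y hy t ht
    have hp : ∃ y, P ((t, ρ) : ℂ × ℂ).2 y ∧ ((t, ρ) : ℂ × ℂ).1.im < y := ⟨y, hy, ht.2⟩
    have e1 : Lp (t, ρ) = Lc ρ hp.choose t := by
      rw [hLp]
      exact dif_pos hp
    rw [e1]
    obtain ⟨z, hz⟩ : ∃ z, z = hp.choose := ⟨_, rfl⟩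
    have hz1 : P ρ z := by
      rw [hz]
      exact hp.choose_spec.1
    have hz2 : t.im < z := by
      rw [hz]
      exact hp.choose_spec.2
    rw [← hz]
    have hay : a ≤ y := by
      rw [hP] at hy
      exact hy.2.1
    have haz : a ≤ z := by
      rw [hP] at hz1
      exact hz1.2.1
    obtain ⟨a1, -, a3, -⟩ := hLc ρ y hy
    obtain ⟨b1, -, b3, -⟩ := hLc ρ z hz1
    have hsub1 : St (-a) (min y z) ⊆ St (-a) y :=
      fun s hs => ⟨hs.1, hs.2.trans_le (min_le_left _ _)⟩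
    have hsub2 : St (-a) (min y z) ⊆ St (-a) z :=
      fun s hs => ⟨hs.1, hs.2.trans_le (min_le_right _ _)⟩
    have hsub3 : St (-a) a ⊆ St (-a) (min y z) := fun s hs => ⟨hs.1, hs.2.trans_le (le_min hay haz)⟩
    have hev : Lc ρ z =ᶠ[𝓝 0] Lc ρ y := by
      filter_upwards [(isOpen_St (-a) a).mem_nhds h0a] with s hs
      rw [a3 s hs, b3 s hs]
    exact (b1.mono hsub2).eqOn_of_preconnected_of_eventuallyEq (a1.mono hsub1)
      (convex_St _ _).isPreconnected (hsub3 h0a) hev ⟨ht.1, lt_min ht.2 hz2⟩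
  have hbase : ∀ p ∈ St (-a) a ×ˢ ball (0:ℂ) R, Lp p = L₁ p := by
    rintro ⟨t, ρ⟩ ⟨ht, hρ⟩
    rw [key ρ a (hPa ρ hρ) t ht]
    exact (hLc ρ a (hPa ρ hρ)).2.2.1 t ht
  have hSp : ∀ ρ y, P ρ y → ∀ t ∈ St (-a) y, Lp (t, ρ) ∈ S := by
    intro ρ y hy t ht
    rw [key ρ y hy t ht]
    exact (hLc ρ y hy).2.1 ht
  have hperp : ∀ ρ y, P ρ y → ∀ t ∈ St (-a) y, Lp (t + 1, ρ) = Lp (t, ρ) + 1 := by
    intro ρ y hy t ht
    have ht1 : t + 1 ∈ St (-a) y := by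
      refine ⟨?_, ?_⟩
      · show -a < (t + 1).im
        rw [add_im, one_im, add_zero]
        exact ht.1
      · show (t + 1).im < y
        rw [add_im, one_im, add_zero]
        exact ht.2
    rw [key ρ y hy t ht, key ρ y hy _ ht1]
    exact (hLc ρ y hy).2.2.2 t ht
  have hanp : ∀ ρ y, P ρ y → ∀ t ∈ St (-a) y, AnalyticAt ℂ Lp (t, ρ) := by
    intro ρ y hy t ht
    have hy' := hy
    rw [hP] at hy'
    obtain ⟨h1, h2, h3⟩ := hy'
    obtain ⟨δ, hδ, hδ1⟩ := Metric.eventually_nhds_iff_ball.1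
      (h3.eventually.and (isOpen_ball.mem_nhds h1))
    have hPW : ∀ ρ' ∈ ball ρ δ, P ρ' y := by
      intro ρ' hρ'
      rw [hP]
      exact ⟨(hδ1 ρ' hρ').2, h2, (hδ1 ρ' hρ').1⟩
    refine hjt Lp (ball ρ δ) y isOpen_ball h2 ?_ ?_ ?_ (t, ρ) ⟨ht, mem_ball_self hδ⟩
    · intro ρ' hρ' s hs
      refine ((hLc ρ' y (hPW ρ' hρ')).1 s hs).congr ?_
      filter_upwards [(isOpen_St (-a) y).mem_nhds hs] with x hx
      exact (key ρ' y (hPW ρ' hρ') x hx).symm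
    · rintro ⟨s, ρ'⟩ ⟨hs, hρ'⟩
      exact hSp ρ' y (hPW ρ' hρ') s hs
    · rintro ⟨s, ρ'⟩ ⟨hs, hρ'⟩
      have h4 : ((s, ρ') : ℂ × ℂ) ∈ St (-a) a ×ˢ ball (0:ℂ) R := ⟨hs, (hδ1 ρ' hρ').2⟩
      refine (hL₁ _ h4).congr ?_
      filter_upwards [((isOpen_St (-a) a).prod isOpen_ball).mem_nhds h4] with q hq
      exact (hbase q hq).symm
  have hup : ∀ p ∈ DK F c R, -a < p.1.im → ∃ y, P p.2 y ∧ p.1 ∈ St (-a) y := by
    rintro ⟨t, ρ⟩ ⟨h1, ⟨y, hy1, hy2⟩, -⟩ h3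
    rcases le_or_gt a y with h4 | h4
    · refine ⟨y, ?_, h3, hy1⟩
      rw [hP]
      exact ⟨h1, h4, hy2⟩
    · exact ⟨a, hPa ρ h1, h3, lt_trans hy1 h4⟩
  -- both halves
  obtain ⟨L, hL⟩ : ∃ L : ℂ × ℂ → ℂ, L = fun p =>
    if -a < p.1.im then Lp p else conj (Lp (conj p.1, conj p.2)) := ⟨_, rfl⟩
  have hLup : ∀ p : ℂ × ℂ, -a < p.1.im → L p = Lp p := by
    intro p hp
    rw [hL]
    exact if_pos hp
  have hLlow : ∀ p : ℂ × ℂ, p.2 ∈ ball (0:ℂ) R → p.1.im < a →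
      L p = conj (Lp (conj p.1, conj p.2)) := by
    intro p hp2 hp1
    by_cases h1 : -a < p.1.im
    · have h2 : p ∈ St (-a) a ×ˢ ball (0:ℂ) R := ⟨⟨h1, hp1⟩, hp2⟩
      have h3 : ((conj p.1, conj p.2) : ℂ × ℂ) ∈ St (-a) a ×ˢ ball (0:ℂ) R := by
        refine ⟨⟨?_, ?_⟩, lc_conj_ball hp2⟩
        · show -a < (conj p.1).im
          rw [conj_im]
          linarith
        · show (conj p.1).im < a
          rw [conj_im]
          linarith
      rw [hLup p h1, hbase p h2, hbase _ h3, (hb p h2).2.2.1, conj_conj]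
    · rw [hL]
      exact if_neg h1
  have hbaseL : ∀ p ∈ St (-a) a ×ˢ ball (0:ℂ) R, L p = L₁ p := by
    rintro p hp
    rw [hLup p hp.1.1, hbase p hp]
  have hcup : ∀ p ∈ DK F c R, p.1.im ≤ -a → ∃ y, P (conj p.2) y ∧ conj p.1 ∈ St (-a) y := by
    intro p hp h1
    refine hup (conj p.1, conj p.2) (lc_DK_conj hp) ?_
    show -a < (conj p.1).im
    rw [conj_im]
    linarith
  have hLan : AnalyticOnNhd ℂ L (DK F c R) := by
    intro p hp
    by_cases h1 : -a < p.1.im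
    · obtain ⟨y, hy1, hy2⟩ := hup p hp h1
      have h2 : AnalyticAt ℂ Lp p := hanp p.2 y hy1 p.1 hy2
      refine h2.congr ?_
      have h3 : ∀ᶠ q : ℂ × ℂ in 𝓝 p, -a < q.1.im := by
        have hcc : Continuous fun q : ℂ × ℂ => q.1.im := by fun_prop
        exact hcc.continuousAt.eventually (lt_mem_nhds h1)
      filter_upwards [h3] with q hq
      exact (hLup q hq).symm
    · push Not at h1
      obtain ⟨y, hy1, hy2⟩ := hcup p hp h1
      have h2 : AnalyticAt ℂ Lp (conj p.1, conj p.2) := hanp (conj p.2) y hy1 (conj p.1) hy2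
      refine (lc_analytic h2).congr ?_
      have h3 : ∀ᶠ q : ℂ × ℂ in 𝓝 p, q.1.im < a := by
        have hcc : Continuous fun q : ℂ × ℂ => q.1.im := by fun_prop
        exact hcc.continuousAt.eventually (gt_mem_nhds (by linarith))
      have h4 : ∀ᶠ q : ℂ × ℂ in 𝓝 p, q.2 ∈ ball (0:ℂ) R :=
        continuous_snd.continuousAt.eventually (isOpen_ball.mem_nhds hp.1)
      filter_upwards [h3, h4] with q hq hq'
      exact (hLlow q hq' hq).symm
  have hLS : ∀ p ∈ DK F c R, L p ∈ S := by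
    intro p hp
    by_cases h1 : -a < p.1.im
    · obtain ⟨y, hy1, hy2⟩ := hup p hp h1
      rw [hLup p h1]
      exact hSp p.2 y hy1 p.1 hy2
    · push Not at h1
      obtain ⟨y, hy1, hy2⟩ := hcup p hp h1
      rw [hLlow p hp.1 (by linarith)]
      exact hSc _ (hSp (conj p.2) y hy1 (conj p.1) hy2)
  have hLper : ∀ p ∈ DK F c R, L (p.1 + 1, p.2) = L p + 1 := by
    intro p hp
    by_cases h1 : -a < p.1.im
    · obtain ⟨y, hy1, hy2⟩ := hup p hp h1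
      rw [hLup p h1, hLup (p.1 + 1, p.2) (by
        show -a < (p.1 + 1).im
        rw [add_im, one_im, add_zero]
        exact h1)]
      exact hperp p.2 y hy1 p.1 hy2
    · push Not at h1
      obtain ⟨y, hy1, hy2⟩ := hcup p hp h1
      rw [hLlow p hp.1 (by linarith), hLlow (p.1 + 1, p.2) hp.1 (by
        show (p.1 + 1).im < a
        rw [add_im, one_im, add_zero]
        linarith)]
      show conj (Lp (conj (p.1 + 1), conj p.2)) = _
      rw [map_add, map_one, hperp (conj p.2) y hy1 (conj p.1) hy2, map_add, map_one]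
  have hLconj : ∀ p ∈ DK F c R, L (conj p.1, conj p.2) = conj (L p) := by
    intro p hp
    rcases lt_or_ge p.1.im a with h1 | h1
    · rw [hLlow p hp.1 h1, conj_conj]
      apply hLup
      show -a < (conj p.1).im
      rw [conj_im]
      linarith
    · rw [hLlow (conj p.1, conj p.2) (lc_conj_ball hp.1) (by
        show (conj p.1).im < a
        rw [conj_im]
        linarith)]
      show conj (Lp (conj (conj p.1), conj (conj p.2))) = _
      rw [conj_conj, conj_conj, hLup p (by linarith)]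
  have hpre : IsPreconnected (DK F c R) := isPreconnected_Dom (half_pos hc) hR hKm
  have h00b : ((0, 0) : ℂ × ℂ) ∈ St (-a) a ×ˢ ball (0:ℂ) R := ⟨h0a, mem_ball_self hR0⟩
  have hbDK : ∀ p ∈ St (-a) a ×ˢ ball (0:ℂ) R, p ∈ DK F c R := by
    rintro ⟨t, ρ⟩ ⟨ht, hρ⟩
    have h1 := hPa ρ hρ
    rw [hP] at h1
    exact labelC_mem hE hac hR hρ h1.2.2 ht
  have h00 := hbDK _ h00b
  have hnb : ∀ᶠ q : ℂ × ℂ in 𝓝 (0, 0), q ∈ St (-a) a ×ˢ ball (0:ℂ) R :=
    ((isOpen_St (-a) a).prod isOpen_ball).mem_nhds h00b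
  have hLeven : ∀ p ∈ DK F c R, L (p.1, -p.2) = L p := by
    have h1 : AnalyticOnNhd ℂ (fun q : ℂ × ℂ => L (q.1, -q.2)) (DK F c R) := by
      intro p hp
      exact AnalyticAt.fun_comp (g := L) (f := fun q : ℂ × ℂ => (q.1, -q.2))
        (hLan _ (lc_DK_neg hE hp)) (analyticAt_fst.prod analyticAt_snd.neg)
    have h2 : (fun q : ℂ × ℂ => L (q.1, -q.2)) =ᶠ[𝓝 (0, 0)] L := by
      filter_upwards [hnb] with q hq
      have hq' : ((q.1, -q.2) : ℂ × ℂ) ∈ St (-a) a ×ˢ ball (0:ℂ) R := by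
        refine ⟨hq.1, ?_⟩
        show -q.2 ∈ ball (0:ℂ) R
        rw [mem_ball_zero_iff, norm_neg]
        exact mem_ball_zero_iff.1 hq.2
      show L (q.1, -q.2) = L q
      rw [hbaseL q hq, hbaseL _ hq', (hb q hq).2.1]
    exact fun p hp => h1.eqOn_of_preconnected_of_eventuallyEq hLan hpre h00 h2 hp
  -- the label is not locally constant
  have hnc : ∀ p ∈ DK F c R, ¬ ∀ᶠ q in 𝓝 p, L q - L p = 0 := by
    rintro ⟨t, ρ⟩ hp h1
    obtain ⟨s1, s2, -, s4⟩ := slice_Dom (half_pos hc) hR hKm hp.1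
    have hV : AnalyticOnNhd ℂ (fun s => L (s, ρ)) {t | (t, ρ) ∈ DK F c R} := by
      intro s hs
      exact AnalyticAt.fun_comp (g := L) (f := fun s : ℂ => (s, ρ)) (hLan _ hs)
        (analyticAt_id.prod analyticAt_const)
    have h2 : (fun s => L (s, ρ)) =ᶠ[𝓝 t] fun _ => L (t, ρ) := by
      have h3 : Tendsto (fun s : ℂ => (s, ρ)) (𝓝 t) (𝓝 (t, ρ)) := by
        have h4 : Continuous fun s : ℂ => (s, ρ) := by fun_prop
        exact h4.tendsto t
      filter_upwards [h3.eventually h1] with s hs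
      exact sub_eq_zero.1 hs
    have h3 : ((t + 1, ρ) : ℂ × ℂ) ∈ DK F c R := s4 t (t + 1) (by simp) hp
    have h4 := hV.eqOn_of_preconnected_of_eventuallyEq (fun _ _ => analyticAt_const)
      s1.isPreconnected (show t ∈ {t | (t, ρ) ∈ DK F c R} from hp) h2 h3
    have h5 : L (t + 1, ρ) = L (t, ρ) + 1 := hLper _ hp
    have h6 : L (t + 1, ρ) = L (t, ρ) := h4
    rw [h6] at h5
    exact one_ne_zero (left_eq_add.1 h5)
  have hcL : ContinuousAt L (0, 0) := (hLan _ h00).continuousAt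
  have hL0 : L (0, 0) = 0 := by
    rw [hbaseL _ h00b]
    exact hb0 0 h0a
  refine ⟨L, hLan, fun p hp => ⟨hLS p hp, hLper p hp, hLeven p hp, hLconj p hp, ?_, ?_⟩, ?_⟩
  · -- the function `F`
    have hG1 : Mer G (DK F c R) := fun q hq =>
      hE.merG q (DK_shift hE.toCon (labelC_DK_mono hR hq)).1
    have hG2 : Mer (fun q => sl G 0 (L q)) (DK F c R) := fun q hq =>
      lc_lu_comp (hLan q hq) hLU (hLS q hq)
    refine Mer.eqM hpre hG1 hG2 h00 ?_ p hp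
    refine (hE.eqG (0, 0) ⟨⟨?_, ?_⟩, mem_ball_self (by linarith)⟩).trans
      (EqM.of_eventuallyEq ?_)
    · show -c < (0:ℂ).im
      simpa using hc
    · show (0:ℂ).im < c
      simpa using hc
    · filter_upwards [hnb] with q hq
      obtain ⟨b1, -, -, b4⟩ := hb q hq
      show F q = sl G 0 (L q)
      rw [hbaseL q hq, lc_slG hE b1 (by rw [norm_zero]; linarith), b4]
  · -- the function `K`
    have hG1 : Mer (KF G) (DK F c R) := fun q hq => mer_KG hE q (labelC_DK_mono hR hq)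
    have hG2 : Mer (fun q => sl (KF G) 0 (L q)) (DK F c R) := fun q hq =>
      lc_mer_comp (hLan q hq) (hSK _ (hLS q hq)) (hnc q hq)
    refine Mer.eqM hpre hG1 hG2 h00 ?_ p hp
    obtain ⟨k1, -⟩ := lc_K hE (s := 0) (ρ := 0) (by rw [zero_im, abs_zero]; linarith)
      (by rw [norm_zero]; linarith)
    refine k1.trans (EqM.of_eventuallyEq ?_)
    have h1 : ∀ᶠ q : ℂ × ℂ in 𝓝 (0, 0), |(L q).im| < c / 2 := by
      have h2 : ContinuousAt (fun q : ℂ × ℂ => |(L q).im|) (0, 0) :=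
        continuous_abs.continuousAt.comp (continuous_im.continuousAt.comp hcL)
      refine h2.eventually (gt_mem_nhds ?_)
      show |(L (0, 0)).im| < c / 2
      rw [hL0, zero_im, abs_zero]
      linarith
    filter_upwards [hnb, h1] with q hq hq1
    obtain ⟨-, -, -, b4⟩ := hb q hq
    show k (F q) = sl (KF G) 0 (L q)
    obtain ⟨k2, k3⟩ := lc_K hE (s := L q) (ρ := 0) hq1 (by rw [norm_zero]; linarith)
    have h5 : sl (KF G) 0 (L q) = k (F (L q, 0)) := nfM_eq k3 k2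
    rw [h5, hbaseL q hq, b4]
  · -- the values for `ρ = 0`
    intro t ht
    obtain ⟨s1, -, -, -⟩ := slice_Dom (half_pos hc) hR hKm ht.1
    have hV : AnalyticOnNhd ℂ (fun s => L (s, 0)) {t | (t, 0) ∈ DK F c R} := by
      intro s hs
      exact AnalyticAt.fun_comp (g := L) (f := fun s : ℂ => (s, 0)) (hLan _ hs)
        (analyticAt_id.prod analyticAt_const)
    have h2 : (fun s => L (s, 0)) =ᶠ[𝓝 0] fun s => s := by
      filter_upwards [(isOpen_St (-a) a).mem_nhds h0a] with s hs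
      rw [hbaseL (s, 0) ⟨hs, mem_ball_self hR0⟩]
      exact hb0 s hs
    exact hV.eqOn_of_preconnected_of_eventuallyEq (fun _ _ => analyticAt_id)
      s1.isPreconnected (show (0:ℂ) ∈ {t | (t, 0) ∈ DK F c R} from h00) h2 ht

end Pool.Agent.MP_ae5b4e_an_NBT
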