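import Mathlib
import Pool.Agent.Lib.MP_ae5b4e_an_NBT.LabC
import Pool.Agent.Lib.MP_ae5b4e_an_NBT.LabE
import Pool.Agent.Lib.MP_ae5b4e_an_NBT.LabelC

/-!
# MP_ae5b4e_an, project NB: the label on the domain of `K`
-/

noncomputable section

namespace Pool.Agent.MP_ae5b4e_an_NBT

open Complex Set Filter Topology Metric
open scoped ComplexConjugate

variable {k : ℂ → ℂ} {F G : ℂ × ℂ → ℂ} {c h : ℝ}

/-- **the label** -/
theorem exists_label (hN : NBd k F c h G) :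
    ∃ R : ℝ, 0 < R ∧ R ≤ c / 4 ∧ ∃ L : ℂ × ℂ → ℂ, AnalyticOnNhd ℂ L (DK F c R) ∧
      (∀ p ∈ DK F c R, |(L p).im| < h ∧ L (p.1 + 1, p.2) = L p + 1 ∧ L (p.1, -p.2) = L p ∧
        L (conj p.1, conj p.2) = conj (L p) ∧ EqM G (fun q => sl G 0 (L q)) p ∧
        EqM (KF G) (fun q => sl (KF G) 0 (L q)) p) ∧
      ∀ t : ℂ, |t.im| < h → L (t, 0) = t := by
  have hE : ConE k F c h G := hN.toConE
  have hch := hE.hc
  have hh : 0 < h := hE.pos.trans hch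
  obtain ⟨a, R, ha, hac, hR0, hR, L₁, hL₁, hb, hb0⟩ := label_base hN
  have hLU := (fam_of_nb hN).2
  have hsl : ∀ ρ ∈ ball (0:ℂ) R, AnalyticOnNhd ℂ (fun t => L₁ (t, ρ)) (St (-a) a) := by
    intro ρ hρ t ht
    exact AnalyticAt.fun_comp (g := L₁) (f := fun s : ℂ => (s, ρ)) (hL₁ (t, ρ) ⟨ht, hρ⟩)
      (analyticAt_id.prod analyticAt_const)
  obtain ⟨L, h1, h2, h3⟩ := labelC_core hE ha hac hR0 hR hL₁
    (fun p hp => ⟨(hb p hp).1, (hb p hp).2.2.1, (hb p hp).2.2.2.1, (hb p hp).2.2.2.2.1⟩) hb0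
    (S := St (-h) h) hLU
    (by
      rintro z ⟨hz1, hz2⟩
      refine ⟨?_, ?_⟩
      · rw [conj_im]
        linarith
      · rw [conj_im]
        linarith)
    (fun z hz => (slAt_K hE (mem_DK_zero hE (abs_lt.2 ⟨hz.1, hz.2⟩))).meromorphicAt)
    (by
      intro ρ hρ y hay hy
      obtain ⟨L, l1, l2, l3, l4, -⟩ := lab_strip hh hLU (ne_of_nb hN) (f := sl G ρ)
        (N := sl (NN G) ρ) (L₁ := fun t => L₁ (t, ρ)) ha hay
        (fun t ht => (slAt_G hE (DK_shift hE.toCon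
          (labelC_DK_mono hR (labelC_mem hE hac hR hρ hy ht))).1).meromorphicAt)
        (fun t ht => (slAt_N hE (labelC_DK_mono hR (labelC_mem hE hac hR hρ hy ht))).meromorphicAt)
        (hsl ρ hρ)
        (fun t ht => by
          have h5 := abs_lt.1 ((hb (t, ρ) ⟨ht, hρ⟩).1)
          exact ⟨by show -h < (L₁ (t, ρ)).im; linarith, by show (L₁ (t, ρ)).im < h; linarith⟩)
        (fun t ht => (hb (t, ρ) ⟨ht, hρ⟩).2.1)
        (fun t ht => (hb (t, ρ) ⟨ht, hρ⟩).2.2.2.2.2)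
        (fun z hz => labelC_per hE (abs_lt.2 ⟨hz.1, hz.2⟩))
      exact ⟨L, l1, l2, l3, l4⟩)
    (by
      intro L W y hW hay l1 l2 l3
      exact joint_of_strip hW ha hay l1 (fun p hp => (abs_lt.2 ⟨(l2 p hp).1, (l2 p hp).2⟩).le) l3)
  refine ⟨R, hR0, hR, L, h1, fun p hp => ?_, fun t ht => h3 t ?_⟩
  · obtain ⟨l1, l2⟩ := h2 p hp
    exact ⟨abs_lt.2 ⟨l1.1, l1.2⟩, l2⟩
  · exact ⟨mem_ball_self hR0, (mem_DK_zero hE ht).2⟩

end Pool.Agent.MP_ae5b4e_an_NBT
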