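import Mathlib
import Pool.Agent.Lib.MP_ae5b4e_an_NBT.Defs
import Pool.Agent.Lib.MP_ae5b4e_an_LL.Bridge

/-!
# MP_ae5b4e_an, project NB tools: superharmonic functions, the minimum principle
-/

noncomputable section

namespace Pool.Agent.MP_ae5b4e_an_NBT

open Complex Set Filter Topology Metric InnerProductSpace
open Pool.Agent.Lib.MP_ae5b4e_an_LL

variable {h g : ℂ → ℝ} {W : Set ℂ}

/-- superharmonicity is a local property -/
theorem supH_of_local (hW : IsOpen W) (hh : ∀ z ∈ W, ∃ δ > 0, ball z δ ⊆ W ∧ SupH h (ball z δ)) :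
    SupH h W := by
  apply supH_of_subH hW
  apply SubH.of_local
  intro p hp
  obtain ⟨δ, hδ, _, h2⟩ := hh p hp
  exact ⟨ball p δ, ball_mem_nhds p hδ, subH_neg_of_supH isOpen_ball h2⟩

/-- the minimum principle -/
theorem SupH.nonneg (hW : IsOpen W) (hb : Bornology.IsBounded W) (hh : SupH h W)
    (hf : ∀ z ∈ frontier W, ∀ ε > 0, ∀ᶠ w in 𝓝[W] z, -ε < h w) : ∀ z ∈ W, 0 ≤ h z := by
  intro z hz
  have := (subH_neg_of_supH hW hh).le_of_frontier hW hb (M := 0) (fun ζ hζ ε hε => by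
    filter_upwards [hf ζ hζ ε hε] with w hw
    linarith) z hz
  linarith

/-- the strong minimum principle -/
theorem SupH.eq_of_min (hW : IsOpen W) (hc : IsPreconnected W) (hh : SupH h W) {z : ℂ}
    (hz : z ∈ W) (hm : ∀ w ∈ W, h z ≤ h w) : ∀ w ∈ W, h w = h z := by
  have hs := subH_neg_of_supH hW hh
  by_contra hcon
  push Not at hcon
  obtain ⟨w, hw, hne⟩ := hcon
  set A : Set ℂ := {x | x ∈ W ∧ h x = h z} with hA
  set B : Set ℂ := {x | x ∈ W ∧ h z < h x} with hB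
  have hAo : IsOpen A := by
    rw [isOpen_iff_mem_nhds]
    rintro x ⟨hx, hxz⟩
    have h1 := hs.eventually_eq_of_isLocalMax hW hx (by
      filter_upwards [hW.mem_nhds hx] with y hy
      have := hm y hy
      show -h y ≤ -h x
      linarith)
    filter_upwards [h1, hW.mem_nhds hx] with y hy1 hy2
    have h2 : -h y = -h x := hy1
    exact ⟨hy2, by linarith⟩
  have hBo : IsOpen B := by
    rw [isOpen_iff_mem_nhds]
    rintro x ⟨hx, hxz⟩
    filter_upwards [hh.lsc x hx _ hxz, hW.mem_nhds hx] with y hy1 hy2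
    exact ⟨hy2, hy1⟩
  obtain ⟨x, _, hx1, hx2⟩ := hc A B hAo hBo (fun x hx => by
    rcases (hm x hx).eq_or_lt with h1 | h1
    · exact Or.inl ⟨hx, h1.symm⟩
    · exact Or.inr ⟨hx, h1⟩) ⟨z, hz, hz, rfl⟩ ⟨w, hw, hw, lt_of_le_of_ne (hm w hw) (Ne.symm hne)⟩
  have h1 := hx1.2
  have h2 := hx2.2
  linarith

end Pool.Agent.MP_ae5b4e_an_NBT
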