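import Mathlib
import Pool.Agent.Lib.MP_ae5b4e_an_NBT.SupC
import Pool.Agent.Lib.MP_ae5b4e_an_LL.Max

/-!
# MP_ae5b4e_an, project NB tools: superharmonic functions, Poisson and Liouville
-/

noncomputable section

namespace Pool.Agent.MP_ae5b4e_an_NBT

open Complex Set Filter Topology Metric InnerProductSpace
open Pool.Agent.Lib.MP_ae5b4e_an_LL
open Pool.Agent.Lib.MP_1f4a82_an (pint dir dir_of_mem_ball dir_of_mem_sphere dir_harmonicOnNhd
  dir_continuousOn)

variable {h g : ℂ → ℝ} {W : Set ℂ}

/-- comparison with the Poisson integral -/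
theorem SupH.poisson {c : ℂ} {s : ℝ} (hs : 0 < s) (hcs : closedBall c s ⊆ W) (hh : SupH h W)
    {φ : ℂ → ℝ} (hφ : Continuous φ) (hφh : ∀ z ∈ sphere c s, φ z ≤ h z) {z : ℂ}
    (hz : z ∈ ball c s) :
    Real.circleAverage (fun w => (s ^ 2 - ‖z - c‖ ^ 2) / ‖w - z‖ ^ 2 * φ w) c s ≤ h z := by
  have hsub : SubH (fun z => -h z) (ball c s) :=
    subH_neg_of_supH isOpen_ball ⟨fun z hz => hh.lsc z (hcs (ball_subset_closedBall hz)),
      fun c' s' hs' hcs' => hh.mean c' s' hs' (hcs'.trans (ball_subset_closedBall.trans hcs))⟩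
  have husc : UpperSemicontinuousOn (fun z => -h z) (closedBall c s) := by
    intro z hz y hy
    have h1 : -y < h z := by
      have : -h z < y := hy
      linarith
    filter_upwards [(hh.lsc z (hcs hz) (-y) h1).filter_mono nhdsWithin_le_nhds] with w hw
    have : -y < h w := hw
    linarith
  have h1 := hsub.le_dirichlet husc (u := fun z => -dir φ c s z)
    (dir_continuousOn hs hφ.continuousOn).neg
    (dir_harmonicOnNhd (hφ.continuousOn.circleIntegrable hs.le)).neg (fun w hw => by
      rw [dir_of_mem_sphere hw]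
      have := hφh w hw
      linarith) z (ball_subset_closedBall hz)
  rw [dir_of_mem_ball hz] at h1
  have h2 : Real.circleAverage (fun w => (s ^ 2 - ‖z - c‖ ^ 2) / ‖w - z‖ ^ 2 * φ w) c s =
      pint φ c s z := by
    rw [pint]
    apply Real.circleAverage_congr_sphere
    intro w hw
    rw [abs_of_pos hs, mem_sphere, dist_eq_norm] at hw
    show _ = poissonKernel c z w * φ w
    rw [poissonKernel_def, hw, sub_sub_sub_cancel_right]
  rw [h2]
  linarith

/-- Liouville's theorem -/
theorem SupH.const_of_bdd (hh : SupH h univ) {m : ℝ} (hm : ∀ z, m ≤ h z) (z w : ℂ) :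
    h z = h w := by
  have := (subH_neg_of_supH isOpen_univ hh).eq_of_bddAbove (B := -m) (fun z => by
    have := hm z
    linarith) z w
  linarith

end Pool.Agent.MP_ae5b4e_an_NBT
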