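import Mathlib
import Pool.Agent.Lib.MP_ae5b4e_an_SM.Ext

/-!
# MP_ae5b4e_an, project NB: periodic real-analytic functions as functions on the circle
-/

noncomputable section

namespace Pool.Agent.MP_ae5b4e_an_NBT

open Complex Set Filter Topology Metric

private lemma int_period {g : ℂ → ℂ} {b T : ℝ}
    (h : ∀ t : ℂ, |t.im| < b → g (t + T) = g t) (n : ℤ) (t : ℂ) (ht : |t.im| < b) :
    g (t + n * T) = g t := by
  classical
  have hp : Function.Periodic (fun t : ℂ => if |t.im| < b then g t else 0) (T : ℂ) := by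
    intro s
    have him : (s + (T : ℂ)).im = s.im := by simp
    simp only [him]
    by_cases hs : |s.im| < b
    · simp only [if_pos hs]
      exact h s hs
    · simp only [if_neg hs]
  have h1 := hp.int_mul n t
  have him : (t + (n : ℂ) * (T : ℂ)).im = t.im := by simp
  simp only [him, if_pos ht] at h1
  exact h1

/-- a real-analytic function of period `2 π` is `K (exp (i θ))` with `K` holomorphic near the unit
circle -/
theorem exists_circle_ext {κ : ℝ → ℝ} (hκ : ∀ x, AnalyticAt ℝ κ x)
    (hper : ∀ x, κ (x + 2 * Real.pi) = κ x) :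
    ∃ K : ℂ → ℂ, ∀ θ : ℝ, AnalyticAt ℂ K (exp (θ * I)) ∧ K (exp (θ * I)) = κ θ := by
  obtain ⟨b, g, hb, hg, hgr, hgp⟩ :=
    Pool.Agent.MP_ae5b4e_an_SM.exists_strip hκ Real.two_pi_pos hper
  have hopen : IsOpen {t : ℂ | |t.im| < b} :=
    isOpen_lt (continuous_abs.comp continuous_im) continuous_const
  refine ⟨fun z => g (-I * log z), fun θ => ?_⟩
  -- the local branch
  set w : ℂ → ℂ := fun z => (θ : ℂ) + -I * log (z * exp (-(θ * I))) with hw
  have hE : exp (θ * I) * exp (-(θ * I)) = 1 := by
    rw [← exp_add, add_neg_cancel, exp_zero]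
  have hw0 : w (exp (θ * I)) = θ := by
    rw [hw]
    simp only [hE, log_one, mul_zero, add_zero]
  have hwan : AnalyticAt ℂ w (exp (θ * I)) := by
    have h1 : AnalyticAt ℂ (fun z : ℂ => z * exp (-(θ * I))) (exp (θ * I)) :=
      analyticAt_id.mul analyticAt_const
    have h2 : AnalyticAt ℂ (fun z : ℂ => log (z * exp (-(θ * I)))) (exp (θ * I)) := by
      refine h1.clog ?_
      rw [hE]
      exact one_mem_slitPlane
    exact analyticAt_const.add (analyticAt_const.mul h2)
  have hgan : AnalyticAt ℂ g (θ : ℂ) := by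
    refine hg.analyticAt (hopen.mem_nhds ?_)
    show |(θ : ℂ).im| < b
    simpa using hb
  have hcomp : AnalyticAt ℂ (fun z => g (w z)) (exp (θ * I)) := by
    refine AnalyticAt.fun_comp (g := g) (f := w) ?_ hwan
    rw [hw0]
    exact hgan
  have heq : ∀ᶠ z in 𝓝 (exp (θ * I)), g (w z) = g (-I * log z) := by
    have h1 : ∀ᶠ z in 𝓝 (exp ((θ : ℂ) * I)), |(w z).im| < b := by
      refine hwan.continuousAt.eventually (hopen.mem_nhds ?_)
      show |(w (exp (θ * I))).im| < b
      rw [hw0]
      simpa using hb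
    have h2 : ∀ᶠ z in 𝓝 (exp ((θ : ℂ) * I)), z ≠ 0 :=
      isOpen_ne.mem_nhds (exp_ne_zero _)
    filter_upwards [h1, h2] with z hz hz0
    have h3 : exp (log z) = exp (I * w z) := by
      rw [exp_log hz0, hw]
      simp only
      have h4 : I * ((θ : ℂ) + -I * log (z * exp (-(θ * I)))) =
          θ * I + log (z * exp (-(θ * I))) := by
        linear_combination (-log (z * exp (-(θ * I)))) * I_mul_I
      rw [h4, exp_add, exp_log (mul_ne_zero hz0 (exp_ne_zero _))]
      linear_combination (-z) * hE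
    obtain ⟨n, hn⟩ := exp_eq_exp_iff_exists_int.1 h3
    have h5 : -I * log z = w z + n * ((2 * Real.pi : ℝ) : ℂ) := by
      rw [hn]
      push_cast
      linear_combination (-w z - n * (2 * Real.pi)) * I_mul_I
    rw [h5]
    exact (int_period hgp n (w z) hz).symm
  refine ⟨hcomp.congr heq, ?_⟩
  have h6 := heq.self_of_nhds
  rw [hw0, hgr] at h6
  exact h6.symm

end Pool.Agent.MP_ae5b4e_an_NBT
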