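import Mathlib
import Pool.Agent.Lib.MP_ae5b4e_an_MERO.Core
import Pool.Agent.Lib.MP_ae5b4e_an_NBT.ConD

/-!
# MP_ae5b4e_an, project NB: immersion, uniqueness up to translation, evenness
-/

noncomputable section

namespace Pool.Agent.MP_ae5b4e_an_NBT

open Complex Set Filter Topology Metric
open Pool.Agent.MP_ae5b4e_an_MERO (Dat)
open scoped ComplexConjugate

namespace DatEA

lemma mem_U {c : ℝ} {p : ℂ × ℂ} (h1 : |p.1.im| < c) (h2 : ‖p.2‖ < c) :
    p ∈ St (-c) c ×ˢ ball (0:ℂ) c :=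
  ⟨⟨(abs_lt.1 h1).1, (abs_lt.1 h1).2⟩, mem_ball_zero_iff.2 h2⟩

lemma of_mem_U {c : ℝ} {p : ℂ × ℂ} (h : p ∈ St (-c) c ×ˢ ball (0:ℂ) c) :
    |p.1.im| < c ∧ ‖p.2‖ < c :=
  ⟨abs_lt.2 ⟨h.1.1, h.1.2⟩, mem_ball_zero_iff.1 h.2⟩

lemma isOpen_U (c : ℝ) : IsOpen (St (-c) c ×ˢ ball (0:ℂ) c) :=
  (isOpen_St _ _).prod isOpen_ball

lemma strip_of_open2 {G : Set (ℂ × ℂ)} (hG : IsOpen G) (hr : ∀ t : ℝ, ((t : ℂ), (0:ℂ)) ∈ G)
    (hper : ∀ p ∈ G, (p.1 + 1, p.2) ∈ G) (hper' : ∀ p ∈ G, (p.1 - 1, p.2) ∈ G) :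
    ∃ ε > 0, ∀ p : ℂ × ℂ, |p.1.im| < ε → ‖p.2‖ < ε → p ∈ G := by
  have hK : IsCompact ((fun x : ℝ => ((x : ℂ), (0:ℂ))) '' Icc 0 1) :=
    isCompact_Icc.image (continuous_ofReal.prodMk continuous_const)
  obtain ⟨ε, hε, hsub⟩ := hK.exists_thickening_subset_open hG (by
    rintro _ ⟨x, _, rfl⟩
    exact hr x)
  have hn : ∀ n : ℕ, ∀ p : ℂ × ℂ, p ∈ G → (p.1 + n, p.2) ∈ G := by
    intro n
    induction n with
    | zero => intro t ht; simpa using ht
    | succ n ih =>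
      intro p ht
      have := hper _ (ih p ht)
      push_cast
      rwa [← add_assoc]
  have hn' : ∀ n : ℕ, ∀ p : ℂ × ℂ, p ∈ G → (p.1 - n, p.2) ∈ G := by
    intro n
    induction n with
    | zero => intro t ht; simpa using ht
    | succ n ih =>
      intro p ht
      have := hper' _ (ih p ht)
      push_cast
      rwa [← sub_sub]
  have hz : ∀ n : ℤ, ∀ p : ℂ × ℂ, p ∈ G → (p.1 + n, p.2) ∈ G := by
    intro n t ht
    obtain ⟨m, rfl | rfl⟩ := n.eq_nat_or_neg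
    · exact_mod_cast hn m t ht
    · have := hn' m t ht
      push_cast
      rwa [← sub_eq_add_neg]
  refine ⟨ε, hε, fun p ht hp => ?_⟩
  have h1 : (p.1 - ⌊p.1.re⌋, p.2) ∈ G := by
    apply hsub
    rw [mem_thickening_iff]
    refine ⟨(((Int.fract p.1.re : ℝ) : ℂ), 0), ⟨Int.fract p.1.re, ⟨Int.fract_nonneg _,
      (Int.fract_lt_one _).le⟩, rfl⟩, ?_⟩
    rw [Prod.dist_eq, max_lt_iff]
    constructor
    · show dist (p.1 - ⌊p.1.re⌋) ((Int.fract p.1.re : ℝ) : ℂ) < ε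
      rw [dist_eq]
      have e : p.1 - ⌊p.1.re⌋ - ((Int.fract p.1.re : ℝ) : ℂ) = p.1.im * I := by
        apply Complex.ext
        · simp
        · simp
      rw [e, norm_mul, norm_I, mul_one, norm_real, Real.norm_eq_abs]
      exact ht
    · show dist p.2 0 < ε
      rw [dist_zero_right]
      exact hp
  have h2 := hz ⌊p.1.re⌋ _ h1
  simpa using h2

end DatEA

open DatEA

theorem dat_mono {k : ℂ → ℂ} {F : ℂ × ℂ → ℂ} {c c' : ℝ} (hD : Dat k F c) (h0 : 0 < c')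
    (hc : c' ≤ c) : Dat k F c' := by
  have hS : ∀ {t : ℂ}, t ∈ MP_ae5b4e_an_MERO.St (-c') c' → t ∈ MP_ae5b4e_an_MERO.St (-c) c :=
    fun h => ⟨lt_of_le_of_lt (neg_le_neg hc) h.1, lt_of_lt_of_le h.2 hc⟩
  have hU : ∀ {p : ℂ × ℂ}, p ∈ MP_ae5b4e_an_MERO.St (-c') c' ×ˢ ball (0:ℂ) c' →
      p ∈ MP_ae5b4e_an_MERO.St (-c) c ×ˢ ball (0:ℂ) c :=
    fun h => ⟨hS h.1, ball_subset_ball hc h.2⟩
  exact ⟨h0, fun p hp => hD.an p (hU hp), fun p hp => hD.per p (hU hp), hD.inj,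
    fun p hp => hD.reg p (hU hp), fun p hp h1 h2 => hD.sep p (hU hp) h1 (hS h2),
    fun p hp h1 h2 h3 => hD.fe p (hU hp) h1 (hS h2) (hS h3)⟩

namespace DatEA

lemma deriv_slice {F : ℂ × ℂ → ℂ} {p : ℂ × ℂ} (h : AnalyticAt ℂ F p) :
    deriv (fun s => F (s, p.2)) p.1 = fderiv ℂ F p (1, 0) := by
  have h1 : HasFDerivAt F (fderiv ℂ F p) ((fun s : ℂ => (s, p.2)) p.1) :=
    h.differentiableAt.hasFDerivAt
  have h2 : HasDerivAt (fun s : ℂ => (s, p.2)) ((1:ℂ), (0:ℂ)) p.1 :=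
    (hasDerivAt_id p.1).prodMk (hasDerivAt_const p.1 p.2)
  exact (h1.comp_hasDerivAt p.1 h2).deriv

end DatEA

theorem dat_dt {k : ℂ → ℂ} {F : ℂ × ℂ → ℂ} {c : ℝ} (hD : Dat k F c) :
    ∃ c', 0 < c' ∧ c' ≤ c ∧
      ∀ p ∈ St (-c') c' ×ˢ ball (0:ℂ) c', deriv (fun s => F (s, p.2)) p.1 ≠ 0 := by
  have hc := hD.pos
  have han : AnalyticOnNhd ℂ F (St (-c) c ×ˢ ball (0:ℂ) c) := hD.an
  have hcont : ContinuousOn (fun p => fderiv ℂ F p (1, 0)) (St (-c) c ×ˢ ball (0:ℂ) c) := by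
    intro p hp
    have h1 : ContinuousAt (fderiv ℂ F) p := (han p hp).fderiv.continuousAt
    exact (h1.clm_apply continuousAt_const).continuousWithinAt
  have hopen : IsOpen ((St (-c) c ×ˢ ball (0:ℂ) c) ∩ (fun p => fderiv ℂ F p (1, 0)) ⁻¹' {0}ᶜ) :=
    hcont.isOpen_inter_preimage (isOpen_U c) isOpen_compl_singleton
  have hmem : ∀ p ∈ St (-c) c ×ˢ ball (0:ℂ) c, (p.1 + 1, p.2) ∈ St (-c) c ×ˢ ball (0:ℂ) c := by
    intro p hp
    obtain ⟨h1, h2⟩ := of_mem_U hp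
    exact mem_U (by simpa using h1) h2
  have hmem' : ∀ p ∈ St (-c) c ×ˢ ball (0:ℂ) c, (p.1 - 1, p.2) ∈ St (-c) c ×ˢ ball (0:ℂ) c := by
    intro p hp
    obtain ⟨h1, h2⟩ := of_mem_U hp
    exact mem_U (by simpa using h1) h2
  have hder : ∀ p ∈ St (-c) c ×ˢ ball (0:ℂ) c,
      fderiv ℂ F (p.1 + 1, p.2) (1, 0) = fderiv ℂ F p (1, 0) := by
    intro p hp
    rw [← deriv_slice (han p hp), ← deriv_slice (han _ (hmem p hp))]
    show deriv (fun s => F (s, p.2)) (p.1 + 1) = deriv (fun s => F (s, p.2)) p.1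
    rw [← deriv_comp_add_const]
    apply Filter.EventuallyEq.deriv_eq
    have h1 : ∀ᶠ s in 𝓝 p.1, s ∈ St (-c) c := (isOpen_St _ _).mem_nhds hp.1
    filter_upwards [h1] with s hs
    exact hD.per (s, p.2) ⟨hs, hp.2⟩
  obtain ⟨ε, hε, hsub⟩ := strip_of_open2 hopen (fun t => by
      have h1 : ((t : ℂ), (0:ℂ)) ∈ St (-c) c ×ˢ ball (0:ℂ) c :=
        mem_U (by simpa using hc) (by simpa using hc)
      refine ⟨h1, ?_⟩
      show fderiv ℂ F ((t : ℂ), (0:ℂ)) (1, 0) ≠ 0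
      rw [← deriv_slice (han _ h1)]
      exact (hD.ode (t := (t : ℂ)) h1.1).1)
    (fun p hp => ⟨hmem p hp.1, by
      show fderiv ℂ F (p.1 + 1, p.2) (1, 0) ≠ 0
      rw [hder p hp.1]
      exact hp.2⟩)
    (fun p hp => ⟨hmem' p hp.1, by
      show fderiv ℂ F (p.1 - 1, p.2) (1, 0) ≠ 0
      have h2 := hder _ (hmem' p hp.1)
      simp only [sub_add_cancel] at h2
      rw [← h2]
      exact hp.2⟩)
  refine ⟨min ε c, lt_min hε hc, min_le_right _ _, fun p hp => ?_⟩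
  obtain ⟨h1, h2⟩ := of_mem_U hp
  have h3 := hsub p (h1.trans_le (min_le_left _ _)) (h2.trans_le (min_le_left _ _))
  rw [deriv_slice (han p h3.1)]
  exact h3.2

namespace DatEA

/-- two consecutive vertices -/
def Ph (F : ℂ × ℂ → ℂ) (p : ℂ × ℂ) : ℂ × ℂ := (F p, F (p.1 + p.2, p.2) - F p)

/-- the step of the polygon -/
def Tm (k : ℂ → ℂ) (x : ℂ × ℂ) : ℂ × ℂ := (x.1 + x.2, x.2 / (1 + k (x.1 + x.2) * x.2))

/-- the strip -/
def V (r : ℝ) : Set (ℂ × ℂ) := {p | |p.1.im| < r ∧ ‖p.2‖ < r}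

lemma isOpen_V (r : ℝ) : IsOpen (V r) :=
  (isOpen_lt (continuous_im.comp continuous_fst).abs continuous_const).inter
    (isOpen_lt continuous_snd.norm continuous_const)

lemma V_add {r : ℝ} {p : ℂ × ℂ} (hp : p ∈ V r) : (p.1 + 1, p.2) ∈ V r :=
  ⟨by simpa using hp.1, hp.2⟩

lemma V_sub {r : ℝ} {p : ℂ × ℂ} (hp : p ∈ V r) : (p.1 - 1, p.2) ∈ V r :=
  ⟨by simpa using hp.1, hp.2⟩

lemma real_V {r : ℝ} (hr : 0 < r) (t : ℝ) : ((t : ℂ), (0:ℂ)) ∈ V r :=
  ⟨by simpa using hr, by simpa using hr⟩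

lemma V_U {c : ℝ} {p : ℂ × ℂ} (hp : p ∈ V (c / 4)) : p ∈ St (-c) c ×ˢ ball (0:ℂ) c := by
  have h := (norm_nonneg p.2).trans_lt hp.2
  exact mem_U (hp.1.trans (by linarith)) (hp.2.trans (by linarith))

lemma V_U1 {c : ℝ} {p : ℂ × ℂ} (hp : p ∈ V (c / 4)) :
    (p.1 + p.2, p.2) ∈ St (-c) c ×ˢ ball (0:ℂ) c := by
  have h := (norm_nonneg p.2).trans_lt hp.2
  have h1 : |(p.1 + p.2).im| < c := by
    rw [add_im]
    have h2 := abs_add_le p.1.im p.2.im
    have h3 := (abs_im_le_norm p.2).trans_lt hp.2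
    have h4 := hp.1
    linarith
  exact mem_U h1 (hp.2.trans (by linarith))

lemma V_U2 {c : ℝ} {p : ℂ × ℂ} (hp : p ∈ V (c / 4)) :
    (p.1 + p.2 + p.2, p.2) ∈ St (-c) c ×ˢ ball (0:ℂ) c := by
  have h := (norm_nonneg p.2).trans_lt hp.2
  have h1 : |(p.1 + p.2 + p.2).im| < c := by
    rw [add_im, add_im]
    have h2 := abs_add_le (p.1.im + p.2.im) p.2.im
    have h2' := abs_add_le p.1.im p.2.im
    have h3 := (abs_im_le_norm p.2).trans_lt hp.2
    have h4 := hp.1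
    linarith
  exact mem_U h1 (hp.2.trans (by linarith))

lemma Ph_T {k : ℂ → ℂ} {F : ℂ × ℂ → ℂ} {c : ℝ} (hD : Dat k F c) {p : ℂ × ℂ}
    (hp : p ∈ V (c / 4)) : Ph F (p.1 + p.2, p.2) = Tm k (Ph F p) := by
  rcases eq_or_ne p.2 0 with h0 | h0
  · have e : (p.1, (0:ℂ)) = p := by rw [← h0]
    simp only [Ph, Tm, h0, add_zero, e, sub_self, zero_div]
  · have hq := V_U1 hp
    have h1 := hD.sep p (V_U hp) h0 hq.1
    have h2 := hD.sep _ hq h0 (V_U2 hp).1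
    have h3 := hD.fe _ hq h0 (V_U2 hp).1 (by
      show p.1 + p.2 - p.2 ∈ _
      rw [add_sub_cancel_right]
      exact (V_U hp).1)
    simp only [add_sub_cancel_right] at h3 h2
    have e : (p.1, p.2) = p := rfl
    rw [e] at h3
    set x := F p with hx
    set x' := F (p.1 + p.2, p.2) with hx'
    set x'' := F (p.1 + p.2 + p.2, p.2) with hx''
    have h4 : x' - x ≠ 0 := sub_ne_zero.2 h1
    have h5 : x'' - x' ≠ 0 := sub_ne_zero.2 h2
    have h6 : (x'' - x')⁻¹ = (1 + k x' * (x' - x)) / (x' - x) := by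
      have h7 : (x - x')⁻¹ = -(x' - x)⁻¹ := by
        rw [← neg_sub, inv_neg]
      rw [h7] at h3
      have h8 : (x'' - x')⁻¹ = k x' + (x' - x)⁻¹ := by linear_combination h3
      rw [h8]
      field_simp
      ring
    simp only [Ph, Tm, add_sub_cancel]
    rw [← hx, ← hx', ← hx'']
    refine Prod.ext rfl ?_
    show x'' - x' = (x' - x) / (1 + k x' * (x' - x))
    rw [← inv_inj, h6, inv_div]

lemma Ph_an {k : ℂ → ℂ} {F : ℂ × ℂ → ℂ} {c : ℝ} (hD : Dat k F c) {p : ℂ × ℂ}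
    (hp : p ∈ V (c / 4)) : AnalyticAt ℂ (Ph F) p := by
  have h1 : AnalyticAt ℂ F p := hD.an p (V_U hp)
  have h2 : AnalyticAt ℂ F ((fun q : ℂ × ℂ => ((q.1 + q.2, q.2) : ℂ × ℂ)) p) :=
    hD.an _ (V_U1 hp)
  have h3 : AnalyticAt ℂ (fun q : ℂ × ℂ => ((q.1 + q.2, q.2) : ℂ × ℂ)) p :=
    (analyticAt_fst.add analyticAt_snd).prod analyticAt_snd
  have h4 : AnalyticAt ℂ (fun q : ℂ × ℂ => F (q.1 + q.2, q.2)) p :=
    AnalyticAt.fun_comp (g := F) h2 h3
  exact h1.prod (h4.sub h1)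

lemma Ph_per {k : ℂ → ℂ} {F : ℂ × ℂ → ℂ} {c : ℝ} (hD : Dat k F c) {p : ℂ × ℂ}
    (hp : p ∈ V (c / 4)) : Ph F (p.1 + 1, p.2) = Ph F p := by
  have h1 := hD.per p (V_U hp)
  have h2 := hD.per _ (V_U1 hp)
  simp only at h2
  simp only [Ph]
  rw [h1, show p.1 + 1 + p.2 = p.1 + p.2 + 1 by ring, h2]

lemma Ph_per' {k : ℂ → ℂ} {F : ℂ × ℂ → ℂ} {c : ℝ} (hD : Dat k F c) {p : ℂ × ℂ}
    (hp : p ∈ V (c / 4)) : Ph F (p.1 - 1, p.2) = Ph F p := by
  have h1 := Ph_per hD (V_sub hp)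
  simp only [sub_add_cancel] at h1
  exact h1.symm

/-- the derivative on the real line -/
lemma Ph_real {k : ℂ → ℂ} {F : ℂ × ℂ → ℂ} {c : ℝ} (hD : Dat k F c) (t : ℝ) :
    ∃ e : (ℂ × ℂ) ≃L[ℂ] (ℂ × ℂ), (e : ℂ × ℂ →L[ℂ] ℂ × ℂ) = fderiv ℂ (Ph F) ((t : ℂ), (0:ℂ)) := by
  have hc := hD.pos
  have hV := real_V (show 0 < c / 4 by linarith) t
  have hF : AnalyticAt ℂ F ((t : ℂ), (0:ℂ)) := hD.an _ (V_U hV)
  set L := fderiv ℂ F ((t : ℂ), (0:ℂ)) with hL
  set α := L (1, 0) with hα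
  set β := L (0, 1) with hβ
  have hα0 : α ≠ 0 := by
    rw [hα, hL, ← deriv_slice hF]
    exact (hD.ode (t := (t : ℂ)) (V_U hV).1).1
  have hLu : ∀ u v : ℂ, L (u, v) = u * α + v * β := by
    intro u v
    have : ((u, v) : ℂ × ℂ) = u • ((1:ℂ), (0:ℂ)) + v • ((0:ℂ), (1:ℂ)) := by
      simp
    rw [this, map_add, map_smul, map_smul, smul_eq_mul, smul_eq_mul]
  have hd : fderiv ℂ (Ph F) ((t : ℂ), (0:ℂ)) =
      L.prod (L.comp ((ContinuousLinearMap.fst ℂ ℂ ℂ + ContinuousLinearMap.snd ℂ ℂ ℂ).prod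
        (ContinuousLinearMap.snd ℂ ℂ ℂ)) - L) := by
    apply HasFDerivAt.fderiv
    have h1 : HasFDerivAt F L ((t : ℂ), (0:ℂ)) := hF.differentiableAt.hasFDerivAt
    have h2 : HasFDerivAt (fun q : ℂ × ℂ => ((q.1 + q.2, q.2) : ℂ × ℂ))
        ((ContinuousLinearMap.fst ℂ ℂ ℂ + ContinuousLinearMap.snd ℂ ℂ ℂ).prod
        (ContinuousLinearMap.snd ℂ ℂ ℂ)) ((t : ℂ), (0:ℂ)) :=
      (hasFDerivAt_fst.add hasFDerivAt_snd).prodMk hasFDerivAt_snd
    have h3 : HasFDerivAt F L ((fun q : ℂ × ℂ => ((q.1 + q.2, q.2) : ℂ × ℂ))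
        ((t : ℂ), (0:ℂ))) := by
      simpa using h1
    have h4 := h3.comp ((t : ℂ), (0:ℂ)) h2
    exact h1.prodMk (h4.sub h1)
  refine ⟨ContinuousLinearEquiv.equivOfInverse (fderiv ℂ (Ph F) ((t : ℂ), (0:ℂ)))
    ((α⁻¹ • ContinuousLinearMap.fst ℂ ℂ ℂ - (α⁻¹ * α⁻¹ * β) • ContinuousLinearMap.snd ℂ ℂ ℂ).prod
      (α⁻¹ • ContinuousLinearMap.snd ℂ ℂ ℂ)) ?_ ?_, ?_⟩
  · rintro ⟨u, v⟩
    rw [hd]
    simp [hLu]
    constructor
    · field_simp
      ring
    · field_simp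
      ring
  · rintro ⟨u, v⟩
    rw [hd]
    simp [hLu]
    constructor
    · field_simp
      ring
    · field_simp
      ring
  · rfl

/-- the derivative in a strip -/
lemma Ph_strip {k : ℂ → ℂ} {F : ℂ × ℂ → ℂ} {c : ℝ} (hD : Dat k F c) :
    ∃ ε > 0, ε ≤ c / 4 ∧ ∀ p ∈ V ε, ∃ e : (ℂ × ℂ) ≃L[ℂ] (ℂ × ℂ),
      HasStrictFDerivAt (Ph F) (e : ℂ × ℂ →L[ℂ] ℂ × ℂ) p := by
  have hc := hD.pos
  have hc4 : 0 < c / 4 := by linarith
  have hcont : ContinuousOn (fderiv ℂ (Ph F)) (V (c / 4)) := fun p hp =>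
    (Ph_an hD hp).fderiv.continuousAt.continuousWithinAt
  have hopen : IsOpen (V (c / 4) ∩ (fderiv ℂ (Ph F)) ⁻¹'
      (range ((↑) : ((ℂ × ℂ) ≃L[ℂ] (ℂ × ℂ)) → (ℂ × ℂ →L[ℂ] ℂ × ℂ)))) :=
    hcont.isOpen_inter_preimage (isOpen_V _) (ContinuousLinearEquiv.isOpen)
  have hper : ∀ p ∈ V (c / 4), fderiv ℂ (Ph F) (p.1 + 1, p.2) = fderiv ℂ (Ph F) p := by
    intro p hp
    have e : ∀ q : ℂ × ℂ, ((q.1 + 1, q.2) : ℂ × ℂ) = q + (1, 0) := fun q => by
      ext <;> simp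
    rw [e, ← fderiv_comp_add_right]
    apply Filter.EventuallyEq.fderiv_eq
    filter_upwards [(isOpen_V _).mem_nhds hp] with q hq
    rw [← e]
    exact Ph_per hD hq
  obtain ⟨ε, hε, hsub⟩ := strip_of_open2 hopen
    (fun t => ⟨real_V hc4 t, Ph_real hD t⟩)
    (fun p hp => ⟨V_add hp.1, by
      rw [mem_preimage, hper p hp.1]
      exact hp.2⟩)
    (fun p hp => ⟨V_sub hp.1, by
      have h2 := hper _ (V_sub hp.1)
      simp only [sub_add_cancel] at h2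
      rw [mem_preimage, ← h2]
      exact hp.2⟩)
  refine ⟨min ε (c / 4), lt_min hε hc4, min_le_right _ _, fun p hp => ?_⟩
  obtain ⟨h1, e, h2⟩ := hsub p (hp.1.trans_le (min_le_left _ _)) (hp.2.trans_le (min_le_left _ _))
  refine ⟨e, ?_⟩
  rw [h2]
  exact (Ph_an hD h1).hasStrictFDerivAt

/-- uniform local injectivity -/
lemma Ph_inj {k : ℂ → ℂ} {F : ℂ × ℂ → ℂ} {c : ℝ} (hD : Dat k F c) :
    ∃ r > 0, r ≤ c / 8 ∧ ∀ z z' : ℂ × ℂ, z ∈ V r → ‖z'.2‖ < r → ‖z'.1 - z.1‖ < r →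
      Ph F z = Ph F z' → z = z' := by
  have hc := hD.pos
  obtain ⟨ε, hε, hεc, hst⟩ := Ph_strip hD
  have hloc : ∀ t : ℝ, ∃ δ > 0, ∀ z ∈ ball (((t : ℂ), (0:ℂ)) : ℂ × ℂ) δ,
      ∀ z' ∈ ball (((t : ℂ), (0:ℂ)) : ℂ × ℂ) δ, Ph F z = Ph F z' → z = z' := by
    intro t
    obtain ⟨e, he⟩ := hst _ (real_V hε t)
    have h1 := he.eventually_left_inverse
    obtain ⟨δ, hδ, hb⟩ := Metric.eventually_nhds_iff_ball.1 h1
    refine ⟨δ, hδ, fun z hz z' hz' h => ?_⟩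
    rw [← hb z hz, ← hb z' hz', h]
  choose δ hδ hinj using hloc
  have hK : IsCompact ((fun x : ℝ => ((x : ℂ), (0:ℂ))) '' Icc 0 1) :=
    isCompact_Icc.image (continuous_ofReal.prodMk continuous_const)
  obtain ⟨r, hr, hcov⟩ := lebesgue_number_lemma_of_metric hK
    (c := fun t : ℝ => ball (((t : ℂ), (0:ℂ)) : ℂ × ℂ) (δ t)) (fun t => isOpen_ball) (by
      rintro _ ⟨x, _, rfl⟩
      exact mem_iUnion.2 ⟨x, mem_ball_self (hδ x)⟩)
  have hr0 : 0 < min (r / 4) (c / 8) := lt_min (by linarith) (by linarith)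
  refine ⟨min (r / 4) (c / 8), hr0, min_le_right _ _, fun z z' hz hz2 hz1 h => ?_⟩
  obtain ⟨t, ht⟩ := hcov (((Int.fract z.1.re : ℝ) : ℂ), 0) ⟨Int.fract z.1.re,
    ⟨Int.fract_nonneg _, (Int.fract_lt_one _).le⟩, rfl⟩
  have hr4 := min_le_left (r / 4) (c / 8)
  have hc8 := min_le_right (r / 4) (c / 8)
  have hzV : z ∈ V (c / 4) := ⟨hz.1.trans_le (by linarith), hz.2.trans_le (by linarith)⟩
  have him : |z'.1.im| < c / 4 := by
    have h1 : z'.1.im = z.1.im + (z'.1 - z.1).im := by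
      rw [sub_im]
      ring
    rw [h1]
    have h2 := abs_add_le z.1.im (z'.1 - z.1).im
    have h3 := (abs_im_le_norm (z'.1 - z.1)).trans_lt hz1
    have h4 := hz.1
    linarith
  have hzV' : z' ∈ V (c / 4) := ⟨him, hz2.trans_le (by linarith)⟩
  have hper : ∀ n : ℕ, ∀ w ∈ V (c / 4), (w.1 + n, w.2) ∈ V (c / 4) ∧
      Ph F (w.1 + n, w.2) = Ph F w := by
    intro n
    induction n with
    | zero => intro w hw; simpa using hw
    | succ n ih =>
      intro w hw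
      have h1 := V_add (ih w hw).1
      have h2 := Ph_per hD (ih w hw).1
      push_cast
      simp only [← add_assoc]
      exact ⟨h1, h2.trans (ih w hw).2⟩
  have hper' : ∀ n : ℤ, ∀ w ∈ V (c / 4), Ph F (w.1 - n, w.2) = Ph F w := by
    intro n w hw
    obtain ⟨m, rfl | rfl⟩ := n.eq_nat_or_neg
    · have h1 : ((w.1 - (m : ℤ), w.2) : ℂ × ℂ) ∈ V (c / 4) := ⟨by simpa using hw.1, hw.2⟩
      have h2 := (hper m _ h1).2
      simp only [Int.cast_natCast, sub_add_cancel] at h2 ⊢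
      exact h2.symm
    · push_cast
      rw [sub_neg_eq_add]
      exact (hper m w hw).2
  have e : ∀ w : ℂ × ℂ, dist ((w.1 - ⌊z.1.re⌋, w.2) : ℂ × ℂ)
      ((((Int.fract z.1.re : ℝ) : ℂ), 0) : ℂ × ℂ) ≤ max (‖w.1 - z.1‖ + |z.1.im|) ‖w.2‖ := by
    intro w
    rw [Prod.dist_eq]
    apply max_le_max
    · show dist (w.1 - ⌊z.1.re⌋) ((Int.fract z.1.re : ℝ) : ℂ) ≤ _
      rw [dist_eq]
      have e : w.1 - ⌊z.1.re⌋ - ((Int.fract z.1.re : ℝ) : ℂ) = (w.1 - z.1) + z.1.im * I := by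
        apply Complex.ext
        · have h9 := Int.self_sub_floor z.1.re
          simp
          linarith
        · simp
      rw [e]
      refine (norm_add_le _ _).trans ?_
      rw [norm_mul, norm_I, mul_one, norm_real, Real.norm_eq_abs]
    · show dist w.2 0 ≤ _
      rw [dist_zero_right]
  have h1 : ((z.1 - ⌊z.1.re⌋, z.2) : ℂ × ℂ) ∈ ball (((t : ℂ), (0:ℂ)) : ℂ × ℂ) (δ t) := by
    apply ht
    rw [mem_ball]
    refine (e z).trans_lt (max_lt ?_ ?_)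
    · rw [sub_self, norm_zero]
      have := hz.1
      linarith
    · have := hz.2
      linarith
  have h2 : ((z'.1 - ⌊z.1.re⌋, z'.2) : ℂ × ℂ) ∈ ball (((t : ℂ), (0:ℂ)) : ℂ × ℂ) (δ t) := by
    apply ht
    rw [mem_ball]
    refine (e z').trans_lt (max_lt ?_ ?_)
    · have := hz.1
      linarith
    · linarith
  have h3 := hinj t _ h1 _ h2 (by rw [hper' _ z hzV, hper' _ z' hzV', h])
  rw [Prod.mk.injEq] at h3
  exact Prod.ext (by simpa using h3.1) h3.2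

/-- existence of the corresponding point -/
lemma Ph_ex {k : ℂ → ℂ} {F G : ℂ × ℂ → ℂ} {c : ℝ} (hF : Dat k F c) (hG : Dat k G c)
    (h0 : ∀ t ∈ St (-c) c, G (t, 0) = F (t, 0)) {r : ℝ} (hr : 0 < r) :
    ∃ η > 0, ∀ p : ℂ × ℂ, |p.1.im| < η → ‖p.2‖ < η →
      ∃ z : ℂ × ℂ, ‖z.1 - p.1‖ < r ∧ ‖z.2‖ < r ∧ Ph F z = Ph G p := by
  have hc := hF.pos
  have hc4 : 0 < c / 4 := by linarith
  obtain ⟨ε, hε, hεc, hst⟩ := Ph_strip hF
  set S : Set (ℂ × ℂ) := {p | p ∈ V (c / 4) ∧ ∃ z ∈ V (c / 4), ‖z.1 - p.1‖ < r ∧ ‖z.2‖ < r ∧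
    Ph F z = Ph G p} with hS
  have hadd : ∀ p ∈ S, (p.1 + 1, p.2) ∈ S := by
    rintro p ⟨hp, z, hz, h1, h2, h3⟩
    refine ⟨V_add hp, (z.1 + 1, z.2), V_add hz, by simpa using h1, h2, ?_⟩
    rw [Ph_per hF hz, Ph_per hG hp, h3]
  have hsub : ∀ p ∈ S, (p.1 - 1, p.2) ∈ S := by
    rintro p ⟨hp, z, hz, h1, h2, h3⟩
    refine ⟨V_sub hp, (z.1 - 1, z.2), V_sub hz, by simpa using h1, h2, ?_⟩
    rw [Ph_per' hF hz, Ph_per' hG hp, h3]
  have hreal : ∀ t : ℝ, S ∈ 𝓝 (((t : ℂ), (0:ℂ)) : ℂ × ℂ) := by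
    intro t
    obtain ⟨e, he⟩ := hst _ (real_V hε t)
    have h1 : Ph G ((t : ℂ), (0:ℂ)) = Ph F ((t : ℂ), (0:ℂ)) := by
      have h2 := h0 (t : ℂ) (V_U (real_V hc4 t)).1
      simp only [Ph, add_zero, h2]
    have hcG : Tendsto (Ph G) (𝓝 (((t : ℂ), (0:ℂ)) : ℂ × ℂ)) (𝓝 (Ph F ((t : ℂ), (0:ℂ)))) := by
      rw [← h1]
      exact (Ph_an hG (real_V hc4 t)).continuousAt
    have h2 := hcG.eventually he.eventually_right_inverse
    have h3 : Tendsto (fun p => he.localInverse (Ph F) e _ (Ph G p))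
        (𝓝 (((t : ℂ), (0:ℂ)) : ℂ × ℂ)) (𝓝 (((t : ℂ), (0:ℂ)) : ℂ × ℂ)) := by
      have h4 := he.localInverse_tendsto
      exact h4.comp hcG
    have h5 : ∀ᶠ p : ℂ × ℂ in 𝓝 (((t : ℂ), (0:ℂ)) : ℂ × ℂ),
        ‖(he.localInverse (Ph F) e _ (Ph G p)).1 - p.1‖ < r := by
      have h6 : Tendsto (fun p : ℂ × ℂ => ‖(he.localInverse (Ph F) e _ (Ph G p)).1 - p.1‖)
          (𝓝 (((t : ℂ), (0:ℂ)) : ℂ × ℂ)) (𝓝 ‖(t : ℂ) - (t : ℂ)‖) :=
        (((continuous_fst.tendsto _).comp h3).sub (continuous_fst.tendsto _)).norm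
      rw [sub_self, norm_zero] at h6
      exact h6.eventually_lt_const hr
    have h7 : ∀ᶠ p : ℂ × ℂ in 𝓝 (((t : ℂ), (0:ℂ)) : ℂ × ℂ),
        ‖(he.localInverse (Ph F) e _ (Ph G p)).2‖ < r := by
      have h6 : Tendsto (fun p : ℂ × ℂ => ‖(he.localInverse (Ph F) e _ (Ph G p)).2‖)
          (𝓝 (((t : ℂ), (0:ℂ)) : ℂ × ℂ)) (𝓝 ‖(0:ℂ)‖) :=
        ((continuous_snd.tendsto _).comp h3).norm
      rw [norm_zero] at h6
      exact h6.eventually_lt_const hr
    filter_upwards [(isOpen_V _).mem_nhds (real_V hc4 t),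
      h3.eventually ((isOpen_V _).mem_nhds (real_V hc4 t)), h2, h5, h7] with p a1 a2 a3 a4 a5
    exact ⟨a1, _, a2, a4, a5, a3⟩
  obtain ⟨η, hη, hsub⟩ := strip_of_open2 (G := interior S) isOpen_interior
    (fun t => mem_interior_iff_mem_nhds.2 (hreal t))
    (fun p hp => by
      rw [mem_interior_iff_mem_nhds] at hp ⊢
      have h1 : Tendsto (fun q : ℂ × ℂ => ((q.1 - 1, q.2) : ℂ × ℂ)) (𝓝 (p.1 + 1, p.2)) (𝓝 p) := by
        have h2 : Continuous (fun q : ℂ × ℂ => ((q.1 - 1, q.2) : ℂ × ℂ)) :=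
          (continuous_fst.sub continuous_const).prodMk continuous_snd
        have h3 := h2.tendsto (p.1 + 1, p.2)
        simpa using h3
      filter_upwards [h1 hp] with q hq
      have := hadd _ hq
      simpa using this)
    (fun p hp => by
      rw [mem_interior_iff_mem_nhds] at hp ⊢
      have h1 : Tendsto (fun q : ℂ × ℂ => ((q.1 + 1, q.2) : ℂ × ℂ)) (𝓝 (p.1 - 1, p.2)) (𝓝 p) := by
        have h2 : Continuous (fun q : ℂ × ℂ => ((q.1 + 1, q.2) : ℂ × ℂ)) :=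
          (continuous_fst.add continuous_const).prodMk continuous_snd
        have h3 := h2.tendsto (p.1 - 1, p.2)
        simpa using h3
      filter_upwards [h1 hp] with q hq
      have := hsub _ hq
      simpa using this)
  refine ⟨η, hη, fun p h1 h2 => ?_⟩
  obtain ⟨_, z, _, h3, h4, h5⟩ := interior_subset (hsub p h1 h2)
  exact ⟨z, h3, h4, h5⟩

lemma pre_V1 {η : ℝ} : IsPreconnected {t : ℂ | |t.im| < η} := by
  have h : {t : ℂ | |t.im| < η} = im ⁻¹' Ioo (-η) η := by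
    ext z
    simp [abs_lt]
  rw [h]
  exact ((convex_Ioo (-η) η).is_linear_preimage (f := im) ⟨fun _ _ => rfl, by simp⟩).isPreconnected

lemma isOpen_V1 {η : ℝ} : IsOpen {t : ℂ | |t.im| < η} :=
  isOpen_lt continuous_im.abs continuous_const

/-- the identity theorem on the real points of a ball -/
lemma zero_of_real {η : ℝ} (hη : 0 < η) {u : ℂ → ℂ} (hu : DifferentiableOn ℂ u (ball 0 η))
    (h : ∀ x : ℝ, Irrational x → |x| < η → u x = 0) : ∀ ρ ∈ ball (0:ℂ) η, u ρ = 0 := by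
  have h1 : AnalyticOnNhd ℂ u (ball 0 η) := hu.analyticOnNhd isOpen_ball
  have h2 : ∃ᶠ z in 𝓝[≠] (0:ℂ), u z = 0 := by
    rw [frequently_nhdsWithin_iff]
    rw [Metric.nhds_basis_ball.frequently_iff]
    intro ε hε
    obtain ⟨x, hx, hx1, hx2⟩ := exists_irrational_btwn (lt_min hε hη)
    have hx3 : |x| = x := abs_of_pos hx1
    refine ⟨(x : ℂ), ?_, h x hx (by rw [hx3]; exact hx2.trans_le (min_le_right _ _)), ?_⟩
    · rw [mem_ball_zero_iff, norm_real, Real.norm_eq_abs, hx3]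
      exact hx2.trans_le (min_le_left _ _)
    · rw [mem_compl_singleton_iff]
      exact_mod_cast hx1.ne'
  intro ρ hρ
  exact h1.eqOn_zero_of_preconnected_of_frequently_eq_zero (convex_ball _ _).isPreconnected
    (mem_ball_self hη) h2 hρ

lemma const_of_per {η : ℝ} (hη : 0 < η) {h : ℂ × ℂ → ℂ} (hd : DifferentiableOn ℂ h (V η))
    (h1 : ∀ p ∈ V η, h (p.1 + 1, p.2) = h p)
    (h2 : ∀ p ∈ V η, (p.1 + p.2, p.2) ∈ V η → h (p.1 + p.2, p.2) = h p) :
    ∀ p ∈ V η, h p = h (0, p.2) := by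
  have hsl1 : ∀ ρ : ℂ, ‖ρ‖ < η → DifferentiableOn ℂ (fun t => h (t, ρ)) {t : ℂ | |t.im| < η} := by
    intro ρ hρ
    have h3 : DifferentiableOn ℂ (fun t : ℂ => ((t, ρ) : ℂ × ℂ)) {t : ℂ | |t.im| < η} :=
      (differentiable_id.prodMk (differentiable_const ρ)).differentiableOn
    exact hd.comp h3 (fun t ht => ⟨ht, hρ⟩)
  have hsl2 : ∀ t : ℂ, |t.im| < η → DifferentiableOn ℂ (fun ρ => h (t, ρ)) (ball 0 η) := by
    intro t ht
    have h3 : DifferentiableOn ℂ (fun ρ : ℂ => ((t, ρ) : ℂ × ℂ)) (ball (0:ℂ) η) :=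
      ((differentiable_const t).prodMk differentiable_id).differentiableOn
    exact hd.comp h3 (fun ρ hρ => ⟨ht, mem_ball_zero_iff.1 hρ⟩)
  -- real irrational parameters
  have hirr : ∀ x : ℝ, Irrational x → |x| < η → ∀ t : ℂ, |t.im| < η → h (t, x) = h (0, x) := by
    intro x hx hxη
    have hxn : ‖(x : ℂ)‖ < η := by
      rw [norm_real, Real.norm_eq_abs]
      exact hxη
    have hVt : ∀ t : ℝ, (((t : ℂ), (x : ℂ)) : ℂ × ℂ) ∈ V η := fun t => ⟨by simpa using hη, hxn⟩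
    set f : ℝ → ℂ := fun t => h ((t : ℂ), (x : ℂ)) with hf
    have hfc : Continuous f := by
      have h3 : ContinuousOn (fun t => h (t, (x : ℂ))) {t : ℂ | |t.im| < η} :=
        (hsl1 _ hxn).continuousOn
      exact h3.comp_continuous continuous_ofReal (fun t => by simpa using hη)
    have hp1 : ∀ t, f (t + 1) = f t := by
      intro t
      have h4 := h1 _ (hVt t)
      simp only [hf]
      push_cast
      exact h4
    have hpx : ∀ t, f (t + x) = f t := by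
      intro t
      have h4 := h2 _ (hVt t) (by
        have := hVt (t + x)
        push_cast at this
        exact this)
      simp only [hf]
      push_cast
      exact h4
    have hcl : ∀ y ∈ AddSubgroup.closure {x, (1:ℝ)}, ∀ t, f (t + y) = f t := by
      intro y hy
      induction hy using AddSubgroup.closure_induction with
      | mem y hy =>
        rcases hy with rfl | hy
        · exact hpx
        · rw [mem_singleton_iff] at hy
          subst hy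
          exact hp1
      | zero => intro t; rw [add_zero]
      | add a b _ _ ha hb => intro t; rw [← add_assoc, hb, ha]
      | neg a _ ha =>
        intro t
        have := ha (t + -a)
        rw [neg_add_cancel_right] at this
        exact this.symm
    have hden : Dense (AddSubgroup.closure {x, (1:ℝ)} : Set ℝ) := by
      rw [dense_addSubgroupClosure_pair_iff, div_one]
      exact hx
    have hfconst : f = fun _ => f 0 := by
      apply Continuous.ext_on hden hfc continuous_const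
      intro y hy
      have := hcl y hy 0
      rw [zero_add] at this
      exact this
    intro t ht
    have h5 : AnalyticOnNhd ℂ (fun s => h (s, (x : ℂ)) - h (0, (x : ℂ))) {t : ℂ | |t.im| < η} :=
      ((hsl1 _ hxn).sub (differentiableOn_const _)).analyticOnNhd isOpen_V1
    have h6 : ∃ᶠ z in 𝓝[≠] (0:ℂ), h (z, (x : ℂ)) - h (0, (x : ℂ)) = 0 := by
      rw [frequently_nhdsWithin_iff]
      rw [Metric.nhds_basis_ball.frequently_iff]
      intro ε hε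
      refine ⟨((ε / 2 : ℝ) : ℂ), ?_, ?_, ?_⟩
      · rw [mem_ball_zero_iff, norm_real, Real.norm_eq_abs, abs_of_pos (by linarith)]
        linarith
      · have h7 := congrFun hfconst (ε / 2)
        simp only [hf, ofReal_zero] at h7
        rw [h7, sub_self]
      · rw [mem_compl_singleton_iff]
        exact_mod_cast (by linarith : ε / 2 ≠ 0)
    have h8 := h5.eqOn_zero_of_preconnected_of_frequently_eq_zero pre_V1
      (show (0:ℂ) ∈ {t : ℂ | |t.im| < η} by simpa using hη) h6 ht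
    exact sub_eq_zero.1 h8
  intro p hp
  have h9 := zero_of_real hη (u := fun ρ => h (p.1, ρ) - h (0, ρ))
    ((hsl2 p.1 hp.1).sub (hsl2 0 (by simpa using hη)))
    (fun x hx hxη => sub_eq_zero.2 (hirr x hx hxη p.1 hp.1)) p.2 (mem_ball_zero_iff.2 hp.2)
  exact sub_eq_zero.1 h9

end DatEA

/-- two families with the same limit curve differ by a translation in `t` -/
theorem dat_unique {k : ℂ → ℂ} {F G : ℂ × ℂ → ℂ} {c : ℝ} (hF : Dat k F c) (hG : Dat k G c)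
    (hdt : ∀ p ∈ St (-c) c ×ˢ ball (0:ℂ) c, deriv (fun s => F (s, p.2)) p.1 ≠ 0)
    (h0 : ∀ t ∈ St (-c) c, G (t, 0) = F (t, 0)) :
    ∃ c', 0 < c' ∧ c' ≤ c ∧ ∃ a : ℂ → ℂ, AnalyticOnNhd ℂ a (ball 0 c') ∧ a 0 = 0 ∧
      ∀ p ∈ St (-c') c' ×ˢ ball (0:ℂ) c', p.1 + a p.2 ∈ St (-c) c ∧
        G p = F (p.1 + a p.2, p.2) := by
  have _ := hdt
  have hc := hF.pos
  obtain ⟨ε, hε, hεc, hst⟩ := Ph_strip hF
  obtain ⟨r, hr, hrc, hinj⟩ := Ph_inj hF
  set r0 : ℝ := min (r / 8) (ε / 2) with hr0def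
  have hr0 : 0 < r0 := lt_min (by linarith) (by linarith)
  have hr01 : r0 ≤ r / 8 := min_le_left _ _
  have hr02 : r0 ≤ ε / 2 := min_le_right _ _
  obtain ⟨η0, hη0, hex⟩ := Ph_ex hF hG h0 hr0
  set η : ℝ := min η0 (min (r / 8) (ε / 2)) with hηdef
  have hη : 0 < η := lt_min hη0 (lt_min (by linarith) (by linarith))
  have hη1 : η ≤ η0 := min_le_left _ _
  have hη2 : η ≤ r / 8 := (min_le_right _ _).trans (min_le_left _ _)
  have hη3 : η ≤ ε / 2 := (min_le_right _ _).trans (min_le_right _ _)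
  have hex' : ∀ p : ℂ × ℂ, ∃ z : ℂ × ℂ, p ∈ V η →
      ‖z.1 - p.1‖ < r0 ∧ ‖z.2‖ < r0 ∧ Ph F z = Ph G p := by
    intro p
    by_cases hp : p ∈ V η
    · obtain ⟨z, hz⟩ := hex p (hp.1.trans_le hη1) (hp.2.trans_le hη1)
      exact ⟨z, fun _ => hz⟩
    · exact ⟨0, fun h => absurd h hp⟩
  choose z hz using hex'
  have hVc : ∀ p ∈ V η, p ∈ V (c / 4) := fun p hp =>
    ⟨hp.1.trans_le (by linarith), hp.2.trans_le (by linarith)⟩
  have him : ∀ p ∈ V η, |(z p).1.im| < r0 + η := by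
    intro p hp
    have h1 : (z p).1.im = ((z p).1 - p.1).im + p.1.im := by
      rw [sub_im]
      ring
    rw [h1]
    have h2 := abs_add_le ((z p).1 - p.1).im p.1.im
    have h3 := (abs_im_le_norm ((z p).1 - p.1)).trans_lt (hz p hp).1
    have h4 := hp.1
    linarith
  have hzr : ∀ p ∈ V η, z p ∈ V r := fun p hp =>
    ⟨(him p hp).trans_le (by linarith), (hz p hp).2.1.trans_le (by linarith)⟩
  have hzε : ∀ p ∈ V η, z p ∈ V ε := fun p hp =>
    ⟨(him p hp).trans_le (by linarith), (hz p hp).2.1.trans_le (by linarith)⟩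
  have hzc : ∀ p ∈ V η, z p ∈ V (c / 4) := fun p hp =>
    ⟨(hzr p hp).1.trans_le (by linarith), (hzr p hp).2.trans_le (by linarith)⟩
  -- uniqueness
  have huni : ∀ p ∈ V η, ∀ w : ℂ × ℂ, ‖w.1 - p.1‖ < r / 2 → ‖w.2‖ < r → Ph F w = Ph G p →
      z p = w := by
    intro p hp w h1 h2 h3
    apply hinj (z p) w (hzr p hp) h2
    · have h4 : w.1 - (z p).1 = (w.1 - p.1) - ((z p).1 - p.1) := by ring
      rw [h4]
      have h5 := norm_sub_le (w.1 - p.1) ((z p).1 - p.1)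
      have h6 := (hz p hp).1
      linarith
    · rw [(hz p hp).2.2, h3]
  -- differentiability
  have hdiff : DifferentiableOn ℂ z (V η) := by
    intro p hp
    obtain ⟨e, he⟩ := hst _ (hzε p hp)
    have hcG : HasFDerivAt (Ph G) (fderiv ℂ (Ph G) p) p :=
      (Ph_an hG (hVc p hp)).differentiableAt.hasFDerivAt
    have hval : Ph G p = Ph F (z p) := (hz p hp).2.2.symm
    have hloc : HasFDerivAt (he.localInverse (Ph F) e (z p)) (e.symm : ℂ × ℂ →L[ℂ] ℂ × ℂ)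
        (Ph G p) := by
      rw [hval]
      exact he.to_localInverse.hasFDerivAt
    have hcomp := hloc.comp p hcG
    have hcont : Tendsto (fun q => he.localInverse (Ph F) e (z p) (Ph G q)) (𝓝 p)
        (𝓝 (z p)) := by
      have h1 := he.localInverse_tendsto
      have h2 : Tendsto (Ph G) (𝓝 p) (𝓝 (Ph F (z p))) := by
        rw [← hval]
        exact hcG.continuousAt
      exact h1.comp h2
    have hright : ∀ᶠ q in 𝓝 p, Ph F (he.localInverse (Ph F) e (z p) (Ph G q)) = Ph G q := by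
      have h2 : Tendsto (Ph G) (𝓝 p) (𝓝 (Ph F (z p))) := by
        rw [← hval]
        exact hcG.continuousAt
      exact h2.eventually he.eventually_right_inverse
    have h5 : ∀ᶠ q in 𝓝 p, ‖(he.localInverse (Ph F) e (z p) (Ph G q)).1 - q.1‖ < r / 2 := by
      have h6 : Tendsto (fun q : ℂ × ℂ => ‖(he.localInverse (Ph F) e (z p) (Ph G q)).1 - q.1‖)
          (𝓝 p) (𝓝 ‖(z p).1 - p.1‖) :=
        (((continuous_fst.tendsto _).comp hcont).sub (continuous_fst.tendsto _)).norm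
      have h7 := (hz p hp).1
      exact h6.eventually_lt_const (by linarith)
    have h7 : ∀ᶠ q in 𝓝 p, ‖(he.localInverse (Ph F) e (z p) (Ph G q)).2‖ < r := by
      have h6 : Tendsto (fun q : ℂ × ℂ => ‖(he.localInverse (Ph F) e (z p) (Ph G q)).2‖)
          (𝓝 p) (𝓝 ‖(z p).2‖) :=
        ((continuous_snd.tendsto _).comp hcont).norm
      exact h6.eventually_lt_const (hzr p hp).2
    have hev : z =ᶠ[𝓝 p] fun q => he.localInverse (Ph F) e (z p) (Ph G q) := by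
      filter_upwards [(isOpen_V η).mem_nhds hp, hright, h5, h7] with q a1 a2 a3 a4
      exact huni q a1 _ a3 a4 a2
    exact (hcomp.congr_of_eventuallyEq hev).differentiableAt.differentiableWithinAt
  have hd1 : DifferentiableOn ℂ (fun p => (z p).1) (V η) := fun p hp =>
    (hdiff p hp).fst
  have hd2 : DifferentiableOn ℂ (fun p => (z p).2) (V η) := fun p hp =>
    (hdiff p hp).snd
  -- periods
  have hper : ∀ p ∈ V η, z (p.1 + 1, p.2) = ((z p).1 + 1, (z p).2) := by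
    intro p hp
    apply huni _ (V_add hp)
    · have h1 := (hz p hp).1
      have h2 : (z p).1 + 1 - (p.1 + 1) = (z p).1 - p.1 := by ring
      show ‖(z p).1 + 1 - (p.1 + 1)‖ < r / 2
      rw [h2]
      linarith
    · exact (hzr p hp).2
    · rw [Ph_per hF (hzc p hp), Ph_per hG (hVc p hp)]
      exact (hz p hp).2.2
  have hstep : ∀ p ∈ V η, (p.1 + p.2, p.2) ∈ V η →
      z (p.1 + p.2, p.2) = ((z p).1 + (z p).2, (z p).2) := by
    intro p hp hp'
    apply huni _ hp'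
    · have h1 := (hz p hp).1
      have h2 : (z p).1 + (z p).2 - (p.1 + p.2) = ((z p).1 - p.1) + ((z p).2 - p.2) := by ring
      show ‖(z p).1 + (z p).2 - (p.1 + p.2)‖ < r / 2
      rw [h2]
      have h3 := norm_add_le ((z p).1 - p.1) ((z p).2 - p.2)
      have h4 := norm_sub_le (z p).2 p.2
      have h5 := (hz p hp).2.1
      have h6 := hp.2
      linarith
    · exact (hzr p hp).2
    · rw [Ph_T hF (hzc p hp), Ph_T hG (hVc p hp), (hz p hp).2.2]
  -- the second component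
  have hs2 := const_of_per hη hd2 (fun p hp => by rw [hper p hp])
    (fun p hp hp' => by rw [hstep p hp hp'])
  have hVx : ∀ t x : ℝ, |x| < η → (((t : ℂ), (x : ℂ)) : ℂ × ℂ) ∈ V η := fun t x hx =>
    ⟨by simpa using hη, by rw [norm_real, Real.norm_eq_abs]; exact hx⟩
  have hs2r : ∀ x : ℝ, |x| < η → (z (0, (x : ℂ))).2 = x := by
    intro x hx
    set σ := (z (0, (x : ℂ))).2 with hσ
    have hn : ∀ n : ℕ, z (((n * x : ℝ) : ℂ), (x : ℂ)) = ((z (0, (x : ℂ))).1 + n * σ, σ) := by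
      intro n
      induction n with
      | zero =>
        simp [hσ]
      | succ n ih =>
        have h1 := hstep _ (hVx (n * x) x hx) (by
          have := hVx ((n + 1) * x) x hx
          have e : (((n * x : ℝ) : ℂ) + (x : ℂ)) = (((n + 1) * x : ℝ) : ℂ) := by
            push_cast
            ring
          show ((((n * x : ℝ) : ℂ) + (x : ℂ)), (x : ℂ)) ∈ V η
          rw [e]
          exact this)
        rw [ih] at h1
        have e : ((((n + 1 : ℕ) : ℝ) * x : ℝ) : ℂ) = ((n * x : ℝ) : ℂ) + (x : ℂ) := by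
          push_cast
          ring
        rw [e]
        refine h1.trans ?_
        refine Prod.ext ?_ rfl
        push_cast
        ring
    have hb : ∀ n : ℕ, (n : ℝ) * ‖σ - x‖ ≤ 2 * r0 := by
      intro n
      have h1 := (hz _ (hVx (n * x) x hx)).1
      have h2 := (hz _ (hVx 0 x hx)).1
      rw [hn n] at h1
      simp only [ofReal_zero, sub_zero] at h2
      have h3 : (n : ℂ) * (σ - x) = ((z (0, (x : ℂ))).1 + n * σ - ((n * x : ℝ) : ℂ)) -
          (z (0, (x : ℂ))).1 := by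
        push_cast
        ring
      have h4 : (n : ℝ) * ‖σ - x‖ = ‖(n : ℂ) * (σ - x)‖ := by
        rw [norm_mul, norm_natCast]
      rw [h4, h3]
      have h5 := norm_sub_le ((z (0, (x : ℂ))).1 + n * σ - ((n * x : ℝ) : ℂ)) (z (0, (x : ℂ))).1
      have h1' : ‖(z (0, (x : ℂ))).1 + n * σ - ((n * x : ℝ) : ℂ)‖ < r0 := h1
      linarith
    by_contra hne
    have h6 : 0 < ‖σ - x‖ := norm_pos_iff.2 (sub_ne_zero.2 hne)
    obtain ⟨n, hn'⟩ := exists_nat_gt (2 * r0 / ‖σ - x‖)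
    rw [div_lt_iff₀ h6] at hn'
    exact absurd (hb n) (not_le.2 hn')
  have hV0 : ∀ ρ ∈ ball (0:ℂ) η, ((0, ρ) : ℂ × ℂ) ∈ V η := fun ρ hρ =>
    ⟨by simpa using hη, mem_ball_zero_iff.1 hρ⟩
  have hin : DifferentiableOn ℂ (fun ρ : ℂ => ((0, ρ) : ℂ × ℂ)) (ball (0:ℂ) η) :=
    ((differentiable_const (0:ℂ)).prodMk differentiable_id).differentiableOn
  have hs2' : ∀ p ∈ V η, (z p).2 = p.2 := by
    intro p hp
    have h1 := zero_of_real hη (u := fun ρ => (z (0, ρ)).2 - ρ)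
      ((hd2.comp hin hV0).sub differentiableOn_id)
      (fun x _ hx => sub_eq_zero.2 (hs2r x hx)) p.2 (mem_ball_zero_iff.2 hp.2)
    have h2 : (z p).2 = (z (0, p.2)).2 := hs2 p hp
    rw [h2]
    exact sub_eq_zero.1 h1
  -- the first component
  have hw := const_of_per hη (h := fun p => (z p).1 - p.1)
    (hd1.sub differentiable_fst.differentiableOn)
    (fun p hp => by
      show (z (p.1 + 1, p.2)).1 - (p.1 + 1) = (z p).1 - p.1
      rw [hper p hp]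
      ring)
    (fun p hp hp' => by
      show (z (p.1 + p.2, p.2)).1 - (p.1 + p.2) = (z p).1 - p.1
      rw [hstep p hp hp']
      show (z p).1 + (z p).2 - (p.1 + p.2) = (z p).1 - p.1
      rw [hs2' p hp]
      ring)
  refine ⟨η, hη, by linarith, fun ρ => (z (0, ρ)).1, ?_, ?_, ?_⟩
  · exact (hd1.comp hin hV0).analyticOnNhd isOpen_ball
  · have h1 : z (0, 0) = (0, 0) := by
      apply huni _ (hV0 0 (mem_ball_self hη))
      · simpa using hr
      · simpa using hr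
      · have h2 := h0 0 (V_U (real_V (show 0 < c / 4 by linarith) 0)).1
        simp only [Ph, add_zero, h2]
    show (z (0, 0)).1 = 0
    rw [h1]
  · intro p hp
    have hpV : p ∈ V η := of_mem_U hp
    have h1 : (z p).1 - p.1 = (z (0, p.2)).1 - 0 := hw p hpV
    rw [sub_zero] at h1
    have h2 : p.1 + (z (0, p.2)).1 = (z p).1 := by
      rw [← h1]
      ring
    show p.1 + (z (0, p.2)).1 ∈ St (-c) c ∧ G p = F (p.1 + (z (0, p.2)).1, p.2)
    rw [h2]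
    refine ⟨(V_U (hzc p hpV)).1, ?_⟩
    have h3 : F (z p) = G p := congrArg Prod.fst (hz p hpV).2.2
    have h4 : z p = ((z p).1, p.2) := Prod.ext rfl (hs2' p hpV)
    rw [← h3, ← h4]

end Pool.Agent.MP_ae5b4e_an_NBT
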