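import Mathlib
import Pool.Agent.Lib.MP_ae5b4e_an_NBT.DatE

/-!
# MP_ae5b4e_an, project NB: evenness
-/

noncomputable section

namespace Pool.Agent.MP_ae5b4e_an_NBT

open Complex Set Filter Topology Metric
open Pool.Agent.MP_ae5b4e_an_MERO (Dat)
open scoped ComplexConjugate

/-- local injectivity in the first variable, uniform in the second -/
private lemma locinj {F : ℂ × ℂ → ℂ} (hF : AnalyticAt ℂ F (0, 0))
    (hdt : deriv (fun s => F (s, 0)) 0 ≠ 0) :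
    ∃ δ > 0, ∀ s₁ s₂ ρ : ℂ, ‖s₁‖ < δ → ‖s₂‖ < δ → ‖ρ‖ < δ → F (s₁, ρ) = F (s₂, ρ) → s₁ = s₂ := by
  have h1 := hF.hasStrictFDerivAt
  set L := fderiv ℂ F (0, 0) with hL
  have h2 : HasDerivAt (fun s : ℂ => F (s, 0)) (L (1, 0)) 0 := by
    have h3 : HasDerivAt (fun s : ℂ => (s, (0:ℂ))) ((1 : ℂ), (0 : ℂ)) 0 :=
      (hasDerivAt_id (0:ℂ)).prodMk (hasDerivAt_const (0:ℂ) (0:ℂ))
    exact HasFDerivAt.comp_hasDerivAt (f := fun s : ℂ => (s, (0:ℂ))) 0 h1.hasFDerivAt h3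
  have h3 : L (1, 0) ≠ 0 := by
    rw [← h2.deriv]
    exact hdt
  have h4 := h1.isLittleO
  have h5 : 0 < ‖L (1, 0)‖ / 2 := by positivity
  have h6 := h4.def h5
  rw [Metric.eventually_nhds_iff] at h6
  obtain ⟨δ, hδ, h7⟩ := h6
  refine ⟨δ, hδ, fun s₁ s₂ ρ h8 h9 h10 h11 => ?_⟩
  have h12 : dist (((s₁, ρ), (s₂, ρ)) : (ℂ × ℂ) × (ℂ × ℂ)) ((0, 0), (0, 0)) < δ := by
    simp only [Prod.dist_eq, dist_zero_right, max_lt_iff]
    exact ⟨⟨h8, h10⟩, ⟨h9, h10⟩⟩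
  have h13 := h7 h12
  simp only [h11, sub_self, zero_sub, norm_neg, Prod.mk_sub_mk] at h13
  have h14 : L (s₁ - s₂, 0) = (s₁ - s₂) * L (1, 0) := by
    have h15 : ((s₁ - s₂, 0) : ℂ × ℂ) = (s₁ - s₂) • ((1 : ℂ), (0 : ℂ)) := by
      simp
    rw [h15, L.map_smul, smul_eq_mul]
  rw [h14, norm_mul] at h13
  have h15 : ‖((s₁ - s₂, 0) : ℂ × ℂ)‖ = ‖s₁ - s₂‖ := by
    rw [Prod.norm_def]
    simp
  rw [h15] at h13
  have h16 : ‖s₁ - s₂‖ = 0 := by
    have h17 := norm_nonneg (s₁ - s₂)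
    have h18 : 0 < ‖L (1, 0)‖ := by positivity
    nlinarith
  exact sub_eq_zero.1 (norm_eq_zero.1 h16)

private lemma dat_flip {k : ℂ → ℂ} {F : ℂ × ℂ → ℂ} {c : ℝ} (hD : Dat k F c) :
    Dat k (fun p => F (p.1, -p.2)) c := by
  have hm : ∀ p ∈ St (-c) c ×ˢ ball (0:ℂ) c, ((p.1, -p.2) : ℂ × ℂ) ∈ St (-c) c ×ˢ ball (0:ℂ) c := by
    intro p hp
    refine ⟨hp.1, ?_⟩
    have := hp.2
    simpa using this
  constructor
  · exact hD.pos
  · intro p hp
    have h1 : AnalyticAt ℂ (fun q : ℂ × ℂ => ((q.1, -q.2) : ℂ × ℂ)) p :=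
      analyticAt_fst.prod analyticAt_snd.neg
    have h2 : AnalyticAt ℂ F ((fun q : ℂ × ℂ => ((q.1, -q.2) : ℂ × ℂ)) p) := hD.an _ (hm p hp)
    exact AnalyticAt.fun_comp (g := F) h2 h1
  · intro p hp
    exact hD.per _ (hm p hp)
  · intro s t hst
    simp only [neg_zero] at hst
    exact hD.inj _ _ hst
  · intro p hp
    exact hD.reg _ (hm p hp)
  · intro p hp h0 h1
    have h2 : ((p.1 + p.2, -p.2) : ℂ × ℂ) ∈ St (-c) c ×ˢ ball (0:ℂ) c := ⟨h1, (hm p hp).2⟩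
    have h3 := hD.sep _ h2 (neg_ne_zero.2 h0) (by
      show p.1 + p.2 + -p.2 ∈ St (-c) c
      rw [add_neg_cancel_right]
      exact hp.1)
    intro h4
    apply h3
    show F (p.1 + p.2 + -p.2, -p.2) = F (p.1 + p.2, -p.2)
    rw [add_neg_cancel_right]
    exact h4.symm
  · intro p hp h0 h1 h2
    have h3 := hD.fe _ (hm p hp) (neg_ne_zero.2 h0) (by
      show p.1 + -p.2 ∈ St (-c) c
      rw [← sub_eq_add_neg]
      exact h2) (by
      show p.1 - -p.2 ∈ St (-c) c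
      rw [sub_neg_eq_add]
      exact h1)
    simp only [sub_neg_eq_add, ← sub_eq_add_neg] at h3
    show (F (p.1 + p.2, -p.2) - F (p.1, -p.2))⁻¹ + (F (p.1 - p.2, -p.2) - F (p.1, -p.2))⁻¹ =
      k (F (p.1, -p.2))
    rw [← h3, add_comm]

private lemma memSt_abs {c : ℝ} {t : ℂ} : t ∈ St (-c) c ↔ |t.im| < c := by
  rw [abs_lt]
  exact Iff.rfl

theorem con_of_dat {k : ℂ → ℂ} {F : ℂ × ℂ → ℂ} {c : ℝ} (hD : Dat k F c)
    (hr : ∀ p : ℂ × ℂ, |p.1.im| < c → ‖p.2‖ < c → F (conj p.1, conj p.2) * conj (F p) = 1) :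
    ∃ (c' : ℝ) (G : ℂ × ℂ → ℂ), Con k G c' := by
  obtain ⟨c₁, h1, h1c, hdt⟩ := dat_dt hD
  have hD1 : Dat k F c₁ := dat_mono hD h1 h1c
  have hG1 := dat_flip hD1
  obtain ⟨c₂, h2, h21, a, ha, ha0, hu⟩ := dat_unique hD1 hG1 hdt (by
    intro t _
    simp)
  -- the relation
  have hrel : ∀ t ρ : ℂ, |t.im| < c₂ → ‖ρ‖ < c₂ → F (t, -ρ) = F (t + a ρ, ρ) := by
    intro t ρ ht hρ
    exact (hu (t, ρ) ⟨memSt_abs.2 ht, by simpa using hρ⟩).2
  have han0 : AnalyticAt ℂ F (0, 0) := hD1.an _ ⟨memSt_abs.2 (by simpa using h1), by simpa using h1⟩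
  obtain ⟨δ, hδ, hinj⟩ := locinj han0 (hdt (0, 0) ⟨memSt_abs.2 (by simpa using h1), by simpa using h1⟩)
  -- `a` is small near `0`
  have hac : ContinuousAt a 0 := (ha 0 (by simpa using h2)).continuousAt
  have hsm : ∀ ε > 0, ∃ η > 0, ∀ ρ : ℂ, ‖ρ‖ < η → ‖a ρ‖ < ε := by
    intro ε hε
    obtain ⟨η, hη, h⟩ := Metric.continuousAt_iff.1 hac ε hε
    refine ⟨η, hη, fun ρ hρ => ?_⟩
    have := h (x := ρ) (by simpa using hρ)
    rw [ha0] at this
    simpa using this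
  obtain ⟨η, hη, hsmη⟩ := hsm (min (δ / 2) (c₂ / 2)) (by positivity)
  set r : ℝ := min η (min δ (c₂ / 2)) with hrdef
  have hr0 : 0 < r := by positivity
  have hrη : r ≤ η := min_le_left _ _
  have hrδ : r ≤ δ := (min_le_right _ _).trans (min_le_left _ _)
  have hrc : r ≤ c₂ / 2 := (min_le_right _ _).trans (min_le_right _ _)
  have hab : ∀ ρ : ℂ, ‖ρ‖ < r → ‖a ρ‖ < δ / 2 ∧ ‖a ρ‖ < c₂ / 2 := by
    intro ρ hρ
    have := hsmη ρ (lt_of_lt_of_le hρ hrη)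
    exact ⟨lt_of_lt_of_le this (min_le_left _ _), lt_of_lt_of_le this (min_le_right _ _)⟩
  -- `a` is odd
  have hodd : ∀ ρ : ℂ, ‖ρ‖ < r → a (-ρ) = -a ρ := by
    intro ρ hρ
    have hρ' : ‖-ρ‖ < r := by rwa [norm_neg]
    obtain ⟨h3, h4⟩ := hab ρ hρ
    obtain ⟨h5, h6⟩ := hab (-ρ) hρ'
    have h7 := hrel 0 (-ρ) (by simpa using h2) (by linarith)
    rw [neg_neg, zero_add] at h7
    have h8 := hrel (a (-ρ)) ρ (lt_of_le_of_lt (abs_im_le_norm _) (by linarith)) (by linarith)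
    rw [h8] at h7
    have h9 := hinj 0 (a (-ρ) + a ρ) ρ (by simpa using hδ)
      (lt_of_le_of_lt (norm_add_le _ _) (by linarith)) (by linarith) h7
    exact eq_neg_of_add_eq_zero_left h9.symm
  -- `a` is real
  have hreal : ∀ ρ : ℂ, ‖ρ‖ < r → a (conj ρ) = conj (a ρ) := by
    intro ρ hρ
    have hρ' : ‖conj ρ‖ < r := by rwa [norm_conj]
    obtain ⟨h3, h4⟩ := hab ρ hρ
    obtain ⟨h5, h6⟩ := hab (conj ρ) hρ'
    have h7 := hrel 0 ρ (by simpa using h2) (by linarith)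
    have h8 := hrel 0 (conj ρ) (by simpa using h2) (by linarith)
    rw [zero_add] at h7 h8
    have h9 := hr (0, -ρ) (by simpa using hD.pos) (by
      show ‖-ρ‖ < c
      rw [norm_neg]
      linarith)
    have h10 := hr (a ρ, ρ) (lt_of_le_of_lt (abs_im_le_norm _) (by
      show ‖a ρ‖ < c
      linarith)) (by
      show ‖ρ‖ < c
      linarith)
    simp only [map_zero, map_neg] at h9 h10
    rw [h7] at h9
    have h11 : conj (F (a ρ, ρ)) ≠ 0 := right_ne_zero_of_mul_eq_one h9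
    have h12 : F (0, -conj ρ) = F (conj (a ρ), conj ρ) := by
      apply mul_right_cancel₀ h11
      rw [h9, h10]
    rw [h8] at h12
    exact hinj _ _ _ (by linarith) (by
      rw [norm_conj]
      linarith) (by linarith) h12
  have hmem : ∀ t ρ : ℂ, |t.im| < r → ‖ρ‖ < r → |(t + a ρ / 2).im| < c₂ := by
    intro t ρ ht hρ
    obtain ⟨_, h4⟩ := hab ρ hρ
    rw [add_im]
    have h5 : |(a ρ / 2).im| ≤ ‖a ρ / 2‖ := abs_im_le_norm _
    have h6 : ‖a ρ / 2‖ = ‖a ρ‖ / 2 := by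
      rw [norm_div]
      norm_num
    have h7 := abs_add_le t.im (a ρ / 2).im
    linarith
  have hmemp : ∀ p ∈ St (-r) r ×ˢ ball (0:ℂ) r,
      ((p.1 + a p.2 / 2, p.2) : ℂ × ℂ) ∈ St (-c₁) c₁ ×ˢ ball (0:ℂ) c₁ := by
    intro p hp
    have hp2 : ‖p.2‖ < r := by simpa using hp.2
    refine ⟨memSt_abs.2 (lt_of_lt_of_le (hmem p.1 p.2 (memSt_abs.1 hp.1) hp2) h21), ?_⟩
    rw [mem_ball_zero_iff]
    show ‖p.2‖ < c₁
    linarith
  have hball : ∀ p ∈ St (-r) r ×ˢ ball (0:ℂ) r, ‖p.2‖ < r := by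
    intro p hp
    simpa using hp.2
  refine ⟨r, fun p => F (p.1 + a p.2 / 2, p.2), ?_⟩
  have hdat : Dat k (fun p => F (p.1 + a p.2 / 2, p.2)) r := by
    constructor
    · exact hr0
    · intro p hp
      have h3 : AnalyticAt ℂ (fun q : ℂ × ℂ => a q.2) p :=
        AnalyticAt.fun_comp (g := a) (ha p.2 (by
          have := hball p hp
          rw [mem_ball_zero_iff]
          linarith)) analyticAt_snd
      have h4 : AnalyticAt ℂ (fun q : ℂ × ℂ => ((q.1 + a q.2 / 2, q.2) : ℂ × ℂ)) p :=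
        (analyticAt_fst.add (h3.div_const)).prod analyticAt_snd
      exact AnalyticAt.fun_comp (g := F) (hD1.an _ (hmemp p hp)) h4
    · intro p hp
      have h3 := hD1.per _ (hmemp p hp)
      show F (p.1 + 1 + a p.2 / 2, p.2) = F (p.1 + a p.2 / 2, p.2)
      rw [← h3]
      congr 2
      ring
    · intro s t hst
      simp only [ha0, zero_div, add_zero] at hst
      exact hD1.inj _ _ hst
    · intro p hp
      exact hD1.reg _ (hmemp p hp)
    · intro p hp h0 h3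
      have h4 := hD1.sep _ (hmemp p hp) h0 (by
        show p.1 + a p.2 / 2 + p.2 ∈ St (-c₁) c₁
        have h5 := hmem (p.1 + p.2) p.2 (memSt_abs.1 h3) (hball p hp)
        rw [memSt_abs]
        have h6 : p.1 + a p.2 / 2 + p.2 = p.1 + p.2 + a p.2 / 2 := by ring
        rw [h6]
        linarith)
      show F (p.1 + p.2 + a p.2 / 2, p.2) ≠ F (p.1 + a p.2 / 2, p.2)
      have h6 : p.1 + p.2 + a p.2 / 2 = p.1 + a p.2 / 2 + p.2 := by ring
      rw [h6]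
      exact h4
    · intro p hp h0 h3 h3'
      have h4 := hD1.fe _ (hmemp p hp) h0 (by
        show p.1 + a p.2 / 2 + p.2 ∈ St (-c₁) c₁
        have h5 := hmem (p.1 + p.2) p.2 (memSt_abs.1 h3) (hball p hp)
        rw [memSt_abs]
        have h6 : p.1 + a p.2 / 2 + p.2 = p.1 + p.2 + a p.2 / 2 := by ring
        rw [h6]
        linarith) (by
        show p.1 + a p.2 / 2 - p.2 ∈ St (-c₁) c₁
        have h5 := hmem (p.1 - p.2) p.2 (memSt_abs.1 h3') (hball p hp)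
        rw [memSt_abs]
        have h6 : p.1 + a p.2 / 2 - p.2 = p.1 - p.2 + a p.2 / 2 := by ring
        rw [h6]
        linarith)
      show (F (p.1 + p.2 + a p.2 / 2, p.2) - F (p.1 + a p.2 / 2, p.2))⁻¹ +
        (F (p.1 - p.2 + a p.2 / 2, p.2) - F (p.1 + a p.2 / 2, p.2))⁻¹ =
          k (F (p.1 + a p.2 / 2, p.2))
      have h6 : p.1 + p.2 + a p.2 / 2 = p.1 + a p.2 / 2 + p.2 := by ring
      have h7 : p.1 - p.2 + a p.2 / 2 = p.1 + a p.2 / 2 - p.2 := by ring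
      rw [h6, h7]
      exact h4
  refine { toDat := hdat, even := ?_, refl := ?_, dt := ?_ }
  · intro p hp
    have hρ := hball p hp
    show F (p.1 + a (-p.2) / 2, -p.2) = F (p.1 + a p.2 / 2, p.2)
    rw [hodd p.2 hρ]
    have h3 : |(p.1 + -a p.2 / 2).im| < c₂ := by
      obtain ⟨_, h4⟩ := hab p.2 hρ
      rw [add_im]
      have h5 : |(-a p.2 / 2).im| ≤ ‖-a p.2 / 2‖ := abs_im_le_norm _
      have h6 : ‖-a p.2 / 2‖ = ‖a p.2‖ / 2 := by
        rw [norm_div, norm_neg]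
        norm_num
      have h7 := abs_add_le p.1.im (-a p.2 / 2).im
      have h8 := memSt_abs.1 hp.1
      linarith
    rw [hrel _ _ h3 (by linarith)]
    congr 2
    ring
  · intro p hp
    have hρ := hball p hp
    show F (conj p.1 + a (conj p.2) / 2, conj p.2) * conj (F (p.1 + a p.2 / 2, p.2)) = 1
    have h3 := hr (p.1 + a p.2 / 2, p.2)
      (lt_of_lt_of_le (hmem p.1 p.2 (memSt_abs.1 hp.1) hρ) (h21.trans h1c)) (by
        show ‖p.2‖ < c
        linarith)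
    rw [hreal p.2 hρ]
    have h4 : conj p.1 + conj (a p.2) / 2 = conj (p.1 + a p.2 / 2) := by
      rw [map_add, map_div₀]
      have h5 : conj (2 : ℂ) = 2 := Complex.conj_ofNat 2
      rw [h5]
    rw [h4]
    exact h3
  · intro p hp
    have h3 := hdt _ (hmemp p hp)
    show deriv (fun s => F (s + a p.2 / 2, p.2)) p.1 ≠ 0
    have h4 : deriv (fun s => F (s + a p.2 / 2, p.2)) p.1 =
        deriv (fun s => F (s, p.2)) (p.1 + a p.2 / 2) :=
      deriv_comp_add_const (f := fun s => F (s, p.2)) (a p.2 / 2) p.1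
    rw [h4]
    exact h3

end Pool.Agent.MP_ae5b4e_an_NBT
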