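import Mathlib
import Pool.Agent.Lib.MP_ae5b4e_an_RG.SmC
import Pool.Agent.Lib.MP_ae5b4e_an_MERO.Normal
import Pool.Agent.Lib.MP_ae5b4e_an_NBT.CirK
import Pool.Agent.Lib.MP_ae5b4e_an_NBT.DatR
import Pool.Agent.Lib.MP_ae5b4e_an_NBT.DatF

/-!
# MP_ae5b4e_an, project NB: continuous foliations around the circle give the conic datum
-/

noncomputable section

namespace Pool.Agent.MP_ae5b4e_an_NBT

open Complex Set Filter Topology Metric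
open Pool.Agent.MP_ae5b4e_an_RG (CFam)

theorem exists_con {U : ℝ → ℝ → ℝ} {κ : ℝ → ℝ} (hU : CFam U κ) :
    ∃ (k : ℂ → ℂ) (F : ℂ × ℂ → ℂ) (c : ℝ), Con k F c ∧
      ∀ θ : ℝ, k (exp (θ * I)) = -(exp (θ * I))⁻¹ + κ θ / (2 * I * exp (θ * I)) := by
  obtain ⟨b, c, r, ψ, F, hψ, hc, hr, -, hF, -, hel⟩ := Pool.Agent.MP_ae5b4e_an_RG.smooth_c0 hU
  obtain ⟨K, hK⟩ := exists_circle_ext hU.analytic_κ hU.κ_per
  obtain ⟨c', Z, hZ, hsy⟩ := dat_refl hψ hc hr hF hel (K := K) (fun θ => (hK θ).1)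
    (fun θ => (hK θ).2.symm) (k := fun w => -w⁻¹ + K w / (2 * I * w))
    (fun z _ _ => EventuallyEq.rfl)
  obtain ⟨c'', G, hG⟩ := con_of_dat hZ hsy
  refine ⟨_, G, c'', hG, fun θ => ?_⟩
  show -(exp (θ * I))⁻¹ + K (exp (θ * I)) / (2 * I * exp (θ * I)) = _
  rw [(hK θ).2]

end Pool.Agent.MP_ae5b4e_an_NBT
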