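import Mathlib
import Pool.Agent.Lib.MP_ae5b4e_an_NBT.Defs
import Pool.Agent.Lib.MP_ae5b4e_an_LL.Lim

/-!
# MP_ae5b4e_an, project NB: Hartogs' theorem, with a joint base
-/

noncomputable section

namespace Pool.Agent.MP_ae5b4e_an_NBT

open Complex Set Filter Topology Metric InnerProductSpace

private theorem hartS_sub {φ : ℂ → ℂ} {U : Set ℂ} (hU : IsOpen U) (hφ : AnalyticOnNhd ℂ φ U) :
    Pool.Agent.Lib.MP_ae5b4e_an_LL.SubH (fun z => Real.posLog ‖φ z‖) U := by
  apply Pool.Agent.Lib.MP_ae5b4e_an_LL.SubH.of_local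
  intro p hp
  by_cases h1 : ‖φ p‖ < 1
  · have h2 : ∀ᶠ z in 𝓝 p, ‖φ z‖ < 1 :=
      (hφ p hp).continuousAt.norm.eventually_lt continuousAt_const h1
    obtain ⟨W, hW1, hW2, hW3⟩ := _root_.mem_nhds_iff.1 h2
    refine ⟨W, hW2.mem_nhds hW3, ?_⟩
    refine (Pool.Agent.Lib.MP_ae5b4e_an_LL.SubH.const 0 W).congr hW2 fun z hz => ?_
    have h3 : ‖φ z‖ < 1 := hW1 hz
    symm
    rw [Real.posLog_eq_zero_iff, abs_of_nonneg (norm_nonneg _)]
    exact h3.le
  · have h0 : φ p ≠ 0 := by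
      intro h0
      rw [h0, norm_zero] at h1
      exact h1 one_pos
    have h2 : ∀ᶠ z in 𝓝 p, φ z ≠ 0 ∧ z ∈ U :=
      ((hφ p hp).continuousAt.eventually_ne h0).and (hU.mem_nhds hp)
    obtain ⟨W, hW1, hW2, hW3⟩ := _root_.mem_nhds_iff.1 h2
    refine ⟨W, hW2.mem_nhds hW3, ?_⟩
    have h4 : HarmonicOnNhd (fun z => Real.log ‖φ z‖) W := by
      intro z hz
      obtain ⟨h5, h6⟩ := hW1 hz
      exact (hφ z h6).harmonicAt_log_norm h5
    have h5 := (Pool.Agent.Lib.MP_ae5b4e_an_LL.SubH.const 0 W).max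
      (Pool.Agent.Lib.MP_ae5b4e_an_LL.SubH.of_harmonic hW2 h4)
    exact h5

private theorem hartS_harnack {v : ℂ → ℝ} {c : ℂ} {s : ℝ} (hs : 0 < s)
    (hv : Pool.Agent.Lib.MP_ae5b4e_an_LL.SubH v (ball c s))
    (hc : ContinuousOn v (closedBall c s)) (h0 : ∀ z ∈ sphere c s, 0 ≤ v z) {w : ℂ}
    (hw : w ∈ ball c (s / 3)) : v w ≤ 2 * Real.circleAverage v c s := by
  obtain ⟨u, hu1, hu2, hu3⟩ := Pool.Agent.Lib.MP_1f4a82_an.exists_dirichlet hs
    (hc.mono sphere_subset_closedBall)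
  have hws : w ∈ ball c s := ball_subset_ball (by linarith) hw
  have h1 : v w ≤ u w := hv.le_dirichlet hc.upperSemicontinuousOn hu1 hu2
    (fun z hz => (hu3 z hz).ge) w (ball_subset_closedBall hws)
  have h2 := (HarmonicContOnCl.mk_ball hu2 hu1).circleAverage_re_herglotzRieszKernel_smul hws
  have hker : ContinuousOn (herglotzRieszKernel c w) (sphere c s) := by
    have := continuousOn_herglotzRieszKernel_sphere (c := c) (R := s) hws
    rwa [abs_of_pos hs] at this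
  have h3 : Real.circleAverage ((re ∘ herglotzRieszKernel c w) • u) c s ≤
      Real.circleAverage (fun z => 2 * v z) c s := by
    refine Real.circleAverage_mono ?_ ?_ ?_
    · refine ContinuousOn.circleIntegrable hs.le ?_
      exact (continuous_re.comp_continuousOn hker).smul (hu1.mono sphere_subset_closedBall)
    · exact ContinuousOn.circleIntegrable hs.le
        (continuousOn_const.mul (hc.mono sphere_subset_closedBall))
    · intro z hz
      rw [abs_of_pos hs] at hz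
      have h4 := re_herglotzRieszKernel_le hz hws
      have hn : ‖w - c‖ < s / 3 := by
        rw [← dist_eq_norm]
        exact hw
      have h5 : (s + ‖w - c‖) / (s - ‖w - c‖) ≤ 2 := by
        rw [div_le_iff₀ (by linarith)]
        linarith
      show (herglotzRieszKernel c w z).re • u z ≤ 2 * v z
      rw [hu3 z hz, smul_eq_mul]
      exact mul_le_mul_of_nonneg_right (h4.trans h5) (h0 z hz)
  rw [h2] at h3
  have h4 : Real.circleAverage (fun z => 2 * v z) c s = 2 * Real.circleAverage v c s := by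
    have := Real.circleAverage_smul (a := (2 : ℝ)) (f := v) (c := c) (R := s)
    simpa [Pi.smul_def] using this
  rw [h4] at h3
  exact h1.trans h3

/-- Hartogs' lemma -/
private theorem hartS_lemma {g : ℕ → ℂ → ℂ} {U : Set ℂ} (hU : IsOpen U)
    (hg : ∀ n, AnalyticOnNhd ℂ (g n) U) {c : ℂ} {s : ℝ} (hs : 0 < s)
    (hsU : closedBall c s ⊆ U) {C K q q' : ℝ} (hq : 0 < q) (hqq : q < q')
    (hC : ∀ n, ∀ z ∈ sphere c s, ‖g n z‖ ≤ C * K ^ n)
    (hpt : ∀ z ∈ sphere c s, ∀ᶠ n in atTop, ‖g n z‖ ≤ q ^ n) :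
    ∀ᶠ n in atTop, ∀ z ∈ ball c (s / 3), ‖g n z‖ ≤ q' ^ n := by
  set v : ℕ → ℂ → ℝ := fun n z => (n : ℝ)⁻¹ * Real.posLog ‖g n z / (q : ℂ) ^ n‖ with hv
  have hqn : ∀ n, ((q : ℂ) ^ n) ≠ 0 := fun n => pow_ne_zero n (by exact_mod_cast hq.ne')
  have han : ∀ n, AnalyticOnNhd ℂ (fun z => g n z / (q : ℂ) ^ n) U := fun n z hz =>
    (hg n z hz).div analyticAt_const (hqn n)
  have hnorm : ∀ n z, ‖g n z / (q : ℂ) ^ n‖ = ‖g n z‖ / q ^ n := by
    intro n z
    rw [norm_div, norm_pow, Complex.norm_real, Real.norm_eq_abs, abs_of_pos hq]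
  have hvc : ∀ n, ContinuousOn (v n) U := by
    intro n
    exact continuousOn_const.mul
      (Real.continuous_posLog.comp_continuousOn (han n).continuousOn.norm)
  have hv0 : ∀ n z, 0 ≤ v n z := fun n z =>
    mul_nonneg (by positivity) Real.posLog_nonneg
  have hvs : ∀ n, Pool.Agent.Lib.MP_ae5b4e_an_LL.SubH (v n) U := fun n =>
    (hartS_sub hU (han n)).const_mul (by positivity)
  -- the bound
  set M : ℝ := Real.posLog C + Real.posLog (K / q) with hM
  have hvM : ∀ n, ∀ z ∈ sphere c s, v n z ≤ M := by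
    intro n z hz
    have hM1 : 0 ≤ Real.posLog C := Real.posLog_nonneg
    have hM2 : 0 ≤ Real.posLog (K / q) := Real.posLog_nonneg
    rcases Nat.eq_zero_or_pos n with hn | hn
    · rw [hv, hn]
      simp only [Nat.cast_zero, inv_zero, zero_mul]
      positivity
    · have hn' : (1 : ℝ) ≤ n := by exact_mod_cast hn
      have h1 : Real.posLog ‖g n z / (q : ℂ) ^ n‖ ≤
          Real.posLog C + n * Real.posLog (K / q) := by
        rw [hnorm, ← Real.posLog_pow]
        refine le_trans (Real.posLog_le_posLog (by positivity) ?_) Real.posLog_mul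
        rw [div_pow, mul_div_assoc', div_le_div_iff_of_pos_right (by positivity)]
        exact hC n z hz
      show (n : ℝ)⁻¹ * Real.posLog ‖g n z / (q : ℂ) ^ n‖ ≤ M
      rw [inv_mul_le_iff₀ (by linarith), hM]
      nlinarith
  -- circle averages
  have hav : Tendsto (fun n => Real.circleAverage (v n) c s) atTop (𝓝 0) := by
    have h1 : Tendsto (fun n => ∫ θ in (0:ℝ)..2 * Real.pi, v n (circleMap c s θ)) atTop
        (𝓝 (∫ θ in (0:ℝ)..2 * Real.pi, (0:ℝ))) := by
      refine intervalIntegral.tendsto_integral_filter_of_dominated_convergence (fun _ => M)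
        ?_ ?_ ?_ ?_
      · refine Eventually.of_forall fun n => ?_
        have h2 : Continuous fun θ => v n (circleMap c s θ) := by
          refine (hvc n).comp_continuous (continuous_circleMap c s) fun θ => ?_
          exact hsU (sphere_subset_closedBall (circleMap_mem_sphere c hs.le θ))
        exact h2.aestronglyMeasurable
      · refine Eventually.of_forall fun n => ?_
        refine Eventually.of_forall fun θ _ => ?_
        rw [Real.norm_eq_abs, abs_of_nonneg (hv0 _ _)]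
        exact hvM n _ (circleMap_mem_sphere c hs.le θ)
      · exact intervalIntegrable_const
      · refine Eventually.of_forall fun θ _ => ?_
        refine tendsto_const_nhds.congr' ?_
        filter_upwards [hpt _ (circleMap_mem_sphere c hs.le θ)] with n hn
        have h3 : Real.posLog ‖g n (circleMap c s θ) / (q : ℂ) ^ n‖ = 0 := by
          rw [Real.posLog_eq_zero_iff, abs_of_nonneg (norm_nonneg _), hnorm,
            div_le_one (by positivity)]
          exact hn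
        show (0 : ℝ) = (n : ℝ)⁻¹ * Real.posLog ‖g n (circleMap c s θ) / (q : ℂ) ^ n‖
        rw [h3, mul_zero]
    have h2 := h1.const_mul (2 * Real.pi)⁻¹
    rw [intervalIntegral.integral_zero, mul_zero] at h2
    exact h2
  have hε : 0 < Real.log (q' / q) := Real.log_pos (by rw [one_lt_div hq]; exact hqq)
  filter_upwards [hav.eventually_lt_const (half_pos hε), eventually_gt_atTop 0] with n hn hn0 z hz
  have h1 := hartS_harnack hs ((hvs n).mono (ball_subset_closedBall.trans hsU))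
    ((hvc n).mono hsU) (fun z _ => hv0 n z) hz
  have hn' : (0 : ℝ) < n := by exact_mod_cast hn0
  have h2 : v n z ≤ Real.log (q' / q) := by linarith
  have h3 : Real.posLog (‖g n z‖ / q ^ n) ≤ n * Real.log (q' / q) := by
    rw [← hnorm, ← inv_mul_le_iff₀ hn']
    exact h2
  have hq' : 0 < q' := hq.trans hqq
  by_cases h4 : ‖g n z‖ = 0
  · rw [h4]
    positivity
  · have h5 : 0 < ‖g n z‖ / q ^ n := div_pos (lt_of_le_of_ne (norm_nonneg _) (Ne.symm h4))
      (by positivity)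
    have h6 : Real.log (‖g n z‖ / q ^ n) ≤ n * Real.log (q' / q) :=
      (le_max_right _ _).trans h3
    rw [← Real.log_pow, Real.log_le_log_iff h5 (by positivity), div_pow,
      div_le_div_iff_of_pos_right (by positivity)] at h6
    exact h6

private theorem hartS_line {C : ℂ × ℂ → ℂ} {q : ℂ × ℂ} (hC : AnalyticAt ℂ C q) :
    deriv (fun s => C (s, q.2)) q.1 = fderiv ℂ C q (1, 0) := by
  have h1 : HasFDerivAt C (fderiv ℂ C q) q := hC.differentiableAt.hasFDerivAt
  have h2 : HasDerivAt (fun s : ℂ => ((s, q.2) : ℂ × ℂ)) (1, 0) q.1 :=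
    (hasDerivAt_id q.1).prodMk (hasDerivAt_const q.1 q.2)
  have h3 : HasDerivAt (fun s : ℂ => C (s, q.2)) (fderiv ℂ C q (1, 0)) q.1 :=
    HasFDerivAt.comp_hasDerivAt (x := q.1) (f := fun s : ℂ => ((s, q.2) : ℂ × ℂ)) h1 h2
  exact h3.deriv

/-- the derivatives in `t` are analytic -/
private theorem hartS_iter {G : ℂ × ℂ → ℂ} {U : Set (ℂ × ℂ)} (hU : IsOpen U)
    (hG : AnalyticOnNhd ℂ G U) (n : ℕ) :
    AnalyticOnNhd ℂ (fun p : ℂ × ℂ => iteratedDeriv n (fun t => G (t, p.2)) p.1) U := by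
  induction n with
  | zero =>
    intro p hp
    simp only [iteratedDeriv_zero]
    exact hG p hp
  | succ n ih =>
    intro p hp
    have h1 : AnalyticAt ℂ (fun q : ℂ × ℂ => fderiv ℂ
        (fun p : ℂ × ℂ => iteratedDeriv n (fun t => G (t, p.2)) p.1) q (1, 0)) p :=
      ((ContinuousLinearMap.apply ℂ ℂ ((1 : ℂ), (0 : ℂ))).analyticAt _).comp (ih p hp).fderiv
    refine h1.congr ?_
    filter_upwards [hU.mem_nhds hp] with q hq
    rw [← hartS_line (ih q hq), iteratedDeriv_succ]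

private theorem hartS_coeff {G : ℂ × ℂ → ℂ} {W : Set ℂ} (hW : IsOpen W) {t₀ : ℂ} {r₀ : ℝ}
    (hr₀ : 0 < r₀) (hb : AnalyticOnNhd ℂ G (ball t₀ r₀ ×ˢ W)) (n : ℕ) :
    AnalyticOnNhd ℂ (fun ρ => iteratedDeriv n (fun t => G (t, ρ)) t₀ / (n.factorial : ℂ)) W := by
  intro ρ hρ
  have h1 := hartS_iter (isOpen_ball.prod hW) hb n (t₀, ρ) ⟨mem_ball_self hr₀, hρ⟩
  have h2 : AnalyticAt ℂ (fun ρ : ℂ => ((t₀, ρ) : ℂ × ℂ)) ρ :=
    analyticAt_const.prod analyticAt_id
  exact (AnalyticAt.fun_comp h1 h2).div analyticAt_const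
    (by exact_mod_cast n.factorial_ne_zero)

/-- Cauchy's estimates -/
private theorem hartS_cauchy {f : ℂ → ℂ} {t₀ : ℂ} {R C : ℝ} (hR : 0 < R)
    (hf : AnalyticOnNhd ℂ f (closedBall t₀ R)) (hC : ∀ z ∈ sphere t₀ R, ‖f z‖ ≤ C) (n : ℕ) :
    ‖iteratedDeriv n f t₀ / (n.factorial : ℂ)‖ ≤ C * (1 / R) ^ n := by
  have h1 : DiffContOnCl ℂ f (ball t₀ R) := by
    refine ⟨hf.differentiableOn.mono ball_subset_closedBall, ?_⟩
    exact hf.continuousOn.mono closure_ball_subset_closedBall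
  have h2 := norm_iteratedDeriv_le_of_forall_mem_sphere_norm_le n hR h1 hC
  have h3 : (0 : ℝ) < n.factorial := by exact_mod_cast n.factorial_pos
  rw [norm_div, Complex.norm_natCast, div_le_iff₀ h3]
  refine h2.trans (le_of_eq ?_)
  rw [one_div, inv_pow]
  field_simp

/-- one disc -/
theorem joint_disc {G : ℂ × ℂ → ℂ} {W : Set ℂ} (hW : IsOpen W) {t₀ : ℂ} {r₀ r : ℝ} (hr₀ : 0 < r₀)
    (hr : r₀ ≤ r) (hG : ∀ ρ ∈ W, AnalyticOnNhd ℂ (fun t => G (t, ρ)) (ball t₀ r))
    (hb : AnalyticOnNhd ℂ G (ball t₀ r₀ ×ˢ W)) : AnalyticOnNhd ℂ G (ball t₀ r ×ˢ W) := by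
  rintro ⟨t₁, ρ₀⟩ ⟨ht₁, hρ₀⟩
  have hr0 : 0 < r := hr₀.trans_le hr
  -- the radii `r₁ < r₂ < r₃ < r`
  obtain ⟨r₁, hr1, hr1'⟩ : ∃ r₁, max (dist t₁ t₀) 0 < r₁ ∧ r₁ < r :=
    exists_between (max_lt ht₁ hr0)
  have hr1p : 0 < r₁ := (le_max_right _ _).trans_lt hr1
  have ht1 : t₁ ∈ ball t₀ r₁ := (le_max_left _ _).trans_lt hr1
  obtain ⟨r₂, hr12, hr2'⟩ := exists_between hr1'
  obtain ⟨r₃, hr23, hr3'⟩ := exists_between hr2'
  obtain ⟨r₄, hr34, hr4'⟩ := exists_between hr3'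
  have hr2p : 0 < r₂ := hr1p.trans hr12
  have hr3p : 0 < r₃ := hr2p.trans hr23
  have hr4p : 0 < r₄ := hr3p.trans hr34
  obtain ⟨s, hs, hsW⟩ := nhds_basis_closedBall.mem_iff.1 (hW.mem_nhds hρ₀)
  set g : ℕ → ℂ → ℂ := fun n ρ => iteratedDeriv n (fun t => G (t, ρ)) t₀ / (n.factorial : ℂ)
    with hg
  have hgan : ∀ n, AnalyticOnNhd ℂ (g n) W := fun n => hartS_coeff hW hr₀ hb n
  -- the bound near the base
  have hsub : closedBall t₀ (r₀ / 2) ×ˢ closedBall ρ₀ s ⊆ ball t₀ r₀ ×ˢ W :=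
    prod_mono (closedBall_subset_ball (by linarith)) hsW
  obtain ⟨C, hC⟩ := ((isCompact_closedBall t₀ (r₀ / 2)).prod
    (isCompact_closedBall ρ₀ s)).exists_bound_of_continuousOn (hb.continuousOn.mono hsub)
  have hC1 : ∀ n, ∀ ρ ∈ sphere ρ₀ s, ‖g n ρ‖ ≤ C * (1 / (r₀ / 2)) ^ n := by
    intro n ρ hρ
    refine hartS_cauchy (half_pos hr₀) (fun z hz => ?_) (fun z hz => ?_) n
    · exact hG ρ (hsW (sphere_subset_closedBall hρ)) z
        (closedBall_subset_ball (by linarith) hz)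
    · exact hC (z, ρ) ⟨sphere_subset_closedBall hz, sphere_subset_closedBall hρ⟩
  have hpt : ∀ ρ ∈ sphere ρ₀ s, ∀ᶠ n in atTop, ‖g n ρ‖ ≤ (1 / r₃) ^ n := by
    intro ρ hρ
    have hρW := hsW (sphere_subset_closedBall hρ)
    have h1 : AnalyticOnNhd ℂ (fun t => G (t, ρ)) (closedBall t₀ r₄) := fun z hz =>
      hG ρ hρW z (closedBall_subset_ball hr4' hz)
    obtain ⟨D, hD⟩ := (isCompact_closedBall t₀ r₄).exists_bound_of_continuousOn h1.continuousOn
    have h2 : ∀ n, ‖g n ρ‖ ≤ D * (1 / r₄) ^ n := fun n =>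
      hartS_cauchy hr4p h1 (fun z hz => hD z (sphere_subset_closedBall hz)) n
    have h3 : Tendsto (fun n : ℕ => D * (r₃ / r₄) ^ n) atTop (𝓝 (D * 0)) :=
      (tendsto_pow_atTop_nhds_zero_of_lt_one (by positivity)
        (by rw [div_lt_one hr4p]; exact hr34)).const_mul D
    rw [mul_zero] at h3
    filter_upwards [h3.eventually_lt_const one_pos] with n hn
    refine (h2 n).trans ?_
    have h4 : D * (1 / r₄) ^ n = D * (r₃ / r₄) ^ n * (1 / r₃) ^ n := by
      rw [mul_assoc, ← mul_pow]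
      congr 2
      field_simp
    rw [h4]
    have h5 : 0 < (1 / r₃) ^ n := by positivity
    nlinarith
  have hlem := hartS_lemma hW hgan hs hsW (q := 1 / r₃) (q' := 1 / r₂) (by positivity)
    (one_div_lt_one_div_of_lt hr2p hr23) hC1 hpt
  -- the series
  have hsum : Summable fun n : ℕ => (r₁ / r₂) ^ n :=
    summable_geometric_of_lt_one (by positivity) (by rw [div_lt_one hr2p]; exact hr12)
  have hunif := tendstoUniformlyOn_tsum_nat_eventually hsum
    (f := fun n (p : ℂ × ℂ) => g n p.2 * (p.1 - t₀) ^ n) (s := ball t₀ r₁ ×ˢ ball ρ₀ (s / 3))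
    (by
      filter_upwards [hlem] with n hn p hp
      rw [norm_mul, norm_pow]
      have h1 := hn p.2 hp.2
      have h2 : ‖p.1 - t₀‖ ≤ r₁ := by
        rw [← dist_eq_norm]
        exact (mem_ball.1 hp.1).le
      calc ‖g n p.2‖ * ‖p.1 - t₀‖ ^ n ≤ (1 / r₂) ^ n * r₁ ^ n :=
            mul_le_mul h1 (pow_le_pow_left₀ (norm_nonneg _) h2 n) (by positivity)
              (by positivity)
        _ = (r₁ / r₂) ^ n := by
            rw [← mul_pow]
            congr 1
            ring)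
  have hop : IsOpen (ball t₀ r₁ ×ˢ ball ρ₀ (s / 3)) := isOpen_ball.prod isOpen_ball
  have hs3 : ball ρ₀ (s / 3) ⊆ W :=
    (ball_subset_closedBall.trans (closedBall_subset_closedBall (by linarith))).trans hsW
  have han := Pool.Agent.SCV.analyticOnNhd_of_tendstoLocallyUniformlyOn _ hop _ _
    (fun N => by
      intro p hp
      refine Finset.analyticAt_fun_sum _ fun n _ => ?_
      have h1 : AnalyticAt ℂ (fun p : ℂ × ℂ => g n p.2) p :=
        AnalyticAt.fun_comp (g := g n) (f := fun p : ℂ × ℂ => p.2) (hgan n p.2 (hs3 hp.2))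
          analyticAt_snd
      exact h1.mul ((analyticAt_fst.sub analyticAt_const).pow n))
    hunif.tendstoLocallyUniformlyOn
  have hmem : ((t₁, ρ₀) : ℂ × ℂ) ∈ ball t₀ r₁ ×ˢ ball ρ₀ (s / 3) :=
    ⟨ht1, mem_ball_self (by positivity)⟩
  refine (han _ hmem).congr ?_
  filter_upwards [hop.mem_nhds hmem] with p hp
  have hp1 : p.1 ∈ ball t₀ r := ball_subset_ball hr1'.le hp.1
  have h1 := taylorSeries_eq_on_ball' hp1
    (hG p.2 (hs3 hp.2)).differentiableOn
  rw [← h1]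
  refine tsum_congr fun n => ?_
  simp only [hg]
  rw [div_eq_inv_mul]

/-- a function which is analytic in `t` for every `ρ` and jointly analytic near the base is jointly
analytic -/
theorem joint_of_sep {G : ℂ × ℂ → ℂ} {W : Set ℂ} (hW : IsOpen W) {a y : ℝ} (ha : 0 < a)
    (hay : a ≤ y) (hG : ∀ ρ ∈ W, AnalyticOnNhd ℂ (fun t => G (t, ρ)) (St (-a) y))
    (hb : AnalyticOnNhd ℂ G (St (-a) a ×ˢ W)) : AnalyticOnNhd ℂ G (St (-a) y ×ˢ W) := by
  rintro ⟨t₂, ρ₁⟩ ⟨ht₂, hρ₁⟩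
  have hE : IsOpen {t : ℂ | AnalyticAt ℂ G (t, ρ₁)} :=
    (isOpen_analyticAt ℂ G).preimage (f := fun t : ℂ => ((t, ρ₁) : ℂ × ℂ)) (by fun_prop)
  have hpre : IsPreconnected (St (-a) y) := (convex_St _ _).isPreconnected
  have h0 : (0 : ℂ) ∈ St (-a) y := by
    rw [mem_St]
    simp
    constructor <;> linarith
  have h0' : (0 : ℂ) ∈ St (-a) a := by
    rw [mem_St]
    simp
    exact ha
  have hcl : closure {t : ℂ | AnalyticAt ℂ G (t, ρ₁)} ∩ St (-a) y ⊆
      {t : ℂ | AnalyticAt ℂ G (t, ρ₁)} := by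
    rintro t ⟨ht, htS⟩
    obtain ⟨r, hr, hrS⟩ := Metric.isOpen_iff.1 (isOpen_St (-a) y) t htS
    obtain ⟨t₀, ht₀, htd⟩ := Metric.mem_closure_iff.1 ht (r / 2) (half_pos hr)
    have hsub : ball t₀ (r / 2) ⊆ St (-a) y := by
      refine Subset.trans ?_ hrS
      intro z hz
      rw [mem_ball] at hz ⊢
      have := dist_triangle z t₀ t
      rw [dist_comm t₀ t] at this
      linarith
    have h1 : ∀ᶠ p in 𝓝 ((t₀, ρ₁) : ℂ × ℂ), AnalyticAt ℂ G p ∧ p.2 ∈ W :=
      (ht₀ : AnalyticAt ℂ G (t₀, ρ₁)).eventually_analyticAt.and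
        (continuous_snd.continuousAt.eventually (hW.mem_nhds hρ₁))
    obtain ⟨δ, hδ, h2⟩ := Metric.eventually_nhds_iff_ball.1 h1
    rw [← ball_prod_same] at h2
    have h3 := joint_disc (G := G) (W := ball ρ₁ δ) isOpen_ball (t₀ := t₀)
      (r₀ := min δ (r / 2)) (r := r / 2) (lt_min hδ (half_pos hr)) (min_le_right _ _)
      (fun ρ hρ => by
        have h4 := (h2 (t₀, ρ) ⟨mem_ball_self hδ, hρ⟩).2
        exact (hG ρ h4).mono hsub)
      (fun p hp => (h2 p ⟨ball_subset_ball (min_le_left _ _) hp.1, hp.2⟩).1)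
    exact h3 (t, ρ₁) ⟨htd, mem_ball_self hδ⟩
  have h5 : ((0 : ℂ), ρ₁) ∈ St (-a) a ×ˢ W := ⟨h0', hρ₁⟩
  exact hpre.subset_of_closure_inter_subset hE ⟨0, h0, hb _ h5⟩ hcl ht₂

end Pool.Agent.MP_ae5b4e_an_NBT
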