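import Mathlib
import Pool.Agent.Lib.MP_ae5b4e_an_NBT.Defs
import Pool.Agent.Lib.MP_ae5b4e_an_LL.Bridge

/-!
# MP_ae5b4e_an, project NB tools: superharmonic functions, algebra
-/

noncomputable section

namespace Pool.Agent.MP_ae5b4e_an_NBT

open Complex Set Filter Topology Metric InnerProductSpace
open Pool.Agent.Lib.MP_ae5b4e_an_LL

variable {h g : ℂ → ℝ} {W : Set ℂ}

theorem SupH.mono {W' : Set ℂ} (hh : SupH h W) (hW : W' ⊆ W) : SupH h W' :=
  ⟨fun z hz => hh.lsc z (hW hz), fun c s hs hcs => hh.mean c s hs (hcs.trans hW)⟩

theorem SupH.min (hh : SupH h W) (hg : SupH g W) : SupH (fun z => min (h z) (g z)) W := by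
  refine ⟨fun z hz => (hh.lsc z hz).inf (hg.lsc z hz), fun c s hs hcs φ hφ1 hφ2 => ?_⟩
  exact le_min (hh.mean c s hs hcs φ hφ1 fun z hz => (hφ2 z hz).trans (min_le_left _ _))
    (hg.mean c s hs hcs φ hφ1 fun z hz => (hφ2 z hz).trans (min_le_right _ _))

/-- integrability and the mean value inequality on circles -/
theorem SupH.average (hh : SupH h W) {c : ℂ} {s : ℝ} (hs : 0 < s) (hcs : closedBall c s ⊆ W) :
    CircleIntegrable h c s ∧ Real.circleAverage h c s ≤ h c := by
  have husc : UpperSemicontinuousOn (fun z => -h z) (sphere c s) := by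
    intro z hz y hy
    have h1 : -y < h z := by
      have : -h z < y := hy
      linarith
    filter_upwards [(hh.lsc z (hcs (sphere_subset_closedBall hz)) (-y) h1).filter_mono
      nhdsWithin_le_nhds] with w hw
    have : -y < h w := hw
    linarith
  have key := circleIntegrable_and_le (f := fun z => -h z) (a := -h c) hs husc
    (fun g hg1 hg2 => by
      have h1 := hh.mean c s hs hcs (fun z => -g z) hg1.neg (fun z hz => by
        have := hg2 z hz
        linarith)
      have h2 : Real.circleAverage (fun z => -g z) c s = - Real.circleAverage g c s := by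
        have := Real.circleAverage_fun_smul (a := (-1 : ℝ)) (f := g) (c := c) (R := s)
        simpa using this
      rw [h2] at h1
      linarith)
  have h3 : CircleIntegrable h c s := by
    have h4 := key.1.neg
    have e : (-fun z => -h z) = h := by
      funext z
      simp
    rwa [e] at h4
  refine ⟨h3, ?_⟩
  have h2 : Real.circleAverage (fun z => -h z) c s = - Real.circleAverage h c s := by
    have := Real.circleAverage_fun_smul (a := (-1 : ℝ)) (f := h) (c := c) (R := s)
    simpa using this
  have h4 := key.2
  rw [h2] at h4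
  linarith

theorem SupH.add (hh : SupH h W) (hg : SupH g W) : SupH (fun z => h z + g z) W := by
  refine ⟨fun z hz => (hh.lsc z hz).add (hg.lsc z hz), fun c s hs hcs φ hφ1 hφ2 => ?_⟩
  have h1 := hh.average hs hcs
  have h2 := hg.average hs hcs
  calc Real.circleAverage φ c s
      ≤ Real.circleAverage (fun z => h z + g z) c s := by
        apply Real.circleAverage_mono (hφ1.continuousOn.circleIntegrable hs.le) (h1.1.add h2.1)
        intro z hz
        rw [abs_of_pos hs] at hz
        exact hφ2 z hz
    _ = Real.circleAverage h c s + Real.circleAverage g c s :=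
        Real.circleAverage_fun_add h1.1 h2.1
    _ ≤ h c + g c := add_le_add h1.2 h2.2

theorem SupH.const_mul (hh : SupH h W) {k : ℝ} (hk : 0 ≤ k) : SupH (fun z => k * h z) W := by
  rcases hk.eq_or_lt with rfl | hk
  · refine ⟨fun z _ => by simpa using (continuousAt_const (y := (0 : ℝ))).lowerSemicontinuousAt,
      fun c s hs hcs φ hφ1 hφ2 => ?_⟩
    have h1 : Real.circleAverage φ c s ≤ Real.circleAverage (fun _ => (0 : ℝ)) c s := by
      apply Real.circleAverage_mono (hφ1.continuousOn.circleIntegrable hs.le)
        (continuousOn_const.circleIntegrable hs.le)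
      intro z hz
      rw [abs_of_pos hs] at hz
      have := hφ2 z hz
      simpa using this
    rw [Real.circleAverage_const] at h1
    simpa using h1
  · refine ⟨fun z hz y hy => ?_, fun c s hs hcs φ hφ1 hφ2 => ?_⟩
    · have h1 : y / k < h z := by
        rw [div_lt_iff₀ hk]
        have : y < k * h z := hy
        linarith
      filter_upwards [hh.lsc z hz _ h1] with w hw
      have h2 : y / k < h w := hw
      rw [div_lt_iff₀ hk] at h2
      show y < k * h w
      linarith
    · have h4 := hh.mean c s hs hcs (fun z => k⁻¹ * φ z) (continuous_const.mul hφ1)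
        (fun z hz => by
          have := hφ2 z hz
          rw [inv_mul_le_iff₀ hk]
          exact this)
      have h5 : Real.circleAverage (fun z => k⁻¹ * φ z) c s = k⁻¹ * Real.circleAverage φ c s := by
        have := Real.circleAverage_fun_smul (a := k⁻¹) (f := φ) (c := c) (R := s)
        simpa [smul_eq_mul] using this
      rw [h5, inv_mul_le_iff₀ hk] at h4
      exact h4

theorem supH_of_harmonic (hW : IsOpen W) (hh : HarmonicOnNhd h W) : SupH h W :=
  supH_of_subH hW (SubH.of_harmonic hW hh.neg)

/-- `-|Im|` is superharmonic -/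
theorem supH_neg_abs_im : SupH (fun z => -|z.im|) univ := by
  have h1 : SupH (fun z : ℂ => z.im) univ := supH_of_harmonic isOpen_univ fun z _ =>
    AnalyticAt.harmonicAt_im analyticAt_id
  have h2 : SupH (fun z : ℂ => -z.im) univ := supH_of_harmonic isOpen_univ fun z _ =>
    (AnalyticAt.harmonicAt_im analyticAt_id).neg
  have h3 := h1.min h2
  have h4 : (fun z : ℂ => min z.im (-z.im)) = fun z => -|z.im| := by
    funext z
    rcases le_total 0 z.im with h | h
    · rw [abs_of_nonneg h, min_eq_right (by linarith)]
    · rw [abs_of_nonpos h, min_eq_left (by linarith), neg_neg]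
  rwa [h4] at h3

end Pool.Agent.MP_ae5b4e_an_NBT
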