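import Mathlib
import Pool.Agent.Lib.MP_ae5b4e_an_NBT.LabC
import Pool.Agent.Lib.MP_ae5b4e_an_NBT.DomE

/-!
# MP_ae5b4e_an, project NB: the height of the domain of `K`
-/

noncomputable section

namespace Pool.Agent.MP_ae5b4e_an_NBT

open Complex Set Filter Topology Metric
open scoped ComplexConjugate

variable {k : ℂ → ℂ} {F G : ℂ × ℂ → ℂ} {c h : ℝ}

/-- the height of the domain of `K` -/
theorem height_le (hN : NBd k F c h G) {R : ℝ} (hR : R ≤ c / 4) {L : ℂ × ℂ → ℂ}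
    (hL : AnalyticOnNhd ℂ L (DK F c R))
    (hL1 : ∀ p ∈ DK F c R, |(L p).im| < h ∧ L (p.1 + 1, p.2) = L p + 1) {ρ : ℂ}
    (hρ : ρ ∈ ball (0:ℂ) R) {y : ℝ} (hy : ExtM (KF F) (c / 2) (c / 4) y ρ) :
    y + (∫ s in (0:ℝ)..1, (L (s, ρ) - s)).im ≤ h := by
  have hc : 0 < c := hN.pos
  have ha : 0 < c / 2 := by linarith
  have hρ' : ρ ∈ ball (0:ℂ) (c / 4) := ball_subset_ball hR hρ
  have hρc : conj ρ ∈ ball (0:ℂ) (c / 4) := by
    rw [mem_ball_zero_iff, RCLike.norm_conj, ← mem_ball_zero_iff]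
    exact hρ'
  have hFm : Mer F (St (-c) c ×ˢ ball 0 (c / 4)) := by
    refine Mer.of_analytic fun p hp => hN.an p ⟨hp.1, ball_subset_ball (by linarith) hp.2⟩
  have hKm : Mer (KF F) (St (-(c / 2)) (c / 2) ×ˢ ball 0 (c / 4)) :=
    mer_KF (by linarith) hFm
  obtain ⟨y', hyy', hay', hy'⟩ :
      ∃ y', y ≤ y' ∧ c / 2 ≤ y' ∧ ExtM (KF F) (c / 2) (c / 4) y' ρ := by
    rcases le_total (c / 2) y with h1 | h1
    · exact ⟨y, le_rfl, h1, hy⟩
    · exact ⟨c / 2, h1, le_rfl, extM_base hKm hρ'⟩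
  have hmem : ∀ t ∈ St (-(c / 2)) y', (t, ρ) ∈ DK F c R := by
    intro t ht
    refine ⟨hρ, ⟨y', ht.2, hy'⟩, ⟨c / 2, ?_, extM_base hKm hρc⟩⟩
    have := ht.1
    show -t.im < c / 2
    linarith
  have key := lab_height (L := fun t => L (t, ρ)) (h := h) ha hay'
    (fun t ht => (hL (t, ρ) (hmem t ht)).comp₂ analyticAt_id analyticAt_const)
    (fun t ht => abs_lt.1 (hL1 _ (hmem t ht)).1)
    (fun t ht => (hL1 _ (hmem t ht)).2)
  linarith

end Pool.Agent.MP_ae5b4e_an_NBT
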