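import Mathlib
import Pool.Agent.Lib.MP_ae5b4e_an_NBT.Label
import Pool.Agent.Lib.MP_ae5b4e_an_NBT.LabH
import Pool.Agent.Lib.MP_ae5b4e_an_NBT.ConX
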