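import Pool.Agent.Lib.MP_ae5b4e_an_UT.Scal

/-!
# MP_ae5b4e_an, project NB: the Koebe estimate for the pre-Schwarzian derivative
-/

noncomputable section

namespace Pool.Agent.MP_ae5b4e_an_NBT

open Complex Set Filter Topology Metric

/-- Koebe -/
theorem koebe_pre {f : ℂ → ℂ} {w : ℂ} {r : ℝ} (hr : 0 < r) (hf : DifferentiableOn ℂ f (ball w r))
    (hi : InjOn f (ball w r)) : ‖deriv (deriv f) w‖ ≤ 4 / r * ‖deriv f w‖ :=
  Pool.Agent.Lib.MP_ae5b4e_an_UT.ball_second hr hf hi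

end Pool.Agent.MP_ae5b4e_an_NBT
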