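import Mathlib
import Pool.Agent.Lib.MP_ae5b4e_an_NBT.LabD
import Pool.Agent.Lib.MP_ae5b4e_an_NBT.KoebP

/-!
# MP_ae5b4e_an, project NB: ends of a half plane, injective functions
-/

noncomputable section

namespace Pool.Agent.MP_ae5b4e_an_NBT

open Complex Set Filter Topology Metric

/-- the isolated singularities of injective functions are not essential -/
theorem meromorphicAt_of_injOn {f : ℂ → ℂ} {r : ℝ} (hr : 0 < r)
    (hf : AnalyticOnNhd ℂ f (ball 0 r \ {0})) (hi : InjOn f (ball 0 r \ {0})) :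
    MeromorphicAt f 0 := by
  -- a small ball away from the centre
  set c : ℂ := ((3 * r / 4 : ℝ) : ℂ) with hc
  have hcn : ‖c‖ = 3 * r / 4 := by
    rw [hc, Complex.norm_real, Real.norm_eq_abs, abs_of_pos (by positivity)]
  have hB : ∀ z ∈ ball c (r / 8), r / 2 < ‖z‖ ∧ ‖z‖ < r := by
    intro z hz
    rw [mem_ball, dist_eq_norm] at hz
    have h1 : ‖c‖ ≤ ‖z‖ + ‖z - c‖ := by
      have := norm_sub_le z (z - c)
      rwa [sub_sub_cancel] at this
    have h2 : ‖z‖ ≤ ‖c‖ + ‖z - c‖ := by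
      have := norm_add_le c (z - c)
      rwa [add_sub_cancel] at this
    constructor <;> linarith
  have hBs : ball c (r / 8) ⊆ ball 0 r \ {0} := by
    intro z hz
    obtain ⟨h1, h2⟩ := hB z hz
    refine ⟨by simpa using h2, ?_⟩
    rintro rfl
    rw [norm_zero] at h1
    linarith
  have hO : IsOpen (f '' ball c (r / 8)) := by
    rcases (hf.mono hBs).is_constant_or_isOpen (convex_ball c (r / 8)).isPreconnected with h | h
    · exfalso
      obtain ⟨w, hw⟩ := h
      have h1 : c ∈ ball c (r / 8) := mem_ball_self (by positivity)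
      have h2 : c + ((r / 16 : ℝ) : ℂ) ∈ ball c (r / 8) := by
        rw [mem_ball, dist_eq_norm, add_sub_cancel_left, Complex.norm_real, Real.norm_eq_abs,
          abs_of_pos (by positivity)]
        linarith
      have h3 := hi (hBs h1) (hBs h2) ((hw _ h1).trans (hw _ h2).symm)
      have h4 : ((r / 16 : ℝ) : ℂ) = 0 := by
        have := congrArg (fun z => z - c) h3
        simpa using this.symm
      have h5 : r / 16 = 0 := by exact_mod_cast h4
      linarith
    · exact h _ subset_rfl isOpen_ball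
  obtain ⟨ε, hε, hεB⟩ := Metric.isOpen_iff.1 hO (f c)
    (mem_image_of_mem f (mem_ball_self (by positivity)))
  have hfar : ∀ z ∈ ball (0 : ℂ) (r / 2) \ {0}, ε ≤ ‖f z - f c‖ := by
    intro z hz
    by_contra h
    rw [not_le] at h
    obtain ⟨z', hz', he⟩ := hεB (show f z ∈ ball (f c) ε by rwa [mem_ball, dist_eq_norm])
    have h1 : ‖z‖ < r / 2 := by simpa using hz.1
    have h2 := hi (hBs hz') ⟨by
      rw [mem_ball_zero_iff]
      linarith, hz.2⟩ he
    have h3 := (hB z' hz').1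
    rw [h2] at h3
    linarith
  set g : ℂ → ℂ := fun z => (f z - f c)⁻¹ with hg
  have hne : ∀ z ∈ ball (0 : ℂ) (r / 2) \ {0}, f z - f c ≠ 0 := by
    intro z hz h
    have h1 := hfar z hz
    rw [h, norm_zero] at h1
    linarith
  have hsub : ball (0 : ℂ) (r / 2) \ {0} ⊆ ball 0 r \ {0} := fun z hz =>
    ⟨ball_subset_ball (by linarith) hz.1, hz.2⟩
  have hgd : DifferentiableOn ℂ g (ball (0 : ℂ) (r / 2) \ {0}) := by
    intro z hz
    exact (((hf z (hsub hz)).differentiableAt.sub_const _).inv (hne z hz)).differentiableWithinAt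
  have hs : ball (0 : ℂ) (r / 2) ∈ 𝓝 (0 : ℂ) := ball_mem_nhds _ (by positivity)
  have hG := differentiableOn_update_limUnder_of_bddAbove hs hgd ⟨ε⁻¹, by
    rintro _ ⟨z, hz, rfl⟩
    simp only [hg, Function.comp_apply, norm_inv]
    exact inv_anti₀ hε (hfar z hz)⟩
  have hGa := (hG.analyticAt hs).meromorphicAt
  have hgm : MeromorphicAt g 0 := by
    refine hGa.congr ?_
    filter_upwards [self_mem_nhdsWithin] with z hz
    rw [Function.update_of_ne hz]
  have h1 : MeromorphicAt (fun z => (g z)⁻¹ + f c) 0 := hgm.inv.add (MeromorphicAt.const _ _)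
  refine h1.congr (Eventually.of_forall fun z => ?_)
  simp [hg]

/-- a primitive with value `0` at the centre -/
private theorem labIa_prim {q : ℂ → ℂ} {r : ℝ} (hr : 0 < r)
    (hq : DifferentiableOn ℂ q (ball 0 r)) :
    ∃ P : ℂ → ℂ, P 0 = 0 ∧ ∀ z ∈ ball (0 : ℂ) r, HasDerivAt P (q z) z := by
  obtain ⟨P, hP⟩ := hq.isExactOn_ball
  exact ⟨fun z => P z - P 0, by simp, fun z hz => (hP z hz).sub_const _⟩

private theorem labIa_exp {ε : ℝ} (hε : 0 < ε) {w : ℂ} (hw : w.re < Real.log ε) :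
    exp w ∈ ball (0 : ℂ) ε := by
  rw [mem_ball_zero_iff, Complex.norm_exp]
  rwa [← Real.lt_log_iff_exp_lt hε]

/-- a function with derivative zero on a half plane is constant -/
private theorem labIa_const {F : ℂ → ℂ} {a : ℝ}
    (hF : ∀ w : ℂ, w.re < a → HasDerivAt F 0 w) :
    ∀ w w' : ℂ, w.re < a → w'.re < a → F w = F w' := by
  intro w w' hw hw'
  have hcv : Convex ℝ {w : ℂ | w.re < a} := convex_halfSpace_re_lt a
  have ho : IsOpen {w : ℂ | w.re < a} := isOpen_lt continuous_re continuous_const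
  refine ho.is_const_of_deriv_eq_zero hcv.isPreconnected
    (fun z hz => (hF z hz).differentiableAt.differentiableWithinAt)
    (fun z hz => (hF z hz).deriv) hw hw'

/-- the end of a half plane, injective case -/
theorem end_form_inj {M : ℂ → ℂ} {p : ℂ → ℂ} {ε : ℝ} (hε : 0 < ε)
    (hM : DifferentiableOn ℂ M {w | w.re < Real.log ε}) (hi : InjOn M {w | w.re < Real.log ε})
    (hp : MeromorphicAt p 0)
    (hode : ∀ w, w.re < Real.log ε → deriv (deriv M) w = p (exp w) * deriv M w) :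
    ∃ (C c₀ : ℂ) (U : ℂ → ℂ) (ε' : ℝ), C ≠ 0 ∧ 0 < ε' ∧ ε' ≤ ε ∧
      AnalyticOnNhd ℂ U (ball 0 ε') ∧ U 0 = 0 ∧
      ∀ w, w.re < Real.log ε' → M w = C * w + c₀ + U (exp w) := by
  have hHo : IsOpen {w : ℂ | w.re < Real.log ε} := isOpen_lt continuous_re continuous_const
  have hMa : ∀ w : ℂ, w.re < Real.log ε → AnalyticAt ℂ M w := fun w hw =>
    hM.analyticAt (hHo.mem_nhds hw)
  -- the punctured disc
  obtain ⟨ε₁, hε₁, hle, hpa⟩ : ∃ ε₁ : ℝ, 0 < ε₁ ∧ ε₁ ≤ ε ∧
      ∀ v ∈ ball (0 : ℂ) ε₁ \ {0}, AnalyticAt ℂ p v := by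
    have h1 := hp.eventually_analyticAt
    rw [eventually_nhdsWithin_iff, eventually_nhds_iff_ball] at h1
    obtain ⟨δ, hδ, h1⟩ := h1
    exact ⟨min δ ε, lt_min hδ hε, min_le_right _ _, fun v hv =>
      h1 v (ball_subset_ball (min_le_left _ _) hv.1) hv.2⟩
  have hlog : Real.log ε₁ ≤ Real.log ε := Real.log_le_log hε₁ hle
  have hexp : ∀ w : ℂ, w.re < Real.log ε₁ → exp w ∈ ball (0 : ℂ) ε₁ \ {0} := fun w hw =>
    ⟨labIa_exp hε₁ hw, exp_ne_zero w⟩
  -- the derivative does not vanish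
  have hnc : ∀ w₀ : ℂ, w₀.re < Real.log ε → ∀ ρ > 0, ¬ ∀ w ∈ ball w₀ ρ, M w = M w₀ := by
    intro w₀ hw₀ ρ hρ h
    have h1 : ball w₀ ρ ∩ {w : ℂ | w.re < Real.log ε} ∈ 𝓝[≠] w₀ := by
      refine nhdsWithin_le_nhds (inter_mem (ball_mem_nhds _ hρ) (hHo.mem_nhds hw₀))
    obtain ⟨w, ⟨hw1, hw2⟩, hw3⟩ := (Filter.nonempty_of_mem
      (inter_mem h1 (self_mem_nhdsWithin : {w₀}ᶜ ∈ 𝓝[≠] w₀)))
    exact hw3 (hi hw2 hw₀ (h w hw1))
  have hM' : ∀ w₀ : ℂ, w₀.re < Real.log ε₁ → deriv M w₀ ≠ 0 := by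
    intro w₀ hw₀ h0
    have hH1 : IsOpen {w : ℂ | w.re < Real.log ε₁} := isOpen_lt continuous_re continuous_const
    obtain ⟨ρ, hρ, hρs⟩ := Metric.isOpen_iff.1 hH1 w₀ hw₀
    have hq : DifferentiableOn ℂ (fun w => p (exp w)) (ball w₀ ρ) := by
      intro w hw
      exact ((hpa _ (hexp w (hρs hw))).differentiableAt.comp w
        differentiableAt_exp).differentiableWithinAt
    obtain ⟨Q, hQ⟩ := hq.isExactOn_ball
    have hder : ∀ w ∈ ball w₀ ρ, HasDerivAt (fun w => deriv M w * exp (-Q w)) 0 w := by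
      intro w hw
      have hw1 : w.re < Real.log ε₁ := hρs hw
      have h1 : HasDerivAt (deriv M) (deriv (deriv M) w) w :=
        (hMa w (hw1.trans_le hlog)).deriv.differentiableAt.hasDerivAt
      have h2 := h1.mul ((hQ w hw).neg.cexp)
      refine h2.congr_deriv ?_
      rw [hode w (hw1.trans_le hlog)]
      ring
    have hconst : ∀ w ∈ ball w₀ ρ, deriv M w = 0 := by
      intro w hw
      have h1 := isOpen_ball.is_const_of_deriv_eq_zero (convex_ball w₀ ρ).isPreconnected
        (fun z hz => (hder z hz).differentiableAt.differentiableWithinAt)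
        (fun z hz => (hder z hz).deriv) hw (mem_ball_self hρ)
      simp only [h0, zero_mul] at h1
      exact (mul_eq_zero.1 h1).resolve_right (exp_ne_zero _)
    refine hnc w₀ (hw₀.trans_le hlog) ρ hρ fun w hw => ?_
    exact isOpen_ball.is_const_of_deriv_eq_zero (convex_ball w₀ ρ).isPreconnected
      (fun z hz => (hMa z ((hρs hz).trans_le hlog)).differentiableAt.differentiableWithinAt)
      (fun z hz => hconst z hz) hw (mem_ball_self hρ)
  -- the bound for `p`
  have hpb : ∀ v ∈ ball (0 : ℂ) ε₁ \ {0}, ‖p v‖ ≤ 4 / (Real.log ε - Real.log ‖v‖) := by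
    intro v hv
    have hv0 : v ≠ 0 := hv.2
    have hvn : ‖v‖ < ε₁ := by simpa using hv.1
    have hvp : 0 < ‖v‖ := norm_pos_iff.2 hv0
    set w := Complex.log v with hw
    have hew : exp w = v := Complex.exp_log hv0
    have hre : w.re = Real.log ‖v‖ := Complex.log_re v
    have hw1 : w.re < Real.log ε₁ := by
      rw [hre]
      exact Real.log_lt_log hvp hvn
    have hr : 0 < Real.log ε - w.re := by linarith
    have hsub : ball w (Real.log ε - w.re) ⊆ {w : ℂ | w.re < Real.log ε} := by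
      intro z hz
      rw [mem_ball, dist_eq_norm] at hz
      have h1 := (Complex.re_le_norm (z - w)).trans_lt hz
      rw [sub_re] at h1
      show z.re < Real.log ε
      linarith
    have h1 := koebe_pre hr (hM.mono hsub) (hi.mono hsub)
    rw [hode w (hw1.trans_le hlog), norm_mul, hew] at h1
    have h2 := le_of_mul_le_mul_right h1 (norm_pos_iff.2 (hM' w hw1))
    rwa [hre] at h2
  -- the limit of `p`
  have hplim : Tendsto p (𝓝[≠] 0) (𝓝 0) := by
    rw [tendsto_zero_iff_norm_tendsto_zero]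
    have h1 : Tendsto (fun v : ℂ => 4 / (Real.log ε - Real.log ‖v‖)) (𝓝[≠] 0) (𝓝 0) := by
      refine Tendsto.div_atTop tendsto_const_nhds ?_
      have h2 : Tendsto (fun v : ℂ => Real.log ‖v‖) (𝓝[≠] 0) atBot := by
        refine Real.tendsto_log_nhdsNE_zero.comp ?_
        refine tendsto_nhdsWithin_iff.2 ⟨?_, ?_⟩
        · have := (continuous_norm (E := ℂ)).tendsto 0
          rw [norm_zero] at this
          exact this.mono_left nhdsWithin_le_nhds
        · filter_upwards [self_mem_nhdsWithin] with v hv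
          simpa using hv
      exact tendsto_atTop_add_const_left _ _ (tendsto_neg_atBot_atTop.comp h2)
    refine squeeze_zero' (Eventually.of_forall fun v => norm_nonneg _) ?_ h1
    have h3 : ball (0 : ℂ) ε₁ \ {0} ∈ 𝓝[≠] (0 : ℂ) := by
      rw [sdiff_eq, inter_comm]
      exact inter_mem self_mem_nhdsWithin (nhdsWithin_le_nhds (ball_mem_nhds _ hε₁))
    filter_upwards [h3] with v hv using hpb v hv
  set p₁ : ℂ → ℂ := Function.update p 0 0 with hp₁
  have hp₁e : ∀ v : ℂ, v ≠ 0 → p₁ v = p v := fun v hv => Function.update_of_ne hv _ _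
  have hp₁0 : p₁ 0 = 0 := Function.update_self _ _ _
  have hp₁d : DifferentiableOn ℂ p₁ (ball 0 ε₁) := by
    rw [← differentiableOn_compl_singleton_and_continuousAt_iff (ball_mem_nhds _ hε₁)]
    refine ⟨fun v hv => ?_, ?_⟩
    · have h1 : p =ᶠ[𝓝 v] p₁ := by
        filter_upwards [isOpen_ne.mem_nhds hv.2] with z hz using (hp₁e z hz).symm
      exact ((hpa v hv).differentiableAt.congr_of_eventuallyEq h1.symm).differentiableWithinAt
    · exact continuousAt_update_same.2 hplim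
  -- the primitives
  have hqd : DifferentiableOn ℂ (dslope p₁ 0) (ball 0 ε₁) :=
    (differentiableOn_dslope (ball_mem_nhds _ hε₁)).2 hp₁d
  obtain ⟨P, hP0, hP⟩ := labIa_prim hε₁ hqd
  have hdiv : ∀ (h : ℂ → ℂ) (v : ℂ), h 0 = 0 → v ≠ 0 → dslope h 0 v * v = h v := by
    intro h v h0 hv
    rw [dslope_of_ne _ hv, slope_def_field, h0, sub_zero, sub_zero]
    field_simp
  have hexpd : ∀ w : ℂ, HasDerivAt exp (exp w) w := fun w => hasDerivAt_exp w
  have hPe : ∀ w : ℂ, w.re < Real.log ε₁ →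
      HasDerivAt (fun w => P (exp w)) (p (exp w)) w := by
    intro w hw
    have h1 := (hP _ (hexp w hw).1).comp w (hexpd w)
    refine h1.congr_deriv ?_
    rw [hdiv p₁ _ hp₁0 (exp_ne_zero w), hp₁e _ (exp_ne_zero w)]
  have hK : ∀ w : ℂ, w.re < Real.log ε₁ →
      HasDerivAt (fun w => deriv M w * exp (-P (exp w))) 0 w := by
    intro w hw
    have h1 : HasDerivAt (deriv M) (deriv (deriv M) w) w :=
      (hMa w (hw.trans_le hlog)).deriv.differentiableAt.hasDerivAt
    have h2 := h1.mul ((hPe w hw).neg.cexp)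
    refine h2.congr_deriv ?_
    rw [hode w (hw.trans_le hlog)]
    ring
  set b : ℂ := ((Real.log ε₁ - 1 : ℝ) : ℂ) with hb
  have hbre : b.re < Real.log ε₁ := by
    rw [hb, ofReal_re]
    linarith
  set C : ℂ := deriv M b * exp (-P (exp b)) with hC
  have hMC : ∀ w : ℂ, w.re < Real.log ε₁ → deriv M w = C * exp (P (exp w)) := by
    intro w hw
    have h1 := labIa_const hK w b hw hbre
    rw [hC, ← h1, mul_assoc, ← Complex.exp_add]
    simp
  have hC0 : C ≠ 0 := mul_ne_zero (hM' b hbre) (exp_ne_zero _)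
  set E : ℂ → ℂ := fun v => C * (exp (P v) - 1) with hE
  have hE0 : E 0 = 0 := by simp [hE, hP0]
  have hEd : DifferentiableOn ℂ E (ball 0 ε₁) := by
    intro v hv
    exact (((hP v hv).differentiableAt.cexp.sub_const 1).const_mul C).differentiableWithinAt
  have hEs : DifferentiableOn ℂ (dslope E 0) (ball 0 ε₁) :=
    (differentiableOn_dslope (ball_mem_nhds _ hε₁)).2 hEd
  obtain ⟨U, hU0, hU⟩ := labIa_prim hε₁ hEs
  have hUe : ∀ w : ℂ, w.re < Real.log ε₁ →
      HasDerivAt (fun w => U (exp w)) (E (exp w)) w := by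
    intro w hw
    have h1 := (hU _ (hexp w hw).1).comp w (hexpd w)
    refine h1.congr_deriv ?_
    rw [hdiv E _ hE0 (exp_ne_zero w)]
  have hN : ∀ w : ℂ, w.re < Real.log ε₁ →
      HasDerivAt (fun w => M w - C * w - U (exp w)) 0 w := by
    intro w hw
    have h1 : HasDerivAt M (deriv M w) w :=
      (hMa w (hw.trans_le hlog)).differentiableAt.hasDerivAt
    have h2 := (h1.sub ((hasDerivAt_id w).const_mul C)).sub (hUe w hw)
    refine h2.congr_deriv ?_
    rw [hMC w hw, hE]
    ring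
  refine ⟨C, M b - C * b - U (exp b), U, ε₁, hC0, hε₁, hle, ?_, hU0, fun w hw => ?_⟩
  · refine DifferentiableOn.analyticOnNhd (fun v hv => ?_) isOpen_ball
    exact (hU v hv).differentiableAt.differentiableWithinAt
  · have h1 := labIa_const hN w b hw hbre
    rw [← h1]
    ring

/-- `f` has no limit at the ends `± i ∞` -/
structure NoLim (f : ℂ → ℂ) : Prop where
  top : ∀ x, ¬ Tendsto f (comap im atTop) (𝓝 x)
  bot : ∀ x, ¬ Tendsto f (comap im atBot) (𝓝 x)
  top' : ∀ x, ¬ Tendsto (fun z => (f z)⁻¹) (comap im atTop) (𝓝 x)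
  bot' : ∀ x, ¬ Tendsto (fun z => (f z)⁻¹) (comap im atBot) (𝓝 x)

/-- solutions of `M w = z` -/
private theorem labIa_solve {M : ℂ → ℂ} {ε : ℝ} (hε : 0 < ε)
    {C c₀ : ℂ} {U : ℂ → ℂ} (hC : C ≠ 0)
    (hU : AnalyticOnNhd ℂ U (ball 0 ε)) (hU0 : U 0 = 0)
    (hM : ∀ w, w.re < Real.log ε → M w = C * w + c₀ + U (exp w)) {δ : ℝ} (hδ : 0 < δ)
    (hδε : δ ≤ ε) : ∃ η > 0, ∀ z : ℂ, ‖exp ((z - c₀) / C)‖ < η →
      ∃ w : ℂ, ‖exp w‖ < δ ∧ M w = z ∧ w = (z - c₀) / C - U (exp w) / C := by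
  set φ : ℂ → ℂ := fun v => v * exp (U v / C) with hφ
  have h0 : (0 : ℂ) ∈ ball (0 : ℂ) ε := mem_ball_self hε
  have hφa : AnalyticAt ℂ φ 0 := by
    have h1 : AnalyticAt ℂ U 0 := hU 0 h0
    exact analyticAt_id.mul (h1.div_const.cexp)
  have hφd : HasDerivAt φ 1 0 := by
    have h1 : HasDerivAt (fun v => exp (U v / C)) (exp (U 0 / C) * (deriv U 0 / C)) 0 :=
      ((hU 0 h0).differentiableAt.hasDerivAt.div_const C).cexp
    have h2 := (hasDerivAt_id (0 : ℂ)).mul h1
    refine h2.congr_deriv ?_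
    simp [hU0]
  have hφs : HasStrictDerivAt φ 1 0 := by
    have h1 := hφa.hasStrictDerivAt
    rwa [hφd.deriv] at h1
  have h2 := hφs.map_nhds_eq one_ne_zero
  have hφ0 : φ 0 = 0 := by simp [hφ]
  rw [hφ0] at h2
  have h3 : φ '' ball 0 δ ∈ 𝓝 (0 : ℂ) := by
    rw [← h2]
    exact image_mem_map (ball_mem_nhds _ hδ)
  obtain ⟨η, hη, hηs⟩ := Metric.mem_nhds_iff.1 h3
  refine ⟨η, hη, fun z hz => ?_⟩
  obtain ⟨v, hv, hve⟩ := hηs (show exp ((z - c₀) / C) ∈ ball (0 : ℂ) η by
    rwa [mem_ball_zero_iff])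
  have hv0 : v ≠ 0 := by
    rintro rfl
    rw [hφ0] at hve
    exact exp_ne_zero _ hve.symm
  have hew : exp ((z - c₀) / C - U v / C) = v := by
    rw [Complex.exp_sub, ← hve, hφ]
    field_simp
  have hvn : ‖v‖ < δ := by simpa using hv
  refine ⟨(z - c₀) / C - U v / C, by rwa [hew], ?_, by rw [hew]⟩
  rw [hM, hew]
  · field_simp
    ring
  · rw [Real.lt_log_iff_exp_lt hε, ← Complex.norm_exp, hew]
    exact hvn.trans_le hδε

/-- in the injective case the function has a limit at an end -/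
theorem lim_of_end {f₀ M : ℂ → ℂ} {x₁ : ℂ} {m : ℕ} (hm : 0 < m) {ε : ℝ} (hε : 0 < ε)
    (hper : ∀ z, f₀ (z + 1) = f₀ z) {C c₀ : ℂ} {U : ℂ → ℂ} (hC : C ≠ 0)
    (hU : AnalyticOnNhd ℂ U (ball 0 ε)) (hU0 : U 0 = 0)
    (hM : ∀ w, w.re < Real.log ε → M w = C * w + c₀ + U (exp w))
    (hf : ∀ w, w.re < Real.log ε → f₀ (M w) = x₁ + exp (m * w)) :
    Tendsto f₀ (comap im atTop) (𝓝 x₁) ∨ Tendsto f₀ (comap im atBot) (𝓝 x₁) := by
  have hmC : (m : ℂ) ≠ 0 := by exact_mod_cast hm.ne'
  have h2pi : (2 * Real.pi * I : ℂ) ≠ 0 := Complex.two_pi_I_ne_zero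
  have hrel : ∀ w : ℂ, ‖exp w‖ < ε → w.re < Real.log ε := by
    intro w hw
    rw [Complex.norm_exp] at hw
    rwa [Real.lt_log_iff_exp_lt hε]
  -- the sign
  obtain ⟨σ, hσ, hσre, hperσ⟩ : ∃ σ : ℝ, σ ^ 2 = 1 ∧ ((σ : ℂ) / C).re ≤ 0 ∧
      ∀ z, f₀ (z + σ) = f₀ z := by
    rcases le_total ((1 : ℂ) / C).re 0 with h | h
    · exact ⟨1, by norm_num, by simpa using h, by simpa using hper⟩
    · refine ⟨-1, by norm_num, ?_, fun z => ?_⟩
      · rw [ofReal_neg, ofReal_one, neg_div, neg_re]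
        linarith
      · have h1 := hper (z + ((-1 : ℝ) : ℂ))
        rw [← h1]
        congr 1
        push_cast
        ring
  -- the steps of the lattice
  have hstep : ∀ τ > 0, ∃ j : ℤ, ‖C * (2 * Real.pi * I * j / m) - σ‖ < τ := by
    intro τ hτ
    have hUc : ContinuousAt U 0 := (hU 0 (mem_ball_self hε)).continuousAt
    obtain ⟨δ₀, hδ₀, hδ₀s⟩ := Metric.continuousAt_iff.1 hUc (τ / 2) (by positivity)
    obtain ⟨η, hη, hs⟩ := labIa_solve hε hC hU hU0 hM (lt_min hδ₀ hε) (min_le_right δ₀ ε)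
    set z : ℂ := c₀ + C * ((Real.log (η / 2) : ℝ) : ℂ) with hz
    have hz1 : ‖exp ((z - c₀) / C)‖ < η := by
      have : (z - c₀) / C = ((Real.log (η / 2) : ℝ) : ℂ) := by
        rw [hz]
        field_simp
        ring
      rw [this, Complex.norm_exp, ofReal_re, Real.exp_log (by positivity)]
      linarith
    have hz2 : ‖exp ((z + σ - c₀) / C)‖ < η := by
      have h1 : (z + σ - c₀) / C = (z - c₀) / C + σ / C := by ring
      rw [h1, Complex.exp_add, norm_mul]
      have h2 : ‖exp ((σ : ℂ) / C)‖ ≤ 1 := by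
        rw [Complex.norm_exp]
        exact Real.exp_le_one_iff.2 hσre
      calc ‖exp ((z - c₀) / C)‖ * ‖exp ((σ : ℂ) / C)‖ ≤ ‖exp ((z - c₀) / C)‖ * 1 := by gcongr
        _ < η := by rwa [mul_one]
    obtain ⟨w, hw1, hw2, hw3⟩ := hs z hz1
    obtain ⟨w', hw1', hw2', hw3'⟩ := hs (z + σ) hz2
    have hb : ∀ v : ℂ, ‖v‖ < min δ₀ ε → ‖U v‖ < τ / 2 := by
      intro v hv
      have := @hδ₀s v (by
        rw [dist_zero_right]
        exact hv.trans_le (min_le_left _ _))
      rwa [hU0, dist_zero_right] at this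
    have e1 := hf w (hrel w (hw1.trans_le (min_le_right _ _)))
    have e2 := hf w' (hrel w' (hw1'.trans_le (min_le_right _ _)))
    rw [hw2] at e1
    rw [hw2', hperσ, e1] at e2
    have e3 : exp (m * w') = exp (m * w) := (add_left_cancel e2).symm
    obtain ⟨j, hj⟩ := Complex.exp_eq_exp_iff_exists_int.1 e3
    refine ⟨j, ?_⟩
    have e4 : w' = w + 2 * Real.pi * I * j / m := by
      field_simp
      linear_combination hj
    have e5 : C * (2 * Real.pi * I * j / m) - σ = U (exp w) - U (exp w') := by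
      have e6 : (2 * Real.pi * I * j / m : ℂ) = w' - w := by
        rw [e4]
        ring
      have e7 : C * w = z - c₀ - U (exp w) := by
        have : C * w = C * ((z - c₀) / C - U (exp w) / C) := congrArg (fun t => C * t) hw3
        rw [this]
        field_simp
      have e8 : C * w' = z + σ - c₀ - U (exp w') := by
        have : C * w' = C * ((z + σ - c₀) / C - U (exp w') / C) := congrArg (fun t => C * t) hw3'
        rw [this]
        field_simp
      rw [e6, mul_sub, e7, e8]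
      ring
    rw [e5]
    calc ‖U (exp w) - U (exp w')‖ ≤ ‖U (exp w)‖ + ‖U (exp w')‖ := norm_sub_le _ _
      _ < τ / 2 + τ / 2 := add_lt_add (hb _ hw1) (hb _ hw1')
      _ = τ := by ring
  -- the lattice is discrete
  obtain ⟨j, hj⟩ : ∃ j : ℤ, C * (2 * Real.pi * I * j / m) = σ := by
    set κ : ℝ := ‖C‖ * (2 * Real.pi / m) with hκ
    have hmR : (0 : ℝ) < m := by exact_mod_cast hm
    have hκ0 : 0 < κ := mul_pos (norm_pos_iff.2 hC) (by positivity)
    have hdist : ∀ j j' : ℤ, ‖C * (2 * Real.pi * I * j / m) - C * (2 * Real.pi * I * j' / m)‖ =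
        κ * |(j : ℝ) - j'| := by
      intro j j'
      have h1 : C * (2 * Real.pi * I * j / m) - C * (2 * Real.pi * I * j' / m) =
          C * (((2 * Real.pi / m * ((j : ℝ) - j') : ℝ) : ℂ) * I) := by
        push_cast
        ring
      rw [h1, norm_mul, norm_mul, Complex.norm_I, mul_one, Complex.norm_real, Real.norm_eq_abs,
        abs_mul, abs_of_pos (show (0 : ℝ) < 2 * Real.pi / m by positivity), hκ]
      ring
    obtain ⟨j, hj⟩ := hstep (κ / 4) (by positivity)
    refine ⟨j, ?_⟩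
    by_contra hne
    have hpos : 0 < ‖C * (2 * Real.pi * I * j / m) - σ‖ := norm_pos_iff.2 (sub_ne_zero.2 hne)
    obtain ⟨j', hj'⟩ := hstep (min (κ / 4) ‖C * (2 * Real.pi * I * j / m) - σ‖)
      (lt_min (by positivity) hpos)
    have h1 : ‖C * (2 * Real.pi * I * j / m) - C * (2 * Real.pi * I * j' / m)‖ < κ := by
      have h2 : C * (2 * Real.pi * I * j / m) - C * (2 * Real.pi * I * j' / m) =
          (C * (2 * Real.pi * I * j / m) - σ) - (C * (2 * Real.pi * I * j' / m) - σ) := by ring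
      rw [h2]
      refine (norm_sub_le _ _).trans_lt ?_
      have h3 := hj'.trans_le (min_le_left _ _)
      linarith
    rw [hdist] at h1
    have h2 : |(j : ℝ) - j'| < 1 := by
      by_contra h
      rw [not_lt] at h
      have : κ * 1 ≤ κ * |(j : ℝ) - j'| := by gcongr
      linarith
    have h3 : j = j' := by
      have h4 : |j - j'| < 1 := by exact_mod_cast h2
      have h5 := Int.abs_lt_one_iff.1 h4
      omega
    rw [← h3] at hj'
    exact absurd (hj'.trans_le (min_le_right _ _)) (lt_irrefl _)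
  have hσne : (σ : ℂ) ≠ 0 := by
    intro h
    have h1 : σ = 0 := by exact_mod_cast h
    rw [h1] at hσ
    norm_num at hσ
  have hj0 : (j : ℝ) ≠ 0 := by
    intro h
    have h1 : (j : ℂ) = 0 := by exact_mod_cast h
    rw [h1] at hj
    simp at hj
    exact hσne (by exact_mod_cast hj.symm)
  set a : ℝ := 2 * Real.pi * j * σ / m with ha
  have hσ2 : (σ : ℂ) * σ = 1 := by
    rw [← sq]
    exact_mod_cast hσ
  have hCinv : C⁻¹ = (a : ℂ) * I := by
    have h1 : C * ((a : ℂ) * I) = 1 := by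
      rw [ha]
      push_cast
      calc C * ((2 * Real.pi * j * σ / m : ℂ) * I) = (C * (2 * Real.pi * I * j / m)) * σ := by ring
        _ = σ * σ := by rw [hj]
        _ = 1 := hσ2
    exact (eq_inv_of_mul_eq_one_right h1).symm
  have ha0 : a ≠ 0 := by
    intro h
    rw [h] at hCinv
    simp at hCinv
    exact hC hCinv
  have hre : ∀ z : ℂ, ((z - c₀) / C).re = -(a * z.im) - (c₀ / C).re := by
    intro z
    rw [sub_div, sub_re]
    congr 1
    rw [div_eq_mul_inv, hCinv]
    simp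
    ring
  -- the limit
  have hlim : ∀ l : Filter ℂ, Tendsto (fun z : ℂ => a * z.im) l atTop → Tendsto f₀ l (𝓝 x₁) := by
    intro l hl
    rw [Metric.tendsto_nhds]
    intro τ hτ
    have hδ : 0 < min (min τ 1) ε := lt_min (lt_min hτ one_pos) hε
    obtain ⟨η, hη, hs⟩ := labIa_solve hε hC hU hU0 hM hδ (min_le_right _ ε)
    filter_upwards [hl.eventually_gt_atTop (-(c₀ / C).re - Real.log η)] with z hz
    obtain ⟨w, hw1, hw2, -⟩ := hs z (by
      rw [Complex.norm_exp, hre]
      rw [← Real.lt_log_iff_exp_lt hη]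
      linarith)
    have e1 := hf w (hrel w (hw1.trans_le (min_le_right _ _)))
    rw [hw2] at e1
    rw [e1, dist_eq_norm, add_sub_cancel_left, Complex.exp_nat_mul, norm_pow]
    have h1 : ‖exp w‖ < τ := hw1.trans_le ((min_le_left _ _).trans (min_le_left _ _))
    have h2 : ‖exp w‖ ≤ 1 := (hw1.trans_le ((min_le_left _ _).trans (min_le_right _ _))).le
    calc ‖exp w‖ ^ m ≤ ‖exp w‖ ^ 1 := pow_le_pow_of_le_one (norm_nonneg _) h2 hm
      _ < τ := by rwa [pow_one]
  rcases lt_or_gt_of_ne ha0 with h | h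
  · right
    refine hlim _ ?_
    exact (tendsto_comap (f := im) (x := atBot)).const_mul_atBot_of_neg h
  · left
    refine hlim _ ?_
    exact (tendsto_comap (f := im) (x := atTop)).const_mul_atTop h

end Pool.Agent.MP_ae5b4e_an_NBT
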