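import Mathlib
import Pool.Agent.Lib.MP_ae5b4e_an_NBT.LabB
import Pool.Agent.Lib.MP_ae5b4e_an_NBT.LabIa

/-!
# MP_ae5b4e_an, project NB: continuation of a label with values in the plane, at a point
-/

noncomputable section

namespace Pool.Agent.MP_ae5b4e_an_NBT

open Complex Set Filter Topology Metric

private lemma lj_inv {M : ℂ → ℂ} {w : ℂ} (hM : AnalyticAt ℂ M w) (h : deriv M w ≠ 0) :
    ∃ G : ℂ → ℂ, AnalyticAt ℂ G (M w) ∧ G (M w) = w ∧ deriv G (M w) ≠ 0 ∧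
      (∀ᶠ z in 𝓝 (M w), M (G z) = z) ∧ ∀ᶠ z in 𝓝 w, G (M z) = z := by
  have ha := hM.analyticAt_localInverse h
  have hl : ∀ᶠ z in 𝓝 w, hM.hasStrictDerivAt.localInverse _ _ _ h (M z) = z :=
    hM.hasStrictDerivAt.eventually_left_inverse h
  have hr := hM.hasStrictDerivAt.eventually_right_inverse h
  have hd := (hM.hasStrictDerivAt.to_localInverse h).hasDerivAt
  refine ⟨hM.hasStrictDerivAt.localInverse _ _ _ h, ha, hl.self_of_nhds, ?_, hr, hl⟩
  rw [hd.deriv]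
  exact inv_ne_zero h

/-- at a pole of a locally univalent map: the map is the inverse of a function which vanishes
only at the pole -/
private lemma lj_pole {f : ℂ → ℂ} {z : ℂ}
    (h2 : AnalyticAt ℂ (fun w => (f w)⁻¹) z) (h3 : deriv (fun w => (f w)⁻¹) z ≠ 0) :
    ∀ᶠ w in 𝓝[≠] z, f w ≠ 0 := by
  have h4 : ∀ᶠ w in 𝓝[≠] z, (fun w => (f w)⁻¹) w ≠ 0 := by
    have h5 := h2.differentiableAt.hasDerivAt.eventually_ne (c := 0) h3
    exact h5
  filter_upwards [h4] with w hw h0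
  apply hw
  show (f w)⁻¹ = 0
  rw [h0, inv_zero]

/-- identity theorem for a locally univalent map and an analytic function -/
private lemma lj_id {f g : ℂ → ℂ} {V : Set ℂ} (hV : IsPreconnected V)
    (hf : LU f V) (hg : AnalyticOnNhd ℂ g V) {a : ℂ} (ha : a ∈ V) (hfg : f =ᶠ[𝓝 a] g) :
    ∀ z ∈ V, f =ᶠ[𝓝 z] g := by
  have hop : IsOpen {z | f =ᶠ[𝓝 z] g} := isOpen_setOfPred_eventually_nhds
  refine hV.subset_of_closure_inter_subset hop ⟨a, ha, hfg⟩ ?_
  rintro z ⟨hz1, hz2⟩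
  have hfr : ∃ᶠ w in 𝓝 z, f =ᶠ[𝓝 w] g := mem_closure_iff_frequently.1 hz1
  rcases hf z hz2 with ⟨h1, -⟩ | ⟨h1, h2, h3⟩
  · rcases h1.eventually_eq_or_eventually_ne (hg z hz2) with h4 | h4
    · exact h4
    · exfalso
      obtain ⟨w, hw1, hw2⟩ := (hfr.and_eventually (eventually_nhdsWithin_iff.1 h4).eventually_nhds).exists
      have h5 : ∀ᶠ x in 𝓝 w, x = z := by
        filter_upwards [hw1, hw2] with x hx1 hx2
        by_contra hx
        exact hx2 hx hx1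
      have h6 : (𝓝[≠] w).NeBot := inferInstance
      have h7 : ∀ᶠ x in 𝓝[≠] w, False := by
        have h8 : w = z := h5.self_of_nhds
        filter_upwards [nhdsWithin_le_nhds h5, self_mem_nhdsWithin] with x hx1 hx2
        exact hx2 (hx1.trans h8.symm)
      exact h6.ne (by simpa using h7)
  · exfalso
    have h4 : AnalyticAt ℂ (fun w => (f w)⁻¹ * g w) z := h2.mul (hg z hz2)
    have h0 := lj_pole h2 h3
    rcases h4.eventually_eq_or_eventually_ne (analyticAt_const (v := (1 : ℂ))) with h5 | h5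
    · have h6 := h5.self_of_nhds
      simp only [h1, inv_zero, zero_mul] at h6
      exact zero_ne_one h6
    · obtain ⟨w, hw1, hw2⟩ := (hfr.and_eventually
        (eventually_nhdsWithin_iff.1 (h5.and h0)).eventually_nhds).exists
      have h7 : ∀ᶠ x in 𝓝 w, x = z := by
        filter_upwards [hw1, hw2] with x hx1 hx2
        by_contra hx
        obtain ⟨hx3, hx4⟩ := hx2 hx
        apply hx3
        show (f x)⁻¹ * g x = 1
        rw [← hx1, inv_mul_cancel₀ hx4]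
      have h6 : (𝓝[≠] w).NeBot := inferInstance
      have h8 : ∀ᶠ x in 𝓝[≠] w, False := by
        have h9 : w = z := h7.self_of_nhds
        filter_upwards [nhdsWithin_le_nhds h7, self_mem_nhdsWithin] with x hx1 hx2
        exact hx2 (hx1.trans h9.symm)
      exact h6.ne (by simpa using h8)

private lemma lj_comp {f M : ℂ → ℂ} {S B : Set ℂ} (hf : LU f S) (hM : AnalyticOnNhd ℂ M B)
    (hM0 : ∀ w ∈ B, deriv M w ≠ 0) (hMS : MapsTo M B S) : LU (fun w => f (M w)) B := by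
  intro w hw
  have hMw := (hM w hw).differentiableAt.hasDerivAt
  rcases hf (M w) (hMS hw) with ⟨h1, h2⟩ | ⟨h1, h2, h3⟩
  · left
    refine ⟨AnalyticAt.fun_comp h1 (hM w hw), ?_⟩
    have h4 : HasDerivAt (fun w => f (M w)) (deriv f (M w) * deriv M w) w :=
      h1.differentiableAt.hasDerivAt.comp w hMw
    rw [h4.deriv]
    exact mul_ne_zero h2 (hM0 w hw)
  · right
    refine ⟨h1, AnalyticAt.fun_comp (g := fun z => (f z)⁻¹) (f := M) h2 (hM w hw), ?_⟩
    have h4 : HasDerivAt (fun w => (f (M w))⁻¹) (deriv (fun z => (f z)⁻¹) (M w) * deriv M w) w :=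
      h2.differentiableAt.hasDerivAt.comp w hMw
    rw [h4.deriv]
    exact mul_ne_zero h3 (hM0 w hw)

/-- near a point a function which is not locally constant is a power of a local coordinate -/
private lemma lj_nf {f : ℂ → ℂ} {t₁ : ℂ} (hf : AnalyticAt ℂ f t₁)
    (hfc : ¬ ∀ᶠ t in 𝓝 t₁, f t = f t₁) : ∃ (m : ℕ) (q : ℂ → ℂ), 0 < m ∧ AnalyticAt ℂ q t₁ ∧
      ∀ᶠ t in 𝓝 t₁, f t = f t₁ + ((t - t₁) * exp (q t)) ^ m := by
  have h1 : AnalyticAt ℂ (fun t => f t - f t₁) t₁ := hf.fun_sub analyticAt_const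
  have h2 : ¬ ∀ᶠ t in 𝓝 t₁, f t - f t₁ = 0 := fun h3 =>
    hfc (h3.mono fun t ht => sub_eq_zero.1 ht)
  obtain ⟨n, g, hg1, hg2, hg3⟩ := h1.exists_eventuallyEq_pow_smul_nonzero_iff.2 h2
  have hn : 0 < n := by
    rcases Nat.eq_zero_or_pos n with h0 | h0
    · exfalso
      have h4 := hg3.self_of_nhds
      rw [h0, sub_self, sub_self, pow_zero, one_smul] at h4
      exact hg2 h4.symm
    · exact h0
  have hn' : (n : ℂ) ≠ 0 := Nat.cast_ne_zero.2 hn.ne'
  refine ⟨n, fun t => (log (g t₁) + log (g t / g t₁)) / n, hn, ?_, ?_⟩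
  · have h4 : AnalyticAt ℂ (fun t => g t / g t₁) t₁ := hg1.fun_div analyticAt_const hg2
    have h5 : g t₁ / g t₁ ∈ slitPlane := by
      rw [div_self hg2]
      exact one_mem_slitPlane
    have h6 : AnalyticAt ℂ (fun t => log (g t / g t₁)) t₁ := h4.clog h5
    exact (analyticAt_const.fun_add h6).fun_div analyticAt_const hn'
  · filter_upwards [hg3, hg1.continuousAt.eventually_ne hg2] with t ht1 ht2
    have h4 : exp ((log (g t₁) + log (g t / g t₁)) / n) ^ n = g t := by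
      rw [← exp_nat_mul, mul_div_cancel₀ _ hn', exp_add, exp_log hg2,
        exp_log (div_ne_zero ht2 hg2), mul_div_cancel₀ _ hg2]
    rw [mul_pow, h4, ← smul_eq_mul, ← ht1]
    ring

/-- the change of the equation `L'' = N L'` under `exp w = v t` -/
private lemma lj_ode {M W v N : ℂ → ℂ} {t q : ℂ} (hM : AnalyticAt ℂ M (W t))
    (hW : AnalyticAt ℂ W t) (hv : AnalyticAt ℂ v t) (hexp : ∀ᶠ s in 𝓝 t, exp (W s) = v s)
    (hv0 : deriv v t ≠ 0)
    (hode : deriv (deriv M) (W t) = q * deriv M (W t))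
    (hq : q = v t * N t / deriv v t - v t * deriv (deriv v) t / deriv v t ^ 2 + 1) :
    deriv (fun s => M (W s)) t = deriv M (W t) * deriv W t ∧ v t * deriv W t = deriv v t ∧
      deriv (deriv (fun s => M (W s))) t = N t * deriv (fun s => M (W s)) t := by
  have h1 : ∀ᶠ s in 𝓝 t, deriv (fun s => M (W s)) s = deriv M (W s) * deriv W s := by
    filter_upwards [hW.eventually_analyticAt, hW.continuousAt.eventually hM.eventually_analyticAt]
      with s hs1 hs2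
    exact (hs2.differentiableAt.hasDerivAt.comp s hs1.differentiableAt.hasDerivAt).deriv
  have h2 : ∀ᶠ s in 𝓝 t, v s * deriv W s = deriv v s := by
    filter_upwards [hexp.eventually_nhds, hW.eventually_analyticAt] with s hs1 hs2
    have h3 : (fun s => exp (W s)) =ᶠ[𝓝 s] v := hs1
    rw [← h3.deriv_eq, (hs2.differentiableAt.hasDerivAt.cexp).deriv, hs1.self_of_nhds]
  have h3 : HasDerivAt (fun s => v s * deriv W s)
      (deriv v t * deriv W t + v t * deriv (deriv W) t) t :=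
    hv.differentiableAt.hasDerivAt.mul hW.deriv.differentiableAt.hasDerivAt
  have h4 : deriv v t * deriv W t + v t * deriv (deriv W) t = deriv (deriv v) t := by
    have h5 : (fun s => v s * deriv W s) =ᶠ[𝓝 t] deriv v := h2
    rw [← h3.deriv, h5.deriv_eq]
  have h5 : HasDerivAt (fun s => deriv M (W s) * deriv W s)
      (deriv (deriv M) (W t) * deriv W t * deriv W t + deriv M (W t) * deriv (deriv W) t) t := by
    have h6 : HasDerivAt (fun s => deriv M (W s)) (deriv (deriv M) (W t) * deriv W t) t :=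
      hM.deriv.differentiableAt.hasDerivAt.comp t hW.differentiableAt.hasDerivAt
    exact h6.mul hW.deriv.differentiableAt.hasDerivAt
  have h6 : deriv (deriv (fun s => M (W s))) t =
      deriv (deriv M) (W t) * deriv W t * deriv W t + deriv M (W t) * deriv (deriv W) t := by
    have h7 : deriv (fun s => M (W s)) =ᶠ[𝓝 t] fun s => deriv M (W s) * deriv W s := h1
    rw [h7.deriv_eq, h5.deriv]
  have hvt : v t ≠ 0 := by
    rw [← hexp.self_of_nhds]
    exact exp_ne_zero _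
  have h7 := h2.self_of_nhds
  refine ⟨h1.self_of_nhds, h7, ?_⟩
  have hW1 : deriv W t = deriv v t / v t := by
    rw [eq_div_iff hvt, mul_comm]
    exact h7
  have hW2 : deriv (deriv W) t = (deriv (deriv v) t - deriv v t * (deriv v t / v t)) / v t := by
    rw [eq_div_iff hvt, ← h4, hW1]
    ring
  rw [h6, h1.self_of_nhds, hode, hq, hW2, hW1]
  field_simp
  ring

private lemma lj_isOpen (b : ℝ) : IsOpen {w : ℂ | w.re < b} :=
  isOpen_lt continuous_re continuous_const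

private lemma lj_convex (b : ℝ) : Convex ℝ {w : ℂ | w.re < b} := convex_halfSpace_re_lt b

private lemma lj_exp {ε : ℝ} (hε : 0 < ε) {w : ℂ} (hw : w.re < Real.log ε) :
    exp w ∈ ball (0 : ℂ) ε ∧ exp w ≠ 0 := by
  refine ⟨?_, exp_ne_zero w⟩
  rw [mem_ball_zero_iff, norm_exp]
  exact (Real.lt_log_iff_exp_lt hε).1 hw

/-- the solution of the linear equation on a half plane -/
private lemma lj_sol {p : ℂ → ℂ} {ε : ℝ} (hε : 0 < ε)
    (hp : ∀ x ∈ ball (0 : ℂ) ε, x ≠ 0 → AnalyticAt ℂ p x) {w₀ A c : ℂ}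
    (hw₀ : w₀.re < Real.log ε) (hc : c ≠ 0) :
    ∃ M : ℂ → ℂ, AnalyticOnNhd ℂ M {w | w.re < Real.log ε} ∧ M w₀ = A ∧ deriv M w₀ = c ∧
      (∀ w, w.re < Real.log ε → deriv M w ≠ 0) ∧
      ∀ w, w.re < Real.log ε → deriv (deriv M) w = p (exp w) * deriv M w := by
  have hH := lj_isOpen (Real.log ε)
  have h1 : ∀ w : ℂ, w.re < Real.log ε → AnalyticAt ℂ (fun w => p (exp w)) w := by
    intro w hw
    obtain ⟨h2, h3⟩ := lj_exp hε hw
    exact AnalyticAt.fun_comp (g := p) (f := exp) (hp _ h2 h3) analyticAt_cexp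
  obtain ⟨Q, hQ⟩ := (lj_convex (Real.log ε)).exists_forall_hasDerivWithinAt
    (f := fun w => p (exp w)) (fun w hw => (h1 w hw).differentiableAt.differentiableWithinAt)
  have hQ' : ∀ w : ℂ, w.re < Real.log ε → HasDerivAt Q (p (exp w)) w :=
    fun w hw => (hQ w hw).hasDerivAt (hH.mem_nhds hw)
  have hM1 : ∀ w : ℂ, w.re < Real.log ε → HasDerivAt (fun w => c * exp (Q w - Q w₀))
      (p (exp w) * (c * exp (Q w - Q w₀))) w := by
    intro w hw
    have h2 := (((hQ' w hw).sub_const (Q w₀)).cexp).const_mul c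
    refine h2.congr_deriv ?_
    ring
  obtain ⟨R, hR⟩ := (lj_convex (Real.log ε)).exists_forall_hasDerivWithinAt
    (f := fun w => c * exp (Q w - Q w₀))
    (fun w hw => (hM1 w hw).differentiableAt.differentiableWithinAt)
  have hR' : ∀ w : ℂ, w.re < Real.log ε →
      HasDerivAt (fun w => R w + (A - R w₀)) (c * exp (Q w - Q w₀)) w :=
    fun w hw => ((hR w hw).hasDerivAt (hH.mem_nhds hw)).add_const _
  have hd : ∀ w : ℂ, w.re < Real.log ε →
      deriv (fun w => R w + (A - R w₀)) w = c * exp (Q w - Q w₀) := fun w hw => (hR' w hw).deriv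
  refine ⟨fun w => R w + (A - R w₀), ?_, by ring, ?_, fun w hw => ?_, fun w hw => ?_⟩
  · have h2 : DifferentiableOn ℂ (fun w => R w + (A - R w₀)) {w | w.re < Real.log ε} :=
      fun w hw => (hR' w hw).differentiableAt.differentiableWithinAt
    exact h2.analyticOnNhd hH
  · rw [hd w₀ hw₀, sub_self, exp_zero, mul_one]
  · rw [hd w hw]
    exact mul_ne_zero hc (exp_ne_zero _)
  · have h2 : deriv (fun w => R w + (A - R w₀)) =ᶠ[𝓝 w] fun w => c * exp (Q w - Q w₀) := by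
      filter_upwards [hH.mem_nhds hw] with z hz using hd z hz
    rw [h2.deriv_eq, (hM1 w hw).deriv, hd w hw]

/-- two solutions of `y'' = N y'` with the same initial values agree -/
private lemma lj_uniq {K L N : ℂ → ℂ} {T : Set ℂ} (hT : IsOpen T) (hTc : IsPreconnected T)
    (hK : AnalyticOnNhd ℂ K T) (hL : AnalyticOnNhd ℂ L T) (hK0 : ∀ t ∈ T, deriv K t ≠ 0)
    (hKN : ∀ t ∈ T, deriv (deriv K) t = N t * deriv K t)
    (hLN : ∀ t ∈ T, deriv (deriv L) t = N t * deriv L t) {t₀ : ℂ} (ht₀ : t₀ ∈ T)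
    (h0 : K t₀ = L t₀) (h1 : deriv K t₀ = deriv L t₀) : ∀ t ∈ T, K t = L t := by
  have h2 : ∀ t ∈ T, HasDerivAt (fun s => deriv L s / deriv K s) 0 t := by
    intro t ht
    have h3 := (hL t ht).deriv.differentiableAt.hasDerivAt.fun_div
      (hK t ht).deriv.differentiableAt.hasDerivAt (hK0 t ht)
    refine h3.congr_deriv ?_
    rw [hKN t ht, hLN t ht]
    ring
  have h3 : ∀ t ∈ T, deriv L t = deriv K t := by
    intro t ht
    have h4 := hT.is_const_of_deriv_eq_zero hTc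
      (fun s hs => (h2 s hs).differentiableAt.differentiableWithinAt)
      (fun s hs => (h2 s hs).deriv) ht ht₀
    have h5 : deriv L t / deriv K t = deriv L t₀ / deriv K t₀ := h4
    rw [← h1, div_self (hK0 t₀ ht₀), div_eq_one_iff_eq (hK0 t ht)] at h5
    exact h5
  have h4 : ∀ t ∈ T, HasDerivAt (fun s => K s - L s) 0 t := by
    intro t ht
    have h5 := (hK t ht).differentiableAt.hasDerivAt.fun_sub (hL t ht).differentiableAt.hasDerivAt
    refine h5.congr_deriv ?_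
    rw [h3 t ht, sub_self]
  intro t ht
  have h5 := hT.is_const_of_deriv_eq_zero hTc
    (fun s hs => (h4 s hs).differentiableAt.differentiableWithinAt)
    (fun s hs => (h4 s hs).deriv) ht ht₀
  have h6 : K t - L t = K t₀ - L t₀ := h5
  rw [h0, sub_self] at h6
  exact sub_eq_zero.1 h6

private lemma lj_der {W v : ℂ → ℂ} {t : ℂ} (hW : AnalyticAt ℂ W t)
    (hexp : ∀ᶠ s in 𝓝 t, exp (W s) = v s) : v t * deriv W t = deriv v t := by
  have h3 : (fun s => exp (W s)) =ᶠ[𝓝 t] v := hexp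
  rw [← h3.deriv_eq, (hW.differentiableAt.hasDerivAt.cexp).deriv, hexp.self_of_nhds]

private lemma lj_re {ε : ℝ} (hε : 0 < ε) {w x : ℂ} (h : exp w = x) (hx : x ∈ ball (0 : ℂ) ε) :
    w.re < Real.log ε := by
  rw [mem_ball_zero_iff, ← h, norm_exp] at hx
  exact (Real.lt_log_iff_exp_lt hε).2 hx

private lemma lj_punct {P : ℂ → Prop} {a : ℂ} (h : ∀ᶠ s in 𝓝[≠] a, P s) :
    ∀ᶠ s in 𝓝[≠] a, ∀ᶠ x in 𝓝 s, P x := by
  have := eventually_eventually_nhdsWithin.2 h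
  filter_upwards [this, self_mem_nhdsWithin] with z hz hz0
  rwa [IsOpen.nhdsWithin_eq isOpen_compl_singleton hz0] at hz

private lemma lj_Ld {f₀ f L : ℂ → ℂ} {S : Set ℂ} {t₀ : ℂ} (hLU : LU f₀ S) (hLS : L t₀ ∈ S)
    (hL : AnalyticAt ℂ L t₀) (hf : AnalyticAt ℂ f t₀) (hfd : deriv f t₀ ≠ 0)
    (heq : f =ᶠ[𝓝 t₀] fun s => f₀ (L s)) : deriv L t₀ ≠ 0 := by
  intro hL0
  rcases hLU (L t₀) hLS with ⟨h1, h2⟩ | ⟨h1, h2, h3⟩
  · have h4 : HasDerivAt (fun s => f₀ (L s)) (deriv f₀ (L t₀) * deriv L t₀) t₀ :=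
      h1.differentiableAt.hasDerivAt.comp t₀ hL.differentiableAt.hasDerivAt
    apply hfd
    rw [heq.deriv_eq, h4.deriv, hL0, mul_zero]
  · have h4 : f t₀ = 0 := heq.self_of_nhds.trans h1
    have h5 : ContinuousAt (fun s => (f₀ (L s))⁻¹) t₀ :=
      ContinuousAt.comp (g := fun w => (f₀ w)⁻¹) (f := L) h2.continuousAt hL.continuousAt
    have h6 : ∀ᶠ s in 𝓝[≠] t₀, f s ≠ 0 :=
      hf.differentiableAt.hasDerivAt.eventually_ne (c := 0) hfd
    have h7 : Tendsto (fun s => f s * (f₀ (L s))⁻¹) (𝓝[≠] t₀) (𝓝 (f t₀ * (f₀ (L t₀))⁻¹)) :=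
      (hf.continuousAt.mul h5).tendsto.mono_left nhdsWithin_le_nhds
    rw [h4, zero_mul] at h7
    have h8 : Tendsto (fun s => f s * (f₀ (L s))⁻¹) (𝓝[≠] t₀) (𝓝 1) := by
      refine tendsto_const_nhds.congr' ?_
      filter_upwards [h6, nhdsWithin_le_nhds heq] with s hs1 hs2
      rw [← hs2, mul_inv_cancel₀ hs1]
    exact zero_ne_one (tendsto_nhds_unique h7 h8)

/-- a branch of the logarithm of the coordinate on a convex set which does not contain `t₁` -/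
private lemma lj_log {T : Set ℂ} (hT : IsOpen T) (hTc : Convex ℝ T) {t₁ a : ℂ} (ha : a ∈ T)
    (htT : t₁ ∉ T) : ∃ W : ℂ → ℂ, AnalyticOnNhd ℂ W T ∧ ∀ t ∈ T, exp (W t) = t - t₁ := by
  obtain ⟨φ, hφ⟩ := geometric_hahn_banach_open_point hTc hT htT
  set e : ℂ := ⟨-φ 1, φ I⟩ with he
  have hφe : ∀ z : ℂ, (e * z).re = - φ z := by
    intro z
    have h1 : φ z = z.re * φ 1 + z.im * φ I := by
      have h2 : z = z.re • (1:ℂ) + z.im • I := by
        apply Complex.ext <;> simp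
      conv_lhs => rw [h2]
      rw [map_add, map_smul, map_smul, smul_eq_mul, smul_eq_mul]
    rw [mul_re, h1]
    simp only [he]
    ring
  have hslit : ∀ t ∈ T, e * (t - t₁) ∈ slitPlane := by
    intro t ht
    rw [mem_slitPlane_iff]
    left
    rw [hφe, map_sub]
    have := hφ t ht
    linarith
  have he0 : e ≠ 0 := by
    intro h0
    have h1 := slitPlane_ne_zero (hslit a ha)
    rw [h0, zero_mul] at h1
    exact h1 rfl
  refine ⟨fun t => log (e * (t - t₁)) - log e, fun t ht => ?_, fun t ht => ?_⟩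
  · have h1 : AnalyticAt ℂ (fun t => e * (t - t₁)) t := by fun_prop
    exact (h1.clog (hslit t ht)).fun_sub analyticAt_const
  · have h1 : e * (t - t₁) ≠ 0 := slitPlane_ne_zero (hslit t ht)
    rw [exp_sub, exp_log h1, exp_log he0, mul_div_cancel_left₀ _ he0]

private lemma lj_mero {f : ℂ → ℂ} {t : ℂ} (hf : MeromorphicAt f t) :
    (∃ g : ℂ → ℂ, AnalyticAt ℂ g t ∧ ∀ᶠ s in 𝓝[≠] t, f s = g s) ∨
      ∃ g : ℂ → ℂ, AnalyticAt ℂ g t ∧ ∀ᶠ s in 𝓝[≠] t, (f s)⁻¹ = g s := by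
  rcases le_total 0 (meromorphicOrderAt f t) with h | h
  · left
    exact ⟨_, hf.meromorphicOrderAt_nonneg_iff_analyticAt_toMeromorphicNFAt.1 h,
      hf.eq_nhdsNE_toMeromorphicNFAt⟩
  · right
    have h1 : 0 ≤ meromorphicOrderAt f⁻¹ t := by
      rw [meromorphicOrderAt_inv]
      have h2 : meromorphicOrderAt f t ≠ ⊤ := by
        intro h3
        rw [h3] at h
        exact absurd h (by simp)
      lift meromorphicOrderAt f t to ℤ using h2 with n hn
      have h3 : n ≤ 0 := by exact_mod_cast h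
      have h4 : (0 : ℤ) ≤ -n := by omega
      exact_mod_cast h4
    exact ⟨_, hf.inv.meromorphicOrderAt_nonneg_iff_analyticAt_toMeromorphicNFAt.1 h1,
      hf.inv.eq_nhdsNE_toMeromorphicNFAt⟩

/-- the identity `f₀ (M w) = x₁ + exp (m w)` spreads over the half plane -/
private lemma lj_stay {f₀ : ℂ → ℂ} (hLU : LU f₀ univ) {x₁ : ℂ} {m : ℕ}
    {H : Set ℂ} (hHc : Convex ℝ H) {M : ℂ → ℂ}
    (hM : AnalyticOnNhd ℂ M H) (hM0 : ∀ w ∈ H, deriv M w ≠ 0) {w₀ : ℂ} (hw₀ : w₀ ∈ H)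
    (h0 : ∀ᶠ w in 𝓝 w₀, f₀ (M w) = x₁ + exp (m * w)) :
    ∀ w ∈ H, AnalyticAt ℂ f₀ (M w) ∧ f₀ (M w) = x₁ + exp (m * w) := by
  have hg : ∀ w, AnalyticAt ℂ (fun w : ℂ => x₁ + exp (m * w)) w := fun w => by fun_prop
  have hLU2 : LU (fun w => f₀ (M w)) H := lj_comp hLU hM hM0 (fun w _ => mem_univ _)
  intro w hw
  have h1 : ∀ᶠ w' in 𝓝 w, f₀ (M w') = x₁ + exp (m * w') :=
    lj_id (g := fun w : ℂ => x₁ + exp (m * w)) hHc.isPreconnected hLU2 (fun w _ => hg w)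
      hw₀ h0 w hw
  refine ⟨?_, h1.self_of_nhds⟩
  obtain ⟨G, hG1, hG2, hG3, hG4, hG5⟩ := lj_inv (hM w hw) (hM0 w hw)
  have hGa : Tendsto G (𝓝 (M w)) (𝓝 w) := by
    have h2 := hG1.continuousAt
    rw [ContinuousAt, hG2] at h2
    exact h2
  have h3 : AnalyticAt ℂ (fun z => x₁ + exp (m * G z)) (M w) := by fun_prop
  refine h3.congr ?_
  filter_upwards [hGa.eventually h1, hG4] with z hz1 hz2
  rw [hz2] at hz1
  exact hz1.symm

/-- equal values at two points give a period -/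
private lemma lj_per {f₀ M : ℂ → ℂ} {x₁ : ℂ} {m : ℕ} (hm : 0 < m) {b : ℝ}
    (hM1 : AnalyticOnNhd ℂ M {w | w.re < b})
    (hMS : ∀ w, w.re < b → AnalyticAt ℂ f₀ (M w) ∧ f₀ (M w) = x₁ + exp (m * w))
    {a : ℂ} (ha : a.re = 0) (hma : exp (m * a) = 1) {w₁ : ℂ} (hw₁ : w₁.re < b)
    (h : M (w₁ + a) = M w₁) : ∀ w : ℂ, w.re < b → M (w + a) = M w := by
  have hH : IsOpen {w : ℂ | w.re < b} := lj_isOpen b
  have hsh : ∀ w : ℂ, w.re < b → (w + a).re < b := by
    intro w hw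
    rw [add_re, ha, add_zero]
    exact hw
  have hd : deriv f₀ (M w₁) ≠ 0 := by
    intro h0
    have h1 : (fun w => f₀ (M w)) =ᶠ[𝓝 w₁] fun w => x₁ + exp (m * w) := by
      filter_upwards [hH.mem_nhds hw₁] with w hw using (hMS w hw).2
    have h2 : HasDerivAt (fun w => f₀ (M w)) (deriv f₀ (M w₁) * deriv M w₁) w₁ :=
      (hMS w₁ hw₁).1.differentiableAt.hasDerivAt.comp w₁ (hM1 w₁ hw₁).differentiableAt.hasDerivAt
    have h3 : HasDerivAt (fun w : ℂ => x₁ + exp (m * w)) (exp (m * w₁) * m) w₁ := by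
      have h4 : HasDerivAt (fun w : ℂ => (m : ℂ) * w) m w₁ := by
        simpa using (hasDerivAt_id w₁).const_mul (m : ℂ)
      exact h4.cexp.const_add x₁
    have h4 := h1.deriv_eq
    rw [h2.deriv, h3.deriv, h0, zero_mul] at h4
    exact mul_ne_zero (exp_ne_zero _) (Nat.cast_ne_zero.2 hm.ne') h4.symm
  obtain ⟨G, hG1, hG2, hG3, hG4, hG5⟩ := lj_inv (hMS w₁ hw₁).1 hd
  have hc1 : Tendsto M (𝓝 w₁) (𝓝 (M w₁)) := (hM1 w₁ hw₁).continuousAt
  have hta : Tendsto (fun w : ℂ => w + a) (𝓝 w₁) (𝓝 (w₁ + a)) := by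
    have h1 : Continuous (fun w : ℂ => w + a) := by fun_prop
    exact h1.tendsto w₁
  have hc2 : Tendsto (fun w => M (w + a)) (𝓝 w₁) (𝓝 (M w₁)) := by
    have h1 := (hM1 (w₁ + a) (hsh w₁ hw₁)).continuousAt.tendsto.comp hta
    rw [h] at h1
    exact h1
  have hev : (fun w => M (w + a)) =ᶠ[𝓝 w₁] M := by
    filter_upwards [hc1.eventually hG5, hc2.eventually hG5, hH.mem_nhds hw₁] with w h1 h2 h3
    rw [← h1, ← h2, (hMS w h3).2, (hMS (w + a) (hsh w h3)).2, mul_add, exp_add, hma, mul_one]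
  have han : AnalyticOnNhd ℂ (fun w => M (w + a)) {w | w.re < b} := by
    intro w hw
    have h1 : AnalyticAt ℂ (fun w => w + a) w := by fun_prop
    exact AnalyticAt.fun_comp (g := M) (f := fun w => w + a) (hM1 _ (hsh w hw)) h1
  intro w hw
  exact han.eqOn_of_preconnected_of_eventuallyEq hM1 (lj_convex b).isPreconnected hw₁ hev hw

/-- the non-injective case: a function of `exp (m w / j)` -/
private lemma lj_cov {f₀ M : ℂ → ℂ} {x₁ : ℂ} {m : ℕ} (hm : 0 < m) {b : ℝ}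
    (hM1 : AnalyticOnNhd ℂ M {w | w.re < b})
    (hMS : ∀ w, w.re < b → AnalyticAt ℂ f₀ (M w) ∧ f₀ (M w) = x₁ + exp (m * w))
    (hni : ¬ InjOn M {w | w.re < b}) :
    ∃ (j : ℕ) (ρ : ℝ) (μ : ℂ → ℂ), 0 < j ∧ 0 < ρ ∧ AnalyticOnNhd ℂ μ (ball 0 ρ \ {0}) ∧
      InjOn μ (ball 0 ρ \ {0}) ∧ (∀ v ∈ ball (0 : ℂ) ρ \ {0}, f₀ (μ v) = x₁ + v ^ j) ∧
      ∀ w : ℂ, w.re < b → exp (m * w / j) ∈ ball (0 : ℂ) ρ \ {0} ∧ M w = μ (exp (m * w / j)) := by
  classical
  have hmC : (m : ℂ) ≠ 0 := Nat.cast_ne_zero.2 hm.ne'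
  have hmR : (0 : ℝ) < m := Nat.cast_pos.2 hm
  -- equal values
  have hval : ∀ w w' : ℂ, w.re < b → w'.re < b → M w' = M w →
      ∃ n : ℤ, w' = w + 2 * Real.pi * I * n / m := by
    intro w w' hw hw' h
    have h1 := congrArg f₀ h
    rw [(hMS w hw).2, (hMS w' hw').2] at h1
    obtain ⟨n, hn⟩ := Complex.exp_eq_exp_iff_exists_int.1 (add_left_cancel h1)
    refine ⟨n, ?_⟩
    field_simp
    linear_combination hn
  have hex : ∃ n : ℕ, 0 < n ∧ ∃ w : ℂ, w.re < b ∧ M (w + 2 * Real.pi * I * n / m) = M w := by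
    have h1 : ∃ w w' : ℂ, w.re < b ∧ w'.re < b ∧ M w' = M w ∧ w' ≠ w := by
      by_contra hcon
      apply hni
      intro w hw w' hw' h
      by_contra hne
      exact hcon ⟨w', w, hw', hw, h, hne⟩
    obtain ⟨w, w', hw, hw', h, hne⟩ := h1
    obtain ⟨n, hn⟩ := hval w w' hw hw' h
    rcases lt_trichotomy n 0 with h0 | h0 | h0
    · refine ⟨(-n).toNat, by omega, w', hw', ?_⟩
      have h2 : (((-n).toNat : ℕ) : ℂ) = -(n : ℂ) := by
        have h3 : (((-n).toNat : ℕ) : ℤ) = -n := Int.toNat_of_nonneg (by omega)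
        have h4 : ((((-n).toNat : ℕ) : ℤ) : ℂ) = ((-n : ℤ) : ℂ) := by rw [h3]
        push_cast at h4
        exact h4
      rw [h2, hn]
      have h3 : w + 2 * Real.pi * I * n / m + 2 * Real.pi * I * -(n : ℂ) / m = w := by ring
      rw [h3, ← hn, h]
    · exfalso
      rw [h0] at hn
      simp at hn
      exact hne hn
    · refine ⟨n.toNat, by omega, w, hw, ?_⟩
      have h2 : ((n.toNat : ℕ) : ℂ) = (n : ℂ) := by
        have h3 : ((n.toNat : ℕ) : ℤ) = n := Int.toNat_of_nonneg (by omega)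
        have h4 : (((n.toNat : ℕ) : ℤ) : ℂ) = ((n : ℤ) : ℂ) := by rw [h3]
        push_cast at h4
        exact h4
      rw [h2, ← hn, h]
  set j : ℕ := Nat.find hex with hj
  obtain ⟨hj0, w₁, hw₁, hw₁'⟩ := Nat.find_spec hex
  rw [← hj] at hj0 hw₁'
  have hmin : ∀ n : ℕ, 0 < n → ∀ w : ℂ, w.re < b → M (w + 2 * Real.pi * I * n / m) = M w →
      j ≤ n := fun n hn w hw h => Nat.find_min' hex ⟨hn, w, hw, h⟩
  have hjC : (j : ℂ) ≠ 0 := Nat.cast_ne_zero.2 hj0.ne'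
  have hjR : (0 : ℝ) < j := Nat.cast_pos.2 hj0
  set a : ℂ := 2 * Real.pi * I * j / m with ha
  have hare : a.re = 0 := by
    have h1 : a = ((2 * Real.pi * j / m : ℝ) : ℂ) * I := by
      rw [ha]
      push_cast
      ring
    rw [h1, re_ofReal_mul, I_re, mul_zero]
  have hkre : ∀ k : ℤ, ((k : ℂ) * a).re = 0 := by
    intro k
    have h1 : (k : ℂ) * a = ((k : ℝ) : ℂ) * a := by push_cast; ring
    rw [h1, re_ofReal_mul, hare, mul_zero]
  have hma : exp (m * a) = 1 := by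
    have h1 : (m : ℂ) * a = j * (2 * Real.pi * I) := by
      rw [ha]
      field_simp
    rw [h1]
    exact Complex.exp_nat_mul_two_pi_mul_I j
  have hper1 := lj_per hm hM1 hMS hare hma hw₁ hw₁'
  have hperN : ∀ k : ℕ, ∀ w : ℂ, w.re < b → M (w + k * a) = M w := by
    intro k
    induction k with
    | zero =>
      intro w _
      simp
    | succ k ih =>
      intro w hw
      have h1 : w + ((k + 1 : ℕ) : ℂ) * a = (w + k * a) + a := by
        push_cast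
        ring
      have h2 : (w + k * a).re < b := by
        have h3 := hkre k
        push_cast at h3
        rw [add_re, h3, add_zero]
        exact hw
      rw [h1, hper1 _ h2, ih w hw]
  have hperZ : ∀ k : ℤ, ∀ w : ℂ, w.re < b → M (w + k * a) = M w := by
    intro k w hw
    rcases le_total 0 k with h0 | h0
    · lift k to ℕ using h0
      exact_mod_cast hperN k w hw
    · obtain ⟨n, hn⟩ := Int.eq_ofNat_of_zero_le (neg_nonneg.2 h0)
      have hk : k = -(n : ℤ) := by omega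
      have h2 : (w + k * a).re < b := by
        rw [add_re, hkre, add_zero]
        exact hw
      have h3 := hperN n (w + k * a) h2
      have h4 : w + k * a + n * a = w := by
        rw [hk]
        push_cast
        ring
      rw [h4] at h3
      exact h3.symm
  have hkey : ∀ w w' : ℂ, w.re < b → w'.re < b → M w' = M w → ∃ k : ℤ, w' = w + k * a := by
    intro w w' hw hw' h
    obtain ⟨n, hn⟩ := hval w w' hw hw' h
    refine ⟨n / j, ?_⟩
    have hjZ : (j : ℤ) ≠ 0 := by exact_mod_cast hj0.ne'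
    have hdiv : (n : ℤ) = j * (n / j) + n % j := (Int.mul_ediv_add_emod n j).symm
    have hr0 : 0 ≤ n % j := Int.emod_nonneg _ hjZ
    have hr1 : n % j < j := Int.emod_lt_of_pos _ (by exact_mod_cast hj0)
    obtain ⟨r, hr⟩ := Int.eq_ofNat_of_zero_le hr0
    have hdivC : (n : ℂ) = j * ((n / j : ℤ) : ℂ) + (r : ℂ) := by
      have h1 : ((n : ℤ) : ℂ) = ((j * (n / j) + n % j : ℤ) : ℂ) := by rw [← hdiv]
      rw [hr] at h1
      push_cast at h1
      exact_mod_cast h1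
    have hw2 : w' = (w + 2 * Real.pi * I * r / m) + ((n / j : ℤ) : ℂ) * a := by
      rw [hn, hdivC, ha]
      ring
    have hre : (w + 2 * Real.pi * I * r / m).re < b := by
      have h1 : (w + 2 * Real.pi * I * r / m) = w' + ((-(n / j) : ℤ) : ℂ) * a := by
        rw [hw2]
        push_cast
        ring
      rw [h1, add_re, hkre, add_zero]
      exact hw'
    rcases Nat.eq_zero_or_pos r with h0 | h0
    · rw [hw2, h0]
      simp
    · exfalso
      have h1 := hmin r h0 w hw (by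
        rw [← h, hw2, hperZ _ _ hre])
      omega
  -- the function
  set ρ : ℝ := Real.exp (m * b / j) with hρ
  have hlre : ∀ v ∈ ball (0 : ℂ) ρ \ {0}, ∀ z : ℂ, exp z = v → ((j : ℂ) / m * z).re < b := by
    intro v hv z hz
    have h1 : ‖exp z‖ < ρ := by
      rw [hz]
      simpa using hv.1
    rw [norm_exp, hρ, Real.exp_lt_exp] at h1
    have h2 : ((j : ℂ) / m * z).re = (j : ℝ) / m * z.re := by
      have h3 : ((j : ℂ) / m * z) = (((j : ℝ) / m : ℝ) : ℂ) * z := by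
        push_cast
        ring
      rw [h3, re_ofReal_mul]
    rw [h2]
    rw [lt_div_iff₀ hjR] at h1
    rw [div_mul_eq_mul_div, div_lt_iff₀ hmR]
    linarith
  have hbranch : ∀ v ∈ ball (0 : ℂ) ρ \ {0}, ∀ z : ℂ, exp z = v →
      M ((j : ℂ) / m * z) = M ((j : ℂ) / m * log v) := by
    intro v hv z hz
    have h1 : exp z = exp (log v) := by rw [hz, exp_log hv.2]
    obtain ⟨n, hn⟩ := Complex.exp_eq_exp_iff_exists_int.1 h1
    have h2 : (j : ℂ) / m * z = (j : ℂ) / m * log v + n * a := by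
      rw [hn, ha]
      ring
    rw [h2]
    exact hperZ n _ (hlre v hv _ (exp_log hv.2))
  refine ⟨j, ρ, fun v => M ((j : ℂ) / m * log v), hj0, Real.exp_pos _, ?_, ?_, ?_, ?_⟩
  · intro v₀ hv₀
    have hv0 : v₀ ≠ 0 := hv₀.2
    have h1 : AnalyticAt ℂ (fun v => (j : ℂ) / m * (log (v / v₀) + log v₀)) v₀ := by
      have h4 : AnalyticAt ℂ (fun v => v / v₀) v₀ := by
        have h5 : AnalyticAt ℂ (fun v : ℂ => v) v₀ := analyticAt_id
        exact h5.fun_div analyticAt_const hv0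
      refine analyticAt_const.fun_mul ((h4.clog ?_).fun_add analyticAt_const)
      rw [div_self hv0]
      exact one_mem_slitPlane
    have h2 : AnalyticAt ℂ M ((fun v => (j : ℂ) / m * (log (v / v₀) + log v₀)) v₀) := by
      apply hM1
      show ((j : ℂ) / m * (log (v₀ / v₀) + log v₀)).re < b
      rw [div_self hv0, log_one, zero_add]
      exact hlre v₀ hv₀ _ (exp_log hv0)
    have h3 := AnalyticAt.fun_comp (g := M)
      (f := fun v => (j : ℂ) / m * (log (v / v₀) + log v₀)) h2 h1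
    refine h3.congr ?_
    have ho : IsOpen (ball (0 : ℂ) ρ \ {0}) := isOpen_ball.sdiff isClosed_singleton
    filter_upwards [ho.mem_nhds hv₀] with v hv
    refine hbranch v hv _ ?_
    rw [exp_add, exp_log (div_ne_zero hv.2 hv0), exp_log hv0, div_mul_cancel₀ _ hv0]
  · intro v hv v' hv' h
    obtain ⟨k, hk⟩ := hkey _ _ (hlre v' hv' _ (exp_log hv'.2)) (hlre v hv _ (exp_log hv.2)) h
    have h1 : log v = log v' + k * (2 * Real.pi * I) := by
      have h2 : (j : ℂ) / m * log v = (j : ℂ) / m * (log v' + k * (2 * Real.pi * I)) := by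
        rw [hk, ha]
        ring
      exact mul_left_cancel₀ (div_ne_zero hjC hmC) h2
    rw [← exp_log hv.2, h1, exp_add, Complex.exp_int_mul_two_pi_mul_I, mul_one, exp_log hv'.2]
  · intro v hv
    show f₀ (M ((j : ℂ) / m * log v)) = x₁ + v ^ j
    rw [(hMS _ (hlre v hv _ (exp_log hv.2))).2]
    have h1 : (m : ℂ) * ((j : ℂ) / m * log v) = j * log v := by
      field_simp
    rw [h1, exp_nat_mul, exp_log hv.2]
  · intro w hw
    have hmem : exp (m * w / j) ∈ ball (0 : ℂ) ρ \ {0} := by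
      refine ⟨?_, exp_ne_zero _⟩
      rw [mem_ball_zero_iff, norm_exp, hρ, Real.exp_lt_exp]
      have h2 : ((m : ℂ) * w / j).re = (m : ℝ) * w.re / j := by
        have h3 : ((m : ℂ) * w / j) = (((m : ℝ) / j : ℝ) : ℂ) * w := by
          push_cast
          ring
        rw [h3, re_ofReal_mul]
        ring
      rw [h2]
      gcongr
    refine ⟨hmem, ?_⟩
    have h1 := hbranch _ hmem _ rfl
    have h2 : (j : ℂ) / m * (m * w / j) = w := by
      field_simp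
    rw [h2] at h1
    exact h1

/-- in the non-injective case the end is a point of the plane -/
private lemma lj_endc {f₀ : ℂ → ℂ} (hLU : LU f₀ univ) {x₁ : ℂ}
    (htop : ¬ Tendsto f₀ (comap im atTop) (𝓝 x₁)) {j : ℕ} (hj : 0 < j) {ρ : ℝ} (hρ : 0 < ρ)
    {μ : ℂ → ℂ} (hμ : AnalyticOnNhd ℂ μ (ball 0 ρ \ {0})) (hi : InjOn μ (ball 0 ρ \ {0}))
    (hf : ∀ v ∈ ball (0 : ℂ) ρ \ {0}, f₀ (μ v) = x₁ + v ^ j) :
    ∃ c₀ : ℂ, AnalyticAt ℂ f₀ c₀ ∧ deriv f₀ c₀ ≠ 0 ∧ f₀ c₀ = x₁ ∧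
      Tendsto μ (𝓝[≠] 0) (𝓝 c₀) := by
  have hV : ball (0 : ℂ) ρ \ {0} ∈ 𝓝[≠] (0 : ℂ) := by
    rw [sdiff_eq, inter_comm]
    exact inter_mem self_mem_nhdsWithin (nhdsWithin_le_nhds (ball_mem_nhds _ hρ))
  have hpow : Tendsto (fun v : ℂ => x₁ + v ^ j) (𝓝[≠] 0) (𝓝 x₁) := by
    have h1 : Continuous (fun v : ℂ => x₁ + v ^ j) := by fun_prop
    have h2 := h1.tendsto 0
    rw [zero_pow hj.ne', add_zero] at h2
    exact h2.mono_left nhdsWithin_le_nhds
  have hfl : Tendsto (fun v => f₀ (μ v)) (𝓝[≠] 0) (𝓝 x₁) := by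
    refine hpow.congr' ?_
    filter_upwards [hV] with v hv using (hf v hv).symm
  have hne : ∀ᶠ v in 𝓝[≠] (0 : ℂ), f₀ (μ v) ≠ 0 := by
    by_cases h0 : x₁ = 0
    · filter_upwards [hV] with v hv
      rw [hf v hv, h0, zero_add]
      exact pow_ne_zero _ hv.2
    · exact hfl.eventually_ne h0
  have main : ∀ c₀ : ℂ, Tendsto μ (𝓝[≠] 0) (𝓝 c₀) → ∃ c₀ : ℂ, AnalyticAt ℂ f₀ c₀ ∧
      deriv f₀ c₀ ≠ 0 ∧ f₀ c₀ = x₁ ∧ Tendsto μ (𝓝[≠] 0) (𝓝 c₀) := by
    intro c₀ hc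
    rcases hLU c₀ (mem_univ _) with ⟨h1, h2⟩ | ⟨h1, h2, h3⟩
    · exact ⟨c₀, h1, h2, tendsto_nhds_unique (h1.continuousAt.tendsto.comp hc) hfl, hc⟩
    · exfalso
      have h4 : Tendsto (fun v => (f₀ (μ v))⁻¹) (𝓝[≠] 0) (𝓝 ((f₀ c₀)⁻¹)) :=
        h2.continuousAt.tendsto.comp hc
      have h5 := h4.mul hfl
      rw [h1, inv_zero, zero_mul] at h5
      have h6 : Tendsto (fun v => (f₀ (μ v))⁻¹ * f₀ (μ v)) (𝓝[≠] 0) (𝓝 1) := by
        refine tendsto_const_nhds.congr' ?_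
        filter_upwards [hne] with v hv
        rw [inv_mul_cancel₀ hv]
      exact zero_ne_one (tendsto_nhds_unique h5 h6)
  rcases lj_mero (meromorphicAt_of_injOn hρ hμ hi) with ⟨g, hg1, hg2⟩ | ⟨g, hg1, hg2⟩
  · refine main (g 0) ?_
    have h1 : Tendsto g (𝓝[≠] 0) (𝓝 (g 0)) := hg1.continuousAt.tendsto.mono_left
      nhdsWithin_le_nhds
    exact h1.congr' (hg2.mono fun v hv => hv.symm)
  · by_cases hg0 : g 0 = 0
    · exfalso
      apply htop
      rcases hg1.eventually_constant_or_nhds_le_map_nhds with h1 | h1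
      · exfalso
        have h2 : ∀ᶠ v in 𝓝[≠] (0 : ℂ), v ∈ ball (0 : ℂ) ρ \ {0} ∧ μ v = 0 := by
          filter_upwards [hV, hg2, nhdsWithin_le_nhds h1] with v hv1 hv2 hv3
          rw [hv3, hg0, inv_eq_zero] at hv2
          exact ⟨hv1, hv2⟩
        obtain ⟨δ, hδ, h3⟩ := Metric.eventually_nhds_iff_ball.1 (eventually_nhdsWithin_iff.1 h2)
        have h4 : ∀ t : ℝ, 0 < t → t < δ → (t : ℂ) ∈ ball (0 : ℂ) ρ \ {0} ∧ μ t = 0 := by
          intro t ht1 ht2
          refine h3 t ?_ (ofReal_ne_zero.2 ht1.ne')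
          rw [mem_ball_zero_iff, Complex.norm_real, Real.norm_eq_abs, abs_of_pos ht1]
          exact ht2
        obtain ⟨h5, h6⟩ := h4 (δ / 2) (by positivity) (by linarith)
        obtain ⟨h7, h8⟩ := h4 (δ / 3) (by positivity) (by linarith)
        have h9 := ofReal_injective (hi h5 h7 (h6.trans h8.symm))
        linarith
      · rw [hg0] at h1
        rw [Metric.tendsto_nhds]
        intro τ hτ
        have hP : ∀ᶠ v in 𝓝 (0 : ℂ), v ≠ 0 → v ∈ ball (0 : ℂ) ρ \ {0} ∧ (μ v)⁻¹ = g v ∧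
            ‖v ^ j‖ < τ := by
          refine eventually_nhdsWithin_iff.1 ?_
          have h2 : Tendsto (fun v : ℂ => ‖v ^ j‖) (𝓝[≠] 0) (𝓝 0) := by
            have h3 : Continuous (fun v : ℂ => ‖v ^ j‖) := by fun_prop
            have h4 := h3.tendsto 0
            rw [zero_pow hj.ne', norm_zero] at h4
            exact h4.mono_left nhdsWithin_le_nhds
          filter_upwards [hV, hg2, h2.eventually_lt_const hτ] with v hv1 hv2 hv3
          exact ⟨hv1, hv2, hv3⟩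
        have h2 : g '' {v | v ≠ 0 → v ∈ ball (0 : ℂ) ρ \ {0} ∧ (μ v)⁻¹ = g v ∧ ‖v ^ j‖ < τ} ∈
            𝓝 (0 : ℂ) := h1 (image_mem_map hP)
        have h3 : Tendsto (fun z : ℂ => z⁻¹) (comap im atTop) (𝓝 0) := by
          rw [tendsto_zero_iff_norm_tendsto_zero]
          have h4 : Tendsto (fun z : ℂ => z.im) (comap im atTop) atTop := tendsto_comap
          have h5 : Tendsto (fun z : ℂ => ‖z‖) (comap im atTop) atTop :=
            tendsto_atTop_mono (fun z => im_le_norm z) h4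
          have h6 := h5.inv_tendsto_atTop
          refine h6.congr fun z => ?_
          simp
        have h4 : ∀ᶠ z : ℂ in comap im atTop, z ≠ 0 := by
          have h5 : Tendsto (fun z : ℂ => z.im) (comap im atTop) atTop := tendsto_comap
          filter_upwards [h5.eventually_gt_atTop 0] with z hz h0
          rw [h0, zero_im] at hz
          exact lt_irrefl _ hz
        filter_upwards [h3.eventually_mem h2, h4] with z hz1 hz2
        obtain ⟨v, hv1, hv2⟩ := hz1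
        have hv0 : v ≠ 0 := by
          intro h0
          rw [h0, hg0] at hv2
          exact inv_ne_zero hz2 hv2.symm
        obtain ⟨h5, h6, h7⟩ := hv1 hv0
        rw [hv2] at h6
        have h8 : μ v = z := inv_injective h6
        rw [← h8, hf v h5, dist_eq_norm, add_sub_cancel_left]
        exact h7
    · refine main (g 0)⁻¹ ?_
      have h1 : Tendsto (fun v => (g v)⁻¹) (𝓝[≠] 0) (𝓝 (g 0)⁻¹) :=
        (hg1.continuousAt.tendsto.mono_left nhdsWithin_le_nhds).inv₀ hg0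
      refine h1.congr' (hg2.mono fun v hv => ?_)
      rw [← hv, inv_inv]

/-- the end point of the label -/
private lemma lj_end {f₀ : ℂ → ℂ} (hLU : LU f₀ univ) (hper : ∀ z, f₀ (z + 1) = f₀ z)
    (hNL : NoLim f₀) {x₁ : ℂ} {m : ℕ} (hm : 0 < m) {M p : ℂ → ℂ} {ε : ℝ} (hε : 0 < ε)
    (hM1 : AnalyticOnNhd ℂ M {w | w.re < Real.log ε}) (hp : MeromorphicAt p 0)
    (hode : ∀ w, w.re < Real.log ε → deriv (deriv M) w = p (exp w) * deriv M w)
    (hMS : ∀ w, w.re < Real.log ε → AnalyticAt ℂ f₀ (M w) ∧ f₀ (M w) = x₁ + exp (m * w)) :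
    ∃ (G : ℂ → ℂ) (η : ℝ), 0 < η ∧ η ≤ ε ∧
      (∀ x ∈ ball (0 : ℂ) η, AnalyticAt ℂ G (x₁ + x ^ m) ∧ f₀ (G (x₁ + x ^ m)) = x₁ + x ^ m) ∧
      ∀ w, w.re < Real.log η → M w = G (x₁ + exp (m * w)) := by
  by_cases hi : InjOn M {w | w.re < Real.log ε}
  · exfalso
    obtain ⟨C, c₀, U, ε', hC, hε', hle, hU, hU0, hMU⟩ := end_form_inj hε
      (fun w hw => (hM1 w hw).differentiableAt.differentiableWithinAt) hi hp hode
    rcases lim_of_end hm hε' hper hC hU hU0 hMU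
      (fun w hw => (hMS w (hw.trans_le (Real.log_le_log hε' hle))).2) with h | h
    · exact hNL.top x₁ h
    · exact hNL.bot x₁ h
  · obtain ⟨j, ρ, μ, hj, hρ, hμ, hμi, hμf, hMμ⟩ := lj_cov hm hM1 hMS hi
    obtain ⟨c₀, h1, h2, h3, h4⟩ := lj_endc hLU (hNL.top x₁) hj hρ hμ hμi hμf
    obtain ⟨G, hG1, hG2, hG3, hG4, hG5⟩ := lj_inv h1 h2
    rw [h3] at hG1 hG2 hG4
    have h5 : ∀ᶠ v in 𝓝[≠] (0 : ℂ), G (f₀ (μ v)) = μ v := h4.eventually hG5
    rw [eventually_nhdsWithin_iff, Metric.eventually_nhds_iff_ball] at h5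
    obtain ⟨δ, hδ, h6⟩ := h5
    have hmR : (0 : ℝ) < m := Nat.cast_pos.2 hm
    have hjR : (0 : ℝ) < j := Nat.cast_pos.2 hj
    set η₁ : ℝ := Real.exp (j / m * Real.log δ) with hη₁
    have hη₁0 : 0 < η₁ := Real.exp_pos _
    have hpc : Tendsto (fun x : ℂ => x₁ + x ^ m) (𝓝 0) (𝓝 x₁) := by
      have h1 : Continuous (fun x : ℂ => x₁ + x ^ m) := by fun_prop
      have h2 := h1.tendsto 0
      rwa [zero_pow hm.ne', add_zero] at h2
    obtain ⟨η₂, hη₂, hG8⟩ := Metric.eventually_nhds_iff_ball.1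
      (hpc.eventually (hG1.eventually_analyticAt.and hG4))
    have hpos : 0 < min ε (min η₁ η₂) := lt_min hε (lt_min hη₁0 hη₂)
    refine ⟨G, min ε (min η₁ η₂), hpos, min_le_left _ _, fun x hx => ?_, fun w hw => ?_⟩
    · exact hG8 x (ball_subset_ball ((min_le_right _ _).trans (min_le_right _ _)) hx)
    · have hw1 : w.re < Real.log ε := hw.trans_le (Real.log_le_log hpos (min_le_left _ _))
      have hw2 : w.re < Real.log η₁ := hw.trans_le
        (Real.log_le_log hpos ((min_le_right _ _).trans (min_le_left _ _)))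
      obtain ⟨h7, h8⟩ := hMμ w hw1
      have h9 : exp (m * w / j) ∈ ball (0 : ℂ) δ := by
        rw [mem_ball_zero_iff, norm_exp]
        have h2 : ((m : ℂ) * w / j).re = (m : ℝ) * w.re / j := by
          have h3 : ((m : ℂ) * w / j) = (((m : ℝ) / j : ℝ) : ℂ) * w := by
            push_cast
            ring
          rw [h3, re_ofReal_mul]
          ring
        rw [h2, ← Real.lt_log_iff_exp_lt hδ, div_lt_iff₀ hjR]
        rw [hη₁, Real.log_exp, div_mul_eq_mul_div, lt_div_iff₀ hmR] at hw2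
        linarith
      have h10 := h6 _ h9 h7.2
      rw [← (hMS w hw1).2, h8, h10]

/-- the local step, at a point where `f` is finite -/
private lemma lj_fin {f₀ : ℂ → ℂ} (hLU : LU f₀ univ) (hper : ∀ z, f₀ (z + 1) = f₀ z)
    (hNL : NoLim f₀)
    {f N L : ℂ → ℂ} {t₁ : ℂ} (hf : AnalyticAt ℂ f t₁) (hN : MeromorphicAt N t₁)
    (hfc : ¬ ∀ᶠ t in 𝓝 t₁, f t = f t₁) {T : Set ℂ} (hT : IsOpen T) (hTc : Convex ℝ T)
    (ht₁ : t₁ ∈ closure T) (hL : AnalyticOnNhd ℂ L T)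
    (hlab : ∀ t ∈ T, LabAt f₀ f N L t) :
    ∃ r > 0, ∃ l : ℂ → ℂ, AnalyticOnNhd ℂ l (ball t₁ r) ∧
      (∀ t ∈ T ∩ ball t₁ r, l t = L t) ∧ ∀ t ∈ ball t₁ r, LabAt f₀ f N l t := by
  by_cases htT : t₁ ∈ T
  · obtain ⟨r, hr, hrT⟩ := Metric.isOpen_iff.1 hT t₁ htT
    exact ⟨r, hr, L, fun t ht => hL t (hrT ht), fun t _ => rfl,
      fun t ht => hlab t (hrT ht)⟩
  obtain ⟨m, q, hm, hq, hfm⟩ := lj_nf hf hfc
  have hm' : (m : ℂ) ≠ 0 := Nat.cast_ne_zero.2 hm.ne'
  -- the coordinate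
  set v : ℂ → ℂ := fun t => (t - t₁) * exp (q t) with hv
  have hva : AnalyticAt ℂ v t₁ := by
    have h1 : AnalyticAt ℂ (fun t => t - t₁) t₁ := by fun_prop
    exact h1.fun_mul hq.cexp
  have hv0 : v t₁ = 0 := by simp [hv]
  have hvd : deriv v t₁ ≠ 0 := by
    have h1 : HasDerivAt v (1 * exp (q t₁) + (t₁ - t₁) * (exp (q t₁) * deriv q t₁)) t₁ :=
      ((hasDerivAt_id t₁).sub_const t₁).mul (hq.differentiableAt.hasDerivAt.cexp)
    rw [h1.deriv, sub_self, zero_mul, add_zero, one_mul]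
    exact exp_ne_zero _
  obtain ⟨τ, hτ1, hτ2, hτ3, hτ4, hτ5⟩ := lj_inv hva hvd
  rw [hv0] at hτ1 hτ2 hτ3 hτ4
  -- a good radius in `t`
  have hNa : ∀ᶠ t in 𝓝 t₁, t ≠ t₁ → AnalyticAt ℂ N t := by
    have h1 := hN.eventually_analyticAt
    rwa [eventually_nhdsWithin_iff] at h1
  have hgood : ∀ᶠ t in 𝓝 t₁, (AnalyticAt ℂ q t ∧ AnalyticAt ℂ v t ∧ deriv v t ≠ 0 ∧
      f t = f t₁ + v t ^ m ∧ AnalyticAt ℂ f t ∧ τ (v t) = t) ∧ (t ≠ t₁ → AnalyticAt ℂ N t) := by
    filter_upwards [hNa, hq.eventually_analyticAt, hva.eventually_analyticAt,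
      hva.deriv.continuousAt.eventually_ne hvd, hfm, hf.eventually_analyticAt, hτ5]
      with t h1 h2 h3 h4 h5 h6 h7
    exact ⟨⟨h2, h3, h4, h5, h6, h7⟩, h1⟩
  obtain ⟨r₁, hr₁, hg₁⟩ := Metric.eventually_nhds_iff_ball.1 hgood
  -- a good radius in the coordinate
  have hgx : ∀ᶠ x in 𝓝 (0 : ℂ), AnalyticAt ℂ τ x ∧ v (τ x) = x ∧ τ x ∈ ball t₁ r₁ := by
    have h1 : ∀ᶠ x in 𝓝 (0 : ℂ), τ x ∈ ball t₁ r₁ := by
      have h2 := hτ1.continuousAt
      rw [ContinuousAt, hτ2] at h2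
      exact h2.eventually (ball_mem_nhds t₁ hr₁)
    filter_upwards [hτ1.eventually_analyticAt, hτ4, h1] with x h1 h2 h3
    exact ⟨h1, h2, h3⟩
  obtain ⟨ε, hε, hgε⟩ := Metric.eventually_nhds_iff_ball.1 hgx
  have hvc : Tendsto v (𝓝 t₁) (𝓝 0) := by
    have h2 := hva.continuousAt
    rwa [ContinuousAt, hv0] at h2
  obtain ⟨r₀, hr₀, hg₀⟩ := Metric.eventually_nhds_iff_ball.1
    ((hvc.eventually (ball_mem_nhds (0 : ℂ) hε)).and (ball_mem_nhds t₁ hr₁))
  have hvne : ∀ t ∈ ball t₁ r₀, t ≠ t₁ → v t ≠ 0 := by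
    intro t ht hne h0
    have h1 := (hg₁ t (hg₀ t ht).2).1.2.2.2.2.2
    rw [h0, hτ2] at h1
    exact hne h1.symm
  have hτne : ∀ x ∈ ball (0 : ℂ) ε, x ≠ 0 → τ x ≠ t₁ := by
    intro x hx hne h0
    have h1 := (hgε x hx).2.1
    rw [h0, hv0] at h1
    exact hne h1.symm
  -- the coefficient of the equation
  set p : ℂ → ℂ := fun x => x * N (τ x) / deriv v (τ x) -
    x * deriv (deriv v) (τ x) / deriv v (τ x) ^ 2 + 1 with hp
  have hpm : MeromorphicAt p 0 := by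
    have h1 : MeromorphicAt (fun x : ℂ => x) 0 := analyticAt_id.meromorphicAt
    have h2 : MeromorphicAt (fun x => N (τ x)) 0 := by
      rw [← hτ2] at hN
      exact hN.comp_analyticAt hτ1
    have h3 : MeromorphicAt (fun x => deriv v (τ x)) 0 := by
      have h4 : AnalyticAt ℂ (deriv v) (τ 0) := by
        rw [hτ2]
        exact hva.deriv
      exact (AnalyticAt.fun_comp (g := deriv v) (f := τ) h4 hτ1).meromorphicAt
    have h5 : MeromorphicAt (fun x => deriv (deriv v) (τ x)) 0 := by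
      have h4 : AnalyticAt ℂ (deriv (deriv v)) (τ 0) := by
        rw [hτ2]
        exact hva.deriv.deriv
      exact (AnalyticAt.fun_comp (g := deriv (deriv v)) (f := τ) h4 hτ1).meromorphicAt
    exact (((h1.fun_mul h2).fun_div h3).fun_sub ((h1.fun_mul h5).fun_div (h3.fun_pow 2))).fun_add
      (MeromorphicAt.const 1 0)
  have hpa : ∀ x ∈ ball (0 : ℂ) ε, x ≠ 0 → AnalyticAt ℂ p x := by
    intro x hx hne
    obtain ⟨h1, h2, h3⟩ := hgε x hx
    obtain ⟨⟨-, h4, h5, -⟩, h6⟩ := hg₁ _ h3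
    have h7 := h6 (hτne x hx hne)
    have h8 : AnalyticAt ℂ (fun x => N (τ x)) x := AnalyticAt.fun_comp (g := N) (f := τ) h7 h1
    have h9 : AnalyticAt ℂ (fun x => deriv v (τ x)) x :=
      AnalyticAt.fun_comp (g := deriv v) (f := τ) h4.deriv h1
    have h10 : AnalyticAt ℂ (fun x => deriv (deriv v) (τ x)) x :=
      AnalyticAt.fun_comp (g := deriv (deriv v)) (f := τ) h4.deriv.deriv h1
    have hid : AnalyticAt ℂ (fun x : ℂ => x) x := analyticAt_id
    exact (((hid.fun_mul h8).fun_div h9 h5).fun_sub ((hid.fun_mul h10).fun_div (h9.fun_pow 2)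
      (pow_ne_zero 2 h5))).fun_add analyticAt_const
  have hpv : ∀ t ∈ ball t₁ r₀, p (v t) =
      v t * N t / deriv v t - v t * deriv (deriv v) t / deriv v t ^ 2 + 1 := by
    intro t ht
    have h1 := (hg₁ t (hg₀ t ht).2).1.2.2.2.2.2
    simp only [hp, h1]
  have hKode : ∀ (M W : ℂ → ℂ) (t : ℂ), AnalyticOnNhd ℂ M {w | w.re < Real.log ε} →
      (∀ w, w.re < Real.log ε → deriv (deriv M) w = p (exp w) * deriv M w) →
      t ∈ ball t₁ r₀ → AnalyticAt ℂ W t → (∀ᶠ s in 𝓝 t, exp (W s) = v s) →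
      deriv (fun s => M (W s)) t = deriv M (W t) * deriv W t ∧
      deriv (deriv (fun s => M (W s))) t = N t * deriv (fun s => M (W s)) t := by
    intro M W t hM hode ht hW hexp
    have h1 : (W t).re < Real.log ε := lj_re hε hexp.self_of_nhds (hg₀ t ht).1
    obtain ⟨⟨-, h4, h5, -⟩, -⟩ := hg₁ t (hg₀ t ht).2
    obtain ⟨h6, -, h7⟩ := lj_ode (N := N) (q := p (v t)) (hM _ h1) hW h4 hexp h5 (by
      rw [hode _ h1, hexp.self_of_nhds]) (hpv t ht)
    exact ⟨h6, h7⟩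
  -- the domain `T₀`
  have hT0o : IsOpen (T ∩ ball t₁ r₀) := hT.inter isOpen_ball
  have hT0c : Convex ℝ (T ∩ ball t₁ r₀) := hTc.inter (convex_ball _ _)
  have hT0n : (T ∩ ball t₁ r₀).Nonempty := by
    have h1 := mem_closure_iff.1 ht₁ (ball t₁ r₀) isOpen_ball (mem_ball_self hr₀)
    rwa [inter_comm] at h1
  obtain ⟨a, ha⟩ := hT0n
  have hLN : ∀ t ∈ T ∩ ball t₁ r₀, deriv (deriv L) t = N t * deriv L t := by
    rintro t ⟨ht1, ht2⟩
    have hNt : AnalyticAt ℂ N t :=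
      (hg₁ t (hg₀ t ht2).2).2 (fun h0 => htT (by rw [← h0]; exact ht1))
    have hLt := hL t ht1
    have h1 : ∀ᶠ s in 𝓝[≠] t, deriv (deriv L) s = N s * deriv L s :=
      (hlab t ht1).mono fun s hs => hs.2
    exact ((hLt.deriv.deriv.frequently_eq_iff_eventually_eq
      (hNt.fun_mul hLt.deriv)).1 h1.frequently).self_of_nhds
  obtain ⟨t₀, ht₀, ht₀f⟩ : ∃ t₀ ∈ T ∩ ball t₁ r₀, ∀ᶠ s in 𝓝 t₀, f s = f₀ (L s) := by
    have h1 : ∀ᶠ s in 𝓝[≠] a, f s = f₀ (L s) := (hlab a ha.1).mono fun s hs => hs.1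
    have h3 : ∀ᶠ s in 𝓝[≠] a, s ∈ T ∩ ball t₁ r₀ := nhdsWithin_le_nhds (hT0o.mem_nhds ha)
    obtain ⟨t₀, h4, h5⟩ := ((lj_punct h1).and h3).exists
    exact ⟨t₀, h5, h4⟩
  have hne0 : ∀ t ∈ T ∩ ball t₁ r₀, t ≠ t₁ := fun t ht h0 => htT (by rw [← h0]; exact ht.1)
  have hfd : deriv f t₀ ≠ 0 := by
    have hb := (hg₀ t₀ ht₀.2).2
    obtain ⟨⟨-, h4, h5, -⟩, -⟩ := hg₁ t₀ hb
    have h1 : f =ᶠ[𝓝 t₀] fun t => f t₁ + v t ^ m := by
      filter_upwards [isOpen_ball.mem_nhds hb] with t ht using (hg₁ t ht).1.2.2.2.1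
    have h2 : HasDerivAt (fun t => f t₁ + v t ^ m) (m * v t₀ ^ (m - 1) * deriv v t₀) t₀ :=
      (h4.differentiableAt.hasDerivAt.fun_pow m).const_add _
    rw [h1.deriv_eq, h2.deriv]
    exact mul_ne_zero (mul_ne_zero hm' (pow_ne_zero _ (hvne t₀ ht₀.2 (hne0 t₀ ht₀)))) h5
  have hLd : deriv L t₀ ≠ 0 := lj_Ld hLU (mem_univ _) (hL t₀ ht₀.1)
    (hg₁ t₀ (hg₀ t₀ ht₀.2).2).1.2.2.2.2.1 hfd ht₀f
  -- the logarithm of the coordinate
  obtain ⟨W₀, hW₀, hW₀e⟩ := lj_log hT hTc ha.1 htT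
  set om : ℂ → ℂ := fun t => W₀ t + q t with hom
  have homa : AnalyticOnNhd ℂ om (T ∩ ball t₁ r₀) := by
    intro t ht
    exact (hW₀ t ht.1).fun_add (hg₁ t (hg₀ t ht.2).2).1.1
  have home : ∀ t ∈ T ∩ ball t₁ r₀, exp (om t) = v t := by
    intro t ht
    show exp (W₀ t + q t) = (t - t₁) * exp (q t)
    rw [exp_add, hW₀e t ht.1]
  have home' : ∀ t ∈ T ∩ ball t₁ r₀, ∀ᶠ s in 𝓝 t, exp (om s) = v s := fun t ht => by
    filter_upwards [hT0o.mem_nhds ht] with s hs using home s hs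
  have homH : ∀ t ∈ T ∩ ball t₁ r₀, (om t).re < Real.log ε := fun t ht =>
    lj_re hε (home t ht) (hg₀ t ht.2).1
  have homd : ∀ t ∈ T ∩ ball t₁ r₀, deriv om t ≠ 0 := by
    intro t ht h0
    have h1 := lj_der (homa t ht) (home' t ht)
    rw [h0, mul_zero] at h1
    exact (hg₁ t (hg₀ t ht.2).2).1.2.2.1 h1.symm
  obtain ⟨M, hM1, hM2, hM3, hM4, hM5⟩ := lj_sol hε hpa (w₀ := om t₀) (A := L t₀)
    (c := deriv L t₀ / deriv om t₀) (homH t₀ ht₀) (div_ne_zero hLd (homd t₀ ht₀))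
  have hKL : ∀ t ∈ T ∩ ball t₁ r₀, M (om t) = L t := by
    refine lj_uniq (K := fun t => M (om t)) (N := N) hT0o hT0c.isPreconnected ?_
      (fun t ht => hL t ht.1) ?_ ?_ hLN ht₀ hM2 ?_
    · intro t ht
      exact AnalyticAt.fun_comp (g := M) (f := om) (hM1 _ (homH t ht)) (homa t ht)
    · intro t ht
      rw [(hKode M om t hM1 hM5 ht.2 (homa t ht) (home' t ht)).1]
      exact mul_ne_zero (hM4 _ (homH t ht)) (homd t ht)
    · intro t ht
      exact (hKode M om t hM1 hM5 ht.2 (homa t ht) (home' t ht)).2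
    · rw [(hKode M om t₀ hM1 hM5 ht₀.2 (homa t₀ ht₀) (home' t₀ ht₀)).1, hM3,
        div_mul_cancel₀ _ (homd t₀ ht₀)]
  -- the label stays in the strip
  have hstay := lj_stay hLU (m := m) (lj_convex (Real.log ε)) hM1
    (fun w hw => hM4 w hw) (x₁ := f t₁) (w₀ := om t₀) (homH t₀ ht₀) (by
      obtain ⟨g, hg1, hg2, hg3, hg4, hg5⟩ := lj_inv (homa t₀ ht₀) (homd t₀ ht₀)
      have hgt : Tendsto g (𝓝 (om t₀)) (𝓝 t₀) := by
        have h2 := hg1.continuousAt
        rwa [ContinuousAt, hg2] at h2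
      filter_upwards [hg4, hgt.eventually (hT0o.mem_nhds ht₀), hgt.eventually ht₀f]
        with w h1 h2 h3
      have h4 := hKL _ h2
      rw [h1] at h4
      rw [h4]
      rw [← h3, (hg₁ _ (hg₀ _ h2.2).2).1.2.2.2.1, ← home _ h2, h1, exp_nat_mul])
  obtain ⟨G, η, hη, hηε, hG2, hG3⟩ := lj_end hLU hper hNL hm hε hM1 hpm hM5 hstay
  obtain ⟨r, hr, hgr⟩ := Metric.eventually_nhds_iff_ball.1
    ((hvc.eventually (ball_mem_nhds (0 : ℂ) hη)).and (ball_mem_nhds t₁ hr₀))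
  set l : ℂ → ℂ := fun t => G (f t₁ + v t ^ m) with hl
  have hlM : ∀ t ∈ ball t₁ r, ∀ w, exp w = v t → l t = M w := by
    intro t ht w hw
    rw [hG3 w (lj_re hη hw (hgr t ht).1), exp_nat_mul, hw]
  refine ⟨r, hr, l, fun t ht => ?_, fun t ht => ?_, fun t ht => ?_⟩
  · have h1 := (hg₁ t (hg₀ t (hgr t ht).2).2).1.2.1
    exact AnalyticAt.fun_comp (g := G) (f := fun t => f t₁ + v t ^ m)
      (hG2 _ (hgr t ht).1).1 (analyticAt_const.fun_add (h1.fun_pow m))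
  · have ht' : t ∈ T ∩ ball t₁ r₀ := ⟨ht.1, (hgr t ht.2).2⟩
    rw [hlM t ht.2 _ (home t ht'), hKL t ht']
  · have h1 : ∀ᶠ s in 𝓝[≠] t, s ∈ ball t₁ r := nhdsWithin_le_nhds (isOpen_ball.mem_nhds ht)
    have h2 : ∀ᶠ s in 𝓝[≠] t, s ≠ t₁ := by
      by_cases h0 : t = t₁
      · rw [h0]
        exact self_mem_nhdsWithin
      · exact nhdsWithin_le_nhds (isOpen_ne.mem_nhds h0)
    filter_upwards [h1, h2] with s hs1 hs2
    refine ⟨?_, ?_⟩
    · rw [(hg₁ s (hg₀ s (hgr s hs1).2).2).1.2.2.2.1]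
      exact (hG2 _ (hgr s hs1).1).2.symm
    · have hs3 := (hgr s hs1).2
      have hvs := hvne s hs3 hs2
      have hvsa : AnalyticAt ℂ v s := (hg₁ s (hg₀ s hs3).2).1.2.1
      have hW1 : AnalyticAt ℂ (fun x => log (v x / v s) + log (v s)) s := by
        have h4 : AnalyticAt ℂ (fun x => v x / v s) s := hvsa.fun_div analyticAt_const hvs
        refine (h4.clog ?_).fun_add analyticAt_const
        rw [div_self hvs]
        exact one_mem_slitPlane
      have hW2 : ∀ᶠ x in 𝓝 s, exp (log (v x / v s) + log (v s)) = v x := by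
        filter_upwards [hvsa.continuousAt.eventually_ne hvs] with x hx
        rw [exp_add, exp_log (div_ne_zero hx hvs), exp_log hvs, div_mul_cancel₀ _ hvs]
      have h5 : l =ᶠ[𝓝 s] fun x => M (log (v x / v s) + log (v s)) := by
        filter_upwards [hW2, isOpen_ball.mem_nhds hs1] with x hx1 hx2
        exact hlM x hx2 _ hx1
      have h6 := (hKode M _ s hM1 hM5 hs3 hW1 hW2).2
      rw [h5.deriv.deriv_eq, h5.deriv_eq]
      exact h6

/-- the local step, at a point where `f` is finite after a change of the value -/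
private lemma lj_local {f₀ : ℂ → ℂ} (hLU : LU f₀ univ) (hper : ∀ z, f₀ (z + 1) = f₀ z)
    (hNL : NoLim f₀) {f g N L : ℂ → ℂ} {t₁ : ℂ} (hg : AnalyticAt ℂ g t₁)
    (hfg : ∀ᶠ s in 𝓝[≠] t₁, f s = g s) (hN : MeromorphicAt N t₁)
    (hfc : ∀ c : ℂ, ¬ ∀ᶠ t in 𝓝[≠] t₁, f t = c) {T : Set ℂ} (hT : IsOpen T) (hTc : Convex ℝ T)
    (ht₁ : t₁ ∈ closure T) (hL : AnalyticOnNhd ℂ L T) (hlab : ∀ t ∈ T, LabAt f₀ f N L t) :
    ∃ r > 0, ∃ l : ℂ → ℂ, AnalyticOnNhd ℂ l (ball t₁ r) ∧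
      (∀ t ∈ T ∩ ball t₁ r, l t = L t) ∧ ∀ t ∈ ball t₁ r, LabAt f₀ f N l t := by
  obtain ⟨ρ, hρ, hρ1⟩ := Metric.eventually_nhds_iff_ball.1 (eventually_nhdsWithin_iff.1 hfg)
  have hloc : ∀ t ∈ ball t₁ ρ, ∀ᶠ s in 𝓝[≠] t, f s = g s := by
    intro t ht
    have h1 : ∀ᶠ s in 𝓝[≠] t, s ∈ ball t₁ ρ := nhdsWithin_le_nhds (isOpen_ball.mem_nhds ht)
    have h2 : ∀ᶠ s in 𝓝[≠] t, s ≠ t₁ := by
      by_cases h0 : t = t₁
      · rw [h0]
        exact self_mem_nhdsWithin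
      · exact nhdsWithin_le_nhds (isOpen_ne.mem_nhds h0)
    filter_upwards [h1, h2] with s hs1 hs2
    exact hρ1 s hs1 hs2
  have hgc : ¬ ∀ᶠ t in 𝓝 t₁, g t = g t₁ := by
    intro h1
    apply hfc (g t₁)
    filter_upwards [hfg, nhdsWithin_le_nhds h1] with s hs1 hs2
    rw [hs1, hs2]
  have hcl : t₁ ∈ closure (T ∩ ball t₁ ρ) := by
    rw [_root_.mem_closure_iff]
    intro o ho hto
    obtain ⟨x, hx1, hx2⟩ := mem_closure_iff.1 ht₁ (o ∩ ball t₁ ρ) (ho.inter isOpen_ball)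
      ⟨hto, mem_ball_self hρ⟩
    exact ⟨x, hx1.1, hx2, hx1.2⟩
  obtain ⟨r, hr, l, hl1, hl3, hl4⟩ := lj_fin hLU hper hNL hg hN hgc
    (hT.inter isOpen_ball) (hTc.inter (convex_ball t₁ ρ)) hcl (fun t ht => hL t ht.1)
    (fun t ht => by
      filter_upwards [hlab t ht.1, hloc t ht.2] with s hs1 hs2
      exact ⟨hs2 ▸ hs1.1, hs1.2⟩)
  refine ⟨min r ρ, lt_min hr hρ, l, fun t ht => hl1 t (ball_subset_ball (min_le_left _ _) ht),
    fun t ht => ?_, fun t ht => ?_⟩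
  · exact hl3 t ⟨⟨ht.1, ball_subset_ball (min_le_right _ _) ht.2⟩,
      ball_subset_ball (min_le_left _ _) ht.2⟩
  · filter_upwards [hl4 t (ball_subset_ball (min_le_left _ _) ht),
      hloc t (ball_subset_ball (min_le_right _ _) ht)] with s hs1 hs2
    exact ⟨hs2.trans hs1.1, hs1.2⟩

/-- the local step -/
theorem lab_local_inf {f₀ : ℂ → ℂ} (hLU : LU f₀ univ) (hper : ∀ z, f₀ (z + 1) = f₀ z)
    (hNL : NoLim f₀) {f N L : ℂ → ℂ} {t₁ : ℂ} (hf : MeromorphicAt f t₁) (hN : MeromorphicAt N t₁)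
    (hfc : ∀ c : ℂ, ¬ ∀ᶠ t in 𝓝[≠] t₁, f t = c) {T : Set ℂ} (hT : IsOpen T) (hTc : Convex ℝ T)
    (ht₁ : t₁ ∈ closure T) (hL : AnalyticOnNhd ℂ L T) (hlab : ∀ t ∈ T, LabAt f₀ f N L t) :
    ∃ r > 0, ∃ l : ℂ → ℂ, AnalyticOnNhd ℂ l (ball t₁ r) ∧
      (∀ t ∈ T ∩ ball t₁ r, l t = L t) ∧ ∀ t ∈ ball t₁ r, LabAt f₀ f N l t := by
  rcases lj_mero hf with ⟨g, hg1, hg2⟩ | ⟨g, hg1, hg2⟩
  · exact lj_local hLU hper hNL hg1 hg2 hN hfc hT hTc ht₁ hL hlab
  · have hper' : ∀ z, (fun w => (f₀ w)⁻¹) (z + 1) = (fun w => (f₀ w)⁻¹) z := by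
      intro z
      show (f₀ (z + 1))⁻¹ = (f₀ z)⁻¹
      rw [hper]
    have hNL' : NoLim (fun w => (f₀ w)⁻¹) := by
      refine ⟨hNL.top', hNL.bot', fun x => ?_, fun x => ?_⟩
      · simp only [inv_inv]
        exact hNL.top x
      · simp only [inv_inv]
        exact hNL.bot x
    obtain ⟨r, hr, l, hl1, hl3, hl4⟩ := lj_local (f := fun s => (f s)⁻¹) (L := L)
      hLU.inv hper' hNL' hg1 hg2 hN (fun c hc => hfc c⁻¹ (hc.mono fun s hs => by
        rw [← hs, inv_inv])) hT hTc ht₁ hL (fun t ht => by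
        filter_upwards [hlab t ht] with s hs
        exact ⟨by rw [hs.1], hs.2⟩)
    refine ⟨r, hr, l, hl1, hl3, fun t ht => ?_⟩
    filter_upwards [hl4 t ht] with s hs
    exact ⟨inv_injective hs.1, hs.2⟩

end Pool.Agent.MP_ae5b4e_an_NBT
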