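import Mathlib
import Pool.Agent.Lib.MP_ae5b4e_an_NBT.LabIb
import Pool.Agent.Lib.MP_ae5b4e_an_MERO.Fourier
import Pool.Agent.Lib.MP_ae5b4e_an_MERO.Countable

/-!
# MP_ae5b4e_an, project NB: continuation of a label with values in the plane, to a strip
-/

noncomputable section

namespace Pool.Agent.MP_ae5b4e_an_NBT

open Complex Set Filter Topology Metric

/-- an open rectangle -/
private def lcR (x1 x2 b Y : ℝ) : Set ℂ := {t | (x1 < t.re ∧ t.re < x2) ∧ b < t.im ∧ t.im < Y}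

private theorem lcR_open (x1 x2 b Y : ℝ) : IsOpen (lcR x1 x2 b Y) :=
  ((isOpen_lt continuous_const continuous_re).inter
    (isOpen_lt continuous_re continuous_const)).inter
    ((isOpen_lt continuous_const continuous_im).inter (isOpen_lt continuous_im continuous_const))

private theorem lcR_eq (x1 x2 b Y : ℝ) : lcR x1 x2 b Y = Ioo x1 x2 ×ℂ Ioo b Y := by
  ext t
  rw [mem_reProdIm]
  rfl

private theorem lcR_convex (x1 x2 b Y : ℝ) : Convex ℝ (lcR x1 x2 b Y) := by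
  exact ((convex_Ioo x1 x2).linear_preimage reLm).inter ((convex_Ioo b Y).linear_preimage imLm)

/-- a label on a set -/
private def lcL (f₀ f N : ℂ → ℂ) (T : Set ℂ) (L : ℂ → ℂ) : Prop :=
  AnalyticOnNhd ℂ L T ∧ ∀ t ∈ T, LabAt f₀ f N L t

private theorem lc_germ {f₀ f N L L' : ℂ → ℂ} {t : ℂ} (hL : LabAt f₀ f N L t)
    (h : L' =ᶠ[𝓝 t] L) : LabAt f₀ f N L' t := by
  have h1 : ∀ᶠ s in 𝓝[≠] t, L' =ᶠ[𝓝 s] L := h.eventuallyEq_nhds.filter_mono nhdsWithin_le_nhds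
  filter_upwards [hL, h1] with s hs1 hs2
  rw [hs2.deriv.deriv_eq, hs2.deriv_eq, hs2.eq_of_nhds]
  exact hs1

private theorem lcL_of_germ {f₀ f N L : ℂ → ℂ} {T : Set ℂ}
    (H : ∀ t ∈ T, ∃ L' T', t ∈ T' ∧ lcL f₀ f N T' L' ∧ L =ᶠ[𝓝 t] L') : lcL f₀ f N T L := by
  refine ⟨fun t ht => ?_, fun t ht => ?_⟩
  · obtain ⟨L', T', h1, h2, h3⟩ := H t ht
    exact (h2.1 t h1).congr h3.symm
  · obtain ⟨L', T', h1, h2, h3⟩ := H t ht
    exact lc_germ (h2.2 t h1) h3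

private theorem lcL_mono {f₀ f N L : ℂ → ℂ} {T T' : Set ℂ} (H : lcL f₀ f N T L)
    (hT : T' ⊆ T) : lcL f₀ f N T' L :=
  ⟨H.1.mono hT, fun t ht => H.2 t (hT ht)⟩

/-- two labels on rectangles which agree below agree -/
private theorem lc_uniq {L₁ L L' : ℂ → ℂ} {a x1 x2 Y x1' x2' Y' : ℝ} (ha : 0 < a)
    (hL : AnalyticOnNhd ℂ L (lcR x1 x2 (-a) Y))
    (hlow : ∀ t ∈ lcR x1 x2 (-a) Y, t.im < a → L t = L₁ t)
    (hL' : AnalyticOnNhd ℂ L' (lcR x1' x2' (-a) Y'))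
    (hlow' : ∀ t ∈ lcR x1' x2' (-a) Y', t.im < a → L' t = L₁ t) {t : ℂ}
    (ht : t ∈ lcR x1 x2 (-a) Y) (ht' : t ∈ lcR x1' x2' (-a) Y') : L t = L' t := by
  set p : ℂ := t.re + ((-a + min (min Y Y') a) / 2 : ℝ) * I with hp
  have hpre : p.re = t.re := by simp [hp]
  have hpim : p.im = (-a + min (min Y Y') a) / 2 := by simp [hp]
  have h1 : -a < min (min Y Y') a :=
    lt_min (lt_min (ht.2.1.trans ht.2.2) (ht'.2.1.trans ht'.2.2)) (by linarith)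
  have h2 : min (min Y Y') a ≤ Y := (min_le_left _ _).trans (min_le_left _ _)
  have h3 : min (min Y Y') a ≤ Y' := (min_le_left _ _).trans (min_le_right _ _)
  have h4 : min (min Y Y') a ≤ a := min_le_right _ _
  have hpa : p.im < a := by rw [hpim]; linarith
  have hpm : p ∈ lcR x1 x2 (-a) Y :=
    ⟨by rw [hpre]; exact ht.1, by rw [hpim]; linarith, by rw [hpim]; linarith⟩
  have hpm' : p ∈ lcR x1' x2' (-a) Y' :=
    ⟨by rw [hpre]; exact ht'.1, by rw [hpim]; linarith, by rw [hpim]; linarith⟩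
  have hpc : IsPreconnected (lcR x1 x2 (-a) Y ∩ lcR x1' x2' (-a) Y') :=
    ((lcR_convex _ _ _ _).inter (lcR_convex _ _ _ _)).isPreconnected
  refine (hL.mono inter_subset_left).eqOn_of_preconnected_of_eventuallyEq
    (hL'.mono inter_subset_right) hpc ⟨hpm, hpm'⟩ ?_ ⟨ht, ht'⟩
  filter_upwards [(lcR_open _ _ _ _).mem_nhds hpm, (lcR_open _ _ _ _).mem_nhds hpm',
    (isOpen_lt continuous_im continuous_const).mem_nhds hpa] with s h5 h6 h7
  rw [hlow s h5 h7, hlow' s h6 h7]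

private theorem lc_nc {f₀ : ℂ → ℂ} (hLU : LU f₀ univ)
    {f N L₁ : ℂ → ℂ} {a y : ℝ} (ha : 0 < a) (hay : a ≤ y)
    (hf : ∀ t ∈ St (-a) y, MeromorphicAt f t)
    (hL₁ : AnalyticOnNhd ℂ L₁ (St (-a) a))
    (hper : ∀ t ∈ St (-a) a, L₁ (t + 1) = L₁ t + 1) (hlab : ∀ t ∈ St (-a) a, LabAt f₀ f N L₁ t)
    {t : ℂ} (ht : t ∈ St (-a) y) (c : ℂ) : ¬ ∀ᶠ s in 𝓝[≠] t, f s = c := by
  intro hc
  have hsub : St (-a) a ⊆ St (-a) y := fun s hs => ⟨hs.1, lt_of_lt_of_le hs.2 hay⟩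
  have hpc : IsPreconnected (St (-a) y) := (convex_St _ _).isPreconnected
  have h0 : (0 : ℂ) ∈ St (-a) a := by
    rw [mem_St]
    simp
    exact ha
  have h1 : (0 : ℂ) + 1 ∈ St (-a) a := by
    rw [mem_St]
    simp
    exact ha
  have hall : ∀ s ∈ St (-a) a, ∀ᶠ q in 𝓝[≠] s, f q = c := by
    intro s hs
    exact MP_ae5b4e_an_MERO.mero_ident (D := St (-a) y) (isOpen_St _ _) hpc (f := f)
      (g := fun _ => c) hf (fun q _ => MeromorphicAt.const c q) ht hc.frequently (hsub hs)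
  have hder : ∀ s ∈ St (-a) a, deriv L₁ s = 0 := by
    intro s hs
    have h2 := (hlab s hs).and (hall s hs)
    have hcase : ∀ g : ℂ → ℂ, AnalyticAt ℂ g (L₁ s) → deriv g (L₁ s) ≠ 0 →
        (∃ c', ∀ᶠ q in 𝓝[≠] s, g (L₁ q) = c') → deriv L₁ s = 0 := by
      rintro g hg hg0 ⟨c', hc'⟩
      have hcomp : AnalyticAt ℂ (fun q => g (L₁ q)) s := hg.comp (hL₁ s hs)
      have h3 : ∀ᶠ q in 𝓝 s, g (L₁ q) = c' :=
        (hcomp.frequently_eq_iff_eventually_eq analyticAt_const).1 hc'.frequently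
      have h4 : deriv (fun q => g (L₁ q)) s = 0 := by
        have h5 : (fun q => g (L₁ q)) =ᶠ[𝓝 s] fun _ => c' := h3
        rw [h5.deriv_eq]
        exact deriv_const _ _
      have h5 : deriv (fun q => g (L₁ q)) s = deriv g (L₁ s) * deriv L₁ s :=
        (hg.differentiableAt.hasDerivAt.comp s (hL₁ s hs).differentiableAt.hasDerivAt).deriv
      rw [h5] at h4
      exact (mul_eq_zero.1 h4).resolve_left hg0
    rcases hLU (L₁ s) (mem_univ _) with h3 | h3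
    · refine hcase f₀ h3.1 h3.2 ⟨c, ?_⟩
      filter_upwards [h2] with q hq
      rw [← hq.1.1]
      exact hq.2
    · refine hcase _ h3.2.1 h3.2.2 ⟨c⁻¹, ?_⟩
      filter_upwards [h2] with q hq
      rw [← hq.1.1, hq.2]
  have h2 := (isOpen_St (-a) a).is_const_of_deriv_eq_zero (convex_St _ _).isPreconnected
    (fun s hs => (hL₁ s hs).differentiableAt.differentiableWithinAt) hder h0 h1
  rw [hper 0 h0] at h2
  have h3 : (1 : ℂ) = 0 := by linear_combination -h2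
  exact one_ne_zero h3

/-- one step up -/
private theorem lc_step {f₀ : ℂ → ℂ} (hLU : LU f₀ univ) (hper : ∀ z, f₀ (z + 1) = f₀ z)
    (hNL : NoLim f₀) {f N L : ℂ → ℂ} {a y x1 x2 Y : ℝ} (ha : 0 < a) (hx : x1 < x2)
    (hf : ∀ t ∈ St (-a) y, MeromorphicAt f t) (hN : ∀ t ∈ St (-a) y, MeromorphicAt N t)
    (hfc : ∀ t ∈ St (-a) y, ∀ c : ℂ, ¬ ∀ᶠ s in 𝓝[≠] t, f s = c) (hY : a ≤ Y) (hYy : Y < y)
    (hL : lcL f₀ f N (lcR x1 x2 (-a) Y) L) :
    ∃ δ > 0, ∃ L' : ℂ → ℂ, lcL f₀ f N (lcR x1 x2 (-a) (Y + δ)) L' ∧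
      ∀ t, t.im < Y → L' t = L t := by
  have hcl : ∀ c : ℂ, x1 ≤ c.re → c.re ≤ x2 → c.im = Y → c ∈ closure (lcR x1 x2 (-a) Y) := by
    intro c h1 h2 h3
    rw [lcR_eq, closure_reProdIm, closure_Ioo hx.ne, closure_Ioo (by linarith : -a ≠ Y),
      mem_reProdIm, h3]
    exact ⟨⟨h1, h2⟩, by linarith, le_rfl⟩
  set K : Set ℂ := Icc x1 x2 ×ℂ {Y} with hK
  have hKc : IsCompact K := isCompact_Icc.reProdIm isCompact_singleton
  have hloc : ∀ c : K, ∃ r > 0, ∃ l : ℂ → ℂ, lcL f₀ f N (ball (c : ℂ) r) l ∧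
      ∀ t ∈ lcR x1 x2 (-a) Y ∩ ball (c : ℂ) r, l t = L t := by
    rintro ⟨c, hc⟩
    rw [hK, mem_reProdIm] at hc
    have hc2 : c.im = Y := hc.2
    have hcS : c ∈ St (-a) y := by
      rw [mem_St, hc2]
      constructor <;> linarith
    obtain ⟨r, hr, l, h1, h3, h4⟩ := lab_local_inf hLU hper hNL (hf c hcS) (hN c hcS) (hfc c hcS)
      (lcR_open _ _ _ _) (lcR_convex _ _ _ _) (hcl c hc.1.1 hc.1.2 hc2) hL.1 hL.2
    exact ⟨r, hr, l, ⟨h1, h4⟩, h3⟩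
  choose r hr l hl hlL using hloc
  obtain ⟨δ, hδ, hleb⟩ := lebesgue_number_lemma_of_metric hKc (c := fun c : K => ball (c : ℂ) (r c))
    (fun c => isOpen_ball) (fun c hc => mem_iUnion.2 ⟨⟨c, hc⟩, mem_ball_self (hr ⟨c, hc⟩)⟩)
  have hloc2 : ∀ x : ℝ, x1 < x → x < x2 → ∃ l' : ℂ → ℂ,
      lcL f₀ f N (ball ((x : ℂ) + Y * I) δ) l' ∧
      ∀ t ∈ lcR x1 x2 (-a) Y ∩ ball ((x : ℂ) + Y * I) δ, l' t = L t := by
    intro x h1 h2
    obtain ⟨c, hc⟩ := hleb ((x : ℂ) + Y * I) (by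
      rw [hK, mem_reProdIm]
      simp
      exact ⟨h1.le, h2.le⟩)
    exact ⟨l c, lcL_mono (hl c) hc, fun t ht => hlL c t ⟨ht.1, hc ht.2⟩⟩
  choose! m hm hmL using hloc2
  -- the balls
  have hdist : ∀ t : ℂ, dist t ((t.re : ℂ) + Y * I) = |t.im - Y| := by
    intro t
    rw [dist_eq_norm]
    have : t - ((t.re : ℂ) + Y * I) = ((t.im - Y : ℝ) : ℂ) * I := by
      apply Complex.ext <;> simp
    rw [this, norm_mul, norm_I, mul_one, norm_real, Real.norm_eq_abs]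
  -- agreement of the local continuations
  have hagree : ∀ x : ℝ, x1 < x → x < x2 → ∀ x' : ℝ, x1 < x' → x' < x2 → ∀ s : ℂ,
      s ∈ ball ((x : ℂ) + Y * I) δ → s ∈ ball ((x' : ℂ) + Y * I) δ → s.re = x' →
      m x' s = m x s := by
    intro x h1 h2 x' h3 h4 s h5 h6 h7
    set O := ball ((x : ℂ) + Y * I) δ ∩ ball ((x' : ℂ) + Y * I) δ with hO
    have hOo : IsOpen O := isOpen_ball.inter isOpen_ball
    have hOc : IsPreconnected O := ((convex_ball _ _).inter (convex_ball _ _)).isPreconnected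
    have hc' : ((x' : ℂ) + Y * I) ∈ O := by
      refine ⟨?_, mem_ball_self hδ⟩
      rw [mem_ball] at h5 ⊢
      refine lt_of_le_of_lt ?_ h5
      rw [dist_eq_norm, dist_eq_norm]
      have e1 : ((x' : ℂ) + Y * I) - ((x : ℂ) + Y * I) = ((x' - x : ℝ) : ℂ) := by
        push_cast; ring
      have e2 : (s - ((x : ℂ) + Y * I)).re = x' - x := by simp [h7]
      rw [e1, norm_real, Real.norm_eq_abs, ← e2]
      exact abs_re_le_norm _
    obtain ⟨p, hpO, hpT⟩ := mem_closure_iff.1 (hcl ((x' : ℂ) + Y * I) (by simp [h3.le])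
      (by simp [h4.le]) (by simp)) O hOo hc'
    refine ((hm x' h3 h4).1.mono inter_subset_right).eqOn_of_preconnected_of_eventuallyEq
      ((hm x h1 h2).1.mono inter_subset_left) hOc hpO ?_ ⟨h5, h6⟩
    filter_upwards [(lcR_open _ _ _ _).mem_nhds hpT, hOo.mem_nhds hpO] with q hq1 hq2
    rw [hmL x' h3 h4 q ⟨hq1, hq2.2⟩, hmL x h1 h2 q ⟨hq1, hq2.1⟩]
  refine ⟨δ, hδ, fun t => if t.im < Y then L t else m t.re t, ?_, fun t ht => if_pos ht⟩
  refine lcL_of_germ fun t ht => ?_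
  by_cases htY : t.im < Y
  · refine ⟨L, lcR x1 x2 (-a) Y, ⟨ht.1, ht.2.1, htY⟩, hL, ?_⟩
    filter_upwards [(isOpen_lt continuous_im continuous_const).mem_nhds htY] with s hs
    exact if_pos hs
  · have htb : t ∈ ball ((t.re : ℂ) + Y * I) δ := by
      rw [mem_ball, hdist, abs_lt]
      have := ht.2.2
      rw [not_lt] at htY
      constructor <;> linarith
    refine ⟨m t.re, ball ((t.re : ℂ) + Y * I) δ, htb, hm t.re ht.1.1 ht.1.2, ?_⟩
    filter_upwards [(lcR_open _ _ _ _).mem_nhds ht, isOpen_ball.mem_nhds htb] with s hs1 hs2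
    by_cases hsY : s.im < Y
    · rw [if_pos hsY]
      exact (hmL t.re ht.1.1 ht.1.2 s ⟨⟨hs1.1, hs1.2.1, hsY⟩, hs2⟩).symm
    · rw [if_neg hsY]
      refine hagree t.re ht.1.1 ht.1.2 s.re hs1.1.1 hs1.1.2 s hs2 ?_ rfl
      rw [mem_ball, hdist, abs_lt]
      have := hs1.2.2
      rw [not_lt] at hsY
      constructor <;> linarith

/-- labels on rectangles of full height -/
private theorem lc_rect {f₀ : ℂ → ℂ} (hLU : LU f₀ univ) (hper : ∀ z, f₀ (z + 1) = f₀ z)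
    (hNL : NoLim f₀) {f N L₁ : ℂ → ℂ} {a y x1 x2 : ℝ} (ha : 0 < a) (hay : a ≤ y) (hx : x1 < x2)
    (hf : ∀ t ∈ St (-a) y, MeromorphicAt f t) (hN : ∀ t ∈ St (-a) y, MeromorphicAt N t)
    (hfc : ∀ t ∈ St (-a) y, ∀ c : ℂ, ¬ ∀ᶠ s in 𝓝[≠] t, f s = c)
    (hL₁ : lcL f₀ f N (St (-a) a) L₁) :
    ∃ L : ℂ → ℂ, lcL f₀ f N (lcR x1 x2 (-a) y) L ∧
      ∀ t ∈ lcR x1 x2 (-a) y, t.im < a → L t = L₁ t := by
  set S : Set ℝ := {Y | (a ≤ Y ∧ Y ≤ y) ∧ ∃ L : ℂ → ℂ, lcL f₀ f N (lcR x1 x2 (-a) Y) L ∧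
      ∀ t ∈ lcR x1 x2 (-a) Y, t.im < a → L t = L₁ t} with hS
  have haS : a ∈ S := ⟨⟨le_rfl, hay⟩, L₁, lcL_mono hL₁ fun t ht => ht.2, fun _ _ _ => rfl⟩
  have hbdd : BddAbove S := ⟨y, fun Y hY => hY.1.2⟩
  have has : a ≤ sSup S := le_csSup hbdd haS
  have hsy : sSup S ≤ y := csSup_le ⟨a, haS⟩ fun Y hY => hY.1.2
  have hlt : ∀ Y : ℝ, Y < sSup S → ∃ L : ℂ → ℂ, lcL f₀ f N (lcR x1 x2 (-a) Y) L ∧
      ∀ t ∈ lcR x1 x2 (-a) Y, t.im < a → L t = L₁ t := by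
    intro Y hY
    obtain ⟨Y', ⟨_, L, h1, h2⟩, hYY'⟩ := exists_lt_of_lt_csSup ⟨a, haS⟩ hY
    have hsub : lcR x1 x2 (-a) Y ⊆ lcR x1 x2 (-a) Y' := fun t ht =>
      ⟨ht.1, ht.2.1, ht.2.2.trans hYY'⟩
    exact ⟨L, lcL_mono h1 hsub, fun t ht => h2 t (hsub ht)⟩
  choose! Lf hLf hLf' using hlt
  have hsS : sSup S ∈ S := by
    refine ⟨⟨has, hsy⟩, fun t => Lf ((t.im + sSup S) / 2) t, ?_, ?_⟩
    · refine lcL_of_germ fun t ht => ?_
      have ht2 := ht.2.2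
      have h1 : (t.im + sSup S) / 2 < sSup S := by linarith
      have h2 : t.im < (t.im + sSup S) / 2 := by linarith
      have hmem : t ∈ lcR x1 x2 (-a) ((t.im + sSup S) / 2) := ⟨ht.1, ht.2.1, h2⟩
      refine ⟨Lf ((t.im + sSup S) / 2), _, hmem, hLf _ h1, ?_⟩
      filter_upwards [(lcR_open _ _ _ _).mem_nhds hmem] with s hs
      have hs2 := hs.2.2
      have h3 : (s.im + sSup S) / 2 < sSup S := by linarith
      have h4 : s.im < (s.im + sSup S) / 2 := by linarith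
      exact lc_uniq ha (hLf _ h3).1 (hLf' _ h3) (hLf _ h1).1 (hLf' _ h1) ⟨hs.1, hs.2.1, h4⟩ hs
    · intro t ht hta
      have ht2 := ht.2.2
      have h1 : (t.im + sSup S) / 2 < sSup S := by linarith
      have h2 : t.im < (t.im + sSup S) / 2 := by linarith
      exact hLf' _ h1 t ⟨ht.1, ht.2.1, h2⟩ hta
  have hfin : sSup S = y := by
    by_contra hne
    have hlt' : sSup S < y := lt_of_le_of_ne hsy hne
    obtain ⟨_, L, h1, h2⟩ := hsS
    obtain ⟨δ, hδ, L', h3, h4⟩ := lc_step hLU hper hNL ha hx hf hN hfc has hlt' h1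
    have h5 : min (sSup S + δ) y ∈ S := by
      refine ⟨⟨le_min (by linarith) hay, min_le_right _ _⟩, L', lcL_mono h3 fun t ht =>
        ⟨ht.1, ht.2.1, ht.2.2.trans_le (min_le_left _ _)⟩, fun t ht hta => ?_⟩
      have h6 : t.im < sSup S := lt_of_lt_of_le hta has
      rw [h4 t h6]
      exact h2 t ⟨ht.1, ht.2.1, h6⟩ hta
    have h6 := le_csSup hbdd h5
    have h7 : sSup S < min (sSup S + δ) y := lt_min (by linarith) hlt'
    linarith
  rw [hfin] at hsS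
  exact hsS.2

/-- the label continues to the whole strip on which `f` and `N` are meromorphic -/
theorem lab_strip_inf {f₀ : ℂ → ℂ} (hLU : LU f₀ univ) (hper : ∀ z, f₀ (z + 1) = f₀ z)
    (hNL : NoLim f₀) {f N L₁ : ℂ → ℂ} {a y : ℝ} (ha : 0 < a) (hay : a ≤ y)
    (hf : ∀ t ∈ St (-a) y, MeromorphicAt f t) (hN : ∀ t ∈ St (-a) y, MeromorphicAt N t)
    (hL₁ : AnalyticOnNhd ℂ L₁ (St (-a) a)) (hL₁p : ∀ t ∈ St (-a) a, L₁ (t + 1) = L₁ t + 1)
    (hlab : ∀ t ∈ St (-a) a, LabAt f₀ f N L₁ t) :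
    ∃ L : ℂ → ℂ, AnalyticOnNhd ℂ L (St (-a) y) ∧ (∀ t ∈ St (-a) a, L t = L₁ t) ∧
      (∀ t ∈ St (-a) y, L (t + 1) = L t + 1) ∧ ∀ t ∈ St (-a) y, LabAt f₀ f N L t := by
  have hfc := fun t (ht : t ∈ St (-a) y) (c : ℂ) =>
    lc_nc hLU ha hay hf hL₁ hL₁p hlab ht c
  have hex : ∀ x : ℝ, ∃ L : ℂ → ℂ, lcL f₀ f N (lcR (x - 1) (x + 1) (-a) y) L ∧
      ∀ t ∈ lcR (x - 1) (x + 1) (-a) y, t.im < a → L t = L₁ t := fun x =>
    lc_rect hLU hper hNL ha hay (by linarith) hf hN hfc ⟨hL₁, hlab⟩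
  choose Lx hLx hLx' using hex
  have hself : ∀ t ∈ St (-a) y, t ∈ lcR (t.re - 1) (t.re + 1) (-a) y := fun t ht =>
    ⟨⟨by linarith, by linarith⟩, ht⟩
  have hlow : ∀ t ∈ St (-a) a, Lx t.re t = L₁ t := by
    intro t ht
    have ht' : t ∈ St (-a) y := ⟨ht.1, lt_of_lt_of_le ht.2 hay⟩
    exact hLx' t.re t (hself t ht') ht.2
  have hL : lcL f₀ f N (St (-a) y) (fun t => Lx t.re t) := by
    refine lcL_of_germ fun t ht => ?_
    refine ⟨Lx t.re, _, hself t ht, hLx t.re, ?_⟩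
    filter_upwards [(lcR_open _ _ _ _).mem_nhds (hself t ht)] with s hs
    exact lc_uniq ha (hLx s.re).1 (hLx' s.re) (hLx t.re).1 (hLx' t.re) (hself s hs.2) hs
  refine ⟨fun t => Lx t.re t, hL.1, hlow, ?_, hL.2⟩
  have h0 : (0 : ℂ) ∈ St (-a) a := by
    rw [mem_St]
    simp
    exact ha
  have h0' : (0 : ℂ) ∈ St (-a) y := ⟨h0.1, lt_of_lt_of_le h0.2 hay⟩
  have hadd : ∀ (b : ℝ) (t : ℂ), t ∈ St (-a) b → t + 1 ∈ St (-a) b := by
    intro b t ht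
    rw [mem_St] at ht ⊢
    simpa using ht
  have hsh : AnalyticOnNhd ℂ (fun t => (fun t => Lx t.re t) (t + 1)) (St (-a) y) := by
    intro t ht
    exact AnalyticAt.comp (g := fun t => Lx t.re t) (f := fun t : ℂ => t + 1)
      (hL.1 (t + 1) (hadd y t ht)) (by fun_prop)
  have hsh' : AnalyticOnNhd ℂ (fun t => (fun t => Lx t.re t) t + 1) (St (-a) y) := fun t ht =>
    (hL.1 t ht).add analyticAt_const
  intro t ht
  refine hsh.eqOn_of_preconnected_of_eventuallyEq hsh' (convex_St _ _).isPreconnected h0' ?_ ht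
  filter_upwards [(isOpen_St (-a) a).mem_nhds h0] with s hs
  have h1 := hlow (s + 1) (hadd a s hs)
  have h2 := hlow s hs
  rw [h1, h2, hL₁p s hs]

end Pool.Agent.MP_ae5b4e_an_NBT
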