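import Mathlib
import Pool.Agent.Lib.MP_ae5b4e_an_NBT.LabI
import Pool.Agent.Lib.MP_ae5b4e_an_NBT.HartS
import Pool.Agent.Lib.MP_ae5b4e_an_NBT.Reg1
import Pool.Agent.Lib.MP_ae5b4e_an_NBT.LabE
import Pool.Agent.Lib.MP_ae5b4e_an_NBT.LabelC

/-!
# MP_ae5b4e_an, project NB: the label when the limit curve is meromorphic on the plane
-/

noncomputable section

namespace Pool.Agent.MP_ae5b4e_an_NBT

open Complex Set Filter Topology Metric
open scoped ComplexConjugate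

/-- the conic datum when the limit curve extends to the plane -/
def ConI (k : ℂ → ℂ) (F : ℂ × ℂ → ℂ) (c : ℝ) (G : ℂ × ℂ → ℂ) : Prop := ∀ h > c, ConE k F c h G

theorem exists_conI {k : ℂ → ℂ} {F : ℂ × ℂ → ℂ} {c : ℝ} (hC : Con k F c)
    (hext : ∀ y, ExtM F c (c / 4) y 0) : ∃ G : ℂ × ℂ → ℂ, ConI k F c G := by
  obtain ⟨G, hG⟩ := exists_conE hC (show c < c + 1 by linarith) (fun y _ => hext y)
  exact ⟨G, fun h hh => ⟨hC, hh, fun y _ => hext y, hG.merG, hG.eqG, hG.perG, hG.evenG,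
    hG.reflG⟩⟩

variable {k : ℂ → ℂ} {F G : ℂ × ℂ → ℂ} {c : ℝ}

/-- **the label** -/
theorem exists_label_inf (hI : ConI k F c G) (hLU : LU (sl G 0) univ) (hNL : NoLim (sl G 0)) :
    ∃ R : ℝ, 0 < R ∧ R ≤ c / 4 ∧ ∃ L : ℂ × ℂ → ℂ, AnalyticOnNhd ℂ L (DK F c R) ∧
      (∀ p ∈ DK F c R, L (p.1 + 1, p.2) = L p + 1 ∧ L (p.1, -p.2) = L p ∧
        L (conj p.1, conj p.2) = conj (L p) ∧ EqM G (fun q => sl G 0 (L q)) p ∧
        EqM (KF G) (fun q => sl (KF G) 0 (L q)) p) ∧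
      ∀ t : ℂ, L (t, 0) = t := by
  have hE : ConE k F c (c + 1) G := hI (c + 1) (show c < c + 1 by linarith)
  have hEt : ∀ t : ℂ, ∃ h, |t.im| < h ∧ ConE k F c h G := fun t =>
    ⟨max (c + 1) (|t.im| + 1), lt_of_lt_of_le (lt_add_one _) (le_max_right _ _),
      hI _ (lt_of_lt_of_le (show c < c + 1 by linarith) (le_max_left _ _))⟩
  obtain ⟨a, R, ha, hac, hR0, hR, L₁, hL₁, hb, hb0⟩ := label_base_conE hE
  have hsl : ∀ ρ ∈ ball (0:ℂ) R, AnalyticOnNhd ℂ (fun t => L₁ (t, ρ)) (St (-a) a) := by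
    intro ρ hρ t ht
    exact AnalyticAt.fun_comp (g := L₁) (f := fun s : ℂ => (s, ρ)) (hL₁ (t, ρ) ⟨ht, hρ⟩)
      (analyticAt_id.prod analyticAt_const)
  have hper : ∀ z, sl G 0 (z + 1) = sl G 0 z := by
    intro z
    obtain ⟨h, h1, h2⟩ := hEt z
    exact labelC_per h2 h1
  obtain ⟨L, h1, h2, h3⟩ := labelC_core hE ha hac hR0 hR hL₁
    (fun p hp => ⟨(hb p hp).1, (hb p hp).2.2.1, (hb p hp).2.2.2.1, (hb p hp).2.2.2.2.1⟩) hb0
    (S := univ) hLU (fun z _ => mem_univ _)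
    (fun z _ => by
      obtain ⟨h, h1, h2⟩ := hEt z
      exact (slAt_K h2 (mem_DK_zero h2 h1)).meromorphicAt)
    (by
      intro ρ hρ y hay hy
      obtain ⟨L, l1, l2, l3, -⟩ := lab_strip_inf hLU hper hNL (f := sl G ρ)
        (N := sl (NN G) ρ) (L₁ := fun t => L₁ (t, ρ)) ha hay
        (fun t ht => (slAt_G hE (DK_shift hE.toCon
          (labelC_DK_mono hR (labelC_mem hE hac hR hρ hy ht))).1).meromorphicAt)
        (fun t ht => (slAt_N hE (labelC_DK_mono hR (labelC_mem hE hac hR hρ hy ht))).meromorphicAt)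
        (hsl ρ hρ)
        (fun t ht => (hb (t, ρ) ⟨ht, hρ⟩).2.1)
        (fun t ht => (hb (t, ρ) ⟨ht, hρ⟩).2.2.2.2.2)
      exact ⟨L, l1, mapsTo_univ _ _, l2, l3⟩)
    (by
      intro L W y hW hay l1 _ l3
      exact joint_of_sep hW ha hay l1 l3)
  refine ⟨R, hR0, hR, L, h1, fun p hp => (h2 p hp).2, fun t => h3 t ?_⟩
  obtain ⟨h, h4, h5⟩ := hEt t
  exact ⟨mem_ball_self hR0, (mem_DK_zero h5 h4).2⟩

end Pool.Agent.MP_ae5b4e_an_NBT
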